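import Mathlib
import Pool.Agent.Lib.MP_3bda03_nt.H.Layer
import Pool.Agent.Lib.MP_3bda03_nt.H.Radial
import Pool.Agent.Lib.MP_3bda03_nt.H.Ana

-- part Pool.Agent.Lib.MP_3bda03_nt.T.Defs
section

/-!
The test family: one dimensional model, criterion, and the interface to the random lattice
(definitions).
-/

set_option autoImplicit false

noncomputable section

open MeasureTheory Set Pool.Agent.Eps.H

namespace Pool.Agent.Eps.T

/-- logarithm of the kernel -/
def lk (p η : ℝ) : ℝ := -((Real.exp (p * η) - 1 - p * η) / p ^ 2)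

/-- the kernel -/
def kf (p η : ℝ) : ℝ := Real.exp (lk p η)

/-- minus the logarithmic derivative of the kernel -/
def qf (p η : ℝ) : ℝ := (Real.exp (p * η) - 1) / p

/-- tail integral -/
def At (p α ξ : ℝ) : ℝ := ∫ η in Ioi ξ, Real.exp (α * η) * kf p η

/-- the profile -/
def Af (p α ξ : ℝ) : ℝ := Real.exp (-(α * ξ)) * At p α ξ

/-- minus the derivative of the profile -/
def cf (p α ξ : ℝ) : ℝ := α * Af p α ξ + kf p ξ

/-- minus the derivative of `Af / kf` with respect to `qf` -/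
def Gf (p α η : ℝ) : ℝ :=
  ∫ y in Ioi (0 : ℝ), qf p y * (Real.exp (α * y) * (kf p (η + y) / kf p η))

/-- a left tail integral -/
def Bq (p ξ : ℝ) : ℝ := ∫ η in Iic ξ, Real.exp ((η - ξ) / p) * kf p η

/-- range of the cell factor -/
def ShR (l cd t : ℝ) : Prop :=
  ∀ U : ℝ, l ^ 2 / 24 ≤ U → U ≤ 1 →
    1 + l ^ 2 / 24 - cd * (1 + 6 * U) ≤ t ∧ t ≤ 1 + l ^ 2 / 24 + U ^ 2 / 2

/-- parameters and weights of a test family -/
structure Fam : Type where
  p : ℝ
  τ : ℝ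
  ρ : ℝ
  η : ℝ
  eh : ℝ
  β : ℝ → ℝ
  m : ℝ → ℝ
  r : ℝ → ℝ
  xc : ℝ
  bi : ℝ
  mi : ℝ
  rc : ℝ
  bt : ℝ
  w : ℝ

namespace Fam
variable (F : Fam)

def x1 : ℝ := -(F.τ / F.p)
def lam : ℝ := F.p / F.τ
def TT : ℝ := 2 * F.τ / F.p ^ 2
def k1 : ℝ := kf F.p F.x1
def kc : ℝ := kf F.p F.xc
def qc : ℝ := qf F.p F.xc

/-- standing assumptions -/
structure Ok : Prop where
  p_pos : 0 < F.p
  p_le : F.p ≤ 21 / 100
  τ_pos : 0 < F.τ
  ρ_pos : 0 < F.ρ
  η_nonneg : 0 ≤ F.η
  eh_nonneg : 0 ≤ F.eh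
  q_pos : F.p < 2 * F.qc
  bi_pos : 0 < F.bi
  bt_pos : 0 < F.bt
  w_pos : 0 < F.w
  rc_ge : 1 ≤ F.rc
  rc_env : F.k1 ≤ F.rc * F.kc
  mβ : Measurable F.β
  mm : Measurable F.m
  mr : Measurable F.r
  bd : ∃ b0 b1 : ℝ, 0 < b0 ∧ ∀ t ∈ Ioc F.x1 F.xc,
    b0 ≤ F.β t ∧ F.β t ≤ b1 ∧ |F.m t| ≤ b1 ∧ 0 ≤ F.r t ∧ F.r t ≤ b1
  env : ∀ t ∈ Ioc F.x1 F.xc, ∀ ξ ∈ Icc F.x1 t, F.k1 ≤ F.r t * kf F.p ξ

/-- cost of the forward tests with index between `a` and `b` -/
def Ep (a b : ℝ) : ℝ :=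
  ∫ t in a..b, F.β t * ((1 + F.η) * (2 * F.lam * (t - F.x1) + F.m t ^ 2) + F.eh * F.r t ^ 2)

/-- cost of the point test and of the tail tests -/
def Eq2 : ℝ :=
  F.bi * ((1 + F.η) * (2 * F.lam * (F.xc - F.x1) + F.lam / F.qc + F.mi ^ 2) + F.eh * F.rc ^ 2) +
    F.bt * ((1 + F.η) * (F.lam * Real.exp (F.p * F.xc) / (F.qc * (2 * F.qc - F.p))) +
      F.eh * (F.k1 / F.kc) ^ 2 * F.w)

/-- dual norm of the forward part -/
def I1 (α a b : ℝ) : ℝ := ∫ t in a..b, cf F.p α t ^ 2 / F.β t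

/-- shift of the forward part -/
def M1 (α a b : ℝ) : ℝ := ∫ t in a..b, F.m t * cf F.p α t

/-- bound for the tail coefficients -/
def Tl (α Θ : ℝ) : Prop :=
  ∀ t, F.xc ≤ t → F.kc * Gf F.p α t * (F.w + (qf F.p t - F.qc)) ^ 2 ≤ Θ

/-- the whole dual norm -/
def It (α Θ : ℝ) : ℝ :=
  F.I1 α F.x1 F.xc + Af F.p α F.xc ^ 2 / F.bi + Af F.p α F.xc * Θ / (F.bt * F.w ^ 2)

/-- the drift -/
def Dl (α : ℝ) : ℝ := 2 * Real.sqrt F.ρ * (Af F.p α F.x1 + Bq F.p F.x1) / (1 - F.p * α)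

def EA : ℝ :=
  27 / 20 * (F.ρ * F.TT) * Real.exp (-(11 / 50 / F.p ^ 2 * (18209 / 10000 - 2 * F.τ)))

def EB : ℝ :=
  173 / 100 * (F.ρ * F.TT) * Real.exp (-(2 / 5 / F.p ^ 2 * (12231 / 10000 - 2 * F.τ)))

/-- bound for the mean of the annulus term -/
def Mu (α μ : ℝ) : Prop :=
  (F.p * α < 39 / 50 ∧ F.EA * (2 * Real.sqrt F.ρ) * (Af F.p α F.x1 + F.k1 * F.p * (50 / 39)) /
    (39 / 50 - F.p * α) ≤ μ) ∨
  (3 / 5 < F.p * α ∧ F.EB * (2 * Real.sqrt F.ρ) * Af F.p α F.x1 / (F.p * α - 3 / 5) ≤ μ)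

/-- drift plus shift minus mean -/
def Yt (α μ : ℝ) : ℝ := F.Dl α + F.M1 α F.x1 F.xc + F.mi * Af F.p α F.xc - μ

/-- the criterion at one point -/
def CritAt (lf α : ℝ) : Prop :=
  ∃ Θ₁ Θ₂ μ₁ μ₂ : ℝ, F.Tl α Θ₁ ∧ F.Tl (-α) Θ₂ ∧ F.Mu α μ₁ ∧ F.Mu (-α) μ₂ ∧
    0 ≤ F.Yt α μ₁ + F.Yt (-α) μ₂ ∧
    2 * lf * (F.Ep F.x1 F.xc + F.Eq2) * (F.It α Θ₁ + F.It (-α) Θ₂) <
      (F.Yt α μ₁ + F.Yt (-α) μ₂) ^ 2

/-- the criterion -/
def Crit (lf : ℝ) : Prop := ∀ α, 0 ≤ α → F.p * α < 1 → F.CritAt lf α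

/-- shape of the test with index `t` -/
def shape (t ξ : ℝ) : ℝ :=
  if t ≤ F.x1 then (if ξ < F.xc then 1 else kf F.p ξ / F.kc)
  else if t ≤ F.xc then (if ξ < t then 1 else 0)
  else (if t ≤ ξ then kf F.p ξ / F.kc else 0)

/-- coefficient of the test with index `t` -/
def coef (α t : ℝ) : ℝ :=
  if t ≤ F.x1 then Af F.p α F.xc
  else if t ≤ F.xc then cf F.p α t
  else -(F.kc * Real.exp (F.p * t) * Gf F.p α t)

/-- weight, shift and envelope constant of the test with index `t` -/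
def wt (t : ℝ) : ℝ :=
  if t ≤ F.x1 then F.bi else if t ≤ F.xc then F.β t
  else F.bt * Real.exp (F.p * t) / (1 + (qf F.p t - F.qc) / F.w) ^ 2

def sh (t : ℝ) : ℝ := if t ≤ F.x1 then F.mi else if t ≤ F.xc then F.m t else 0

def en (t : ℝ) : ℝ := if t ≤ F.x1 then F.rc else if t ≤ F.xc then F.r t else F.k1 / F.kc

/-- the measure on the indices -/
def ix : Measure ℝ := volume.restrict (Ioi (F.x1 - 1))

/-- variance of the test with index `t` -/
def Nsh (t : ℝ) : ℝ := 2 * F.lam * ∫ ξ in Ici F.x1, F.shape t ξ ^ 2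

/-- the coordinate -/
def xi (ρ : ℝ) : ℝ := Real.log (Real.pi * ρ * F.p ^ 2) / F.p

/-- the base function -/
def bh (ξ : ℝ) : ℝ := Real.exp (-((ξ - F.x1) / F.p)) / (Real.sqrt F.ρ * F.TT)

/-- the radius -/
def rad : ℝ := Real.exp (-F.τ) / (Real.pi * F.p ^ 2)

/-- the test with index `t` -/
def tst (t ρ : ℝ) : ℝ := if ρ < F.rad then 0 else F.bh (F.xi ρ) * F.shape t (F.xi ρ)

/-- the common factor -/
def Th : ℝ := F.p * Real.exp (-(1 / F.p ^ 2) - F.x1 / F.p) * (Real.sqrt F.ρ * F.TT)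

/-- the relation between the parameters and the dimension -/
structure Dim (n : ℕ) : Prop where
  hp : F.p ^ 2 * n = 4
  hV : (Real.pi * F.rad) ^ ((n : ℝ) / 2) / Real.Gamma ((n : ℝ) / 2 + 1) = F.ρ * F.TT

end Fam

section
variable {ι : Type} [Fintype ι]

/-- sum of a radial function over the nonzero vectors -/
def Sm (g : Matrix ι ι ℝ) (φ : ℝ → ℝ) : ℝ := ∑' k : {k : ι → ℤ // k ≠ 0}, φ (nsq (lv k.1 g))

/-- the annulus -/
def ann (ι : Type) [Fintype ι] (r : ℝ) : Set (ι → ℝ) := {y | 4 / 5 * r ≤ nsq y ∧ nsq y < r}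

/-- the centre of a test -/
def ctr (r : ℝ) (w : (ι → ℝ) → ℝ) (φ : ℝ → ℝ) : ℝ :=
  (∫ y : ι → ℝ, φ (nsq y)) - ∫ y in ann ι r, w y * ftr (fun x : ι → ℝ => φ (nsq x)) y

/-- the variance of a test -/
def Nn (ι : Type) [Fintype ι] (φ : ℝ → ℝ) : ℝ := 2 * ∫ y : ι → ℝ, φ (nsq y) ^ 2

/-- the quadratic form -/
def Qf (π : Measure ℝ) (β m : ℝ → ℝ) (h : ℝ → ℝ → ℝ) (r : ℝ) (w : (ι → ℝ) → ℝ)
    (g : Matrix ι ι ℝ) : ENNReal :=
  ∫⁻ t, ENNReal.ofReal (β t * (Sm g (h t) - ctr r w (h t) + m t) ^ 2) ∂π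

/-- what the random lattice provides -/
def Iface (ι : Type) [Fintype ι] [DecidableEq ι] (r η ε η0 ϖ : ℝ) : Prop :=
  ∃ w : (ι → ℝ) → ℝ, Measurable w ∧ (∀ y, 0 ≤ w y ∧ w y ≤ 51 / 50) ∧
    ∀ (π : Measure ℝ) [SigmaFinite π] (β m C : ℝ → ℝ) (h : ℝ → ℝ → ℝ) (Λ : ℝ),
      Measurable β → Measurable m → Measurable C → Measurable (Function.uncurry h) →
      (∀ t, 0 ≤ β t) → (∀ t, Prof (h t)) →
      (∀ t ρ, 0 ≤ h t ρ ∧ h t ρ ≤ C t * Real.exp (-Real.pi * ρ)) →
      (∀ t ρ, ρ < r → h t ρ = 0) →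
      ∫⁻ t, ENNReal.ofReal (2 * (β t * ((1 + η) * (Nn ι (h t) + m t ^ 2) + ε * ϖ * C t ^ 2))) ∂π <
        ENNReal.ofReal ((1 - η0) * Λ) →
      ∃ g : Matrix ι ι ℝ, |g.det| = 1 ∧
        (∀ k : ι → ℤ, k ≠ 0 → r ≤ nsq (lv k g) ∧ r ≤ nsq (lv k (dual g))) ∧
        Qf π β m h r w g + Qf π β m h r w (dual g) ≤ ENNReal.ofReal Λ

end

/-- half the volume of the hole -/
def lamV (ν : ℝ) : ℝ := max (ν / 20 - 13 / 10) (3 * ν / 50 - 33 / 10)

/-- decay of the errors -/
def dec (ν : ℝ) : ℝ := Real.exp (-((ν - 97 / 2) / 1000))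

/-- the unit of the additive error -/
def varpi (ν r : ℝ) : ℝ :=
  Real.Gamma (ν + 1) * Real.exp ν / ν ^ ν * (2 * lamV ν) * Real.exp (-(2 * Real.pi * r))

/-- the statement of the sieve in dimension `n` -/
def Sieve (n : ℕ) : Prop :=
  ∀ r : ℝ, 0 < r →
    (Real.pi * r) ^ ((n : ℝ) / 2) / Real.Gamma ((n : ℝ) / 2 + 1) = 2 * lamV ((n : ℝ) / 2) →
    Iface (Fin n) r (1 / 50 * dec ((n : ℝ) / 2)) (3 / 25 * dec ((n : ℝ) / 2))
      (1 / 250 * dec ((n : ℝ) / 2)) (varpi ((n : ℝ) / 2) r)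

end Pool.Agent.Eps.T
end
end

-- part Pool.Agent.Lib.MP_3bda03_nt.T.A1
section

/-! The kernel: pointwise facts. -/

set_option autoImplicit false

noncomputable section

open MeasureTheory Set

namespace Pool.Agent.Eps.T

variable {p : ℝ}

theorem a1_pade {x : ℝ} (hx : 0 ≤ x) : 2 - x ≤ (2 + x) * Real.exp (-x) := by
  rcases le_or_gt 2 x with h | h
  · have h1 : 0 ≤ (2 + x) * Real.exp (-x) := by positivity
    linarith
  · have h2 : 0 < 2 - x := by linarith
    have ht : 0 ≤ 2 * x / (2 - x) := by positivity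
    have h1 := Real.le_log_one_add_of_nonneg ht
    have e1 : 2 * (2 * x / (2 - x)) / (2 * x / (2 - x) + 2) = x := by
      field_simp
      ring
    have e2 : 1 + 2 * x / (2 - x) = (2 + x) / (2 - x) := by
      field_simp
      ring
    rw [e1, e2, Real.le_log_iff_exp_le (by positivity), le_div_iff₀ h2] at h1
    rw [Real.exp_neg, ← div_eq_mul_inv, le_div_iff₀ (Real.exp_pos x)]
    linarith

theorem a1_up_pos {x : ℝ} (hx : 0 ≤ x) : Real.exp x - 1 - x ≤ Real.exp x * x ^ 2 / 2 := by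
  have h1 := a1_pade hx
  rw [Real.exp_neg, ← div_eq_mul_inv, le_div_iff₀ (Real.exp_pos x)] at h1
  have h2 : 0 < Real.exp x := Real.exp_pos x
  have h3 : 0 ≤ Real.exp x * x ^ 3 := by positivity
  have h4 : 0 < 2 + x := by linarith
  refine le_of_mul_le_mul_left ?_ h4
  nlinarith [mul_le_mul_of_nonneg_left h1 (show 0 ≤ 1 + x by linarith)]

theorem a1_up_neg {x : ℝ} (hx : x ≤ 0) : Real.exp x - 1 - x ≤ x ^ 2 / 2 := by
  have h1 := Real.quadratic_le_exp_of_nonneg (show 0 ≤ -x by linarith)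
  have h2 : Real.exp x * Real.exp (-x) = 1 := by rw [← Real.exp_add, add_neg_cancel, Real.exp_zero]
  have h3 : 0 < Real.exp (-x) := Real.exp_pos _
  have h4 : 0 < 1 + x + x ^ 2 / 2 := by nlinarith [sq_nonneg (x + 1)]
  have h5 : Real.exp x ≤ 1 + x + x ^ 2 / 2 := by
    refine le_of_mul_le_mul_right ?_ h3
    rw [h2]
    nlinarith [mul_le_mul_of_nonneg_left h1 h4.le, sq_nonneg (x ^ 2)]
  linarith

theorem a1_half {x : ℝ} (h0 : 0 ≤ x) (h1 : x ≤ 1) : Real.exp (x / 2) ≤ 1 + x := by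
  have h2 := Real.add_one_le_exp (-(x / 2))
  have h3 : Real.exp (x / 2) * Real.exp (-(x / 2)) = 1 := by
    rw [← Real.exp_add, add_neg_cancel, Real.exp_zero]
  have h4 : 0 < Real.exp (-(x / 2)) := Real.exp_pos _
  refine le_of_mul_le_mul_right ?_ h4
  rw [h3]
  nlinarith [mul_le_mul_of_nonneg_left h2 (show 0 ≤ 1 + x by linarith), mul_nonneg h0 (sub_nonneg.2 h1)]

theorem a1_sub_le (hp : 0 < p) {μ η : ℝ} :
    qf p η - qf p μ ≤ Real.exp (p * η) * (η - μ) := by
  unfold qf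
  rw [← sub_div, div_le_iff₀ hp]
  have h1 := Real.add_one_le_exp (p * μ - p * η)
  have h2 : Real.exp (p * μ) = Real.exp (p * η) * Real.exp (p * μ - p * η) := by
    rw [← Real.exp_add]
    congr 1
    ring
  have h3 : 0 < Real.exp (p * η) := Real.exp_pos _
  nlinarith [mul_le_mul_of_nonneg_left h1 h3.le]

theorem kf_pos (p η : ℝ) : 0 < kf p η := by
  exact Real.exp_pos _

theorem lk_zero (p : ℝ) : lk p 0 = 0 := by
  simp [lk]

theorem qf_zero (p : ℝ) : qf p 0 = 0 := by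
  simp [qf]

theorem lk_nonpos (p η : ℝ) : lk p η ≤ 0 := by
  unfold lk
  have h1 := Real.add_one_le_exp (p * η)
  have h2 : 0 ≤ (Real.exp (p * η) - 1 - p * η) / p ^ 2 := div_nonneg (by linarith) (sq_nonneg p)
  linarith

theorem kf_le_one (p η : ℝ) : kf p η ≤ 1 := by
  exact Real.exp_le_one_iff.2 (lk_nonpos p η)

theorem continuous_lk (p : ℝ) : Continuous (lk p) := by
  unfold lk
  fun_prop

theorem continuous_kf (p : ℝ) : Continuous (kf p) := by
  exact Real.continuous_exp.comp (continuous_lk p)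

theorem continuous_qf (p : ℝ) : Continuous (qf p) := by
  unfold qf
  fun_prop

theorem exp_eq_qf (hp : 0 < p) (η : ℝ) : Real.exp (p * η) = 1 + p * qf p η := by
  unfold qf
  field_simp
  ring

theorem hasDerivAt_lk (hp : 0 < p) (η : ℝ) : HasDerivAt (lk p) (-qf p η) η := by
  have h1 : HasDerivAt (fun t => p * t) p η := by simpa using (hasDerivAt_id η).const_mul p
  have h2 := (((h1.exp.sub_const 1).sub h1).div_const (p ^ 2)).neg
  refine h2.congr_deriv ?_
  unfold qf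
  field_simp

theorem hasDerivAt_qf (hp : 0 < p) (η : ℝ) : HasDerivAt (qf p) (Real.exp (p * η)) η := by
  have h1 : HasDerivAt (fun t => p * t) p η := by simpa using (hasDerivAt_id η).const_mul p
  have h2 := (h1.exp.sub_const 1).div_const p
  refine h2.congr_deriv ?_
  field_simp

theorem hasDerivAt_kf (hp : 0 < p) (η : ℝ) : HasDerivAt (kf p) (-(qf p η * kf p η)) η := by
  refine (hasDerivAt_lk hp η).exp.congr_deriv ?_
  unfold kf
  ring

theorem qf_strictMono (hp : 0 < p) : StrictMono (qf p) := by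
  intro x y hxy
  unfold qf
  exact div_lt_div_of_pos_right
    (sub_lt_sub_right (Real.exp_lt_exp.2 (mul_lt_mul_of_pos_left hxy hp)) 1) hp

theorem qf_pos_iff (hp : 0 < p) {η : ℝ} : 0 < qf p η ↔ 0 < η := by
  have h := (qf_strictMono hp).lt_iff_lt (a := 0) (b := η)
  rwa [qf_zero] at h

theorem qf_neg_iff (hp : 0 < p) {η : ℝ} : qf p η < 0 ↔ η < 0 := by
  have h := (qf_strictMono hp).lt_iff_lt (a := η) (b := 0)
  rwa [qf_zero] at h

theorem le_qf (hp : 0 < p) (η : ℝ) : η ≤ qf p η := by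
  unfold qf
  rw [le_div_iff₀ hp]
  have h1 := Real.add_one_le_exp (p * η)
  linarith

theorem qf_add (hp : 0 < p) (η y : ℝ) : qf p (η + y) = qf p η + Real.exp (p * η) * qf p y := by
  unfold qf
  rw [mul_add, Real.exp_add]
  field_simp
  ring

theorem lk_add (hp : 0 < p) (η y : ℝ) :
    lk p (η + y) = lk p η - qf p η * y + Real.exp (p * η) * lk p y := by
  unfold lk qf
  rw [mul_add, Real.exp_add]
  field_simp
  ring

/-- concavity -/
theorem lk_le_tangent (hp : 0 < p) (μ η : ℝ) : lk p η ≤ lk p μ - qf p μ * (η - μ) := by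
  have h1 := lk_add hp μ (η - μ)
  rw [add_sub_cancel] at h1
  have h2 : Real.exp (p * μ) * lk p (η - μ) ≤ 0 :=
    mul_nonpos_of_nonneg_of_nonpos (Real.exp_pos _).le (lk_nonpos _ _)
  linarith

theorem tangent_le_lk (hp : 0 < p) {μ η b : ℝ} (hμ : μ ≤ b) (hη : η ≤ b) :
    lk p μ - qf p μ * (η - μ) - Real.exp (p * b) * (η - μ) ^ 2 / 2 ≤ lk p η := by
  have h1 := lk_add hp μ (η - μ)
  rw [add_sub_cancel] at h1
  have h2 : Real.exp (p * μ) * (Real.exp (p * (η - μ)) - 1 - p * (η - μ)) ≤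
      Real.exp (p * b) * ((p * (η - μ)) ^ 2 / 2) := by
    have h0 : 0 ≤ (p * (η - μ)) ^ 2 / 2 := by positivity
    rcases le_total μ η with h | h
    · have h3 := a1_up_pos (mul_nonneg hp.le (sub_nonneg.2 h))
      have h4 : Real.exp (p * μ) * Real.exp (p * (η - μ)) = Real.exp (p * η) := by
        rw [← Real.exp_add]
        congr 1
        ring
      calc _ ≤ Real.exp (p * μ) * (Real.exp (p * (η - μ)) * (p * (η - μ)) ^ 2 / 2) :=
            mul_le_mul_of_nonneg_left h3 (Real.exp_pos _).le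
        _ = Real.exp (p * η) * ((p * (η - μ)) ^ 2 / 2) := by rw [← h4]; ring
        _ ≤ _ := mul_le_mul_of_nonneg_right
            (Real.exp_le_exp.2 (mul_le_mul_of_nonneg_left hη hp.le)) h0
    · have h3 := a1_up_neg (mul_nonpos_of_nonneg_of_nonpos hp.le (sub_nonpos.2 h))
      calc _ ≤ Real.exp (p * μ) * ((p * (η - μ)) ^ 2 / 2) :=
            mul_le_mul_of_nonneg_left h3 (Real.exp_pos _).le
        _ ≤ _ := mul_le_mul_of_nonneg_right
            (Real.exp_le_exp.2 (mul_le_mul_of_nonneg_left hμ hp.le)) h0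
  have h5 : -(Real.exp (p * b) * (η - μ) ^ 2 / 2) ≤ Real.exp (p * μ) * lk p (η - μ) := by
    unfold lk
    rw [mul_neg, neg_le_neg_iff, ← mul_div_assoc, div_le_iff₀ (pow_pos hp 2)]
    refine h2.trans (le_of_eq ?_)
    ring
  linarith

theorem kf_le_tangent (hp : 0 < p) (μ η : ℝ) :
    kf p η ≤ kf p μ * Real.exp (-(qf p μ * (η - μ))) := by
  unfold kf
  rw [← Real.exp_add, Real.exp_le_exp]
  have h := lk_le_tangent hp μ η
  linarith

theorem abs_qf_sub_le (hp : 0 < p) {μ η b : ℝ} (hμ : μ ≤ b) (hη : η ≤ b) :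
    |qf p η - qf p μ| ≤ Real.exp (p * b) * |η - μ| := by
  have key : ∀ x y : ℝ, x ≤ y → y ≤ b → |qf p y - qf p x| ≤ Real.exp (p * b) * |y - x| := by
    intro x y hxy hy
    rw [abs_of_nonneg (sub_nonneg.2 ((qf_strictMono hp).monotone hxy)),
      abs_of_nonneg (sub_nonneg.2 hxy)]
    exact (a1_sub_le hp).trans (mul_le_mul_of_nonneg_right
      (Real.exp_le_exp.2 (mul_le_mul_of_nonneg_left hy hp.le)) (sub_nonneg.2 hxy))
  rcases le_total μ η with h | h
  · exact key μ η h hη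
  · rw [abs_sub_comm, abs_sub_comm η]
    exact key η μ h hμ

theorem kf_mono (hp : 0 < p) {x y : ℝ} (hxy : x ≤ y) (hy : y ≤ 0) : kf p x ≤ kf p y := by
  unfold kf
  rw [Real.exp_le_exp]
  have h1 := lk_le_tangent hp y x
  have h2 : qf p y ≤ 0 := by
    rw [← qf_zero p]
    exact (qf_strictMono hp).monotone hy
  have h3 : 0 ≤ qf p y * (x - y) := mul_nonneg_of_nonpos_of_nonpos h2 (sub_nonpos.2 hxy)
  linarith

theorem kf_anti (hp : 0 < p) {x y : ℝ} (hx : 0 ≤ x) (hxy : x ≤ y) : kf p y ≤ kf p x := by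
  unfold kf
  rw [Real.exp_le_exp]
  have h1 := lk_le_tangent hp x y
  have h3 : 0 ≤ qf p x * (y - x) := mul_nonneg (hx.trans (le_qf hp x)) (sub_nonneg.2 hxy)
  linarith

theorem min_le_kf (hp : 0 < p) {a t b : ℝ} (h1 : a ≤ t) (h2 : t ≤ b) :
    min (kf p a) (kf p b) ≤ kf p t := by
  rcases le_total t 0 with h | h
  · exact (min_le_left _ _).trans (kf_mono hp h1 h)
  · exact (min_le_right _ _).trans (kf_anti hp h h2)

theorem lk_le_sq (hp : 0 < p) {η : ℝ} (hη : 0 ≤ η) : lk p η ≤ -(η ^ 2 / 2) := by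
  unfold lk
  rw [neg_le_neg_iff, le_div_iff₀ (pow_pos hp 2)]
  have h1 := Real.quadratic_le_exp_of_nonneg (mul_nonneg hp.le hη)
  nlinarith

theorem lk_neg_le (hp : 0 < p) {u : ℝ} (hu : 0 ≤ u) : lk p (-u) ≤ -(u ^ 2 / (2 + p * u)) := by
  unfold lk
  have hx : 0 ≤ p * u := mul_nonneg hp.le hu
  have h1 := a1_pade hx
  rw [neg_le_neg_iff, div_le_div_iff₀ (by linarith) (pow_pos hp 2), mul_neg]
  nlinarith

/-- the kernel in terms of the radial variable -/
theorem kf_eq (hp : 0 < p) (η : ℝ) :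
    kf p η = Real.exp (1 / p ^ 2 + η / p) * Real.exp (-(Real.exp (p * η) / p ^ 2)) := by
  unfold kf lk
  rw [← Real.exp_add]
  congr 1
  field_simp
  ring

/-- the data of a cell -/
theorem cell_cd (hp : 0 < p) {a b dU pd eU cd : ℝ} (hab : a < b) (h1 : |b - a| ≤ dU)
    (h2 : |p * dU| ≤ pd) (h3 : pd ≤ 1) (h4 : |Real.exp (p * ((a + b) / 2))| ≤ eU)
    (h5 : |1 / 24 * eU * (1 + pd) * dU ^ 2| ≤ cd) :
    Real.exp (p * b) * (b - a) ^ 2 / 24 ≤ cd := by
  have hba : 0 < b - a := sub_pos.2 hab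
  have h6 : b - a ≤ dU := (le_abs_self _).trans h1
  have h7 : p * (b - a) ≤ pd :=
    (mul_le_mul_of_nonneg_left h6 hp.le).trans ((le_abs_self _).trans h2)
  have h8 : 0 ≤ p * (b - a) := mul_nonneg hp.le hba.le
  have h9 := a1_half h8 (h7.trans h3)
  have h10 : Real.exp (p * ((a + b) / 2)) ≤ eU := (le_abs_self _).trans h4
  have h11 : Real.exp (p * b) = Real.exp (p * ((a + b) / 2)) * Real.exp (p * (b - a) / 2) := by
    rw [← Real.exp_add]
    congr 1
    ring
  have h12 : 0 ≤ eU := (Real.exp_pos _).le.trans h10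
  have h13 : Real.exp (p * b) ≤ eU * (1 + pd) := by
    rw [h11]
    exact mul_le_mul h10 (h9.trans (by linarith)) (Real.exp_pos _).le h12
  have h14 : (b - a) ^ 2 ≤ dU ^ 2 := pow_le_pow_left₀ hba.le h6 2
  have h15 : Real.exp (p * b) * (b - a) ^ 2 ≤ eU * (1 + pd) * dU ^ 2 :=
    mul_le_mul h13 h14 (sq_nonneg _) ((Real.exp_pos _).le.trans h13)
  have h16 := (le_abs_self _).trans h5
  linarith

theorem cell_P (hp : 0 < p) {a b qU P : ℝ} (hab : a < b)
    (h1 : |(b - a) * qf p ((a + b) / 2)| ≤ qU)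
    (h2 : |(b - a) * kf p ((a + b) / 2) * Real.exp (1 / 2 * qU)| ≤ P) :
    ∀ t ∈ Icc a b, (b - a) * kf p t ≤ P := by
  intro t ht
  have hba : 0 < b - a := sub_pos.2 hab
  have h3 := kf_le_tangent hp ((a + b) / 2) t
  have h4 : |t - (a + b) / 2| ≤ (b - a) / 2 := abs_le.2 ⟨by linarith [ht.1], by linarith [ht.2]⟩
  rw [abs_mul, abs_of_pos hba] at h1
  have h5 : -(qf p ((a + b) / 2) * (t - (a + b) / 2)) ≤ 1 / 2 * qU := by
    refine (neg_le_abs _).trans ?_
    rw [abs_mul]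
    have h6 := mul_le_mul_of_nonneg_left h4 (abs_nonneg (qf p ((a + b) / 2)))
    linarith
  refine le_trans ?_ ((le_abs_self _).trans h2)
  rw [mul_assoc]
  refine mul_le_mul_of_nonneg_left (h3.trans ?_) hba.le
  exact mul_le_mul_of_nonneg_left (Real.exp_le_exp.2 h5) (kf_pos _ _).le

theorem cell_Q (hp : 0 < p) {a b qU cd : ℝ} (hab : a < b)
    (h1 : |(b - a) * qf p ((a + b) / 2)| ≤ qU) (h2 : Real.exp (p * b) * (b - a) ^ 2 / 24 ≤ cd) :
    ∀ t ∈ Icc a b, (b - a) * |qf p t| ≤ qU + 12 * cd := by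
  intro t ht
  have hba : 0 < b - a := sub_pos.2 hab
  have h3 := abs_qf_sub_le hp (μ := (a + b) / 2) (η := t) (b := b) (by linarith) ht.2
  have h4 : |t - (a + b) / 2| ≤ (b - a) / 2 := abs_le.2 ⟨by linarith [ht.1], by linarith [ht.2]⟩
  rw [abs_mul, abs_of_pos hba] at h1
  have h5 : |qf p t| ≤ |qf p ((a + b) / 2)| + Real.exp (p * b) * ((b - a) / 2) := by
    have h6 := abs_sub_abs_le_abs_sub (qf p t) (qf p ((a + b) / 2))
    have h7 := mul_le_mul_of_nonneg_left h4 (Real.exp_pos (p * b)).le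
    linarith
  have h8 := mul_le_mul_of_nonneg_left h5 hba.le
  nlinarith

end Pool.Agent.Eps.T
end
end

-- part Pool.Agent.Lib.MP_3bda03_nt.T.A2
section

/-! The tail integrals of the kernel. -/

set_option autoImplicit false

noncomputable section

open MeasureTheory Set

namespace Pool.Agent.Eps.T

variable {p : ℝ}

theorem a2_cont (p α : ℝ) : Continuous fun η => Real.exp (α * η) * kf p η :=
  (by fun_prop : Continuous fun η => Real.exp (α * η)).mul (continuous_kf p)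

theorem a2_pos (p α η : ℝ) : 0 < Real.exp (α * η) * kf p η :=
  mul_pos (Real.exp_pos _) (kf_pos p η)

theorem a2_bound (hp : 0 < p) (α μ η : ℝ) : Real.exp (α * η) * kf p η ≤
    kf p μ * Real.exp (qf p μ * μ) * Real.exp ((α - qf p μ) * η) := by
  refine (mul_le_mul_of_nonneg_left (kf_le_tangent hp μ η) (Real.exp_pos _).le).trans_eq ?_
  rw [mul_left_comm, mul_assoc, ← Real.exp_add, ← Real.exp_add]
  congr 2; ring

theorem a2_Iic (hp : 0 < p) {γ : ℝ} (hγ : 0 ≤ γ) (ξ : ℝ) :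
    IntegrableOn (fun η => Real.exp (γ * η) * kf p η) (Iic ξ) := by
  have hq : 0 < γ - qf p (-1) := by
    have := (qf_neg_iff hp (η := -1)).2 (by norm_num)
    linarith
  refine Integrable.mono' ((integrableOn_exp_mul_Iic hq ξ).const_mul
    (kf p (-1) * Real.exp (qf p (-1) * (-1))))
    (a2_cont p γ).aestronglyMeasurable (Filter.Eventually.of_forall fun η => ?_)
  rw [Real.norm_of_nonneg (a2_pos p γ η).le]
  exact a2_bound hp γ _ η

theorem a2_int_Iic (hp : 0 < p) (ξ : ℝ) : IntegrableOn (kf p) (Iic ξ) := by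
  simpa using a2_Iic hp le_rfl ξ

theorem integrableOn_At (hp : 0 < p) (α ξ : ℝ) :
    IntegrableOn (fun η => Real.exp (α * η) * kf p η) (Ioi ξ) := by
  have hq : α - qf p (max α 0 + 1) < 0 := by
    have h1 := le_qf hp (max α 0 + 1)
    have h2 := le_max_left α 0
    linarith
  refine Integrable.mono' ((integrableOn_exp_mul_Ioi hq ξ).const_mul
    (kf p (max α 0 + 1) * Real.exp (qf p (max α 0 + 1) * (max α 0 + 1))))
    (a2_cont p α).aestronglyMeasurable (Filter.Eventually.of_forall fun η => ?_)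
  rw [Real.norm_of_nonneg (a2_pos p α η).le]
  exact a2_bound hp α _ η

theorem a2_int_Ioi (hp : 0 < p) (ξ : ℝ) : IntegrableOn (kf p) (Ioi ξ) := by
  simpa using integrableOn_At hp 0 ξ

theorem integrable_kf (hp : 0 < p) : Integrable (kf p) := by
  rw [← integrableOn_univ, ← Iic_union_Ioi (a := (0 : ℝ))]
  exact (a2_int_Iic hp 0).union (a2_int_Ioi hp 0)

theorem integrableOn_exp_kf_Iic (hp : 0 < p) {γ : ℝ} (hγ : 0 ≤ γ) (ξ : ℝ) :
    IntegrableOn (fun η => Real.exp (γ * η) * kf p η) (Iic ξ) := by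
  exact a2_Iic hp hγ ξ

theorem At_pos (hp : 0 < p) (α ξ : ℝ) : 0 < At p α ξ := by
  unfold At
  rw [setIntegral_pos_iff_support_of_nonneg_ae
    (Filter.Eventually.of_forall fun η => (a2_pos p α η).le) (integrableOn_At hp α ξ)]
  have : Function.support (fun η => Real.exp (α * η) * kf p η) = univ :=
    eq_univ_of_forall fun η => (a2_pos p α η).ne'
  rw [this, univ_inter]
  simp

theorem Af_pos (hp : 0 < p) (α ξ : ℝ) : 0 < Af p α ξ := by
  exact mul_pos (Real.exp_pos _) (At_pos hp α ξ)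

theorem At_split (hp : 0 < p) (α a b : ℝ) :
    At p α a = (∫ η in a..b, Real.exp (α * η) * kf p η) + At p α b := by
  exact (intervalIntegral.integral_interval_add_Ioi (integrableOn_At hp α a)
    (integrableOn_At hp α b)).symm

theorem At_anti (hp : 0 < p) (α : ℝ) : Antitone (At p α) := by
  intro a b h
  exact setIntegral_mono_set (integrableOn_At hp α a)
    (Filter.Eventually.of_forall fun η => (a2_pos p α η).le)
    (Ioi_subset_Ioi h).eventuallyLE

theorem hasDerivAt_At (hp : 0 < p) (α ξ : ℝ) :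
    HasDerivAt (At p α) (-(Real.exp (α * ξ) * kf p ξ)) ξ := by
  have e : At p α = fun x => At p α 0 - ∫ η in (0 : ℝ)..x, Real.exp (α * η) * kf p η := by
    funext x
    rw [At_split hp α 0 x]; ring
  rw [e]
  exact ((a2_cont p α).integral_hasStrictDerivAt 0 ξ).hasDerivAt.const_sub _

theorem hasDerivAt_Af (hp : 0 < p) (α ξ : ℝ) : HasDerivAt (Af p α) (-cf p α ξ) ξ := by
  have h1 : HasDerivAt (fun x => Real.exp (-(α * x))) (Real.exp (-(α * ξ)) * (-α)) ξ := by
    simpa using (((hasDerivAt_id ξ).const_mul α).neg).exp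
  have h2 := h1.mul (hasDerivAt_At hp α ξ)
  have e : Real.exp (-(α * ξ)) * Real.exp (α * ξ) = 1 := by rw [← Real.exp_add]; simp
  refine h2.congr_deriv ?_
  unfold cf Af
  linear_combination (-kf p ξ) * e

theorem hasDerivAt_cf (hp : 0 < p) (α ξ : ℝ) :
    HasDerivAt (cf p α) (-(α ^ 2 * Af p α ξ + (α + qf p ξ) * kf p ξ)) ξ := by
  refine (((hasDerivAt_Af hp α ξ).const_mul α).add (hasDerivAt_kf hp ξ)).congr_deriv ?_
  unfold cf
  ring

theorem continuous_Af (hp : 0 < p) (α : ℝ) : Continuous (Af p α) := by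
  exact continuous_iff_continuousAt.2 fun x => (hasDerivAt_Af hp α x).continuousAt

theorem continuous_cf (hp : 0 < p) (α : ℝ) : Continuous (cf p α) := by
  exact continuous_iff_continuousAt.2 fun x => (hasDerivAt_cf hp α x).continuousAt

theorem integral_cf (hp : 0 < p) (α a b : ℝ) : ∫ t in a..b, cf p α t = Af p α a - Af p α b := by
  have h := intervalIntegral.integral_eq_sub_of_hasDerivAt (a := a) (b := b)
    (f := fun x => -Af p α x) (f' := cf p α)
    (fun x _ => (hasDerivAt_Af hp α x).neg.congr_deriv (neg_neg _))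
    ((continuous_cf hp α).intervalIntegrable a b)
  rw [h]; ring

theorem Af_eq (hp : 0 < p) (α ξ : ℝ) :
    Af p α ξ = ∫ y in Ioi (0 : ℝ), Real.exp (α * y) * kf p (ξ + y) := by
  have h := (measurePreserving_add_left volume ξ).setIntegral_preimage_emb
    (measurableEmbedding_addLeft ξ) (fun η => Real.exp (α * η) * kf p η) (Ioi ξ)
  have e : (fun x => ξ + x) ⁻¹' Ioi ξ = Ioi (0 : ℝ) := by ext x; simp
  rw [e] at h
  unfold Af At
  rw [← h, ← integral_const_mul]
  refine integral_congr_ae (Filter.Eventually.of_forall fun y => ?_)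
  simp only
  rw [← mul_assoc, ← Real.exp_add]
  congr 2; ring

theorem Af_le_exp (hp : 0 < p) (α : ℝ) {a t : ℝ} (h : a ≤ t) :
    Af p α t ≤ Real.exp (-(α * (t - a))) * Af p α a := by
  unfold Af
  rw [← mul_assoc, ← Real.exp_add]
  have e : -(α * (t - a)) + -(α * a) = -(α * t) := by ring
  rw [e]
  exact mul_le_mul_of_nonneg_left (At_anti hp α h) (Real.exp_pos _).le

theorem Af_anti (hp : 0 < p) {α : ℝ} (hα : 0 ≤ α) : Antitone (Af p α) := by
  intro a t h
  refine (Af_le_exp hp α h).trans (mul_le_of_le_one_left (Af_pos hp α a).le ?_)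
  rw [Real.exp_le_one_iff]
  have := mul_nonneg hα (sub_nonneg.2 h)
  linarith

/-- the loss on a cell -/
theorem Af_sub_le (hp : 0 < p) {α a b P : ℝ} (hα : 0 ≤ α) (hab : a ≤ b)
    (hP : ∀ t ∈ Icc a b, (b - a) * kf p t ≤ P) :
    Real.exp (-(α * (b - a))) * Af p α a - Af p α b ≤ P := by
  rcases hab.eq_or_lt with rfl | hlt
  · have := hP a ⟨le_rfl, le_rfl⟩
    simpa using this
  have e : Real.exp (-(α * (b - a))) * Af p α a - Af p α b =
      ∫ η in a..b, Real.exp (-(α * b)) * (Real.exp (α * η) * kf p η) := by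
    unfold Af
    rw [intervalIntegral.integral_const_mul, ← mul_assoc, ← Real.exp_add, At_split hp α a b]
    have e : -(α * (b - a)) + -(α * a) = -(α * b) := by ring
    rw [e]; ring
  have hba : 0 < b - a := sub_pos.2 hlt
  rw [e]
  calc ∫ η in a..b, Real.exp (-(α * b)) * (Real.exp (α * η) * kf p η)
      ≤ ∫ _ in a..b, P / (b - a) := by
        refine intervalIntegral.integral_mono_on hab
          ((continuous_const.mul (a2_cont p α)).intervalIntegrable a b)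
          (continuous_const.intervalIntegrable a b) fun t ht => ?_
        have h1 : Real.exp (-(α * b)) * Real.exp (α * t) ≤ 1 := by
          rw [← Real.exp_add, Real.exp_le_one_iff]
          have := mul_le_mul_of_nonneg_left ht.2 hα
          linarith
        rw [← mul_assoc, le_div_iff₀ hba]
        have h2 := mul_le_of_le_one_left (kf_pos p t).le h1
        have h3 := hP t ht
        nlinarith
    _ = P := by
        rw [intervalIntegral.integral_const, smul_eq_mul]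
        field_simp

theorem At_le (hp : 0 < p) {α e : ℝ} (h : α < qf p e) :
    At p α e ≤ Real.exp (α * e) * kf p e / (qf p e - α) := by
  have hq : α - qf p e < 0 := by linarith
  have h1 : At p α e ≤ ∫ η in Ioi e,
      kf p e * Real.exp (qf p e * e) * Real.exp ((α - qf p e) * η) :=
    setIntegral_mono_on (integrableOn_At hp α e) ((integrableOn_exp_mul_Ioi hq e).const_mul _)
      measurableSet_Ioi fun η _ => a2_bound hp α e η
  rw [integral_const_mul, integral_exp_mul_Ioi hq] at h1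
  refine h1.trans_eq ?_
  have e1 : Real.exp (α * e) = Real.exp (qf p e * e) * Real.exp ((α - qf p e) * e) := by
    rw [← Real.exp_add]; congr 1; ring
  have h2 : qf p e - α ≠ 0 := by linarith
  have h3 : α - qf p e ≠ 0 := by linarith
  rw [e1]
  field_simp
  ring

theorem integral_Iic_kf_le (hp : 0 < p) {b : ℝ} (hb : b < 0) :
    ∫ η in Iic b, kf p η ≤ kf p b / (-qf p b) := by
  have hq : 0 < 0 - qf p b := by have := (qf_neg_iff hp).2 hb; linarith
  have h1 : ∫ η in Iic b, kf p η ≤ ∫ η in Iic b,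
      kf p b * Real.exp (qf p b * b) * Real.exp ((0 - qf p b) * η) :=
    setIntegral_mono_on (a2_int_Iic hp b) ((integrableOn_exp_mul_Iic hq b).const_mul _)
      measurableSet_Iic fun η _ => by simpa using a2_bound hp 0 b η
  rw [integral_const_mul, integral_exp_mul_Iic hq] at h1
  refine h1.trans_eq ?_
  have e1 : Real.exp (qf p b * b) * Real.exp ((0 - qf p b) * b) = 1 := by
    rw [← Real.exp_add, Real.exp_eq_one_iff]; ring
  rw [← mul_div_assoc, mul_assoc, e1, mul_one, zero_sub]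

theorem interval_kf_nonneg (p : ℝ) {a b : ℝ} (h : a ≤ b) : 0 ≤ ∫ η in a..b, kf p η := by
  exact intervalIntegral.integral_nonneg h fun t _ => (kf_pos p t).le

theorem interval_kf_le (hp : 0 < p) {a b : ℝ} (h : a ≤ b) :
    ∫ η in a..b, kf p η ≤ ∫ η in Iic b, kf p η := by
  rw [intervalIntegral.integral_of_le h]
  exact setIntegral_mono_set (a2_int_Iic hp b)
    (Filter.Eventually.of_forall fun η => (kf_pos p η).le) Ioc_subset_Iic_self.eventuallyLE

theorem integral_kf_le (hp : 0 < p) (hp' : p ≤ 21 / 100) : ∫ η, kf p η ≤ 14 / 5 := by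
  have hpi := Real.pi_lt_d4
  have s1 := intervalIntegral.integral_Iic_add_Ioi (a2_int_Iic hp 0) (a2_int_Ioi hp 0)
  have s2 := intervalIntegral.integral_Iic_sub_Iic (a2_int_Iic hp (-3)) (a2_int_Iic hp 0)
  have r1 : ∫ η in Ioi (0 : ℝ), kf p η ≤ 12534 / 10000 := by
    have h1 : ∫ η in Ioi (0 : ℝ), kf p η ≤ ∫ η in Ioi (0 : ℝ), Real.exp (-(1 / 2) * η ^ 2) := by
      refine setIntegral_mono_on (a2_int_Ioi hp 0)
        (integrable_exp_neg_mul_sq (by norm_num)).integrableOn measurableSet_Ioi fun η hη => ?_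
      refine Real.exp_le_exp.2 ((lk_le_sq hp (le_of_lt hη)).trans_eq (by ring))
    rw [integral_gaussian_Ioi] at h1
    have h2 : √(Real.pi / (1 / 2)) ≤ 25068 / 10000 :=
      Real.sqrt_le_iff.2 ⟨by norm_num, by linarith⟩
    linarith
  have r2 : ∫ η in (-3 : ℝ)..0, kf p η ≤ 14373 / 10000 := by
    have h0 : ∫ η in (-3 : ℝ)..0, kf p η = ∫ u in (0 : ℝ)..3, kf p (-u) := by
      rw [intervalIntegral.integral_comp_neg]; simp
    have hg := integrable_exp_neg_mul_sq (b := 100 / 263) (by norm_num)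
    have h1 : ∫ u in (0 : ℝ)..3, kf p (-u) ≤
        ∫ u in (0 : ℝ)..3, Real.exp (-(100 / 263) * u ^ 2) := by
      refine intervalIntegral.integral_mono_on (by norm_num)
        (((continuous_kf p).comp continuous_neg).intervalIntegrable _ _)
        hg.intervalIntegrable fun u hu => ?_
      refine Real.exp_le_exp.2 ((lk_neg_le hp hu.1).trans ?_)
      have d1 : 0 < 2 + p * u := by have := mul_nonneg hp.le hu.1; linarith
      have d2 : 2 + p * u ≤ 263 / 100 := by nlinarith [hu.1, hu.2]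
      have d3 : u ^ 2 / (263 / 100) ≤ u ^ 2 / (2 + p * u) :=
        div_le_div_of_nonneg_left (sq_nonneg u) d1 d2
      linarith
    have h2 : ∫ u in (0 : ℝ)..3, Real.exp (-(100 / 263) * u ^ 2) ≤
        ∫ u in Ioi (0 : ℝ), Real.exp (-(100 / 263) * u ^ 2) := by
      rw [intervalIntegral.integral_of_le (by norm_num)]
      exact setIntegral_mono_set hg.integrableOn
        (Filter.Eventually.of_forall fun η => (Real.exp_pos _).le) Ioc_subset_Ioi_self.eventuallyLE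
    rw [integral_gaussian_Ioi] at h2
    have h3 : √(Real.pi / (100 / 263)) ≤ 28746 / 10000 :=
      Real.sqrt_le_iff.2 ⟨by norm_num, by linarith⟩
    linarith
  have r3 : ∫ η in Iic (-3 : ℝ), kf p η ≤ 1 / 10 := by
    refine (integral_Iic_kf_le hp (by norm_num)).trans ?_
    have q1 : 1 ≤ -qf p (-3) := by
      have e1 := exp_eq_qf hp (-3)
      have e2 : Real.exp (p * -3) * Real.exp (p * 3) = 1 := by
        rw [← Real.exp_add, Real.exp_eq_one_iff]; ring
      have e3 := Real.add_one_le_exp (p * 3)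
      have e4 := Real.exp_pos (p * -3)
      have e5 : Real.exp (p * -3) * (p * 3 + 1) ≤ 1 := by nlinarith
      have e6 : Real.exp (p * -3) ≤ 1 - p := by
        by_contra hc
        push Not at hc
        nlinarith
      by_contra hc
      push Not at hc
      nlinarith
    have k1 : kf p (-3) ≤ 1 / 10 := by
      have h1 := lk_neg_le hp (u := 3) (by norm_num)
      have d1 : (0 : ℝ) < 2 + p * 3 := by linarith
      have d2 : (3 : ℝ) ≤ 3 ^ 2 / (2 + p * 3) := by rw [le_div_iff₀ d1]; linarith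
      have h2 : kf p (-3) ≤ Real.exp (-3) := Real.exp_le_exp.2 (by linarith)
      have h3 := Real.quadratic_le_exp_of_nonneg (x := 3 / 2) (by norm_num)
      have h4 : Real.exp (-3) * (Real.exp (3 / 2) * Real.exp (3 / 2)) = 1 := by
        rw [← Real.exp_add, ← Real.exp_add, Real.exp_eq_one_iff]; norm_num
      have h5 : (10 : ℝ) ≤ Real.exp (3 / 2) * Real.exp (3 / 2) := by nlinarith
      have h6 := Real.exp_pos (-3)
      nlinarith
    exact (div_le_self (kf_pos p _).le q1).trans k1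
  linarith

theorem Af_neg_le (hp : 0 < p) (hp' : p ≤ 21 / 100) {α : ℝ} (hα : 0 ≤ α) (ξ : ℝ) :
    Af p (-α) ξ ≤ 14 / 5 := by
  have h1 : Af p (-α) ξ ≤ ∫ η in Ioi ξ, kf p η := by
    unfold Af At
    rw [← integral_const_mul]
    refine setIntegral_mono_on ((integrableOn_At hp (-α) ξ).const_mul _) (a2_int_Ioi hp ξ)
      measurableSet_Ioi fun η hη => ?_
    rw [← mul_assoc, ← Real.exp_add]
    refine mul_le_of_le_one_left (kf_pos p η).le (Real.exp_le_one_iff.2 ?_)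
    have := mul_le_mul_of_nonneg_left (le_of_lt hη) hα
    linarith
  exact h1.trans ((setIntegral_le_integral (integrable_kf hp)
    (Filter.Eventually.of_forall fun η => (kf_pos p η).le)).trans (integral_kf_le hp hp'))

theorem At_far (hp : 0 < p) {α ξ b : ℝ} (hα : 0 ≤ α) (h : ξ ≤ b) (hb : b ≤ 0) :
    At p α ξ ≤ At p α b + ∫ η in ξ..b, kf p η := by
  rw [At_split hp α ξ b, add_comm]
  refine add_le_add le_rfl (intervalIntegral.integral_mono_on h
    ((a2_cont p α).intervalIntegrable _ _) ((continuous_kf p).intervalIntegrable _ _)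
    fun t ht => ?_)
  exact mul_le_of_le_one_left (kf_pos p t).le
    (Real.exp_le_one_iff.2 (mul_nonpos_of_nonneg_of_nonpos hα (ht.2.trans hb)))

theorem Af_far (hp : 0 < p) {α ξ b : ℝ} (hα : 0 ≤ α) (h : ξ ≤ b) :
    Af p (-α) ξ ≤ Real.exp (α * ξ) * At p (-α) b + ∫ η in ξ..b, kf p η := by
  unfold Af
  rw [At_split hp (-α) ξ b, mul_add, add_comm, neg_mul, neg_neg,
    ← intervalIntegral.integral_const_mul]
  refine add_le_add le_rfl (intervalIntegral.integral_mono_on h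
    ((continuous_const.mul (a2_cont p (-α))).intervalIntegrable _ _)
    ((continuous_kf p).intervalIntegrable _ _) fun t ht => ?_)
  rw [← mul_assoc, ← Real.exp_add]
  refine mul_le_of_le_one_left (kf_pos p t).le (Real.exp_le_one_iff.2 ?_)
  have := mul_le_mul_of_nonneg_left ht.1 hα
  linarith

/-- lower bound from an anchor interval (Jensen) -/
theorem At_ge (hp : 0 < p) (α : ℝ) {ξ μ δ : ℝ} (hδ : 0 < δ) (h : ξ ≤ μ - δ / 2) :
    δ * Real.exp (α * μ + lk p μ - Real.exp (p * (μ + δ / 2)) * δ ^ 2 / 24) ≤ At p α ξ := by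
  set E := Real.exp (p * (μ + δ / 2)) with hE
  set c := α * μ + lk p μ - E * δ ^ 2 / 24 with hc
  set s := α - qf p μ with hs
  have h1 : At p α (μ - δ / 2) ≤ At p α ξ := At_anti hp α h
  have h2 := At_split hp α (μ - δ / 2) (μ + δ / 2)
  have h3 := At_pos hp α (μ + δ / 2)
  have hd : ∀ η, HasDerivAt (fun η => Real.exp c * ((η - μ) + s * (η - μ) ^ 2 / 2 -
      E * ((η - μ) ^ 3 / 6 - δ ^ 2 / 24 * (η - μ))))
      (Real.exp c * (1 + s * (η - μ) - E * ((η - μ) ^ 2 / 2 - δ ^ 2 / 24))) η := by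
    intro η
    have d0 : HasDerivAt (fun η => η - μ) 1 η := (hasDerivAt_id η).sub_const μ
    refine (((d0.add (((d0.pow 2).const_mul s).div_const 2)).sub ((((d0.pow 3).div_const 6).sub
      (d0.const_mul (δ ^ 2 / 24))).const_mul E)).const_mul (Real.exp c)).congr_deriv ?_
    simp only [Nat.cast_ofNat, Nat.add_one_sub_one]
    ring
  have hco : Continuous fun η =>
      Real.exp c * (1 + s * (η - μ) - E * ((η - μ) ^ 2 / 2 - δ ^ 2 / 24)) := by fun_prop
  have h4 := intervalIntegral.integral_eq_sub_of_hasDerivAt (a := μ - δ / 2) (b := μ + δ / 2)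
    (fun x _ => hd x) (hco.intervalIntegrable _ _)
  have h5 : ∫ η in (μ - δ / 2)..(μ + δ / 2),
      Real.exp c * (1 + s * (η - μ) - E * ((η - μ) ^ 2 / 2 - δ ^ 2 / 24)) ≤
      ∫ η in (μ - δ / 2)..(μ + δ / 2), Real.exp (α * η) * kf p η := by
    refine intervalIntegral.integral_mono_on (by linarith) (hco.intervalIntegrable _ _)
      ((a2_cont p α).intervalIntegrable _ _) fun t ht => ?_
    have t1 := tangent_le_lk hp (μ := μ) (η := t) (b := μ + δ / 2) (by linarith) ht.2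
    have t2 := Real.add_one_le_exp (α * t + lk p t - c)
    have t3 : Real.exp (α * t) * kf p t = Real.exp c * Real.exp (α * t + lk p t - c) := by
      unfold kf
      rw [← Real.exp_add, ← Real.exp_add]; congr 1; ring
    rw [t3]
    refine mul_le_mul_of_nonneg_left (le_trans ?_ t2) (Real.exp_pos _).le
    rw [hc, hs]
    rw [← hE] at t1
    linarith
  have h6 : Real.exp c * ((μ + δ / 2 - μ) + s * (μ + δ / 2 - μ) ^ 2 / 2 -
      E * ((μ + δ / 2 - μ) ^ 3 / 6 - δ ^ 2 / 24 * (μ + δ / 2 - μ))) -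
      Real.exp c * ((μ - δ / 2 - μ) + s * (μ - δ / 2 - μ) ^ 2 / 2 -
      E * ((μ - δ / 2 - μ) ^ 3 / 6 - δ ^ 2 / 24 * (μ - δ / 2 - μ))) = δ * Real.exp c := by ring
  linarith

theorem Bq_nonneg (p ξ : ℝ) : 0 ≤ Bq p ξ := by
  exact integral_nonneg fun η => (mul_pos (Real.exp_pos _) (kf_pos p η)).le

theorem Bq_ge (hp : 0 < p) {ξ : ℝ} (hξ : ξ ≤ 0) :
    kf p ξ * (p * (2 - Real.exp (p * ξ))⁻¹) * (1 - (p * (2 - Real.exp (p * ξ))⁻¹) ^ 2) ≤
      Bq p ξ := by
  have he1 : Real.exp (p * ξ) ≤ 1 :=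
    Real.exp_le_one_iff.2 (mul_nonpos_of_nonneg_of_nonpos hp.le hξ)
  have h2e : 0 < 2 - Real.exp (p * ξ) := by linarith
  set y := p * (2 - Real.exp (p * ξ))⁻¹ with hy
  have hy0 : 0 < y := mul_pos hp (inv_pos.2 h2e)
  have hyq : 1 / p - qf p ξ = y⁻¹ := by
    rw [hy]; unfold qf; field_simp; ring
  have hco : Continuous fun η => Real.exp ((η - ξ) / p) * kf p η :=
    (by fun_prop : Continuous fun η => Real.exp ((η - ξ) / p)).mul (continuous_kf p)
  have hint : IntegrableOn (fun η => Real.exp ((η - ξ) / p) * kf p η) (Iic ξ) := by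
    have h0 := (integrableOn_exp_kf_Iic hp (γ := 1 / p) (by positivity) ξ).const_mul
      (Real.exp (-(ξ / p)))
    refine IntegrableOn.congr_fun h0 (fun η _ => ?_) measurableSet_Iic
    rw [← mul_assoc, ← Real.exp_add]
    congr 2; ring
  have h1 : ∫ η in (ξ - 2)..ξ, Real.exp ((η - ξ) / p) * kf p η ≤ Bq p ξ := by
    rw [intervalIntegral.integral_of_le (by linarith)]
    exact setIntegral_mono_set hint
      (Filter.Eventually.of_forall fun η => (mul_pos (Real.exp_pos _) (kf_pos p η)).le)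
      Ioc_subset_Iic_self.eventuallyLE
  have hd : ∀ η, HasDerivAt (fun η => kf p ξ * (Real.exp (y⁻¹ * (η - ξ)) *
      (y - y ^ 3 + y ^ 2 * (η - ξ) - y / 2 * (η - ξ) ^ 2)))
      (kf p ξ * (Real.exp (y⁻¹ * (η - ξ)) * (1 - (η - ξ) ^ 2 / 2))) η := by
    intro η
    have d0 : HasDerivAt (fun η => η - ξ) 1 η := (hasDerivAt_id η).sub_const ξ
    refine (((d0.const_mul y⁻¹).exp.mul (((d0.const_mul (y ^ 2)).const_add (y - y ^ 3)).sub
      ((d0.pow 2).const_mul (y / 2)))).const_mul (kf p ξ)).congr_deriv ?_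
    simp only [Nat.cast_ofNat, Nat.add_one_sub_one, Pi.sub_apply, Pi.pow_apply]
    field_simp
    ring
  have hc2 : Continuous fun η =>
      kf p ξ * (Real.exp (y⁻¹ * (η - ξ)) * (1 - (η - ξ) ^ 2 / 2)) := by fun_prop
  have h4 := intervalIntegral.integral_eq_sub_of_hasDerivAt (a := ξ - 2) (b := ξ)
    (fun x _ => hd x) (hc2.intervalIntegrable _ _)
  have h5 : ∫ η in (ξ - 2)..ξ, kf p ξ * (Real.exp (y⁻¹ * (η - ξ)) * (1 - (η - ξ) ^ 2 / 2)) ≤
      ∫ η in (ξ - 2)..ξ, Real.exp ((η - ξ) / p) * kf p η := by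
    refine intervalIntegral.integral_mono_on (by linarith) (hc2.intervalIntegrable _ _)
      (hco.intervalIntegrable _ _) fun t ht => ?_
    have t1 := tangent_le_lk hp (μ := ξ) (η := t) (b := 0) hξ (ht.2.trans hξ)
    rw [mul_zero, Real.exp_zero, one_mul] at t1
    have t2 := Real.add_one_le_exp (-((t - ξ) ^ 2 / 2))
    calc kf p ξ * (Real.exp (y⁻¹ * (t - ξ)) * (1 - (t - ξ) ^ 2 / 2))
        ≤ kf p ξ * (Real.exp (y⁻¹ * (t - ξ)) * Real.exp (-((t - ξ) ^ 2 / 2))) :=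
          mul_le_mul_of_nonneg_left (mul_le_mul_of_nonneg_left (by linarith) (Real.exp_pos _).le)
            (kf_pos p ξ).le
      _ ≤ Real.exp ((t - ξ) / p) * kf p t := by
          unfold kf
          rw [← Real.exp_add, ← Real.exp_add, ← Real.exp_add, Real.exp_le_exp, ← hyq]
          have : (t - ξ) / p = 1 / p * (t - ξ) := by ring
          rw [this]
          linarith
  have h6 : kf p ξ * (Real.exp (y⁻¹ * (ξ - 2 - ξ)) *
      (y - y ^ 3 + y ^ 2 * (ξ - 2 - ξ) - y / 2 * (ξ - 2 - ξ) ^ 2)) ≤ 0 := by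
    refine mul_nonpos_of_nonneg_of_nonpos (kf_pos p ξ).le
      (mul_nonpos_of_nonneg_of_nonpos (Real.exp_pos _).le ?_)
    have e : y - y ^ 3 + y ^ 2 * (ξ - 2 - ξ) - y / 2 * (ξ - 2 - ξ) ^ 2 =
        -(y + y ^ 3 + 2 * y ^ 2) := by ring
    rw [e, neg_nonpos]
    positivity
  have h7 : kf p ξ * (Real.exp (y⁻¹ * (ξ - ξ)) *
      (y - y ^ 3 + y ^ 2 * (ξ - ξ) - y / 2 * (ξ - ξ) ^ 2)) = kf p ξ * y * (1 - y ^ 2) := by
    rw [sub_self, mul_zero, Real.exp_zero]; ring
  linarith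

theorem sq_tail_le (hp : 0 < p) {c t : ℝ} (hc : 0 < qf p c) (ht : c ≤ t) :
    IntegrableOn (fun ξ => (kf p ξ / kf p c) ^ 2) (Ici t) ∧
      ∫ ξ in Ici t, (kf p ξ / kf p c) ^ 2 ≤ Real.exp (-(2 * qf p c * (t - c))) / (2 * qf p c) := by
  have hq : -(2 * qf p c) < 0 := by linarith
  have hb : ∀ ξ, (kf p ξ / kf p c) ^ 2 ≤
      Real.exp (2 * qf p c * c) * Real.exp (-(2 * qf p c) * ξ) := by
    intro ξ
    have h1 : kf p ξ / kf p c ≤ Real.exp (-(qf p c * (ξ - c))) := by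
      rw [div_le_iff₀ (kf_pos p c), mul_comm]; exact kf_le_tangent hp c ξ
    refine (pow_le_pow_left₀ (div_pos (kf_pos p ξ) (kf_pos p c)).le h1 2).trans_eq ?_
    rw [sq, ← Real.exp_add, ← Real.exp_add]; congr 1; ring
  have hg := (integrableOn_exp_mul_Ioi hq t).const_mul (Real.exp (2 * qf p c * c))
  have hi : IntegrableOn (fun ξ => (kf p ξ / kf p c) ^ 2) (Ioi t) := by
    refine Integrable.mono' hg
      (((continuous_kf p).div_const _).pow 2).aestronglyMeasurable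
      (Filter.Eventually.of_forall fun ξ => ?_)
    rw [Real.norm_of_nonneg (sq_nonneg _)]
    exact hb ξ
  refine ⟨(integrableOn_Ici_iff_integrableOn_Ioi).2 hi, ?_⟩
  rw [integral_Ici_eq_integral_Ioi]
  refine (setIntegral_mono_on hi hg measurableSet_Ioi fun ξ _ => hb ξ).trans_eq ?_
  rw [integral_const_mul, integral_exp_mul_Ioi hq, neg_div_neg_eq, ← mul_div_assoc,
    ← Real.exp_add]
  congr 2; ring

end Pool.Agent.Eps.T
end
end

-- part Pool.Agent.Lib.MP_3bda03_nt.T.Rad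
section

/-! The logarithmic radial coordinate. -/

set_option autoImplicit false

noncomputable section

open MeasureTheory Set Pool.Agent.Eps.H

namespace Pool.Agent.Eps.T.Fam

variable {F : Fam}

theorem Ok.x1_neg (h : F.Ok) : F.x1 < 0 := by
  exact neg_lt_zero.2 (div_pos h.τ_pos h.p_pos)

theorem Ok.lam_pos (h : F.Ok) : 0 < F.lam := by
  exact div_pos h.p_pos h.τ_pos

theorem Ok.lam_x1 (h : F.Ok) : F.lam * F.x1 = -1 := by
  have := h.p_pos.ne'
  have := h.τ_pos.ne'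
  unfold lam x1
  field_simp

theorem Ok.TT_pos (h : F.Ok) : 0 < F.TT := by
  exact div_pos (mul_pos two_pos h.τ_pos) (pow_pos h.p_pos 2)

theorem Ok.qc_pos (h : F.Ok) : 0 < F.qc := by
  linarith [h.p_pos, h.q_pos]

theorem Ok.xc_pos (h : F.Ok) : 0 < F.xc := by
  exact (qf_pos_iff h.p_pos).1 h.qc_pos

theorem Ok.rad_pos (h : F.Ok) : 0 < F.rad := by
  exact div_pos (Real.exp_pos _) (mul_pos Real.pi_pos (pow_pos h.p_pos 2))

theorem Ok.Th_pos (h : F.Ok) : 0 < F.Th := by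
  exact mul_pos (mul_pos h.p_pos (Real.exp_pos _)) (mul_pos (Real.sqrt_pos.2 h.ρ_pos) h.TT_pos)

theorem Ok.bh_pos (h : F.Ok) (ξ : ℝ) : 0 < F.bh ξ := by
  exact div_pos (Real.exp_pos _) (mul_pos (Real.sqrt_pos.2 h.ρ_pos) h.TT_pos)

theorem measurable_xi (F : Fam) : Measurable F.xi := by
  exact (Real.measurable_log.comp ((measurable_id.const_mul _).mul_const _)).div_const _

theorem continuous_bh (F : Fam) : Continuous F.bh := by
  unfold bh
  fun_prop

theorem Ok.exp_xi (h : F.Ok) {ρ : ℝ} (hρ : 0 < ρ) :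
    Real.exp (F.p * F.xi ρ) = Real.pi * ρ * F.p ^ 2 := by
  rw [xi, mul_div_cancel₀ _ h.p_pos.ne',
    Real.exp_log (mul_pos (mul_pos Real.pi_pos hρ) (pow_pos h.p_pos 2))]

theorem Ok.rad_x1 (h : F.Ok) : Real.exp (F.p * F.x1) = Real.pi * F.rad * F.p ^ 2 := by
  have := h.p_pos.ne'
  have := Real.pi_pos.ne'
  rw [show F.p * F.x1 = -F.τ by unfold x1; field_simp, rad]
  field_simp

theorem Ok.rad_div (h : F.Ok) {ρ : ℝ} (hρ : 0 < ρ) :
    ρ / F.rad = Real.exp (F.p * (F.xi ρ - F.x1)) := by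
  have := h.p_pos.ne'
  have := Real.pi_pos.ne'
  have := h.rad_pos.ne'
  rw [mul_sub, Real.exp_sub, h.exp_xi hρ, h.rad_x1]
  field_simp

theorem rad_mul_neg {p a b : ℝ} (hp : 0 < p) : p * (a - b) < 0 ↔ a < b :=
  ⟨fun h => by nlinarith, fun h => by nlinarith⟩

theorem Ok.lt_rad_iff (h : F.Ok) {ρ : ℝ} (hρ : 0 < ρ) : ρ < F.rad ↔ F.xi ρ < F.x1 := by
  rw [← div_lt_one h.rad_pos, h.rad_div hρ, Real.exp_lt_one_iff,
    rad_mul_neg h.p_pos]

theorem Ok.div_rad (h : F.Ok) {ρ : ℝ} (hρ : 0 < ρ) :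
    ρ / F.rad = Real.exp (F.p * (F.xi ρ - F.x1)) := by
  exact h.rad_div hρ

theorem Ok.continuousAt_xi (h : F.Ok) {ρ : ℝ} (hρ : 0 < ρ) : ContinuousAt F.xi ρ := by
  refine ContinuousAt.div_const (ContinuousAt.log (by fun_prop) ?_) _
  exact (mul_pos (mul_pos Real.pi_pos hρ) (pow_pos h.p_pos 2)).ne'

theorem Ok.xi_inj (h : F.Ok) {ρ σ : ℝ} (hρ : 0 < ρ) (hσ : 0 < σ) (e : F.xi ρ = F.xi σ) :
    ρ = σ := by
  have := h.div_rad hρ
  rwa [e, ← h.div_rad hσ, div_left_inj' h.rad_pos.ne'] at this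

/-- the base function against the Gaussian -/
theorem Ok.bh_env (h : F.Ok) {ρ : ℝ} (hρ : 0 < ρ) :
    F.bh (F.xi ρ) * kf F.p (F.xi ρ) = Real.exp (Real.pi * F.rad) / (Real.sqrt F.ρ * F.TT) *
      Real.exp (-Real.pi * ρ) * F.k1 := by
  have := h.p_pos.ne'
  rw [bh, k1, kf_eq h.p_pos, kf_eq h.p_pos, h.exp_xi hρ, h.rad_x1, div_mul_eq_mul_div,
    div_mul_eq_mul_div, div_mul_eq_mul_div]
  congr 1
  simp only [← Real.exp_add]
  congr 1
  field_simp
  ring

/-- the incomplete kernel in the new coordinate -/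
theorem Ok.fs_eq (h : F.Ok) (α : ℝ) {ρ : ℝ} (hρ : 0 < ρ) :
    fs (1 / F.p ^ 2 + α / F.p) ρ = F.Th * (F.bh (F.xi ρ) * Af F.p α (F.xi ρ)) := by
  have hp := h.p_pos
  have := hp.ne'
  have h0 := (mul_pos (Real.sqrt_pos.2 h.ρ_pos) h.TT_pos).ne'
  have im : (fun η => Real.exp (F.p * (η - F.xi ρ))) '' Ioi (F.xi ρ) = Ioi 1 := by
    ext t
    constructor
    · rintro ⟨u, hu, rfl⟩
      exact Real.one_lt_exp_iff.2 (mul_pos hp (sub_pos.2 hu))
    · intro (ht : 1 < t)
      refine ⟨F.xi ρ + Real.log t / F.p, lt_add_of_pos_right _ (div_pos (Real.log_pos ht) hp), ?_⟩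
      dsimp only
      rw [add_sub_cancel_left, mul_div_cancel₀ _ this, Real.exp_log (by linarith)]
  rw [fs, ← im, integral_image_eq_integral_abs_deriv_smul
    (f' := fun η => Real.exp (F.p * (η - F.xi ρ)) * F.p) measurableSet_Ioi
    (fun x _ => (HasDerivAt.exp (by
      simpa using ((hasDerivAt_id x).sub_const (F.xi ρ)).const_mul F.p)).hasDerivWithinAt)
    (fun x _ y _ e => by simpa [this] using e), Af, At, ← mul_assoc, ← mul_assoc,
    ← integral_const_mul]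
  refine integral_congr_ae (ae_of_all _ fun η => ?_)
  have e : -Real.pi * Real.exp (F.p * (η - F.xi ρ)) * ρ = -(Real.exp (F.p * η) / F.p ^ 2) := by
    have := Real.pi_pos.ne'
    have := hρ.ne'
    rw [mul_sub, Real.exp_sub, h.exp_xi hρ]
    field_simp
  dsimp only
  rw [abs_of_pos (by positivity), e, ← Real.exp_mul, kf_eq hp, Th, bh, smul_eq_mul,
    mul_assoc (_ * _) (_ * _), mul_div_cancel₀ _ h0, mul_comm _ F.p]
  simp only [mul_assoc, ← Real.exp_add]
  congr 2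
  field_simp
  ring

/-- the inverse of the coordinate -/
def radR (F : Fam) (ξ : ℝ) : ℝ := F.rad * Real.exp (F.p * (ξ - F.x1))

theorem Ok.rad_sub (h : F.Ok) {n : ℕ} (hd : F.Dim n) : Nonempty (Fin n) ∧
    F.radR '' univ = Ioi 0 ∧ (∀ x, HasDerivAt F.radR (F.radR x * F.p) x) ∧
    Function.Injective F.radR ∧ (∀ x, F.xi (F.radR x) = x) ∧
    (∀ x, |F.radR x * F.p| * (Real.pi ^ ((Fintype.card (Fin n) : ℝ) / 2) /
      Real.Gamma ((Fintype.card (Fin n) : ℝ) / 2) *
        F.radR x ^ ((Fintype.card (Fin n) : ℝ) / 2 - 1)) =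
      F.ρ * F.TT * (2 / F.p) * Real.exp (2 * (x - F.x1) / F.p)) ∧
    0 < F.ρ * F.TT * (2 / F.p) := by
  have hp := h.p_pos
  have p0 := hp.ne'
  have r0 := h.rad_pos
  have n0 : 0 < n := Nat.pos_of_ne_zero fun e => by simpa [e] using hd.hp
  have pos : ∀ x, 0 < F.radR x := fun x => mul_pos r0 (Real.exp_pos _)
  have inv : ∀ x, F.xi (F.radR x) = x := fun x => by
    have := h.div_rad (pos x)
    rw [radR, mul_div_cancel_left₀ _ r0.ne', Real.exp_eq_exp] at this
    exact (sub_left_inj.1 (mul_left_cancel₀ p0 this)).symm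
  refine ⟨⟨⟨0, n0⟩⟩, ?_, fun x => ?_, Function.LeftInverse.injective inv, inv, fun x => ?_,
    mul_pos (mul_pos h.ρ_pos h.TT_pos) (div_pos two_pos hp)⟩
  · ext t
    refine ⟨?_, fun ht => ⟨F.xi t, trivial, h.xi_inj (pos _) ht (inv _)⟩⟩
    rintro ⟨u, -, rfl⟩
    exact pos u
  · have : HasDerivAt (fun x => F.p * (x - F.x1)) F.p x := by
      simpa using ((hasDerivAt_id x).sub_const F.x1).const_mul F.p
    exact (this.exp.const_mul F.rad).congr_deriv (mul_assoc _ _ _).symm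
  have ν0 : (0 : ℝ) < (n : ℝ) / 2 := by positivity
  have e : (n : ℝ) / 2 = 2 / F.p ^ 2 := by
    field_simp
    linarith [hd.hp]
  have g0 := (Real.Gamma_pos_of_pos ν0).ne'
  have x0 := (pos x).ne'
  have e2 : F.radR x ^ ((n : ℝ) / 2) = F.rad ^ ((n : ℝ) / 2) * Real.exp (2 * (x - F.x1) / F.p) := by
    rw [radR, Real.mul_rpow r0.le (Real.exp_pos _).le, ← Real.exp_mul, e]
    congr 2
    field_simp
  rw [Fintype.card_fin, abs_of_pos (mul_pos (pos x) hp), ← hd.hV, Real.Gamma_add_one ν0.ne',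
    Real.rpow_sub_one x0, e2, Real.mul_rpow Real.pi_pos.le r0.le]
  generalize Real.Gamma (n / 2) = Γ at g0
  generalize Real.pi ^ ((n : ℝ) / 2) = a
  generalize F.rad ^ ((n : ℝ) / 2) = b
  rw [e]
  field_simp

theorem Ok.lintegral_xi (h : F.Ok) {n : ℕ} (hd : F.Dim n) (G : ℝ → ENNReal)
    (hG : Measurable G) :
    ∫⁻ y : Fin n → ℝ, G (F.xi (nsq y)) = ∫⁻ ξ : ℝ, G ξ *
      ENNReal.ofReal (F.ρ * F.TT * (2 / F.p) * Real.exp (2 * (ξ - F.x1) / F.p)) := by
  obtain ⟨h1, h2, h3, h4, h5, h6, h7⟩ := h.rad_sub hd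
  rw [lintegral_radial (fun ρ => G (F.xi ρ)) (hG.comp F.measurable_xi), ← h2,
    lintegral_image_eq_lintegral_abs_deriv_mul MeasurableSet.univ
      (fun x _ => (h3 x).hasDerivWithinAt) h4.injOn, Measure.restrict_univ]
  refine lintegral_congr fun ξ => ?_
  rw [h5, mul_left_comm, ← ENNReal.ofReal_mul (abs_nonneg _), h6]

theorem Ok.integral_xi (h : F.Ok) {n : ℕ} (hd : F.Dim n) (G : ℝ → ℝ) (hG : Measurable G) :
    ∫ y : Fin n → ℝ, G (F.xi (nsq y)) =
      F.ρ * F.TT * (2 / F.p) * ∫ ξ : ℝ, G ξ * Real.exp (2 * (ξ - F.x1) / F.p) := by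
  obtain ⟨h1, h2, h3, h4, h5, h6, h7⟩ := h.rad_sub hd
  rw [integral_radial (fun ρ => G (F.xi ρ)) (hG.comp F.measurable_xi), ← h2,
    integral_image_eq_integral_abs_deriv_smul MeasurableSet.univ
      (fun x _ => (h3 x).hasDerivWithinAt) h4.injOn, Measure.restrict_univ, ← integral_const_mul]
  refine integral_congr_ae (ae_of_all _ fun ξ => ?_)
  dsimp only
  rw [h5, smul_eq_mul, mul_left_comm, h6, mul_left_comm]

theorem Ok.integrable_xi (h : F.Ok) {n : ℕ} (hd : F.Dim n) (G : ℝ → ℝ) (hG : Measurable G)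
    (hi : Integrable fun ξ : ℝ => G ξ * Real.exp (2 * (ξ - F.x1) / F.p)) :
    Integrable fun y : Fin n → ℝ => G (F.xi (nsq y)) := by
  obtain ⟨-, -, -, -, -, -, h7⟩ := h.rad_sub hd
  refine ⟨(hG.comp (F.measurable_xi.comp measurable_nsq)).aestronglyMeasurable, ?_⟩
  rw [HasFiniteIntegral, h.lintegral_xi hd (fun ξ => ‖G ξ‖ₑ) hG.enorm]
  refine lt_of_eq_of_lt (lintegral_congr fun ξ => ?_) (hi.const_mul (F.ρ * F.TT * (2 / F.p))).2
  dsimp only
  rw [mul_left_comm, enorm_mul, Real.enorm_eq_ofReal (mul_pos h7 (Real.exp_pos _)).le]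

theorem ae_nsq_pos {n : ℕ} (hn : 1 ≤ n) : ∀ᵐ y : Fin n → ℝ, 0 < nsq y := by
  have : Nonempty (Fin n) := ⟨⟨0, hn⟩⟩
  rw [ae_iff]
  simp only [not_lt]
  rw [volume_nsq_le le_rfl, mul_zero, Real.zero_rpow (by simp; omega), zero_div,
    ENNReal.ofReal_zero]

end Pool.Agent.Eps.T.Fam
end
end
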