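import Mathlib
import Pool.Agent.Lib.MP_3bda03_nt.T.Rad
import Pool.Agent.Lib.MP_3bda03_nt.H.Radial
import Pool.Agent.Lib.MP_3bda03_nt.H.Omega
import Pool.Agent.Lib.MP_3bda03_nt.B.Cnt
import Pool.Agent.Lib.MP_3bda03_nt.H.Poisson

-- part Pool.Agent.Lib.MP_3bda03_nt.T.A3
section

/-! Weighted integrals of the profile. -/

set_option autoImplicit false

noncomputable section

open MeasureTheory Set

namespace Pool.Agent.Eps.T

variable {p : ℝ}

theorem a3_exp (γ x ξ : ℝ) : Real.exp (γ * (ξ - x)) = Real.exp (-(γ * x)) * Real.exp (γ * ξ) := by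
  rw [← Real.exp_add]
  congr 1
  ring

theorem a3_hd (γ x ξ : ℝ) :
    HasDerivAt (fun t => Real.exp (γ * (t - x))) (Real.exp (γ * (ξ - x)) * γ) ξ := by
  simpa using (((hasDerivAt_id ξ).sub_const x).const_mul γ).exp

theorem a3_intK (hp : 0 < p) {γ : ℝ} (hγ : 0 ≤ γ) (x : ℝ) :
    IntegrableOn (fun η => Real.exp (γ * (η - x)) * kf p η) (Iic x) := by
  simp only [a3_exp γ x, mul_assoc]
  exact (integrableOn_exp_kf_Iic hp hγ x).const_mul _

/-- the integral over the hole -/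
theorem hole_eq (hp : 0 < p) {α γ : ℝ} (hγ : 0 ≤ γ) (h : α < γ) (x : ℝ) :
    IntegrableOn (fun ξ => Real.exp (γ * (ξ - x)) * Af p α ξ) (Iio x) ∧
      ∫ ξ in Iio x, Real.exp (γ * (ξ - x)) * Af p α ξ =
        (Af p α x + ∫ η in Iic x, Real.exp (γ * (η - x)) * kf p η) / (γ - α) := by
  have hA := continuous_Af hp α
  have hk := continuous_kf p
  have hK := a3_intK hp hγ x
  have h0 : 0 < γ - α := sub_pos.2 h
  set H : ℝ → ℝ := fun ξ => Real.exp (γ * (ξ - x)) * Af p α ξ with hH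
  set K : ℝ → ℝ := fun ξ => Real.exp (γ * (ξ - x)) * kf p ξ with hK'
  have cH : Continuous H := by fun_prop
  have cK : Continuous K := by fun_prop
  have pH : ∀ ξ, 0 ≤ H ξ := fun ξ => (mul_pos (Real.exp_pos _) (Af_pos hp α ξ)).le
  have pK : ∀ ξ, 0 ≤ K ξ := fun ξ => (mul_pos (Real.exp_pos _) (kf_pos p ξ)).le
  have hd : ∀ ξ, HasDerivAt H ((γ - α) * H ξ - K ξ) ξ := fun ξ => by
    refine ((a3_hd γ x ξ).fun_mul (hasDerivAt_Af hp α ξ)).congr_deriv ?_
    simp only [hH, hK', cf]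
    ring
  have hx : H x = Af p α x := by simp [hH]
  have iH : IntegrableOn H (Iic x) := by
    refine integrableOn_Iic_of_intervalIntegral_norm_bounded (l := Filter.atBot) (a := id)
      ((H x + ∫ η in Iic x, K η) / (γ - α)) x (fun a => cH.integrableOn_Ioc) Filter.tendsto_id ?_
    filter_upwards [Filter.eventually_le_atBot x] with a ha
    have e := intervalIntegral.integral_eq_sub_of_hasDerivAt (a := a) (b := x) (fun ξ _ => hd ξ)
      (Continuous.intervalIntegrable (by fun_prop) _ _)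
    rw [intervalIntegral.integral_sub ((cH.intervalIntegrable _ _).const_mul _)
      (cK.intervalIntegrable _ _), intervalIntegral.integral_const_mul] at e
    have e2 : ∫ η in a..x, K η ≤ ∫ η in Iic x, K η := by
      rw [intervalIntegral.integral_of_le ha]
      exact setIntegral_mono_set hK (ae_of_all _ pK) (Ioc_subset_Iic_self.eventuallyLE)
    simp only [id, Real.norm_of_nonneg (pH _)]
    rw [le_div_iff₀ h0]
    linarith [pH a]
  have iD : IntegrableOn (fun ξ => (γ - α) * H ξ - K ξ) (Iic x) := (iH.const_mul _).sub hK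
  have e := integral_Iic_of_hasDerivAt_of_tendsto' (fun ξ _ => hd ξ) iD
    (tendsto_zero_of_hasDerivAt_of_integrableOn_Iic (fun ξ _ => hd ξ) iD iH)
  rw [integral_sub (iH.const_mul _) hK, integral_const_mul] at e
  refine ⟨iH.mono_set Iio_subset_Iic_self, ?_⟩
  rw [← integral_Iic_eq_integral_Iio, eq_div_iff h0.ne']
  linarith

theorem hole_kf_le (hp : 0 < p) {γ x : ℝ} (hγ : 0 < γ) (hx : x ≤ 0) :
    ∫ η in Iic x, Real.exp (γ * (η - x)) * kf p η ≤ kf p x / γ := by
  have h1 : ∫ η in Iic x, kf p x * Real.exp (-(γ * x)) * Real.exp (γ * η) = kf p x / γ := by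
    rw [integral_const_mul, integral_exp_mul_Iic hγ, Real.exp_neg]
    field_simp
  rw [← h1]
  refine setIntegral_mono_on (a3_intK hp hγ.le x) ((integrableOn_exp_mul_Iic hγ x).const_mul _)
    measurableSet_Iic fun η hη => ?_
  rw [mul_assoc, ← a3_exp, mul_comm]
  exact mul_le_mul_of_nonneg_right (kf_mono hp hη hx) (Real.exp_pos _).le

/-- the integral outside of the hole -/
theorem out_le (hp : 0 < p) {α γ : ℝ} (h : γ < α) (x : ℝ) :
    IntegrableOn (fun ξ => Real.exp (γ * (ξ - x)) * Af p α ξ) (Ici x) ∧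
      ∫ ξ in Ici x, Real.exp (γ * (ξ - x)) * Af p α ξ ≤ Af p α x / (α - γ) := by
  have hA := continuous_Af hp α
  have h0 : γ - α < 0 := sub_neg.2 h
  have h1 : ∫ η in Ioi x, Af p α x * Real.exp (-((γ - α) * x)) * Real.exp ((γ - α) * η) =
      Af p α x / (α - γ) := by
    have := (sub_pos.2 h).ne'
    have := h0.ne
    rw [integral_const_mul, integral_exp_mul_Ioi h0, Real.exp_neg]
    field_simp
    ring
  have h2 := (integrableOn_exp_mul_Ioi h0 x).const_mul (Af p α x * Real.exp (-((γ - α) * x)))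
  have h3 : ∀ ξ ∈ Ioi x, Real.exp (γ * (ξ - x)) * Af p α ξ ≤
      Af p α x * Real.exp (-((γ - α) * x)) * Real.exp ((γ - α) * ξ) := fun ξ hξ => by
    refine (mul_le_mul_of_nonneg_left (Af_le_exp hp α (le_of_lt hξ)) (Real.exp_pos _).le).trans_eq ?_
    rw [mul_assoc, ← a3_exp, ← mul_assoc, ← Real.exp_add, mul_comm]
    congr 2
    ring
  have h4 : IntegrableOn (fun ξ => Real.exp (γ * (ξ - x)) * Af p α ξ) (Ioi x) :=
    h2.mono' (Continuous.aestronglyMeasurable (by fun_prop))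
      (ae_restrict_of_forall_mem measurableSet_Ioi fun ξ hξ => by
        rw [Real.norm_of_nonneg (mul_pos (Real.exp_pos _) (Af_pos hp α ξ)).le]
        exact h3 ξ hξ)
  refine ⟨(integrableOn_Ici_iff_integrableOn_Ioi).2 h4, ?_⟩
  rw [integral_Ici_eq_integral_Ioi, ← h1]
  exact setIntegral_mono_on h4 h2 measurableSet_Ioi h3

theorem a3_Af_mono (hp : 0 < p) {α β : ℝ} (h : α ≤ β) (ξ : ℝ) : Af p α ξ ≤ Af p β ξ := by
  rw [Af, Af, At, At, ← integral_const_mul, ← integral_const_mul]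
  refine setIntegral_mono_on ((integrableOn_At hp α ξ).const_mul _)
    ((integrableOn_At hp β ξ).const_mul _) measurableSet_Ioi fun η hη => ?_
  rw [← mul_assoc, ← mul_assoc, ← a3_exp, ← a3_exp]
  exact mul_le_mul_of_nonneg_right (Real.exp_le_exp.2
    (mul_le_mul_of_nonneg_right h (sub_nonneg.2 (le_of_lt hη)))) (kf_pos p η).le

theorem integrableOn_out (hp : 0 < p) (α γ x : ℝ) :
    IntegrableOn (fun ξ => Real.exp (γ * ξ) * Af p α ξ) (Ici x) := by
  have hA := continuous_Af hp α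
  refine ((out_le hp (α := max α (γ + 1)) (γ := γ) (lt_max_of_lt_right (lt_add_one γ))
    x).1.const_mul (Real.exp (γ * x))).mono' (Continuous.aestronglyMeasurable (by fun_prop))
    (ae_of_all _ fun ξ => ?_)
  rw [Real.norm_of_nonneg (mul_pos (Real.exp_pos _) (Af_pos hp α ξ)).le, ← mul_assoc,
    ← Real.exp_add, show γ * x + γ * (ξ - x) = γ * ξ by ring]
  exact mul_le_mul_of_nonneg_left (a3_Af_mono hp (le_max_left _ _) ξ) (Real.exp_pos _).le

theorem integral_mul_Af_neg_le (hp : 0 < p) {α a b : ℝ} (hα : 0 ≤ α) (hab : a ≤ b) :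
    ∫ t in a..b, α * Af p (-α) t ≤ ∫ η, kf p η := by
  have e : ∀ t, α * Af p (-α) t = kf p t - cf p (-α) t := fun t => by rw [cf]; ring
  have h1 := a3_Af_mono hp (show -α ≤ 0 by linarith) b
  have h2 := At_split hp 0 a b
  have h3 : ∫ η in Ioi a, kf p η ≤ ∫ η, kf p η :=
    setIntegral_le_integral (integrable_kf hp) (ae_of_all _ fun η => (kf_pos p η).le)
  simp only [At, zero_mul, Real.exp_zero, one_mul] at h2
  rw [Af.eq_1 p 0, At] at h1
  simp only [zero_mul, neg_zero, Real.exp_zero, one_mul] at h1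
  simp only [e]
  rw [intervalIntegral.integral_sub ((continuous_kf p).intervalIntegrable _ _)
    ((continuous_cf hp _).intervalIntegrable _ _), integral_cf hp]
  have := hab
  linarith [Af_pos hp (-α) a]

theorem integral_loss_le (hp : 0 < p) {α a b : ℝ} (hα : 0 ≤ α) (hab : a ≤ b) :
    ∫ t in a..b, α * (Real.exp (-(α * (t - a))) * Af p α a - Af p α t) ≤ ∫ η, kf p η := by
  have hA := continuous_Af hp α
  have hk := continuous_kf p
  have hd : ∀ t, HasDerivAt (fun t => Real.exp (-α * (t - a)) * Af p α a - Af p α t)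
      (kf p t - α * (Real.exp (-(α * (t - a))) * Af p α a - Af p α t)) t := fun t => by
    refine (((a3_hd (-α) a t).mul_const (Af p α a)).fun_sub (hasDerivAt_Af hp α t)).congr_deriv ?_
    rw [cf, neg_mul]
    ring
  have e := intervalIntegral.integral_eq_sub_of_hasDerivAt (a := a) (b := b) (fun t _ => hd t)
    (Continuous.intervalIntegrable (by fun_prop) _ _)
  rw [intervalIntegral.integral_sub (hk.intervalIntegrable _ _)
    (Continuous.intervalIntegrable (by fun_prop) _ _)] at e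
  have h1 := Af_le_exp hp α hab
  have h2 : ∫ η in a..b, kf p η ≤ ∫ η, kf p η := by
    rw [intervalIntegral.integral_of_le hab]
    exact setIntegral_le_integral (integrable_kf hp) (ae_of_all _ fun η => (kf_pos p η).le)
  simp only [neg_mul, sub_self, mul_zero, Real.exp_zero, one_mul] at e
  have := hα
  linarith

theorem a3_int {a b mm : ℝ} {m f : ℝ → ℝ} (hab : a ≤ b) (hm : Measurable m)
    (h : ∀ t ∈ Ioc a b, 0 ≤ m t ∧ m t ≤ mm) (hf : Continuous f) :
    IntervalIntegrable (fun t => m t * f t) volume a b :=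
  ((intervalIntegrable_iff_integrableOn_Ioc_of_le hab).2 (Measure.integrableOn_of_bounded
    (M := mm) measure_Ioc_lt_top.ne hm.aestronglyMeasurable
    (ae_restrict_of_forall_mem measurableSet_Ioc fun t ht => by
      rw [Real.norm_of_nonneg (h t ht).1]; exact (h t ht).2))).mul_continuousOn hf.continuousOn

/-- the shift of the forward part, negative sign -/
theorem shift_neg_ge (hp : 0 < p) (hp' : p ≤ 21 / 100) {α a b mm : ℝ} {m : ℝ → ℝ} (hα : 0 ≤ α)
    (hab : a ≤ b) (hmm : 0 ≤ mm) (hm : Measurable m) (h : ∀ t ∈ Ioc a b, 0 ≤ m t ∧ m t ≤ mm) :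
    -(mm * (14 / 5)) ≤ ∫ t in a..b, m t * cf p (-α) t := by
  have hA := continuous_Af hp (-α)
  have h1 := mul_le_mul_of_nonneg_left
    ((integral_mul_Af_neg_le hp hα hab).trans (integral_kf_le hp hp')) hmm
  have h2 : ∫ t in a..b, -mm * (α * Af p (-α) t) ≤ ∫ t in a..b, m t * cf p (-α) t := by
    refine intervalIntegral.integral_mono_on_of_le_Ioo hab
      (Continuous.intervalIntegrable (by fun_prop) _ _) (a3_int hab hm h (continuous_cf hp _))
      fun t ht => ?_
    obtain ⟨k1, k2⟩ := h t (Ioo_subset_Ioc_self ht)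
    have k3 := mul_le_mul_of_nonneg_right k2 (mul_nonneg hα (Af_pos hp (-α) t).le)
    have k4 := mul_nonneg k1 (kf_pos p t).le
    rw [cf]
    linarith
  rw [intervalIntegral.integral_const_mul] at h2
  linarith

/-- the shift of the forward part, positive sign -/
theorem shift_pos_ge (hp : 0 < p) (hp' : p ≤ 21 / 100) {α a b mm : ℝ} {m : ℝ → ℝ} (hα : 0 ≤ α)
    (hab : a ≤ b) (hmm : 0 ≤ mm) (hm : Measurable m) (h : ∀ t ∈ Ioc a b, 0 ≤ m t ∧ m t ≤ mm) :
    Af p α a * (∫ t in a..b, m t * (α * Real.exp (-(α * (t - a))))) - mm * (14 / 5) ≤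
      ∫ t in a..b, m t * cf p α t := by
  have hA := continuous_Af hp α
  have h1 := mul_le_mul_of_nonneg_left
    ((integral_loss_le hp hα hab).trans (integral_kf_le hp hp')) hmm
  have i1 := (a3_int hab hm h (f := fun t => α * Real.exp (-(α * (t - a))))
    (by fun_prop)).const_mul (Af p α a)
  have i2 : IntervalIntegrable
      (fun t => mm * (α * (Real.exp (-(α * (t - a))) * Af p α a - Af p α t))) volume a b :=
    Continuous.intervalIntegrable (by fun_prop) _ _
  have h2 := intervalIntegral.integral_mono_on_of_le_Ioo hab (i1.sub i2)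
    (a3_int hab hm h (continuous_cf hp α)) fun t ht => by
      obtain ⟨k1, k2⟩ := h t (Ioo_subset_Ioc_self ht)
      have k3 := mul_le_mul_of_nonneg_right k2
        (mul_nonneg hα (sub_nonneg.2 (Af_le_exp hp α ht.1.le)))
      have k4 := mul_nonneg k1 (kf_pos p t).le
      rw [cf]
      linarith
  rw [intervalIntegral.integral_sub i1 i2, intervalIntegral.integral_const_mul,
    intervalIntegral.integral_const_mul mm] at h2
  linarith

theorem shift_nonneg (hp : 0 < p) {α a b : ℝ} {m : ℝ → ℝ} (hα : 0 ≤ α) (hab : a ≤ b)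
    (h : ∀ t ∈ Ioc a b, 0 ≤ m t) : 0 ≤ ∫ t in a..b, m t * cf p α t := by
  rw [intervalIntegral.integral_of_le hab]
  exact setIntegral_nonneg measurableSet_Ioc fun t ht => mul_nonneg (h t ht)
    (add_nonneg (mul_nonneg hα (Af_pos hp α t).le) (kf_pos p t).le)

end Pool.Agent.Eps.T
end
end

-- part Pool.Agent.Lib.MP_3bda03_nt.T.Ann
section

/-! The cosine transform of a radial function on the annulus. -/

set_option autoImplicit false

noncomputable section

open MeasureTheory Set Pool.Agent.Eps.H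

namespace Pool.Agent.Eps.T

theorem measurableSet_ann (n : ℕ) (r : ℝ) : MeasurableSet (ann (Fin n) r) :=
  (measurableSet_le measurable_const measurable_nsq).inter
    (measurableSet_lt measurable_nsq measurable_const)

theorem volume_ann_ne_top {n : ℕ} (hn : 1 ≤ n) {r : ℝ} (hr : 0 < r) :
    volume (ann (Fin n) r) ≠ ⊤ := by
  have : Nonempty (Fin n) := ⟨⟨0, hn⟩⟩
  have h : ann (Fin n) r ⊆ {x | nsq x < r} := fun x hx => hx.2
  refine ne_top_of_le_ne_top ?_ (measure_mono h)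
  rw [volume_nsq_lt hr.le]
  exact ENNReal.ofReal_ne_top

theorem ann_cos {n : ℕ} (f : (Fin n → ℝ) → ℝ) (y x : Fin n → ℝ) :
    ‖f x * Real.cos (2 * Real.pi * (y ⬝ᵥ x))‖ ≤ |f x| := by
  rw [Real.norm_eq_abs, abs_mul]
  exact mul_le_of_le_one_right (abs_nonneg _) (Real.abs_cos_le_one _)

theorem ann_mcos {n : ℕ} (y : Fin n → ℝ) :
    Measurable fun x : Fin n → ℝ => Real.cos (2 * Real.pi * (y ⬝ᵥ x)) :=
  Real.measurable_cos.comp ((rad_dot y).const_mul _)

theorem continuous_ftr {n : ℕ} {f : (Fin n → ℝ) → ℝ} (hf : Integrable f) :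
    Continuous (ftr f) := by
  unfold ftr
  refine continuous_of_dominated (bound := fun x => |f x|) (fun y => ?_)
    (fun y => Filter.Eventually.of_forall fun x => ann_cos f y x) hf.abs
    (Filter.Eventually.of_forall fun x => ?_)
  · exact hf.aestronglyMeasurable.mul (ann_mcos y).aestronglyMeasurable
  · unfold dotProduct
    fun_prop

theorem abs_ftr_le_integral {n : ℕ} (f : (Fin n → ℝ) → ℝ) (y : Fin n → ℝ) (hf : Integrable f) :
    |ftr f y| ≤ ∫ x, |f x| :=
  norm_integral_le_of_norm_le hf.abs (Filter.Eventually.of_forall fun x => ann_cos f y x)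

theorem integrableOn_ann {n : ℕ} (hn : 1 ≤ n) {r : ℝ} (hr : 0 < r) {w f : (Fin n → ℝ) → ℝ}
    (hw : Measurable w) (hw' : ∀ y, 0 ≤ w y ∧ w y ≤ 51 / 50) (hf : Integrable f) :
    IntegrableOn (fun y => w y * ftr f y) (ann (Fin n) r) := by
  refine Measure.integrableOn_of_bounded (M := 51 / 50 * ∫ x, |f x|) (volume_ann_ne_top hn hr)
    (hw.mul (continuous_ftr hf).measurable).aestronglyMeasurable
    (Filter.Eventually.of_forall fun y => ?_)
  rw [Real.norm_eq_abs, abs_mul, abs_of_nonneg (hw' y).1]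
  exact mul_le_mul (hw' y).2 (abs_ftr_le_integral f y hf) (abs_nonneg _) (by norm_num)

/-- the power weight on the ball -/
theorem lintegral_ball_pow {n : ℕ} (hn : 1 ≤ n) {r θ : ℝ} (hr : 0 < r) (hθ : θ < (n : ℝ) / 2) :
    ∫⁻ y in {y : Fin n → ℝ | nsq y < r}, ENNReal.ofReal ((nsq y / r) ^ (-θ)) =
      ENNReal.ofReal ((Real.pi * r) ^ ((n : ℝ) / 2) / Real.Gamma ((n : ℝ) / 2 + 1) *
        ((n : ℝ) / 2 / ((n : ℝ) / 2 - θ))) := by
  have : Nonempty (Fin n) := ⟨⟨0, hn⟩⟩
  have hν : 0 < (n : ℝ) / 2 := by positivity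
  have h1 := lintegral_radial (ι := Fin n)
    ((Iio r).indicator fun ρ => ENNReal.ofReal ((ρ / r) ^ (-θ)))
    (Measurable.indicator (by fun_prop) measurableSet_Iio)
  rw [Fintype.card_fin] at h1
  generalize (n : ℝ) / 2 = ν at *
  have hc := rad_c hν
  have hG := Real.Gamma_pos_of_pos hν
  rw [← lintegral_indicator (measurableSet_lt measurable_nsq measurable_const)]
  refine (lintegral_congr fun y => ?_).trans (h1.trans ?_)
  · by_cases h : nsq y < r <;> simp [indicator, h]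
  have h2 : ∀ ρ ∈ Ioi (0 : ℝ), (Iio r).indicator (fun ρ => ENNReal.ofReal ((ρ / r) ^ (-θ))) ρ *
      ENNReal.ofReal (Real.pi ^ ν / Real.Gamma ν * ρ ^ (ν - 1)) =
      (Iio r).indicator (fun ρ => ENNReal.ofReal
        (Real.pi ^ ν / Real.Gamma ν * r ^ θ * ρ ^ (ν - θ - 1))) ρ := by
    intro ρ (hρ : 0 < ρ)
    by_cases h : ρ ∈ Iio r
    · rw [indicator_of_mem h, indicator_of_mem h, ← ENNReal.ofReal_mul (by positivity),
        Real.div_rpow hρ.le hr.le, Real.rpow_neg hr.le, show ν - θ - 1 = -θ + (ν - 1) by ring,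
        Real.rpow_add hρ]
      congr 1
      have := Real.rpow_pos_of_pos hr θ
      field_simp
    · rw [indicator_of_notMem h, indicator_of_notMem h, zero_mul]
  have hI : IntegrableOn (fun ρ : ℝ => ρ ^ (ν - θ - 1)) (Ioo 0 r) :=
    (intervalIntegrable_iff_integrableOn_Ioo_of_le hr.le).1
      (intervalIntegral.intervalIntegrable_rpow' (by linarith))
  rw [setLIntegral_congr_fun measurableSet_Ioi h2, lintegral_indicator measurableSet_Iio,
    Measure.restrict_restrict measurableSet_Iio, inter_comm, Ioi_inter_Iio,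
    ← ofReal_integral_eq_lintegral_ofReal (hI.const_mul _)
      ((ae_restrict_mem measurableSet_Ioo).mono fun ρ hρ => by have := hρ.1; positivity),
    integral_const_mul, ← integral_Ioc_eq_integral_Ioo, ← intervalIntegral.integral_of_le hr.le,
    integral_rpow (Or.inl (by linarith)), Real.zero_rpow (by linarith), sub_add_cancel,
    Real.Gamma_add_one hν.ne', Real.mul_rpow Real.pi_pos.le hr.le, Real.rpow_sub hr]
  congr 1
  have := Real.rpow_pos_of_pos hr θ
  have : ν - θ ≠ 0 := by linarith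
  field_simp
  ring

/-- the majorant with the contour at `ν` -/
theorem Om_le_const {n : ℕ} (hn : 97 ≤ n) {κ B : ℝ} (hκ : 0 < κ) (hκ' : κ ≤ 1 / 5) (hB : 0 < B) :
    Om ((n : ℝ) / 2) ((n : ℝ) / 2) B ≤ 10052 / 10000 / Real.sqrt (1 - 2 * κ - 4 / 97) *
      (κ * ((n : ℝ) / 2) ^ 2 / (Real.exp 1 * B)) ^ (κ * ((n : ℝ) / 2)) := by
  obtain ⟨θ, -, h2, h3⟩ := stirling (n := n) (by omega)
  have hν : (97 : ℝ) / 2 ≤ (n : ℝ) / 2 := by
    have : (97 : ℝ) ≤ n := by exact_mod_cast hn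
    linarith
  generalize (n : ℝ) / 2 = ν at *
  have h0 : 0 < ν := by linarith
  have hp := Real.pi_pos
  have hκν : κ * ν ≤ ν / 5 := by nlinarith
  have hd : 0 < 1 - 2 * κ - 4 / 97 := by linarith
  refine (Om_le_pow h0 h0 hB (θ := κ * ν) (by positivity) (by linarith)).trans ?_
  rw [show κ * ν * ν = κ * ν ^ 2 by ring, mul_right_comm]
  refine mul_le_mul_of_nonneg_right ?_ (by positivity)
  have h4 : Real.Gamma ν * Real.exp ν * ν ^ (1 - ν) = Real.sqrt (2 * Real.pi * ν) * Real.exp θ := by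
    rw [Real.Gamma_add_one h0.ne', Real.div_rpow h0.le (Real.exp_pos 1).le, Real.exp_one_rpow] at h3
    have := Real.rpow_pos_of_pos h0 ν
    have := Real.exp_pos ν
    rw [Real.rpow_sub h0, Real.rpow_one, show Real.Gamma ν * Real.exp ν * (ν / ν ^ ν) =
      ν * Real.Gamma ν * Real.exp ν / ν ^ ν by ring, h3]
    field_simp
  have h5 : Real.exp θ ≤ 10052 / 10000 := by
    have h6 : θ ≤ 1 / 194 := h2.trans (one_div_le_one_div_of_le (by norm_num) (by linarith))
    refine (Real.exp_le_exp.2 h6).trans ((Real.exp_bound_div_one_sub_of_interval (by norm_num)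
      (by norm_num)).trans (by norm_num))
  have h6 := integral_one_add_sq_le (μ := ν / 2 - κ * ν) (by linarith)
  have h7 : Real.sqrt (2 * Real.pi * ν) * Real.sqrt (Real.pi / (ν / 2 - κ * ν - 1)) *
      Real.sqrt (1 - 2 * κ - 4 / 97) ≤ 2 * Real.pi := by
    have h8 : 0 < ν / 2 - κ * ν - 1 := by linarith
    rw [← Real.sqrt_mul (by positivity), ← Real.sqrt_mul (by positivity)]
    refine Real.sqrt_le_iff.2 ⟨by positivity, ?_⟩
    rw [mul_div_assoc', div_mul_eq_mul_div, div_le_iff₀ h8]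
    have h9 : ν * (1 - 2 * κ - 4 / 97) ≤ 2 * (ν / 2 - κ * ν - 1) := by nlinarith
    nlinarith [mul_le_mul_of_nonneg_left h9 (by positivity : 0 ≤ 2 * Real.pi ^ 2)]
  have hs := Real.sqrt_pos.2 hd
  rw [h4, le_div_iff₀ hs]
  calc _ ≤ Real.sqrt (2 * Real.pi * ν) * (10052 / 10000) / (2 * Real.pi) *
        Real.sqrt (Real.pi / (ν / 2 - κ * ν - 1)) * Real.sqrt (1 - 2 * κ - 4 / 97) := by
        gcongr
    _ = 10052 / 10000 * (Real.sqrt (2 * Real.pi * ν) * Real.sqrt (Real.pi / (ν / 2 - κ * ν - 1)) *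
        Real.sqrt (1 - 2 * κ - 4 / 97) / (2 * Real.pi)) := by ring
    _ ≤ _ := mul_le_of_le_one_right (by norm_num) ((div_le_one (by positivity)).2 h7)

theorem ann_ae_pos {n : ℕ} (hn : 1 ≤ n) : ∀ᵐ x : Fin n → ℝ, 0 < nsq x := by
  have : Nonempty (Fin n) := ⟨⟨0, hn⟩⟩
  have h : ∀ᵐ x : Fin n → ℝ, x ≠ 0 := by
    rw [ae_iff]
    simp
  exact h.mono fun x hx => (nsq_nonneg x).lt_of_ne' fun k => hx (nsq_eq_zero.1 k)

theorem ann_pt {n : ℕ} (hn : 97 ≤ n) {r κ : ℝ} (hr : 0 < r) (hκ : 0 < κ) (hκ' : κ ≤ 1 / 5)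
    {ψ : ℝ → ℝ} (hψ : Measurable ψ) (h0 : ∀ ρ, 0 ≤ ψ ρ)
    (hi : Integrable fun x : Fin n → ℝ => ψ (nsq x))
    (hi' : Integrable fun x : Fin n → ℝ => ψ (nsq x) * (nsq x / r) ^ (-(κ * ((n : ℝ) / 2))))
    {y : Fin n → ℝ} (hy : 0 < nsq y) :
    |ftr (fun x : Fin n → ℝ => ψ (nsq x)) y| ≤
      10052 / 10000 / Real.sqrt (1 - 2 * κ - 4 / 97) *
        (κ * ((n : ℝ) / 2) ^ 2 / (Real.exp 1 * (Real.pi * r) ^ 2)) ^ (κ * ((n : ℝ) / 2)) *
        (nsq y / r) ^ (-(κ * ((n : ℝ) / 2))) *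
        ∫ x : Fin n → ℝ, ψ (nsq x) * (nsq x / r) ^ (-(κ * ((n : ℝ) / 2))) := by
  have hp := Real.pi_pos
  have h1 := abs_ftr_le (ι := Fin n) (by rw [Fintype.card_fin]; omega) (c := fun _ => (n : ℝ) / 2)
    hψ hi measurable_const (fun _ => by have : 0 < n := by omega
                                        positivity) y
  rw [Fintype.card_fin] at h1
  have h2 : ∀ B : ℝ, 0 < B → _ := fun B hB => Om_le_const hn hκ hκ' (B := B) hB
  have h3 := ann_ae_pos (n := n) (by omega)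
  generalize (n : ℝ) / 2 = ν at *
  generalize hK : 10052 / 10000 / Real.sqrt (1 - 2 * κ - 4 / 97) = K at *
  have hK0 : 0 ≤ K := by rw [← hK]; positivity
  have hq : ∀ x : Fin n → ℝ, 0 ≤ ψ (nsq x) * (nsq x / r) ^ (-(κ * ν)) := fun x =>
    mul_nonneg (h0 _) (Real.rpow_nonneg (div_nonneg (nsq_nonneg x) hr.le) _)
  have hI : 0 ≤ ∫ x : Fin n → ℝ, ψ (nsq x) * (nsq x / r) ^ (-(κ * ν)) := integral_nonneg hq
  rw [← ENNReal.ofReal_le_ofReal_iff (by positivity), ← Real.enorm_eq_ofReal_abs,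
    ← integral_const_mul, ofReal_integral_eq_lintegral_ofReal (hi'.const_mul _)
      (Filter.Eventually.of_forall fun x => mul_nonneg (by positivity) (hq x))]
  refine h1.trans (lintegral_mono_ae (h3.mono fun x hx => ?_))
  rw [Real.enorm_eq_ofReal (h0 _), ← ENNReal.ofReal_mul (h0 _)]
  refine ENNReal.ofReal_le_ofReal ((mul_le_mul_of_nonneg_left (h2 _ (by positivity)) (h0 _)).trans
    (le_of_eq ?_))
  have e : κ * ν ^ 2 / (Real.exp 1 * (Real.pi ^ 2 * nsq x * nsq y)) =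
      κ * ν ^ 2 / (Real.exp 1 * (Real.pi * r) ^ 2) * (nsq y / r)⁻¹ * (nsq x / r)⁻¹ := by
    field_simp
  rw [e, Real.mul_rpow (by positivity) (by positivity), Real.mul_rpow (by positivity) (by positivity),
    Real.inv_rpow (by positivity), Real.inv_rpow (by positivity), Real.rpow_neg (by positivity),
    Real.rpow_neg (by positivity)]
  ring

theorem ann_ftr_le {n : ℕ} (hn : 97 ≤ n) {r κ : ℝ} (hr : 0 < r) (hκ : 0 < κ) (hκ' : κ ≤ 1 / 5)
    {w : (Fin n → ℝ) → ℝ} (hw : Measurable w) (hw' : ∀ y, 0 ≤ w y ∧ w y ≤ 51 / 50)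
    {ψ : ℝ → ℝ} (hψ : Measurable ψ) (h0 : ∀ ρ, 0 ≤ ψ ρ)
    (hi : Integrable fun x : Fin n → ℝ => ψ (nsq x))
    (hi' : Integrable fun x : Fin n → ℝ => ψ (nsq x) * (nsq x / r) ^ (-(κ * ((n : ℝ) / 2)))) :
    |∫ y in ann (Fin n) r, w y * ftr (fun x : Fin n → ℝ => ψ (nsq x)) y| ≤
      51 / 50 * (10052 / 10000 / Real.sqrt (1 - 2 * κ - 4 / 97)) / (1 - κ) *
        ((Real.pi * r) ^ ((n : ℝ) / 2) / Real.Gamma ((n : ℝ) / 2 + 1)) *
        (κ * ((n : ℝ) / 2) ^ 2 / (Real.exp 1 * (Real.pi * r) ^ 2)) ^ (κ * ((n : ℝ) / 2)) *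
        ∫ x : Fin n → ℝ, ψ (nsq x) * (nsq x / r) ^ (-(κ * ((n : ℝ) / 2))) := by
  have hp := Real.pi_pos
  have hν : 0 < (n : ℝ) / 2 := by
    have : 0 < n := by omega
    positivity
  have h1 : ∀ y, 0 < nsq y → _ := fun y hy => ann_pt hn hr hκ hκ' hψ h0 hi hi' (y := y) hy
  have h2 := lintegral_ball_pow (n := n) (by omega) hr (θ := κ * ((n : ℝ) / 2)) (by nlinarith)
  have hI : 0 ≤ ∫ x : Fin n → ℝ, ψ (nsq x) * (nsq x / r) ^ (-(κ * ((n : ℝ) / 2))) :=
    integral_nonneg fun x =>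
      mul_nonneg (h0 _) (Real.rpow_nonneg (div_nonneg (nsq_nonneg x) hr.le) _)
  generalize (∫ x : Fin n → ℝ, ψ (nsq x) * (nsq x / r) ^ (-(κ * ((n : ℝ) / 2)))) = I at *
  generalize (n : ℝ) / 2 = ν at *
  generalize hK : 10052 / 10000 / Real.sqrt (1 - 2 * κ - 4 / 97) = K at *
  have hK0 : 0 ≤ K := by rw [← hK]; positivity
  generalize hA : (κ * ν ^ 2 / (Real.exp 1 * (Real.pi * r) ^ 2)) ^ (κ * ν) = A at *
  have hA0 : 0 ≤ A := by rw [← hA]; positivity
  have hG := Real.Gamma_pos_of_pos (by linarith : 0 < ν + 1)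
  have hk : 0 < 1 - κ := by linarith
  rw [← ENNReal.ofReal_le_ofReal_iff (by positivity), ← Real.enorm_eq_ofReal_abs]
  refine (enorm_integral_le_lintegral_enorm _).trans ?_
  have h3 : ∀ y ∈ ann (Fin n) r, ‖w y * ftr (fun x : Fin n → ℝ => ψ (nsq x)) y‖ₑ ≤
      ENNReal.ofReal (51 / 50 * K * A * I) * ENNReal.ofReal ((nsq y / r) ^ (-(κ * ν))) := by
    intro y hy
    have hy' : 0 < nsq y := lt_of_lt_of_le (by positivity) hy.1
    rw [Real.enorm_eq_ofReal_abs, ← ENNReal.ofReal_mul (by positivity), abs_mul,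
      abs_of_nonneg (hw' y).1]
    refine ENNReal.ofReal_le_ofReal ((mul_le_mul (hw' y).2 (h1 y hy') (abs_nonneg _)
      (by norm_num)).trans (le_of_eq (by ring)))
  refine (setLIntegral_mono' (measurableSet_ann n r) h3).trans
    ((lintegral_mono_set (t := {y | nsq y < r}) fun y hy => hy.2).trans (le_of_eq ?_))
  rw [lintegral_const_mul' _ _ ENNReal.ofReal_ne_top, h2, ← ENNReal.ofReal_mul (by positivity),
    show ν - κ * ν = ν * (1 - κ) by ring]
  congr 1
  field_simp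

theorem ann_prod {n : ℕ} (hn : 1 ≤ n) {s : ℝ} (hs : s < (n : ℝ) / 2) :
    Integrable (fun p : ℝ × (Fin n → ℝ) => p.1 ^ (s - 1) * Real.exp (-Real.pi * p.1 * nsq p.2))
      ((volume.restrict (Ioi (1 : ℝ))).prod volume) := by
  have hm : Measurable fun p : ℝ × (Fin n → ℝ) =>
      p.1 ^ (s - 1) * Real.exp (-Real.pi * p.1 * nsq p.2) := by
    have := measurable_nsq (ι := Fin n)
    fun_prop
  rw [integrable_prod_iff hm.aestronglyMeasurable]
  refine ⟨(ae_restrict_mem measurableSet_Ioi).mono fun t (ht : 1 < t) => ?_, ?_⟩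
  · have h := integrable_gauss (α := Fin n) (c := Real.pi * t) (by have := Real.pi_pos; positivity)
    simpa only [neg_mul] using h.const_mul (t ^ (s - 1))
  · refine (integrableOn_Ioi_rpow_of_lt (a := s - 1 + -((n : ℝ) / 2)) (by linarith)
      one_pos).congr_fun (fun t (ht : 1 < t) => ?_) measurableSet_Ioi
    have h0 : 0 < t := by linarith
    have e : ∀ y : Fin n → ℝ, ‖t ^ (s - 1) * Real.exp (-Real.pi * t * nsq y)‖ =
        t ^ (s - 1) * Real.exp (-Real.pi * t * nsq y) := fun y =>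
      Real.norm_of_nonneg (by positivity)
    simp only [e]
    rw [integral_const_mul, integral_gauss h0, Fintype.card_fin, Real.rpow_add h0]

theorem integrable_fs {n : ℕ} (hn : 1 ≤ n) {s : ℝ} (hs : s < (n : ℝ) / 2) :
    Integrable fun y : Fin n → ℝ => fs s (nsq y) :=
  (ann_prod hn hs).integral_prod_right

theorem integral_fs {n : ℕ} (hn : 1 ≤ n) {s : ℝ} (hs : s < (n : ℝ) / 2) :
    ∫ y : Fin n → ℝ, fs s (nsq y) = 1 / ((n : ℝ) / 2 - s) := by
  have h := integral_integral_swap (f := fun (t : ℝ) (y : Fin n → ℝ) =>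
    t ^ (s - 1) * Real.exp (-Real.pi * t * nsq y)) (ann_prod hn hs)
  unfold fs
  rw [← h, setIntegral_congr_fun (g := fun t => t ^ (s - 1 + -((n : ℝ) / 2))) measurableSet_Ioi
    fun t (ht : 1 < t) => ?_, integral_Ioi_rpow_of_lt (by linarith) one_pos, Real.one_rpow]
  · rw [neg_div, ← div_neg]
    congr 1
    ring
  · have h0 : 0 < t := by linarith
    simp only
    rw [integral_const_mul, integral_gauss h0, Fintype.card_fin, Real.rpow_add h0]

theorem ftr_fs_nonneg {n : ℕ} (hn : 1 ≤ n) {s : ℝ} (hs : s < (n : ℝ) / 2) (w : Fin n → ℝ) :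
    0 ≤ ftr (fun y : Fin n → ℝ => fs s (nsq y)) w := by
  have hi : Integrable (fun p : ℝ × (Fin n → ℝ) => p.1 ^ (s - 1) *
      Real.exp (-Real.pi * p.1 * nsq p.2) * Real.cos (2 * Real.pi * (w ⬝ᵥ p.2)))
      ((volume.restrict (Ioi (1 : ℝ))).prod volume) :=
    (ann_prod hn hs).mul_bdd (c := 1) ((ann_mcos w).comp measurable_snd).aestronglyMeasurable
      (Filter.Eventually.of_forall fun p => Real.abs_cos_le_one _)
  have h := integral_integral_swap (f := fun (t : ℝ) (y : Fin n → ℝ) =>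
    t ^ (s - 1) * Real.exp (-Real.pi * t * nsq y) * Real.cos (2 * Real.pi * (w ⬝ᵥ y))) hi
  unfold ftr fs
  simp only [← integral_mul_const]
  rw [← h]
  refine setIntegral_nonneg measurableSet_Ioi fun t (ht : 1 < t) => ?_
  have h0 : 0 < t := by linarith
  have h1 := integrable_gauss (α := Fin n) (c := Real.pi * t) (by have := Real.pi_pos; positivity)
  have h2 := ft_eq_ftr (F := fun y : Fin n → ℝ => Real.exp (-Real.pi * t * nsq y))
    (by simpa only [neg_mul] using h1) (fun x => by simp only [nsq_neg]) w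
  rw [ft_gauss h0, Complex.ofReal_inj] at h2
  simp only [mul_assoc (t ^ (s - 1))]
  rw [integral_const_mul]
  refine mul_nonneg (by positivity) (le_of_le_of_eq ?_ h2)
  positivity

end Pool.Agent.Eps.T
end
end

-- part Pool.Agent.Lib.MP_3bda03_nt.T.Mean
section

/-! The centre of the truncated kernel. -/

set_option autoImplicit false

noncomputable section

open MeasureTheory Set Pool.Agent.Eps.H

namespace Pool.Agent.Eps.T.Fam

/-- the kernel outside of the hole -/
def out (F : Fam) (α ρ : ℝ) : ℝ :=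
  if ρ < F.rad then 0 else F.bh (F.xi ρ) * Af F.p α (F.xi ρ)

/-- the kernel inside of the hole -/
def hole (F : Fam) (α ρ : ℝ) : ℝ :=
  if ρ < F.rad then F.bh (F.xi ρ) * Af F.p α (F.xi ρ) else 0

variable {F : Fam} {n : ℕ}

theorem mean_meas (h : F.Ok) (α : ℝ) : Measurable fun ξ => F.bh ξ * Af F.p α ξ :=
  ((continuous_bh F).mul (continuous_Af h.p_pos α)).measurable

theorem mean_nu (h : F.Ok) (hd : F.Dim n) : (n : ℝ) / 2 = 2 / F.p ^ 2 := by
  have := h.p_pos
  rw [div_eq_div_iff two_ne_zero (by positivity)]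
  linarith [hd.hp]

theorem mean_one (hd : F.Dim n) : 1 ≤ n := Nat.one_le_iff_ne_zero.2 fun e => by
  have := hd.hp
  rw [e] at this
  norm_num at this

theorem mean_lt (h : F.Ok) (hd : F.Dim n) {α : ℝ} (hα : F.p * α < 1) :
    1 / F.p ^ 2 + α / F.p < (n : ℝ) / 2 := by
  have := h.p_pos
  rw [mean_nu h hd, show α / F.p = F.p * α / F.p ^ 2 by field_simp, ← add_div]
  exact div_lt_div_of_pos_right (by linarith) (by positivity)

theorem mean_out (h : F.Ok) (α : ℝ) {ρ : ℝ} (hρ : 0 < ρ) :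
    F.out α ρ = (Ici F.x1).indicator (fun ξ => F.bh ξ * Af F.p α ξ) (F.xi ρ) := by
  rw [out, indicator_apply, ← ite_not]
  exact if_congr ((h.lt_rad_iff hρ).not.trans not_lt) rfl rfl

theorem mean_hole (h : F.Ok) (α : ℝ) {ρ : ℝ} (hρ : 0 < ρ) :
    F.hole α ρ = (Iio F.x1).indicator (fun ξ => F.bh ξ * Af F.p α ξ) (F.xi ρ) := by
  rw [hole, indicator_apply]
  exact if_congr (h.lt_rad_iff hρ) rfl rfl

theorem mean_out_nonneg (h : F.Ok) (α ρ : ℝ) : 0 ≤ F.out α ρ := by
  rw [out]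
  split_ifs
  exacts [le_rfl, (mul_pos (h.bh_pos _) (Af_pos h.p_pos _ _)).le]

theorem mean_hole_nonneg (h : F.Ok) (α ρ : ℝ) : 0 ≤ F.hole α ρ := by
  rw [hole]
  split_ifs
  exacts [(mul_pos (h.bh_pos _) (Af_pos h.p_pos _ _)).le, le_rfl]

theorem mean_sum (h : F.Ok) (α : ℝ) {ρ : ℝ} (hρ : 0 < ρ) :
    fs (1 / F.p ^ 2 + α / F.p) ρ = F.Th * (F.out α ρ + F.hole α ρ) := by
  rw [h.fs_eq α hρ, out, hole]
  split_ifs
  · rw [zero_add]
  · rw [add_zero]

/-- weighted integrals of a truncated kernel in the logarithmic coordinate -/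
theorem mean_gen (h : F.Ok) (hd : F.Dim n) {α θ γ : ℝ} (hγ : γ = 1 / F.p - θ * F.p) {s : Set ℝ}
    (hs : MeasurableSet s) {ψ : ℝ → ℝ}
    (hψ : ∀ ρ, 0 < ρ → ψ ρ = s.indicator (fun ξ => F.bh ξ * Af F.p α ξ) (F.xi ρ))
    (hi : IntegrableOn (fun ξ => Real.exp (γ * (ξ - F.x1)) * Af F.p α ξ) s) :
    (Integrable fun y : Fin n → ℝ => ψ (nsq y) * (nsq y / F.rad) ^ (-θ)) ∧
      ∫ y : Fin n → ℝ, ψ (nsq y) * (nsq y / F.rad) ^ (-θ) =
        2 * Real.sqrt F.ρ / F.p * ∫ ξ in s, Real.exp (γ * (ξ - F.x1)) * Af F.p α ξ := by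
  have hp := h.p_pos
  have hT := h.TT_pos
  have hr := Real.sqrt_pos.2 h.ρ_pos
  let G : ℝ → ℝ := fun ξ =>
    s.indicator (fun ξ => F.bh ξ * Af F.p α ξ) ξ * Real.exp (F.p * (ξ - F.x1) * -θ)
  have mG : Measurable G := ((mean_meas h α).indicator hs).mul (by fun_prop)
  have e1 : (fun y : Fin n → ℝ => ψ (nsq y) * (nsq y / F.rad) ^ (-θ)) =ᵐ[volume]
      fun y => G (F.xi (nsq y)) := (ae_nsq_pos (mean_one hd)).mono fun y hy => by
    simp only [G]
    rw [hψ _ hy, h.div_rad hy, ← Real.exp_mul]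
  have e2 : (fun ξ => G ξ * Real.exp (2 * (ξ - F.x1) / F.p)) = fun ξ =>
      (Real.sqrt F.ρ * F.TT)⁻¹ *
        s.indicator (fun ξ => Real.exp (γ * (ξ - F.x1)) * Af F.p α ξ) ξ := funext fun ξ => by
    simp only [G]
    by_cases hξ : ξ ∈ s
    · rw [indicator_of_mem hξ, indicator_of_mem hξ, bh, show γ * (ξ - F.x1) =
        -((ξ - F.x1) / F.p) + F.p * (ξ - F.x1) * -θ + 2 * (ξ - F.x1) / F.p by rw [hγ]; ring,
        Real.exp_add, Real.exp_add]
      ring
    · simp [indicator_of_notMem hξ]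
  refine ⟨(h.integrable_xi hd G mG ?_).congr e1.symm, ?_⟩
  · rw [e2]
    exact ((integrable_indicator_iff hs).2 hi).const_mul _
  · rw [integral_congr_ae e1, h.integral_xi hd G mG, e2, integral_const_mul,
      integral_indicator hs, ← mul_assoc]
    congr 1
    nth_rewrite 1 [← Real.mul_self_sqrt h.ρ_pos.le]
    field_simp

theorem mean_hole_int (h : F.Ok) (hd : F.Dim n) {α : ℝ} (hα : F.p * α < 1) :
    (Integrable fun y : Fin n → ℝ => F.hole α (nsq y)) ∧
      ∫ y : Fin n → ℝ, F.hole α (nsq y) = F.Dl α := by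
  have hp := h.p_pos
  have h1 : α < 1 / F.p := by rwa [lt_div_iff₀ hp, mul_comm]
  obtain ⟨k1, k2⟩ := hole_eq hp (one_div_pos.2 hp).le h1 F.x1
  have k := mean_gen h hd (θ := 0) (by rw [zero_mul, sub_zero]) measurableSet_Iio
    (fun _ => mean_hole h α) k1
  simp only [neg_zero, Real.rpow_zero, mul_one] at k
  refine ⟨k.1, k.2.trans ?_⟩
  have h2 : 1 - F.p * α ≠ 0 := by linarith
  rw [k2, Dl, Bq, show 1 / F.p - α = (1 - F.p * α) / F.p by field_simp]
  simp only [one_div_mul_eq_div]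
  field_simp

theorem mean_const (h : F.Ok) (hd : F.Dim n) {κ a : ℝ} (hκ : 0 < κ)
    (ha : 4 * κ * Real.exp (a - 1) ≤ 1) :
    (κ * ((n : ℝ) / 2) ^ 2 / (Real.exp 1 * (Real.pi * F.rad) ^ 2)) ^ (κ * ((n : ℝ) / 2)) ≤
      Real.exp (-(2 * κ / F.p ^ 2 * (a - 2 * F.τ))) := by
  have hp := h.p_pos
  have hπ := Real.pi_pos
  have e1 : κ * (2 / F.p ^ 2) ^ 2 / (Real.exp 1 * (Real.pi * F.rad) ^ 2) =
      4 * κ * Real.exp (a - 1) * Real.exp (-(a - 2 * F.τ)) := by
    rw [mul_assoc (4 * κ), ← Real.exp_add, show a - 1 + -(a - 2 * F.τ) = -(1 + (-F.τ + -F.τ)) by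
      ring, Real.exp_neg, Real.exp_add, Real.exp_add, rad]
    field_simp
    ring
  rw [mean_nu h hd, e1, show -(2 * κ / F.p ^ 2 * (a - 2 * F.τ)) =
    -(a - 2 * F.τ) * (κ * (2 / F.p ^ 2)) by ring, Real.exp_mul]
  exact Real.rpow_le_rpow (by positivity) (mul_le_of_le_one_left (Real.exp_pos _).le ha)
    (by positivity)

theorem mean_pre {x c s : ℝ} (hs : 0 < s) (hc : 0 < c) (h : s ^ 2 ≤ x) :
    51 / 50 * (10052 / 10000 / Real.sqrt x) / c ≤ 51 / 50 * (10052 / 10000 / s) / c := by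
  have := Real.le_sqrt_of_sq_le h
  gcongr

theorem mean_cos {f : (Fin n → ℝ) → ℝ} (hf : Integrable f) (y : Fin n → ℝ) :
    Integrable fun x => f x * Real.cos (2 * Real.pi * (y ⬝ᵥ x)) :=
  hf.mul_bdd (c := 1) (Continuous.aestronglyMeasurable (by fun_prop))
    (.of_forall fun _ => Real.abs_cos_le_one _)

theorem Ok.measurable_out (h : F.Ok) (α : ℝ) : Measurable (F.out α) :=
  Measurable.ite measurableSet_Iio measurable_const ((mean_meas h α).comp (measurable_xi F))

theorem Ok.measurable_hole (h : F.Ok) (α : ℝ) : Measurable (F.hole α) :=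
  Measurable.ite measurableSet_Iio ((mean_meas h α).comp (measurable_xi F)) measurable_const

theorem Ok.integrable_out (h : F.Ok) (hd : F.Dim n) (α : ℝ) :
    Integrable fun y : Fin n → ℝ => F.out α (nsq y) := by
  have k := (mean_gen h hd (θ := 0) (γ := 1 / F.p) (by rw [zero_mul, sub_zero]) measurableSet_Ici
    (fun _ => mean_out h α) (((integrableOn_out h.p_pos α (1 / F.p) F.x1).const_mul
      (Real.exp (-(1 / F.p * F.x1)))).congr (.of_forall fun ξ => by
        simp only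
        rw [← mul_assoc, ← Real.exp_add]
        congr 2
        ring))).1
  simpa only [neg_zero, Real.rpow_zero, mul_one] using k

theorem Ok.integrable_hole (h : F.Ok) (hd : F.Dim n) {α : ℝ} (hα : F.p * α < 1) :
    Integrable fun y : Fin n → ℝ => F.hole α (nsq y) :=
  (mean_hole_int h hd hα).1

theorem Ok.integral_hole (h : F.Ok) (hd : F.Dim n) {α : ℝ} (hα : F.p * α < 1) :
    ∫ y : Fin n → ℝ, F.hole α (nsq y) = F.Dl α :=
  (mean_hole_int h hd hα).2

theorem Ok.integral_out (h : F.Ok) (hd : F.Dim n) {α : ℝ} (hα : F.p * α < 1) :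
    F.Th * ∫ y : Fin n → ℝ, F.out α (nsq y) =
      1 / ((n : ℝ) / 2 - (1 / F.p ^ 2 + α / F.p)) - F.Th * F.Dl α := by
  rw [← integral_fs (mean_one hd) (mean_lt h hd hα), ← h.integral_hole hd hα, eq_sub_iff_add_eq,
    ← mul_add, ← integral_add (h.integrable_out hd α) (h.integrable_hole hd hα),
    ← integral_const_mul]
  exact integral_congr_ae ((ae_nsq_pos (mean_one hd)).mono fun y hy => (mean_sum h α hy).symm)

theorem Ok.const_A (h : F.Ok) (hd : F.Dim n) :
    51 / 50 * (10052 / 10000 / Real.sqrt (1 - 2 * (11 / 100) - 4 / 97)) / (1 - 11 / 100) *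
      ((Real.pi * F.rad) ^ ((n : ℝ) / 2) / Real.Gamma ((n : ℝ) / 2 + 1)) *
      (11 / 100 * ((n : ℝ) / 2) ^ 2 / (Real.exp 1 * (Real.pi * F.rad) ^ 2)) ^
        (11 / 100 * ((n : ℝ) / 2)) ≤ F.EA := by
  have h1 : Real.exp (18209 / 10000 - 1) ≤ 25 / 11 := by
    refine (Real.exp_bound' (by norm_num) (by norm_num) (n := 6) (by norm_num)).trans ?_
    norm_num [Finset.sum_range_succ, Nat.factorial]
  have h2 := mean_const h hd (κ := 11 / 100) (a := 18209 / 10000) (by norm_num) (by linarith)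
  have h3 := (mean_pre (x := 1 - 2 * (11 / 100) - 4 / 97) (c := 1 - 11 / 100) (s := 8536 / 10000)
    (by norm_num) (by norm_num) (by norm_num)).trans (show _ ≤ (27 / 20 : ℝ) by norm_num)
  have h4 := mul_pos h.ρ_pos h.TT_pos
  have h5 := h.rad_pos
  rw [hd.hV, EA, show (11 / 50 : ℝ) = 2 * (11 / 100) by norm_num]
  exact mul_le_mul (mul_le_mul_of_nonneg_right h3 h4.le) h2 (by positivity) (by positivity)

theorem Ok.const_B (h : F.Ok) (hd : F.Dim n) :
    51 / 50 * (10052 / 10000 / Real.sqrt (1 - 2 * (1 / 5) - 4 / 97)) / (1 - 1 / 5) *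
      ((Real.pi * F.rad) ^ ((n : ℝ) / 2) / Real.Gamma ((n : ℝ) / 2 + 1)) *
      (1 / 5 * ((n : ℝ) / 2) ^ 2 / (Real.exp 1 * (Real.pi * F.rad) ^ 2)) ^
        (1 / 5 * ((n : ℝ) / 2)) ≤ F.EB := by
  have h1 : Real.exp (12231 / 10000 - 1) ≤ 5 / 4 := by
    refine (Real.exp_bound' (by norm_num) (by norm_num) (n := 6) (by norm_num)).trans ?_
    norm_num [Finset.sum_range_succ, Nat.factorial]
  have h2 := mean_const h hd (κ := 1 / 5) (a := 12231 / 10000) (by norm_num) (by linarith)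
  have h3 := (mean_pre (x := 1 - 2 * (1 / 5) - 4 / 97) (c := 1 - 1 / 5) (s := 7409 / 10000)
    (by norm_num) (by norm_num) (by norm_num)).trans (show _ ≤ (173 / 100 : ℝ) by norm_num)
  have h4 := mul_pos h.ρ_pos h.TT_pos
  have h5 := h.rad_pos
  rw [hd.hV, EB, show (2 / 5 : ℝ) = 2 * (1 / 5) by norm_num]
  exact mul_le_mul (mul_le_mul_of_nonneg_right h3 h4.le) h2 (by positivity) (by positivity)

/-- the mean of the annulus term -/
theorem Ok.mean_le (h : F.Ok) (hd : F.Dim n) (hn : 97 ≤ n) {α μ : ℝ} (hα : F.p * α < 1)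
    (hμ : F.Mu α μ) {w : (Fin n → ℝ) → ℝ} (hw : Measurable w)
    (hw' : ∀ y, 0 ≤ w y ∧ w y ≤ 51 / 50) :
    -(∫ y in ann (Fin n) F.rad, w y * ftr (fun x : Fin n → ℝ => F.out α (nsq x)) y) ≤ μ := by
  have hp := h.p_pos
  have hr := h.rad_pos
  have hs := Real.sqrt_pos.2 h.ρ_pos
  have hA := Af_pos hp α F.x1
  have hV := mul_pos h.ρ_pos h.TT_pos
  have io := h.integrable_out hd α
  have ih := h.integrable_hole hd hα
  rcases hμ with ⟨h1, h2⟩ | ⟨h1, h2⟩
  · have g0 : 0 < 39 / 50 / F.p := by positivity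
    obtain ⟨k1, k2⟩ := hole_eq hp g0.le (by rwa [lt_div_iff₀ hp, mul_comm]) F.x1
    obtain ⟨k3, k4⟩ := mean_gen h hd (θ := 11 / 100 * ((n : ℝ) / 2))
      (by rw [mean_nu h hd]; field_simp; norm_num) measurableSet_Iio (fun _ => mean_hole h α) k1
    have k5 := ann_ftr_le hn hr (by norm_num) (by norm_num) hw hw' (h.measurable_hole α)
      (mean_hole_nonneg h α) ih k3
    have k6 : 0 ≤ (∫ y in ann (Fin n) F.rad, w y * ftr (fun x : Fin n → ℝ => F.out α (nsq x)) y) +
        ∫ y in ann (Fin n) F.rad, w y * ftr (fun x : Fin n → ℝ => F.hole α (nsq x)) y := by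
      rw [← integral_add (integrableOn_ann (mean_one hd) hr hw hw' io)
        (integrableOn_ann (mean_one hd) hr hw hw' ih)]
      refine integral_nonneg fun y => ?_
      simp only [Pi.zero_apply]
      rw [← mul_add]
      refine mul_nonneg (hw' y).1 ((mul_nonneg_iff_of_pos_left h.Th_pos).1
        ((ftr_fs_nonneg (mean_one hd) (mean_lt h hd hα) y).trans_eq ?_))
      rw [ftr, ftr, ftr, ← integral_add (mean_cos io y) (mean_cos ih y), ← integral_const_mul]
      refine integral_congr_ae ((ae_nsq_pos (mean_one hd)).mono fun x hx => ?_)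
      simp only
      rw [mean_sum h α hx]
      ring
    refine (neg_le_iff_add_nonneg'.2 k6).trans ((le_abs_self _).trans (k5.trans
      (le_trans ?_ h2)))
    have d0 : 0 < 39 / 50 - F.p * α := by linarith
    have k7 := hole_kf_le hp g0 h.x1_neg.le
    rw [show kf F.p F.x1 / (39 / 50 / F.p) = F.k1 * F.p * (50 / 39) by rw [Fam.k1]; field_simp] at k7
    rw [mul_assoc F.EA, mul_div_assoc F.EA]
    refine mul_le_mul (h.const_A hd) ?_ (integral_nonneg fun x => mul_nonneg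
      (mean_hole_nonneg h α _) (Real.rpow_nonneg (div_nonneg (nsq_nonneg x) hr.le) _))
      (by rw [EA]; positivity)
    rw [k4, k2, show 39 / 50 / F.p - α = (39 / 50 - F.p * α) / F.p by field_simp,
      div_div_eq_mul_div, mul_div_assoc', div_mul_eq_mul_div, ← mul_assoc,
      mul_div_cancel_right₀ _ hp.ne']
    gcongr
  · obtain ⟨k1, k2⟩ := out_le hp (γ := 3 / 5 / F.p) (by rwa [div_lt_iff₀ hp, mul_comm]) F.x1
    obtain ⟨k3, k4⟩ := mean_gen h hd (θ := 1 / 5 * ((n : ℝ) / 2))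
      (by rw [mean_nu h hd]; field_simp; norm_num) measurableSet_Ici (fun _ => mean_out h α) k1
    have k5 := ann_ftr_le hn hr (by norm_num) le_rfl hw hw' (h.measurable_out α)
      (mean_out_nonneg h α) io k3
    refine (neg_le_abs _).trans (k5.trans (le_trans ?_ h2))
    rw [mul_assoc F.EB, mul_div_assoc F.EB]
    refine mul_le_mul (h.const_B hd) ?_ (integral_nonneg fun x => mul_nonneg
      (mean_out_nonneg h α _) (Real.rpow_nonneg (div_nonneg (nsq_nonneg x) hr.le) _))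
      (by rw [EB]; positivity)
    rw [k4]
    refine (mul_le_mul_of_nonneg_left k2 (by positivity)).trans_eq ?_
    rw [show α - 3 / 5 / F.p = (F.p * α - 3 / 5) / F.p by field_simp,
      div_div_eq_mul_div, mul_div_assoc', div_mul_eq_mul_div, ← mul_assoc,
      mul_div_cancel_right₀ _ hp.ne']

theorem Ok.ctr_le (h : F.Ok) (hd : F.Dim n) (hn : 97 ≤ n) {α μ : ℝ} (hα : F.p * α < 1)
    (hμ : F.Mu α μ) {w : (Fin n → ℝ) → ℝ} (hw : Measurable w)
    (hw' : ∀ y, 0 ≤ w y ∧ w y ≤ 51 / 50) :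
    F.Th * ctr F.rad w (F.out α) ≤
      1 / ((n : ℝ) / 2 - (1 / F.p ^ 2 + α / F.p)) - F.Th * (F.Dl α - μ) := by
  have k := mul_le_mul_of_nonneg_left (h.mean_le hd hn hα hμ hw hw') h.Th_pos.le
  have e := h.integral_out hd hα
  rw [ctr]
  linarith

end Pool.Agent.Eps.T.Fam
end
end

-- part Pool.Agent.Lib.MP_3bda03_nt.T.Lin
section

/-! Superposition of tests. -/

set_option autoImplicit false

noncomputable section

open MeasureTheory Set Pool.Agent.Eps.H

namespace Pool.Agent.Eps.T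

variable {n : ℕ} {π : Measure ℝ} [SigmaFinite π] {h : ℝ → ℝ → ℝ} {c φ : ℝ → ℝ} {B : ℝ}

private theorem lin_fub {Y : Type} [MeasurableSpace Y] (ν : Measure Y) [SigmaFinite ν]
    {K : ℝ → Y → ℝ} (hK : Measurable (Function.uncurry K)) {D : Y → ℝ} (hD : Integrable D ν)
    (hb : ∀ t y, |K t y| ≤ D y) (hc : Integrable c π) :
    Integrable (fun t => c t * ∫ y, K t y ∂ν) π ∧
      ∫ y, (∫ t, c t * K t y ∂π) ∂ν = ∫ t, c t * (∫ y, K t y ∂ν) ∂π := by
  have hi : Integrable (Function.uncurry fun t y => c t * K t y) (π.prod ν) := by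
    refine (hc.norm.mul_prod hD).mono' (hc.1.comp_fst.mul hK.aestronglyMeasurable)
      (ae_of_all _ fun z => ?_)
    change ‖c z.1 * K z.1 z.2‖ ≤ ‖c z.1‖ * D z.2
    rw [norm_mul]
    exact mul_le_mul_of_nonneg_left (hb z.1 z.2) (norm_nonneg _)
  have e : ∀ t, ∫ y, c t * K t y ∂ν = c t * ∫ y, K t y ∂ν := fun t => integral_const_mul _ _
  constructor
  · have h1 : Integrable (fun t => ∫ y, c t * K t y ∂ν) π := hi.integral_prod_left
    simpa only [e] using h1
  · rw [← integral_integral_swap hi]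
    simp only [e]

private theorem lin_gauss : Integrable fun y : Fin n → ℝ => B * Real.exp (-Real.pi * nsq y) :=
  (integrable_gauss Real.pi_pos).const_mul B

private theorem lin_abs (hB : ∀ t ρ, 0 ≤ h t ρ ∧ h t ρ ≤ B * Real.exp (-Real.pi * ρ)) (t ρ : ℝ)
    {u : ℝ} (hu : |u| ≤ 1) : |h t ρ * u| ≤ B * Real.exp (-Real.pi * ρ) := by
  rw [abs_mul, abs_of_nonneg (hB t ρ).1]
  exact (mul_le_of_le_one_right (hB t ρ).1 hu).trans (hB t ρ).2

theorem lin_Sm (hh : Measurable (Function.uncurry h))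
    (hB : ∀ t ρ, 0 ≤ h t ρ ∧ h t ρ ≤ B * Real.exp (-Real.pi * ρ)) (hc : Integrable c π)
    (hφ : ∀ ρ, φ ρ = ∫ t, c t * h t ρ ∂π) {g : Matrix (Fin n) (Fin n) ℝ} (hg : g.det ≠ 0) :
    Integrable (fun t => c t * Sm g (h t)) π ∧ Sm g φ = ∫ t, c t * Sm g (h t) ∂π := by
  have hs : Summable fun k : {k : Fin n → ℤ // k ≠ 0} =>
      B * Real.exp (-Real.pi * nsq (lv k.1 g)) := by
    have h1 := (hasSum_theta hg one_pos).summable.mul_left B
    simpa only [mul_one] using h1
  have hm : ∀ ρ, Measurable fun t => h t ρ := fun ρ =>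
    hh.comp (measurable_id.prodMk measurable_const)
  have hb : ∀ t ρ, ‖c t * h t ρ‖ ≤ ‖c t‖ * (B * Real.exp (-Real.pi * ρ)) := fun t ρ => by
    rw [norm_mul, Real.norm_of_nonneg (hB t ρ).1]
    exact mul_le_mul_of_nonneg_left (hB t ρ).2 (norm_nonneg _)
  have hi : ∀ ρ, Integrable (fun t => c t * h t ρ) π := fun ρ =>
    (hc.norm.mul_const _).mono' (hc.1.mul (hm ρ).aestronglyMeasurable) (ae_of_all _ fun t => hb t ρ)
  have hS : Measurable fun t => Sm g (h t) := Measurable.tsum fun k => hm _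
  constructor
  · refine (hc.norm.mul_const (∑' k : {k : Fin n → ℤ // k ≠ 0},
      B * Real.exp (-Real.pi * nsq (lv k.1 g)))).mono' (hc.1.mul hS.aestronglyMeasurable)
      (ae_of_all _ fun t => ?_)
    rw [norm_mul]
    refine mul_le_mul_of_nonneg_left (tsum_of_norm_bounded hs.hasSum fun k => ?_) (norm_nonneg _)
    rw [Real.norm_of_nonneg (hB t _).1]
    exact (hB t _).2
  · have h1 : Summable fun k : {k : Fin n → ℤ // k ≠ 0} =>
        ∫ t, ‖c t * h t (nsq (lv k.1 g))‖ ∂π := by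
      refine Summable.of_nonneg_of_le (fun k => integral_nonneg fun t => norm_nonneg _)
        (fun k => ?_) (hs.mul_left (∫ t, ‖c t‖ ∂π))
      rw [← integral_mul_const]
      exact integral_mono (hi _).norm (hc.norm.mul_const _) fun t => hb t _
    have h2 := (hasSum_integral_of_summable_integral_norm
      (F := fun (k : {k : Fin n → ℤ // k ≠ 0}) t => c t * h t (nsq (lv k.1 g)))
      (fun k => hi _) h1).tsum_eq
    simp only [tsum_mul_left] at h2
    unfold Sm
    simp only [hφ]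
    exact h2

theorem lin_int (hh : Measurable (Function.uncurry h))
    (hB : ∀ t ρ, 0 ≤ h t ρ ∧ h t ρ ≤ B * Real.exp (-Real.pi * ρ)) (hc : Integrable c π)
    (hφ : ∀ ρ, φ ρ = ∫ t, c t * h t ρ ∂π) {u : (Fin n → ℝ) → ℝ} (hu : Measurable u)
    (hu' : ∀ y, |u y| ≤ 1) :
    Integrable (fun t => c t * ∫ y : Fin n → ℝ, h t (nsq y) * u y) π ∧
      ∫ y : Fin n → ℝ, φ (nsq y) * u y = ∫ t, c t * (∫ y : Fin n → ℝ, h t (nsq y) * u y) ∂π := by
  have hK : Measurable (Function.uncurry fun t (y : Fin n → ℝ) => h t (nsq y) * u y) :=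
    (hh.comp (measurable_fst.prodMk (measurable_nsq.comp measurable_snd))).mul
      (hu.comp measurable_snd)
  have key := lin_fub volume hK lin_gauss (fun t y => lin_abs hB t _ (hu' y)) hc
  refine ⟨key.1, Eq.trans (integral_congr_ae (ae_of_all _ fun y => ?_)) key.2⟩
  change φ (nsq y) * u y = ∫ t, c t * (h t (nsq y) * u y) ∂π
  rw [hφ, ← integral_mul_const]
  simp only [mul_assoc]

theorem lin_ctr (hn : 1 ≤ n) (hh : Measurable (Function.uncurry h))
    (hB : ∀ t ρ, 0 ≤ h t ρ ∧ h t ρ ≤ B * Real.exp (-Real.pi * ρ)) (hc : Integrable c π)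
    (hφ : ∀ ρ, φ ρ = ∫ t, c t * h t ρ ∂π) {r : ℝ} (hr : 0 < r) {w : (Fin n → ℝ) → ℝ}
    (hw : Measurable w) (hw' : ∀ y, 0 ≤ w y ∧ w y ≤ 51 / 50) :
    Integrable (fun t => c t * ctr r w (h t)) π ∧ ctr r w φ = ∫ t, c t * ctr r w (h t) ∂π := by
  have h1 := lin_int (n := n) hh hB hc hφ (u := fun _ => 1) measurable_const fun _ => by simp
  simp only [mul_one] at h1
  have hdot : Measurable fun z : (ℝ × (Fin n → ℝ)) × (Fin n → ℝ) => z.1.2 ⬝ᵥ z.2 :=
    Finset.measurable_sum _ fun i _ =>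
      ((measurable_pi_apply i).comp (measurable_snd.comp measurable_fst)).mul
        ((measurable_pi_apply i).comp measurable_snd)
  have hF : Measurable fun z : (ℝ × (Fin n → ℝ)) × (Fin n → ℝ) =>
      h z.1.1 (nsq z.2) * Real.cos (2 * Real.pi * (z.1.2 ⬝ᵥ z.2)) :=
    (hh.comp ((measurable_fst.comp measurable_fst).prodMk
      (measurable_nsq.comp measurable_snd))).mul
      (Real.measurable_cos.comp (hdot.const_mul _))
  have hK : Measurable (Function.uncurry fun t (y : Fin n → ℝ) =>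
      w y * ftr (fun x : Fin n → ℝ => h t (nsq x)) y) :=
    (hw.comp measurable_snd).mul
      (hF.stronglyMeasurable.integral_prod_right' (ν := volume)).measurable
  have hb : ∀ t (y : Fin n → ℝ), |w y * ftr (fun x : Fin n → ℝ => h t (nsq x)) y| ≤
      51 / 50 * ∫ x : Fin n → ℝ, B * Real.exp (-Real.pi * nsq x) := fun t y => by
    rw [abs_mul, abs_of_nonneg (hw' y).1]
    refine mul_le_mul (hw' y).2 ?_ (abs_nonneg _) (by norm_num)
    exact norm_integral_le_of_norm_le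
      (f := fun x : Fin n → ℝ => h t (nsq x) * Real.cos (2 * Real.pi * (y ⬝ᵥ x))) lin_gauss
      (ae_of_all _ fun x => lin_abs hB t (nsq x) (Real.abs_cos_le_one _))
  have hfin : IsFiniteMeasure ((volume : Measure (Fin n → ℝ)).restrict (ann (Fin n) r)) :=
    isFiniteMeasure_restrict.2 (volume_ann_ne_top hn hr)
  have h2 := lin_fub (volume.restrict (ann (Fin n) r)) hK (integrable_const _) hb hc
  have h3 : ∀ y : Fin n → ℝ, w y * ftr (fun x : Fin n → ℝ => φ (nsq x)) y =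
      ∫ t, c t * (w y * ftr (fun x : Fin n → ℝ => h t (nsq x)) y) ∂π := fun y => by
    have hy0 : Measurable fun x : Fin n → ℝ => y ⬝ᵥ x :=
      Finset.measurable_sum _ fun i _ => measurable_const.mul (measurable_pi_apply i)
    have hy : Measurable fun x : Fin n → ℝ => Real.cos (2 * Real.pi * (y ⬝ᵥ x)) :=
      Real.measurable_cos.comp (hy0.const_mul _)
    have h4 := (lin_int hh hB hc hφ hy fun x => Real.abs_cos_le_one _).2
    unfold ftr
    rw [h4, ← integral_const_mul]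
    simp only [mul_left_comm]
  unfold ctr
  simp only [mul_sub, h3]
  exact ⟨h1.1.sub h2.1, by rw [integral_sub h1.1 h2.1, h1.2, h2.2]⟩

theorem lin_amgm {X β : ℝ → ℝ} (hcm : Measurable c) (hβm : Measurable β) (hβ : ∀ t, 0 < β t)
    {I Q a : ℝ} (hI0 : 0 ≤ I) (hQ0 : 0 ≤ Q) (ha : 0 < a)
    (hI : ∫⁻ t, ENNReal.ofReal (c t ^ 2 / β t) ∂π ≤ ENNReal.ofReal I)
    (hQ : ∫⁻ t, ENNReal.ofReal (β t * X t ^ 2) ∂π ≤ ENNReal.ofReal Q) :
    ∫ t, c t * X t ∂π ≤ a / 2 * I + Q / (2 * a) := by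
  have h0 : 0 ≤ a / 2 * I + Q / (2 * a) := by positivity
  by_cases hi : Integrable (fun t => c t * X t) π
  swap
  · rw [integral_undef hi]
    exact h0
  rw [integral_eq_lintegral_pos_part_sub_lintegral_neg_part hi]
  refine (sub_le_self _ ENNReal.toReal_nonneg).trans (ENNReal.toReal_le_of_le_ofReal h0 ?_)
  have ha2 : 0 ≤ a / 2 := by positivity
  have ha3 : 0 ≤ 1 / (2 * a) := by positivity
  have hpt : ∀ t, ENNReal.ofReal (c t * X t) ≤
      ENNReal.ofReal (a / 2) * ENNReal.ofReal (c t ^ 2 / β t) +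
        ENNReal.ofReal (1 / (2 * a)) * ENNReal.ofReal (β t * X t ^ 2) := fun t => by
    have hb := hβ t
    rw [← ENNReal.ofReal_mul ha2, ← ENNReal.ofReal_mul ha3,
      ← ENNReal.ofReal_add (by positivity) (by positivity)]
    refine ENNReal.ofReal_le_ofReal ?_
    have e : a / 2 * (c t ^ 2 / β t) + 1 / (2 * a) * (β t * X t ^ 2) - c t * X t =
        (a * c t - β t * X t) ^ 2 / (2 * a * β t) := by
      field_simp
      ring
    have h1 : 0 ≤ (a * c t - β t * X t) ^ 2 / (2 * a * β t) := by positivity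
    linarith
  have hm : Measurable fun t => ENNReal.ofReal (c t ^ 2 / β t) :=
    ((hcm.pow_const 2).div hβm).ennreal_ofReal
  refine (lintegral_mono hpt).trans ?_
  rw [lintegral_add_left (hm.const_mul _), lintegral_const_mul _ hm,
    lintegral_const_mul' _ _ ENNReal.ofReal_ne_top,
    show Q / (2 * a) = 1 / (2 * a) * Q by ring,
    ENNReal.ofReal_add (by positivity) (by positivity), ENNReal.ofReal_mul ha2,
    ENNReal.ofReal_mul ha3]
  exact add_le_add (mul_le_mul_right hI _) (mul_le_mul_right hQ _)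

theorem lin_bound (hn : 1 ≤ n) (hh : Measurable (Function.uncurry h))
    (hB : ∀ t ρ, 0 ≤ h t ρ ∧ h t ρ ≤ B * Real.exp (-Real.pi * ρ)) (hc : Integrable c π)
    (hφ : ∀ ρ, φ ρ = ∫ t, c t * h t ρ ∂π) {r : ℝ} (hr : 0 < r) {w : (Fin n → ℝ) → ℝ}
    (hw : Measurable w) (hw' : ∀ y, 0 ≤ w y ∧ w y ≤ 51 / 50) {g : Matrix (Fin n) (Fin n) ℝ}
    (hg : g.det ≠ 0) {β m : ℝ → ℝ} (hcm : Measurable c) (hβm : Measurable β) (hβ : ∀ t, 0 < β t)
    (hm : Integrable (fun t => c t * m t) π) {I Q a : ℝ} (hI0 : 0 ≤ I) (hQ0 : 0 ≤ Q) (ha : 0 < a)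
    (hI : ∫⁻ t, ENNReal.ofReal (c t ^ 2 / β t) ∂π ≤ ENNReal.ofReal I)
    (hQ : Qf π β m h r w g ≤ ENNReal.ofReal Q) :
    Sm g φ ≤ ctr r w φ - ∫ t, c t * m t ∂π + (a / 2 * I + Q / (2 * a)) := by
  obtain ⟨h1, h2⟩ := lin_Sm hh hB hc hφ hg
  obtain ⟨h3, h4⟩ := lin_ctr hn hh hB hc hφ hr hw hw'
  have h5 := lin_amgm (π := π) (X := fun t => Sm g (h t) - ctr r w (h t) + m t) hcm hβm hβ hI0 hQ0
    ha hI hQ
  simp only [mul_add, mul_sub] at h5
  have h6 : Integrable (fun t => c t * Sm g (h t) - c t * ctr r w (h t)) π := h1.sub h3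
  rw [integral_add h6 hm, integral_sub h1 h3, ← h2, ← h4] at h5
  linarith

end Pool.Agent.Eps.T
end
end
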