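import Mathlib

-- part Pool.Agent.Lib.MP_3bda03_nt.T.Lang
section

/-!
Affine forms in two variables with biased natural number coefficients, and a small language of
checks that the kernel can run (definitions).
-/

set_option autoImplicit false

namespace Pool.Agent.Eps.T

/-- Force a natural number. -/
noncomputable def frc (n : ℕ) (k : ℕ → Bool) : Bool :=
  Nat.rec (k 0) (fun m _ => k (Nat.succ m)) n

/-- Force a natural number, fail on zero. -/
noncomputable def frp (n : ℕ) (k : ℕ → Bool) : Bool :=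
  Nat.rec false (fun m _ => k (Nat.succ m)) n

/-- Value of a biased number: bias `2 ^ 72`, scale `2 ^ 60`. -/
noncomputable def val (x : ℕ) : ℝ := ((x : ℝ) - 2 ^ 72) / 2 ^ 60

/-- Value of a magnitude. -/
noncomputable def mag (x : ℕ) : ℝ := (x : ℝ) / 2 ^ 60

/-- Distance from the bias. -/
def ab (x : ℕ) : ℕ := Nat.add (Nat.sub x 4722366482869645213696) (Nat.sub 4722366482869645213696 x)

/-- Sum, difference and negative of biased numbers (to be guarded by `frp`). -/
def ba (x y : ℕ) : ℕ := Nat.sub (Nat.add x y) 4722366482869645213696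
def bs (x y : ℕ) : ℕ := Nat.sub (Nat.add x 4722366482869645213696) y
def bn (x : ℕ) : ℕ := Nat.sub 9444732965739290427392 x

/-- Rounded product of two biased numbers (to be guarded by `frp`). -/
def bm (a x : ℕ) : ℕ :=
  Nat.shiftRight (Nat.sub (Nat.add (Nat.mul a x) 22306189716401358156951132266367269797363712)
    (Nat.shiftLeft (Nat.add a x) 72)) 60

/-- Rounded `a y + b x`. -/
def bm2 (a b x y : ℕ) : ℕ :=
  Nat.shiftRight (Nat.sub (Nat.add (Nat.add (Nat.mul a y) (Nat.mul b x))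
    44606934914931981298486850539015631303344128)
    (Nat.shiftLeft (Nat.add (Nat.add a b) (Nat.add x y)) 72)) 60

/-- Rounded product of a magnitude `m` and a biased number. -/
def bq (m x : ℕ) : ℕ :=
  Nat.shiftRight (Nat.sub (Nat.add (Nat.mul m x) 5444517870735015415413993718908291383296)
    (Nat.shiftLeft m 72)) 60

/-- Affine form: centre, two slopes, size of the slopes, error. -/
structure AF : Type where
  c : ℕ
  x : ℕ
  y : ℕ
  b : ℕ
  e : ℕ

/-- Enclosure at the point `(u, v)` of the square. -/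
def AE (u v : ℝ) (a : AF) (t : ℝ) : Prop :=
  ab a.x + ab a.y ≤ a.b ∧ |t - (val a.c + val a.x * u + val a.y * v)| ≤ mag a.e

namespace AF

noncomputable def mk' (c x y e : ℕ) (k : AF → Bool) : Bool :=
  frp c fun c => frp x fun x => frp y fun y =>
    frc (Nat.add (ab x) (ab y)) fun b => frc e fun e => k ⟨c, x, y, b, e⟩

/-- An interval `val c ± mag e`. -/
def itv (c e : ℕ) : AF := ⟨c, 4722366482869645213696, 4722366482869645213696, 0, e⟩

noncomputable def mkI (c e : ℕ) (k : AF → Bool) : Bool :=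
  frp c fun c => frc e fun e => k (itv c e)

noncomputable def lin (f : ℕ → ℕ → ℕ) (a b : AF) (k : AF → Bool) : Bool :=
  AF.rec (fun ac ax ay ab1 ae => AF.rec (fun bc bx bY bb1 be =>
    Nat.rec (frp (f ac bc) fun c => frc (Nat.add ae be) fun e => k ⟨c, ax, ay, ab1, e⟩)
      (fun _ _ => mk' (f ac bc) (f ax bx) (f ay bY) (Nat.add ae be) k) bb1) b) a

noncomputable def neg (a : AF) (k : AF → Bool) : Bool :=
  AF.rec (fun ac ax ay b e => frp (bn ac) fun c => frp (bn ax) fun x => frp (bn ay) fun y =>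
    k ⟨c, x, y, b, e⟩) a

/-- Error of a product. -/
def pe (ac ab1 ae bc bb1 be : ℕ) : ℕ :=
  Nat.add (Nat.shiftRight (Nat.add (Nat.mul (Nat.add ab1 ae) (Nat.add bb1 be))
    (Nat.add (Nat.mul ae (ab bc)) (Nat.mul be (ab ac)))) 60) 4

noncomputable def mul (a b : AF) (k : AF → Bool) : Bool :=
  AF.rec (fun ac ax ay ab1 ae => AF.rec (fun bc bx bY bb1 be =>
    Nat.rec (mkI (bm ac bc) (pe ac 0 ae bc 0 be) k)
      (fun _ _ => mk' (bm ac bc) (bm2 ac bc ax bx) (bm2 ac bc ay bY) (pe ac ab1 ae bc bb1 be) k)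
      (Nat.add ab1 bb1)) b) a

/-- Upper bound for half the square of a magnitude. -/
def hsq (r : ℕ) : ℕ := Nat.add (Nat.shiftRight (Nat.mul r r) 61) 1

noncomputable def sq (a : AF) (k : AF → Bool) : Bool :=
  AF.rec (fun c x y b e => frc (hsq (Nat.add b e)) fun h => frp (bm c c) fun w =>
    Nat.rec (mkI (Nat.add w h)
        (Nat.add (Nat.add h (Nat.shiftRight (Nat.mul e (ab c)) 59)) 4) k)
      (fun _ _ => mk' (Nat.add w h) (bm2 c c x x) (bm2 c c y y)
        (Nat.add (Nat.add h (Nat.shiftRight (Nat.mul e (ab c)) 59)) 4) k) b) a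

end AF

/-- `5040 * 2 ^ 420` times the Taylor polynomial of degree seven of the exponential at `mag y`. -/
def tay (y : ℕ) : ℕ :=
  Nat.add (Nat.mul (Nat.add (Nat.mul (Nat.add (Nat.mul (Nat.add (Nat.mul (Nat.add (Nat.mul
    (Nat.add (Nat.mul (Nat.add y (Nat.shiftLeft 7 60)) y) (Nat.shiftLeft 42 120)) y)
    (Nat.shiftLeft 210 180)) y) (Nat.shiftLeft 840 240)) y) (Nat.shiftLeft 2520 300)) y)
    (Nat.shiftLeft 5040 360)) y) (Nat.shiftLeft 5040 420)

/-- Lower and upper bounds (magnitudes) for the exponential of `mag a`. -/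
noncomputable def expM (a : ℕ) (k : ℕ → ℕ → Bool) : Bool :=
  frc (Nat.shiftRight a 57) fun n =>
  frc (Nat.div a (Nat.succ n)) fun y =>
  frc (Nat.div (Nat.shiftRight (tay y) 360) 5040) fun l =>
  frc (Nat.shiftRight (Nat.pow l (Nat.succ n)) (Nat.mul 60 n)) fun lo =>
  frc (Nat.succ (Nat.shiftRight (Nat.pow (Nat.add l 4194304) (Nat.succ n)) (Nat.mul 60 n)))
    fun hi => k lo hi

/-- Lower and upper bounds (magnitudes) for the exponential of `val c`. -/
noncomputable def expB (c : ℕ) (k : ℕ → ℕ → Bool) : Bool :=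
  cond (Nat.ble 4722366482869645213696 c)
    (cond (Nat.ble c 4777706715090773868544) (expM (Nat.sub c 4722366482869645213696) k) false)
    (cond (Nat.ble c 4673943779676157640704) (k 0 1)
      (expM (Nat.sub 4722366482869645213696 c) fun lo hi => frp lo fun lo =>
        frc (Nat.div 1329227995784915872903807060280344576 hi) fun l =>
        frc (Nat.succ (Nat.div 1329227995784915872903807060280344576 lo)) fun h => k l h))

noncomputable def AF.exp (a : AF) (k : AF → Bool) : Bool :=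
  AF.rec (fun c x y b e => frc (Nat.add b e) fun r =>
    cond (Nat.ble r 1152921504606846976)
      (expB c fun lo hi =>
        frc (Nat.succ (Nat.shiftRight (Nat.mul (Nat.mul hi (Nat.mul r r))
          (Nat.add r 2305843009213693952)) 183)) fun h =>
        AF.mk' (Nat.add (Nat.add lo h) 4722366482869645213696) (bq lo x) (bq lo y)
          (Nat.add (Nat.add (Nat.add h (Nat.shiftRight (Nat.mul lo e) 60))
            (Nat.mul 2 (Nat.sub hi lo))) 4) k)
      (expB (Nat.add c r) fun _ hi => frc (Nat.succ (Nat.shiftRight hi 1)) fun h =>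
        frc (Nat.add h 4722366482869645213696) fun m => k (AF.itv m h))) a

/-- Lists of affine forms. -/
inductive SL : Type
  | nil : SL
  | cons (a : AF) (t : SL) : SL

noncomputable def SL.get (E : SL) (i : ℕ) (k : AF → Bool) : Bool :=
  Nat.rec (motive := fun _ => SL → Bool) (fun E => SL.rec false (fun a _ _ => k a) E)
    (fun _ ih E => SL.rec false (fun _ t _ => ih t) E) i E

/-- Drop the first `n` entries. -/
noncomputable def SL.drop (E : SL) (n : ℕ) (k : SL → Bool) : Bool :=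
  Nat.rec (motive := fun _ => SL → Bool) k (fun _ ih E => SL.rec false (fun _ t _ => ih t) E) n E

/-- Keep the first `m` entries and drop the next `n`. -/
noncomputable def SL.cut (E : SL) (m n : ℕ) (k : SL → Bool) : Bool :=
  Nat.rec (motive := fun _ => SL → (SL → Bool) → Bool) (fun E k => E.drop n k)
    (fun _ ih E k => SL.rec false (fun a t _ => ih t fun r => k (SL.cons a r)) E) m E k

/-- No entry depends on the first variable. -/
noncomputable def SL.flat (E : SL) : Bool :=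
  SL.rec true (fun a _ ih => AF.rec (fun _ x _ _ _ => cond (Nat.beq x 4722366482869645213696) ih false) a) E

/-- Expressions. -/
inductive Ex : Type
  | var (i : ℕ) : Ex
  | cst (x : ℕ) : Ex
  | nat (k : ℕ) : Ex
  | rat (p q : ℕ) : Ex
  | add (a b : Ex) : Ex
  | sub (a b : Ex) : Ex
  | neg (a : Ex) : Ex
  | mul (a b : Ex) : Ex
  | sq (a : Ex) : Ex
  | exp (a : Ex) : Ex

noncomputable def Ex.val (s : List ℝ) : Ex → ℝ
  | Ex.var i => s.getD i 0
  | Ex.cst x => T.val x
  | Ex.nat k => (k : ℝ)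
  | Ex.rat p q => (p : ℝ) / (q : ℝ)
  | Ex.add a b => a.val s + b.val s
  | Ex.sub a b => a.val s - b.val s
  | Ex.neg a => -a.val s
  | Ex.mul a b => a.val s * b.val s
  | Ex.sq a => a.val s ^ 2
  | Ex.exp a => Real.exp (a.val s)

noncomputable def Ex.ev (s : SL) (e : Ex) : (AF → Bool) → Bool :=
  Ex.rec (fun i k => s.get i k)
    (fun x k => frc x fun x => k (AF.itv x 0))
    (fun j k => frc (Nat.add 4722366482869645213696 (Nat.shiftLeft j 60)) fun x => k (AF.itv x 0))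
    (fun p q k => frp q fun q => frc (Nat.add 4722366482869645213696
      (Nat.div (Nat.shiftLeft p 60) q)) fun c => k (AF.itv c 1))
    (fun _ _ ia ib k => ia fun a => ib fun b => AF.lin ba a b k)
    (fun _ _ ia ib k => ia fun a => ib fun b => AF.lin bs a b k)
    (fun _ ia k => ia fun a => AF.neg a k)
    (fun _ _ ia ib k => ia fun a => ib fun b => AF.mul a b k)
    (fun _ ia k => ia fun a => AF.sq a k)
    (fun _ ia k => ia fun a => AF.exp a k) e

/-- Check programs. They act on a stack and on a tape. -/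
inductive Ck : Type
  | done : Ck
  | fail : Ck
  | le (a b : Ex) (r : Ck) : Ck
  | lt (a b : Ex) (r : Ck) : Ck
  | slet (e : Ex) (r : Ck) : Ck
  | near (e d : Ex) (r : Ck) : Ck
  | uabs (e : Ex) (r : Ck) : Ck
  | rcp (j : ℕ) (e : Ex) (r : Ck) : Ck
  | cut (m n : ℕ) (r : Ck) : Ck
  | push (e : Ex) (r : Ck) : Ck
  | pop (r : Ck) : Ck
  | box (lo hi : ℕ) (r : Ck) : Ck
  | both (a r : Ck) : Ck

/-- Meaning of a check program. -/
def Ck.holds : Ck → List ℝ → List ℝ → Prop
  | Ck.done, _, _ => True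
  | Ck.fail, _, _ => False
  | Ck.le a b r, s, d => a.val s ≤ b.val s ∧ r.holds s d
  | Ck.lt a b r, s, d => a.val s < b.val s ∧ r.holds s d
  | Ck.slet e r, s, d => r.holds (e.val s :: s) d
  | Ck.near e f r, s, d => ∀ t : ℝ, |t - e.val s| ≤ f.val s → r.holds (t :: s) d
  | Ck.uabs e r, s, d => ∃ t : ℝ, |e.val s| ≤ t ∧ r.holds (t :: s) d
  | Ck.rcp _ _ r, s, d => ∃ t : ℝ, 0 < t ∧ r.holds (t :: s) d
  | Ck.cut m n r, s, d => r.holds (s.take m ++ s.drop (m + n)) d
  | Ck.push e r, s, d => r.holds s (e.val s :: d)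
  | Ck.pop r, s, d => r.holds (d.getD 0 0 :: s) d.tail
  | Ck.box lo hi r, s, d => ∀ t : ℝ, val lo ≤ t → t ≤ val hi → r.holds (t :: s) d
  | Ck.both a r, s, d => a.holds s d ∧ r.holds s d

/-- A guess for the reciprocal of the centre (`j = 0`), of the lower end (`j = 1`) or of the upper
end (`j = 2`) of `val c ± mag r`, as a magnitude. -/
noncomputable def rguess (j c r : ℕ) : ℕ :=
  Nat.rec (Nat.succ (Nat.div 1329227995784915872903807060280344576 (Nat.succ (Nat.sub c 4722366482869645213696))))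
    (fun j _ => Nat.rec
      (Nat.add (Nat.div 1329227997022855912189187335179468800 (Nat.succ (Nat.sub (Nat.sub c r) 4722366482869645213696))) 1024)
      (fun _ _ => Nat.succ (Nat.div 1329227994546975833618426785381220352
        (Nat.add (Nat.sub (Nat.add c r) 4722366482869645213696) 1024))) j) j

/-- Evaluation of a check program. -/
noncomputable def Ck.run (p : Ck) : SL → SL → Bool :=
  Ck.rec (fun _ _ => true) (fun _ _ => false)
    (fun a b _ ih s d => (Ex.sub a b).ev s fun w => AF.rec (fun c _ _ b1 e1 =>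
      cond (Nat.ble (Nat.add c (Nat.add b1 e1)) 4722366482869645213696) (ih s d) false) w)
    (fun a b _ ih s d => (Ex.sub a b).ev s fun w => AF.rec (fun c _ _ b1 e1 =>
      cond (Nat.ble (Nat.succ (Nat.add c (Nat.add b1 e1))) 4722366482869645213696) (ih s d) false) w)
    (fun e _ ih s d => e.ev s fun a => ih (SL.cons a s) d)
    (fun e f _ ih s d => e.ev s fun a => f.ev s fun g => AF.rec (fun c x y b1 e1 =>
      AF.rec (fun c2 _ _ b2 e2 => frc (Nat.add (Nat.add e1 (ab c2)) (Nat.add b2 e2)) fun e3 =>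
        ih (SL.cons ⟨c, x, y, b1, e3⟩ s) d) g) a)
    (fun e _ ih s d => e.ev s fun a => AF.rec (fun c _ _ b1 e1 =>
      frc (Nat.add (Nat.add (ab c) 4722366482869645213696) (Nat.add b1 e1)) fun m =>
        ih (SL.cons (AF.itv m 0) s) d) a)
    (fun j e _ ih s d => e.ev s fun a => AF.rec (fun c _ _ b1 e1 =>
      frp (rguess j c (Nat.add b1 e1)) fun m => frc (Nat.add m 4722366482869645213696) fun m =>
        ih (SL.cons (AF.itv m 0) s) d) a)
    (fun m n _ ih s d => s.cut m n fun s => ih s d)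
    (fun e _ ih s d => e.ev s fun a => ih s (SL.cons a d))
    (fun _ ih s d => SL.rec false (fun a t _ => ih (SL.cons a s) t) d)
    (fun lo hi _ ih s d => cond s.flat (cond d.flat
      (frc (Nat.succ (Nat.shiftRight (Nat.sub hi lo) 1)) fun h => frc (Nat.add lo h) fun c =>
        frc (Nat.add h 4722366482869645213696) fun x => ih (SL.cons ⟨c, x, 4722366482869645213696, h, 0⟩ s) d) false) false)
    (fun _ _ ia ih s d => cond (ia s d) (ih s d) false) p

/-- Run a program for all values of a first variable between `val lo` and `val hi`. -/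
noncomputable def Ck.start (p : Ck) (lo hi : ℕ) : Bool :=
  frc (Nat.succ (Nat.shiftRight (Nat.sub hi lo) 1)) fun h => frc (Nat.add lo h) fun c =>
    frc (Nat.add h 4722366482869645213696) fun y => p.run (SL.cons ⟨c, 4722366482869645213696, y, h, 0⟩ SL.nil) SL.nil

/-- Enclosure of lists. -/
def Env (u v : ℝ) : SL → List ℝ → Prop
  | SL.nil, ρ => ρ = []
  | SL.cons a E, ρ => ∃ t ρ', ρ = t :: ρ' ∧ AE u v a t ∧ Env u v E ρ'

end Pool.Agent.Eps.T
end

-- part Pool.Agent.Lib.MP_3bda03_nt.T.Prog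
section

/-! The check programs (definitions). -/

set_option autoImplicit false

namespace Pool.Agent.Eps.T

/-- Replace the top `x` by its inverse. -/
def invP  (r : Ck) : Ck :=
  .rcp 0 (.var 0) <|
  .slet (.sub (.mul (.var 1) (.var 0)) (.nat 1)) <|
  .uabs (.var 0) <|
  .le (.var 0) (.rat 1 2) <|
  .slet (.mul (.mul (.var 2) (.sq (.var 0))) (.add (.rat 1 2) (.var 0))) <|
  .near (.add (.mul (.var 3) (.sub (.nat 1) (.var 2))) (.var 0)) (.var 0) <|
  .cut 1 5 <| r

/-- Replace the top `x` by its logarithm; `val y` is a guess. -/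
def lgP (y : ℕ) (r : Ck) : Ck :=
  .slet (.sub (.mul (.var 0) (.exp (.neg (.cst y)))) (.nat 1)) <|
  .uabs (.var 0) <|
  .le (.var 0) (.rat 1 2) <|
  .slet (.mul (.sq (.var 0)) (.add (.rat 1 4) (.mul (.rat 1 2) (.var 0)))) <|
  .near (.sub (.add (.cst y) (.var 2)) (.var 0)) (.var 0) <|
  .cut 1 4 <| r

/-- Replace the top `x` by its square root; `val g` is a guess of the inverse root. -/
def sqrtP (g : ℕ) (r : Ck) : Ck :=
  .lt (.nat 0) (.cst g) <|
  .slet (.mul (.var 0) (.cst g)) <|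
  .slet (.sub (.mul (.var 0) (.cst g)) (.nat 1)) <|
  .uabs (.var 0) <|
  .le (.var 0) (.rat 1 4) <|
  .slet (.mul (.rat 1 2) (.sq (.var 0))) <|
  .near (.add (.sub (.nat 1) (.mul (.rat 1 2) (.var 2))) (.var 0)) (.var 0) <|
  .slet (.mul (.var 4) (.var 0)) <|
  .cut 1 6 <| r

/-- Replace `xi, p` by `exp (p xi)`, `qf p xi`, `lk p xi`. -/
def kqP  (r : Ck) : Ck :=
  .slet (.mul (.var 1) (.var 0)) <|
  .uabs (.var 0) <|
  .le (.var 0) (.nat 2) <|
  .near (.add (.rat 1 2) (.mul (.var 1) (.add (.rat 1 6) (.mul (.var 1) (.add (.rat 1 24) (.mul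
      (.var 1) (.add (.rat 1 120) (.mul (.var 1) (.add (.rat 1 720) (.mul (.var 1) (.add (.rat 1
      5040) (.mul (.var 1) (.add (.rat 1 40320) (.mul (.var 1) (.add (.rat 1 362880) (.mul (.var
      1) (.rat 1 3628800))))))))))))))))) (.mul (.mul (.sq (.sq (.sq (.var 0)))) (.var 0)) (.rat 2
      39916800)) <|
  .slet (.neg (.mul (.sq (.var 3)) (.var 0))) <|
  .slet (.add (.nat 1) (.mul (.var 3) (.var 1))) <|
  .slet (.mul (.var 5) (.var 0)) <|
  .slet (.add (.nat 1) (.mul (.var 5) (.var 1))) <|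
  .slet (.var 3) <|
  .slet (.var 2) <|
  .slet (.var 2) <|
  .cut 3 9 <| r

/-- Replace `cd, l` by any number in the range of the cell factor. -/
def shP  (r : Ck) : Ck :=
  .slet (.mul (.rat 1 24) (.sq (.var 1))) <|
  .uabs (.var 0) <|
  .le (.var 0) (.nat 1) <|
  .slet (.mul (.mul (.rat 1 2) (.var 2)) (.add (.nat 1) (.mul (.nat 6) (.var 0)))) <|
  .slet (.mul (.rat 1 4) (.sq (.var 1))) <|
  .near (.add (.add (.nat 1) (.var 3)) (.sub (.var 0) (.var 1))) (.add (.var 0) (.var 1)) <|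
  .cut 1 6 <| r

/-- `V / ν` for small dimensions. -/
def vhA  (r : Ck) : Ck :=
  .slet (.sub (.rat 1 10) (.mul (.rat 13 10) (.sq (.var 0)))) <| r

/-- `V / ν` for large dimensions. -/
def vhB  (r : Ck) : Ck :=
  .slet (.sub (.rat 3 25) (.mul (.rat 33 10) (.sq (.var 0)))) <| r

/-- Enclosure of `τ` on a bounded range. -/
def tauF (lp lv lq : ℕ) (r : Ck) : Ck :=
  .slet (.var 1) <|
  lgP lp <|
  .slet (.var 1) <|
  lgP lv <|
  .near (.rat 31415925 10000000) (.rat 1 1000000) <|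
  .slet (.var 0) <|
  lgP lq <|
  .near (.rat 69314718055 100000000000) (.rat 3 10000000000) <|
  .slet (.mul (.rat 1 32) (.sq (.sq (.var 6)))) <|
  .near (.sub (.sub (.sub (.nat 1) (.var 1)) (.mul (.mul (.rat 1 2) (.sq (.var 7))) (.add (.sub
      (.add (.mul (.nat 2) (.var 1)) (.mul (.rat 1 2) (.var 2))) (.mul (.nat 3) (.var 5))) (.var
      4)))) (.var 0)) (.var 0) <|
  .cut 1 6 <| r

/-- Enclosure of `τ` on the unbounded range. -/
def tauI (u : ℕ) (r : Ck) : Ck :=
  .lt (.nat 0) (.cst u) <|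
  .le (.var 1) (.sq (.cst u)) <|
  .le (.var 1) (.rat 1 10) <|
  .near (.rat 69314718055 100000000000) (.rat 3 10000000000) <|
  .slet (.mul (.mul (.rat 3 2) (.var 2)) (.cst u)) <|
  .near (.sub (.sub (.nat 1) (.var 1)) (.var 0)) (.var 0) <|
  .cut 1 2 <| r

/-- The derived parameters. -/
def par (g n0 n1 eta eps et0 lf : ℕ) (r : Ck) : Ck :=
  .le (.var 2) (.rat 21 100) <|
  .slet (.var 0) <|
  invP <|
  .slet (.mul (.var 3) (.var 0)) <|
  .slet (.mul (.mul (.rat 1 2) (.var 4)) (.var 0)) <|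
  .slet (.mul (.var 4) (.var 2)) <|
  sqrtP g <|
  .uabs (.var 0) <|
  .le (.var 3) (.nat 1) <|
  .slet (.exp (.sub (.rat 97 2000) (.mul (.rat 1 2000) (.nat n1)))) <|
  .le (.mul (.rat 1 50) (.var 0)) (.cst eta) <|
  .le (.mul (.rat 3 25) (.var 0)) (.cst eps) <|
  .le (.mul (.rat 1 250) (.var 0)) (.cst et0) <|
  .lt (.nat 1) (.mul (.cst lf) (.sub (.nat 1) (.cst et0))) <|
  .lt (.nat 0) (.cst lf) <|
  .slet (.mul (.mul (.rat 1783 1000) (.cst eps)) (.var 4)) <|
  .slet (.add (.nat 1) (.cst eta)) <|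
  .uabs (.var 8) <|
  .uabs (.var 10) <|
  .slet (.mul (.mul (.rat 11 200) (.nat n0)) (.sub (.rat 18209 10000) (.mul (.nat 2) (.var 1))))
      <|
  .slet (.mul (.mul (.rat 1 10) (.nat n0)) (.sub (.rat 12231 10000) (.mul (.nat 2) (.var 2)))) <|
  .le (.nat 1) (.var 1) <|
  .le (.nat 1) (.var 0) <|
  .uabs (.mul (.mul (.mul (.rat 27 40) (.nat n0)) (.var 2)) (.exp (.neg (.var 1)))) <|
  .uabs (.mul (.mul (.mul (.rat 173 200) (.nat n0)) (.var 3)) (.exp (.neg (.var 1)))) <|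
  .slet (.var 0) <|
  .slet (.var 2) <|
  .slet (.var 11) <|
  .slet (.var 13) <|
  .slet (.var 15) <|
  .slet (.var 19) <|
  .slet (.var 22) <|
  .slet (.var 19) <|
  .slet (.var 15) <|
  .slet (.var 15) <|
  .cut 10 17 <| r

/-- Parameters when there is no far region. -/
def parN  (r : Ck) : Ck :=
  .slet (.var 3) <|
  invP <|
  .slet (.mul (.var 5) (.var 0)) <|
  .slet (.var 5) <|
  .slet (.neg (.var 1)) <|
  kqP <|
  .slet (.exp (.var 2)) <|
  .uabs (.var 0) <|
  .slet (.sub (.nat 2) (.var 2)) <|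
  invP <|
  .slet (.mul (.var 11) (.var 0)) <|
  .slet (.mul (.mul (.var 3) (.var 0)) (.sub (.nat 1) (.sq (.var 0)))) <|
  .uabs (.mul (.mul (.rat 1283 1000) (.var 3)) (.var 13)) <|
  .slet (.nat 0) <|
  .slet (.nat 0) <|
  .slet (.var 2) <|
  .slet (.var 4) <|
  .slet (.var 3) <|
  .slet (.var 9) <|
  .slet (.var 15) <|
  .slet (.var 5) <|
  .cut 6 13 <| r

/-- Parameters when there is a far region. -/
def parF (bf : ℕ) (r : Ck) : Ck :=
  .slet (.var 3) <|
  .slet (.cst bf) <|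
  kqP <|
  .uabs (.exp (.var 2)) <|
  .rcp 1 (.neg (.var 2)) <|
  .le (.nat 1) (.mul (.var 0) (.neg (.var 3))) <|
  .uabs (.mul (.var 1) (.var 0)) <|
  .uabs (.mul (.mul (.rat 1283 1000) (.var 2)) (.var 9)) <|
  .slet (.nat 0) <|
  .slet (.nat 0) <|
  .slet (.nat 0) <|
  .slet (.var 3) <|
  .slet (.var 3) <|
  .slet (.var 6) <|
  .slet (.var 9) <|
  .slet (.var 5) <|
  .slet (.var 5) <|
  .cut 6 10 <| r

/-- Data of a cell beyond the switch point. -/
def datG (ba bz : ℕ) (r : Ck) : Ck :=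
  .slet (.sub (.cst bz) (.cst ba)) <|
  .slet (.mul (.rat 1 2) (.add (.cst ba) (.cst bz))) <|
  .lt (.nat 0) (.var 1) <|
  .slet (.var 11) <|
  .slet (.var 1) <|
  kqP <|
  .slet (.mul (.var 4) (.exp (.var 2))) <|
  .slet (.mul (.var 5) (.var 2)) <|
  .uabs (.var 6) <|
  .uabs (.mul (.var 17) (.var 0)) <|
  .le (.var 0) (.nat 1) <|
  .uabs (.var 4) <|
  .uabs (.mul (.mul (.mul (.rat 1 24) (.var 0)) (.add (.nat 1) (.var 1))) (.sq (.var 2))) <|
  .slet (.mul (.var 10) (.var 19)) <|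
  .slet (.mul (.var 10) (.var 20)) <|
  .push (.var 2) <|
  .push (.var 6) <|
  .push (.var 7) <|
  .push (.var 0) <|
  .push (.var 1) <|
  .cut 0 13 <| r

/-- The envelope constant of a cell that reaches beyond zero. -/
def chkR (cz bz rr : ℕ) (r : Ck) : Ck :=
  .slet (.var 9) <|
  .slet (.sub (.cst bz) (.mul (.cst cz) (.var 2))) <|
  kqP <|
  .le (.var 5) (.mul (.cst rr) (.exp (.var 2))) <|
  .cut 0 3 <| r

/-- Data of a near cell. -/
def datN (ca ba cz bz bb m rr mm : ℕ) (r : Ck) : Ck :=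
  .slet (.sub (.cst ca) (.cst cz)) <|
  .slet (.sub (.cst bz) (.cst ba)) <|
  .slet (.add (.var 0) (.mul (.var 1) (.var 3))) <|
  .slet (.sub (.mul (.rat 1 2) (.add (.cst ba) (.cst bz))) (.mul (.mul (.rat 1 2) (.add (.cst ca)
      (.cst cz))) (.var 4))) <|
  .lt (.nat 0) (.var 1) <|
  .slet (.var 13) <|
  .slet (.var 1) <|
  kqP <|
  .slet (.mul (.var 4) (.exp (.var 2))) <|
  .slet (.mul (.var 5) (.var 2)) <|
  .uabs (.var 6) <|
  .uabs (.mul (.var 19) (.var 0)) <|
  .le (.var 0) (.nat 1) <|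
  .uabs (.var 4) <|
  .uabs (.mul (.mul (.mul (.rat 1 24) (.var 0)) (.add (.nat 1) (.var 1))) (.sq (.var 2))) <|
  .uabs (.var 4) <|
  .uabs (.mul (.var 6) (.exp (.mul (.rat 1 2) (.var 0)))) <|
  .slet (.add (.var 1) (.mul (.nat 12) (.var 2))) <|
  .slet (.add (.var 15) (.mul (.var 14) (.var 24))) <|
  .slet (.sub (.mul (.cst ba) (.var 25)) (.cst ca)) <|
  .rcp 1 (.cst bb) <|
  .le (.nat 1) (.mul (.var 0) (.cst bb)) <|
  .le (.nat 1) (.cst rr) <|
  .le (.nat 0) (.cst m) <|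
  .le (.cst m) (.cst mm) <|
  .push (.var 0) <|
  .push (.var 3) <|
  .push (.var 4) <|
  .push (.var 6) <|
  .push (.var 10) <|
  .push (.var 11) <|
  .push (.var 1) <|
  .push (.var 2) <|
  .slet (.add (.var 19) (.mul (.cst bb) (.add (.mul (.var 25) (.add (.add (.add (.nat 2) (.mul
      (.nat 2) (.var 1))) (.var 2)) (.sq (.cst m)))) (.mul (.var 26) (.sq (.cst rr)))))) <|
  .cut 1 20 <| r

/-- Data of a far cell. -/
def datF (ca ba cz bz bb m mm : ℕ) (r : Ck) : Ck :=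
  .slet (.add (.sub (.cst ca) (.cst cz)) (.mul (.sub (.cst bz) (.cst ba)) (.var 8))) <|
  .lt (.nat 0) (.var 0) <|
  .slet (.sub (.mul (.cst ba) (.var 9)) (.cst ca)) <|
  .rcp 1 (.cst bb) <|
  .le (.nat 1) (.mul (.var 0) (.cst bb)) <|
  .le (.nat 0) (.cst m) <|
  .le (.cst m) (.cst mm) <|
  .push (.var 0) <|
  .push (.var 1) <|
  .push (.var 2) <|
  .slet (.add (.var 3) (.mul (.cst bb) (.add (.mul (.var 9) (.add (.add (.add (.nat 2) (.mul (.nat
      2) (.var 1))) (.var 2)) (.sq (.cst m)))) (.var 10)))) <|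
  .cut 1 4 <| r

/-- Data of the first cell. -/
def datL (cz bb v0 gl eps : ℕ) (r : Ck) : Ck :=
  .slet (.sub (.nat 1) (.cst cz)) <|
  .lt (.nat 0) (.var 0) <|
  .lt (.nat 0) (.cst v0) <|
  .le (.nat 0) (.cst gl) <|
  .le (.mul (.nat 2) (.var 0)) (.mul (.mul (.sq (.cst gl)) (.cst v0)) (.var 11)) <|
  .rcp 1 (.cst bb) <|
  .le (.nat 1) (.mul (.var 0) (.cst bb)) <|
  .push (.var 0) <|
  .push (.var 1) <|
  .slet (.add (.var 2) (.mul (.cst bb) (.add (.mul (.mul (.nat 2) (.var 8)) (.var 1)) (.mul (.mul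
      (.rat 1783 1000) (.cst eps)) (.cst gl))))) <|
  .cut 1 3 <| r

/-- Data of the point test, of the tail and of the extra weight. -/
def glob (xc bi mi rc bt w b2 mm lf : ℕ) (r : Ck) : Ck :=
  .slet (.var 9) <|
  .slet (.cst xc) <|
  kqP <|
  .slet (.exp (.var 2)) <|
  .le (.var 6) (.mul (.cst rc) (.var 0)) <|
  .le (.nat 1) (.cst rc) <|
  .le (.nat 0) (.cst mi) <|
  .le (.nat 0) (.cst mm) <|
  .lt (.nat 0) (.cst w) <|
  .le (.var 2) (.mul (.nat 2) (.cst w)) <|
  .rcp 1 (.var 2) <|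
  .le (.nat 1) (.mul (.var 0) (.var 3)) <|
  .rcp 1 (.cst bi) <|
  .le (.nat 1) (.mul (.var 0) (.cst bi)) <|
  .rcp 1 (.var 2) <|
  .le (.nat 1) (.mul (.var 0) (.var 3)) <|
  .uabs (.mul (.var 9) (.var 0)) <|
  .rcp 1 (.sub (.mul (.nat 2) (.var 6)) (.var 17)) <|
  .le (.nat 1) (.mul (.var 0) (.sub (.mul (.nat 2) (.var 7)) (.var 18))) <|
  .rcp 1 (.mul (.cst bt) (.sq (.cst w))) <|
  .le (.nat 1) (.mul (.var 0) (.mul (.cst bt) (.sq (.cst w)))) <|
  .rcp 1 (.cst b2) <|
  .le (.nat 1) (.mul (.var 0) (.cst b2)) <|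
  .slet (.mul (.var 14) (.var 0)) <|
  .slet (.sq (.add (.nat 1) (.mul (.cst w) (.var 7)))) <|
  .slet (.mul (.mul (.nat 2) (.cst lf)) (.add (.add (.add (.var 13) (.mul (.cst bi) (.add (.mul
      (.var 19) (.add (.add (.nat 2) (.mul (.add (.mul (.nat 2) (.cst xc)) (.var 8)) (.var 21)))
      (.sq (.cst mi)))) (.mul (.var 20) (.sq (.cst rc)))))) (.mul (.cst bt) (.add (.mul (.mul
      (.mul (.mul (.var 19) (.var 21)) (.var 10)) (.var 8)) (.var 4)) (.mul (.mul (.var 20) (.sq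
      (.var 5))) (.cst w))))) (.mul (.mul (.cst b2) (.var 16)) (.add (.mul (.var 19) (.add (.nat
      2) (.sq (.cst mm)))) (.var 20))))) <|
  .slet (.var 29) <|
  .slet (.var 29) <|
  .slet (.var 21) <|
  .slet (.var 21) <|
  .slet (.var 31) <|
  .slet (.var 31) <|
  .slet (.var 7) <|
  .slet (.var 19) <|
  .slet (.var 18) <|
  .slet (.var 11) <|
  .slet (.var 14) <|
  .slet (.var 19) <|
  .slet (.var 12) <|
  .slet (.var 36) <|
  .slet (.var 36) <|
  .slet (.var 40) <|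
  .slet (.var 33) <|
  .cut 17 30 <| r

/-- Data of the end point. -/
def globE (xe : ℕ) (r : Ck) : Ck :=
  .slet (.var 3) <|
  .slet (.cst xe) <|
  kqP <|
  .uabs (.exp (.var 2)) <|
  .slet (.var 2) <|
  .slet (.var 1) <|
  .cut 2 4 <| r

/-- Start of a box of the backward mode. -/
def begB (z1 z2 e0 th xe : ℕ) (r : Ck) : Ck :=
  .box z1 z2 <|
  .le (.nat 0) (.cst e0) <|
  .slet (.mul (.var 0) (.var 5)) <|
  .slet (.mul (.cst e0) (.var 0)) <|
  .slet (.mul (.cst th) (.var 2)) <|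
  .slet (.exp (.neg (.add (.var 1) (.var 0)))) <|
  .uabs (.var 0) <|
  .rcp 1 (.sub (.var 7) (.var 4)) <|
  .le (.nat 1) (.mul (.var 0) (.sub (.var 8) (.var 5))) <|
  .uabs (.mul (.mul (.mul (.rat 1 2) (.exp (.sub (.mul (.cst xe) (.var 5)) (.var 4)))) (.var 7))
      (.var 0)) <|
  .near (.var 0) (.var 0) <|
  .near (.var 1) (.var 1) <|
  .slet (.nat 0) <|
  .slet (.nat 0) <|
  .slet (.var 7) <|
  .slet (.var 11) <|
  .slet (.var 8) <|
  .slet (.var 11) <|
  .slet (.var 13) <|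
  .slet (.var 16) <|
  .slet (.var 6) <|
  .slet (.var 8) <|
  .slet (.var 10) <|
  .slet (.var 12) <|
  .cut 10 14 <| r

/-- A cell beyond the switch point. -/
def gB  (r : Ck) : Ck :=
  .pop <|
  .pop <|
  .pop <|
  .pop <|
  .pop <|
  .slet (.mul (.var 4) (.var 9)) <|
  .slet (.mul (.var 4) (.var 10)) <|
  .slet (.sub (.var 1) (.var 3)) <|
  .slet (.var 3) <|
  shP <|
  .slet (.add (.var 2) (.var 4)) <|
  .slet (.var 4) <|
  shP <|
  .slet (.add (.var 10) (.mul (.mul (.var 6) (.exp (.neg (.add (.var 2) (.var 14))))) (.var 0)))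
      <|
  .slet (.add (.var 10) (.mul (.mul (.var 7) (.exp (.sub (.var 3) (.var 15)))) (.var 2))) <|
  .cut 2 11 <| r

/-- The switch point. -/
def swB (xc mi w : ℕ) (r : Ck) : Ck :=
  .slet (.mul (.cst xc) (.var 8)) <|
  .slet (.mul (.exp (.neg (.add (.var 0) (.var 7)))) (.var 1)) <|
  .slet (.mul (.exp (.sub (.var 1) (.var 8))) (.var 3)) <|
  .slet (.sub (.var 22) (.var 11)) <|
  .slet (.mul (.var 13) (.var 22)) <|
  .slet (.mul (.var 18) (.var 13)) <|
  .le (.var 0) (.rat 2 3) <|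
  .slet (.sq (.sub (.cst w) (.var 2))) <|
  .slet (.mul (.cst mi) (.add (.var 5) (.var 4))) <|
  .slet (.add (.add (.mul (.add (.sq (.var 6)) (.sq (.var 5))) (.var 23)) (.mul (.add (.mul (.var
      6) (.add (.mul (.var 3) (.add (.nat 1) (.var 1))) (.mul (.sub (.var 3) (.mul (.var 4) (.var
      6))) (.var 1)))) (.mul (.var 5) (.mul (.var 3) (.add (.nat 1) (.mul (.sq (.sub (.cst w)
      (.add (.var 27) (.var 16)))) (.add (.nat 1) (.mul (.nat 3) (.var 2)))))))) (.var 24))) (.mul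
      (.mul (.nat 2) (.sq (.var 17))) (.var 25))) <|
  .slet (.var 1) <|
  .slet (.var 1) <|
  .slet (.var 12) <|
  .slet (.var 12) <|
  .cut 4 13 <| r

/-- A near cell, backward mode. -/
def nB (m : ℕ) (r : Ck) : Ck :=
  .pop <|
  .pop <|
  .pop <|
  .pop <|
  .pop <|
  .pop <|
  .pop <|
  .pop <|
  .slet (.mul (.var 7) (.var 12)) <|
  .slet (.mul (.var 7) (.var 13)) <|
  .slet (.exp (.var 1)) <|
  .slet (.exp (.neg (.var 2))) <|
  .slet (.exp (.neg (.add (.var 2) (.var 18)))) <|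
  .slet (.exp (.sub (.var 3) (.var 19))) <|
  .slet (.add (.var 4) (.mul (.rat 1 2) (.var 5))) <|
  .slet (.sub (.var 6) (.var 11)) <|
  .slet (.var 11) <|
  shP <|
  .slet (.add (.var 7) (.var 12)) <|
  .slet (.var 12) <|
  shP <|
  .slet (.mul (.mul (.var 14) (.exp (.sub (.var 2) (.var 22)))) (.var 1)) <|
  .slet (.mul (.mul (.var 15) (.exp (.neg (.add (.var 3) (.var 23))))) (.var 1)) <|
  .slet (.mul (.var 6) (.add (.mul (.sub (.nat 1) (.var 7)) (.var 19)) (.var 1))) <|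
  .slet (.mul (.var 6) (.add (.mul (.sub (.nat 1) (.var 9)) (.var 21)) (.var 1))) <|
  .slet (.add (.var 21) (.var 3)) <|
  .slet (.add (.var 23) (.var 3)) <|
  .uabs (.var 14) <|
  .slet (.sq (.var 0)) <|
  .slet (.mul (.mul (.add (.var 1) (.var 18)) (.var 32)) (.var 19)) <|
  .uabs (.var 13) <|
  .uabs (.var 5) <|
  .uabs (.var 17) <|
  .uabs (.var 15) <|
  .uabs (.var 7) <|
  .slet (.add (.var 34) (.mul (.cst m) (.add (.var 11) (.var 10)))) <|
  .slet (.add (.var 34) (.mul (.var 24) (.add (.add (.sq (.var 12)) (.sq (.var 11))) (.mul (.rat 1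
      12) (.add (.sq (.add (.mul (.mul (.var 7) (.var 5)) (.var 4)) (.var 6))) (.sq (.add (.mul
      (.mul (.mul (.var 7) (.var 3)) (.var 2)) (.var 1)) (.var 6)))))))) <|
  .slet (.var 1) <|
  .slet (.var 1) <|
  .slet (.var 12) <|
  .slet (.var 14) <|
  .cut 4 37 <| r

/-- A far cell, backward mode. -/
def fB (m : ℕ) (r : Ck) : Ck :=
  .pop <|
  .pop <|
  .pop <|
  .slet (.mul (.var 2) (.var 7)) <|
  .slet (.mul (.var 2) (.var 8)) <|
  .slet (.exp (.var 1)) <|
  .slet (.exp (.neg (.var 2))) <|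
  .slet (.exp (.neg (.add (.var 2) (.var 13)))) <|
  .slet (.exp (.sub (.var 3) (.var 14))) <|
  .slet (.mul (.var 1) (.add (.var 9) (.var 19))) <|
  .slet (.add (.mul (.var 1) (.var 11)) (.mul (.var 17) (.var 20))) <|
  .slet (.sub (.nat 1) (.sq (.var 4))) <|
  .slet (.sub (.sq (.var 6)) (.nat 1)) <|
  .slet (.add (.var 16) (.mul (.cst m) (.sub (.mul (.mul (.sub (.nat 1) (.var 6)) (.var 5)) (.var
      13)) (.mul (.sub (.var 7) (.nat 1)) (.var 2))))) <|
  .slet (.add (.var 16) (.mul (.var 11) (.mul (.mul (.rat 1 2) (.var 10)) (.add (.mul (.sq (.var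
      4)) (.var 2)) (.mul (.sq (.var 3)) (.var 1)))))) <|
  .slet (.var 1) <|
  .slet (.var 1) <|
  .slet (.var 18) <|
  .slet (.var 18) <|
  .cut 4 19 <| r

/-- The first cell, backward mode. -/
def lB (v0 : ℕ) (r : Ck) : Ck :=
  .pop <|
  .pop <|
  .slet (.mul (.var 1) (.var 6)) <|
  .slet (.exp (.var 0)) <|
  .slet (.exp (.neg (.var 1))) <|
  .slet (.exp (.sub (.var 9) (.var 11))) <|
  .slet (.exp (.neg (.add (.var 10) (.var 12)))) <|
  .slet (.mul (.var 1) (.add (.var 7) (.var 17))) <|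
  .slet (.add (.mul (.var 1) (.var 9)) (.mul (.var 15) (.var 18))) <|
  .slet (.sub (.nat 1) (.sq (.var 4))) <|
  .slet (.sub (.sq (.var 6)) (.nat 1)) <|
  .slet (.mul (.rat 1 2) (.add (.mul (.cst v0) (.mul (.var 15) (.var 22))) (.var 8))) <|
  .slet (.add (.var 14) (.mul (.var 10) (.add (.mul (.sq (.var 4)) (.sub (.mul (.add (.var 0)
      (.rat 1 4)) (.var 2)) (.mul (.rat 1 2) (.var 9)))) (.mul (.sq (.var 3)) (.add (.mul (.sub
      (.var 0) (.rat 1 4)) (.var 1)) (.mul (.rat 1 2) (.var 9))))))) <|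
  .slet (.var 16) <|
  .slet (.var 1) <|
  .slet (.var 16) <|
  .slet (.var 16) <|
  .cut 4 17 <| r

/-- End of a box of the backward mode. -/
def endB  (r : Ck) : Ck :=
  .slet (.exp (.sub (.var 4) (.var 6))) <|
  .slet (.mul (.var 0) (.var 1)) <|
  .slet (.mul (.exp (.neg (.add (.var 6) (.var 8)))) (.var 3)) <|
  .slet (.mul (.nat 2) (.mul (.var 7) (.var 14))) <|
  .rcp 0 (.sub (.nat 1) (.var 0)) <|
  .rcp 0 (.add (.nat 1) (.var 1)) <|
  .slet (.mul (.var 15) (.var 29)) <|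
  .rcp 1 (.sub (.rat 39 50) (.var 3)) <|
  .le (.nat 1) (.mul (.var 0) (.sub (.rat 39 50) (.var 4))) <|
  .uabs (.var 6) <|
  .uabs (.var 6) <|
  .uabs (.var 9) <|
  .slet (.sub (.add (.mul (.mul (.nat 2) (.var 32)) (.add (.mul (.mul (.var 6) (.sub (.nat 2)
      (.mul (.var 6) (.sub (.nat 1) (.var 7))))) (.add (.var 9) (.var 4))) (.mul (.mul (.var 5)
      (.sub (.nat 2) (.mul (.var 5) (.add (.nat 1) (.var 7))))) (.add (.var 8) (.var 4))))) (.var
      14)) (.mul (.mul (.mul (.nat 2) (.var 33)) (.var 36)) (.add (.mul (.add (.add (.var 2) (.mul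
      (.var 0) (.var 21))) (.mul (.var 18) (.var 35))) (.var 3)) (.mul (.rat 1283 1000) (.add
      (.add (.var 1) (.mul (.var 18) (.var 21))) (.mul (.var 18) (.var 35))))))) <|
  .le (.nat 0) (.var 0) <|
  .lt (.mul (.var 26) (.var 14)) (.sq (.var 0)) <| r

/-- Start of a box of the forward mode. -/
def begF (z1 z2 mu dl mm : ℕ) (r : Ck) : Ck :=
  .box z1 z2 <|
  .slet (.mul (.var 0) (.var 3)) <|
  .slet (.var 5) <|
  .slet (.cst mu) <|
  kqP <|
  .uabs (.mul (.var 8) (.cst dl)) <|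
  .le (.var 0) (.nat 1) <|
  .le (.mul (.sub (.mul (.rat 1 2) (.cst dl)) (.cst mu)) (.var 8)) (.nat 1) <|
  .uabs (.var 1) <|
  .rcp 1 (.cst dl) <|
  .le (.nat 1) (.mul (.var 0) (.cst dl)) <|
  .uabs (.mul (.exp (.sub (.sub (.sub (.mul (.mul (.mul (.rat 1 24) (.var 1)) (.add (.nat 1) (.var
      2))) (.sq (.cst dl))) (.var 7)) (.mul (.var 6) (.cst mu))) (.var 5))) (.var 0)) <|
  .slet (.mul (.rat 14 5) (.var 0)) <|
  .slet (.neg (.mul (.mul (.nat 2) (.cst mm)) (.var 0))) <|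
  .slet (.mul (.mul (.nat 2) (.sq (.var 2))) (.var 18)) <|
  .slet (.nat 1) <|
  .slet (.var 11) <|
  .slet (.var 4) <|
  .slet (.var 6) <|
  .slet (.var 15) <|
  .slet (.var 6) <|
  .slet (.var 6) <|
  .slet (.var 6) <|
  .cut 7 13 <| r

/-- The first cell, forward mode. -/
def lF (v0 : ℕ) (r : Ck) : Ck :=
  .pop <|
  .pop <|
  .slet (.mul (.var 1) (.var 5)) <|
  .slet (.exp (.neg (.var 0))) <|
  .uabs (.var 1) <|
  .slet (.mul (.cst v0) (.mul (.var 8) (.var 13))) <|
  .uabs (.var 0) <|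
  .slet (.add (.var 8) (.mul (.var 5) (.add (.sub (.mul (.add (.mul (.rat 1 2) (.add (.var 1)
      (.var 4))) (.rat 1 4)) (.sub (.nat 1) (.sq (.var 3)))) (.mul (.rat 1 2) (.var 4))) (.mul
      (.mul (.sq (.var 12)) (.var 2)) (.add (.var 2) (.var 0)))))) <|
  .slet (.var 0) <|
  .slet (.var 5) <|
  .cut 2 10 <| r

/-- A far cell, forward mode. -/
def fF (m : ℕ) (r : Ck) : Ck :=
  .pop <|
  .pop <|
  .pop <|
  .slet (.mul (.var 2) (.var 6)) <|
  .slet (.exp (.neg (.var 0))) <|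
  .uabs (.var 1) <|
  .slet (.add (.var 8) (.mul (.cst m) (.mul (.var 6) (.sub (.nat 1) (.var 1))))) <|
  .slet (.add (.var 8) (.mul (.var 4) (.add (.mul (.mul (.mul (.rat 1 2) (.var 3)) (.sq (.var 7)))
      (.sub (.nat 1) (.sq (.var 2)))) (.sq (.mul (.var 12) (.var 1)))))) <|
  .slet (.mul (.var 8) (.var 3)) <|
  .cut 3 9 <| r

/-- A near cell, forward mode. -/
def nF (m : ℕ) (r : Ck) : Ck :=
  .pop <|
  .pop <|
  .pop <|
  .pop <|
  .pop <|
  .pop <|
  .pop <|
  .pop <|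
  .slet (.mul (.var 7) (.var 11)) <|
  .slet (.exp (.neg (.var 0))) <|
  .uabs (.var 1) <|
  .slet (.mul (.var 11) (.sub (.nat 1) (.var 1))) <|
  .slet (.mul (.var 16) (.var 6)) <|
  .uabs (.var 13) <|
  .slet (.add (.var 16) (.mul (.cst m) (.var 2))) <|
  .slet (.add (.var 16) (.mul (.var 7) (.add (.add (.sq (.add (.var 3) (.var 2))) (.mul (.rat 1
      12) (.sq (.add (.mul (.sq (.var 4)) (.var 1)) (.mul (.add (.var 4) (.var 8)) (.var 2))))))
      (.sq (.add (.var 2) (.mul (.var 20) (.var 4))))))) <|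
  .slet (.mul (.var 16) (.var 6)) <|
  .cut 3 17 <| r

/-- Point test and tail, forward mode. -/
def tlF (w : ℕ) (r : Ck) : Ck :=
  .uabs (.var 0) <|
  .uabs (.var 7) <|
  .slet (.sq (.add (.cst w) (.var 0))) <|
  .slet (.add (.add (.var 4) (.mul (.add (.sq (.var 2)) (.sq (.var 8))) (.var 15))) (.mul (.add
      (.mul (.var 2) (.add (.mul (.var 7) (.add (.nat 1) (.var 0))) (.mul (.add (.var 7) (.mul
      (.var 1) (.var 2))) (.var 0)))) (.mul (.mul (.var 8) (.var 7)) (.var 20))) (.var 16))) <|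
  .slet (.mul (.nat 2) (.mul (.var 7) (.var 12))) <|
  .slet (.var 10) <|
  .slet (.var 10) <|
  .slet (.var 9) <|
  .slet (.var 4) <|
  .slet (.var 4) <|
  .cut 5 12 <| r

/-- The mean, first form. -/
def muA  (r : Ck) : Ck :=
  .rcp 1 (.sub (.rat 39 50) (.var 0)) <|
  .le (.nat 1) (.mul (.var 0) (.sub (.rat 39 50) (.var 1))) <|
  .slet (.mul (.mul (.var 21) (.add (.nat 1) (.mul (.var 4) (.var 20)))) (.var 0)) <|
  .cut 1 1 <| r

/-- The mean, second form. -/
def muB  (r : Ck) : Ck :=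
  .rcp 1 (.sub (.var 0) (.rat 3 5)) <|
  .le (.nat 1) (.mul (.var 0) (.sub (.var 1) (.rat 3 5))) <|
  .slet (.mul (.var 22) (.var 0)) <|
  .cut 1 1 <| r

/-- End of a box of the forward mode. -/
def endF  (r : Ck) : Ck :=
  .rcp 2 (.sub (.nat 1) (.var 1)) <|
  .le (.mul (.var 0) (.sub (.nat 1) (.var 2))) (.nat 1) <|
  .slet (.sub (.add (.mul (.mul (.nat 2) (.var 18)) (.var 0)) (.var 4)) (.mul (.mul (.nat 2) (.var
      19)) (.add (.var 1) (.mul (.mul (.rat 1283 1000) (.var 22)) (.add (.var 6) (.mul (.var 5)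
      (.var 21))))))) <|
  .le (.nat 0) (.var 0) <|
  .lt (.mul (.var 12) (.var 4)) (.sq (.var 0)) <| r

/-- The last box reaches the end of the range. -/
def stopF (zz : ℕ) (r : Ck) : Ck :=
  .le (.nat 1) (.mul (.nat 2) (.mul (.cst zz) (.var 1))) <| r

/-- Start of the unbounded mode. -/
def begU (zz d0 mm : ℕ) (r : Ck) : Ck :=
  .slet (.cst zz) <|
  .slet (.mul (.var 0) (.var 3)) <|
  .le (.cst d0) (.mul (.nat 2) (.mul (.var 1) (.var 3))) <|
  .slet (.var 5) <|
  .slet (.nat 0) <|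
  kqP <|
  .uabs (.mul (.var 8) (.nat 2)) <|
  .le (.var 0) (.nat 1) <|
  .le (.mul (.sub (.mul (.rat 1 2) (.nat 2)) (.nat 0)) (.var 8)) (.nat 1) <|
  .uabs (.var 1) <|
  .rcp 1 (.nat 2) <|
  .le (.nat 1) (.mul (.var 0) (.nat 2)) <|
  .uabs (.mul (.exp (.sub (.sub (.sub (.mul (.mul (.mul (.rat 1 24) (.var 1)) (.add (.nat 1) (.var
      2))) (.sq (.nat 2))) (.var 7)) (.mul (.var 6) (.nat 0))) (.var 5))) (.var 0)) <|
  .slet (.mul (.rat 14 5) (.var 0)) <|
  .slet (.neg (.mul (.cst mm) (.var 0))) <|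
  .slet (.mul (.mul (.nat 2) (.sq (.var 2))) (.var 18)) <|
  .slet (.exp (.neg (.var 11))) <|
  .slet (.var 11) <|
  .slet (.var 4) <|
  .slet (.var 6) <|
  .slet (.var 15) <|
  .slet (.var 6) <|
  .slet (.var 6) <|
  .slet (.var 6) <|
  .cut 7 13 <| r

/-- The first cell, unbounded mode. -/
def lU (v0 : ℕ) (r : Ck) : Ck :=
  .pop <|
  .pop <|
  .slet (.mul (.var 1) (.var 5)) <|
  .le (.nat 2) (.var 0) <|
  .slet (.add (.var 4) (.mul (.var 1) (.mul (.mul (.sq (.var 8)) (.var 0)) (.add (.var 0) (.mul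
      (.rat 1 2) (.cst v0)))))) <|
  .slet (.mul (.rat 1 4) (.var 2)) <|
  .slet (.mul (.mul (.rat 1 4) (.cst v0)) (.var 3)) <|
  .slet (.var 2) <|
  .slet (.var 7) <|
  .slet (.var 2) <|
  .slet (.var 4) <|
  .cut 4 8 <| r

/-- A far cell, unbounded mode. -/
def fU  (r : Ck) : Ck :=
  .pop <|
  .pop <|
  .pop <|
  .uabs (.mul (.var 2) (.var 8)) <|
  .uabs (.exp (.neg (.mul (.add (.nat 1) (.var 2)) (.var 9)))) <|
  .slet (.add (.var 8) (.mul (.var 2) (.add (.sq (.mul (.var 1) (.var 0))) (.sq (.mul (.var 12)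
      (.var 1)))))) <|
  .slet (.var 0) <|
  .slet (.var 9) <|
  .slet (.var 9) <|
  .slet (.var 9) <|
  .cut 4 10 <| r

/-- A near cell, unbounded mode. -/
def nU  (r : Ck) : Ck :=
  .pop <|
  .pop <|
  .pop <|
  .pop <|
  .pop <|
  .pop <|
  .pop <|
  .pop <|
  .uabs (.mul (.var 7) (.var 13)) <|
  .uabs (.exp (.neg (.mul (.add (.nat 1) (.var 7)) (.var 14)))) <|
  .slet (.mul (.var 16) (.var 4)) <|
  .slet (.add (.var 14) (.mul (.var 3) (.add (.sq (.add (.mul (.var 2) (.var 1)) (.var 0))) (.sq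
      (.add (.var 0) (.mul (.var 18) (.var 2))))))) <|
  .slet (.var 0) <|
  .slet (.var 15) <|
  .slet (.var 15) <|
  .slet (.var 15) <|
  .cut 4 16 <| r

/-- Point test and tail, unbounded mode. -/
def tlU (w : ℕ) (r : Ck) : Ck :=
  .uabs (.var 8) <|
  .slet (.sq (.add (.cst w) (.var 0))) <|
  .uabs (.add (.add (.var 5) (.mul (.add (.sq (.var 4)) (.sq (.var 9))) (.var 16))) (.mul (.add
      (.mul (.var 4) (.add (.mul (.var 8) (.add (.nat 1) (.var 0))) (.mul (.add (.var 8) (.mul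
      (.var 1) (.var 4))) (.var 0)))) (.mul (.mul (.var 9) (.var 8)) (.var 21))) (.var 17))) <|
  .slet (.var 10) <|
  .slet (.var 10) <|
  .slet (.var 9) <|
  .slet (.var 7) <|
  .slet (.var 7) <|
  .slet (.var 5) <|
  .cut 6 12 <| r

/-- A box of the unbounded mode. -/
def boxU (d1 d3 : ℕ) (r : Ck) : Ck :=
  .box d1 d3 <|
  .slet (.add (.add (.var 1) (.var 2)) (.mul (.var 3) (.var 0))) <|
  .slet (.var 0) <|
  .slet (.var 2) <|
  .cut 2 5 <| r

/-- A cell: right node `(cz, bz)`, weight, shift, envelope constant. -/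
structure Cell : Type where
  cz : ℕ
  bz : ℕ
  bb : ℕ
  m : ℕ
  rr : ℕ

/-- A box of the backward mode: right end and two normalisation constants. -/
structure BxB : Type where
  z : ℕ
  e0 : ℕ
  th : ℕ

/-- A box of the forward mode: right end, anchor, form of the mean. -/
structure BxF : Type where
  z : ℕ
  mu : ℕ
  dl : ℕ
  a : Bool

/-- A box of the unbounded mode: right end, form of the mean. -/
structure BxU : Type where
  z : ℕ
  a : Bool

/-- A certificate for a range of dimensions. -/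
structure Cert : Type where
  n1 : ℕ
  n2 : ℕ
  plo : ℕ
  phi : ℕ
  big : Bool
  inf : Bool
  far : Bool
  lp : ℕ
  lv : ℕ
  lq : ℕ
  u : ℕ
  g : ℕ
  n0 : ℕ
  eta : ℕ
  eps : ℕ
  et0 : ℕ
  lf : ℕ
  bf : ℕ
  lcz : ℕ
  lbb : ℕ
  v0 : ℕ
  gl : ℕ
  xc : ℕ
  xe : ℕ
  bi : ℕ
  mi : ℕ
  rc : ℕ
  bt : ℕ
  w : ℕ
  b2 : ℕ
  mm : ℕ
  fs : List Cell
  ns : List Cell
  gs : List ℕ

/-- Process the cells from left to right; `f` gets the left node. -/
noncomputable def fwd (f : ℕ → ℕ → Cell → Ck → Ck) (cs : List Cell) : ℕ → ℕ → Ck → Ck :=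
  List.rec (fun _ _ r => r) (fun c _ ih ca ba r => f ca ba c (ih c.cz c.bz r)) cs

/-- Process the cells from right to left; `f` gets the left node. -/
noncomputable def bwd (f : ℕ → ℕ → Cell → Ck → Ck) (cs : List Cell) : ℕ → ℕ → Ck → Ck :=
  List.rec (fun _ _ r => r) (fun c _ ih ca ba r => ih c.cz c.bz (f ca ba c r)) cs

/-- The last node. -/
noncomputable def lastN (cs : List Cell) : ℕ → ℕ → ℕ × ℕ :=
  List.rec (fun ca ba => (ca, ba)) (fun c _ ih _ _ => ih c.cz c.bz) cs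

/-- The last entry. -/
noncomputable def lastG (gs : List ℕ) : ℕ → ℕ := List.rec (fun a => a) (fun b _ ih _ => ih b) gs

noncomputable def datN1 (mm ca ba : ℕ) (c : Cell) (r : Ck) : Ck :=
  cond (Nat.ble c.bz 4722366482869645213696 && Nat.ble 4722366482869645213696 c.cz)
    (datN ca ba c.cz c.bz c.bb c.m c.rr mm r)
    (chkR c.cz c.bz c.rr (datN ca ba c.cz c.bz c.bb c.m c.rr mm r))

noncomputable def datF1 (mm ca ba : ℕ) (c : Cell) (r : Ck) : Ck :=
  datF ca ba c.cz c.bz c.bb c.m mm r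

noncomputable def datGs (gs : List ℕ) : ℕ → Ck → Ck :=
  List.rec (fun _ r => r) (fun b _ ih a r => datG a b (ih b r)) gs

noncomputable def gBs (gs : List ℕ) : Ck → Ck :=
  List.rec (fun r => r) (fun _ _ ih r => ih (gB r)) gs

namespace Cert
variable (C : Cert)

/-- The left node of the first near cell. -/
def na : ℕ := cond C.far 4722366482869645213696 4723519404374252060672
def nb : ℕ := cond C.far C.bf 4722366482869645213696

noncomputable def head2 (r : Ck) : Ck :=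
  par C.g C.n0 C.n1 C.eta C.eps C.et0 C.lf (cond C.far (parF C.bf r) (parN r))

noncomputable def head1 (r : Ck) : Ck :=
  cond C.inf (tauI C.u (C.head2 r)) (tauF C.lp C.lv C.lq (C.head2 r))

noncomputable def head (r : Ck) : Ck := cond C.big (vhB (C.head1 r)) (vhA (C.head1 r))

noncomputable def glb (r : Ck) : Ck := glob C.xc C.bi C.mi C.rc C.bt C.w C.b2 C.mm C.lf r

noncomputable def datB1 (r : Ck) : Ck :=
  fwd (datN1 C.mm) C.ns C.na C.nb (datGs C.gs C.xc (C.glb (globE C.xe r)))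

noncomputable def datB (r : Ck) : Ck :=
  cond C.far (datL C.lcz C.lbb C.v0 C.gl C.eps
    (fwd (datF1 C.mm) C.fs C.lcz 4722366482869645213696 (C.datB1 r))) (C.datB1 r)

noncomputable def datFw (r : Ck) : Ck :=
  bwd (datN1 C.mm) C.ns C.na C.nb (cond C.far (bwd (datF1 C.mm) C.fs C.lcz 4722366482869645213696
    (datL C.lcz C.lbb C.v0 C.gl C.eps (C.glb r))) (C.glb r))

noncomputable def boxB (z1 : ℕ) (b : BxB) : Ck :=
  begB z1 b.z b.e0 b.th C.xe (gBs C.gs (swB C.xc C.mi C.w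
    (bwd (fun _ _ c => nB c.m) C.ns C.na C.nb (cond C.far
      (bwd (fun _ _ c => fB c.m) C.fs C.lcz 4722366482869645213696 (lB C.v0 (endB .done)))
      (endB .done)))))

noncomputable def fin (a : Bool) : Ck := cond a (muA (endF .done)) (muB (endF .done))

noncomputable def boxF1 (a : Bool) : Ck :=
  fwd (fun _ _ c => nF c.m) C.ns C.na C.nb (tlF C.w (fin a))

noncomputable def boxF (z1 : ℕ) (b : BxF) : Ck :=
  begF z1 b.z b.mu b.dl C.mm (cond C.far (lF C.v0
    (fwd (fun _ _ c => fF c.m) C.fs C.lcz 4722366482869645213696 (C.boxF1 b.a))) (C.boxF1 b.a))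

noncomputable def boxesB (bs : List BxB) : ℕ → Ck :=
  List.rec (fun _ => .done) (fun b _ ih z1 => .both (C.boxB z1 b) (ih b.z)) bs

noncomputable def boxesF (bs : List BxF) : ℕ → Ck :=
  List.rec (fun _ => .done) (fun b _ ih z1 => .both (C.boxF z1 b) (ih b.z)) bs

noncomputable def boxesU (bs : List BxU) : ℕ → Ck :=
  List.rec (fun _ => .done) (fun b _ ih z1 => .both (boxU z1 b.z (fin b.a)) (ih b.z)) bs

noncomputable def allU (zz d0 : ℕ) (bs : List BxU) : Ck :=
  begU zz d0 C.mm (lU C.v0 (fwd (fun _ _ _ => fU) C.fs C.lcz 4722366482869645213696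
    (fwd (fun _ _ _ => nU) C.ns C.na C.nb (tlU C.w (boxesU bs d0)))))

/-- Discrete side conditions. -/
noncomputable def wf : Bool :=
  Nat.ble 97 C.n1 && Nat.ble C.n0 C.n1 &&
  cond C.big (Nat.ble 400 C.n1) (!C.inf && Nat.ble C.n2 400) &&
  Nat.ble 4722366482869645213696 C.phi &&
  Nat.ble (2 ^ 122) (Nat.mul C.n1 (Nat.pow (Nat.sub C.phi 4722366482869645213696) 2)) &&
  cond C.inf (Nat.ble C.plo 4722366482869645213696)
    (Nat.ble (Nat.mul C.n2 (Nat.pow (Nat.sub C.plo 4722366482869645213696) 2)) (2 ^ 122)) &&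
  Nat.beq (lastN C.ns C.na C.nb).1 4722366482869645213696 && Nat.beq (lastN C.ns C.na C.nb).2 C.xc &&
  Nat.beq (lastG C.gs C.xc) C.xe &&
  cond C.far (Nat.beq (lastN C.fs C.lcz 4722366482869645213696).1 4722366482869645213696 &&
    Nat.beq (lastN C.fs C.lcz 4722366482869645213696).2 C.bf &&
    C.ns.all fun c => Nat.beq c.cz 4722366482869645213696) true

noncomputable def chkB (z1 z2 : ℕ) (bs : List BxB) : Bool :=
  Nat.beq (lastG (bs.map BxB.z) z1) z2 && (C.head (C.datB (C.boxesB bs z1))).start C.plo C.phi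

noncomputable def chkF (z1 z2 : ℕ) (bs : List BxF) : Bool :=
  Nat.beq (lastG (bs.map BxF.z) z1) z2 && (C.head (C.datFw (C.boxesF bs z1))).start C.plo C.phi

noncomputable def chkS (zz : ℕ) : Bool := (C.head (C.datFw (stopF zz .done))).start C.plo C.phi

noncomputable def chkU (zz d0 : ℕ) (bs : List BxU) : Bool :=
  C.far && Nat.ble 4723519404374252060672 (lastG (bs.map BxU.z) d0) &&
    (C.head (C.datFw (C.allU zz d0 bs))).start C.plo C.phi

end Cert

end Pool.Agent.Eps.T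
end

-- part Pool.Agent.Lib.MP_3bda03_nt.T.Elim
section

/-! One step of a check program. -/

set_option autoImplicit false

namespace Pool.Agent.Eps.T.Ck.holds

variable {a b e f : Ex} {r : Ck} {s d : List ℝ}

theorem slet_raw (H : (Ck.slet e r).holds s d) : r.holds (e.val s :: s) d := H

theorem slet_elim (H : (Ck.slet e r).holds s d) : ∃ x : ℝ, x = e.val s ∧ r.holds (x :: s) d :=
  ⟨_, rfl, H⟩

theorem slet_var {i : ℕ} (H : (Ck.slet (.var i) r).holds s d) : r.holds (s.getD i 0 :: s) d := H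

theorem near_elim (H : (Ck.near e f r).holds s d) (t : ℝ) (h : |t - e.val s| ≤ f.val s) :
    r.holds (t :: s) d := H t h

theorem uabs_elim (H : (Ck.uabs e r).holds s d) : ∃ t : ℝ, |e.val s| ≤ t ∧ r.holds (t :: s) d := H

theorem rcp_elim {j : ℕ} (H : (Ck.rcp j e r).holds s d) : ∃ t : ℝ, 0 < t ∧ r.holds (t :: s) d := H

theorem le_elim (H : (Ck.le a b r).holds s d) : a.val s ≤ b.val s ∧ r.holds s d := H

theorem lt_elim (H : (Ck.lt a b r).holds s d) : a.val s < b.val s ∧ r.holds s d := H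

theorem push_var {i : ℕ} (H : (Ck.push (.var i) r).holds s d) : r.holds s (s.getD i 0 :: d) := H

theorem pop_elim {x : ℝ} (H : (Ck.pop r).holds s (x :: d)) : r.holds (x :: s) d := H

theorem box_elim {lo hi : ℕ} (H : (Ck.box lo hi r).holds s d) (t : ℝ) (h1 : val lo ≤ t)
    (h2 : t ≤ val hi) : r.holds (t :: s) d := H t h1 h2

theorem cut_elim {m n : ℕ} (H : (Ck.cut m n r).holds s d) :
    r.holds (s.take m ++ s.drop (m + n)) d := H

theorem both_elim {q : Ck} (H : (Ck.both q r).holds s d) : q.holds s d ∧ r.holds s d := H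

end Pool.Agent.Eps.T.Ck.holds
end
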