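import Mathlib
import Pool.Agent.Lib.MP_3bda03_nt.T.Elim

-- part Pool.Agent.Lib.MP_3bda03_nt.T.Spec0
section

/-! The meaning of the elementary programs, step by step (generated). -/

set_option autoImplicit false
set_option linter.unusedSimpArgs false

namespace Pool.Agent.Eps.T

theorem invP_spec  {r : Ck} {x : ℝ} {s d : List ℝ}  (H : (invP  r).holds (x :: s) (d)) :
    ∃ y : ℝ, 0 < y ∧
    ∃ u : ℝ, u = x * y - 1 ∧
    ∃ U : ℝ, |u| ≤ U ∧
    U ≤ (1 / 2 : ℝ) ∧
    ∃ h : ℝ, h = y * U ^ 2 * ((1 / 2 : ℝ) + U) ∧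
    ∀ t : ℝ, |t - (y * (1 - u) + h)| ≤ h →
    r.holds (t :: s) (d) := by
  unfold invP at H
  obtain ⟨y, k_, H⟩ := H.rcp_elim
  refine ⟨y, k_, ?_⟩
  clear k_
  obtain ⟨u, k_, H⟩ := H.slet_elim
  refine ⟨u, (by simpa only [Ex.val, List.getD_cons_zero, List.getD_cons_succ, Nat.cast_ofNat,
    Nat.cast_one, Nat.cast_zero] using k_), ?_⟩
  clear k_
  obtain ⟨U, k_, H⟩ := H.uabs_elim
  refine ⟨U, (by simpa only [Ex.val, List.getD_cons_zero, List.getD_cons_succ, Nat.cast_ofNat,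
    Nat.cast_one, Nat.cast_zero] using k_), ?_⟩
  clear k_
  obtain ⟨k_, H⟩ := H.le_elim
  refine ⟨(by simpa only [Ex.val, List.getD_cons_zero, List.getD_cons_succ, Nat.cast_ofNat,
    Nat.cast_one, Nat.cast_zero] using k_), ?_⟩
  clear k_
  obtain ⟨h, k_, H⟩ := H.slet_elim
  refine ⟨h, (by simpa only [Ex.val, List.getD_cons_zero, List.getD_cons_succ, Nat.cast_ofNat,
    Nat.cast_one, Nat.cast_zero] using k_), ?_⟩
  clear k_
  intro t k_
  replace H := H.near_elim t (by simpa only [Ex.val, List.getD_cons_zero, List.getD_cons_succ,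
    Nat.cast_ofNat, Nat.cast_one, Nat.cast_zero] using k_)
  clear k_
  replace H := H.cut_elim
  simpa only [List.take_succ_cons, List.take_zero, List.drop_succ_cons, List.drop_zero,
    List.cons_append, List.nil_append, List.getD_cons_zero, List.getD_cons_succ, Nat.reduceAdd]
    using H

theorem lgP_spec {y : ℕ} {r : Ck} {x : ℝ} {s d : List ℝ}  (H : (lgP y r).holds (x :: s) (d)) :
    ∃ u : ℝ, u = x * Real.exp (-val y) - 1 ∧
    ∃ U : ℝ, |u| ≤ U ∧
    U ≤ (1 / 2 : ℝ) ∧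
    ∃ h : ℝ, h = U ^ 2 * ((1 / 4 : ℝ) + (1 / 2 : ℝ) * U) ∧
    ∀ t : ℝ, |t - (val y + u - h)| ≤ h →
    r.holds (t :: s) (d) := by
  unfold lgP at H
  obtain ⟨u, k_, H⟩ := H.slet_elim
  refine ⟨u, (by simpa only [Ex.val, List.getD_cons_zero, List.getD_cons_succ, Nat.cast_ofNat,
    Nat.cast_one, Nat.cast_zero] using k_), ?_⟩
  clear k_
  obtain ⟨U, k_, H⟩ := H.uabs_elim
  refine ⟨U, (by simpa only [Ex.val, List.getD_cons_zero, List.getD_cons_succ, Nat.cast_ofNat,
    Nat.cast_one, Nat.cast_zero] using k_), ?_⟩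
  clear k_
  obtain ⟨k_, H⟩ := H.le_elim
  refine ⟨(by simpa only [Ex.val, List.getD_cons_zero, List.getD_cons_succ, Nat.cast_ofNat,
    Nat.cast_one, Nat.cast_zero] using k_), ?_⟩
  clear k_
  obtain ⟨h, k_, H⟩ := H.slet_elim
  refine ⟨h, (by simpa only [Ex.val, List.getD_cons_zero, List.getD_cons_succ, Nat.cast_ofNat,
    Nat.cast_one, Nat.cast_zero] using k_), ?_⟩
  clear k_
  intro t k_
  replace H := H.near_elim t (by simpa only [Ex.val, List.getD_cons_zero, List.getD_cons_succ,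
    Nat.cast_ofNat, Nat.cast_one, Nat.cast_zero] using k_)
  clear k_
  replace H := H.cut_elim
  simpa only [List.take_succ_cons, List.take_zero, List.drop_succ_cons, List.drop_zero,
    List.cons_append, List.nil_append, List.getD_cons_zero, List.getD_cons_succ, Nat.reduceAdd]
    using H

theorem sqrtP_spec {g : ℕ} {r : Ck} {x : ℝ} {s d : List ℝ}  (H : (sqrtP g r).holds (x :: s) (d)) :
    (0 : ℝ) < val g ∧
    ∃ xg : ℝ, xg = x * val g ∧
    ∃ u : ℝ, u = xg * val g - 1 ∧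
    ∃ U : ℝ, |u| ≤ U ∧
    U ≤ (1 / 4 : ℝ) ∧
    ∃ h : ℝ, h = (1 / 2 : ℝ) * U ^ 2 ∧
    ∀ t : ℝ, |t - (1 - (1 / 2 : ℝ) * u + h)| ≤ h →
    ∃ w : ℝ, w = xg * t ∧
    r.holds (w :: s) (d) := by
  unfold sqrtP at H
  obtain ⟨k_, H⟩ := H.lt_elim
  refine ⟨(by simpa only [Ex.val, List.getD_cons_zero, List.getD_cons_succ, Nat.cast_ofNat,
    Nat.cast_one, Nat.cast_zero] using k_), ?_⟩
  clear k_
  obtain ⟨xg, k_, H⟩ := H.slet_elim
  refine ⟨xg, (by simpa only [Ex.val, List.getD_cons_zero, List.getD_cons_succ, Nat.cast_ofNat,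
    Nat.cast_one, Nat.cast_zero] using k_), ?_⟩
  clear k_
  obtain ⟨u, k_, H⟩ := H.slet_elim
  refine ⟨u, (by simpa only [Ex.val, List.getD_cons_zero, List.getD_cons_succ, Nat.cast_ofNat,
    Nat.cast_one, Nat.cast_zero] using k_), ?_⟩
  clear k_
  obtain ⟨U, k_, H⟩ := H.uabs_elim
  refine ⟨U, (by simpa only [Ex.val, List.getD_cons_zero, List.getD_cons_succ, Nat.cast_ofNat,
    Nat.cast_one, Nat.cast_zero] using k_), ?_⟩
  clear k_
  obtain ⟨k_, H⟩ := H.le_elim
  refine ⟨(by simpa only [Ex.val, List.getD_cons_zero, List.getD_cons_succ, Nat.cast_ofNat,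
    Nat.cast_one, Nat.cast_zero] using k_), ?_⟩
  clear k_
  obtain ⟨h, k_, H⟩ := H.slet_elim
  refine ⟨h, (by simpa only [Ex.val, List.getD_cons_zero, List.getD_cons_succ, Nat.cast_ofNat,
    Nat.cast_one, Nat.cast_zero] using k_), ?_⟩
  clear k_
  intro t k_
  replace H := H.near_elim t (by simpa only [Ex.val, List.getD_cons_zero, List.getD_cons_succ,
    Nat.cast_ofNat, Nat.cast_one, Nat.cast_zero] using k_)
  clear k_
  obtain ⟨w, k_, H⟩ := H.slet_elim
  refine ⟨w, (by simpa only [Ex.val, List.getD_cons_zero, List.getD_cons_succ, Nat.cast_ofNat,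
    Nat.cast_one, Nat.cast_zero] using k_), ?_⟩
  clear k_
  replace H := H.cut_elim
  simpa only [List.take_succ_cons, List.take_zero, List.drop_succ_cons, List.drop_zero,
    List.cons_append, List.nil_append, List.getD_cons_zero, List.getD_cons_succ, Nat.reduceAdd]
    using H

theorem kqP_spec  {r : Ck} {xi p : ℝ} {s d : List ℝ}  (H : (kqP  r).holds (xi :: p :: s) (d)) :
    ∃ x : ℝ, x = p * xi ∧
    ∃ X : ℝ, |x| ≤ X ∧
    X ≤ 2 ∧
    ∀ ps : ℝ, |ps - ((1 / 2 : ℝ) + x * ((1 / 6 : ℝ) + x * ((1 / 24 : ℝ) + x * ((1 / 120 : ℝ) + x *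
      ((1 / 720 : ℝ) + x * ((1 / 5040 : ℝ) + x * ((1 / 40320 : ℝ) + x * ((1 / 362880 : ℝ) + x * (1
      / 3628800 : ℝ)))))))))| ≤ ((X ^ 2) ^ 2) ^ 2 * X * (2 / 39916800 : ℝ) →
    ∃ l : ℝ, l = -(xi ^ 2 * ps) ∧
    ∃ ch : ℝ, ch = 1 + x * ps ∧
    ∃ q : ℝ, q = xi * ch ∧
    ∃ ep : ℝ, ep = 1 + x * ch ∧
    r.holds (ep :: q :: l :: s) (d) := by
  unfold kqP at H
  obtain ⟨x, k_, H⟩ := H.slet_elim
  refine ⟨x, (by simpa only [Ex.val, List.getD_cons_zero, List.getD_cons_succ, Nat.cast_ofNat,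
    Nat.cast_one, Nat.cast_zero] using k_), ?_⟩
  clear k_
  obtain ⟨X, k_, H⟩ := H.uabs_elim
  refine ⟨X, (by simpa only [Ex.val, List.getD_cons_zero, List.getD_cons_succ, Nat.cast_ofNat,
    Nat.cast_one, Nat.cast_zero] using k_), ?_⟩
  clear k_
  obtain ⟨k_, H⟩ := H.le_elim
  refine ⟨(by simpa only [Ex.val, List.getD_cons_zero, List.getD_cons_succ, Nat.cast_ofNat,
    Nat.cast_one, Nat.cast_zero] using k_), ?_⟩
  clear k_
  intro ps k_
  replace H := H.near_elim ps (by simpa only [Ex.val, List.getD_cons_zero, List.getD_cons_succ,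
    Nat.cast_ofNat, Nat.cast_one, Nat.cast_zero] using k_)
  clear k_
  obtain ⟨l, k_, H⟩ := H.slet_elim
  refine ⟨l, (by simpa only [Ex.val, List.getD_cons_zero, List.getD_cons_succ, Nat.cast_ofNat,
    Nat.cast_one, Nat.cast_zero] using k_), ?_⟩
  clear k_
  obtain ⟨ch, k_, H⟩ := H.slet_elim
  refine ⟨ch, (by simpa only [Ex.val, List.getD_cons_zero, List.getD_cons_succ, Nat.cast_ofNat,
    Nat.cast_one, Nat.cast_zero] using k_), ?_⟩
  clear k_
  obtain ⟨q, k_, H⟩ := H.slet_elim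
  refine ⟨q, (by simpa only [Ex.val, List.getD_cons_zero, List.getD_cons_succ, Nat.cast_ofNat,
    Nat.cast_one, Nat.cast_zero] using k_), ?_⟩
  clear k_
  obtain ⟨ep, k_, H⟩ := H.slet_elim
  refine ⟨ep, (by simpa only [Ex.val, List.getD_cons_zero, List.getD_cons_succ, Nat.cast_ofNat,
    Nat.cast_one, Nat.cast_zero] using k_), ?_⟩
  clear k_
  have H := H.slet_var
  have H := H.slet_var
  have H := H.slet_var
  replace H := H.cut_elim
  simpa only [List.take_succ_cons, List.take_zero, List.drop_succ_cons, List.drop_zero,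
    List.cons_append, List.nil_append, List.getD_cons_zero, List.getD_cons_succ, Nat.reduceAdd]
    using H

theorem shP_spec  {r : Ck} {cd l : ℝ} {s d : List ℝ}  (H : (shP  r).holds (cd :: l :: s) (d)) :
    ∃ u : ℝ, u = (1 / 24 : ℝ) * l ^ 2 ∧
    ∃ U : ℝ, |u| ≤ U ∧
    U ≤ 1 ∧
    ∃ lo : ℝ, lo = (1 / 2 : ℝ) * cd * (1 + 6 * U) ∧
    ∃ hi : ℝ, hi = (1 / 4 : ℝ) * U ^ 2 ∧
    ∀ t : ℝ, |t - (1 + u + (hi - lo))| ≤ hi + lo →
    r.holds (t :: s) (d) := by
  unfold shP at H
  obtain ⟨u, k_, H⟩ := H.slet_elim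
  refine ⟨u, (by simpa only [Ex.val, List.getD_cons_zero, List.getD_cons_succ, Nat.cast_ofNat,
    Nat.cast_one, Nat.cast_zero] using k_), ?_⟩
  clear k_
  obtain ⟨U, k_, H⟩ := H.uabs_elim
  refine ⟨U, (by simpa only [Ex.val, List.getD_cons_zero, List.getD_cons_succ, Nat.cast_ofNat,
    Nat.cast_one, Nat.cast_zero] using k_), ?_⟩
  clear k_
  obtain ⟨k_, H⟩ := H.le_elim
  refine ⟨(by simpa only [Ex.val, List.getD_cons_zero, List.getD_cons_succ, Nat.cast_ofNat,
    Nat.cast_one, Nat.cast_zero] using k_), ?_⟩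
  clear k_
  obtain ⟨lo, k_, H⟩ := H.slet_elim
  refine ⟨lo, (by simpa only [Ex.val, List.getD_cons_zero, List.getD_cons_succ, Nat.cast_ofNat,
    Nat.cast_one, Nat.cast_zero] using k_), ?_⟩
  clear k_
  obtain ⟨hi, k_, H⟩ := H.slet_elim
  refine ⟨hi, (by simpa only [Ex.val, List.getD_cons_zero, List.getD_cons_succ, Nat.cast_ofNat,
    Nat.cast_one, Nat.cast_zero] using k_), ?_⟩
  clear k_
  intro t k_
  replace H := H.near_elim t (by simpa only [Ex.val, List.getD_cons_zero, List.getD_cons_succ,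
    Nat.cast_ofNat, Nat.cast_one, Nat.cast_zero] using k_)
  clear k_
  replace H := H.cut_elim
  simpa only [List.take_succ_cons, List.take_zero, List.drop_succ_cons, List.drop_zero,
    List.cons_append, List.nil_append, List.getD_cons_zero, List.getD_cons_succ, Nat.reduceAdd]
    using H

end Pool.Agent.Eps.T
end

-- part Pool.Agent.Lib.MP_3bda03_nt.T.SndA
section

/-! Soundness of the arithmetic of affine forms. -/

set_option autoImplicit false

namespace Pool.Agent.Eps.T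

theorem frc_eq (n : ℕ) (k : ℕ → Bool) : frc n k = k n := by
  cases n <;> rfl

theorem frp_true {n : ℕ} {k : ℕ → Bool} (h : frp n k = true) : n ≠ 0 ∧ k n = true := by
  cases n with
  | zero => exact absurd h Bool.false_ne_true
  | succ n => exact ⟨Nat.succ_ne_zero n, h⟩

theorem val_bias : val 4722366482869645213696 = 0 := by
  norm_num [val]

theorem val_one : val 4723519404374252060672 = 1 := by
  norm_num [val]

theorem val_le_val {x y : ℕ} : val x ≤ val y ↔ x ≤ y := by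
  unfold val
  rw [div_le_div_iff_of_pos_right (by positivity), sub_le_sub_iff_right, Nat.cast_le]

theorem val_add_bias (m : ℕ) : val (m + 4722366482869645213696) = mag m := by
  unfold val mag
  push_cast
  ring

theorem val_add_mag (c m : ℕ) : val (c + m) = val c + mag m := by
  unfold val mag
  push_cast
  ring

theorem mag_nonneg (m : ℕ) : 0 ≤ mag m := by
  unfold mag
  positivity

theorem mag_add (a b : ℕ) : mag (a + b) = mag a + mag b := by
  unfold mag
  push_cast
  ring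

theorem mag_mono {a b : ℕ} (h : a ≤ b) : mag a ≤ mag b :=
  div_le_div_of_nonneg_right (Nat.cast_le.2 h) (by positivity)

theorem snda_ab (x : ℕ) :
    ab x = (x - 4722366482869645213696) + (4722366482869645213696 - x) := rfl

theorem abs_val (x : ℕ) : |val x| = mag (ab x) := by
  unfold val mag
  rw [snda_ab, abs_div, abs_of_pos (show (0 : ℝ) < 2 ^ 60 by positivity)]
  congr 1
  rcases le_total x 4722366482869645213696 with h | h
  · have h' : (x : ℝ) ≤ 2 ^ 72 := by exact_mod_cast h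
    rw [Nat.sub_eq_zero_of_le h, zero_add, Nat.cast_sub h, abs_of_nonpos (by linarith)]
    norm_num
  · have h' : (2 : ℝ) ^ 72 ≤ x := by exact_mod_cast h
    rw [Nat.sub_eq_zero_of_le h, add_zero, Nat.cast_sub h, abs_of_nonneg (by linarith)]
    norm_num

theorem snda_sub {a b : ℕ} (h : a - b ≠ 0) : ((a - b : ℕ) : ℝ) = a - b :=
  Nat.cast_sub (by omega)

theorem val_ba {x y : ℕ} (h : ba x y ≠ 0) : val (ba x y) = val x + val y := by
  have e : ((ba x y : ℕ) : ℝ) = ((x + y : ℕ) : ℝ) - (4722366482869645213696 : ℕ) := snda_sub h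
  unfold val
  rw [e]
  push_cast
  ring

theorem val_bs {x y : ℕ} (h : bs x y ≠ 0) : val (bs x y) = val x - val y := by
  have e : ((bs x y : ℕ) : ℝ) = ((x + 4722366482869645213696 : ℕ) : ℝ) - y := snda_sub h
  unfold val
  rw [e]
  push_cast
  ring

theorem val_bn {x : ℕ} (h : bn x ≠ 0) : val (bn x) = -val x := by
  have e : ((bn x : ℕ) : ℝ) = ((9444732965739290427392 : ℕ) : ℝ) - x := snda_sub h
  unfold val
  rw [e]
  push_cast
  ring

theorem snda_shift (N j : ℕ) :
    ((Nat.shiftRight N j : ℕ) : ℝ) ≤ N / 2 ^ j ∧ (N : ℝ) / 2 ^ j ≤ (Nat.shiftRight N j : ℕ) + 1 := by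
  have e : Nat.shiftRight N j = N / 2 ^ j := Nat.shiftRight_eq_div_pow N j
  rw [e]
  constructor
  · exact_mod_cast (Nat.cast_div_le : ((N / 2 ^ j : ℕ) : ℝ) ≤ (N : ℝ) / (2 ^ j : ℕ))
  · rw [div_le_iff₀ (by positivity)]
    have := (Nat.lt_div_mul_add (a := N) (show 0 < 2 ^ j by positivity)).le
    have h2 : (N : ℝ) ≤ ((N / 2 ^ j * 2 ^ j + 2 ^ j : ℕ) : ℝ) := Nat.cast_le.2 this
    push_cast at h2
    linarith

theorem snda_round {N M : ℕ} {T : ℝ} (h : Nat.shiftRight (Nat.sub N M) 60 ≠ 0)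
    (e : (N : ℝ) - M = T * 2 ^ 120 + 2 ^ 132) :
    |val (Nat.shiftRight (Nat.sub N M) 60) - T| ≤ mag 1 := by
  have h0 : N - M ≠ 0 := fun k => h (by
    rw [show Nat.sub N M = 0 from k]
    rfl)
  obtain ⟨h1, h2⟩ := snda_shift (Nat.sub N M) 60
  have e2 : ((Nat.sub N M : ℕ) : ℝ) = T * 2 ^ 120 + 2 ^ 132 := (snda_sub h0).trans e
  rw [e2] at h1 h2
  generalize Nat.shiftRight (Nat.sub N M) 60 = q at h1 h2
  unfold val mag
  rw [abs_le]
  constructor <;> norm_num at h1 h2 ⊢ <;> linarith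

theorem snda_shl (a : ℕ) : ((Nat.shiftLeft a 72 : ℕ) : ℝ) = a * 2 ^ 72 := by
  have e : Nat.shiftLeft a 72 = a * 2 ^ 72 := Nat.shiftLeft_eq a 72
  rw [e]
  push_cast
  ring

theorem val_bm {a x : ℕ} (h : bm a x ≠ 0) : |val (bm a x) - val a * val x| ≤ mag 1 := by
  refine snda_round h ?_
  rw [snda_shl]
  simp only [Nat.add_eq, Nat.mul_eq, val]
  push_cast
  ring

theorem val_bm2 {a b x y : ℕ} (h : bm2 a b x y ≠ 0) :
    |val (bm2 a b x y) - (val a * val y + val b * val x)| ≤ mag 1 := by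
  refine snda_round h ?_
  rw [snda_shl]
  simp only [Nat.add_eq, Nat.mul_eq, val]
  push_cast
  ring

theorem val_bq {m x : ℕ} (h : bq m x ≠ 0) : |val (bq m x) - mag m * val x| ≤ mag 1 := by
  refine snda_round h ?_
  rw [snda_shl]
  simp only [Nat.add_eq, Nat.mul_eq, val, mag]
  push_cast
  ring

variable {u v : ℝ}

theorem AE.itv {c e : ℕ} {t : ℝ} (h : |t - val c| ≤ mag e) : AE u v (AF.itv c e) t := by
  constructor
  · simp only [AF.itv, snda_ab, Nat.sub_self, add_zero, le_refl]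
  · simpa only [AF.itv, val_bias, zero_mul, add_zero] using h

theorem snda_mk {c x y e : ℕ} {t : ℝ} (h : |t - (val c + val x * u + val y * v)| ≤ mag e) :
    AE u v ⟨c, x, y, ab x + ab y, e⟩ t := ⟨Nat.le_refl (ab x + ab y), h⟩

theorem snda_lin (hu : |u| ≤ 1) (hv : |v| ≤ 1) {x y b : ℕ} (h : ab x + ab y ≤ b) :
    |val x * u + val y * v| ≤ mag b := by
  have h1 := mag_mono h
  rw [mag_add, ← abs_val, ← abs_val] at h1
  have h2 := abs_add_le (val x * u) (val y * v)
  rw [abs_mul, abs_mul] at h2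
  have h3 := mul_le_of_le_one_right (abs_nonneg (val x)) hu
  have h4 := mul_le_of_le_one_right (abs_nonneg (val y)) hv
  linarith

/-- the enclosed number is within `mag b + mag e` of the centre -/
theorem AE.abs_sub_le (hu : |u| ≤ 1) (hv : |v| ≤ 1) {a : AF} {t : ℝ} (h : AE u v a t) :
    |t - val a.c| ≤ mag a.b + mag a.e := by
  have h1 := abs_le.1 (snda_lin hu hv h.1)
  have h2 := abs_le.1 h.2
  rw [abs_le]
  constructor <;> linarith [h1.1, h1.2, h2.1, h2.2]

theorem AF.mk'_true {c x y e : ℕ} {k : AF → Bool} (h : AF.mk' c x y e k = true) :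
    c ≠ 0 ∧ x ≠ 0 ∧ y ≠ 0 ∧ k ⟨c, x, y, ab x + ab y, e⟩ = true := by
  obtain ⟨h1, h⟩ := frp_true h
  obtain ⟨h2, h⟩ := frp_true h
  obtain ⟨h3, h⟩ := frp_true h
  rw [frc_eq, frc_eq] at h
  exact ⟨h1, h2, h3, h⟩

theorem snda_mkI {c e : ℕ} {k : AF → Bool} (h : AF.mkI c e k = true) :
    c ≠ 0 ∧ k (AF.itv c e) = true := by
  obtain ⟨h1, h⟩ := frp_true h
  rw [frc_eq] at h
  exact ⟨h1, h⟩

theorem snda_zero {x y : ℕ} (h : ab x + ab y ≤ 0) : val x = 0 ∧ val y = 0 := by
  rw [snda_ab, snda_ab] at h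
  rw [show x = 4722366482869645213696 by omega, show y = 4722366482869645213696 by omega]
  exact ⟨val_bias, val_bias⟩

theorem snda_lin_sound {f : ℕ → ℕ → ℕ} {σ : ℝ} (hσ : |σ| = 1)
    (hf : ∀ x y, f x y ≠ 0 → val (f x y) = val x + σ * val y) {a b : AF} {s t : ℝ}
    {k : AF → Bool} (ha : AE u v a s) (hb : AE u v b t) (h : AF.lin f a b k = true) :
    ∃ c, AE u v c (s + σ * t) ∧ k c = true := by
  obtain ⟨ac, ax, ay, ab1, ae⟩ := a
  obtain ⟨bc, bx, bY, bb1, be⟩ := b
  have key : |s + σ * t - (val ac + σ * val bc + (val ax + σ * val bx) * u +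
      (val ay + σ * val bY) * v)| ≤ mag (ae + be) := by
    have e : s + σ * t - (val ac + σ * val bc + (val ax + σ * val bx) * u +
        (val ay + σ * val bY) * v) = (s - (val ac + val ax * u + val ay * v)) +
        σ * (t - (val bc + val bx * u + val bY * v)) := by ring
    rw [e, mag_add]
    refine (abs_add_le _ _).trans (add_le_add ha.2 ?_)
    rw [abs_mul, hσ, one_mul]
    exact hb.2
  cases bb1 with
  | zero =>
    replace h : frp (f ac bc) (fun c => frc (ae + be) fun e => k ⟨c, ax, ay, ab1, e⟩) = true := h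
    obtain ⟨h1, h⟩ := frp_true h
    rw [frc_eq] at h
    obtain ⟨z1, z2⟩ := snda_zero hb.1
    refine ⟨⟨f ac bc, ax, ay, ab1, ae + be⟩, ⟨ha.1, ?_⟩, h⟩
    simp only [z1, z2, mul_zero, add_zero] at key
    rw [← hf _ _ h1] at key
    exact key
  | succ n =>
    replace h : AF.mk' (f ac bc) (f ax bx) (f ay bY) (ae + be) k = true := h
    obtain ⟨h1, h2, h3, h⟩ := AF.mk'_true h
    refine ⟨_, snda_mk ?_, h⟩
    rw [← hf _ _ h1, ← hf _ _ h2, ← hf _ _ h3] at key
    exact key

theorem AF.add_sound {a b : AF} {s t : ℝ} {k : AF → Bool} (ha : AE u v a s) (hb : AE u v b t)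
    (h : AF.lin ba a b k = true) : ∃ c, AE u v c (s + t) ∧ k c = true := by
  simpa only [one_mul] using snda_lin_sound (σ := 1) abs_one
    (fun x y k => by rw [val_ba k, one_mul]) ha hb h

theorem AF.sub_sound {a b : AF} {s t : ℝ} {k : AF → Bool} (ha : AE u v a s) (hb : AE u v b t)
    (h : AF.lin bs a b k = true) : ∃ c, AE u v c (s - t) ∧ k c = true := by
  simpa only [neg_one_mul, ← sub_eq_add_neg] using snda_lin_sound (σ := -1) (by simp)
    (fun x y k => by rw [val_bs k]; ring) ha hb h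

theorem snda_ab_bn {x : ℕ} (h : bn x ≠ 0) : ab (bn x) = ab x := by
  have e : bn x = 9444732965739290427392 - x := rfl
  rw [snda_ab, snda_ab]
  omega

theorem AF.neg_sound {a : AF} {s : ℝ} {k : AF → Bool} (ha : AE u v a s)
    (h : AF.neg a k = true) : ∃ c, AE u v c (-s) ∧ k c = true := by
  obtain ⟨ac, ax, ay, b, e⟩ := a
  replace h : frp (bn ac) (fun c => frp (bn ax) fun x => frp (bn ay) fun y =>
    k ⟨c, x, y, b, e⟩) = true := h
  obtain ⟨h1, h⟩ := frp_true h
  obtain ⟨h2, h⟩ := frp_true h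
  obtain ⟨h3, h⟩ := frp_true h
  refine ⟨_, ⟨?_, ?_⟩, h⟩
  · show ab (bn ax) + ab (bn ay) ≤ b
    rw [snda_ab_bn h2, snda_ab_bn h3]
    exact ha.1
  · show |-s - (val (bn ac) + val (bn ax) * u + val (bn ay) * v)| ≤ mag e
    rw [val_bn h1, val_bn h2, val_bn h3, ← abs_neg]
    convert ha.2 using 2
    ring

theorem snda_mul {ac bc la lb s t ea eb Ba Bb : ℝ} (hs : |s - (ac + la)| ≤ ea)
    (ht : |t - (bc + lb)| ≤ eb) (ha : |la| ≤ Ba) (hb : |lb| ≤ Bb) :
    |s * t - (ac * bc + ac * lb + bc * la)| ≤ (Ba + ea) * (Bb + eb) + (ea * |bc| + eb * |ac|) := by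
  have e : s * t - (ac * bc + ac * lb + bc * la) = (la + (s - (ac + la))) * (lb + (t - (bc + lb))) +
      ((s - (ac + la)) * bc + (t - (bc + lb)) * ac) := by ring
  have h1 := (abs_add_le la _).trans (add_le_add ha hs)
  have h2 := (abs_add_le lb _).trans (add_le_add hb ht)
  rw [e]
  refine (abs_add_le _ _).trans (add_le_add ?_ ((abs_add_le _ _).trans (add_le_add ?_ ?_)))
  · rw [abs_mul]
    exact mul_le_mul h1 h2 (abs_nonneg _) ((abs_nonneg _).trans h1)
  · rw [abs_mul]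
    exact mul_le_mul_of_nonneg_right hs (abs_nonneg _)
  · rw [abs_mul]
    exact mul_le_mul_of_nonneg_right ht (abs_nonneg _)

theorem snda_pe (ac ab1 ae bc bb1 be : ℕ) :
    (mag ab1 + mag ae) * (mag bb1 + mag be) + (mag ae * |val bc| + mag be * |val ac|) +
      3 * mag 1 ≤ mag (AF.pe ac ab1 ae bc bb1 be) := by
  have h := (snda_shift ((ab1 + ae) * (bb1 + be) + (ae * ab bc + be * ab ac)) 60).2
  have e : AF.pe ac ab1 ae bc bb1 be =
      Nat.shiftRight ((ab1 + ae) * (bb1 + be) + (ae * ab bc + be * ab ac)) 60 + 4 := rfl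
  rw [e, abs_val, abs_val]
  generalize Nat.shiftRight ((ab1 + ae) * (bb1 + be) + (ae * ab bc + be * ab ac)) 60 = q at h
  unfold mag
  push_cast at h ⊢
  linarith

theorem snda_three (hu : |u| ≤ 1) (hv : |v| ≤ 1) {w c x y c' x' y' E μ : ℝ}
    (h : |w - (c + x * u + y * v)| ≤ E) (hc : |c' - c| ≤ μ) (hx : |x' - x| ≤ μ)
    (hy : |y' - y| ≤ μ) : |w - (c' + x' * u + y' * v)| ≤ E + 3 * μ := by
  have h1 : |(x' - x) * u| ≤ μ := by
    rw [abs_mul]; exact (mul_le_of_le_one_right (abs_nonneg _) hu).trans hx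
  have h2 : |(y' - y) * v| ≤ μ := by
    rw [abs_mul]; exact (mul_le_of_le_one_right (abs_nonneg _) hv).trans hy
  rw [abs_le] at h hc h1 h2 ⊢
  constructor <;> linarith [h.1, h.2, hc.1, hc.2, h1.1, h1.2, h2.1, h2.2]

theorem AF.mul_sound (hu : |u| ≤ 1) (hv : |v| ≤ 1) {a b : AF} {s t : ℝ} {k : AF → Bool}
    (ha : AE u v a s) (hb : AE u v b t) (h : AF.mul a b k = true) :
    ∃ c, AE u v c (s * t) ∧ k c = true := by
  obtain ⟨ac, ax, ay, ab1, ae⟩ := a
  obtain ⟨bc, bx, bY, bb1, be⟩ := b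
  have key : |s * t - (val ac * val bc + (val ac * val bx + val bc * val ax) * u +
      (val ac * val bY + val bc * val ay) * v)| ≤
      (mag ab1 + mag ae) * (mag bb1 + mag be) + (mag ae * |val bc| + mag be * |val ac|) := by
    have := snda_mul (ac := val ac) (bc := val bc) (s := s) (t := t) (ea := mag ae) (eb := mag be)
      (by rw [← add_assoc]; exact ha.2) (by rw [← add_assoc]; exact hb.2)
      (snda_lin hu hv ha.1) (snda_lin hu hv hb.1)
    convert this using 2
    ring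
  have h' : (Nat.rec (AF.mkI (bm ac bc) (AF.pe ac 0 ae bc 0 be) k)
      (fun _ _ => AF.mk' (bm ac bc) (bm2 ac bc ax bx) (bm2 ac bc ay bY)
        (AF.pe ac ab1 ae bc bb1 be) k) (ab1 + bb1) : Bool) = true := h
  generalize e : ab1 + bb1 = n at h'
  cases n with
  | zero =>
    obtain rfl : ab1 = 0 := by omega
    obtain rfl : bb1 = 0 := by omega
    obtain ⟨h1, h2⟩ := snda_mkI h'
    obtain ⟨z1, z2⟩ := snda_zero ha.1
    obtain ⟨z3, z4⟩ := snda_zero hb.1
    refine ⟨_, AE.itv ?_, h2⟩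
    have := (snda_three (x' := 0) (y' := 0) hu hv key (val_bm h1)
      (by simpa only [z1, z3, mul_zero, add_zero, sub_zero, abs_zero] using mag_nonneg 1)
      (by simpa only [z2, z4, mul_zero, add_zero, sub_zero, abs_zero] using mag_nonneg 1)).trans
      (snda_pe ac 0 ae bc 0 be)
    simpa only [zero_mul, add_zero] using this
  | succ n =>
    obtain ⟨h1, h2, h3, h4⟩ := AF.mk'_true h'
    exact ⟨_, snda_mk ((snda_three hu hv key (val_bm h1) (val_bm2 h2) (val_bm2 h3)).trans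
      (snda_pe ac ab1 ae bc bb1 be)), h4⟩

theorem snda_hsq (r : ℕ) : mag r ^ 2 ≤ 2 * mag (AF.hsq r) := by
  have h := (snda_shift (r * r) 61).2
  have e : AF.hsq r = Nat.shiftRight (r * r) 61 + 1 := rfl
  rw [e]
  generalize Nat.shiftRight (r * r) 61 = q at h
  unfold mag
  push_cast at h ⊢
  linarith

theorem snda_se (h e c : ℕ) : mag h + 2 * (mag e * |val c|) + 3 * mag 1 ≤
    mag (h + Nat.shiftRight (e * ab c) 59 + 4) := by
  have k := (snda_shift (e * ab c) 59).2
  rw [abs_val]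
  generalize Nat.shiftRight (e * ab c) 59 = q at k
  unfold mag
  push_cast at k ⊢
  linarith

theorem AF.sq_sound (hu : |u| ≤ 1) (hv : |v| ≤ 1) {a : AF} {s : ℝ} {k : AF → Bool}
    (ha : AE u v a s) (h : AF.sq a k = true) : ∃ c, AE u v c (s ^ 2) ∧ k c = true := by
  have h0 := ha.abs_sub_le hu hv
  obtain ⟨c, x, y, b, e⟩ := a
  have key : |s ^ 2 - (val c * val c + mag (AF.hsq (b + e)) + (val c * val x + val c * val x) * u +
      (val c * val y + val c * val y) * v)| ≤ mag (AF.hsq (b + e)) + 2 * (mag e * |val c|) := by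
    have e1 : s ^ 2 - (val c * val c + mag (AF.hsq (b + e)) + (val c * val x + val c * val x) * u +
        (val c * val y + val c * val y) * v) = ((s - val c) ^ 2 - mag (AF.hsq (b + e))) +
        2 * ((s - (val c + val x * u + val y * v)) * val c) := by ring
    have h1 : (s - val c) ^ 2 ≤ mag (b + e) ^ 2 := by
      rw [mag_add]
      exact sq_le_sq' (abs_le.1 h0).1 (abs_le.1 h0).2
    have h2 := snda_hsq (b + e)
    have h3 := sq_nonneg (s - val c)
    rw [e1]
    refine (abs_add_le _ _).trans (add_le_add (abs_le.2 ⟨by linarith, by linarith⟩) ?_)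
    rw [abs_mul, abs_mul, abs_two]
    exact mul_le_mul_of_nonneg_left (mul_le_mul_of_nonneg_right ha.2 (abs_nonneg _)) zero_le_two
  have h' : frc (AF.hsq (b + e)) (fun h => frp (bm c c) fun w =>
      Nat.rec (AF.mkI (w + h) (h + Nat.shiftRight (e * ab c) 59 + 4) k)
        (fun _ _ => AF.mk' (w + h) (bm2 c c x x) (bm2 c c y y)
          (h + Nat.shiftRight (e * ab c) 59 + 4) k) b) = true := h
  rw [frc_eq] at h'
  obtain ⟨h1, h'⟩ := frp_true h'
  have hc : |val (bm c c + AF.hsq (b + e)) - (val c * val c + mag (AF.hsq (b + e)))| ≤ mag 1 := by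
    rw [val_add_mag, add_sub_add_right_eq_sub]
    exact val_bm h1
  cases b with
  | zero =>
    obtain ⟨-, h2⟩ := snda_mkI h'
    obtain ⟨z1, z2⟩ := snda_zero ha.1
    refine ⟨_, AE.itv ?_, h2⟩
    have := (snda_three (x' := 0) (y' := 0) hu hv key hc
      (by simpa only [z1, mul_zero, add_zero, sub_zero, abs_zero] using mag_nonneg 1)
      (by simpa only [z2, mul_zero, add_zero, sub_zero, abs_zero] using mag_nonneg 1)).trans
      (snda_se _ e c)
    simpa only [zero_mul, add_zero] using this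
  | succ n =>
    obtain ⟨-, h2, h3, h4⟩ := AF.mk'_true h'
    exact ⟨_, snda_mk ((snda_three hu hv key hc (val_bm2 h2) (val_bm2 h3)).trans
      (snda_se _ e c)), h4⟩

end Pool.Agent.Eps.T
end

-- part Pool.Agent.Lib.MP_3bda03_nt.T.SndE
section

/-! Soundness of the exponential of affine forms. -/

set_option autoImplicit false

namespace Pool.Agent.Eps.T

private theorem snde_div_le (m d : ℕ) : ((m / d : ℕ) : ℝ) ≤ (m : ℝ) / d := Nat.cast_div_le

private theorem snde_le_div (m d : ℕ) (hd : 0 < d) : (m : ℝ) / d ≤ ((m / d : ℕ) : ℝ) + 1 := by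
  have h1 : m < (m / d + 1) * d := by
    have := Nat.lt_div_mul_add (a := m) hd
    rw [add_mul, one_mul]
    exact this
  have h2 : (m : ℝ) ≤ (((m / d : ℕ) : ℝ) + 1) * d := by exact_mod_cast h1.le
  rw [div_le_iff₀ (by exact_mod_cast hd)]
  exact h2

private theorem snde_tay (y : ℕ) :
    (tay y : ℝ) = 5040 * 2 ^ 420 * ∑ m ∈ Finset.range 8, mag y ^ m / (m.factorial : ℝ) := by
  have h : tay y = ((((((y + 7 * 2 ^ 60) * y + 42 * 2 ^ 120) * y + 210 * 2 ^ 180) * y +
      840 * 2 ^ 240) * y + 2520 * 2 ^ 300) * y + 5040 * 2 ^ 360) * y + 5040 * 2 ^ 420 := by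
    unfold tay
    simp only [Nat.add_eq, Nat.mul_eq, Nat.shiftLeft_eq', Nat.shiftLeft_eq]
  rw [h]
  have hy : (y : ℝ) = mag y * 2 ^ 60 := by
    unfold mag
    field_simp
  generalize mag y = Y at hy
  have e1 : (2 : ℝ) ^ 120 = (2 ^ 60) ^ 2 := by rw [← pow_mul]
  have e2 : (2 : ℝ) ^ 180 = (2 ^ 60) ^ 3 := by rw [← pow_mul]
  have e3 : (2 : ℝ) ^ 240 = (2 ^ 60) ^ 4 := by rw [← pow_mul]
  have e4 : (2 : ℝ) ^ 300 = (2 ^ 60) ^ 5 := by rw [← pow_mul]
  have e5 : (2 : ℝ) ^ 360 = (2 ^ 60) ^ 6 := by rw [← pow_mul]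
  have e6 : (2 : ℝ) ^ 420 = (2 ^ 60) ^ 7 := by rw [← pow_mul]
  simp only [Nat.cast_add, Nat.cast_mul, Nat.cast_pow, Nat.cast_ofNat]
  rw [hy, e1, e2, e3, e4, e5, e6]
  generalize (2 : ℝ) ^ 60 = P
  simp only [Finset.sum_range_succ, Finset.sum_range_zero, Nat.factorial]
  push_cast
  ring

/-- one factor of the power -/
private theorem snde_step {y : ℕ} (hy : y < 2 ^ 57) {z : ℝ} (h1 : mag y ≤ z)
    (h2 : z ≤ mag y + 1 / 2 ^ 60) :
    mag (tay y / 2 ^ 360 / 5040) ≤ Real.exp z ∧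
      Real.exp z ≤ mag (tay y / 2 ^ 360 / 5040 + 4194304) := by
  have hY0 : 0 ≤ mag y := mag_nonneg y
  have hY1 : mag y ≤ 1 / 8 := by
    unfold mag
    have : (y : ℝ) ≤ 2 ^ 57 := by exact_mod_cast hy.le
    rw [div_le_div_iff₀ (by positivity) (by norm_num)]
    nlinarith
  have ht := snde_tay y
  rw [Nat.div_div_eq_div_mul]
  have hq : (tay y : ℝ) / ((2 ^ 360 * 5040 : ℕ) : ℝ) =
      2 ^ 60 * ∑ m ∈ Finset.range 8, mag y ^ m / (m.factorial : ℝ) := by
    have e6 : (2 : ℝ) ^ 420 = 2 ^ 360 * 2 ^ 60 := by rw [← pow_add]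
    rw [ht, e6]
    simp only [Nat.cast_mul, Nat.cast_pow, Nat.cast_ofNat]
    generalize (∑ m ∈ Finset.range 8, mag y ^ m / (m.factorial : ℝ)) = T
    have hp : (0 : ℝ) < 2 ^ 360 := by positivity
    generalize (2 : ℝ) ^ 360 = Q at hp
    generalize (2 : ℝ) ^ 60 = P
    field_simp
  have hl := snde_div_le (tay y) (2 ^ 360 * 5040)
  have hu := snde_le_div (tay y) (2 ^ 360 * 5040) (by positivity)
  rw [hq] at hl hu
  have hT1 := Real.sum_le_exp_of_nonneg hY0 8
  have hT2 := Real.exp_bound (x := mag y) (by rw [abs_of_nonneg hY0]; linarith) (n := 8)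
    (by norm_num)
  generalize tay y / (2 ^ 360 * 5040) = l at hl hu ⊢
  generalize (∑ m ∈ Finset.range 8, mag y ^ m / (m.factorial : ℝ)) = T at hl hu hT1 hT2
  rw [abs_of_nonneg hY0] at hT2
  have hp : mag y ^ 8 ≤ (1 / 8) ^ 8 := pow_le_pow_left₀ hY0 hY1 8
  have hT3 : Real.exp (mag y) ≤ T + 2000000 / 2 ^ 60 := by
    have h3 := (abs_le.1 hT2).2
    have h4 : ((Nat.succ 8 : ℕ) : ℝ) / (((8 : ℕ).factorial : ℝ) * (8 : ℕ)) = 9 / 322560 := by
      simp only [Nat.factorial]
      norm_num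
    rw [h4] at h3
    have h5 : ((1 : ℝ) / 8) ^ 8 * (9 / 322560) ≤ 2000000 / 2 ^ 60 := by norm_num
    nlinarith
  constructor
  · have : mag l ≤ T := by
      unfold mag
      rw [div_le_iff₀ (by positivity)]
      linarith
    exact this.trans (hT1.trans (Real.exp_le_exp.2 h1))
  · have he1 : Real.exp (mag y) ≤ 3 := by
      have := Real.exp_le_exp.2 (hY1.trans (by norm_num : (1 / 8 : ℝ) ≤ 1))
      have h6 := Real.exp_one_lt_d9
      linarith
    have he2 : Real.exp (1 / 2 ^ 60) ≤ 1 + 2 / 2 ^ 60 := by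
      have h7 := Real.abs_exp_sub_one_le (x := 1 / 2 ^ 60) (by
        rw [abs_of_nonneg (by positivity)]; norm_num)
      rw [abs_of_nonneg (by positivity : (0 : ℝ) ≤ 1 / 2 ^ 60)] at h7
      have h8 := (abs_le.1 h7).2
      linarith
    have he3 : Real.exp z ≤ Real.exp (mag y) * (1 + 2 / 2 ^ 60) := by
      refine (Real.exp_le_exp.2 h2).trans ?_
      rw [Real.exp_add]
      exact mul_le_mul_of_nonneg_left he2 (Real.exp_pos _).le
    have hT4 : T ≤ ((l : ℝ) + 1) / 2 ^ 60 := by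
      rw [le_div_iff₀ (by positivity)]
      linarith
    have hm : mag (l + 4194304) = ((l : ℝ) + 1) / 2 ^ 60 + 4194303 / 2 ^ 60 := by
      unfold mag
      push_cast
      ring
    rw [hm]
    have h9 : Real.exp (mag y) * (2 / 2 ^ 60) ≤ 3 * (2 / 2 ^ 60) :=
      mul_le_mul_of_nonneg_right he1 (by positivity)
    linarith

private theorem snde_pow (l n : ℕ) :
    ((l ^ (n + 1) : ℕ) : ℝ) / ((2 ^ (60 * n) : ℕ) : ℝ) / 2 ^ 60 = mag l ^ (n + 1) := by
  unfold mag
  rw [div_pow, ← pow_mul, div_div, mul_add, mul_one, pow_add (2 : ℝ)]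
  simp only [Nat.cast_pow, Nat.cast_ofNat]

private theorem snde_div (m n : ℕ) : Nat.div m n = m / n := rfl

theorem expM_sound {a : ℕ} {k : ℕ → ℕ → Bool} (h : expM a k = true) :
    ∃ lo hi : ℕ, mag lo ≤ Real.exp (mag a) ∧ Real.exp (mag a) ≤ mag hi ∧ k lo hi = true := by
  unfold expM at h
  simp only [frc_eq] at h
  refine ⟨_, _, ?_, ?_, h⟩
  all_goals
    simp only [Nat.shiftRight_eq, Nat.shiftRight_eq_div_pow, Nat.succ_eq_add_one, Nat.pow_eq,
      Nat.mul_eq, Nat.add_eq, snde_div]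
  all_goals
    have hn : a < (a / 2 ^ 57 + 1) * 2 ^ 57 := by
      have := Nat.lt_div_mul_add (a := a) (b := 2 ^ 57) (by positivity)
      rw [add_mul, one_mul]
      exact this
    generalize a / 2 ^ 57 = n at hn ⊢
    have hy : a / (n + 1) < 2 ^ 57 := by
      rw [Nat.div_lt_iff_lt_mul (Nat.succ_pos n), mul_comm]
      exact hn
    have hN : (0 : ℝ) < ((n + 1 : ℕ) : ℝ) := by exact_mod_cast Nat.succ_pos n
    have hz : mag a / ((n + 1 : ℕ) : ℝ) = (a : ℝ) / ((n + 1 : ℕ) : ℝ) / 2 ^ 60 := by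
      unfold mag
      ring
    have h1 : mag (a / (n + 1)) ≤ mag a / ((n + 1 : ℕ) : ℝ) := by
      rw [hz]
      exact div_le_div_of_nonneg_right (snde_div_le a (n + 1)) (by positivity)
    have h2 : mag a / ((n + 1 : ℕ) : ℝ) ≤ mag (a / (n + 1)) + 1 / 2 ^ 60 := by
      rw [hz]
      unfold mag
      rw [← add_div]
      exact div_le_div_of_nonneg_right (snde_le_div a (n + 1) (Nat.succ_pos n)) (by positivity)
    obtain ⟨s1, s2⟩ := snde_step hy h1 h2
    have hE : Real.exp (mag a) = Real.exp (mag a / ((n + 1 : ℕ) : ℝ)) ^ (n + 1) := by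
      rw [← Real.exp_nat_mul, mul_div_cancel₀ _ hN.ne']
    generalize tay (a / (n + 1)) / 2 ^ 360 / 5040 = l at s1 s2 ⊢
    rw [hE]
  · refine le_trans ?_ (pow_le_pow_left₀ (mag_nonneg l) s1 (n + 1))
    rw [← snde_pow]
    exact div_le_div_of_nonneg_right (snde_div_le _ _) (by positivity)
  · refine le_trans (pow_le_pow_left₀ (Real.exp_pos _).le s2 (n + 1)) ?_
    rw [← snde_pow]
    unfold mag
    refine div_le_div_of_nonneg_right ?_ (by positivity)
    rw [Nat.cast_add, Nat.cast_one]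
    exact snde_le_div _ _ (by positivity)

private theorem snde_recip (m : ℕ) :
    ((1329227995784915872903807060280344576 : ℕ) : ℝ) / m / 2 ^ 60 = (mag m)⁻¹ := by
  unfold mag
  rw [inv_div, div_right_comm]
  norm_num

theorem expB_sound {c : ℕ} {k : ℕ → ℕ → Bool} (h : expB c k = true) :
    ∃ lo hi : ℕ, mag lo ≤ Real.exp (val c) ∧ Real.exp (val c) ≤ mag hi ∧ k lo hi = true := by
  unfold expB at h
  cases h1 : Nat.ble 4722366482869645213696 c
  · rw [h1, cond_false] at h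
    have hc : c < 4722366482869645213696 := by
      by_contra h2
      have h3 := Nat.ble_eq_true_of_le (not_lt.1 h2)
      rw [h1] at h3
      exact Bool.false_ne_true h3
    cases h2 : Nat.ble c 4673943779676157640704
    · rw [h2, cond_false] at h
      obtain ⟨lo, hi, b1, b2, b3⟩ := expM_sound h
      obtain ⟨hlo, b4⟩ := frp_true b3
      simp only [frc_eq] at b4
      have hv : val c = -mag (Nat.sub 4722366482869645213696 c) := by
        have e : c + Nat.sub 4722366482869645213696 c = 4722366482869645213696 :=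
          Nat.add_sub_cancel' hc.le
        have e2 := val_add_mag c (Nat.sub 4722366482869645213696 c)
        rw [e, val_bias] at e2
        linarith
      generalize mag (Nat.sub 4722366482869645213696 c) = x at hv b1 b2
      have hlo' : 0 < mag lo := by
        unfold mag
        have : (0 : ℝ) < lo := by exact_mod_cast Nat.pos_of_ne_zero hlo
        positivity
      refine ⟨_, _, ?_, ?_, b4⟩
      · rw [hv, Real.exp_neg]
        refine le_trans ?_ (inv_anti₀ (Real.exp_pos x) b2)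
        rw [← snde_recip]
        exact div_le_div_of_nonneg_right (snde_div_le _ _) (by positivity)
      · rw [hv, Real.exp_neg]
        refine le_trans (inv_anti₀ hlo' b1) ?_
        rw [← snde_recip]
        unfold mag
        refine div_le_div_of_nonneg_right ?_ (by positivity)
        rw [Nat.succ_eq_add_one, Nat.cast_add, Nat.cast_one]
        exact snde_le_div _ _ (Nat.pos_of_ne_zero hlo)
    · rw [h2, cond_true] at h
      have hc2 : c ≤ 4673943779676157640704 := Nat.le_of_ble_eq_true h2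
      refine ⟨0, 1, ?_, ?_, h⟩
      · unfold mag
        rw [Nat.cast_zero, zero_div]
        exact (Real.exp_pos _).le
      · have hv : val c ≤ -42 := by
          refine (val_le_val.2 hc2).trans (le_of_eq ?_)
          unfold val
          norm_num
        refine (Real.exp_le_exp.2 hv).trans ?_
        have e : Real.exp (42 : ℝ) = Real.exp 1 ^ 42 := by
          rw [← Real.exp_nat_mul]
          norm_num
        have h3 : (2.718 : ℝ) ≤ Real.exp 1 := by
          have := Real.exp_one_gt_d9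
          linarith
        have h4 : (2 : ℝ) ^ 60 ≤ Real.exp 42 := by
          rw [e]
          refine le_trans ?_ (pow_le_pow_left₀ (by norm_num) h3 42)
          norm_num
        unfold mag
        rw [Real.exp_neg, Nat.cast_one, one_div]
        exact inv_anti₀ (by positivity) h4
  · rw [h1, cond_true] at h
    have hc : 4722366482869645213696 ≤ c := Nat.le_of_ble_eq_true h1
    cases h2 : Nat.ble c 4777706715090773868544
    · rw [h2, cond_false] at h
      exact absurd h Bool.false_ne_true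
    · rw [h2, cond_true] at h
      have hv : val c = mag (Nat.sub c 4722366482869645213696) := by
        have e : Nat.sub c 4722366482869645213696 + 4722366482869645213696 = c :=
          Nat.sub_add_cancel hc
        rw [← val_add_bias, e]
      rw [hv]
      exact expM_sound h

private theorem snde_mag_one : mag 1 = 1 / 2 ^ 60 := by
  unfold mag
  rw [Nat.cast_one]

private theorem snde_half (hi r : ℕ) :
    mag hi * (mag r ^ 2 / 2 + mag r ^ 3 / 4) ≤
      2 * mag (hi * (r * r) * (r + 2305843009213693952) / 2 ^ 183 + 1) := by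
  have h := snde_le_div (hi * (r * r) * (r + 2305843009213693952)) (2 ^ 183) (by positivity)
  have e : mag hi * (mag r ^ 2 / 2 + mag r ^ 3 / 4) =
      2 * (((hi * (r * r) * (r + 2305843009213693952) : ℕ) : ℝ) / ((2 ^ 183 : ℕ) : ℝ) / 2 ^ 60) := by
    unfold mag
    simp only [Nat.cast_mul, Nat.cast_add, Nat.cast_pow, Nat.cast_ofNat]
    ring
  rw [e]
  unfold mag
  rw [Nat.cast_add, Nat.cast_one]
  exact mul_le_mul_of_nonneg_left (div_le_div_of_nonneg_right h (by positivity)) (by norm_num)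

private theorem snde_prod (a e : ℕ) : mag a * mag e ≤ mag (a * e / 2 ^ 60) + mag 1 := by
  have h := snde_le_div (a * e) (2 ^ 60) (by positivity)
  have e1 : mag a * mag e = ((a * e : ℕ) : ℝ) / ((2 ^ 60 : ℕ) : ℝ) / 2 ^ 60 := by
    unfold mag
    simp only [Nat.cast_mul, Nat.cast_pow, Nat.cast_ofNat]
    ring
  rw [e1, ← mag_add]
  unfold mag
  rw [Nat.cast_add, Nat.cast_one]
  exact div_le_div_of_nonneg_right h (by positivity)

private theorem snde_rem {d R : ℝ} (hd : |d| ≤ R) (hR : R ≤ 1) :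
    0 ≤ Real.exp d - 1 - d ∧ Real.exp d - 1 - d ≤ R ^ 2 / 2 + R ^ 3 / 4 := by
  refine ⟨by linarith [Real.add_one_le_exp d], ?_⟩
  have h := Real.exp_bound (hd.trans hR) (n := 3) (by norm_num)
  have h3 := (abs_le.1 h).2
  simp only [Finset.sum_range_succ, Finset.sum_range_zero, Nat.factorial] at h3
  norm_num at h3
  have h4 : |d| ^ 3 ≤ R ^ 3 := pow_le_pow_left₀ (abs_nonneg d) hd 3
  have h5 : |d| ^ 2 ≤ R ^ 2 := pow_le_pow_left₀ (abs_nonneg d) hd 2
  rw [sq_abs] at h5
  have h6 : 0 ≤ |d| ^ 3 := by positivity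
  linarith

private theorem snde_core {u v C X Y s L Hi H E R X' Y' P o : ℝ} (hu : |u| ≤ 1) (hv : |v| ≤ 1)
    (hL0 : 0 ≤ L) (hL : L ≤ Real.exp C) (hH : Real.exp C ≤ Hi)
    (hs : |s - (C + X * u + Y * v)| ≤ E) (hd : |s - C| ≤ R) (hR : R ≤ 1)
    (hh : Hi * (R ^ 2 / 2 + R ^ 3 / 4) ≤ 2 * H) (hX : |X' - L * X| ≤ o) (hY : |Y' - L * Y| ≤ o)
    (hP : L * E ≤ P + o) :
    |Real.exp s - (L + H + X' * u + Y' * v)| ≤ H + P + 2 * (Hi - L) + 3 * o := by
  obtain ⟨r0, r1⟩ := snde_rem hd hR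
  have hes : Real.exp s = Real.exp C * Real.exp (s - C) := by
    rw [← Real.exp_add]
    ring_nf
  have hC := Real.exp_pos C
  have e : Real.exp s - (L + H + X' * u + Y' * v) =
      (Real.exp C * (Real.exp (s - C) - 1 - (s - C)) - H) + (Real.exp C - L) * (1 + (s - C)) +
        L * (s - (C + X * u + Y * v)) - (X' - L * X) * u - (Y' - L * Y) * v := by
    rw [hes]
    ring
  have a1 : 0 ≤ Real.exp C * (Real.exp (s - C) - 1 - (s - C)) := mul_nonneg hC.le r0
  have a2 : Real.exp C * (Real.exp (s - C) - 1 - (s - C)) ≤ Hi * (R ^ 2 / 2 + R ^ 3 / 4) :=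
    mul_le_mul hH r1 r0 (hC.le.trans hH)
  have a3 : |(Real.exp C - L) * (1 + (s - C))| ≤ (Hi - L) * 2 := by
    rw [abs_mul, abs_of_nonneg (sub_nonneg.2 hL)]
    refine mul_le_mul (by linarith) ?_ (abs_nonneg _) (by linarith)
    have := abs_le.1 (hd.trans hR)
    rw [abs_le]
    constructor <;> linarith [this.1, this.2]
  have a4 : |L * (s - (C + X * u + Y * v))| ≤ L * E := by
    rw [abs_mul, abs_of_nonneg hL0]
    exact mul_le_mul_of_nonneg_left hs hL0
  have ho : 0 ≤ o := (abs_nonneg _).trans hX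
  have a5 : |(X' - L * X) * u| ≤ o * 1 := by
    rw [abs_mul]
    exact mul_le_mul hX hu (abs_nonneg _) ho
  have a6 : |(Y' - L * Y) * v| ≤ o * 1 := by
    rw [abs_mul]
    exact mul_le_mul hY hv (abs_nonneg _) ho
  rw [e]
  have b3 := abs_le.1 a3
  have b4 := abs_le.1 a4
  have b5 := abs_le.1 a5
  have b6 := abs_le.1 a6
  rw [abs_le]
  constructor <;> linarith [b3.1, b3.2, b4.1, b4.2, b5.1, b5.2, b6.1, b6.2]

theorem AF.exp_sound {u v : ℝ} (hu : |u| ≤ 1) (hv : |v| ≤ 1) {a : AF} {s : ℝ} {k : AF → Bool}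
    (ha : AE u v a s) (h : AF.exp a k = true) : ∃ c, AE u v c (Real.exp s) ∧ k c = true := by
  have hd := AE.abs_sub_le hu hv ha
  obtain ⟨c, x, y, b, e⟩ := a
  have hs : |s - (val c + val x * u + val y * v)| ≤ mag e := ha.2
  have hd' : |s - val c| ≤ mag (Nat.add b e) := by
    rw [Nat.add_eq, mag_add]
    exact hd
  unfold AF.exp at h
  simp only [frc_eq] at h
  generalize Nat.add b e = r at h hd'
  cases h1 : Nat.ble r 1152921504606846976
  · rw [h1, cond_false] at h
    obtain ⟨lo, hi, _, b2, b3⟩ := expB_sound h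
    refine ⟨_, AE.itv ?_, b3⟩
    simp only [Nat.add_eq, Nat.shiftRight_eq, Nat.shiftRight_eq_div_pow, Nat.succ_eq_add_one,
      pow_one] at b2 ⊢
    rw [val_add_bias]
    rw [val_add_mag] at b2
    have c1 : Real.exp s ≤ mag hi :=
      (Real.exp_le_exp.2 (by linarith [(abs_le.1 hd').2])).trans b2
    have c2 : mag hi ≤ mag (hi / 2 + 1) + mag (hi / 2 + 1) := by
      rw [← mag_add]
      exact mag_mono (by omega)
    have c3 := Real.exp_pos s
    rw [abs_le]
    constructor <;> linarith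
  · rw [h1, cond_true] at h
    have hr : r ≤ 1152921504606846976 := Nat.le_of_ble_eq_true h1
    have hR : mag r ≤ 1 := by
      refine (mag_mono hr).trans (le_of_eq ?_)
      unfold mag
      norm_num
    obtain ⟨lo, hi, b1, b2, b3⟩ := expB_sound h
    obtain ⟨_, hx, hy, b4⟩ := AF.mk'_true b3
    refine ⟨_, ⟨le_rfl, ?_⟩, b4⟩
    have hle : lo ≤ hi := by
      have h2 : mag lo ≤ mag hi := b1.trans b2
      unfold mag at h2
      rw [div_le_div_iff_of_pos_right (by positivity)] at h2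
      exact_mod_cast h2
    have key := snde_core hu hv (mag_nonneg lo) b1 b2 hs hd' hR (snde_half hi r) (val_bq hx)
      (val_bq hy) (snde_prod lo e)
    simp only [Nat.add_eq, Nat.mul_eq, Nat.sub_eq, Nat.shiftRight_eq, Nat.shiftRight_eq_div_pow,
      Nat.succ_eq_add_one]
    generalize hi * (r * r) * (r + 2305843009213693952) / 2 ^ 183 + 1 = w at key ⊢
    rw [val_add_bias, mag_add lo w]
    refine key.trans ?_
    have e1 : mag (2 * (hi - lo)) = 2 * (mag hi - mag lo) := by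
      unfold mag
      rw [Nat.cast_mul, Nat.cast_sub hle, Nat.cast_ofNat]
      ring
    have e2 : 3 * mag 1 ≤ mag 4 := by
      unfold mag
      norm_num
    rw [mag_add, mag_add, mag_add, e1]
    linarith

end Pool.Agent.Eps.T
end

-- part Pool.Agent.Lib.MP_3bda03_nt.T.Snd
section

/-! Soundness of the check programs. -/

set_option autoImplicit false

namespace Pool.Agent.Eps.T

variable {u v : ℝ}

theorem snd_false {P : Prop} (h : false = true) : P := absurd h Bool.false_ne_true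

theorem snd_cond {b c : Bool} (h : cond b c false = true) : b = true ∧ c = true := by
  cases b
  · exact snd_false h
  · exact ⟨rfl, h⟩

theorem snd_mag_pos {m : ℕ} (h : m ≠ 0) : 0 < mag m := by
  unfold mag
  have : (0 : ℝ) < m := Nat.cast_pos.2 (Nat.pos_of_ne_zero h)
  positivity

theorem snd_mag_zero : mag 0 = 0 := by simp [mag]

theorem snd_ab_bias : ab 4722366482869645213696 = 0 := by simp [ab]

theorem snd_ab_add (h : ℕ) : ab (h + 4722366482869645213696) = h := by
  simp [ab]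

theorem snd_bias_add (m : ℕ) : val (4722366482869645213696 + m) = mag m := by
  rw [Nat.add_comm, val_add_bias]

theorem snd_mag_shift (j : ℕ) : mag (Nat.shiftLeft j 60) = j := by
  rw [show Nat.shiftLeft j 60 = j * 2 ^ 60 from Nat.shiftLeft_eq j 60, mag]
  push_cast
  field_simp
  norm_num

theorem snd_rat (p : ℕ) {q : ℕ} (hq : q ≠ 0) :
    |(p : ℝ) / q - mag (Nat.div (Nat.shiftLeft p 60) q)| ≤ mag 1 := by
  rw [show Nat.shiftLeft p 60 = p * 2 ^ 60 from Nat.shiftLeft_eq p 60]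
  rw [show ∀ a b : ℕ, Nat.div a b = a / b from fun _ _ => rfl]
  have hq' : (0 : ℝ) < q := Nat.cast_pos.2 (Nat.pos_of_ne_zero hq)
  have h1 : ((p * 2 ^ 60 / q : ℕ) : ℝ) ≤ ((p * 2 ^ 60 : ℕ) : ℝ) / q := Nat.cast_div_le
  have h2 : ((p * 2 ^ 60 : ℕ) : ℝ) / q ≤ ((p * 2 ^ 60 / q : ℕ) : ℝ) + 1 := by
    rw [div_le_iff₀ hq']
    have := Nat.lt_mul_div_succ (p * 2 ^ 60) (Nat.pos_of_ne_zero hq)
    rw [Nat.mul_comm q] at this
    exact_mod_cast this.le
  generalize (p * 2 ^ 60 / q : ℕ) = n at h1 h2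
  have e : ((p * 2 ^ 60 : ℕ) : ℝ) / q = (p : ℝ) / q * 2 ^ 60 := by push_cast; ring
  rw [e] at h1 h2
  generalize (p : ℝ) / q = r at h1 h2
  unfold mag
  rw [abs_le]
  constructor
  · have : (n : ℝ) / 2 ^ 60 ≤ r := by rw [div_le_iff₀ (by positivity)]; exact h1
    have h3 : (0 : ℝ) ≤ ((1 : ℕ) : ℝ) / 2 ^ 60 := by positivity
    linarith
  · have : r ≤ ((n : ℝ) + 1) / 2 ^ 60 := by rw [le_div_iff₀ (by positivity)]; exact h2
    rw [add_div] at this
    push_cast
    linarith

theorem snd_box {lo hi : ℕ} {t : ℝ} (h1 : val lo ≤ t) (h2 : t ≤ val hi) :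
    ∃ w : ℝ, |w| ≤ 1 ∧ t = val (lo + ((hi - lo) >>> 1 + 1)) + mag ((hi - lo) >>> 1 + 1) * w := by
  have a : hi ≤ lo + ((hi - lo) >>> 1 + 1) + ((hi - lo) >>> 1 + 1) := by
    rw [Nat.shiftRight_eq_div_pow]; omega
  have p := snd_mag_pos (Nat.succ_ne_zero ((hi - lo) >>> 1))
  rw [Nat.succ_eq_add_one] at p
  generalize (hi - lo) >>> 1 + 1 = h at a p
  have b := val_le_val.2 a
  rw [val_add_mag, val_add_mag] at b
  refine ⟨(t - val (lo + h)) / mag h, ?_, by field_simp; ring⟩
  rw [abs_div, abs_of_pos p, div_le_one p, val_add_mag, abs_le]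
  constructor <;> linarith

theorem snd_le (hu : |u| ≤ 1) (hv : |v| ≤ 1) {c x y b e : ℕ} {t : ℝ}
    (h : AE u v ⟨c, x, y, b, e⟩ t) : t ≤ val (c + (b + e)) := by
  have := (abs_le.1 (h.abs_sub_le hu hv)).2
  rw [val_add_mag, mag_add]
  dsimp only at this
  linarith

theorem snd_abs (hu : |u| ≤ 1) (hv : |v| ≤ 1) {c x y b e : ℕ} {t : ℝ}
    (h : AE u v ⟨c, x, y, b, e⟩ t) : |t| ≤ mag (ab c) + mag (b + e) := by
  have := h.abs_sub_le hu hv
  have h2 := abs_add_le (t - val c) (val c)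
  rw [sub_add_cancel] at h2
  rw [mag_add, ← abs_val]
  dsimp only at this
  linarith

theorem snd_env {a : AF} {t : ℝ} {E : SL} {ρ : List ℝ} (ha : AE u v a t) (hE : Env u v E ρ) :
    Env u v (SL.cons a E) (t :: ρ) := ⟨t, ρ, rfl, ha, hE⟩

theorem snd_itv (c : ℕ) : AE u v (AF.itv c 0) (val c) := AE.itv (by simp [snd_mag_zero])

theorem snd_boxU {lo h : ℕ} {t w : ℝ} (e : t = val (lo + h) + mag h * w) : AE w v
    ⟨Nat.add lo h, Nat.add h 4722366482869645213696, 4722366482869645213696, h, 0⟩ t := by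
  constructor
  · dsimp only
    rw [snd_ab_bias, Nat.add_eq, snd_ab_add, Nat.add_zero]
  · dsimp only
    rw [val_bias, Nat.add_eq, Nat.add_eq, val_add_bias, zero_mul, add_zero, ← e, sub_self, abs_zero,
      snd_mag_zero]

theorem snd_boxV {lo h : ℕ} {t w : ℝ} (e : t = val (lo + h) + mag h * w) : AE u w
    ⟨Nat.add lo h, 4722366482869645213696, Nat.add h 4722366482869645213696, h, 0⟩ t := by
  constructor
  · dsimp only
    rw [snd_ab_bias, Nat.add_eq, snd_ab_add, Nat.zero_add]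
  · dsimp only
    rw [val_bias, Nat.add_eq, Nat.add_eq, val_add_bias, zero_mul, add_zero, ← e, sub_self, abs_zero,
      snd_mag_zero]

theorem snd_ev_sq (E : SL) (a : Ex) :
    (Ex.sq a).ev E = fun k => a.ev E fun a => AF.sq a k := rfl

theorem snd_ev_cst (E : SL) (x : ℕ) (k : AF → Bool) :
    (Ex.cst x).ev E k = frc x fun x => k (AF.itv x 0) := rfl

theorem snd_ev_nat (E : SL) (j : ℕ) (k : AF → Bool) : (Ex.nat j).ev E k =
    frc (Nat.add 4722366482869645213696 (Nat.shiftLeft j 60)) fun x => k (AF.itv x 0) := rfl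

theorem snd_ev_rat (E : SL) (p q : ℕ) (k : AF → Bool) : (Ex.rat p q).ev E k =
    frp q fun q => frc (Nat.add 4722366482869645213696 (Nat.div (Nat.shiftLeft p 60) q))
      fun c => k (AF.itv c 1) := rfl

theorem SL.get_sound {E : SL} {ρ : List ℝ} (hE : Env u v E ρ) {i : ℕ} {k : AF → Bool}
    (h : E.get i k = true) : ∃ a, AE u v a (ρ.getD i 0) ∧ k a = true := by
  induction i generalizing E ρ with
  | zero =>
    cases E with
    | nil => exact snd_false h
    | cons a t =>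
      obtain ⟨x, ρ', rfl, ha, -⟩ := hE
      exact ⟨a, ha, h⟩
  | succ i ih =>
    cases E with
    | nil => exact snd_false h
    | cons a t =>
      obtain ⟨x, ρ', rfl, -, ht⟩ := hE
      exact ih ht h

theorem SL.drop_sound {E : SL} {ρ : List ℝ} (hE : Env u v E ρ) {n : ℕ} {k : SL → Bool}
    (h : E.drop n k = true) : ∃ E', Env u v E' (ρ.drop n) ∧ k E' = true := by
  induction n generalizing E ρ with
  | zero => exact ⟨E, hE, h⟩
  | succ n ih =>
    cases E with
    | nil => exact snd_false h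
    | cons a t =>
      obtain ⟨x, ρ', rfl, -, ht⟩ := hE
      exact ih ht h

theorem SL.cut_sound {E : SL} {ρ : List ℝ} (hE : Env u v E ρ) {m n : ℕ} {k : SL → Bool}
    (h : E.cut m n k = true) : ∃ E', Env u v E' (ρ.take m ++ ρ.drop (m + n)) ∧ k E' = true := by
  induction m generalizing E ρ k with
  | zero =>
    rw [List.take_zero, List.nil_append, Nat.zero_add]
    exact SL.drop_sound hE h
  | succ m ih =>
    cases E with
    | nil => exact snd_false h
    | cons a t =>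
      obtain ⟨x, ρ', rfl, ha, ht⟩ := hE
      obtain ⟨E', h1, h2⟩ := ih (k := fun r => k (SL.cons a r)) ht h
      rw [Nat.add_right_comm, List.take_succ_cons, List.drop_succ_cons, List.cons_append]
      exact ⟨SL.cons a E', snd_env ha h1, h2⟩

theorem SL.flat_sound {E : SL} {ρ : List ℝ} (hE : Env u v E ρ) (h : E.flat = true) (u' : ℝ) :
    Env u' v E ρ := by
  induction E generalizing ρ with
  | nil => exact hE
  | cons a t ih =>
    obtain ⟨x, ρ', rfl, ha, ht⟩ := hE
    obtain ⟨c, x', y, b, e⟩ := a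
    obtain ⟨h1, h2⟩ := snd_cond (b := Nat.beq x' 4722366482869645213696) (c := t.flat) h
    obtain rfl := Nat.eq_of_beq_eq_true h1
    refine snd_env ⟨ha.1, ?_⟩ (ih ht h2)
    have := ha.2
    dsimp only at this ⊢
    rw [val_bias, zero_mul] at this ⊢
    exact this

theorem Ex.ev_sound (hu : |u| ≤ 1) (hv : |v| ≤ 1) {E : SL} {ρ : List ℝ} (hE : Env u v E ρ)
    (e : Ex) {k : AF → Bool} (h : e.ev E k = true) : ∃ a, AE u v a (e.val ρ) ∧ k a = true := by
  induction e generalizing k with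
  | var i => exact SL.get_sound hE h
  | cst x =>
    rw [snd_ev_cst, frc_eq] at h
    exact ⟨_, snd_itv x, h⟩
  | nat j =>
    rw [snd_ev_nat, frc_eq] at h
    refine ⟨_, AE.itv ?_, h⟩
    rw [Nat.add_eq, snd_bias_add, snd_mag_shift, Ex.val, sub_self, abs_zero, snd_mag_zero]
  | rat p q =>
    rw [snd_ev_rat] at h
    obtain ⟨h1, h2⟩ := frp_true h
    rw [frc_eq] at h2
    refine ⟨_, AE.itv ?_, h2⟩
    rw [Nat.add_eq, snd_bias_add, Ex.val]
    exact snd_rat p h1
  | add a b ia ib =>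
    obtain ⟨a', ha, h1⟩ := ia (k := fun a => b.ev E fun b => AF.lin ba a b k) h
    obtain ⟨b', hb, h2⟩ := ib h1
    exact AF.add_sound ha hb h2
  | sub a b ia ib =>
    obtain ⟨a', ha, h1⟩ := ia (k := fun a => b.ev E fun b => AF.lin bs a b k) h
    obtain ⟨b', hb, h2⟩ := ib h1
    exact AF.sub_sound ha hb h2
  | neg a ia =>
    obtain ⟨a', ha, h1⟩ := ia (k := fun a => AF.neg a k) h
    exact AF.neg_sound ha h1
  | mul a b ia ib =>
    obtain ⟨a', ha, h1⟩ := ia (k := fun a => b.ev E fun b => AF.mul a b k) h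
    obtain ⟨b', hb, h2⟩ := ib h1
    exact AF.mul_sound hu hv ha hb h2
  | sq a ia =>
    rw [snd_ev_sq] at h
    obtain ⟨a', ha, h1⟩ := ia h
    exact AF.sq_sound hu hv ha h1
  | exp a ia =>
    obtain ⟨a', ha, h1⟩ := ia (k := fun a => AF.exp a k) h
    exact AF.exp_sound hu hv ha h1

theorem Ck.run_sound (p : Ck) {s d : SL} (h : p.run s d = true) {u v : ℝ} (hu : |u| ≤ 1)
    (hv : |v| ≤ 1) {ρ δ : List ℝ} (hs : Env u v s ρ) (hd : Env u v d δ) : p.holds ρ δ := by
  induction p generalizing s d u v ρ δ with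
  | done => trivial
  | fail => exact snd_false h
  | le a b r ih =>
    obtain ⟨⟨c, x, y, b1, e1⟩, hw, h1⟩ := Ex.ev_sound hu hv hs (Ex.sub a b) h
    obtain ⟨h2, h3⟩ := snd_cond (c := r.run s d) h1
    have h4 : val (c + (b1 + e1)) ≤ val 4722366482869645213696 :=
      val_le_val.2 (Nat.le_of_ble_eq_true h2)
    have h5 : a.val ρ - b.val ρ ≤ _ := snd_le hu hv hw
    rw [val_bias] at h4
    exact ⟨by linarith, ih h3 hu hv hs hd⟩
  | lt a b r ih =>
    obtain ⟨⟨c, x, y, b1, e1⟩, hw, h1⟩ := Ex.ev_sound hu hv hs (Ex.sub a b) h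
    obtain ⟨h2, h3⟩ := snd_cond (c := r.run s d) h1
    have h4 : val (c + (b1 + e1) + 1) ≤ val 4722366482869645213696 :=
      val_le_val.2 (Nat.le_of_ble_eq_true h2)
    have h5 : a.val ρ - b.val ρ ≤ _ := snd_le hu hv hw
    have h6 := snd_mag_pos one_ne_zero
    rw [val_bias, val_add_mag] at h4
    exact ⟨by linarith, ih h3 hu hv hs hd⟩
  | slet e r ih =>
    obtain ⟨a, ha, h1⟩ := Ex.ev_sound hu hv hs e h
    exact ih h1 hu hv (snd_env ha hs) hd
  | near e f r ih =>
    obtain ⟨⟨c, x, y, b1, e1⟩, ha, h1⟩ := Ex.ev_sound hu hv hs e h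
    obtain ⟨⟨c2, x2, y2, b2, e2⟩, hg, h2⟩ := Ex.ev_sound hu hv hs f h1
    have h3 : r.run (SL.cons ⟨c, x, y, b1, e1 + ab c2 + (b2 + e2)⟩ s) d = true :=
      (frc_eq _ fun e3 => r.run (SL.cons ⟨c, x, y, b1, e3⟩ s) d).symm.trans h2
    intro t ht
    refine ih h3 hu hv (snd_env ⟨ha.1, ?_⟩ hs) hd
    have h4 := ha.2
    have h5 := (le_abs_self _).trans (snd_abs hu hv hg)
    have h6 := abs_sub_le t (e.val ρ) (val c + val x * u + val y * v)
    dsimp only at h4 ⊢
    rw [mag_add, mag_add]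
    linarith
  | uabs e r ih =>
    obtain ⟨⟨c, x, y, b1, e1⟩, ha, h1⟩ := Ex.ev_sound hu hv hs e h
    have h3 : r.run (SL.cons (AF.itv (ab c + 4722366482869645213696 + (b1 + e1)) 0) s) d = true :=
      (frc_eq _ fun m => r.run (SL.cons (AF.itv m 0) s) d).symm.trans h1
    refine ⟨_, ?_, ih h3 hu hv (snd_env (snd_itv _) hs) hd⟩
    rw [val_add_mag, val_add_bias]
    exact snd_abs hu hv ha
  | rcp j e r ih =>
    obtain ⟨⟨c, x, y, b1, e1⟩, ha, h1⟩ := Ex.ev_sound hu hv hs e h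
    obtain ⟨h2, h3⟩ := frp_true (n := rguess j c (Nat.add b1 e1)) h1
    generalize rguess j c (Nat.add b1 e1) = m at h2 h3
    have h4 : r.run (SL.cons (AF.itv (m + 4722366482869645213696) 0) s) d = true :=
      (frc_eq _ fun m => r.run (SL.cons (AF.itv m 0) s) d).symm.trans h3
    refine ⟨_, ?_, ih h4 hu hv (snd_env (snd_itv _) hs) hd⟩
    rw [val_add_bias]
    exact snd_mag_pos h2
  | cut m n r ih =>
    obtain ⟨E', h1, h2⟩ := SL.cut_sound hs (k := fun s => r.run s d) h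
    exact ih h2 hu hv h1 hd
  | push e r ih =>
    obtain ⟨a, ha, h1⟩ := Ex.ev_sound hu hv hs e h
    exact ih h1 hu hv hs (snd_env ha hd)
  | pop r ih =>
    cases d with
    | nil => exact snd_false h
    | cons a t =>
      obtain ⟨x, δ', rfl, ha, ht⟩ := hd
      exact ih (s := SL.cons a s) (d := t) h hu hv (snd_env ha hs) ht
  | box lo hi r ih =>
    obtain ⟨h1, h2⟩ := snd_cond (b := s.flat) h
    obtain ⟨h3, h4⟩ := snd_cond (b := d.flat) h2
    rw [frc_eq, frc_eq, frc_eq] at h4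
    intro t t1 t2
    obtain ⟨w, hw, e⟩ := snd_box t1 t2
    exact ih h4 hw hv (snd_env (snd_boxU e) (SL.flat_sound hs h1 w)) (SL.flat_sound hd h3 w)
  | both a r ia ih =>
    obtain ⟨h1, h2⟩ := snd_cond (b := a.run s d) (c := r.run s d) h
    exact ⟨ia h1 hu hv hs hd, ih h2 hu hv hs hd⟩

theorem Ck.start_sound {p : Ck} {lo hi : ℕ} (h : p.start lo hi = true) {x : ℝ} (h1 : val lo ≤ x)
    (h2 : x ≤ val hi) : p.holds [x] [] := by
  unfold Ck.start at h
  rw [frc_eq, frc_eq, frc_eq] at h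
  obtain ⟨w, hw, e⟩ := snd_box h1 h2
  exact Ck.run_sound p h (u := 0) (by simp) hw (snd_env (snd_boxV e) rfl) rfl

end Pool.Agent.Eps.T
end
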