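import Mathlib
import Pool.Agent.Lib.MP_3bda03_nt.T.Rad
import Pool.Agent.Lib.MP_3bda03_nt.T.Snd

-- part Pool.Agent.Lib.MP_3bda03_nt.T.A4
section

/-! Integrals over one cell. -/

set_option autoImplicit false

noncomputable section

open MeasureTheory Set

namespace Pool.Agent.Eps.T

variable {p : ℝ}

theorem ShR.neg {l cd t : ℝ} (h : ShR l cd t) : ShR (-l) cd t := by
  unfold ShR at h ⊢
  rwa [neg_sq]

theorem a4_exp_le {y : ℝ} (h : y ^ 2 ≤ 6) :
    Real.exp y ≤ 1 + y + y ^ 2 / 2 + y ^ 3 / 6 + y ^ 4 / 24 + y ^ 5 / 120 + y ^ 6 / 360 := by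
  have h1 : |y| ≤ 3 := abs_le_of_sq_le_sq' (by linarith) (by norm_num) |> abs_le.2
  have h2 := Complex.exp_bound' (x := (y : ℂ)) (n := 6) (by
    rw [Complex.norm_real, Real.norm_eq_abs]; norm_num; linarith)
  have e : Complex.exp y - ∑ m ∈ Finset.range 6, (y : ℂ) ^ m / m.factorial =
      ((Real.exp y - (1 + y + y ^ 2 / 2 + y ^ 3 / 6 + y ^ 4 / 24 + y ^ 5 / 120) : ℝ) : ℂ) := by
    simp only [Finset.sum_range_succ, Finset.range_zero, Finset.sum_empty, Nat.factorial]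
    push_cast
    ring
  rw [e, Complex.norm_real, Complex.norm_real, Real.norm_eq_abs, Real.norm_eq_abs,
    Even.pow_abs (by decide)] at h2
  have h3 := (abs_le.1 h2).2
  norm_num [Nat.factorial] at h3
  linarith

theorem a4_cosh_le {y : ℝ} (h : y ^ 2 ≤ 6) : Real.cosh y ≤ 1 + y ^ 2 / 2 + y ^ 4 / 15 := by
  have h1 := a4_exp_le h
  have h2 := a4_exp_le (y := -y) (by rwa [neg_sq])
  have h3 : y ^ 6 ≤ 6 * y ^ 4 := by
    have : 0 ≤ y ^ 4 := by positivity
    nlinarith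
  have h4 : 0 ≤ y ^ 4 := by positivity
  rw [Real.cosh_eq]
  ring_nf at h1 h2 ⊢
  linarith

theorem a4_le_cosh (y : ℝ) : 1 + y ^ 2 / 2 ≤ Real.cosh y := by
  have h1 : |y / 2| ≤ |Real.sinh (y / 2)| := by
    rw [Real.abs_sinh]; exact Real.self_le_sinh_iff.2 (abs_nonneg _)
  have h2 := sq_le_sq.2 h1
  have h3 := Real.cosh_two_mul (y / 2)
  rw [Real.cosh_sq, show 2 * (y / 2) = y by ring] at h3
  nlinarith

theorem cosh_le_of_sq {y : ℝ} (h : y ^ 2 ≤ 6) : Real.cosh y ≤ 1 + y ^ 2 := by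
  have h1 := a4_cosh_le h
  have h2 : 0 ≤ y ^ 2 := sq_nonneg y
  nlinarith

theorem a4_symm {g : ℝ → ℝ} (hg : Continuous g) (he : ∀ x, g (-x) = g x) (l c : ℝ) :
    ∫ x in (-c)..c, g x * Real.exp (l * x) = ∫ x in (-c)..c, g x * Real.cosh (l * x) := by
  have h1 := intervalIntegral.integral_comp_neg (a := -c) (b := c)
    (fun x => g x * Real.exp (l * x))
  rw [neg_neg] at h1
  have h2 : ∫ x in (-c)..c, g x * Real.cosh (l * x) =
      ∫ x in (-c)..c, (g x * Real.exp (l * x) + g (-x) * Real.exp (l * -x)) / 2 := by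
    congr 1; funext x; rw [Real.cosh_eq, he, mul_neg]; ring
  rw [h2, intervalIntegral.integral_div, intervalIntegral.integral_add
    (Continuous.intervalIntegrable (by fun_prop) _ _)
    (Continuous.intervalIntegrable (by fun_prop) _ _), h1]
  ring

theorem a4_poly (c0 c2 c4 : ℝ) :
    ∫ x in (-(1 / 2) : ℝ)..(1 / 2), (c0 + c2 * x ^ 2 + c4 * x ^ 4) = c0 + c2 / 12 + c4 / 80 := by
  rw [intervalIntegral.integral_add (Continuous.intervalIntegrable (by fun_prop) _ _)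
    (Continuous.intervalIntegrable (by fun_prop) _ _), intervalIntegral.integral_add
    (Continuous.intervalIntegrable (by fun_prop) _ _)
    (Continuous.intervalIntegrable (by fun_prop) _ _), intervalIntegral.integral_const_mul,
    intervalIntegral.integral_const_mul, integral_pow, integral_pow, intervalIntegral.integral_const]
  norm_num
  ring

theorem a4_sq_le {l x : ℝ} (hx : x ∈ Icc (-(1 / 2) : ℝ) (1 / 2)) : (l * x) ^ 2 ≤ l ^ 2 / 4 := by
  have h1 : x ^ 2 ≤ 1 / 4 := by nlinarith [hx.1, hx.2]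
  have h2 := mul_le_mul_of_nonneg_left h1 (sq_nonneg l)
  rw [mul_pow]; linarith

theorem avg_exp {l : ℝ} (h : l ^ 2 / 24 ≤ 1) :
    1 + l ^ 2 / 24 ≤ ∫ x in (-(1 / 2) : ℝ)..(1 / 2), Real.exp (l * x) ∧
      ∫ x in (-(1 / 2) : ℝ)..(1 / 2), Real.exp (l * x) ≤ 1 + l ^ 2 / 24 + (l ^ 2 / 24) ^ 2 / 2 := by
  have h1 := a4_symm (g := fun _ => 1) continuous_const (fun _ => rfl) l (1 / 2)
  simp only [one_mul] at h1
  rw [h1]
  constructor
  · have h2 := a4_poly 1 (l ^ 2 / 2) 0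
    have h3 : ∫ x in (-(1 / 2) : ℝ)..(1 / 2), (1 + l ^ 2 / 2 * x ^ 2 + 0 * x ^ 4) ≤
        ∫ x in (-(1 / 2) : ℝ)..(1 / 2), Real.cosh (l * x) :=
      intervalIntegral.integral_mono_on (by norm_num)
        (Continuous.intervalIntegrable (by fun_prop) _ _)
        (Continuous.intervalIntegrable (by fun_prop) _ _) fun x _ => by
          have := a4_le_cosh (l * x)
          rw [mul_pow] at this; linarith
    linarith
  · have h2 := a4_poly 1 (l ^ 2 / 2) (l ^ 4 / 15)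
    have h3 : ∫ x in (-(1 / 2) : ℝ)..(1 / 2), Real.cosh (l * x) ≤
        ∫ x in (-(1 / 2) : ℝ)..(1 / 2), (1 + l ^ 2 / 2 * x ^ 2 + l ^ 4 / 15 * x ^ 4) :=
      intervalIntegral.integral_mono_on (by norm_num)
        (Continuous.intervalIntegrable (by fun_prop) _ _)
        (Continuous.intervalIntegrable (by fun_prop) _ _) fun x hx => by
          have := a4_cosh_le (y := l * x) ((a4_sq_le hx).trans (by linarith))
          rw [mul_pow, mul_pow] at this; linarith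
    have h4 : 0 ≤ l ^ 4 := by positivity
    have h5 : (l ^ 2 / 24) ^ 2 / 2 = l ^ 4 / 1152 := by ring
    linarith

theorem a4_sq_exp {l : ℝ} (h : l ^ 2 / 24 ≤ 1) :
    ∫ x in (-(1 / 2) : ℝ)..(1 / 2), x ^ 2 * Real.exp (l * x) ≤ (1 + l ^ 2 / 4) / 12 := by
  rw [a4_symm (g := fun x => x ^ 2) (by fun_prop) (fun x => neg_sq x) l (1 / 2)]
  have h2 := a4_poly 0 (1 + l ^ 2 / 4) 0
  have h3 : ∫ x in (-(1 / 2) : ℝ)..(1 / 2), x ^ 2 * Real.cosh (l * x) ≤
      ∫ x in (-(1 / 2) : ℝ)..(1 / 2), (0 + (1 + l ^ 2 / 4) * x ^ 2 + 0 * x ^ 4) :=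
    intervalIntegral.integral_mono_on (by norm_num)
      (Continuous.intervalIntegrable (by fun_prop) _ _)
      (Continuous.intervalIntegrable (by fun_prop) _ _) fun x hx => by
        have k := a4_sq_le (l := l) hx
        have := (cosh_le_of_sq (y := l * x) (k.trans (by linarith))).trans (add_le_add_right k 1)
        have := mul_le_mul_of_nonneg_left this (sq_nonneg x)
        linarith
  linarith

/-- the integral of the weighted kernel over a cell -/
theorem cell_factor (hp : 0 < p) (α : ℝ) {a b cd : ℝ} (hab : a < b)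
    (hcd : Real.exp (p * b) * (b - a) ^ 2 / 24 ≤ cd) :
    ∃ t : ℝ, ShR (α * (b - a) - (b - a) * qf p ((a + b) / 2)) cd t ∧
      ∫ η in a..b, Real.exp (α * η) * kf p η =
        (b - a) * kf p ((a + b) / 2) * Real.exp (α * ((a + b) / 2)) * t := by
  have hc := continuous_lk p
  obtain ⟨D, hD⟩ : ∃ D, D = b - a := ⟨_, rfl⟩
  obtain ⟨μ, hμ⟩ : ∃ μ, μ = (a + b) / 2 := ⟨_, rfl⟩
  obtain ⟨l, hl⟩ : ∃ l, l = α * D - D * qf p μ := ⟨_, rfl⟩
  rw [← hD] at hcd
  rw [← hD, ← hμ, ← hl]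
  have hD0 : 0 < D := by linarith
  have hcd0 : 0 ≤ cd := le_trans (by positivity) hcd
  refine ⟨∫ x in (-(1 / 2) : ℝ)..(1 / 2), Real.exp (α * D * x + lk p (D * x + μ) - lk p μ),
    fun U hU hU1 => ?_, ?_⟩
  · obtain ⟨h1, h2⟩ := avg_exp (hU.trans hU1)
    constructor
    · have h3 := a4_sq_exp (hU.trans hU1)
      have h4 : ∫ x in (-(1 / 2) : ℝ)..(1 / 2),
          (Real.exp (l * x) - 12 * cd * (x ^ 2 * Real.exp (l * x))) ≤
          ∫ x in (-(1 / 2) : ℝ)..(1 / 2), Real.exp (α * D * x + lk p (D * x + μ) - lk p μ) :=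
        intervalIntegral.integral_mono_on (by norm_num)
          (Continuous.intervalIntegrable (by fun_prop) _ _)
          (Continuous.intervalIntegrable (by fun_prop) _ _) fun x hx => by
            have k1 := tangent_le_lk hp (μ := μ) (η := D * x + μ) (b := b) (by linarith)
              (by nlinarith [hx.2])
            rw [add_sub_cancel_right, mul_pow] at k1
            have k2 := mul_le_mul_of_nonneg_right hcd (sq_nonneg x)
            have k3 : l * x + -(12 * cd * x ^ 2) ≤ α * D * x + lk p (D * x + μ) - lk p μ := by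
              rw [hl]; linarith
            refine le_trans ?_ (Real.exp_le_exp.2 k3)
            rw [Real.exp_add]
            have k4 := mul_le_mul_of_nonneg_left (Real.add_one_le_exp (-(12 * cd * x ^ 2)))
              (Real.exp_pos (l * x)).le
            linarith
      rw [intervalIntegral.integral_sub (Continuous.intervalIntegrable (by fun_prop) _ _)
        (Continuous.intervalIntegrable (by fun_prop) _ _),
        intervalIntegral.integral_const_mul] at h4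
      have h5 := mul_le_mul_of_nonneg_left (h3.trans (show _ ≤ (1 + 6 * U) / 12 by linarith)) hcd0
      linarith
    · have h4 : ∫ x in (-(1 / 2) : ℝ)..(1 / 2), Real.exp (α * D * x + lk p (D * x + μ) - lk p μ) ≤
          ∫ x in (-(1 / 2) : ℝ)..(1 / 2), Real.exp (l * x) :=
        intervalIntegral.integral_mono_on (by norm_num)
          (Continuous.intervalIntegrable (by fun_prop) _ _)
          (Continuous.intervalIntegrable (by fun_prop) _ _) fun x _ => by
            have k1 := lk_le_tangent hp μ (D * x + μ)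
            rw [add_sub_cancel_right] at k1
            exact Real.exp_le_exp.2 (by rw [hl]; linarith)
      have h5 : (l ^ 2 / 24) ^ 2 ≤ U ^ 2 := pow_le_pow_left₀ (by positivity) hU 2
      linarith
  · have h1 := intervalIntegral.smul_integral_comp_mul_add (a := -(1 / 2)) (b := 1 / 2)
      (fun η => Real.exp (α * η) * kf p η) D μ
    rw [show D * -(1 / 2) + μ = a by rw [hD, hμ]; ring,
      show D * (1 / 2) + μ = b by rw [hD, hμ]; ring] at h1
    rw [← h1, smul_eq_mul, mul_assoc D, mul_assoc D]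
    congr 1
    rw [← intervalIntegral.integral_const_mul]
    congr 1
    funext x
    simp only [kf, ← Real.exp_add]
    congr 1
    ring

theorem var_le {f f' : ℝ → ℝ} {a b L : ℝ} (hab : a < b) (hf : ∀ t, HasDerivAt f (f' t) t)
    (hL : ∀ t ∈ Icc a b, |f' t| ≤ L) :
    (b - a) * ∫ t in a..b, f t ^ 2 ≤ (∫ t in a..b, f t) ^ 2 + (L * (b - a) ^ 2) ^ 2 / 12 := by
  have hc : Continuous f := continuous_iff_continuousAt.2 fun t => (hf t).continuousAt
  obtain ⟨m, hm⟩ : ∃ m, m = (a + b) / 2 := ⟨_, rfl⟩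
  have hmI : m ∈ Icc a b := ⟨by linarith, by linarith⟩
  have h1 : ∫ t in a..b, (f t ^ 2 - 2 * f m * f t + f m ^ 2) ≤ ∫ t in a..b, L ^ 2 * (t - m) ^ 2 :=
    intervalIntegral.integral_mono_on hab.le (Continuous.intervalIntegrable (by fun_prop) _ _)
      (Continuous.intervalIntegrable (by fun_prop) _ _) fun t ht => by
        have k := (convex_Icc a b).norm_image_sub_le_of_norm_hasDerivWithin_le
          (fun x _ => (hf x).hasDerivWithinAt) hL hmI ht
        have k2 := pow_le_pow_left₀ (norm_nonneg _) k 2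
        rw [mul_pow, Real.norm_eq_abs, Real.norm_eq_abs, sq_abs, sq_abs] at k2
        linarith
  rw [intervalIntegral.integral_add (Continuous.intervalIntegrable (by fun_prop) _ _)
    (Continuous.intervalIntegrable (by fun_prop) _ _), intervalIntegral.integral_sub
    (Continuous.intervalIntegrable (by fun_prop) _ _)
    (Continuous.intervalIntegrable (by fun_prop) _ _), intervalIntegral.integral_const_mul,
    intervalIntegral.integral_const_mul, intervalIntegral.integral_const,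
    intervalIntegral.integral_comp_sub_right (fun t => t ^ 2) m, integral_pow, smul_eq_mul] at h1
  have h2 := mul_le_mul_of_nonneg_left h1 (sub_pos.2 hab).le
  have h3 : (b - a) * (L ^ 2 * (((b - m) ^ (2 + 1) - (a - m) ^ (2 + 1)) / ((2 : ℕ) + 1))) =
      (L * (b - a) ^ 2) ^ 2 / 12 := by
    rw [hm]; push_cast; ring
  rw [h3] at h2
  nlinarith [sq_nonneg ((∫ t in a..b, f t) - (b - a) * f m)]

theorem near_K (hp : 0 < p) {γ a b S A P Q : ℝ} (hab : a < b) (hS : |γ * (b - a)| ≤ S)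
    (hA : ∀ t ∈ Icc a b, Af p γ t ≤ A) (hP : ∀ t ∈ Icc a b, (b - a) * kf p t ≤ P)
    (hQ : ∀ t ∈ Icc a b, (b - a) * |qf p t| ≤ Q) :
    (b - a) * ∫ t in a..b, cf p γ t ^ 2 ≤
      (Af p γ a - Af p γ b) ^ 2 + (S ^ 2 * A + (S + Q) * P) ^ 2 / 12 := by
  have hD : 0 < b - a := sub_pos.2 hab
  have h := var_le (L := (S ^ 2 * A + (S + Q) * P) / (b - a) ^ 2) hab (hasDerivAt_cf hp γ)
    fun t ht => by
      have k1 := Af_pos hp γ t
      have k2 := kf_pos p t
      have k3 : (γ * (b - a)) ^ 2 * Af p γ t ≤ S ^ 2 * A :=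
        mul_le_mul (by rw [← sq_abs]; exact pow_le_pow_left₀ (abs_nonneg _) hS 2) (hA t ht) k1.le
          (sq_nonneg _)
      have k4 : |γ + qf p t| * (b - a) ≤ S + Q := by
        have := mul_le_mul_of_nonneg_right (abs_add_le γ (qf p t)) hD.le
        rw [abs_mul, abs_of_pos hD] at hS
        linarith [hQ t ht]
      have k5 : |γ + qf p t| * (b - a) * ((b - a) * kf p t) ≤ (S + Q) * P :=
        mul_le_mul k4 (hP t ht) (by positivity) (le_trans (by positivity) k4)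
      rw [abs_neg, le_div_iff₀ (by positivity)]
      have k6 := abs_add_le (γ ^ 2 * Af p γ t) ((γ + qf p t) * kf p t)
      rw [abs_of_nonneg (a := γ ^ 2 * Af p γ t) (by positivity), abs_mul, abs_of_pos k2] at k6
      have k7 := mul_le_mul_of_nonneg_right k6 (sq_nonneg (b - a))
      nlinarith
  rwa [integral_cf hp, div_mul_cancel₀ _ (by positivity)] at h

theorem a4_sup {f : ℝ → ℝ} {a b M : ℝ} (hab : a < b) (hf : Continuous f)
    (h : ∀ t ∈ Icc a b, |(b - a) * f t| ≤ M) : (b - a) * ∫ t in a..b, f t ^ 2 ≤ M ^ 2 := by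
  have hD : 0 < b - a := sub_pos.2 hab
  have h1 : ∫ t in a..b, (b - a) ^ 2 * f t ^ 2 ≤ ∫ _ in a..b, M ^ 2 :=
    intervalIntegral.integral_mono_on hab.le (Continuous.intervalIntegrable (by fun_prop) _ _)
      (Continuous.intervalIntegrable (by fun_prop) _ _) fun t ht => by
        rw [← mul_pow, ← sq_abs]; exact pow_le_pow_left₀ (abs_nonneg _) (h t ht) 2
  rw [intervalIntegral.integral_const_mul, intervalIntegral.integral_const, smul_eq_mul, sq,
    mul_assoc] at h1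
  exact le_of_mul_le_mul_left h1 hD

theorem a4_SA (hp : 0 < p) {γ c S A t : ℝ} (hS : |γ * c| ≤ S) (hA : Af p γ t ≤ A) :
    |c * (γ * Af p γ t)| ≤ S * A := by
  have k := Af_pos hp γ t
  rw [← mul_assoc, mul_comm c, abs_mul, abs_of_pos k]
  exact mul_le_mul hS hA k.le ((abs_nonneg _).trans hS)

theorem sup_K (hp : 0 < p) {γ a b S A P : ℝ} (hab : a < b) (hS : |γ * (b - a)| ≤ S)
    (hA : ∀ t ∈ Icc a b, Af p γ t ≤ A) (hP : ∀ t ∈ Icc a b, (b - a) * kf p t ≤ P) :
    (b - a) * ∫ t in a..b, cf p γ t ^ 2 ≤ (S * A + P) ^ 2 := by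
  refine a4_sup hab (continuous_cf hp γ) fun t ht => ?_
  rw [cf, mul_add]
  refine (abs_add_le _ _).trans (add_le_add (a4_SA hp hS (hA t ht)) ?_)
  rw [abs_of_pos (mul_pos (sub_pos.2 hab) (kf_pos p t))]
  exact hP t ht

theorem a4_far (hp : 0 < p) {γ a t h : ℝ} (ht : a ≤ t) (hh : Af p γ a ≤ h) :
    (γ * Af p γ t) ^ 2 ≤ h ^ 2 * (γ ^ 2 * Real.exp (-(γ * (t - a))) ^ 2) := by
  have h1 := (Af_le_exp hp γ ht).trans (mul_le_mul_of_nonneg_left hh (Real.exp_pos _).le)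
  have h2 := mul_le_mul_of_nonneg_left (pow_le_pow_left₀ (Af_pos hp γ t).le h1 2) (sq_nonneg γ)
  rw [mul_pow] at h2 ⊢
  linarith

theorem a4_deriv (γ a t : ℝ) : HasDerivAt (fun t => Real.exp (-(γ * (t - a))) ^ 2)
    (-(2 * γ * Real.exp (-(γ * (t - a))) ^ 2)) t := by
  have h : HasDerivAt (fun t => -(γ * (t - a))) (-(γ * 1)) t :=
    (((hasDerivAt_id t).sub_const a).const_mul γ).neg
  exact (h.exp.fun_pow 2).congr_deriv (by norm_num; ring)

theorem far_K (hp : 0 < p) {γ a b h : ℝ} (hab : a < b) (hh : Af p γ a ≤ h) :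
    (b - a) * ∫ t in a..b, (γ * Af p γ t) ^ 2 ≤
      h ^ 2 * (γ * (b - a) * (1 - Real.exp (-(γ * (b - a))) ^ 2) / 2) := by
  have hc := continuous_Af hp γ
  have h1 : ∫ t in a..b, (γ * Af p γ t) ^ 2 ≤
      ∫ t in a..b, h ^ 2 * (γ ^ 2 * Real.exp (-(γ * (t - a))) ^ 2) :=
    intervalIntegral.integral_mono_on hab.le (Continuous.intervalIntegrable (by fun_prop) _ _)
      (Continuous.intervalIntegrable (by fun_prop) _ _) fun t ht => a4_far hp ht.1 hh
  rw [intervalIntegral.integral_const_mul, intervalIntegral.integral_eq_sub_of_hasDerivAt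
    (f := fun t => -(γ / 2) * Real.exp (-(γ * (t - a))) ^ 2)
    (f' := fun t => γ ^ 2 * Real.exp (-(γ * (t - a))) ^ 2)
    (fun t _ => ((a4_deriv γ a t).const_mul (-(γ / 2))).congr_deriv (by ring))
    (Continuous.intervalIntegrable (by fun_prop) _ _)] at h1
  have h2 := mul_le_mul_of_nonneg_left h1 (sub_pos.2 hab).le
  rw [sub_self, mul_zero, neg_zero, Real.exp_zero] at h2
  linarith

theorem far_sup_K (hp : 0 < p) {γ a b S A : ℝ} (hab : a < b) (hS : |γ * (b - a)| ≤ S)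
    (hA : ∀ t ∈ Icc a b, Af p γ t ≤ A) :
    (b - a) * ∫ t in a..b, (γ * Af p γ t) ^ 2 ≤ (S * A) ^ 2 :=
  a4_sup hab (continuous_const.mul (continuous_Af hp γ)) fun t ht => a4_SA hp hS (hA t ht)

theorem log_K (hp : 0 < p) {γ a b h u : ℝ} (hab : a < b) (hu : 0 ≤ u) (hh : Af p γ a ≤ h) :
    ∫ t in a..b, (γ * Af p γ t) ^ 2 * (t - a + u) ≤
      h ^ 2 * (((γ * u + γ * (b - a)) / 2 + 1 / 4) * (1 - Real.exp (-(γ * (b - a))) ^ 2) -
        γ * (b - a) / 2) := by
  have hc := continuous_Af hp γ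
  have h1 : ∫ t in a..b, (γ * Af p γ t) ^ 2 * (t - a + u) ≤
      ∫ t in a..b, h ^ 2 * (γ ^ 2 * Real.exp (-(γ * (t - a))) ^ 2 * (t - a + u)) :=
    intervalIntegral.integral_mono_on hab.le (Continuous.intervalIntegrable (by fun_prop) _ _)
      (Continuous.intervalIntegrable (by fun_prop) _ _) fun t ht => by
        rw [← mul_assoc]
        exact mul_le_mul_of_nonneg_right (a4_far hp ht.1 hh) (by linarith [ht.1])
  rw [intervalIntegral.integral_const_mul, intervalIntegral.integral_eq_sub_of_hasDerivAt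
    (f := fun t => -(γ / 2 * (t - a + u) + 1 / 4) * Real.exp (-(γ * (t - a))) ^ 2)
    (f' := fun t => γ ^ 2 * Real.exp (-(γ * (t - a))) ^ 2 * (t - a + u))
    (fun t _ => by
      have k : HasDerivAt (fun t => -(γ / 2 * (t - a + u) + 1 / 4)) (-(γ / 2 * 1)) t :=
        (((((hasDerivAt_id t).sub_const a).add_const u).const_mul (γ / 2)).add_const (1 / 4)).neg
      exact (k.fun_mul (a4_deriv γ a t)).congr_deriv (by ring))
    (Continuous.intervalIntegrable (by fun_prop) _ _)] at h1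
  rw [sub_self, mul_zero, neg_zero, Real.exp_zero] at h1
  linarith

theorem log_sup_K (hp : 0 < p) {γ a b u S S0 A : ℝ} (hab : a < b) (hu : 0 ≤ u)
    (hS : |γ * (b - a)| ≤ S) (hS0 : |γ * u| ≤ S0) (hA : ∀ t ∈ Icc a b, Af p γ t ≤ A) :
    ∫ t in a..b, (γ * Af p γ t) ^ 2 * (t - a + u) ≤ A ^ 2 * (S * (S + S0)) := by
  have hc := continuous_Af hp γ
  have h1 : ∫ t in a..b, (γ * Af p γ t) ^ 2 * (t - a + u) ≤
      ∫ _ in a..b, γ ^ 2 * A ^ 2 * (b - a + u) :=
    intervalIntegral.integral_mono_on hab.le (Continuous.intervalIntegrable (by fun_prop) _ _)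
      (Continuous.intervalIntegrable (by fun_prop) _ _) fun t ht => by
        rw [mul_pow]
        exact mul_le_mul (mul_le_mul_of_nonneg_left
          (pow_le_pow_left₀ (Af_pos hp γ t).le (hA t ht) 2) (sq_nonneg γ)) (by linarith [ht.2])
          (by linarith [ht.1]) (by positivity)
  rw [intervalIntegral.integral_const, smul_eq_mul] at h1
  have h0 := (abs_nonneg _).trans hS
  have h2 : γ * (b - a) * (γ * (b - a) + γ * u) ≤ S * (S + S0) := by
    refine (le_abs_self _).trans ?_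
    rw [abs_mul]
    exact mul_le_mul hS ((abs_add_le _ _).trans (add_le_add hS hS0)) (abs_nonneg _) h0
  have h3 := mul_le_mul_of_nonneg_left h2 (sq_nonneg A)
  linarith

theorem titu {x y b c : ℝ} (hb : 0 < b) (hc : 0 < c) :
    (x + y) ^ 2 / (b + c) ≤ x ^ 2 / b + y ^ 2 / c := by
  rw [div_add_div _ _ hb.ne' hc.ne', div_le_div_iff₀ (by positivity) (by positivity)]
  nlinarith [sq_nonneg (x * c - y * b)]

theorem log_one_add_le_sqrt {x : ℝ} (hx : 0 ≤ x) : Real.log (1 + x) ≤ Real.sqrt x := by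
  rw [Real.log_le_iff_le_exp (by linarith)]
  have h0 := Real.sqrt_nonneg x
  have h1 := Real.sum_le_exp_of_nonneg h0 4
  have h2 := Real.sq_sqrt hx
  generalize Real.sqrt x = s at h0 h1 h2
  simp only [Finset.sum_range_succ, Finset.range_zero, Finset.sum_empty, Nat.factorial] at h1
  norm_num at h1
  nlinarith [mul_nonneg h0 (sq_nonneg (s - 3 / 2))]

end Pool.Agent.Eps.T
end
end

-- part Pool.Agent.Lib.MP_3bda03_nt.T.Mac
section

/-! The elementary programs compute what they should. -/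

set_option autoImplicit false

namespace Pool.Agent.Eps.T

variable {r : Ck} {s d : List ℝ}

theorem mac_near {t c h : ℝ} (h1 : c ≤ t) (h2 : t ≤ c + 2 * h) : |t - (c + h)| ≤ h :=
  abs_le.2 ⟨by linarith, by linarith⟩

theorem invP_elim {x : ℝ} (H : (invP r).holds (x :: s) d) :
    0 < x ∧ ∃ y : ℝ, y = x⁻¹ ∧ r.holds (y :: s) d := by
  obtain ⟨y, hy, u, hu, U, hU, hU2, h, rfl, K⟩ := invP_spec H
  obtain ⟨h1, h2⟩ := abs_le.1 hU
  have h0 : 0 ≤ U := (abs_nonneg u).trans hU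
  have hp : 0 < 1 + u := by linarith
  have hx : 0 < x := (pos_iff_pos_of_mul_pos (show 0 < x * y by linarith)).2 hy
  have e : x⁻¹ = y * (1 - u) + y * (u ^ 2 / (1 + u)) := by
    have e1 : 1 + u = x * y := by linarith
    rw [← mul_add, show 1 - u + u ^ 2 / (1 + u) = (1 + u)⁻¹ by field_simp; ring, e1]
    field_simp
  have k : u ^ 2 / (1 + u) ≤ U ^ 2 * (1 + 2 * U) := by
    rw [div_le_iff₀ hp]
    have k1 : u ^ 2 ≤ U ^ 2 := sq_le_sq' h1 h2
    have k2 : 1 ≤ (1 + 2 * U) * (1 + u) := by nlinarith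
    nlinarith [sq_nonneg U]
  refine ⟨hx, _, rfl, K _ (mac_near ?_ ?_)⟩
  · rw [e]
    exact le_add_of_nonneg_right (by positivity)
  · rw [e]
    nlinarith [mul_le_mul_of_nonneg_left k hy.le]

theorem mac_log {u U : ℝ} (hU : |u| ≤ U) (hU2 : U ≤ 1 / 2) :
    u - U ^ 2 / 2 - U ^ 3 ≤ Real.log (1 + u) := by
  have h0 : 0 ≤ U := (abs_nonneg u).trans hU
  have h1 : |-u| < 1 := by
    rw [abs_neg]
    linarith
  have k := Real.abs_log_sub_add_sum_range_le h1 4
  rw [abs_neg, sub_neg_eq_add] at k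
  simp only [Finset.sum_range_succ, Finset.sum_range_zero] at k
  have p : ∀ n : ℕ, |u ^ n| ≤ U ^ n := fun n => by
    rw [abs_pow]
    exact pow_le_pow_left₀ (abs_nonneg u) hU n
  have k5 : |u| ^ (4 + 1) / (1 - |u|) ≤ U ^ 3 / 2 := by
    rw [div_le_iff₀ (by linarith)]
    have a1 : |u| ^ (4 + 1) ≤ U ^ 5 := pow_le_pow_left₀ (abs_nonneg u) hU 5
    have a2 : U ^ 2 ≤ 1 / 4 := by nlinarith
    have a3 : 0 ≤ U ^ 3 := by positivity
    have a5 : (1 / 2 : ℝ) ≤ 1 - |u| := by linarith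
    calc |u| ^ (4 + 1) ≤ U ^ 3 * U ^ 2 := a1.trans_eq (by ring)
      _ ≤ U ^ 3 * (1 / 4) := by gcongr
      _ = U ^ 3 / 2 * (1 / 2) := by ring
      _ ≤ _ := by gcongr
  have k1 := (abs_le.1 (k.trans k5)).1
  have p2 := (abs_le.1 (p 2)).2
  have p3 := (abs_le.1 (p 3)).1
  have p4 := (abs_le.1 (p 4)).2
  have a4 : U ^ 4 ≤ U ^ 3 / 2 := by nlinarith [pow_nonneg h0 3]
  push_cast at k1
  nlinarith [pow_nonneg h0 3]

theorem lgP_elim {x : ℝ} {y : ℕ} (H : (lgP y r).holds (x :: s) d) :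
    0 < x ∧ ∃ t : ℝ, t = Real.log x ∧ r.holds (t :: s) d := by
  obtain ⟨u, hu, U, hU, hU2, h, rfl, K⟩ := lgP_spec H
  have hp : 0 < 1 + u := by linarith [(abs_le.1 hU).1]
  have hE := Real.exp_pos (-val y)
  have hx : 0 < x := (pos_iff_pos_of_mul_pos
    (show 0 < x * Real.exp (-val y) by linarith)).2 hE
  have e : Real.log (1 + u) = Real.log x - val y := by
    rw [show 1 + u = x * Real.exp (-val y) by linarith, Real.log_mul hx.ne' hE.ne', Real.log_exp]
    ring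
  have k1 := mac_log hU hU2
  have k2 := Real.log_le_sub_one_of_pos hp
  refine ⟨hx, _, rfl, K _ (abs_le.2 ⟨?_, ?_⟩)⟩ <;> nlinarith

theorem sqrtP_elim {x : ℝ} {g : ℕ} (H : (sqrtP g r).holds (x :: s) d) :
    0 < x ∧ ∃ t : ℝ, t = Real.sqrt x ∧ r.holds (t :: s) d := by
  obtain ⟨hg, xg, rfl, u, hu, U, hU, hU2, h, rfl, K⟩ := sqrtP_spec H
  obtain ⟨h1, h2⟩ := abs_le.1 hU
  have hx : 0 < x := (pos_iff_pos_of_mul_pos
    ((pos_iff_pos_of_mul_pos (show 0 < x * val g * val g by linarith)).2 hg)).2 hg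
  have hs := Real.sqrt_pos.2 hx
  obtain ⟨a, ha⟩ : ∃ a, a = Real.sqrt x * val g := ⟨_, rfl⟩
  have a0 : 0 < a := ha ▸ mul_pos hs hg
  have a2 : u = a ^ 2 - 1 := by
    rw [ha, mul_pow, Real.sq_sqrt hx.le, hu]
    ring
  have a1 : 4 / 5 ≤ a := by
    by_contra k
    nlinarith
  have e : a⁻¹ = 1 - 1 / 2 * u + (a - 1) ^ 2 * ((a + 2) / (2 * a)) := by
    rw [a2]
    field_simp
    ring
  have k : (a + 2) / (2 * a) ≤ (a + 1) ^ 2 := by
    rw [div_le_iff₀ (by positivity)]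
    nlinarith [mul_nonneg a0.le (sq_nonneg a)]
  have k1 : (a - 1) ^ 2 * (a + 1) ^ 2 ≤ U ^ 2 := by
    rw [show (a - 1) ^ 2 * (a + 1) ^ 2 = u ^ 2 by rw [a2]; ring]
    exact sq_le_sq' h1 h2
  obtain ⟨w, hw, R⟩ := K a⁻¹ (mac_near (by
    rw [e]
    exact le_add_of_nonneg_right (by positivity)) (by
    rw [e]
    linarith [mul_le_mul_of_nonneg_left k (sq_nonneg (a - 1))]))
  refine ⟨hx, w, ?_, R⟩
  rw [hw, ha]
  field_simp
  exact (Real.sq_sqrt hx.le).symm

theorem mac_exp {x : ℝ} (hx : |x| ≤ 2) :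
    |Real.exp x - ∑ m ∈ Finset.range 11, x ^ m / (m.factorial : ℝ)| ≤
      |x| ^ 11 / 39916800 * 2 := by
  have k := Complex.exp_bound' (x := (x : ℂ)) (n := 11) (by
    rw [Complex.norm_real, Real.norm_eq_abs]
    push_cast
    linarith)
  rw [Complex.norm_real, Real.norm_eq_abs] at k
  have e : Complex.exp (x : ℂ) - ∑ m ∈ Finset.range 11, (x : ℂ) ^ m / (m.factorial : ℂ) =
      ((Real.exp x - ∑ m ∈ Finset.range 11, x ^ m / (m.factorial : ℝ) : ℝ) : ℂ) := by
    push_cast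
    rfl
  rw [e, Complex.norm_real, Real.norm_eq_abs] at k
  simpa [Nat.factorial] using k

theorem mac_ps {x X : ℝ} (hx : |x| ≤ X) (h2 : X ≤ 2) :
    ∃ ps : ℝ, x ^ 2 * ps = Real.exp x - 1 - x ∧
      |ps - ((1 / 2 : ℝ) + x * ((1 / 6 : ℝ) + x * ((1 / 24 : ℝ) + x * ((1 / 120 : ℝ) + x *
      ((1 / 720 : ℝ) + x * ((1 / 5040 : ℝ) + x * ((1 / 40320 : ℝ) + x * ((1 / 362880 : ℝ) + x * (1
      / 3628800 : ℝ)))))))))| ≤ ((X ^ 2) ^ 2) ^ 2 * X * (2 / 39916800 : ℝ) := by
  have h0 : 0 ≤ X := (abs_nonneg x).trans hx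
  rcases eq_or_ne x 0 with rfl | hne
  · refine ⟨1 / 2, by simp, ?_⟩
    simp only [zero_mul, add_zero, sub_self, abs_zero]
    positivity
  · have hp : 0 < |x| := abs_pos.2 hne
    refine ⟨(Real.exp x - 1 - x) / x ^ 2, by field_simp, ?_⟩
    have k := mac_exp (hx.trans h2)
    have e : (Real.exp x - 1 - x) / x ^ 2 - ((1 / 2 : ℝ) + x * ((1 / 6 : ℝ) + x * ((1 / 24 : ℝ) +
        x * ((1 / 120 : ℝ) + x * ((1 / 720 : ℝ) + x * ((1 / 5040 : ℝ) + x * ((1 / 40320 : ℝ) +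
        x * ((1 / 362880 : ℝ) + x * (1 / 3628800 : ℝ))))))))) =
        (Real.exp x - ∑ m ∈ Finset.range 11, x ^ m / (m.factorial : ℝ)) / x ^ 2 := by
      simp only [Finset.sum_range_succ, Finset.sum_range_zero, Nat.factorial]
      push_cast
      field_simp
      ring
    rw [e, abs_div, abs_pow, div_le_iff₀ (by positivity)]
    refine k.trans ?_
    have k9 : |x| ^ 9 ≤ X ^ 9 := pow_le_pow_left₀ hp.le hx 9
    calc |x| ^ 11 / 39916800 * 2 = |x| ^ 9 * (2 / 39916800 * |x| ^ 2) := by ring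
      _ ≤ X ^ 9 * (2 / 39916800 * |x| ^ 2) := by gcongr
      _ = _ := by ring

theorem kqP_elim {p xi : ℝ} (hp : 0 < p) (H : (kqP r).holds (xi :: p :: s) d) :
    ∃ l q ep : ℝ, l = lk p xi ∧ q = qf p xi ∧ ep = Real.exp (p * xi) ∧
      r.holds (ep :: q :: l :: s) d := by
  obtain ⟨x, hx, X, hX, h2, K⟩ := kqP_spec H
  obtain ⟨ps, e, k⟩ := mac_ps hX h2
  obtain ⟨l, hl, ch, rfl, q, hq, ep, hep, R⟩ := K ps k
  refine ⟨l, q, ep, ?_, ?_, ?_, R⟩
  · rw [hl, lk, ← hx, ← e, hx]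
    field_simp
  · rw [hq, qf, ← hx, show Real.exp x - 1 = x ^ 2 * ps + x by linarith, hx]
    field_simp
    ring
  · rw [hep, ← hx]
    linarith

theorem shP_elim {cd l : ℝ} (t : ℝ) (h : ShR l cd t) (H : (shP r).holds (cd :: l :: s) d) :
    r.holds (t :: s) d := by
  obtain ⟨u, rfl, U, hU, h1, lo, rfl, hi, rfl, K⟩ := shP_spec H
  obtain ⟨k1, k2⟩ := h U (by linarith [(abs_le.1 hU).2]) h1
  exact K t (abs_le.2 ⟨by linarith, by linarith⟩)

end Pool.Agent.Eps.T
end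

-- part Pool.Agent.Lib.MP_3bda03_nt.T.Spec3
section

/-! The meaning of the check programs, step by step (generated). -/

set_option autoImplicit false
set_option linter.unusedSimpArgs false

namespace Pool.Agent.Eps.T

theorem begF_spec {z1 z2 mu dl mm : ℕ} {r : Ck} {KB sig lam p Lam ibi iT i2 : ℝ} {s d : List ℝ}
    (hp : 0 < p) (H : (begF z1 z2 mu dl mm r).holds (KB :: sig :: lam :: p :: Lam :: ibi :: iT ::
    i2 :: s) (d)) :
    ∀ z : ℝ, val z1 ≤ z → z ≤ val z2 →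
    ∃ al : ℝ, al = z * lam ∧
    ∃ l q ep : ℝ, l = lk p (val mu) ∧ q = qf p (val mu) ∧ ep = Real.exp (p * val mu) ∧
    ∃ pd : ℝ, |p * val dl| ≤ pd ∧
    pd ≤ 1 ∧
    ((1 / 2 : ℝ) * val dl - val mu) * lam ≤ 1 ∧
    ∃ eU : ℝ, |ep| ≤ eU ∧
    ∃ y : ℝ, 0 < y ∧
    (1 : ℝ) ≤ y * val dl ∧
    ∃ J : ℝ, |Real.exp ((1 / 24 : ℝ) * eU * (1 + pd) * (val dl) ^ 2 - z - al * val mu - l) * y| ≤
      J ∧
    ∃ J7 : ℝ, J7 = (14 / 5 : ℝ) * J ∧
    ∃ M : ℝ, M = -(2 * val mm * J7) ∧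
    ∃ I : ℝ, I = 2 * J ^ 2 * i2 ∧
    ∃ E : ℝ, E = (1 : ℝ) ∧
    r.holds (E :: I :: M :: z :: J :: J7 :: al :: KB :: sig :: lam :: p :: Lam :: ibi :: iT :: i2
      :: s) (d) := by
  unfold begF at H
  intro z k_ k2_
  replace H := H.box_elim z k_ k2_
  clear k_ k2_
  obtain ⟨al, k_, H⟩ := H.slet_elim
  refine ⟨al, (by simpa only [Ex.val, List.getD_cons_zero, List.getD_cons_succ, Nat.cast_ofNat,
    Nat.cast_one, Nat.cast_zero] using k_), ?_⟩
  clear k_
  replace H := H.slet_raw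
  replace H := H.slet_raw
  obtain ⟨l, q, ep, k_, k1_, k2_, H⟩ := kqP_elim hp H
  refine ⟨l, q, ep, (by simpa only [Ex.val, List.getD_cons_zero, List.getD_cons_succ,
    Nat.cast_ofNat, Nat.cast_one, Nat.cast_zero] using k_), (by simpa only [Ex.val,
    List.getD_cons_zero, List.getD_cons_succ, Nat.cast_ofNat, Nat.cast_one, Nat.cast_zero] using
    k1_), (by simpa only [Ex.val, List.getD_cons_zero, List.getD_cons_succ, Nat.cast_ofNat,
    Nat.cast_one, Nat.cast_zero] using k2_), ?_⟩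
  clear k_ k1_ k2_
  obtain ⟨pd, k_, H⟩ := H.uabs_elim
  refine ⟨pd, (by simpa only [Ex.val, List.getD_cons_zero, List.getD_cons_succ, Nat.cast_ofNat,
    Nat.cast_one, Nat.cast_zero] using k_), ?_⟩
  clear k_
  obtain ⟨k_, H⟩ := H.le_elim
  refine ⟨(by simpa only [Ex.val, List.getD_cons_zero, List.getD_cons_succ, Nat.cast_ofNat,
    Nat.cast_one, Nat.cast_zero] using k_), ?_⟩
  clear k_
  obtain ⟨k_, H⟩ := H.le_elim
  refine ⟨(by simpa only [Ex.val, List.getD_cons_zero, List.getD_cons_succ, Nat.cast_ofNat,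
    Nat.cast_one, Nat.cast_zero] using k_), ?_⟩
  clear k_
  obtain ⟨eU, k_, H⟩ := H.uabs_elim
  refine ⟨eU, (by simpa only [Ex.val, List.getD_cons_zero, List.getD_cons_succ, Nat.cast_ofNat,
    Nat.cast_one, Nat.cast_zero] using k_), ?_⟩
  clear k_
  obtain ⟨y, k_, H⟩ := H.rcp_elim
  refine ⟨y, k_, ?_⟩
  clear k_
  obtain ⟨k_, H⟩ := H.le_elim
  refine ⟨(by simpa only [Ex.val, List.getD_cons_zero, List.getD_cons_succ, Nat.cast_ofNat,
    Nat.cast_one, Nat.cast_zero] using k_), ?_⟩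
  clear k_
  obtain ⟨J, k_, H⟩ := H.uabs_elim
  refine ⟨J, (by simpa only [Ex.val, List.getD_cons_zero, List.getD_cons_succ, Nat.cast_ofNat,
    Nat.cast_one, Nat.cast_zero] using k_), ?_⟩
  clear k_
  obtain ⟨J7, k_, H⟩ := H.slet_elim
  refine ⟨J7, (by simpa only [Ex.val, List.getD_cons_zero, List.getD_cons_succ, Nat.cast_ofNat,
    Nat.cast_one, Nat.cast_zero] using k_), ?_⟩
  clear k_
  obtain ⟨M, k_, H⟩ := H.slet_elim
  refine ⟨M, (by simpa only [Ex.val, List.getD_cons_zero, List.getD_cons_succ, Nat.cast_ofNat,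
    Nat.cast_one, Nat.cast_zero] using k_), ?_⟩
  clear k_
  obtain ⟨I, k_, H⟩ := H.slet_elim
  refine ⟨I, (by simpa only [Ex.val, List.getD_cons_zero, List.getD_cons_succ, Nat.cast_ofNat,
    Nat.cast_one, Nat.cast_zero] using k_), ?_⟩
  clear k_
  obtain ⟨E, k_, H⟩ := H.slet_elim
  refine ⟨E, (by simpa only [Ex.val, List.getD_cons_zero, List.getD_cons_succ, Nat.cast_ofNat,
    Nat.cast_one, Nat.cast_zero] using k_), ?_⟩
  clear k_
  have H := H.slet_var
  have H := H.slet_var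
  have H := H.slet_var
  have H := H.slet_var
  have H := H.slet_var
  have H := H.slet_var
  have H := H.slet_var
  replace H := H.cut_elim
  simpa only [List.take_succ_cons, List.take_zero, List.drop_succ_cons, List.drop_zero,
    List.cons_append, List.nil_append, List.getD_cons_zero, List.getD_cons_succ, Nat.reduceAdd]
    using H

theorem lF_spec {v0 : ℕ} {r : Ck} {E I M z J J7 al KB sig sl ib : ℝ} {s d : List ℝ}  (H : (lF v0
    r).holds (E :: I :: M :: z :: J :: J7 :: al :: KB :: sig :: s) (sl :: ib :: d)) :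
    ∃ s1 : ℝ, s1 = sl * z ∧
    ∃ Ei : ℝ, Ei = Real.exp (-s1) ∧
    ∃ S : ℝ, |s1| ≤ S ∧
    ∃ s0 : ℝ, s0 = val v0 * (z * sig) ∧
    ∃ S0 : ℝ, |s0| ≤ S0 ∧
    ∃ I1 : ℝ, I1 = I + ib * (((1 / 2 : ℝ) * (s0 + s1) + (1 / 4 : ℝ)) * (1 - Ei ^ 2) - (1 / 2 : ℝ)
      * s1 + J7 ^ 2 * S * (S + S0)) ∧
    r.holds (Ei :: I1 :: M :: z :: J :: J7 :: al :: KB :: sig :: s) (d) := by
  unfold lF at H
  replace H := H.pop_elim
  replace H := H.pop_elim
  obtain ⟨s1, k_, H⟩ := H.slet_elim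
  refine ⟨s1, (by simpa only [Ex.val, List.getD_cons_zero, List.getD_cons_succ, Nat.cast_ofNat,
    Nat.cast_one, Nat.cast_zero] using k_), ?_⟩
  clear k_
  obtain ⟨Ei, k_, H⟩ := H.slet_elim
  refine ⟨Ei, (by simpa only [Ex.val, List.getD_cons_zero, List.getD_cons_succ, Nat.cast_ofNat,
    Nat.cast_one, Nat.cast_zero] using k_), ?_⟩
  clear k_
  obtain ⟨S, k_, H⟩ := H.uabs_elim
  refine ⟨S, (by simpa only [Ex.val, List.getD_cons_zero, List.getD_cons_succ, Nat.cast_ofNat,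
    Nat.cast_one, Nat.cast_zero] using k_), ?_⟩
  clear k_
  obtain ⟨s0, k_, H⟩ := H.slet_elim
  refine ⟨s0, (by simpa only [Ex.val, List.getD_cons_zero, List.getD_cons_succ, Nat.cast_ofNat,
    Nat.cast_one, Nat.cast_zero] using k_), ?_⟩
  clear k_
  obtain ⟨S0, k_, H⟩ := H.uabs_elim
  refine ⟨S0, (by simpa only [Ex.val, List.getD_cons_zero, List.getD_cons_succ, Nat.cast_ofNat,
    Nat.cast_one, Nat.cast_zero] using k_), ?_⟩
  clear k_
  obtain ⟨I1, k_, H⟩ := H.slet_elim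
  refine ⟨I1, (by simpa only [Ex.val, List.getD_cons_zero, List.getD_cons_succ, Nat.cast_ofNat,
    Nat.cast_one, Nat.cast_zero] using k_), ?_⟩
  clear k_
  have H := H.slet_var
  have H := H.slet_var
  replace H := H.cut_elim
  simpa only [List.take_succ_cons, List.take_zero, List.drop_succ_cons, List.drop_zero,
    List.cons_append, List.nil_append, List.getD_cons_zero, List.getD_cons_succ, Nat.reduceAdd]
    using H

theorem fF_spec {m : ℕ} {r : Ck} {E I M z J J7 sl yl ib : ℝ} {s d : List ℝ}  (H : (fF m r).holds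
    (E :: I :: M :: z :: J :: J7 :: s) (sl :: yl :: ib :: d)) :
    ∃ s1 : ℝ, s1 = sl * z ∧
    ∃ Ei : ℝ, Ei = Real.exp (-s1) ∧
    ∃ S : ℝ, |s1| ≤ S ∧
    ∃ M1 : ℝ, M1 = M + val m * (E * (1 - Ei)) ∧
    ∃ I1 : ℝ, I1 = I + ib * ((1 / 2 : ℝ) * s1 * E ^ 2 * (1 - Ei ^ 2) + (J7 * S) ^ 2) ∧
    ∃ E1 : ℝ, E1 = E * Ei ∧
    r.holds (E1 :: I1 :: M1 :: z :: J :: J7 :: s) (d) := by
  unfold fF at H
  replace H := H.pop_elim
  replace H := H.pop_elim
  replace H := H.pop_elim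
  obtain ⟨s1, k_, H⟩ := H.slet_elim
  refine ⟨s1, (by simpa only [Ex.val, List.getD_cons_zero, List.getD_cons_succ, Nat.cast_ofNat,
    Nat.cast_one, Nat.cast_zero] using k_), ?_⟩
  clear k_
  obtain ⟨Ei, k_, H⟩ := H.slet_elim
  refine ⟨Ei, (by simpa only [Ex.val, List.getD_cons_zero, List.getD_cons_succ, Nat.cast_ofNat,
    Nat.cast_one, Nat.cast_zero] using k_), ?_⟩
  clear k_
  obtain ⟨S, k_, H⟩ := H.uabs_elim
  refine ⟨S, (by simpa only [Ex.val, List.getD_cons_zero, List.getD_cons_succ, Nat.cast_ofNat,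
    Nat.cast_one, Nat.cast_zero] using k_), ?_⟩
  clear k_
  obtain ⟨M1, k_, H⟩ := H.slet_elim
  refine ⟨M1, (by simpa only [Ex.val, List.getD_cons_zero, List.getD_cons_succ, Nat.cast_ofNat,
    Nat.cast_one, Nat.cast_zero] using k_), ?_⟩
  clear k_
  obtain ⟨I1, k_, H⟩ := H.slet_elim
  refine ⟨I1, (by simpa only [Ex.val, List.getD_cons_zero, List.getD_cons_succ, Nat.cast_ofNat,
    Nat.cast_one, Nat.cast_zero] using k_), ?_⟩
  clear k_
  obtain ⟨E1, k_, H⟩ := H.slet_elim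
  refine ⟨E1, (by simpa only [Ex.val, List.getD_cons_zero, List.getD_cons_succ, Nat.cast_ofNat,
    Nat.cast_one, Nat.cast_zero] using k_), ?_⟩
  clear k_
  replace H := H.cut_elim
  simpa only [List.take_succ_cons, List.take_zero, List.drop_succ_cons, List.drop_zero,
    List.cons_append, List.nil_append, List.getD_cons_zero, List.getD_cons_succ, Nat.reduceAdd]
    using H

theorem nF_spec {m : ℕ} {r : Ck} {E I M z J J7 sl yl Km qd cd P Q ib : ℝ} {s d : List ℝ}  (H : (nF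
    m r).holds (E :: I :: M :: z :: J :: J7 :: s) (sl :: yl :: Km :: qd :: cd :: P :: Q :: ib ::
    d)) :
    ∃ s1 : ℝ, s1 = sl * z ∧
    ∃ Ei : ℝ, Ei = Real.exp (-s1) ∧
    ∃ S : ℝ, |s1| ≤ S ∧
    ∃ d0 : ℝ, d0 = E * (1 - Ei) ∧
    ∃ JP : ℝ, JP = J * P ∧
    ∃ u1 : ℝ, |E| ≤ u1 ∧
    ∃ M1 : ℝ, M1 = M + val m * d0 ∧
    ∃ I1 : ℝ, I1 = I + ib * ((d0 + JP) ^ 2 + (1 / 12 : ℝ) * (S ^ 2 * u1 + (S + Q) * JP) ^ 2 + (JP
      + J7 * S) ^ 2) ∧
    ∃ E1 : ℝ, E1 = E * Ei ∧
    r.holds (E1 :: I1 :: M1 :: z :: J :: J7 :: s) (d) := by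
  unfold nF at H
  replace H := H.pop_elim
  replace H := H.pop_elim
  replace H := H.pop_elim
  replace H := H.pop_elim
  replace H := H.pop_elim
  replace H := H.pop_elim
  replace H := H.pop_elim
  replace H := H.pop_elim
  obtain ⟨s1, k_, H⟩ := H.slet_elim
  refine ⟨s1, (by simpa only [Ex.val, List.getD_cons_zero, List.getD_cons_succ, Nat.cast_ofNat,
    Nat.cast_one, Nat.cast_zero] using k_), ?_⟩
  clear k_
  obtain ⟨Ei, k_, H⟩ := H.slet_elim
  refine ⟨Ei, (by simpa only [Ex.val, List.getD_cons_zero, List.getD_cons_succ, Nat.cast_ofNat,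
    Nat.cast_one, Nat.cast_zero] using k_), ?_⟩
  clear k_
  obtain ⟨S, k_, H⟩ := H.uabs_elim
  refine ⟨S, (by simpa only [Ex.val, List.getD_cons_zero, List.getD_cons_succ, Nat.cast_ofNat,
    Nat.cast_one, Nat.cast_zero] using k_), ?_⟩
  clear k_
  obtain ⟨d0, k_, H⟩ := H.slet_elim
  refine ⟨d0, (by simpa only [Ex.val, List.getD_cons_zero, List.getD_cons_succ, Nat.cast_ofNat,
    Nat.cast_one, Nat.cast_zero] using k_), ?_⟩
  clear k_
  obtain ⟨JP, k_, H⟩ := H.slet_elim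
  refine ⟨JP, (by simpa only [Ex.val, List.getD_cons_zero, List.getD_cons_succ, Nat.cast_ofNat,
    Nat.cast_one, Nat.cast_zero] using k_), ?_⟩
  clear k_
  obtain ⟨u1, k_, H⟩ := H.uabs_elim
  refine ⟨u1, (by simpa only [Ex.val, List.getD_cons_zero, List.getD_cons_succ, Nat.cast_ofNat,
    Nat.cast_one, Nat.cast_zero] using k_), ?_⟩
  clear k_
  obtain ⟨M1, k_, H⟩ := H.slet_elim
  refine ⟨M1, (by simpa only [Ex.val, List.getD_cons_zero, List.getD_cons_succ, Nat.cast_ofNat,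
    Nat.cast_one, Nat.cast_zero] using k_), ?_⟩
  clear k_
  obtain ⟨I1, k_, H⟩ := H.slet_elim
  refine ⟨I1, (by simpa only [Ex.val, List.getD_cons_zero, List.getD_cons_succ, Nat.cast_ofNat,
    Nat.cast_one, Nat.cast_zero] using k_), ?_⟩
  clear k_
  obtain ⟨E1, k_, H⟩ := H.slet_elim
  refine ⟨E1, (by simpa only [Ex.val, List.getD_cons_zero, List.getD_cons_succ, Nat.cast_ofNat,
    Nat.cast_one, Nat.cast_zero] using k_), ?_⟩
  clear k_
  replace H := H.cut_elim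
  simpa only [List.take_succ_cons, List.take_zero, List.drop_succ_cons, List.drop_zero,
    List.cons_append, List.nil_append, List.getD_cons_zero, List.getD_cons_succ, Nat.reduceAdd]
    using H

theorem tlF_spec {w : ℕ} {r : Ck} {E I M z J J7 al KB sig lam p Lam ibi iT i2 kc qc Wm : ℝ} {s d :
    List ℝ}  (H : (tlF w r).holds (E :: I :: M :: z :: J :: J7 :: al :: KB :: sig :: lam :: p ::
    Lam :: ibi :: iT :: i2 :: kc :: qc :: Wm :: s) (d)) :
    ∃ EU : ℝ, |E| ≤ EU ∧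
    ∃ A : ℝ, |al| ≤ A ∧
    ∃ W : ℝ, W = (val w + A) ^ 2 ∧
    ∃ I1 : ℝ, I1 = I + (EU ^ 2 + J7 ^ 2) * ibi + (EU * (J * (1 + W) + (J + A * EU) * W) + J7 * J *
      Wm) * iT ∧
    ∃ d2 : ℝ, d2 = 2 * (z * sig) ∧
    r.holds (d2 :: I1 :: M :: J :: J7 :: KB :: sig :: lam :: p :: Lam :: ibi :: iT :: i2 :: kc ::
      qc :: Wm :: s) (d) := by
  unfold tlF at H
  obtain ⟨EU, k_, H⟩ := H.uabs_elim
  refine ⟨EU, (by simpa only [Ex.val, List.getD_cons_zero, List.getD_cons_succ, Nat.cast_ofNat,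
    Nat.cast_one, Nat.cast_zero] using k_), ?_⟩
  clear k_
  obtain ⟨A, k_, H⟩ := H.uabs_elim
  refine ⟨A, (by simpa only [Ex.val, List.getD_cons_zero, List.getD_cons_succ, Nat.cast_ofNat,
    Nat.cast_one, Nat.cast_zero] using k_), ?_⟩
  clear k_
  obtain ⟨W, k_, H⟩ := H.slet_elim
  refine ⟨W, (by simpa only [Ex.val, List.getD_cons_zero, List.getD_cons_succ, Nat.cast_ofNat,
    Nat.cast_one, Nat.cast_zero] using k_), ?_⟩
  clear k_
  obtain ⟨I1, k_, H⟩ := H.slet_elim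
  refine ⟨I1, (by simpa only [Ex.val, List.getD_cons_zero, List.getD_cons_succ, Nat.cast_ofNat,
    Nat.cast_one, Nat.cast_zero] using k_), ?_⟩
  clear k_
  obtain ⟨d2, k_, H⟩ := H.slet_elim
  refine ⟨d2, (by simpa only [Ex.val, List.getD_cons_zero, List.getD_cons_succ, Nat.cast_ofNat,
    Nat.cast_one, Nat.cast_zero] using k_), ?_⟩
  clear k_
  have H := H.slet_var
  have H := H.slet_var
  have H := H.slet_var
  have H := H.slet_var
  have H := H.slet_var
  replace H := H.cut_elim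
  simpa only [List.take_succ_cons, List.take_zero, List.drop_succ_cons, List.drop_zero,
    List.cons_append, List.nil_append, List.getD_cons_zero, List.getD_cons_succ, Nat.reduceAdd]
    using H

theorem muA_spec  {r : Ck} {d2 I M J J7 KB sig lam p Lam ibi iT i2 kc qc Wm sr srU B1 Bp EA EB :
    ℝ} {s d : List ℝ}  (H : (muA  r).holds (d2 :: I :: M :: J :: J7 :: KB :: sig :: lam :: p ::
    Lam :: ibi :: iT :: i2 :: kc :: qc :: Wm :: sr :: srU :: B1 :: Bp :: EA :: EB :: s) (d)) :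
    ∃ y : ℝ, 0 < y ∧
    (1 : ℝ) ≤ y * ((39 / 50 : ℝ) - d2) ∧
    ∃ m1 : ℝ, m1 = EA * (1 + J * Bp) * y ∧
    r.holds (m1 :: d2 :: I :: M :: J :: J7 :: KB :: sig :: lam :: p :: Lam :: ibi :: iT :: i2 ::
      kc :: qc :: Wm :: sr :: srU :: B1 :: Bp :: EA :: EB :: s) (d) := by
  unfold muA at H
  obtain ⟨y, k_, H⟩ := H.rcp_elim
  refine ⟨y, k_, ?_⟩
  clear k_
  obtain ⟨k_, H⟩ := H.le_elim
  refine ⟨(by simpa only [Ex.val, List.getD_cons_zero, List.getD_cons_succ, Nat.cast_ofNat,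
    Nat.cast_one, Nat.cast_zero] using k_), ?_⟩
  clear k_
  obtain ⟨m1, k_, H⟩ := H.slet_elim
  refine ⟨m1, (by simpa only [Ex.val, List.getD_cons_zero, List.getD_cons_succ, Nat.cast_ofNat,
    Nat.cast_one, Nat.cast_zero] using k_), ?_⟩
  clear k_
  replace H := H.cut_elim
  simpa only [List.take_succ_cons, List.take_zero, List.drop_succ_cons, List.drop_zero,
    List.cons_append, List.nil_append, List.getD_cons_zero, List.getD_cons_succ, Nat.reduceAdd]
    using H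

theorem muB_spec  {r : Ck} {d2 I M J J7 KB sig lam p Lam ibi iT i2 kc qc Wm sr srU B1 Bp EA EB :
    ℝ} {s d : List ℝ}  (H : (muB  r).holds (d2 :: I :: M :: J :: J7 :: KB :: sig :: lam :: p ::
    Lam :: ibi :: iT :: i2 :: kc :: qc :: Wm :: sr :: srU :: B1 :: Bp :: EA :: EB :: s) (d)) :
    ∃ y : ℝ, 0 < y ∧
    (1 : ℝ) ≤ y * (d2 - (3 / 5 : ℝ)) ∧
    ∃ m1 : ℝ, m1 = EB * y ∧
    r.holds (m1 :: d2 :: I :: M :: J :: J7 :: KB :: sig :: lam :: p :: Lam :: ibi :: iT :: i2 ::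
      kc :: qc :: Wm :: sr :: srU :: B1 :: Bp :: EA :: EB :: s) (d) := by
  unfold muB at H
  obtain ⟨y, k_, H⟩ := H.rcp_elim
  refine ⟨y, k_, ?_⟩
  clear k_
  obtain ⟨k_, H⟩ := H.le_elim
  refine ⟨(by simpa only [Ex.val, List.getD_cons_zero, List.getD_cons_succ, Nat.cast_ofNat,
    Nat.cast_one, Nat.cast_zero] using k_), ?_⟩
  clear k_
  obtain ⟨m1, k_, H⟩ := H.slet_elim
  refine ⟨m1, (by simpa only [Ex.val, List.getD_cons_zero, List.getD_cons_succ, Nat.cast_ofNat,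
    Nat.cast_one, Nat.cast_zero] using k_), ?_⟩
  clear k_
  replace H := H.cut_elim
  simpa only [List.take_succ_cons, List.take_zero, List.drop_succ_cons, List.drop_zero,
    List.cons_append, List.nil_append, List.getD_cons_zero, List.getD_cons_succ, Nat.reduceAdd]
    using H

theorem endF_spec  {r : Ck} {m1 d2 I M J J7 KB sig lam p Lam ibi iT i2 kc qc Wm sr srU B1 Bp EA EB
    : ℝ} {s d : List ℝ}  (H : (endF  r).holds (m1 :: d2 :: I :: M :: J :: J7 :: KB :: sig :: lam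
    :: p :: Lam :: ibi :: iT :: i2 :: kc :: qc :: Wm :: sr :: srU :: B1 :: Bp :: EA :: EB :: s)
    (d)) :
    ∃ y : ℝ, 0 < y ∧
    y * (1 - d2) ≤ 1 ∧
    ∃ Y : ℝ, Y = 2 * sr * y + M - 2 * srU * (m1 + (1283 / 1000 : ℝ) * EA * (J7 + J * Bp)) ∧
    (0 : ℝ) ≤ Y ∧
    Lam * I < Y ^ 2 ∧
    r.holds (Y :: y :: m1 :: d2 :: I :: M :: J :: J7 :: KB :: sig :: lam :: p :: Lam :: ibi :: iT
      :: i2 :: kc :: qc :: Wm :: sr :: srU :: B1 :: Bp :: EA :: EB :: s) (d) := by
  unfold endF at H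
  obtain ⟨y, k_, H⟩ := H.rcp_elim
  refine ⟨y, k_, ?_⟩
  clear k_
  obtain ⟨k_, H⟩ := H.le_elim
  refine ⟨(by simpa only [Ex.val, List.getD_cons_zero, List.getD_cons_succ, Nat.cast_ofNat,
    Nat.cast_one, Nat.cast_zero] using k_), ?_⟩
  clear k_
  obtain ⟨Y, k_, H⟩ := H.slet_elim
  refine ⟨Y, (by simpa only [Ex.val, List.getD_cons_zero, List.getD_cons_succ, Nat.cast_ofNat,
    Nat.cast_one, Nat.cast_zero] using k_), ?_⟩
  clear k_
  obtain ⟨k_, H⟩ := H.le_elim
  refine ⟨(by simpa only [Ex.val, List.getD_cons_zero, List.getD_cons_succ, Nat.cast_ofNat,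
    Nat.cast_one, Nat.cast_zero] using k_), ?_⟩
  clear k_
  obtain ⟨k_, H⟩ := H.lt_elim
  refine ⟨(by simpa only [Ex.val, List.getD_cons_zero, List.getD_cons_succ, Nat.cast_ofNat,
    Nat.cast_one, Nat.cast_zero] using k_), ?_⟩
  clear k_
  simpa only [List.take_succ_cons, List.take_zero, List.drop_succ_cons, List.drop_zero,
    List.cons_append, List.nil_append, List.getD_cons_zero, List.getD_cons_succ, Nat.reduceAdd]
    using H

theorem stopF_spec {zz : ℕ} {r : Ck} {KB sig : ℝ} {s d : List ℝ}  (H : (stopF zz r).holds (KB ::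
    sig :: s) (d)) :
    (1 : ℝ) ≤ 2 * (val zz * sig) ∧
    r.holds (KB :: sig :: s) (d) := by
  unfold stopF at H
  obtain ⟨k_, H⟩ := H.le_elim
  refine ⟨(by simpa only [Ex.val, List.getD_cons_zero, List.getD_cons_succ, Nat.cast_ofNat,
    Nat.cast_one, Nat.cast_zero] using k_), ?_⟩
  clear k_
  simpa only [List.take_succ_cons, List.take_zero, List.drop_succ_cons, List.drop_zero,
    List.cons_append, List.nil_append, List.getD_cons_zero, List.getD_cons_succ, Nat.reduceAdd]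
    using H

theorem begU_spec {zz d0 mm : ℕ} {r : Ck} {KB sig lam p Lam ibi iT i2 : ℝ} {s d : List ℝ} (hp : 0
    < p) (H : (begU zz d0 mm r).holds (KB :: sig :: lam :: p :: Lam :: ibi :: iT :: i2 :: s) (d))
    :
    ∃ z : ℝ, z = val zz ∧
    ∃ al : ℝ, al = z * lam ∧
    val d0 ≤ 2 * (z * sig) ∧
    ∃ l q ep : ℝ, l = lk p 0 ∧ q = qf p 0 ∧ ep = Real.exp (p * 0) ∧
    ∃ pd : ℝ, |p * 2| ≤ pd ∧
    pd ≤ 1 ∧
    ((1 / 2 : ℝ) * 2 - 0) * lam ≤ 1 ∧
    ∃ eU : ℝ, |ep| ≤ eU ∧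
    ∃ y : ℝ, 0 < y ∧
    (1 : ℝ) ≤ y * 2 ∧
    ∃ J : ℝ, |Real.exp ((1 / 24 : ℝ) * eU * (1 + pd) * 2 ^ 2 - z - al * 0 - l) * y| ≤ J ∧
    ∃ J7 : ℝ, J7 = (14 / 5 : ℝ) * J ∧
    ∃ M : ℝ, M = -(val mm * J7) ∧
    ∃ I : ℝ, I = 2 * J ^ 2 * i2 ∧
    ∃ E : ℝ, E = Real.exp (-z) ∧
    r.holds (E :: I :: M :: z :: J :: J7 :: al :: KB :: sig :: lam :: p :: Lam :: ibi :: iT :: i2
      :: s) (d) := by
  unfold begU at H
  obtain ⟨z, k_, H⟩ := H.slet_elim
  refine ⟨z, (by simpa only [Ex.val, List.getD_cons_zero, List.getD_cons_succ, Nat.cast_ofNat,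
    Nat.cast_one, Nat.cast_zero] using k_), ?_⟩
  clear k_
  obtain ⟨al, k_, H⟩ := H.slet_elim
  refine ⟨al, (by simpa only [Ex.val, List.getD_cons_zero, List.getD_cons_succ, Nat.cast_ofNat,
    Nat.cast_one, Nat.cast_zero] using k_), ?_⟩
  clear k_
  obtain ⟨k_, H⟩ := H.le_elim
  refine ⟨(by simpa only [Ex.val, List.getD_cons_zero, List.getD_cons_succ, Nat.cast_ofNat,
    Nat.cast_one, Nat.cast_zero] using k_), ?_⟩
  clear k_
  replace H := H.slet_raw
  replace H := H.slet_raw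
  obtain ⟨l, q, ep, k_, k1_, k2_, H⟩ := kqP_elim hp H
  refine ⟨l, q, ep, (by simpa only [Ex.val, List.getD_cons_zero, List.getD_cons_succ,
    Nat.cast_ofNat, Nat.cast_one, Nat.cast_zero] using k_), (by simpa only [Ex.val,
    List.getD_cons_zero, List.getD_cons_succ, Nat.cast_ofNat, Nat.cast_one, Nat.cast_zero] using
    k1_), (by simpa only [Ex.val, List.getD_cons_zero, List.getD_cons_succ, Nat.cast_ofNat,
    Nat.cast_one, Nat.cast_zero] using k2_), ?_⟩
  clear k_ k1_ k2_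
  obtain ⟨pd, k_, H⟩ := H.uabs_elim
  refine ⟨pd, (by simpa only [Ex.val, List.getD_cons_zero, List.getD_cons_succ, Nat.cast_ofNat,
    Nat.cast_one, Nat.cast_zero] using k_), ?_⟩
  clear k_
  obtain ⟨k_, H⟩ := H.le_elim
  refine ⟨(by simpa only [Ex.val, List.getD_cons_zero, List.getD_cons_succ, Nat.cast_ofNat,
    Nat.cast_one, Nat.cast_zero] using k_), ?_⟩
  clear k_
  obtain ⟨k_, H⟩ := H.le_elim
  refine ⟨(by simpa only [Ex.val, List.getD_cons_zero, List.getD_cons_succ, Nat.cast_ofNat,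
    Nat.cast_one, Nat.cast_zero] using k_), ?_⟩
  clear k_
  obtain ⟨eU, k_, H⟩ := H.uabs_elim
  refine ⟨eU, (by simpa only [Ex.val, List.getD_cons_zero, List.getD_cons_succ, Nat.cast_ofNat,
    Nat.cast_one, Nat.cast_zero] using k_), ?_⟩
  clear k_
  obtain ⟨y, k_, H⟩ := H.rcp_elim
  refine ⟨y, k_, ?_⟩
  clear k_
  obtain ⟨k_, H⟩ := H.le_elim
  refine ⟨(by simpa only [Ex.val, List.getD_cons_zero, List.getD_cons_succ, Nat.cast_ofNat,
    Nat.cast_one, Nat.cast_zero] using k_), ?_⟩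
  clear k_
  obtain ⟨J, k_, H⟩ := H.uabs_elim
  refine ⟨J, (by simpa only [Ex.val, List.getD_cons_zero, List.getD_cons_succ, Nat.cast_ofNat,
    Nat.cast_one, Nat.cast_zero] using k_), ?_⟩
  clear k_
  obtain ⟨J7, k_, H⟩ := H.slet_elim
  refine ⟨J7, (by simpa only [Ex.val, List.getD_cons_zero, List.getD_cons_succ, Nat.cast_ofNat,
    Nat.cast_one, Nat.cast_zero] using k_), ?_⟩
  clear k_
  obtain ⟨M, k_, H⟩ := H.slet_elim
  refine ⟨M, (by simpa only [Ex.val, List.getD_cons_zero, List.getD_cons_succ, Nat.cast_ofNat,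
    Nat.cast_one, Nat.cast_zero] using k_), ?_⟩
  clear k_
  obtain ⟨I, k_, H⟩ := H.slet_elim
  refine ⟨I, (by simpa only [Ex.val, List.getD_cons_zero, List.getD_cons_succ, Nat.cast_ofNat,
    Nat.cast_one, Nat.cast_zero] using k_), ?_⟩
  clear k_
  obtain ⟨E, k_, H⟩ := H.slet_elim
  refine ⟨E, (by simpa only [Ex.val, List.getD_cons_zero, List.getD_cons_succ, Nat.cast_ofNat,
    Nat.cast_one, Nat.cast_zero] using k_), ?_⟩
  clear k_
  have H := H.slet_var
  have H := H.slet_var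
  have H := H.slet_var
  have H := H.slet_var
  have H := H.slet_var
  have H := H.slet_var
  have H := H.slet_var
  replace H := H.cut_elim
  simpa only [List.take_succ_cons, List.take_zero, List.drop_succ_cons, List.drop_zero,
    List.cons_append, List.nil_append, List.getD_cons_zero, List.getD_cons_succ, Nat.reduceAdd]
    using H

theorem lU_spec {v0 : ℕ} {r : Ck} {E I M z J J7 sl ib : ℝ} {s d : List ℝ}  (H : (lU v0 r).holds (E
    :: I :: M :: z :: J :: J7 :: s) (sl :: ib :: d)) :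
    ∃ S : ℝ, S = sl * z ∧
    (2 : ℝ) ≤ S ∧
    ∃ I1 : ℝ, I1 = I + ib * (J7 ^ 2 * S * (S + (1 / 2 : ℝ) * val v0)) ∧
    ∃ c1 : ℝ, c1 = (1 / 4 : ℝ) * ib ∧
    ∃ c2 : ℝ, c2 = (1 / 4 : ℝ) * val v0 * ib ∧
    r.holds (c1 :: c2 :: E :: I1 :: M :: z :: J :: J7 :: s) (d) := by
  unfold lU at H
  replace H := H.pop_elim
  replace H := H.pop_elim
  obtain ⟨S, k_, H⟩ := H.slet_elim
  refine ⟨S, (by simpa only [Ex.val, List.getD_cons_zero, List.getD_cons_succ, Nat.cast_ofNat,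
    Nat.cast_one, Nat.cast_zero] using k_), ?_⟩
  clear k_
  obtain ⟨k_, H⟩ := H.le_elim
  refine ⟨(by simpa only [Ex.val, List.getD_cons_zero, List.getD_cons_succ, Nat.cast_ofNat,
    Nat.cast_one, Nat.cast_zero] using k_), ?_⟩
  clear k_
  obtain ⟨I1, k_, H⟩ := H.slet_elim
  refine ⟨I1, (by simpa only [Ex.val, List.getD_cons_zero, List.getD_cons_succ, Nat.cast_ofNat,
    Nat.cast_one, Nat.cast_zero] using k_), ?_⟩
  clear k_
  obtain ⟨c1, k_, H⟩ := H.slet_elim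
  refine ⟨c1, (by simpa only [Ex.val, List.getD_cons_zero, List.getD_cons_succ, Nat.cast_ofNat,
    Nat.cast_one, Nat.cast_zero] using k_), ?_⟩
  clear k_
  obtain ⟨c2, k_, H⟩ := H.slet_elim
  refine ⟨c2, (by simpa only [Ex.val, List.getD_cons_zero, List.getD_cons_succ, Nat.cast_ofNat,
    Nat.cast_one, Nat.cast_zero] using k_), ?_⟩
  clear k_
  have H := H.slet_var
  have H := H.slet_var
  have H := H.slet_var
  have H := H.slet_var
  replace H := H.cut_elim
  simpa only [List.take_succ_cons, List.take_zero, List.drop_succ_cons, List.drop_zero,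
    List.cons_append, List.nil_append, List.getD_cons_zero, List.getD_cons_succ, Nat.reduceAdd]
    using H

theorem fU_spec  {r : Ck} {c1 c2 E I M z J J7 sl yl ib : ℝ} {s d : List ℝ}  (H : (fU  r).holds (c1
    :: c2 :: E :: I :: M :: z :: J :: J7 :: s) (sl :: yl :: ib :: d)) :
    ∃ S : ℝ, |sl * z| ≤ S ∧
    ∃ E1 : ℝ, |Real.exp (-((1 + yl) * z))| ≤ E1 ∧
    ∃ I1 : ℝ, I1 = I + ib * ((S * E1) ^ 2 + (J7 * S) ^ 2) ∧
    r.holds (c1 :: c2 :: E :: I1 :: M :: z :: J :: J7 :: s) (d) := by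
  unfold fU at H
  replace H := H.pop_elim
  replace H := H.pop_elim
  replace H := H.pop_elim
  obtain ⟨S, k_, H⟩ := H.uabs_elim
  refine ⟨S, (by simpa only [Ex.val, List.getD_cons_zero, List.getD_cons_succ, Nat.cast_ofNat,
    Nat.cast_one, Nat.cast_zero] using k_), ?_⟩
  clear k_
  obtain ⟨E1, k_, H⟩ := H.uabs_elim
  refine ⟨E1, (by simpa only [Ex.val, List.getD_cons_zero, List.getD_cons_succ, Nat.cast_ofNat,
    Nat.cast_one, Nat.cast_zero] using k_), ?_⟩
  clear k_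
  obtain ⟨I1, k_, H⟩ := H.slet_elim
  refine ⟨I1, (by simpa only [Ex.val, List.getD_cons_zero, List.getD_cons_succ, Nat.cast_ofNat,
    Nat.cast_one, Nat.cast_zero] using k_), ?_⟩
  clear k_
  have H := H.slet_var
  have H := H.slet_var
  have H := H.slet_var
  have H := H.slet_var
  replace H := H.cut_elim
  simpa only [List.take_succ_cons, List.take_zero, List.drop_succ_cons, List.drop_zero,
    List.cons_append, List.nil_append, List.getD_cons_zero, List.getD_cons_succ, Nat.reduceAdd]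
    using H

theorem nU_spec  {r : Ck} {c1 c2 E I M z J J7 sl yl Km qd cd P Q ib : ℝ} {s d : List ℝ}  (H : (nU 
    r).holds (c1 :: c2 :: E :: I :: M :: z :: J :: J7 :: s) (sl :: yl :: Km :: qd :: cd :: P :: Q
    :: ib :: d)) :
    ∃ S : ℝ, |sl * z| ≤ S ∧
    ∃ E1 : ℝ, |Real.exp (-((1 + yl) * z))| ≤ E1 ∧
    ∃ JP : ℝ, JP = J * P ∧
    ∃ I1 : ℝ, I1 = I + ib * ((S * E1 + JP) ^ 2 + (JP + J7 * S) ^ 2) ∧
    r.holds (c1 :: c2 :: E :: I1 :: M :: z :: J :: J7 :: s) (d) := by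
  unfold nU at H
  replace H := H.pop_elim
  replace H := H.pop_elim
  replace H := H.pop_elim
  replace H := H.pop_elim
  replace H := H.pop_elim
  replace H := H.pop_elim
  replace H := H.pop_elim
  replace H := H.pop_elim
  obtain ⟨S, k_, H⟩ := H.uabs_elim
  refine ⟨S, (by simpa only [Ex.val, List.getD_cons_zero, List.getD_cons_succ, Nat.cast_ofNat,
    Nat.cast_one, Nat.cast_zero] using k_), ?_⟩
  clear k_
  obtain ⟨E1, k_, H⟩ := H.uabs_elim
  refine ⟨E1, (by simpa only [Ex.val, List.getD_cons_zero, List.getD_cons_succ, Nat.cast_ofNat,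
    Nat.cast_one, Nat.cast_zero] using k_), ?_⟩
  clear k_
  obtain ⟨JP, k_, H⟩ := H.slet_elim
  refine ⟨JP, (by simpa only [Ex.val, List.getD_cons_zero, List.getD_cons_succ, Nat.cast_ofNat,
    Nat.cast_one, Nat.cast_zero] using k_), ?_⟩
  clear k_
  obtain ⟨I1, k_, H⟩ := H.slet_elim
  refine ⟨I1, (by simpa only [Ex.val, List.getD_cons_zero, List.getD_cons_succ, Nat.cast_ofNat,
    Nat.cast_one, Nat.cast_zero] using k_), ?_⟩
  clear k_
  have H := H.slet_var
  have H := H.slet_var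
  have H := H.slet_var
  have H := H.slet_var
  replace H := H.cut_elim
  simpa only [List.take_succ_cons, List.take_zero, List.drop_succ_cons, List.drop_zero,
    List.cons_append, List.nil_append, List.getD_cons_zero, List.getD_cons_succ, Nat.reduceAdd]
    using H

theorem tlU_spec {w : ℕ} {r : Ck} {c1 c2 E I M z J J7 al KB sig lam p Lam ibi iT i2 kc qc Wm : ℝ}
    {s d : List ℝ}  (H : (tlU w r).holds (c1 :: c2 :: E :: I :: M :: z :: J :: J7 :: al :: KB ::
    sig :: lam :: p :: Lam :: ibi :: iT :: i2 :: kc :: qc :: Wm :: s) (d)) :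
    ∃ A : ℝ, |al| ≤ A ∧
    ∃ W : ℝ, W = (val w + A) ^ 2 ∧
    ∃ R : ℝ, |I + (E ^ 2 + J7 ^ 2) * ibi + (E * (J * (1 + W) + (J + A * E) * W) + J7 * J * Wm) *
      iT| ≤ R ∧
    r.holds (R :: c1 :: c2 :: M :: J :: J7 :: KB :: sig :: lam :: p :: Lam :: ibi :: iT :: i2 ::
      kc :: qc :: Wm :: s) (d) := by
  unfold tlU at H
  obtain ⟨A, k_, H⟩ := H.uabs_elim
  refine ⟨A, (by simpa only [Ex.val, List.getD_cons_zero, List.getD_cons_succ, Nat.cast_ofNat,
    Nat.cast_one, Nat.cast_zero] using k_), ?_⟩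
  clear k_
  obtain ⟨W, k_, H⟩ := H.slet_elim
  refine ⟨W, (by simpa only [Ex.val, List.getD_cons_zero, List.getD_cons_succ, Nat.cast_ofNat,
    Nat.cast_one, Nat.cast_zero] using k_), ?_⟩
  clear k_
  obtain ⟨R, k_, H⟩ := H.uabs_elim
  refine ⟨R, (by simpa only [Ex.val, List.getD_cons_zero, List.getD_cons_succ, Nat.cast_ofNat,
    Nat.cast_one, Nat.cast_zero] using k_), ?_⟩
  clear k_
  have H := H.slet_var
  have H := H.slet_var
  have H := H.slet_var
  have H := H.slet_var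
  have H := H.slet_var
  have H := H.slet_var
  replace H := H.cut_elim
  simpa only [List.take_succ_cons, List.take_zero, List.drop_succ_cons, List.drop_zero,
    List.cons_append, List.nil_append, List.getD_cons_zero, List.getD_cons_succ, Nat.reduceAdd]
    using H

theorem boxU_spec {d1 d3 : ℕ} {r : Ck} {R c1 c2 M J J7 : ℝ} {s d : List ℝ}  (H : (boxU d1 d3
    r).holds (R :: c1 :: c2 :: M :: J :: J7 :: s) (d)) :
    ∀ d2 : ℝ, val d1 ≤ d2 → d2 ≤ val d3 →
    ∃ I : ℝ, I = R + c1 + c2 * d2 ∧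
    r.holds (d2 :: I :: M :: J :: J7 :: s) (d) := by
  unfold boxU at H
  intro d2 k_ k2_
  replace H := H.box_elim d2 k_ k2_
  clear k_ k2_
  obtain ⟨I, k_, H⟩ := H.slet_elim
  refine ⟨I, (by simpa only [Ex.val, List.getD_cons_zero, List.getD_cons_succ, Nat.cast_ofNat,
    Nat.cast_one, Nat.cast_zero] using k_), ?_⟩
  clear k_
  have H := H.slet_var
  have H := H.slet_var
  replace H := H.cut_elim
  simpa only [List.take_succ_cons, List.take_zero, List.drop_succ_cons, List.drop_zero,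
    List.cons_append, List.nil_append, List.getD_cons_zero, List.getD_cons_succ, Nat.reduceAdd]
    using H

end Pool.Agent.Eps.T
end
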