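import Mathlib
import Pool.Agent.Lib.MP_3bda03_nt.T.Rad
import Pool.Agent.Lib.MP_3bda03_nt.T.Elim
import Pool.Agent.Lib.MP_3bda03_nt.T.Spec3

-- part Pool.Agent.Lib.MP_3bda03_nt.T.Def2
section

/-! The family of a certificate, cells, tapes and invariants (definitions). -/

set_option autoImplicit false

noncomputable section

open MeasureTheory Set

namespace Pool.Agent.Eps.T

/-- the biased zero -/
abbrev bz0 : ℕ := 4722366482869645213696

/-- the position of a node -/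
def pos (x1 : ℝ) (c b : ℕ) : ℝ := val b + val c * x1

/-- all cells satisfy `G`, which gets the left node -/
def AllC (G : ℕ → ℕ → Cell → Prop) : List Cell → ℕ → ℕ → Prop
  | [], _, _ => True
  | c :: cs, ca, ba => G ca ba c ∧ AllC G cs c.cz c.bz

/-- sum over the cells -/
def sumC (f : ℕ → ℕ → Cell → ℝ) : List Cell → ℕ → ℕ → ℝ
  | [], _, _ => 0
  | c :: cs, ca, ba => f ca ba c + sumC f cs c.cz c.bz

/-- the entries of the cells on top of `d`, last cell first -/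
def TapeB (T : ℕ → ℕ → Cell → List ℝ → Prop) :
    List Cell → ℕ → ℕ → List ℝ → List ℝ → Prop
  | [], _, _, d, d' => d' = d
  | c :: cs, ca, ba, d, d' => ∃ e, T ca ba c e ∧ TapeB T cs c.cz c.bz (e ++ d) d'

/-- the entries of the cells on top of `d`, first cell first -/
def TapeF (T : ℕ → ℕ → Cell → List ℝ → Prop) :
    List Cell → ℕ → ℕ → List ℝ → List ℝ → Prop
  | [], _, _, d, d' => d' = d
  | c :: cs, ca, ba, d, d' => ∃ e d1, T ca ba c e ∧ TapeF T cs c.cz c.bz d d1 ∧ d' = e ++ d1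

/-- the entries of the cells beyond the switch point -/
def TapeG (T : ℕ → ℕ → List ℝ → Prop) : List ℕ → ℕ → List ℝ → List ℝ → Prop
  | [], _, d, d' => d' = d
  | b :: gs, a, d, d' => ∃ e, T a b e ∧ TapeG T gs b (e ++ d) d'

/-- a function given cell by cell -/
def pw (x1 : ℝ) (f : ℝ → ℝ → Cell → ℝ → ℝ) (g : ℝ → ℝ) : List Cell → ℕ → ℕ → ℝ → ℝ
  | [], _, _, t => g t
  | c :: cs, ca, ba, t =>
    if t ≤ pos x1 c.cz c.bz then f (pos x1 ca ba) (pos x1 c.cz c.bz) c t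
    else pw x1 f g cs c.cz c.bz t

/-- a function given on the first cell, on the far cells and on the near cells -/
def Cert.glue (C : Cert) (x1 : ℝ) (l : ℝ → ℝ) (f n : ℝ → ℝ → Cell → ℝ → ℝ) (t : ℝ) : ℝ :=
  if C.far = true then
    (if t ≤ pos x1 C.lcz bz0 then l t
    else pw x1 f (pw x1 n (fun _ => 1) C.ns C.na C.nb) C.fs C.lcz bz0 t)
  else pw x1 n (fun _ => 1) C.ns C.na C.nb t

/-- the family of a certificate -/
def Cert.fam (C : Cert) (p τ vh : ℝ) : Fam where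
  p := p
  τ := τ
  ρ := vh / τ
  η := val C.eta
  eh := 1783 / 1000 * val C.eps * (p / τ)
  β := C.glue (-(τ / p))
    (fun t => val C.lbb / (t - -(τ / p) + val C.v0 * p / 2) + val C.b2 * kf p t)
    (fun a b c t => val c.bb / (b - a) + val C.b2 * kf p t) (fun a b c _ => val c.bb / (b - a))
  m := C.glue (-(τ / p)) (fun _ => 0) (fun _ _ c _ => val c.m) (fun _ _ c _ => val c.m)
  r := C.glue (-(τ / p)) (fun _ => 1) (fun _ _ _ _ => 1) (fun _ _ c _ => val c.rr)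
  xc := val C.xc
  bi := val C.bi
  mi := val C.mi
  rc := val C.rc
  bt := val C.bt
  w := val C.w

/-- the right end of the first cell -/
def Cert.xl (C : Cert) (F : Fam) : ℝ := if C.far = true then pos F.x1 C.lcz bz0 else F.x1

/-- the right end of the far region -/
def Cert.xf (C : Cert) (F : Fam) : ℝ := if C.far = true then val C.bf else F.x1

/-- a near cell -/
structure NearC (F : Fam) (lo a b : ℝ) (c : Cell) : Prop where
  x1_le : F.x1 ≤ a
  lo_le : lo ≤ a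
  lt : a < b
  le_xc : b ≤ F.xc
  bb_pos : 0 < val c.bb
  hβ : ∀ t ∈ Ioc a b, F.β t = val c.bb / (b - a)
  hm : ∀ t ∈ Ioc a b, F.m t = val c.m
  hr : ∀ t ∈ Ioc a b, F.r t = val c.rr

/-- a far cell -/
structure FarC (F : Fam) (b2 mm xf lo a b : ℝ) (c : Cell) : Prop where
  x1_le : F.x1 ≤ a
  lo_le : lo ≤ a
  lt : a < b
  le_xf : b ≤ xf
  xf_le : xf ≤ 0
  bb_pos : 0 < val c.bb
  b2_pos : 0 < b2
  m_nonneg : 0 ≤ val c.m
  m_le : val c.m ≤ mm
  hβ : ∀ t ∈ Ioc a b, F.β t = val c.bb / (b - a) + b2 * kf F.p t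
  hm : ∀ t ∈ Ioc a b, F.m t = val c.m
  hr : ∀ t ∈ Ioc a b, F.r t = 1

/-- the first cell -/
structure LogC (F : Fam) (b2 xf b bb v0 : ℝ) : Prop where
  lt : F.x1 < b
  le_xf : b ≤ xf
  xf_le : xf ≤ 0
  bb_pos : 0 < bb
  b2_pos : 0 < b2
  v0_pos : 0 < v0
  hβ : ∀ t ∈ Ioc F.x1 b, F.β t = bb / (t - F.x1 + v0 * F.p / 2) + b2 * kf F.p t
  hm : ∀ t ∈ Ioc F.x1 b, F.m t = 0
  hr : ∀ t ∈ Ioc F.x1 b, F.r t = 1

/-- what the data phase checks on a near cell -/
structure StN (F : Fam) (K1 mm a b : ℝ) (c : Cell) : Prop where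
  lt : a < b
  bb_pos : 0 < val c.bb
  rr_ge : 1 ≤ val c.rr
  m_nonneg : 0 ≤ val c.m
  m_le : val c.m ≤ mm
  env : b ≤ 0 ∨ K1 ≤ val c.rr * kf F.p b

/-- what the data phase checks on a far cell -/
structure StF (mm a b : ℝ) (c : Cell) : Prop where
  lt : a < b
  bb_pos : 0 < val c.bb
  m_nonneg : 0 ≤ val c.m
  m_le : val c.m ≤ mm

/-- what the data phase checks on the first cell -/
structure StL (C : Cert) (F : Fam) : Prop where
  lt : val C.lcz < 1
  bb_pos : 0 < val C.lbb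
  v0_pos : 0 < val C.v0
  gl_nonneg : 0 ≤ val C.gl
  gl : 2 * (1 - val C.lcz) ≤ val C.gl ^ 2 * val C.v0 * F.τ

/-- tape entries of a near cell -/
def TpN (F : Fam) (a b : ℝ) (c : Cell) (e : List ℝ) : Prop :=
  ∃ cd P Q ib : ℝ, e = [F.lam * (b - a), F.lam * a, (b - a) * kf F.p ((a + b) / 2),
      (b - a) * qf F.p ((a + b) / 2), cd, P, Q, ib] ∧
    Real.exp (F.p * b) * (b - a) ^ 2 / 24 ≤ cd ∧ (∀ t ∈ Icc a b, (b - a) * kf F.p t ≤ P) ∧
    (∀ t ∈ Icc a b, (b - a) * |qf F.p t| ≤ Q) ∧ 1 ≤ ib * val c.bb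

/-- tape entries of a far cell -/
def TpF (F : Fam) (a b : ℝ) (c : Cell) (e : List ℝ) : Prop :=
  ∃ ib : ℝ, e = [F.lam * (b - a), F.lam * a, ib] ∧ 1 ≤ ib * val c.bb

/-- tape entries of the first cell -/
def TpL (F : Fam) (b bb : ℝ) (e : List ℝ) : Prop :=
  ∃ ib : ℝ, e = [F.lam * (b - F.x1), ib] ∧ 1 ≤ ib * bb

/-- tape entries of a cell beyond the switch point -/
def TpG (F : Fam) (a b : ℝ) (e : List ℝ) : Prop :=
  a < b ∧ ∃ cd : ℝ, e = [F.lam * (b - a), F.lam * ((a + b) / 2), (b - a) * kf F.p ((a + b) / 2),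
      (b - a) * qf F.p ((a + b) / 2), cd] ∧ Real.exp (F.p * b) * (b - a) ^ 2 / 24 ≤ cd

/-- a property of the two ends as a property of the nodes -/
def atN {X : Type} (F : Fam) (G : ℝ → ℝ → Cell → X) (ca ba : ℕ) (c : Cell) : X :=
  G (pos F.x1 ca ba) (pos F.x1 c.cz c.bz) c

/-- the tape of the backward mode -/
def Cert.TpB (C : Cert) (F : Fam) (d : List ℝ) : Prop :=
  ∃ d1 d2 : List ℝ, (C.far = false → d1 = []) ∧
    (C.far = true → ∃ e, TpL F (C.xl F) (val C.lbb) e ∧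
      TapeB (atN F (TpF F)) C.fs C.lcz bz0 e d1) ∧
    TapeB (atN F (TpN F)) C.ns C.na C.nb d1 d2 ∧
    TapeG (fun a b => TpG F (val a) (val b)) C.gs C.xc d2 d

/-- the tape of the forward modes -/
def Cert.TpW (C : Cert) (F : Fam) (d : List ℝ) : Prop :=
  ∃ d1 : List ℝ, TapeF (atN F (TpN F)) C.ns C.na C.nb [] d1 ∧ (C.far = false → d = d1) ∧
    (C.far = true → ∃ e d2, TapeF (atN F (TpF F)) C.fs C.lcz bz0 d1 d2 ∧
      TpL F (C.xl F) (val C.lbb) e ∧ d = e ++ d2)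

def costN (F : Fam) (a b : ℝ) (c : Cell) : ℝ :=
  val c.bb * ((1 + F.η) * (2 + 2 * (F.lam * a) + F.lam * (b - a) + val c.m ^ 2) +
    F.eh * val c.rr ^ 2)

def costF (F : Fam) (a b : ℝ) (c : Cell) : ℝ :=
  val c.bb * ((1 + F.η) * (2 + 2 * (F.lam * a) + F.lam * (b - a) + val c.m ^ 2) + F.eh)

def Cert.costL (C : Cert) (F : Fam) : ℝ :=
  val C.lbb * (2 * (1 + F.η) * (1 - val C.lcz) + 1783 / 1000 * val C.eps * val C.gl)

/-- the cost accumulated by the data phase -/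
def Cert.cost (C : Cert) (F : Fam) : ℝ :=
  sumC (atN F (costN F)) C.ns C.na C.nb +
    if C.far = true then sumC (atN F (costF F)) C.fs C.lcz bz0 + C.costL F else 0

/-- the basic parameters -/
structure Base (C : Cert) (p τ vh : ℝ) : Prop where
  p_pos : 0 < p
  lo : val C.plo ≤ p
  hi : p ≤ val C.phi
  n0 : (C.n0 : ℝ) * p ^ 2 ≤ 4
  vhA : C.big = false → vh = 1 / 10 - 13 / 10 * p ^ 2
  vhB : C.big = true → vh = 3 / 25 - 33 / 10 * p ^ 2
  inf : C.inf = true → C.big = true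
  tau : ∃ θ : ℝ, 0 ≤ θ ∧ θ ≤ p ^ 2 / 8 ∧ τ = 1 - Real.log 2 - p ^ 2 / 2 *
    (2 * Real.log 2 + Real.log Real.pi / 2 - 3 * Real.log p + Real.log vh + θ)

/-- the numbers that the first phase leaves on the stack -/
structure HV : Type where
  L : ℝ
  K1 : ℝ
  KB : ℝ
  B1 : ℝ
  Bp : ℝ
  srU : ℝ
  EA : ℝ
  EB : ℝ

def HV.l (h : HV) (F : Fam) : List ℝ :=
  [h.L, h.K1, h.KB, h.B1, h.Bp, 1 + F.η, F.eh, F.lam, F.p, F.τ, F.p * F.lam / 2, Real.sqrt F.ρ,
    h.srU, h.EA, h.EB]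

/-- the conditions on the error parameters -/
structure Err (C : Cert) : Prop where
  eta : 1 / 50 * Real.exp (97 / 2000 - 1 / 2000 * (C.n1 : ℝ)) ≤ val C.eta
  eps : 3 / 25 * Real.exp (97 / 2000 - 1 / 2000 * (C.n1 : ℝ)) ≤ val C.eps
  et0 : 1 / 250 * Real.exp (97 / 2000 - 1 / 2000 * (C.n1 : ℝ)) ≤ val C.et0
  lf : 1 < val C.lf * (1 - val C.et0)
  lf_pos : 0 < val C.lf

/-- what the first phase proves -/
structure HeadOk (C : Cert) (F : Fam) (h : HV) : Prop where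
  err : Err C
  p_pos : 0 < F.p
  p_le : F.p ≤ 21 / 100
  τ_pos : 0 < F.τ
  ρ_pos : 0 < F.ρ
  lam_le : F.lam ≤ 1
  srU : Real.sqrt F.ρ ≤ h.srU
  EA : F.EA ≤ h.EA
  EB : F.EB ≤ h.EB
  xf_neg : C.xf F < 0
  K1 : kf F.p (C.xf F) ≤ h.K1
  Bp : 1283 / 1000 * h.K1 * F.p ≤ h.Bp
  B1_nonneg : 0 ≤ h.B1
  B1 : h.B1 ≤ Bq F.p F.x1
  LN : C.far = false → h.L = -F.x1
  LF : C.far = true → h.L = 0
  KB_nonneg : 0 ≤ h.KB
  KB : C.far = true → ∫ η in Iic (val C.bf), kf F.p η ≤ h.KB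

/-- what the data phase checks on the cells -/
structure Stat (C : Cert) (F : Fam) (h : HV) : Prop where
  near : AllC (atN F (StN F h.K1 (val C.mm))) C.ns C.na C.nb
  far : C.far = true → AllC (atN F (StF (val C.mm))) C.fs C.lcz bz0
  log : C.far = true → StL C F

/-- what the data phase checks on the point test and on the tail -/
structure StG (C : Cert) (F : Fam) (h : HV) : Prop where
  rc_env : h.K1 ≤ F.rc * F.kc
  rc_ge : 1 ≤ F.rc
  mi_nonneg : 0 ≤ F.mi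
  mm_nonneg : 0 ≤ val C.mm
  w_pos : 0 < F.w
  q_le : F.qc ≤ 2 * F.w
  q_pos : F.p < 2 * F.qc
  bi_pos : 0 < F.bi
  bt_pos : 0 < F.bt
  b2_pos : 0 < val C.b2

/-- the family fits the certificate -/
structure Fit (C : Cert) (F : Fam) : Prop where
  ok : F.Ok
  xc : F.xc = val C.xc
  mi : F.mi = val C.mi
  w : F.w = val C.w
  eh : F.eh = 1783 / 1000 * val C.eps * F.lam
  x1_le : F.x1 ≤ C.xl F
  xl_le : C.xl F ≤ C.xf F
  xf_neg : C.xf F < 0
  near : AllC (atN F (NearC F (C.xl F))) C.ns C.na C.nb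
  near_first : pos F.x1 C.na C.nb = C.xf F
  near_last : pos F.x1 (lastN C.ns C.na C.nb).1 (lastN C.ns C.na C.nb).2 = F.xc
  far : C.far = true →
    AllC (atN F (FarC F (val C.b2) (val C.mm) (C.xf F) (C.xl F))) C.fs C.lcz bz0
  far_last : C.far = true →
    pos F.x1 (lastN C.fs C.lcz bz0).1 (lastN C.fs C.lcz bz0).2 = C.xf F
  log : C.far = true → LogC F (val C.b2) (C.xf F) (C.xl F) (val C.lbb) (val C.v0)
  m_bd : ∀ t ∈ Ioc F.x1 F.xc, 0 ≤ F.m t ∧ F.m t ≤ val C.mm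
  mm_nonneg : 0 ≤ val C.mm
  mi_nonneg : 0 ≤ F.mi
  b2_pos : 0 < val C.b2
  q_le : F.qc ≤ 2 * F.w
  xe : lastG C.gs C.xc = C.xe

/-- the numbers that the data phase leaves on the stack -/
structure GV : Type where
  KB : ℝ
  Lam : ℝ
  ibi : ℝ
  iT : ℝ
  i2 : ℝ
  Wm : ℝ
  srU : ℝ
  B1 : ℝ
  Bp : ℝ
  EA : ℝ
  EB : ℝ

def GV.l (g : GV) (F : Fam) : List ℝ :=
  [g.KB, F.p * F.lam / 2, F.lam, F.p, g.Lam, g.ibi, g.iT, g.i2, F.kc, F.qc, g.Wm, Real.sqrt F.ρ,
    g.srU, g.B1, g.Bp, g.EA, g.EB]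

/-- what the data phase proves -/
structure Glob (C : Cert) (F : Fam) (g : GV) : Prop where
  KB : ∫ η in F.x1..C.xf F, kf F.p η ≤ g.KB
  Lam : 2 * val C.lf * (F.Ep F.x1 F.xc + F.Eq2) ≤ g.Lam
  lf_pos : 0 < val C.lf
  ibi : 1 ≤ g.ibi * F.bi
  iT : 1 ≤ g.iT * (F.bt * F.w ^ 2)
  i2 : (∫ η in F.x1..C.xf F, kf F.p η) / val C.b2 ≤ g.i2
  Wm : (1 + F.w / F.qc) ^ 2 ≤ g.Wm
  srU : Real.sqrt F.ρ ≤ g.srU
  B1_nonneg : 0 ≤ g.B1
  B1 : g.B1 ≤ Bq F.p F.x1
  Bp : F.k1 * F.p * (50 / 39) ≤ g.Bp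
  EA : F.EA ≤ g.EA
  EB : F.EB ≤ g.EB

namespace Fam
variable (F : Fam)

/-- dual norm of the forward part, both signs -/
def I2 (α a b : ℝ) : ℝ := F.I1 α a b + F.I1 (-α) a b

/-- shift of the forward part, both signs -/
def M2 (α a b : ℝ) : ℝ := F.M1 α a b + F.M1 (-α) a b

/-- dual norm of the point test and of the tail -/
def Rs (α Θ : ℝ) : ℝ := Af F.p α F.xc ^ 2 / F.bi + Af F.p α F.xc * Θ / (F.bt * F.w ^ 2)

/-- main term of the shift -/
def Sx (α a b : ℝ) : ℝ := ∫ t in a..b, F.m t * (α * Real.exp (-(α * (t - F.x1))))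

/-- mass of the kernel -/
def Kx (a b : ℝ) : ℝ := ∫ η in a..b, kf F.p η

/-- the normalisation of the forward modes -/
def jj (α : ℝ) : ℝ := (Af F.p α F.x1)⁻¹

end Fam

/-- the constants of a box of the backward mode -/
structure CtxB (F : Fam) (α z w0 gz iU io : ℝ) : Prop where
  z_nonneg : 0 ≤ z
  al : α = z * F.lam
  w0_nonneg : 0 ≤ w0
  hio : io = Real.exp (-(w0 + gz))
  hiU : io ≤ iU

/-- the constants of a box of the forward mode -/
structure CtxF (F : Fam) (α z J : ℝ) : Prop where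
  z_nonneg : 0 ≤ z
  al : α = z * F.lam
  lt : F.p * α < 1
  hJ : F.jj α ≤ J

/-- the constants of the unbounded mode -/
structure CtxU (F : Fam) (α z Z J : ℝ) : Prop where
  le : Z ≤ z
  al : α = z * F.lam
  lt : F.p * α < 1
  hJ : F.jj α ≤ J * Real.exp (-(z - Z))

/-- the parameters in dimension `n` -/
def pN (n : ℕ) : ℝ := 2 / Real.sqrt n

def vN (n : ℕ) : ℝ := lamV ((n : ℝ) / 2) * pN n ^ 2

def tN (n : ℕ) : ℝ :=
  -Real.log (pN n ^ 2 * (2 * lamV ((n : ℝ) / 2) * Real.Gamma ((n : ℝ) / 2 + 1)) ^ (2 / (n : ℝ)))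

/-- the range of a certificate -/
def Cert.Adm (C : Cert) (n : ℕ) : Prop := C.n1 ≤ n ∧ (C.inf = true ∨ n ≤ C.n2)

def Cert.famN (C : Cert) (n : ℕ) : Fam := C.fam (pN n) (tN n) (vN n)

/-- the criterion holds on a range of the parameter -/
def Cert.Cov (C : Cert) (z1 z2 : ℕ) : Prop :=
  ∀ n, C.Adm n → ∀ z : ℝ, val z1 ≤ z → z < val z2 → 0 ≤ z →
    (C.famN n).p * (z * (C.famN n).lam) < 1 → (C.famN n).CritAt (val C.lf) (z * (C.famN n).lam)

end Pool.Agent.Eps.T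
end
end

-- part Pool.Agent.Lib.MP_3bda03_nt.T.A5
section

/-! The tail coefficients. -/

set_option autoImplicit false

noncomputable section

open MeasureTheory Set

namespace Pool.Agent.Eps.T

variable {p : ℝ}

theorem integrableOn_pow_qf (hp : 0 < p) (α η : ℝ) (j : ℕ) :
    IntegrableOn (fun y => qf p y ^ j * (Real.exp (α * y) * (kf p (η + y) / kf p η)))
      (Ioi (0 : ℝ)) := by
  have hk := kf_pos p η
  have h1 := ((measurePreserving_add_left volume η).integrableOn_comp_preimage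
    (measurableEmbedding_addLeft η)).2 (integrableOn_At hp (α + j * p) η)
  rw [preimage_const_add_Ioi, sub_self] at h1
  have c1 := continuous_qf p
  have c2 := continuous_kf p
  refine Integrable.mono' (h1.const_mul (Real.exp (-((α + j * p) * η)) / p ^ j / kf p η))
    (Continuous.aestronglyMeasurable (by fun_prop))
    ((ae_restrict_iff' measurableSet_Ioi).2 (.of_forall fun y hy => ?_))
  have q0 := ((qf_pos_iff hp).2 hy).le
  have q1 : qf p y ≤ Real.exp (p * y) / p := by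
    rw [le_div_iff₀ hp, exp_eq_qf hp]
    linarith
  have k1 := kf_pos p (η + y)
  rw [Real.norm_of_nonneg (by positivity)]
  refine (mul_le_mul_of_nonneg_right (pow_le_pow_left₀ q0 q1 j) (by positivity)).trans_eq ?_
  have : Real.exp ((α + j * p) * (η + y)) =
      Real.exp (p * y) ^ j * Real.exp (α * y) / Real.exp (-((α + j * p) * η)) := by
    rw [← Real.exp_nat_mul, ← Real.exp_add, ← Real.exp_sub]
    congr 1
    ring
  simp only [Function.comp, this, div_pow]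
  field_simp

theorem Gf_nonneg (hp : 0 < p) (α η : ℝ) : 0 ≤ Gf p α η := by
  refine setIntegral_nonneg measurableSet_Ioi fun y hy => ?_
  have := (qf_pos_iff hp).2 hy
  have := kf_pos p η
  have := kf_pos p (η + y)
  positivity

theorem Gf_anti (hp : 0 < p) (α : ℝ) : Antitone (Gf p α) := by
  intro a b hab
  refine setIntegral_mono_on (by simpa using integrableOn_pow_qf hp α b 1)
    (by simpa using integrableOn_pow_qf hp α a 1) measurableSet_Ioi fun y hy => ?_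
  refine mul_le_mul_of_nonneg_left (mul_le_mul_of_nonneg_left ?_ (Real.exp_pos _).le)
    ((qf_pos_iff hp).2 hy).le
  rw [kf, kf, kf, kf, ← Real.exp_sub, ← Real.exp_sub, Real.exp_le_exp, lk_add hp, lk_add hp]
  have h1 := mul_le_mul_of_nonneg_right ((qf_strictMono hp).monotone hab) (le_of_lt hy)
  have h2 := mul_le_mul_of_nonpos_right
    (Real.exp_le_exp.2 (mul_le_mul_of_nonneg_left hab hp.le)) (lk_nonpos p y)
  linarith

theorem a5_der (hp : 0 < p) (α η y : ℝ) :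
    HasDerivAt (fun y => Real.exp (α * y) * (kf p (η + y) / kf p η))
      ((α - qf p η) * (Real.exp (α * y) * (kf p (η + y) / kf p η)) -
        Real.exp (p * η) * (qf p y * (Real.exp (α * y) * (kf p (η + y) / kf p η)))) y := by
  refine (((hasDerivAt_id' y).const_mul α).exp.mul
    (((hasDerivAt_kf hp (η + y)).comp_const_add η y).div_const (kf p η))).congr_deriv ?_
  rw [qf_add hp]
  ring

theorem a5_ftc {f f' : ℝ → ℝ} (h : ∀ x, HasDerivAt f (f' x) x) (i' : IntegrableOn f' (Ioi 0))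
    (i : IntegrableOn f (Ioi 0)) : ∫ x in Ioi 0, f' x = -f 0 := by
  rw [integral_Ioi_of_hasDerivAt_of_tendsto' (fun x _ => h x) i'
    (tendsto_zero_of_hasDerivAt_of_integrableOn_Ioi (fun x _ => h x) i' i), zero_sub]

theorem a5_int (hp : 0 < p) (α η : ℝ) :
    ∫ y in Ioi (0 : ℝ), Real.exp (α * y) * (kf p (η + y) / kf p η) = Af p α η / kf p η := by
  rw [Af_eq hp, ← integral_div]
  simp only [mul_div_assoc]

theorem Gf_eq (hp : 0 < p) (α η : ℝ) :
    kf p η - (qf p η - α) * Af p α η = Real.exp (p * η) * kf p η * Gf p α η := by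
  have hk := (kf_pos p η).ne'
  have i0 := integrableOn_pow_qf hp α η 0
  have i1 := integrableOn_pow_qf hp α η 1
  simp only [pow_zero, one_mul, pow_one] at i0 i1
  have h := a5_ftc (a5_der hp α η) ((i0.const_mul _).sub (i1.const_mul _)) i0
  rw [integral_sub (i0.const_mul _) (i1.const_mul _), integral_const_mul, integral_const_mul,
    a5_int hp, ← Gf, mul_zero, Real.exp_zero, add_zero, div_self hk] at h
  field_simp at h
  linarith

theorem continuous_Gf (hp : 0 < p) (α : ℝ) : Continuous (Gf p α) := by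
  have : Gf p α = fun η => (kf p η - (qf p η - α) * Af p α η) / (Real.exp (p * η) * kf p η) :=
    funext fun η => by
      rw [Gf_eq hp, mul_div_cancel_left₀ _ (mul_pos (Real.exp_pos _) (kf_pos p η)).ne']
  have c1 := continuous_qf p
  have c2 := continuous_kf p
  have c3 := continuous_Af hp α
  rw [this]
  exact Continuous.div (by fun_prop) (by fun_prop)
    fun η => (mul_pos (Real.exp_pos _) (kf_pos p η)).ne'

theorem hasDerivAt_Af_div (hp : 0 < p) (α η : ℝ) :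
    HasDerivAt (fun x => Af p α x / kf p x) (-(Real.exp (p * η) * Gf p α η)) η := by
  have hk := (kf_pos p η).ne'
  refine ((hasDerivAt_Af hp α η).div (hasDerivAt_kf hp η) hk).congr_deriv ?_
  have := Gf_eq hp α η
  rw [cf]
  field_simp
  linarith

theorem integral_Gf (hp : 0 < p) (α a b : ℝ) :
    ∫ t in a..b, Real.exp (p * t) * Gf p α t = Af p α a / kf p a - Af p α b / kf p b := by
  have c := continuous_Gf hp α
  rw [intervalIntegral.integral_eq_sub_of_hasDerivAt (f := fun x => -(Af p α x / kf p x))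
    (fun x _ => (hasDerivAt_Af_div hp α x).neg.congr_deriv (neg_neg _))
    (Continuous.intervalIntegrable (by fun_prop) _ _)]
  ring

theorem a5_Ioi {f : ℝ → ℝ} {c M : ℝ} (hc : ContinuousOn f (Ici c)) (h0 : ∀ t, c ≤ t → 0 ≤ f t)
    (hM : ∀ b, c ≤ b → ∫ t in c..b, f t ≤ M) :
    IntegrableOn f (Ioi c) ∧ ∫ t in Ioi c, f t ≤ M := by
  have i : IntegrableOn f (Ioi c) := by
    refine integrableOn_Ioi_of_intervalIntegral_norm_bounded M c (fun b =>
      ((hc.mono Icc_subset_Ici_self).integrableOn_Icc (b := b)).mono_set Ioc_subset_Icc_self)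
      Filter.tendsto_id ((Filter.eventually_ge_atTop c).mono fun b hb => ?_)
    refine (intervalIntegral.integral_congr fun t ht => ?_).trans_le (hM b hb)
    exact Real.norm_of_nonneg (h0 t (uIcc_of_le hb ▸ ht : t ∈ Icc c b).1)
  exact ⟨i, le_of_tendsto (intervalIntegral_tendsto_integral_Ioi c i Filter.tendsto_id)
    ((Filter.eventually_ge_atTop c).mono hM)⟩

theorem integral_Gf_Ioi (hp : 0 < p) (α c : ℝ) :
    IntegrableOn (fun t => Real.exp (p * t) * Gf p α t) (Ioi c) ∧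
      ∫ t in Ioi c, Real.exp (p * t) * Gf p α t ≤ Af p α c / kf p c := by
  have c := continuous_Gf hp α
  refine a5_Ioi (Continuous.continuousOn (by fun_prop))
    (fun t _ => mul_nonneg (Real.exp_pos _).le (Gf_nonneg hp α t)) fun b _ => ?_
  rw [integral_Gf hp]
  exact sub_le_self _ (div_pos (Af_pos hp α b) (kf_pos p b)).le

theorem Gf_mul_le (hp : 0 < p) {α η : ℝ} (h : α ≤ qf p η) :
    Gf p α η * ((qf p η - α) ^ 2 + 1 + p * α) ≤ 1 := by
  have hk := kf_pos p η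
  have g0 := sub_nonneg.2 h
  have i0 := integrableOn_pow_qf hp α η 0
  have i1 := integrableOn_pow_qf hp α η 1
  have i2 := integrableOn_pow_qf hp α η 2
  simp only [pow_zero, one_mul, pow_one] at i0 i1
  have j1 := i0.fun_add (i1.const_mul (p + α - qf p η))
  have j2 := i2.const_mul (Real.exp (p * η))
  have h := a5_ftc (fun y => by
    refine ((hasDerivAt_qf hp y).mul (a5_der hp α η y)).congr_deriv ?_
    rw [exp_eq_qf hp y]
    simp only [Pi.sub_apply]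
    ring) (j1.sub j2) i1
  simp only [Pi.sub_apply] at h
  rw [integral_sub j1 j2, integral_add i0 (i1.const_mul _), integral_const_mul,
    integral_const_mul, a5_int hp, ← Gf, qf_zero, zero_mul] at h
  have n2 : 0 ≤ Real.exp (p * η) * ∫ y in Ioi (0 : ℝ),
      qf p y ^ 2 * (Real.exp (α * y) * (kf p (η + y) / kf p η)) := by
    refine mul_nonneg (Real.exp_pos _).le (integral_nonneg fun y => ?_)
    have := kf_pos p (η + y)
    positivity
  have e : 1 - (qf p η - α) * (Af p α η / kf p η) = (1 + p * qf p η) * Gf p α η := by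
    have := Gf_eq hp α η
    rw [← exp_eq_qf hp]
    field_simp
    linarith
  have := mul_le_mul_of_nonneg_left
    (show (qf p η - α - p) * Gf p α η ≤ Af p α η / kf p η by linarith) g0
  linarith

theorem a5_q (hp : 0 < p) {c : ℝ} (hc : 0 ≤ c) : 0 ≤ qf p c := hc.trans (le_qf hp c)

theorem a5_R (hp : 0 < p) (α : ℝ) {c t : ℝ} (hc : 0 ≤ c) (ht : c ≤ t) :
    kf p c * Gf p α t ≤ kf p c - (qf p c - α) * Af p α c := by
  have hk := (kf_pos p c).le
  rw [Gf_eq hp, mul_assoc]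
  exact (mul_le_mul_of_nonneg_left (Gf_anti hp α ht) hk).trans (le_mul_of_one_le_left
    (mul_nonneg hk (Gf_nonneg hp α c)) (Real.one_le_exp (mul_nonneg hp.le hc)))

theorem tail_pos (hp : 0 < p) {α c w t : ℝ} (hα : 0 ≤ α) (hc : 0 ≤ c) (hw : 0 < w) (ht : c ≤ t) :
    kf p c * Gf p α t * (w + (qf p t - qf p c)) ^ 2 ≤
      kf p c * (1 + (w - (qf p c - α)) ^ 2) +
        (kf p c - (qf p c - α) * Af p α c) * (w - (qf p c - α)) ^ 2 := by
  have hk := kf_pos p c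
  have G0 := Gf_nonneg hp α t
  have R := a5_R hp α hc ht
  have hq := (qf_strictMono hp).monotone ht
  have d2 := sq_nonneg (w - (qf p c - α))
  rcases le_total α (qf p t) with h | h
  · have h1 := Gf_mul_le hp h
    have h2 : (w + (qf p t - qf p c)) ^ 2 ≤
        ((qf p t - α) ^ 2 + 1 + p * α) * (1 + (w - (qf p c - α)) ^ 2) := by
      have := mul_nonneg (mul_nonneg hp.le hα) (add_nonneg zero_le_one d2)
      have := sq_nonneg ((qf p t - α) * (w - (qf p c - α)) - 1)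
      linarith
    have h3 := mul_le_mul_of_nonneg_left h2 G0
    have h4 := mul_le_mul_of_nonneg_right h1 (add_nonneg zero_le_one d2)
    have h5 := mul_le_mul_of_nonneg_left (h3.trans ((mul_assoc _ _ _).symm.trans_le h4)) hk.le
    have h6 := mul_nonneg ((mul_nonneg hk.le G0).trans R) d2
    linarith
  · have h2 : (w + (qf p t - qf p c)) ^ 2 ≤ (w - (qf p c - α)) ^ 2 :=
      pow_le_pow_left₀ (by linarith) (by linarith) 2
    have h3 := mul_le_mul R h2 (sq_nonneg _) ((mul_nonneg hk.le G0).trans R)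
    have h4 := mul_nonneg hk.le (add_nonneg zero_le_one d2)
    linarith

theorem tail_neg (hp : 0 < p) {α c w t : ℝ} (hα : 0 ≤ α) (hα' : p * α ≤ 2 / 3) (hc : 0 ≤ c)
    (ht : c ≤ t) :
    kf p c * Gf p (-α) t * (w + (qf p t - qf p c)) ^ 2 ≤
      kf p c * (1 + (w - (qf p c + α)) ^ 2 * (1 + 3 * (p * α))) := by
  have q0 := a5_q hp (hc.trans ht)
  have h1 := Gf_mul_le hp (α := -α) (η := t) (by linarith)
  have x0 := mul_nonneg hp.le hα
  rw [show w + (qf p t - qf p c) = qf p t - -α + (w - (qf p c + α)) by ring, mul_assoc]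
  rw [mul_neg] at h1
  refine mul_le_mul_of_nonneg_left ?_ (kf_pos p c).le
  have G0 := Gf_nonneg hp (-α) t
  generalize Gf p (-α) t = G at *
  generalize qf p t - -α = g at *
  generalize w - (qf p c + α) = d at *
  generalize p * α = x at *
  have h2 : (g + d) ^ 2 ≤ (g ^ 2 + 1 + -x) * (1 + d ^ 2 * (1 + 3 * x)) := by
    refine le_of_mul_le_mul_left ?_ (show 0 < 1 - x by linarith)
    have := mul_nonneg (mul_nonneg (show 0 ≤ g ^ 2 + 1 + -x by nlinarith [sq_nonneg g])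
      (sq_nonneg d)) (mul_nonneg x0 (show 0 ≤ 2 - 3 * x by linarith))
    have := sq_nonneg (g * d - (1 - x))
    linarith
  exact (mul_le_mul_of_nonneg_left h2 G0).trans
    ((mul_assoc _ _ _).symm.trans_le (mul_le_of_le_one_left (by positivity) h1))

theorem tail_neg' (hp : 0 < p) {α c w t : ℝ} (hα : 0 ≤ α) (hα' : p * α ≤ 1) (hc : 0 < c)
    (hw : 0 ≤ w) (ht : c ≤ t) :
    kf p c * Gf p (-α) t * (w + (qf p t - qf p c)) ^ 2 ≤ (1 + w / qf p c) ^ 2 := by
  have q0 := (qf_pos_iff hp).2 hc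
  have hq := (qf_strictMono hp).monotone ht
  have h1 := Gf_mul_le hp (α := -α) (η := t) (by linarith)
  have G0 := Gf_nonneg hp (-α) t
  have h2 : w + (qf p t - qf p c) ≤ (qf p t - -α) * (1 + w / qf p c) := by
    have := mul_le_mul_of_nonneg_right (show qf p c ≤ qf p t - -α by linarith)
      (div_nonneg hw q0.le)
    rw [mul_div_cancel₀ _ q0.ne'] at this
    linarith
  have h3 := mul_le_mul_of_nonneg_left (pow_le_pow_left₀ (by linarith) h2 2) G0
  have h4 : Gf p (-α) t * (qf p t - -α) ^ 2 ≤ 1 := by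
    have := mul_nonneg G0 (sub_nonneg.2 hα')
    linarith
  rw [mul_pow, ← mul_assoc] at h3
  rw [mul_assoc]
  exact (mul_le_of_le_one_left (by positivity) (kf_le_one p c)).trans
    (h3.trans (mul_le_of_le_one_left (sq_nonneg _) h4))

theorem tail_pos' (hp : 0 < p) {α c w t : ℝ} (hα : 0 ≤ α) (hc : 0 ≤ c) (hw : 0 < w)
    (hq : qf p c ≤ 2 * w) (ht : c ≤ t) :
    kf p c * Gf p α t * (w + (qf p t - qf p c)) ^ 2 ≤
      1 + (w + α) ^ 2 + (1 + α * Af p α c) * (w + α) ^ 2 := by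
  have q0 := a5_q hp hc
  have A0 := (Af_pos hp α c).le
  have k1 := kf_le_one p c
  have d2 := sq_nonneg (w - (qf p c - α))
  have h2 : (w - (qf p c - α)) ^ 2 ≤ (w + α) ^ 2 := sq_le_sq' (by linarith) (by linarith)
  refine (tail_pos hp hα hc hw ht).trans (add_le_add ?_ ?_)
  · exact (mul_le_of_le_one_left (by positivity) k1).trans (by linarith)
  · refine mul_le_mul ?_ h2 d2 (by positivity)
    have := mul_nonneg q0 A0
    linarith

theorem integral_tail_wt (hp : 0 < p) {c w : ℝ} (hw : 0 < w) :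
    IntegrableOn (fun t => Real.exp (p * t) / (1 + (qf p t - qf p c) / w) ^ 2) (Ioi c) ∧
      ∫ t in Ioi c, Real.exp (p * t) / (1 + (qf p t - qf p c) / w) ^ 2 ≤ w := by
  have u : ∀ t, c ≤ t → 0 < 1 + (qf p t - qf p c) / w := fun t ht => by
    have := sub_nonneg.2 ((qf_strictMono hp).monotone ht)
    positivity
  have c1 := continuous_qf p
  have cn : ContinuousOn (fun t => Real.exp (p * t) / (1 + (qf p t - qf p c) / w) ^ 2) (Ici c) :=
    ContinuousOn.div (by fun_prop) (by fun_prop) fun t ht => (pow_pos (u t ht) 2).ne'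
  refine a5_Ioi cn (fun t _ => by positivity) fun b hb => ?_
  rw [intervalIntegral.integral_eq_sub_of_hasDerivAt
    (f := fun t => -w * (1 + (qf p t - qf p c) / w)⁻¹) (fun t ht => ?_)
    ((cn.mono (by rw [uIcc_of_le hb]; exact Icc_subset_Ici_self)).intervalIntegrable)]
  · have := mul_pos hw (inv_pos.2 (u b hb))
    simp only [sub_self, zero_div, add_zero, inv_one]
    linarith
  · rw [uIcc_of_le hb] at ht
    refine ((((((hasDerivAt_qf hp t).sub_const (qf p c)).div_const w).const_add 1).inv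
      (u t ht.1).ne').const_mul (-w)).congr_deriv ?_
    field_simp

end Pool.Agent.Eps.T
end
end

-- part Pool.Agent.Lib.MP_3bda03_nt.T.Fam0
section

/-! Additivity of the integrals over cells. -/

set_option autoImplicit false

noncomputable section

open MeasureTheory Set

namespace Pool.Agent.Eps.T.Fam

variable {F : Fam}

theorem fam0_ii {f u : ℝ → ℝ} {B lo hi a b : ℝ} (hf : Measurable f)
    (hB : ∀ t ∈ Ioc lo hi, |f t| ≤ B) (hu : Continuous u) (ha : a ∈ Icc lo hi)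
    (hb : b ∈ Icc lo hi) : IntervalIntegrable (fun t => f t * u t) volume a b := by
  rw [intervalIntegrable_iff]
  refine Integrable.bdd_mul (c := B) (intervalIntegrable_iff.1 (hu.intervalIntegrable a b))
    hf.aestronglyMeasurable ((ae_restrict_iff' measurableSet_uIoc).2 (.of_forall fun t ht => ?_))
  exact hB t ⟨(le_min ha.1 hb.1).trans_lt ht.1, ht.2.trans (max_le ha.2 hb.2)⟩

theorem fam0_nonneg {f : ℝ → ℝ} {a b : ℝ} (hab : a ≤ b) (h : ∀ t ∈ Ioc a b, 0 ≤ f t) :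
    0 ≤ ∫ t in a..b, f t := by
  rw [intervalIntegral.integral_of_le hab]
  exact setIntegral_nonneg measurableSet_Ioc h

theorem Ok.β_pos (h : F.Ok) {t : ℝ} (ht : t ∈ Ioc F.x1 F.xc) : 0 < F.β t := by
  obtain ⟨b0, b1, h0, hb⟩ := h.bd
  exact h0.trans_le (hb t ht).1

theorem Ok.ii_I1 (h : F.Ok) (α : ℝ) {a b : ℝ} (ha : a ∈ Icc F.x1 F.xc) (hb : b ∈ Icc F.x1 F.xc) :
    IntervalIntegrable (fun t => cf F.p α t ^ 2 / F.β t) volume a b := by
  obtain ⟨b0, b1, h0, hb'⟩ := h.bd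
  have h1 := fam0_ii (B := b0⁻¹) h.mβ.inv (fun t ht => by
    have h2 := h.β_pos ht
    rw [Pi.inv_apply, abs_of_pos (inv_pos.2 h2)]
    exact inv_anti₀ h0 (hb' t ht).1) ((continuous_cf h.p_pos α).pow 2) ha hb
  simpa only [div_eq_inv_mul, Pi.inv_apply, Pi.pow_apply] using h1

theorem Ok.ii_m (h : F.Ok) {u : ℝ → ℝ} (hu : Continuous u) {a b : ℝ} (ha : a ∈ Icc F.x1 F.xc)
    (hb : b ∈ Icc F.x1 F.xc) : IntervalIntegrable (fun t => F.m t * u t) volume a b := by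
  obtain ⟨b0, b1, -, hb'⟩ := h.bd
  exact fam0_ii h.mm (fun t ht => (hb' t ht).2.2.1) hu ha hb

theorem Ok.ii_Ep (h : F.Ok) {a b : ℝ} (ha : a ∈ Icc F.x1 F.xc) (hb : b ∈ Icc F.x1 F.xc) :
    IntervalIntegrable (fun t => F.β t * ((1 + F.η) * (2 * F.lam * (t - F.x1) + F.m t ^ 2) +
      F.eh * F.r t ^ 2)) volume a b := by
  obtain ⟨b0, b1, h0, hb'⟩ := h.bd
  have h1 : ∀ t ∈ Ioc F.x1 F.xc, |F.β t| ≤ b1 := fun t ht => by
    rw [abs_of_pos (h.β_pos ht)]
    exact (hb' t ht).2.1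
  have h2 : ∀ g : ℝ → ℝ, (∀ t ∈ Ioc F.x1 F.xc, |g t| ≤ b1) →
      ∀ t ∈ Ioc F.x1 F.xc, |F.β t * g t ^ 2| ≤ b1 * b1 ^ 2 := fun g hg t ht => by
    rw [abs_mul, abs_pow]
    exact mul_le_mul (h1 t ht) (pow_le_pow_left₀ (abs_nonneg _) (hg t ht) 2) (by positivity)
      ((abs_nonneg _).trans (h1 t ht))
  have i1 := fam0_ii (u := fun t => (1 + F.η) * (2 * F.lam * (t - F.x1))) h.mβ h1
    (by fun_prop) ha hb
  have i2 := fam0_ii (u := fun _ => 1 + F.η) (h.mβ.mul (h.mm.pow_const 2))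
    (h2 _ fun t ht => (hb' t ht).2.2.1) continuous_const ha hb
  have i3 := fam0_ii (u := fun _ => F.eh) (h.mβ.mul (h.mr.pow_const 2))
    (h2 _ fun t ht => by
      rw [abs_of_nonneg (hb' t ht).2.2.2.1]
      exact (hb' t ht).2.2.2.2) continuous_const ha hb
  refine ((i1.add i2).add i3).congr fun t _ => ?_
  simp only [Pi.mul_apply]
  ring

theorem Ok.I1_add (h : F.Ok) (α : ℝ) {a b c : ℝ} (ha : a ∈ Icc F.x1 F.xc)
    (hb : b ∈ Icc F.x1 F.xc) (hc : c ∈ Icc F.x1 F.xc) : F.I1 α a b + F.I1 α b c = F.I1 α a c := by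
  exact intervalIntegral.integral_add_adjacent_intervals (h.ii_I1 α ha hb) (h.ii_I1 α hb hc)

theorem Ok.M1_add (h : F.Ok) (α : ℝ) {a b c : ℝ} (ha : a ∈ Icc F.x1 F.xc)
    (hb : b ∈ Icc F.x1 F.xc) (hc : c ∈ Icc F.x1 F.xc) : F.M1 α a b + F.M1 α b c = F.M1 α a c := by
  exact intervalIntegral.integral_add_adjacent_intervals
    (h.ii_m (continuous_cf h.p_pos α) ha hb) (h.ii_m (continuous_cf h.p_pos α) hb hc)

theorem Ok.I2_add (h : F.Ok) (α : ℝ) {a b c : ℝ} (ha : a ∈ Icc F.x1 F.xc)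
    (hb : b ∈ Icc F.x1 F.xc) (hc : c ∈ Icc F.x1 F.xc) : F.I2 α a b + F.I2 α b c = F.I2 α a c := by
  have h1 := h.I1_add α ha hb hc
  have h2 := h.I1_add (-α) ha hb hc
  unfold I2
  linarith

theorem Ok.M2_add (h : F.Ok) (α : ℝ) {a b c : ℝ} (ha : a ∈ Icc F.x1 F.xc)
    (hb : b ∈ Icc F.x1 F.xc) (hc : c ∈ Icc F.x1 F.xc) : F.M2 α a b + F.M2 α b c = F.M2 α a c := by
  have h1 := h.M1_add α ha hb hc
  have h2 := h.M1_add (-α) ha hb hc
  unfold M2
  linarith

theorem Ok.Sx_add (h : F.Ok) (α : ℝ) {a b c : ℝ} (ha : a ∈ Icc F.x1 F.xc)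
    (hb : b ∈ Icc F.x1 F.xc) (hc : c ∈ Icc F.x1 F.xc) : F.Sx α a b + F.Sx α b c = F.Sx α a c := by
  have hu : Continuous fun t => α * Real.exp (-(α * (t - F.x1))) := by fun_prop
  exact intervalIntegral.integral_add_adjacent_intervals (h.ii_m hu ha hb) (h.ii_m hu hb hc)

theorem Ok.Ep_add (h : F.Ok) {a b c : ℝ} (ha : a ∈ Icc F.x1 F.xc)
    (hb : b ∈ Icc F.x1 F.xc) (hc : c ∈ Icc F.x1 F.xc) : F.Ep a b + F.Ep b c = F.Ep a c := by
  exact intervalIntegral.integral_add_adjacent_intervals (h.ii_Ep ha hb) (h.ii_Ep hb hc)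

theorem Kx_add (F : Fam) (a b c : ℝ) : F.Kx a b + F.Kx b c = F.Kx a c := by
  exact intervalIntegral.integral_add_adjacent_intervals
    ((continuous_kf F.p).intervalIntegrable a b) ((continuous_kf F.p).intervalIntegrable b c)

theorem Kx_nonneg (F : Fam) {a b : ℝ} (h : a ≤ b) : 0 ≤ F.Kx a b := by
  exact interval_kf_nonneg F.p h

theorem I2_same (F : Fam) (α a : ℝ) : F.I2 α a a = 0 := by
  simp [I2, I1]

theorem M2_same (F : Fam) (α a : ℝ) : F.M2 α a a = 0 := by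
  simp [M2, M1]

theorem Sx_same (F : Fam) (α a : ℝ) : F.Sx α a a = 0 := by
  simp [Sx]

theorem Kx_same (F : Fam) (a : ℝ) : F.Kx a a = 0 := by
  simp [Kx]

theorem Ok.I1_nonneg (h : F.Ok) (α : ℝ) {a b : ℝ} (ha : F.x1 ≤ a) (hab : a ≤ b) (hb : b ≤ F.xc) :
    0 ≤ F.I1 α a b := by
  exact fam0_nonneg hab fun t ht =>
    div_nonneg (sq_nonneg _) (h.β_pos ⟨ha.trans_lt ht.1, ht.2.trans hb⟩).le

theorem Ok.E_pos (h : F.Ok) : 0 < F.Ep F.x1 F.xc + F.Eq2 := by
  have h1 := h.lam_pos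
  have h2 := h.η_nonneg
  have h3 := h.eh_nonneg
  have h4 := h.qc_pos
  have h5 := sub_pos.2 (h.x1_neg.trans h.xc_pos)
  have h6 := sub_pos.2 h.q_pos
  have h7 := h.bi_pos
  have h8 := h.bt_pos
  have h9 := h.w_pos
  refine add_pos_of_nonneg_of_pos (fam0_nonneg (sub_pos.1 h5).le fun t ht => ?_) ?_
  · have := h.β_pos ht
    have := sub_pos.2 ht.1
    positivity
  · unfold Eq2
    positivity

theorem Ok.Tl_nonneg (h : F.Ok) {α Θ : ℝ} (hT : F.Tl α Θ) : 0 ≤ Θ := by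
  exact (mul_nonneg (mul_nonneg (kf_pos _ _).le (Gf_nonneg h.p_pos _ _)) (sq_nonneg _)).trans
    (hT F.xc le_rfl)

theorem Ok.It_pos (h : F.Ok) {α Θ : ℝ} (hT : F.Tl α Θ) : 0 < F.It α Θ := by
  have h1 := h.I1_nonneg α le_rfl (h.x1_neg.trans h.xc_pos).le le_rfl
  have h2 := h.Tl_nonneg hT
  have h3 := Af_pos h.p_pos α F.xc
  have h7 := h.bi_pos
  have h8 := h.bt_pos
  unfold It
  positivity

theorem It_add (F : Fam) (α Θ₁ Θ₂ : ℝ) :
    F.It α Θ₁ + F.It (-α) Θ₂ = F.I2 α F.x1 F.xc + (F.Rs α Θ₁ + F.Rs (-α) Θ₂) := by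
  unfold It I2 Rs
  ring

theorem Ok.EA_nonneg (h : F.Ok) : 0 ≤ F.EA := by
  have h1 := h.ρ_pos
  have h2 := h.TT_pos
  unfold EA
  positivity

theorem Ok.EB_nonneg (h : F.Ok) : 0 ≤ F.EB := by
  have h1 := h.ρ_pos
  have h2 := h.TT_pos
  unfold EB
  positivity

theorem Ok.jj_pos (h : F.Ok) (α : ℝ) : 0 < F.jj α := by
  exact inv_pos.2 (Af_pos h.p_pos α F.x1)

theorem Ok.jj_mul (h : F.Ok) (α : ℝ) : F.jj α * Af F.p α F.x1 = 1 := by
  exact inv_mul_cancel₀ (Af_pos h.p_pos α F.x1).ne'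

theorem Ok.jj_Af_le (h : F.Ok) (α : ℝ) {t : ℝ} (ht : F.x1 ≤ t) :
    F.jj α * Af F.p α t ≤ Real.exp (-(α * (t - F.x1))) := by
  refine (mul_le_mul_of_nonneg_left (Af_le_exp h.p_pos α ht) (h.jj_pos α).le).trans_eq ?_
  rw [mul_left_comm, h.jj_mul, mul_one]

theorem Ok.jj_Af_neg_le (h : F.Ok) {α J : ℝ} (hα : 0 ≤ α) (hJ : F.jj α ≤ J) (t : ℝ) :
    F.jj α * Af F.p (-α) t ≤ 14 / 5 * J := by
  rw [mul_comm]
  exact mul_le_mul (Af_neg_le h.p_pos h.p_le hα t) hJ (h.jj_pos α).le (by norm_num)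

/-- the criterion from normalised bounds -/
theorem Ok.critAt (h : F.Ok) {lf α ι Θ₁ Θ₂ μ₁ μ₂ Λ I Y : ℝ} (hlf : 0 < lf) (hι : 0 < ι)
    (h1 : F.Tl α Θ₁) (h2 : F.Tl (-α) Θ₂) (h3 : F.Mu α μ₁) (h4 : F.Mu (-α) μ₂)
    (hΛ : 2 * lf * (F.Ep F.x1 F.xc + F.Eq2) ≤ Λ)
    (hI : ι ^ 2 * (F.It α Θ₁ + F.It (-α) Θ₂) ≤ I) (hY : Y ≤ ι * (F.Yt α μ₁ + F.Yt (-α) μ₂))
    (hY0 : 0 ≤ Y) (hlt : Λ * I < Y ^ 2) : F.CritAt lf α := by
  have hS : 0 ≤ F.Yt α μ₁ + F.Yt (-α) μ₂ := (mul_nonneg_iff_of_pos_left hι).1 (hY0.trans hY)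
  have hE : 0 < 2 * lf * (F.Ep F.x1 F.xc + F.Eq2) := mul_pos (by positivity) h.E_pos
  have hP : 0 ≤ ι ^ 2 * (F.It α Θ₁ + F.It (-α) Θ₂) :=
    mul_nonneg (sq_nonneg _) (add_pos (h.It_pos h1) (h.It_pos h2)).le
  refine ⟨Θ₁, Θ₂, μ₁, μ₂, h1, h2, h3, h4, hS, lt_of_mul_lt_mul_left ?_ (sq_nonneg ι)⟩
  calc _ = 2 * lf * (F.Ep F.x1 F.xc + F.Eq2) * (ι ^ 2 * (F.It α Θ₁ + F.It (-α) Θ₂)) := by ring
    _ ≤ Λ * I := mul_le_mul hΛ hI hP (hE.le.trans hΛ)
    _ < Y ^ 2 := hlt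
    _ ≤ (ι * (F.Yt α μ₁ + F.Yt (-α) μ₂)) ^ 2 := pow_le_pow_left₀ hY0 hY 2
    _ = _ := by ring

end Pool.Agent.Eps.T.Fam
end
end

-- part Pool.Agent.Lib.MP_3bda03_nt.T.Cel
section

/-! The contribution of one cell. -/

set_option autoImplicit false

noncomputable section

open MeasureTheory Set

namespace Pool.Agent.Eps.T

variable {F : Fam} {lo a b b2 mm xf bb v0 ib : ℝ} {c : Cell}

private theorem cel_congr {f g : ℝ → ℝ} {a b : ℝ} (hab : a ≤ b) (h : ∀ t ∈ Ioc a b, f t = g t) :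
    ∫ t in a..b, f t = ∫ t in a..b, g t := by
  rw [intervalIntegral.integral_of_le hab, intervalIntegral.integral_of_le hab]
  exact setIntegral_congr_fun measurableSet_Ioc h

private theorem cel_div {X Y bb ib : ℝ} (hb : 0 < bb) (hib : 1 ≤ ib * bb) (h0 : 0 ≤ Y)
    (h : Y ≤ X) : Y / bb ≤ ib * X := by
  rw [div_le_iff₀ hb]
  nlinarith [mul_le_mul_of_nonneg_right hib (h0.trans h)]

private theorem cel_xc (h : F.Ok) : 0 < F.xc := by
  have h1 := h.q_pos
  have h2 := h.p_pos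
  exact (qf_pos_iff h.p_pos).1 (by unfold Fam.qc at h1; linarith)

private theorem cel_lam (h : F.Ok) : 0 < F.lam := div_pos h.p_pos h.τ_pos

private theorem cel_lam_x1 (h : F.Ok) : F.lam * F.x1 = -1 := by
  have h1 := h.p_pos
  have h2 := h.τ_pos
  unfold Fam.lam Fam.x1
  field_simp

private theorem cel_sq_nonneg {f : ℝ → ℝ} {a b : ℝ} (hab : a < b) :
    0 ≤ (b - a) * ∫ t in a..b, f t ^ 2 :=
  mul_nonneg (by linarith) (intervalIntegral.integral_nonneg hab.le fun _ _ => sq_nonneg _)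

private theorem cel_near (hc : NearC F lo a b c) (γ : ℝ) :
    F.I1 γ a b = ((b - a) * ∫ t in a..b, cf F.p γ t ^ 2) / val c.bb := by
  unfold Fam.I1
  rw [cel_congr hc.lt.le (g := fun t => (b - a) * cf F.p γ t ^ 2 / val c.bb) fun t ht => by
    rw [hc.hβ t ht, div_div_eq_mul_div, mul_comm], intervalIntegral.integral_div,
    intervalIntegral.integral_const_mul]

private theorem cel_M (h : F.Ok) {m : ℝ} (hab : a ≤ b) (hm : ∀ t ∈ Ioc a b, F.m t = m) (γ : ℝ) :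
    F.M1 γ a b = m * (Af F.p γ a - Af F.p γ b) := by
  unfold Fam.M1
  rw [cel_congr hab (g := fun t => m * cf F.p γ t) fun t ht => by rw [hm t ht],
    intervalIntegral.integral_const_mul, integral_cf h.p_pos]

private theorem cel_Sx {m : ℝ} (hab : a ≤ b) (hm : ∀ t ∈ Ioc a b, F.m t = m) (α : ℝ) :
    F.Sx α a b = m * (Real.exp (-(α * (a - F.x1))) * (1 - Real.exp (-(α * (b - a))))) := by
  unfold Fam.Sx
  rw [cel_congr hab (g := fun t => m * (α * Real.exp (-(α * (t - F.x1))))) fun t ht => by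
    rw [hm t ht], intervalIntegral.integral_const_mul]
  congr 1
  have hd : ∀ t ∈ uIcc a b, HasDerivAt (fun t => -Real.exp (-(α * (t - F.x1))))
      (α * Real.exp (-(α * (t - F.x1)))) t := fun t _ => by
    have h1 : HasDerivAt (fun t : ℝ => -(α * (t - F.x1))) (-(α * 1)) t :=
      (((hasDerivAt_id t).sub_const F.x1).const_mul α).neg
    exact h1.exp.neg.congr_deriv (by ring)
  rw [intervalIntegral.integral_eq_sub_of_hasDerivAt hd
    (Continuous.intervalIntegrable (by fun_prop) _ _)]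
  have e : Real.exp (-(α * (b - F.x1))) =
      Real.exp (-(α * (a - F.x1))) * Real.exp (-(α * (b - a))) := by
    rw [← Real.exp_add]
    congr 1
    ring
  rw [e]
  ring

private theorem cel_cost (h : F.Ok) (hab : a < b) (B m r : ℝ) :
    ∫ t in a..b, B / (b - a) * ((1 + F.η) * (2 * F.lam * (t - F.x1) + m ^ 2) + F.eh * r ^ 2) =
      B * ((1 + F.η) * (2 + 2 * (F.lam * a) + F.lam * (b - a) + m ^ 2) + F.eh * r ^ 2) := by
  have hd : ∀ t ∈ uIcc a b, HasDerivAt (fun t => B / (b - a) *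
      ((1 + F.η) * (F.lam * (t - F.x1) ^ 2 + m ^ 2 * t) + F.eh * r ^ 2 * t))
      (B / (b - a) * ((1 + F.η) * (2 * F.lam * (t - F.x1) + m ^ 2) + F.eh * r ^ 2)) t :=
    fun t _ => by
      have h1 : HasDerivAt (fun t : ℝ => (t - F.x1) ^ 2) (2 * (t - F.x1)) t :=
        (((hasDerivAt_id t).sub_const F.x1).pow 2).congr_deriv (by simp)
      have h2 : HasDerivAt (fun t : ℝ => t) 1 t := hasDerivAt_id t
      exact (((((h1.const_mul F.lam).add (h2.const_mul (m ^ 2))).const_mul (1 + F.η)).add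
        (h2.const_mul (F.eh * r ^ 2))).const_mul (B / (b - a))).congr_deriv (by ring)
  rw [intervalIntegral.integral_eq_sub_of_hasDerivAt hd
    (Continuous.intervalIntegrable (by fun_prop) _ _)]
  have h1 := cel_lam_x1 h
  have h2 : b - a ≠ 0 := (sub_pos.2 hab).ne'
  have e : (2 : ℝ) + 2 * (F.lam * a) = 2 * (F.lam * a) - 2 * (F.lam * F.x1) := by rw [h1]; ring
  rw [e]
  field_simp
  ring

private theorem cel_W (h : F.Ok) {t m mm : ℝ} (ht : t ≤ 0) (hm : m ^ 2 ≤ mm ^ 2) :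
    (1 + F.η) * (2 * F.lam * (t - F.x1) + m ^ 2) + F.eh * 1 ^ 2 ≤
      (1 + F.η) * (2 + mm ^ 2) + F.eh := by
  have h1 := cel_lam_x1 h
  have h2 : F.lam * t ≤ 0 := mul_nonpos_of_nonneg_of_nonpos (cel_lam h).le ht
  have h3 : 2 * F.lam * (t - F.x1) + m ^ 2 ≤ 2 + mm ^ 2 := by nlinarith
  have h4 := mul_le_mul_of_nonneg_left h3 (show 0 ≤ 1 + F.η by linarith [h.η_nonneg])
  linarith

/-- the split of the dual norm into the profile part and the kernel part -/
private theorem cel_titu (h : F.Ok) {w : ℝ → ℝ} (hw : Continuous w) (ha : F.x1 ≤ a) (hab : a < b)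
    (hb : b ≤ 0) (hbb : 0 < bb) (hb2 : 0 < b2) (hw0 : ∀ t ∈ Ioc a b, 0 < w t)
    (hβ : ∀ t ∈ Ioc a b, F.β t = bb / w t + b2 * kf F.p t) (γ : ℝ) :
    F.I1 γ a b ≤ (∫ t in a..b, (γ * Af F.p γ t) ^ 2 * w t) / bb + F.Kx a b / b2 := by
  have hxc := cel_xc h
  have hA := continuous_Af h.p_pos γ
  have hk := continuous_kf F.p
  unfold Fam.I1 Fam.Kx
  rw [← intervalIntegral.integral_div, ← intervalIntegral.integral_div,
    ← intervalIntegral.integral_add (Continuous.intervalIntegrable (by fun_prop) _ _)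
      (Continuous.intervalIntegrable (by fun_prop) _ _)]
  refine intervalIntegral.integral_mono_on_of_le_Ioo hab.le
    (h.ii_I1 γ ⟨ha, by linarith⟩ ⟨by linarith, by linarith⟩)
    (Continuous.intervalIntegrable (by fun_prop) _ _) fun t ht => ?_
  have ht' : t ∈ Ioc a b := Ioo_subset_Ioc_self ht
  have h1 := hw0 t ht'
  have h2 := kf_pos F.p t
  rw [hβ t ht']
  refine (titu (x := γ * Af F.p γ t) (y := kf F.p t) (div_pos hbb h1) (mul_pos hb2 h2)).trans
    (le_of_eq ?_)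
  field_simp

private theorem cel_far (h : F.Ok) (hc : FarC F b2 mm xf lo a b c) (γ : ℝ) :
    F.I1 γ a b ≤ ((b - a) * ∫ t in a..b, (γ * Af F.p γ t) ^ 2) / val c.bb + F.Kx a b / b2 := by
  have := cel_titu h (w := fun _ => b - a) continuous_const hc.x1_le hc.lt
    (hc.le_xf.trans hc.xf_le) hc.bb_pos hc.b2_pos (fun _ _ => by linarith [hc.lt]) hc.hβ γ
  rwa [intervalIntegral.integral_mul_const, mul_comm] at this

private theorem cel_u (h : F.Ok) (hc : LogC F b2 xf b bb v0) : 0 < v0 * F.p / 2 :=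
  div_pos (mul_pos hc.v0_pos h.p_pos) two_pos

private theorem cel_logI (h : F.Ok) (hc : LogC F b2 xf b bb v0) (γ : ℝ) :
    0 ≤ ∫ t in F.x1..b, (γ * Af F.p γ t) ^ 2 * (t - F.x1 + v0 * F.p / 2) ∧
    F.I1 γ F.x1 b ≤ (∫ t in F.x1..b, (γ * Af F.p γ t) ^ 2 * (t - F.x1 + v0 * F.p / 2)) / bb +
      F.Kx F.x1 b / b2 := by
  have hu := cel_u h hc
  exact ⟨intervalIntegral.integral_nonneg hc.lt.le fun t ht =>
      mul_nonneg (sq_nonneg _) (by linarith [ht.1]),
    cel_titu h (w := fun t => t - F.x1 + v0 * F.p / 2) (by fun_prop) le_rfl hc.lt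
      (hc.le_xf.trans hc.xf_le) hc.bb_pos hc.b2_pos (fun t ht => by linarith [ht.1]) hc.hβ γ⟩

private theorem cel_log {a b u : ℝ} (hab : a ≤ b) (hu : 0 < u) :
    IntervalIntegrable (fun t => (t - a + u)⁻¹) volume a b ∧
      ∫ t in a..b, (t - a + u)⁻¹ = Real.log (1 + (b - a) / u) := by
  have hne : ∀ t ∈ uIcc a b, t - a + u ≠ 0 := fun t ht => by
    rw [uIcc_of_le hab] at ht
    linarith [ht.1]
  have hi : IntervalIntegrable (fun t => (t - a + u)⁻¹) volume a b :=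
    ContinuousOn.intervalIntegrable (ContinuousOn.inv₀ (by fun_prop) hne)
  refine ⟨hi, ?_⟩
  have hd : ∀ t ∈ uIcc a b, HasDerivAt (fun t => Real.log (t - a + u)) (t - a + u)⁻¹ t :=
    fun t ht => by
      have h1 : HasDerivAt (fun t : ℝ => t - a + u) 1 t :=
        ((hasDerivAt_id t).sub_const a).add_const u
      exact (h1.log (hne t ht)).congr_deriv (by rw [one_div])
  rw [intervalIntegral.integral_eq_sub_of_hasDerivAt hd hi,
    ← Real.log_div (by linarith) (by linarith), sub_self, zero_add, add_div, div_self hu.ne',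
    add_comm]

theorem NearC.I_le (h : F.Ok) (hc : NearC F lo a b c) (hib : 1 ≤ ib * val c.bb) {γ S A P Q : ℝ}
    (hS : |γ * (b - a)| ≤ S) (hA : ∀ t ∈ Icc a b, Af F.p γ t ≤ A)
    (hP : ∀ t ∈ Icc a b, (b - a) * kf F.p t ≤ P) (hQ : ∀ t ∈ Icc a b, (b - a) * |qf F.p t| ≤ Q) :
    F.I1 γ a b ≤ ib * ((Af F.p γ a - Af F.p γ b) ^ 2 + (S ^ 2 * A + (S + Q) * P) ^ 2 / 12) := by
  rw [cel_near hc]
  exact cel_div hc.bb_pos hib (cel_sq_nonneg hc.lt) (near_K h.p_pos hc.lt hS hA hP hQ)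

theorem NearC.I_sup (h : F.Ok) (hc : NearC F lo a b c) (hib : 1 ≤ ib * val c.bb) {γ S A P : ℝ}
    (hS : |γ * (b - a)| ≤ S) (hA : ∀ t ∈ Icc a b, Af F.p γ t ≤ A)
    (hP : ∀ t ∈ Icc a b, (b - a) * kf F.p t ≤ P) : F.I1 γ a b ≤ ib * (S * A + P) ^ 2 := by
  rw [cel_near hc]
  exact cel_div hc.bb_pos hib (cel_sq_nonneg hc.lt) (sup_K h.p_pos hc.lt hS hA hP)

theorem NearC.M_eq (h : F.Ok) (hc : NearC F lo a b c) (γ : ℝ) :
    F.M1 γ a b = val c.m * (Af F.p γ a - Af F.p γ b) := by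
  exact cel_M h hc.lt.le hc.hm γ

theorem NearC.Sx_eq (hc : NearC F lo a b c) (α : ℝ) :
    F.Sx α a b = val c.m * (Real.exp (-(α * (a - F.x1))) * (1 - Real.exp (-(α * (b - a))))) := by
  exact cel_Sx hc.lt.le hc.hm α

theorem NearC.Ep_eq (h : F.Ok) (hc : NearC F lo a b c) : F.Ep a b = costN F a b c := by
  unfold Fam.Ep costN
  rw [← cel_cost h hc.lt]
  exact cel_congr hc.lt.le fun t ht => by rw [hc.hβ t ht, hc.hm t ht, hc.hr t ht]

theorem FarC.I_le (h : F.Ok) (hc : FarC F b2 mm xf lo a b c) (hib : 1 ≤ ib * val c.bb) {γ u : ℝ}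
    (hu : Af F.p γ a ≤ u) :
    F.I1 γ a b ≤ ib * (u ^ 2 * (γ * (b - a) * (1 - Real.exp (-(γ * (b - a))) ^ 2) / 2)) +
      F.Kx a b / b2 := by
  exact (cel_far h hc γ).trans (add_le_add_left
    (cel_div hc.bb_pos hib (cel_sq_nonneg hc.lt) (far_K h.p_pos hc.lt hu)) _)

theorem FarC.I_sup (h : F.Ok) (hc : FarC F b2 mm xf lo a b c) (hib : 1 ≤ ib * val c.bb)
    {γ S A : ℝ} (hS : |γ * (b - a)| ≤ S) (hA : ∀ t ∈ Icc a b, Af F.p γ t ≤ A) :
    F.I1 γ a b ≤ ib * (S * A) ^ 2 + F.Kx a b / b2 := by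
  exact (cel_far h hc γ).trans (add_le_add_left
    (cel_div hc.bb_pos hib (cel_sq_nonneg hc.lt) (far_sup_K h.p_pos hc.lt hS hA)) _)

theorem FarC.M_eq (h : F.Ok) (hc : FarC F b2 mm xf lo a b c) (γ : ℝ) :
    F.M1 γ a b = val c.m * (Af F.p γ a - Af F.p γ b) := by
  exact cel_M h hc.lt.le hc.hm γ

theorem FarC.Sx_eq (hc : FarC F b2 mm xf lo a b c) (α : ℝ) :
    F.Sx α a b = val c.m * (Real.exp (-(α * (a - F.x1))) * (1 - Real.exp (-(α * (b - a))))) := by
  exact cel_Sx hc.lt.le hc.hm α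

theorem FarC.Ep_le (h : F.Ok) (hc : FarC F b2 mm xf lo a b c) :
    F.Ep a b ≤ costF F a b c + b2 * F.Kx a b * ((1 + F.η) * (2 + mm ^ 2) + F.eh) := by
  have hxc := cel_xc h
  have hb : b ≤ 0 := hc.le_xf.trans hc.xf_le
  have hab := hc.lt
  have ha := hc.x1_le
  have hk := continuous_kf F.p
  have e1 : costF F a b c = ∫ t in a..b, val c.bb / (b - a) *
      ((1 + F.η) * (2 * F.lam * (t - F.x1) + val c.m ^ 2) + F.eh * 1 ^ 2) := by
    rw [cel_cost h hc.lt]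
    unfold costF
    ring
  have e2 : b2 * F.Kx a b * ((1 + F.η) * (2 + mm ^ 2) + F.eh) =
      ∫ t in a..b, b2 * kf F.p t * ((1 + F.η) * (2 + mm ^ 2) + F.eh) := by
    rw [intervalIntegral.integral_mul_const, intervalIntegral.integral_const_mul]
    rfl
  rw [e1, e2, ← intervalIntegral.integral_add (Continuous.intervalIntegrable (by fun_prop) _ _)
    (Continuous.intervalIntegrable (by fun_prop) _ _)]
  refine intervalIntegral.integral_mono_on_of_le_Ioo hab.le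
    (h.ii_Ep ⟨ha, by linarith⟩ ⟨by linarith, by linarith⟩)
    (Continuous.intervalIntegrable (by fun_prop) _ _) fun t ht => ?_
  have ht' : t ∈ Ioc a b := Ioo_subset_Ioc_self ht
  rw [hc.hβ t ht', hc.hm t ht', hc.hr t ht', add_mul]
  exact add_le_add_right (mul_le_mul_of_nonneg_left
    (cel_W h (ht'.2.trans hb) (pow_le_pow_left₀ hc.m_nonneg hc.m_le 2))
    (mul_pos hc.b2_pos (kf_pos _ _)).le) _

theorem LogC.I_le (h : F.Ok) (hc : LogC F b2 xf b bb v0) (hib : 1 ≤ ib * bb) {γ u : ℝ}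
    (hu : Af F.p γ F.x1 ≤ u) :
    F.I1 γ F.x1 b ≤ ib * (u ^ 2 * (((γ * (v0 * F.p / 2) + γ * (b - F.x1)) / 2 + 1 / 4) *
      (1 - Real.exp (-(γ * (b - F.x1))) ^ 2) - γ * (b - F.x1) / 2)) + F.Kx F.x1 b / b2 := by
  obtain ⟨h0, h1⟩ := cel_logI h hc γ
  exact h1.trans (add_le_add_left
    (cel_div hc.bb_pos hib h0 (log_K h.p_pos hc.lt (cel_u h hc).le hu)) _)

theorem LogC.I_sup (h : F.Ok) (hc : LogC F b2 xf b bb v0) (hib : 1 ≤ ib * bb) {γ S S0 A : ℝ}
    (hS : |γ * (b - F.x1)| ≤ S) (hS0 : |γ * (v0 * F.p / 2)| ≤ S0)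
    (hA : ∀ t ∈ Icc F.x1 b, Af F.p γ t ≤ A) :
    F.I1 γ F.x1 b ≤ ib * (A ^ 2 * (S * (S + S0))) + F.Kx F.x1 b / b2 := by
  obtain ⟨h0, h1⟩ := cel_logI h hc γ
  exact h1.trans (add_le_add_left
    (cel_div hc.bb_pos hib h0 (log_sup_K h.p_pos hc.lt (cel_u h hc).le hS hS0 hA)) _)

theorem LogC.M_eq (hc : LogC F b2 xf b bb v0) (γ : ℝ) : F.M1 γ F.x1 b = 0 := by
  unfold Fam.M1
  rw [cel_congr hc.lt.le (g := fun _ => 0) fun t ht => by rw [hc.hm t ht, zero_mul]]
  exact intervalIntegral.integral_zero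

theorem LogC.Sx_eq (hc : LogC F b2 xf b bb v0) (α : ℝ) : F.Sx α F.x1 b = 0 := by
  rw [cel_Sx hc.lt.le hc.hm, zero_mul]

theorem LogC.Ep_le (h : F.Ok) (hc : LogC F b2 xf b bb v0) {e gl : ℝ} (he : F.eh = e * F.lam)
    (hgl : 0 ≤ gl) (hg : 2 * (F.lam * (b - F.x1)) ≤ gl ^ 2 * v0 * F.τ) (mm : ℝ) :
    F.Ep F.x1 b ≤ bb * (2 * (1 + F.η) * (F.lam * (b - F.x1)) + e * gl) +
      b2 * F.Kx F.x1 b * ((1 + F.η) * (2 + mm ^ 2) + F.eh) := by
  have hxc := cel_xc h
  have hb : b ≤ 0 := hc.le_xf.trans hc.xf_le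
  have hab := hc.lt
  have hk := continuous_kf F.p
  have hu := cel_u h hc
  have hl := cel_lam h
  have hη := h.η_nonneg
  have hbb := hc.bb_pos
  obtain ⟨i1, i2⟩ := cel_log hab.le hu
  have he0 : 0 ≤ e := by
    have h1 := h.eh_nonneg
    rw [he] at h1
    exact nonneg_of_mul_nonneg_left h1 hl
  have hy : 0 ≤ (b - F.x1) / (v0 * F.p / 2) := div_nonneg (by linarith) hu.le
  have h1 : F.lam * Real.log (1 + (b - F.x1) / (v0 * F.p / 2)) ≤ gl := by
    refine (mul_le_mul_of_nonneg_left (log_one_add_le_sqrt hy) hl.le).trans ?_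
    rw [← Real.sqrt_sq hl.le, ← Real.sqrt_mul (sq_nonneg _)]
    refine Real.sqrt_le_iff.2 ⟨hgl, ?_⟩
    have h2 : F.lam ^ 2 * ((b - F.x1) / (v0 * F.p / 2)) =
        2 * (F.lam * (b - F.x1)) / (v0 * F.τ) := by
      have h3 := h.p_pos
      have h4 := h.τ_pos
      have h5 := hc.v0_pos
      unfold Fam.lam
      field_simp
    rw [h2, div_le_iff₀ (mul_pos hc.v0_pos h.τ_pos)]
    linarith
  have j1 : IntervalIntegrable (fun t => bb * (2 * (1 + F.η) * F.lam) +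
      bb * F.eh * (t - F.x1 + v0 * F.p / 2)⁻¹) volume F.x1 b :=
    intervalIntegrable_const.add (i1.const_mul _)
  have j2 : IntervalIntegrable (fun t => b2 * kf F.p t * ((1 + F.η) * (2 + mm ^ 2) + F.eh))
      volume F.x1 b := Continuous.intervalIntegrable (by fun_prop) _ _
  have h2 : F.Ep F.x1 b ≤ ∫ t in F.x1..b, ((bb * (2 * (1 + F.η) * F.lam) +
      bb * F.eh * (t - F.x1 + v0 * F.p / 2)⁻¹) +
      b2 * kf F.p t * ((1 + F.η) * (2 + mm ^ 2) + F.eh)) := by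
    refine intervalIntegral.integral_mono_on_of_le_Ioo hab.le
      (h.ii_Ep ⟨le_rfl, by linarith⟩ ⟨by linarith, by linarith⟩) (j1.add j2) fun t ht => ?_
    have ht' : t ∈ Ioc F.x1 b := Ioo_subset_Ioc_self ht
    rw [hc.hβ t ht', hc.hm t ht', hc.hr t ht', add_mul]
    refine add_le_add ?_ (mul_le_mul_of_nonneg_left
      (cel_W h (ht'.2.trans hb) (by simpa using sq_nonneg mm))
      (mul_pos hc.b2_pos (kf_pos _ _)).le)
    have h3 : 0 < t - F.x1 + v0 * F.p / 2 := by linarith [ht.1]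
    have h4 : (t - F.x1) * (t - F.x1 + v0 * F.p / 2)⁻¹ ≤ 1 := by
      rw [← div_eq_mul_inv, div_le_one h3]
      linarith
    have h5 : 0 ≤ bb * (2 * (1 + F.η) * F.lam) := by positivity
    have h6 := mul_le_mul_of_nonneg_left h4 h5
    rw [div_eq_mul_inv bb]
    nlinarith
  rw [intervalIntegral.integral_add j1 j2,
    intervalIntegral.integral_add intervalIntegrable_const (i1.const_mul _),
    intervalIntegral.integral_const, intervalIntegral.integral_const_mul, i2,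
    intervalIntegral.integral_mul_const, intervalIntegral.integral_const_mul, smul_eq_mul] at h2
  refine h2.trans (add_le_add_left ?_ _)
  have h3 := mul_le_mul_of_nonneg_left h1 (mul_nonneg hbb.le he0)
  rw [he]
  nlinarith

end Pool.Agent.Eps.T
end
end

-- part Pool.Agent.Lib.MP_3bda03_nt.T.Loop
section

/-! Loops over cells. -/

set_option autoImplicit false

namespace Pool.Agent.Eps.T

variable {f : ℕ → ℕ → Cell → Ck → Ck} {G G' : ℕ → ℕ → Cell → Prop}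
  {T T' : ℕ → ℕ → Cell → List ℝ → Prop}

theorem AllC.mono (h : ∀ ca ba c, G ca ba c → G' ca ba c) {cs : List Cell} {ca ba : ℕ}
    (H : AllC G cs ca ba) : AllC G' cs ca ba := by
  induction cs generalizing ca ba with
  | nil => trivial
  | cons c cs ih => exact ⟨h _ _ _ H.1, ih H.2⟩

theorem AllC.and {cs : List Cell} {ca ba : ℕ} (H : AllC G cs ca ba) (H' : AllC G' cs ca ba) :
    AllC (fun ca ba c => G ca ba c ∧ G' ca ba c) cs ca ba := by
  induction cs generalizing ca ba with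
  | nil => trivial
  | cons c cs ih => exact ⟨⟨H.1, H'.1⟩, ih H.2 H'.2⟩

theorem AllC.of_forall (h : ∀ ca ba c, G ca ba c) (cs : List Cell) (ca ba : ℕ) :
    AllC G cs ca ba := by
  induction cs generalizing ca ba with
  | nil => trivial
  | cons c cs ih => exact ⟨h _ _ _, ih _ _⟩

theorem fwd_dat {cost : ℕ → ℕ → Cell → ℝ} {s : List ℝ}
    (step : ∀ ca ba c r x d, G ca ba c → (f ca ba c r).holds (x :: s) d →
      G' ca ba c ∧ ∃ e, T ca ba c e ∧ r.holds ((x + cost ca ba c) :: s) (e ++ d))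
    {cs : List Cell} {ca ba : ℕ} {r : Ck} {x : ℝ} {d : List ℝ} (hG : AllC G cs ca ba)
    (H : (fwd f cs ca ba r).holds (x :: s) d) :
    AllC G' cs ca ba ∧ ∃ d', TapeB T cs ca ba d d' ∧ r.holds ((x + sumC cost cs ca ba) :: s) d' := by
  induction cs generalizing ca ba x d with
  | nil => exact ⟨trivial, d, rfl, by simp only [sumC, add_zero]; exact H⟩
  | cons c cs ih =>
    obtain ⟨h1, e, h2, h3⟩ := step ca ba c _ x d hG.1 H
    obtain ⟨h4, d', h5, h6⟩ := ih hG.2 h3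
    exact ⟨⟨h1, h4⟩, d', ⟨e, h2, h5⟩, by simpa [sumC, add_assoc] using h6⟩

theorem bwd_dat {cost : ℕ → ℕ → Cell → ℝ} {s : List ℝ}
    (step : ∀ ca ba c r x d, G ca ba c → (f ca ba c r).holds (x :: s) d →
      G' ca ba c ∧ ∃ e, T ca ba c e ∧ r.holds ((x + cost ca ba c) :: s) (e ++ d))
    {cs : List Cell} {ca ba : ℕ} {r : Ck} {x : ℝ} {d : List ℝ} (hG : AllC G cs ca ba)
    (H : (bwd f cs ca ba r).holds (x :: s) d) :
    AllC G' cs ca ba ∧ ∃ d', TapeF T cs ca ba d d' ∧ r.holds ((x + sumC cost cs ca ba) :: s) d' := by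
  induction cs generalizing ca ba r with
  | nil => exact ⟨trivial, d, rfl, by simp only [sumC, add_zero]; exact H⟩
  | cons c cs ih =>
    obtain ⟨h4, d1, h5, h6⟩ := ih (r := f ca ba c r) hG.2 H
    obtain ⟨h1, e, h2, h3⟩ := step ca ba c _ _ d1 hG.1 h6
    refine ⟨⟨h1, h4⟩, _, ⟨e, d1, h2, h5, rfl⟩, ?_⟩
    have : x + sumC cost (c :: cs) ca ba = x + sumC cost cs c.cz c.bz + cost ca ba c := by
      simp only [sumC]; ring
    rw [this]; exact h3

theorem bwd_box {Inv : ℕ → ℕ → List ℝ → Prop}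
    (step : ∀ ca ba c r S e d, G ca ba c → T ca ba c e → Inv c.cz c.bz S →
      (f ca ba c r).holds S (e ++ d) → ∃ S', Inv ca ba S' ∧ r.holds S' d)
    {cs : List Cell} {ca ba : ℕ} {r : Ck} {S d d' : List ℝ} (hG : AllC G cs ca ba)
    (hT : TapeB T cs ca ba d d') (hI : Inv (lastN cs ca ba).1 (lastN cs ca ba).2 S)
    (H : (bwd f cs ca ba r).holds S d') : ∃ S', Inv ca ba S' ∧ r.holds S' d := by
  induction cs generalizing ca ba r d with
  | nil => cases hT; exact ⟨S, hI, H⟩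
  | cons c cs ih =>
    obtain ⟨e, h1, h2⟩ := hT
    obtain ⟨S1, h3, h4⟩ := ih (r := f ca ba c r) hG.2 h2 hI H
    exact step ca ba c r S1 e d hG.1 h1 h3 h4

theorem fwd_box {Inv : ℕ → ℕ → List ℝ → Prop}
    (step : ∀ ca ba c r S e d, G ca ba c → T ca ba c e → Inv ca ba S →
      (f ca ba c r).holds S (e ++ d) → ∃ S', Inv c.cz c.bz S' ∧ r.holds S' d)
    {cs : List Cell} {ca ba : ℕ} {r : Ck} {S d d' : List ℝ} (hG : AllC G cs ca ba)
    (hT : TapeF T cs ca ba d d') (hI : Inv ca ba S) (H : (fwd f cs ca ba r).holds S d') :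
    ∃ S', Inv (lastN cs ca ba).1 (lastN cs ca ba).2 S' ∧ r.holds S' d := by
  induction cs generalizing ca ba S d' with
  | nil => cases hT; exact ⟨S, hI, H⟩
  | cons c cs ih =>
    obtain ⟨e, d1, h1, h2, rfl⟩ := hT
    obtain ⟨S1, h3, h4⟩ := step ca ba c _ S e d1 hG.1 h1 hI H
    exact ih hG.2 h2 h3 h4

theorem datGs_loop {T : ℕ → ℕ → List ℝ → Prop} {s : List ℝ}
    (step : ∀ a b r d, (datG a b r).holds s d → ∃ e, T a b e ∧ r.holds s (e ++ d))
    {gs : List ℕ} {a : ℕ} {r : Ck} {d : List ℝ} (H : (datGs gs a r).holds s d) :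
    ∃ d', TapeG T gs a d d' ∧ r.holds s d' := by
  induction gs generalizing a d with
  | nil => exact ⟨d, rfl, H⟩
  | cons b gs ih =>
    obtain ⟨e, h1, h2⟩ := step a b _ d H
    obtain ⟨d', h3, h4⟩ := ih h2
    exact ⟨d', ⟨e, h1, h3⟩, h4⟩

theorem gBs_loop {T : ℕ → ℕ → List ℝ → Prop} {S : ℕ → List ℝ}
    (step : ∀ a b r e d, T a b e → (gB r).holds (S b) (e ++ d) → r.holds (S a) d)
    {gs : List ℕ} {a : ℕ} {r : Ck} {d d' : List ℝ} (hT : TapeG T gs a d d')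
    (H : (gBs gs r).holds (S (lastG gs a)) d') : r.holds (S a) d := by
  induction gs generalizing a r d with
  | nil => cases hT; exact H
  | cons b gs ih =>
    obtain ⟨e, h1, h2⟩ := hT
    exact step a b r e d h1 (ih (r := gB r) h2 H)

end Pool.Agent.Eps.T
end
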