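import Mathlib
import Pool.Agent.Lib.MP_3bda03_nt.T.Spec3

/-! The meaning of the check programs, step by step (generated). -/

set_option autoImplicit false
set_option linter.unusedSimpArgs false

namespace Pool.Agent.Eps.T

theorem vhA_spec  {r : Ck} {p : ℝ} {s d : List ℝ}  (H : (vhA  r).holds (p :: s) (d)) :
    ∃ vh : ℝ, vh = (1 / 10 : ℝ) - (13 / 10 : ℝ) * p ^ 2 ∧
    r.holds (vh :: p :: s) (d) := by
  unfold vhA at H
  obtain ⟨vh, k_, H⟩ := H.slet_elim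
  refine ⟨vh, (by simpa only [Ex.val, List.getD_cons_zero, List.getD_cons_succ, Nat.cast_ofNat,
    Nat.cast_one, Nat.cast_zero] using k_), ?_⟩
  clear k_
  simpa only [List.take_succ_cons, List.take_zero, List.drop_succ_cons, List.drop_zero,
    List.cons_append, List.nil_append, List.getD_cons_zero, List.getD_cons_succ, Nat.reduceAdd]
    using H

theorem vhB_spec  {r : Ck} {p : ℝ} {s d : List ℝ}  (H : (vhB  r).holds (p :: s) (d)) :
    ∃ vh : ℝ, vh = (3 / 25 : ℝ) - (33 / 10 : ℝ) * p ^ 2 ∧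
    r.holds (vh :: p :: s) (d) := by
  unfold vhB at H
  obtain ⟨vh, k_, H⟩ := H.slet_elim
  refine ⟨vh, (by simpa only [Ex.val, List.getD_cons_zero, List.getD_cons_succ, Nat.cast_ofNat,
    Nat.cast_one, Nat.cast_zero] using k_), ?_⟩
  clear k_
  simpa only [List.take_succ_cons, List.take_zero, List.drop_succ_cons, List.drop_zero,
    List.cons_append, List.nil_append, List.getD_cons_zero, List.getD_cons_succ, Nat.reduceAdd]
    using H

theorem tauF_spec {lp lv lq : ℕ} {r : Ck} {vh p : ℝ} {s d : List ℝ}  (H : (tauF lp lv lq r).holds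
    (vh :: p :: s) (d)) :
    0 < p ∧ ∃ l1 : ℝ, l1 = Real.log p ∧
    0 < vh ∧ ∃ l2 : ℝ, l2 = Real.log vh ∧
    ∀ pi : ℝ, |pi - (31415925 / 10000000 : ℝ)| ≤ (1 / 1000000 : ℝ) →
    0 < pi ∧ ∃ l3 : ℝ, l3 = Real.log pi ∧
    ∀ l4 : ℝ, |l4 - (69314718055 / 100000000000 : ℝ)| ≤ (3 / 10000000000 : ℝ) →
    ∃ h : ℝ, h = (1 / 32 : ℝ) * (p ^ 2) ^ 2 ∧
    ∀ tau : ℝ, |tau - (1 - l4 - (1 / 2 : ℝ) * p ^ 2 * (2 * l4 + (1 / 2 : ℝ) * l3 - 3 * l1 + l2) -
      h)| ≤ h →
    r.holds (tau :: vh :: p :: s) (d) := by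
  unfold tauF at H
  replace H := H.slet_raw
  obtain ⟨k0_, l1, k_, H⟩ := lgP_elim H
  refine ⟨(by simpa only [Ex.val, List.getD_cons_zero, List.getD_cons_succ, Nat.cast_ofNat,
    Nat.cast_one, Nat.cast_zero] using k0_), l1, (by simpa only [Ex.val, List.getD_cons_zero,
    List.getD_cons_succ, Nat.cast_ofNat, Nat.cast_one, Nat.cast_zero] using k_), ?_⟩
  clear k_ k0_
  replace H := H.slet_raw
  obtain ⟨k0_, l2, k_, H⟩ := lgP_elim H
  refine ⟨(by simpa only [Ex.val, List.getD_cons_zero, List.getD_cons_succ, Nat.cast_ofNat,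
    Nat.cast_one, Nat.cast_zero] using k0_), l2, (by simpa only [Ex.val, List.getD_cons_zero,
    List.getD_cons_succ, Nat.cast_ofNat, Nat.cast_one, Nat.cast_zero] using k_), ?_⟩
  clear k_ k0_
  intro pi k_
  replace H := H.near_elim pi (by simpa only [Ex.val, List.getD_cons_zero, List.getD_cons_succ,
    Nat.cast_ofNat, Nat.cast_one, Nat.cast_zero] using k_)
  clear k_
  replace H := H.slet_raw
  obtain ⟨k0_, l3, k_, H⟩ := lgP_elim H
  refine ⟨(by simpa only [Ex.val, List.getD_cons_zero, List.getD_cons_succ, Nat.cast_ofNat,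
    Nat.cast_one, Nat.cast_zero] using k0_), l3, (by simpa only [Ex.val, List.getD_cons_zero,
    List.getD_cons_succ, Nat.cast_ofNat, Nat.cast_one, Nat.cast_zero] using k_), ?_⟩
  clear k_ k0_
  intro l4 k_
  replace H := H.near_elim l4 (by simpa only [Ex.val, List.getD_cons_zero, List.getD_cons_succ,
    Nat.cast_ofNat, Nat.cast_one, Nat.cast_zero] using k_)
  clear k_
  obtain ⟨h, k_, H⟩ := H.slet_elim
  refine ⟨h, (by simpa only [Ex.val, List.getD_cons_zero, List.getD_cons_succ, Nat.cast_ofNat,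
    Nat.cast_one, Nat.cast_zero] using k_), ?_⟩
  clear k_
  intro tau k_
  replace H := H.near_elim tau (by simpa only [Ex.val, List.getD_cons_zero, List.getD_cons_succ,
    Nat.cast_ofNat, Nat.cast_one, Nat.cast_zero] using k_)
  clear k_
  replace H := H.cut_elim
  simpa only [List.take_succ_cons, List.take_zero, List.drop_succ_cons, List.drop_zero,
    List.cons_append, List.nil_append, List.getD_cons_zero, List.getD_cons_succ, Nat.reduceAdd]
    using H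

theorem tauI_spec {u : ℕ} {r : Ck} {vh p : ℝ} {s d : List ℝ}  (H : (tauI u r).holds (vh :: p :: s)
    (d)) :
    (0 : ℝ) < val u ∧
    p ≤ (val u) ^ 2 ∧
    p ≤ (1 / 10 : ℝ) ∧
    ∀ l4 : ℝ, |l4 - (69314718055 / 100000000000 : ℝ)| ≤ (3 / 10000000000 : ℝ) →
    ∃ h : ℝ, h = (3 / 2 : ℝ) * p * val u ∧
    ∀ tau : ℝ, |tau - (1 - l4 - h)| ≤ h →
    r.holds (tau :: vh :: p :: s) (d) := by
  unfold tauI at H
  obtain ⟨k_, H⟩ := H.lt_elim
  refine ⟨(by simpa only [Ex.val, List.getD_cons_zero, List.getD_cons_succ, Nat.cast_ofNat,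
    Nat.cast_one, Nat.cast_zero] using k_), ?_⟩
  clear k_
  obtain ⟨k_, H⟩ := H.le_elim
  refine ⟨(by simpa only [Ex.val, List.getD_cons_zero, List.getD_cons_succ, Nat.cast_ofNat,
    Nat.cast_one, Nat.cast_zero] using k_), ?_⟩
  clear k_
  obtain ⟨k_, H⟩ := H.le_elim
  refine ⟨(by simpa only [Ex.val, List.getD_cons_zero, List.getD_cons_succ, Nat.cast_ofNat,
    Nat.cast_one, Nat.cast_zero] using k_), ?_⟩
  clear k_
  intro l4 k_
  replace H := H.near_elim l4 (by simpa only [Ex.val, List.getD_cons_zero, List.getD_cons_succ,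
    Nat.cast_ofNat, Nat.cast_one, Nat.cast_zero] using k_)
  clear k_
  obtain ⟨h, k_, H⟩ := H.slet_elim
  refine ⟨h, (by simpa only [Ex.val, List.getD_cons_zero, List.getD_cons_succ, Nat.cast_ofNat,
    Nat.cast_one, Nat.cast_zero] using k_), ?_⟩
  clear k_
  intro tau k_
  replace H := H.near_elim tau (by simpa only [Ex.val, List.getD_cons_zero, List.getD_cons_succ,
    Nat.cast_ofNat, Nat.cast_one, Nat.cast_zero] using k_)
  clear k_
  replace H := H.cut_elim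
  simpa only [List.take_succ_cons, List.take_zero, List.drop_succ_cons, List.drop_zero,
    List.cons_append, List.nil_append, List.getD_cons_zero, List.getD_cons_succ, Nat.reduceAdd]
    using H

theorem par_spec {g n0 n1 eta eps et0 lf : ℕ} {r : Ck} {tau vh p : ℝ} {s d : List ℝ}  (H : (par g
    n0 n1 eta eps et0 lf r).holds (tau :: vh :: p :: s) (d)) :
    p ≤ (21 / 100 : ℝ) ∧
    0 < tau ∧ ∃ it : ℝ, it = tau⁻¹ ∧
    ∃ lam : ℝ, lam = p * it ∧
    ∃ sig : ℝ, sig = (1 / 2 : ℝ) * p * lam ∧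
    0 < vh * it ∧ ∃ sr : ℝ, sr = Real.sqrt (vh * it) ∧
    ∃ srU : ℝ, |sr| ≤ srU ∧
    lam ≤ 1 ∧
    ∃ dec : ℝ, dec = Real.exp ((97 / 2000 : ℝ) - (1 / 2000 : ℝ) * (n1 : ℝ)) ∧
    (1 / 50 : ℝ) * dec ≤ val eta ∧
    (3 / 25 : ℝ) * dec ≤ val eps ∧
    (1 / 250 : ℝ) * dec ≤ val et0 ∧
    (1 : ℝ) < val lf * (1 - val et0) ∧
    (0 : ℝ) < val lf ∧
    ∃ eh : ℝ, eh = (1783 / 1000 : ℝ) * val eps * lam ∧
    ∃ e1 : ℝ, e1 = 1 + val eta ∧
    ∃ tU : ℝ, |tau| ≤ tU ∧
    ∃ vU : ℝ, |vh| ≤ vU ∧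
    ∃ cA : ℝ, cA = (11 / 200 : ℝ) * (n0 : ℝ) * ((18209 / 10000 : ℝ) - 2 * tU) ∧
    ∃ cB : ℝ, cB = (1 / 10 : ℝ) * (n0 : ℝ) * ((12231 / 10000 : ℝ) - 2 * tU) ∧
    (1 : ℝ) ≤ cA ∧
    (1 : ℝ) ≤ cB ∧
    ∃ EA : ℝ, |(27 / 40 : ℝ) * (n0 : ℝ) * vU * Real.exp (-cA)| ≤ EA ∧
    ∃ EB : ℝ, |(173 / 200 : ℝ) * (n0 : ℝ) * vU * Real.exp (-cB)| ≤ EB ∧
    r.holds (e1 :: eh :: lam :: p :: tau :: sig :: sr :: srU :: EA :: EB :: s) (d) := by
  unfold par at H
  obtain ⟨k_, H⟩ := H.le_elim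
  refine ⟨(by simpa only [Ex.val, List.getD_cons_zero, List.getD_cons_succ, Nat.cast_ofNat,
    Nat.cast_one, Nat.cast_zero] using k_), ?_⟩
  clear k_
  replace H := H.slet_raw
  obtain ⟨k0_, it, k_, H⟩ := invP_elim H
  refine ⟨(by simpa only [Ex.val, List.getD_cons_zero, List.getD_cons_succ, Nat.cast_ofNat,
    Nat.cast_one, Nat.cast_zero] using k0_), it, (by simpa only [Ex.val, List.getD_cons_zero,
    List.getD_cons_succ, Nat.cast_ofNat, Nat.cast_one, Nat.cast_zero] using k_), ?_⟩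
  clear k_ k0_
  obtain ⟨lam, k_, H⟩ := H.slet_elim
  refine ⟨lam, (by simpa only [Ex.val, List.getD_cons_zero, List.getD_cons_succ, Nat.cast_ofNat,
    Nat.cast_one, Nat.cast_zero] using k_), ?_⟩
  clear k_
  obtain ⟨sig, k_, H⟩ := H.slet_elim
  refine ⟨sig, (by simpa only [Ex.val, List.getD_cons_zero, List.getD_cons_succ, Nat.cast_ofNat,
    Nat.cast_one, Nat.cast_zero] using k_), ?_⟩
  clear k_
  replace H := H.slet_raw
  obtain ⟨k0_, sr, k_, H⟩ := sqrtP_elim H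
  refine ⟨(by simpa only [Ex.val, List.getD_cons_zero, List.getD_cons_succ, Nat.cast_ofNat,
    Nat.cast_one, Nat.cast_zero] using k0_), sr, (by simpa only [Ex.val, List.getD_cons_zero,
    List.getD_cons_succ, Nat.cast_ofNat, Nat.cast_one, Nat.cast_zero] using k_), ?_⟩
  clear k_ k0_
  obtain ⟨srU, k_, H⟩ := H.uabs_elim
  refine ⟨srU, (by simpa only [Ex.val, List.getD_cons_zero, List.getD_cons_succ, Nat.cast_ofNat,
    Nat.cast_one, Nat.cast_zero] using k_), ?_⟩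
  clear k_
  obtain ⟨k_, H⟩ := H.le_elim
  refine ⟨(by simpa only [Ex.val, List.getD_cons_zero, List.getD_cons_succ, Nat.cast_ofNat,
    Nat.cast_one, Nat.cast_zero] using k_), ?_⟩
  clear k_
  obtain ⟨dec, k_, H⟩ := H.slet_elim
  refine ⟨dec, (by simpa only [Ex.val, List.getD_cons_zero, List.getD_cons_succ, Nat.cast_ofNat,
    Nat.cast_one, Nat.cast_zero] using k_), ?_⟩
  clear k_
  obtain ⟨k_, H⟩ := H.le_elim
  refine ⟨(by simpa only [Ex.val, List.getD_cons_zero, List.getD_cons_succ, Nat.cast_ofNat,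
    Nat.cast_one, Nat.cast_zero] using k_), ?_⟩
  clear k_
  obtain ⟨k_, H⟩ := H.le_elim
  refine ⟨(by simpa only [Ex.val, List.getD_cons_zero, List.getD_cons_succ, Nat.cast_ofNat,
    Nat.cast_one, Nat.cast_zero] using k_), ?_⟩
  clear k_
  obtain ⟨k_, H⟩ := H.le_elim
  refine ⟨(by simpa only [Ex.val, List.getD_cons_zero, List.getD_cons_succ, Nat.cast_ofNat,
    Nat.cast_one, Nat.cast_zero] using k_), ?_⟩
  clear k_
  obtain ⟨k_, H⟩ := H.lt_elim
  refine ⟨(by simpa only [Ex.val, List.getD_cons_zero, List.getD_cons_succ, Nat.cast_ofNat,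
    Nat.cast_one, Nat.cast_zero] using k_), ?_⟩
  clear k_
  obtain ⟨k_, H⟩ := H.lt_elim
  refine ⟨(by simpa only [Ex.val, List.getD_cons_zero, List.getD_cons_succ, Nat.cast_ofNat,
    Nat.cast_one, Nat.cast_zero] using k_), ?_⟩
  clear k_
  obtain ⟨eh, k_, H⟩ := H.slet_elim
  refine ⟨eh, (by simpa only [Ex.val, List.getD_cons_zero, List.getD_cons_succ, Nat.cast_ofNat,
    Nat.cast_one, Nat.cast_zero] using k_), ?_⟩
  clear k_
  obtain ⟨e1, k_, H⟩ := H.slet_elim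
  refine ⟨e1, (by simpa only [Ex.val, List.getD_cons_zero, List.getD_cons_succ, Nat.cast_ofNat,
    Nat.cast_one, Nat.cast_zero] using k_), ?_⟩
  clear k_
  obtain ⟨tU, k_, H⟩ := H.uabs_elim
  refine ⟨tU, (by simpa only [Ex.val, List.getD_cons_zero, List.getD_cons_succ, Nat.cast_ofNat,
    Nat.cast_one, Nat.cast_zero] using k_), ?_⟩
  clear k_
  obtain ⟨vU, k_, H⟩ := H.uabs_elim
  refine ⟨vU, (by simpa only [Ex.val, List.getD_cons_zero, List.getD_cons_succ, Nat.cast_ofNat,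
    Nat.cast_one, Nat.cast_zero] using k_), ?_⟩
  clear k_
  obtain ⟨cA, k_, H⟩ := H.slet_elim
  refine ⟨cA, (by simpa only [Ex.val, List.getD_cons_zero, List.getD_cons_succ, Nat.cast_ofNat,
    Nat.cast_one, Nat.cast_zero] using k_), ?_⟩
  clear k_
  obtain ⟨cB, k_, H⟩ := H.slet_elim
  refine ⟨cB, (by simpa only [Ex.val, List.getD_cons_zero, List.getD_cons_succ, Nat.cast_ofNat,
    Nat.cast_one, Nat.cast_zero] using k_), ?_⟩
  clear k_
  obtain ⟨k_, H⟩ := H.le_elim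
  refine ⟨(by simpa only [Ex.val, List.getD_cons_zero, List.getD_cons_succ, Nat.cast_ofNat,
    Nat.cast_one, Nat.cast_zero] using k_), ?_⟩
  clear k_
  obtain ⟨k_, H⟩ := H.le_elim
  refine ⟨(by simpa only [Ex.val, List.getD_cons_zero, List.getD_cons_succ, Nat.cast_ofNat,
    Nat.cast_one, Nat.cast_zero] using k_), ?_⟩
  clear k_
  obtain ⟨EA, k_, H⟩ := H.uabs_elim
  refine ⟨EA, (by simpa only [Ex.val, List.getD_cons_zero, List.getD_cons_succ, Nat.cast_ofNat,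
    Nat.cast_one, Nat.cast_zero] using k_), ?_⟩
  clear k_
  obtain ⟨EB, k_, H⟩ := H.uabs_elim
  refine ⟨EB, (by simpa only [Ex.val, List.getD_cons_zero, List.getD_cons_succ, Nat.cast_ofNat,
    Nat.cast_one, Nat.cast_zero] using k_), ?_⟩
  clear k_
  have H := H.slet_var
  have H := H.slet_var
  have H := H.slet_var
  have H := H.slet_var
  have H := H.slet_var
  have H := H.slet_var
  have H := H.slet_var
  have H := H.slet_var
  have H := H.slet_var
  have H := H.slet_var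
  replace H := H.cut_elim
  simpa only [List.take_succ_cons, List.take_zero, List.drop_succ_cons, List.drop_zero,
    List.cons_append, List.nil_append, List.getD_cons_zero, List.getD_cons_succ, Nat.reduceAdd]
    using H

theorem parN_spec  {r : Ck} {e1 eh lam p tau sig sr srU EA EB : ℝ} {s d : List ℝ} (hp : 0 < p) (H
    : (parN  r).holds (e1 :: eh :: lam :: p :: tau :: sig :: sr :: srU :: EA :: EB :: s) (d)) :
    0 < p ∧ ∃ ip : ℝ, ip = p⁻¹ ∧
    ∃ L : ℝ, L = tau * ip ∧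
    ∃ l1 q1 e1p : ℝ, l1 = lk p (-L) ∧ q1 = qf p (-L) ∧ e1p = Real.exp (p * (-L)) ∧
    ∃ k1 : ℝ, k1 = Real.exp l1 ∧
    ∃ K1 : ℝ, |k1| ≤ K1 ∧
    0 < 2 - e1p ∧ ∃ i2 : ℝ, i2 = (2 - e1p)⁻¹ ∧
    ∃ y : ℝ, y = p * i2 ∧
    ∃ B1 : ℝ, B1 = k1 * y * (1 - y ^ 2) ∧
    ∃ Bp : ℝ, |(1283 / 1000 : ℝ) * K1 * p| ≤ Bp ∧
    ∃ KB : ℝ, KB = (0 : ℝ) ∧
    ∃ EQ : ℝ, EQ = (0 : ℝ) ∧
    r.holds (EQ :: L :: K1 :: KB :: B1 :: Bp :: e1 :: eh :: lam :: p :: tau :: sig :: sr :: srU ::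
      EA :: EB :: s) (d) := by
  unfold parN at H
  replace H := H.slet_raw
  obtain ⟨k0_, ip, k_, H⟩ := invP_elim H
  refine ⟨(by simpa only [Ex.val, List.getD_cons_zero, List.getD_cons_succ, Nat.cast_ofNat,
    Nat.cast_one, Nat.cast_zero] using k0_), ip, (by simpa only [Ex.val, List.getD_cons_zero,
    List.getD_cons_succ, Nat.cast_ofNat, Nat.cast_one, Nat.cast_zero] using k_), ?_⟩
  clear k_ k0_
  obtain ⟨L, k_, H⟩ := H.slet_elim
  refine ⟨L, (by simpa only [Ex.val, List.getD_cons_zero, List.getD_cons_succ, Nat.cast_ofNat,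
    Nat.cast_one, Nat.cast_zero] using k_), ?_⟩
  clear k_
  replace H := H.slet_raw
  replace H := H.slet_raw
  obtain ⟨l1, q1, e1p, k_, k1_, k2_, H⟩ := kqP_elim hp H
  refine ⟨l1, q1, e1p, (by simpa only [Ex.val, List.getD_cons_zero, List.getD_cons_succ,
    Nat.cast_ofNat, Nat.cast_one, Nat.cast_zero] using k_), (by simpa only [Ex.val,
    List.getD_cons_zero, List.getD_cons_succ, Nat.cast_ofNat, Nat.cast_one, Nat.cast_zero] using
    k1_), (by simpa only [Ex.val, List.getD_cons_zero, List.getD_cons_succ, Nat.cast_ofNat,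
    Nat.cast_one, Nat.cast_zero] using k2_), ?_⟩
  clear k_ k1_ k2_
  obtain ⟨k1, k_, H⟩ := H.slet_elim
  refine ⟨k1, (by simpa only [Ex.val, List.getD_cons_zero, List.getD_cons_succ, Nat.cast_ofNat,
    Nat.cast_one, Nat.cast_zero] using k_), ?_⟩
  clear k_
  obtain ⟨K1, k_, H⟩ := H.uabs_elim
  refine ⟨K1, (by simpa only [Ex.val, List.getD_cons_zero, List.getD_cons_succ, Nat.cast_ofNat,
    Nat.cast_one, Nat.cast_zero] using k_), ?_⟩
  clear k_
  replace H := H.slet_raw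
  obtain ⟨k0_, i2, k_, H⟩ := invP_elim H
  refine ⟨(by simpa only [Ex.val, List.getD_cons_zero, List.getD_cons_succ, Nat.cast_ofNat,
    Nat.cast_one, Nat.cast_zero] using k0_), i2, (by simpa only [Ex.val, List.getD_cons_zero,
    List.getD_cons_succ, Nat.cast_ofNat, Nat.cast_one, Nat.cast_zero] using k_), ?_⟩
  clear k_ k0_
  obtain ⟨y, k_, H⟩ := H.slet_elim
  refine ⟨y, (by simpa only [Ex.val, List.getD_cons_zero, List.getD_cons_succ, Nat.cast_ofNat,
    Nat.cast_one, Nat.cast_zero] using k_), ?_⟩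
  clear k_
  obtain ⟨B1, k_, H⟩ := H.slet_elim
  refine ⟨B1, (by simpa only [Ex.val, List.getD_cons_zero, List.getD_cons_succ, Nat.cast_ofNat,
    Nat.cast_one, Nat.cast_zero] using k_), ?_⟩
  clear k_
  obtain ⟨Bp, k_, H⟩ := H.uabs_elim
  refine ⟨Bp, (by simpa only [Ex.val, List.getD_cons_zero, List.getD_cons_succ, Nat.cast_ofNat,
    Nat.cast_one, Nat.cast_zero] using k_), ?_⟩
  clear k_
  obtain ⟨KB, k_, H⟩ := H.slet_elim
  refine ⟨KB, (by simpa only [Ex.val, List.getD_cons_zero, List.getD_cons_succ, Nat.cast_ofNat,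
    Nat.cast_one, Nat.cast_zero] using k_), ?_⟩
  clear k_
  obtain ⟨EQ, k_, H⟩ := H.slet_elim
  refine ⟨EQ, (by simpa only [Ex.val, List.getD_cons_zero, List.getD_cons_succ, Nat.cast_ofNat,
    Nat.cast_one, Nat.cast_zero] using k_), ?_⟩
  clear k_
  have H := H.slet_var
  have H := H.slet_var
  have H := H.slet_var
  have H := H.slet_var
  have H := H.slet_var
  have H := H.slet_var
  replace H := H.cut_elim
  simpa only [List.take_succ_cons, List.take_zero, List.drop_succ_cons, List.drop_zero,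
    List.cons_append, List.nil_append, List.getD_cons_zero, List.getD_cons_succ, Nat.reduceAdd]
    using H

theorem parF_spec {bf : ℕ} {r : Ck} {e1 eh lam p tau sig sr srU EA EB : ℝ} {s d : List ℝ} (hp : 0
    < p) (H : (parF bf r).holds (e1 :: eh :: lam :: p :: tau :: sig :: sr :: srU :: EA :: EB :: s)
    (d)) :
    ∃ l1 q1 e1p : ℝ, l1 = lk p (val bf) ∧ q1 = qf p (val bf) ∧ e1p = Real.exp (p * val bf) ∧
    ∃ K1 : ℝ, |Real.exp l1| ≤ K1 ∧
    ∃ y : ℝ, 0 < y ∧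
    (1 : ℝ) ≤ y * (-q1) ∧
    ∃ KB : ℝ, |K1 * y| ≤ KB ∧
    ∃ Bp : ℝ, |(1283 / 1000 : ℝ) * K1 * p| ≤ Bp ∧
    ∃ B1 : ℝ, B1 = (0 : ℝ) ∧
    ∃ L : ℝ, L = (0 : ℝ) ∧
    ∃ EQ : ℝ, EQ = (0 : ℝ) ∧
    r.holds (EQ :: L :: K1 :: KB :: B1 :: Bp :: e1 :: eh :: lam :: p :: tau :: sig :: sr :: srU ::
      EA :: EB :: s) (d) := by
  unfold parF at H
  replace H := H.slet_raw
  replace H := H.slet_raw
  obtain ⟨l1, q1, e1p, k_, k1_, k2_, H⟩ := kqP_elim hp H
  refine ⟨l1, q1, e1p, (by simpa only [Ex.val, List.getD_cons_zero, List.getD_cons_succ,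
    Nat.cast_ofNat, Nat.cast_one, Nat.cast_zero] using k_), (by simpa only [Ex.val,
    List.getD_cons_zero, List.getD_cons_succ, Nat.cast_ofNat, Nat.cast_one, Nat.cast_zero] using
    k1_), (by simpa only [Ex.val, List.getD_cons_zero, List.getD_cons_succ, Nat.cast_ofNat,
    Nat.cast_one, Nat.cast_zero] using k2_), ?_⟩
  clear k_ k1_ k2_
  obtain ⟨K1, k_, H⟩ := H.uabs_elim
  refine ⟨K1, (by simpa only [Ex.val, List.getD_cons_zero, List.getD_cons_succ, Nat.cast_ofNat,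
    Nat.cast_one, Nat.cast_zero] using k_), ?_⟩
  clear k_
  obtain ⟨y, k_, H⟩ := H.rcp_elim
  refine ⟨y, k_, ?_⟩
  clear k_
  obtain ⟨k_, H⟩ := H.le_elim
  refine ⟨(by simpa only [Ex.val, List.getD_cons_zero, List.getD_cons_succ, Nat.cast_ofNat,
    Nat.cast_one, Nat.cast_zero] using k_), ?_⟩
  clear k_
  obtain ⟨KB, k_, H⟩ := H.uabs_elim
  refine ⟨KB, (by simpa only [Ex.val, List.getD_cons_zero, List.getD_cons_succ, Nat.cast_ofNat,
    Nat.cast_one, Nat.cast_zero] using k_), ?_⟩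
  clear k_
  obtain ⟨Bp, k_, H⟩ := H.uabs_elim
  refine ⟨Bp, (by simpa only [Ex.val, List.getD_cons_zero, List.getD_cons_succ, Nat.cast_ofNat,
    Nat.cast_one, Nat.cast_zero] using k_), ?_⟩
  clear k_
  obtain ⟨B1, k_, H⟩ := H.slet_elim
  refine ⟨B1, (by simpa only [Ex.val, List.getD_cons_zero, List.getD_cons_succ, Nat.cast_ofNat,
    Nat.cast_one, Nat.cast_zero] using k_), ?_⟩
  clear k_
  obtain ⟨L, k_, H⟩ := H.slet_elim
  refine ⟨L, (by simpa only [Ex.val, List.getD_cons_zero, List.getD_cons_succ, Nat.cast_ofNat,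
    Nat.cast_one, Nat.cast_zero] using k_), ?_⟩
  clear k_
  obtain ⟨EQ, k_, H⟩ := H.slet_elim
  refine ⟨EQ, (by simpa only [Ex.val, List.getD_cons_zero, List.getD_cons_succ, Nat.cast_ofNat,
    Nat.cast_one, Nat.cast_zero] using k_), ?_⟩
  clear k_
  have H := H.slet_var
  have H := H.slet_var
  have H := H.slet_var
  have H := H.slet_var
  have H := H.slet_var
  have H := H.slet_var
  replace H := H.cut_elim
  simpa only [List.take_succ_cons, List.take_zero, List.drop_succ_cons, List.drop_zero,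
    List.cons_append, List.nil_append, List.getD_cons_zero, List.getD_cons_succ, Nat.reduceAdd]
    using H

theorem datG_spec {ba bz : ℕ} {r : Ck} {EQ L K1 KB B1 Bp e1 eh lam p : ℝ} {s d : List ℝ} (hp : 0 <
    p) (H : (datG ba bz r).holds (EQ :: L :: K1 :: KB :: B1 :: Bp :: e1 :: eh :: lam :: p :: s)
    (d)) :
    ∃ dx : ℝ, dx = val bz - val ba ∧
    ∃ mu : ℝ, mu = (1 / 2 : ℝ) * (val ba + val bz) ∧
    (0 : ℝ) < dx ∧
    ∃ l q ep : ℝ, l = lk p mu ∧ q = qf p mu ∧ ep = Real.exp (p * mu) ∧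
    ∃ Km : ℝ, Km = dx * Real.exp l ∧
    ∃ qd : ℝ, qd = dx * q ∧
    ∃ dU : ℝ, |dx| ≤ dU ∧
    ∃ pd : ℝ, |p * dU| ≤ pd ∧
    pd ≤ 1 ∧
    ∃ eU : ℝ, |ep| ≤ eU ∧
    ∃ cd : ℝ, |(1 / 24 : ℝ) * eU * (1 + pd) * dU ^ 2| ≤ cd ∧
    ∃ sl : ℝ, sl = dx * lam ∧
    ∃ yl : ℝ, yl = mu * lam ∧
    r.holds (EQ :: L :: K1 :: KB :: B1 :: Bp :: e1 :: eh :: lam :: p :: s) (sl :: yl :: Km :: qd
      :: cd :: d) := by
  unfold datG at H
  obtain ⟨dx, k_, H⟩ := H.slet_elim
  refine ⟨dx, (by simpa only [Ex.val, List.getD_cons_zero, List.getD_cons_succ, Nat.cast_ofNat,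
    Nat.cast_one, Nat.cast_zero] using k_), ?_⟩
  clear k_
  obtain ⟨mu, k_, H⟩ := H.slet_elim
  refine ⟨mu, (by simpa only [Ex.val, List.getD_cons_zero, List.getD_cons_succ, Nat.cast_ofNat,
    Nat.cast_one, Nat.cast_zero] using k_), ?_⟩
  clear k_
  obtain ⟨k_, H⟩ := H.lt_elim
  refine ⟨(by simpa only [Ex.val, List.getD_cons_zero, List.getD_cons_succ, Nat.cast_ofNat,
    Nat.cast_one, Nat.cast_zero] using k_), ?_⟩
  clear k_
  replace H := H.slet_raw
  replace H := H.slet_raw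
  obtain ⟨l, q, ep, k_, k1_, k2_, H⟩ := kqP_elim hp H
  refine ⟨l, q, ep, (by simpa only [Ex.val, List.getD_cons_zero, List.getD_cons_succ,
    Nat.cast_ofNat, Nat.cast_one, Nat.cast_zero] using k_), (by simpa only [Ex.val,
    List.getD_cons_zero, List.getD_cons_succ, Nat.cast_ofNat, Nat.cast_one, Nat.cast_zero] using
    k1_), (by simpa only [Ex.val, List.getD_cons_zero, List.getD_cons_succ, Nat.cast_ofNat,
    Nat.cast_one, Nat.cast_zero] using k2_), ?_⟩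
  clear k_ k1_ k2_
  obtain ⟨Km, k_, H⟩ := H.slet_elim
  refine ⟨Km, (by simpa only [Ex.val, List.getD_cons_zero, List.getD_cons_succ, Nat.cast_ofNat,
    Nat.cast_one, Nat.cast_zero] using k_), ?_⟩
  clear k_
  obtain ⟨qd, k_, H⟩ := H.slet_elim
  refine ⟨qd, (by simpa only [Ex.val, List.getD_cons_zero, List.getD_cons_succ, Nat.cast_ofNat,
    Nat.cast_one, Nat.cast_zero] using k_), ?_⟩
  clear k_
  obtain ⟨dU, k_, H⟩ := H.uabs_elim
  refine ⟨dU, (by simpa only [Ex.val, List.getD_cons_zero, List.getD_cons_succ, Nat.cast_ofNat,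
    Nat.cast_one, Nat.cast_zero] using k_), ?_⟩
  clear k_
  obtain ⟨pd, k_, H⟩ := H.uabs_elim
  refine ⟨pd, (by simpa only [Ex.val, List.getD_cons_zero, List.getD_cons_succ, Nat.cast_ofNat,
    Nat.cast_one, Nat.cast_zero] using k_), ?_⟩
  clear k_
  obtain ⟨k_, H⟩ := H.le_elim
  refine ⟨(by simpa only [Ex.val, List.getD_cons_zero, List.getD_cons_succ, Nat.cast_ofNat,
    Nat.cast_one, Nat.cast_zero] using k_), ?_⟩
  clear k_
  obtain ⟨eU, k_, H⟩ := H.uabs_elim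
  refine ⟨eU, (by simpa only [Ex.val, List.getD_cons_zero, List.getD_cons_succ, Nat.cast_ofNat,
    Nat.cast_one, Nat.cast_zero] using k_), ?_⟩
  clear k_
  obtain ⟨cd, k_, H⟩ := H.uabs_elim
  refine ⟨cd, (by simpa only [Ex.val, List.getD_cons_zero, List.getD_cons_succ, Nat.cast_ofNat,
    Nat.cast_one, Nat.cast_zero] using k_), ?_⟩
  clear k_
  obtain ⟨sl, k_, H⟩ := H.slet_elim
  refine ⟨sl, (by simpa only [Ex.val, List.getD_cons_zero, List.getD_cons_succ, Nat.cast_ofNat,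
    Nat.cast_one, Nat.cast_zero] using k_), ?_⟩
  clear k_
  obtain ⟨yl, k_, H⟩ := H.slet_elim
  refine ⟨yl, (by simpa only [Ex.val, List.getD_cons_zero, List.getD_cons_succ, Nat.cast_ofNat,
    Nat.cast_one, Nat.cast_zero] using k_), ?_⟩
  clear k_
  replace H := H.push_var
  replace H := H.push_var
  replace H := H.push_var
  replace H := H.push_var
  replace H := H.push_var
  replace H := H.cut_elim
  simpa only [List.take_succ_cons, List.take_zero, List.drop_succ_cons, List.drop_zero,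
    List.cons_append, List.nil_append, List.getD_cons_zero, List.getD_cons_succ, Nat.reduceAdd]
    using H

theorem chkR_spec {cz bz rr : ℕ} {r : Ck} {EQ L K1 KB B1 Bp e1 eh lam p : ℝ} {s d : List ℝ} (hp :
    0 < p) (H : (chkR cz bz rr r).holds (EQ :: L :: K1 :: KB :: B1 :: Bp :: e1 :: eh :: lam :: p
    :: s) (d)) :
    ∃ l q ep : ℝ, l = lk p (val bz - val cz * L) ∧ q = qf p (val bz - val cz * L) ∧ ep = Real.exp
      (p * (val bz - val cz * L)) ∧
    K1 ≤ val rr * Real.exp l ∧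
    r.holds (EQ :: L :: K1 :: KB :: B1 :: Bp :: e1 :: eh :: lam :: p :: s) (d) := by
  unfold chkR at H
  replace H := H.slet_raw
  replace H := H.slet_raw
  obtain ⟨l, q, ep, k_, k1_, k2_, H⟩ := kqP_elim hp H
  refine ⟨l, q, ep, (by simpa only [Ex.val, List.getD_cons_zero, List.getD_cons_succ,
    Nat.cast_ofNat, Nat.cast_one, Nat.cast_zero] using k_), (by simpa only [Ex.val,
    List.getD_cons_zero, List.getD_cons_succ, Nat.cast_ofNat, Nat.cast_one, Nat.cast_zero] using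
    k1_), (by simpa only [Ex.val, List.getD_cons_zero, List.getD_cons_succ, Nat.cast_ofNat,
    Nat.cast_one, Nat.cast_zero] using k2_), ?_⟩
  clear k_ k1_ k2_
  obtain ⟨k_, H⟩ := H.le_elim
  refine ⟨(by simpa only [Ex.val, List.getD_cons_zero, List.getD_cons_succ, Nat.cast_ofNat,
    Nat.cast_one, Nat.cast_zero] using k_), ?_⟩
  clear k_
  replace H := H.cut_elim
  simpa only [List.take_succ_cons, List.take_zero, List.drop_succ_cons, List.drop_zero,
    List.cons_append, List.nil_append, List.getD_cons_zero, List.getD_cons_succ, Nat.reduceAdd]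
    using H

theorem datN_spec {ca ba cz bz bb m rr mm : ℕ} {r : Ck} {EQ L K1 KB B1 Bp e1 eh lam p : ℝ} {s d :
    List ℝ} (hp : 0 < p) (H : (datN ca ba cz bz bb m rr mm r).holds (EQ :: L :: K1 :: KB :: B1 ::
    Bp :: e1 :: eh :: lam :: p :: s) (d)) :
    ∃ dc : ℝ, dc = val ca - val cz ∧
    ∃ db : ℝ, db = val bz - val ba ∧
    ∃ dx : ℝ, dx = db + dc * L ∧
    ∃ mu : ℝ, mu = (1 / 2 : ℝ) * (val ba + val bz) - (1 / 2 : ℝ) * (val ca + val cz) * L ∧
    (0 : ℝ) < dx ∧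
    ∃ l q ep : ℝ, l = lk p mu ∧ q = qf p mu ∧ ep = Real.exp (p * mu) ∧
    ∃ Km : ℝ, Km = dx * Real.exp l ∧
    ∃ qd : ℝ, qd = dx * q ∧
    ∃ dU : ℝ, |dx| ≤ dU ∧
    ∃ pd : ℝ, |p * dU| ≤ pd ∧
    pd ≤ 1 ∧
    ∃ eU : ℝ, |ep| ≤ eU ∧
    ∃ cd : ℝ, |(1 / 24 : ℝ) * eU * (1 + pd) * dU ^ 2| ≤ cd ∧
    ∃ qU : ℝ, |qd| ≤ qU ∧
    ∃ P : ℝ, |Km * Real.exp ((1 / 2 : ℝ) * qU)| ≤ P ∧
    ∃ Q : ℝ, Q = qU + 12 * cd ∧
    ∃ sl : ℝ, sl = dc + db * lam ∧
    ∃ yl : ℝ, yl = val ba * lam - val ca ∧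
    ∃ ib : ℝ, 0 < ib ∧
    (1 : ℝ) ≤ ib * val bb ∧
    (1 : ℝ) ≤ val rr ∧
    (0 : ℝ) ≤ val m ∧
    val m ≤ val mm ∧
    ∃ EQ1 : ℝ, EQ1 = EQ + val bb * (e1 * (2 + 2 * yl + sl + (val m) ^ 2) + eh * (val rr) ^ 2) ∧
    r.holds (EQ1 :: L :: K1 :: KB :: B1 :: Bp :: e1 :: eh :: lam :: p :: s) (sl :: yl :: Km :: qd
      :: cd :: P :: Q :: ib :: d) := by
  unfold datN at H
  obtain ⟨dc, k_, H⟩ := H.slet_elim
  refine ⟨dc, (by simpa only [Ex.val, List.getD_cons_zero, List.getD_cons_succ, Nat.cast_ofNat,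
    Nat.cast_one, Nat.cast_zero] using k_), ?_⟩
  clear k_
  obtain ⟨db, k_, H⟩ := H.slet_elim
  refine ⟨db, (by simpa only [Ex.val, List.getD_cons_zero, List.getD_cons_succ, Nat.cast_ofNat,
    Nat.cast_one, Nat.cast_zero] using k_), ?_⟩
  clear k_
  obtain ⟨dx, k_, H⟩ := H.slet_elim
  refine ⟨dx, (by simpa only [Ex.val, List.getD_cons_zero, List.getD_cons_succ, Nat.cast_ofNat,
    Nat.cast_one, Nat.cast_zero] using k_), ?_⟩
  clear k_
  obtain ⟨mu, k_, H⟩ := H.slet_elim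
  refine ⟨mu, (by simpa only [Ex.val, List.getD_cons_zero, List.getD_cons_succ, Nat.cast_ofNat,
    Nat.cast_one, Nat.cast_zero] using k_), ?_⟩
  clear k_
  obtain ⟨k_, H⟩ := H.lt_elim
  refine ⟨(by simpa only [Ex.val, List.getD_cons_zero, List.getD_cons_succ, Nat.cast_ofNat,
    Nat.cast_one, Nat.cast_zero] using k_), ?_⟩
  clear k_
  replace H := H.slet_raw
  replace H := H.slet_raw
  obtain ⟨l, q, ep, k_, k1_, k2_, H⟩ := kqP_elim hp H
  refine ⟨l, q, ep, (by simpa only [Ex.val, List.getD_cons_zero, List.getD_cons_succ,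
    Nat.cast_ofNat, Nat.cast_one, Nat.cast_zero] using k_), (by simpa only [Ex.val,
    List.getD_cons_zero, List.getD_cons_succ, Nat.cast_ofNat, Nat.cast_one, Nat.cast_zero] using
    k1_), (by simpa only [Ex.val, List.getD_cons_zero, List.getD_cons_succ, Nat.cast_ofNat,
    Nat.cast_one, Nat.cast_zero] using k2_), ?_⟩
  clear k_ k1_ k2_
  obtain ⟨Km, k_, H⟩ := H.slet_elim
  refine ⟨Km, (by simpa only [Ex.val, List.getD_cons_zero, List.getD_cons_succ, Nat.cast_ofNat,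
    Nat.cast_one, Nat.cast_zero] using k_), ?_⟩
  clear k_
  obtain ⟨qd, k_, H⟩ := H.slet_elim
  refine ⟨qd, (by simpa only [Ex.val, List.getD_cons_zero, List.getD_cons_succ, Nat.cast_ofNat,
    Nat.cast_one, Nat.cast_zero] using k_), ?_⟩
  clear k_
  obtain ⟨dU, k_, H⟩ := H.uabs_elim
  refine ⟨dU, (by simpa only [Ex.val, List.getD_cons_zero, List.getD_cons_succ, Nat.cast_ofNat,
    Nat.cast_one, Nat.cast_zero] using k_), ?_⟩
  clear k_
  obtain ⟨pd, k_, H⟩ := H.uabs_elim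
  refine ⟨pd, (by simpa only [Ex.val, List.getD_cons_zero, List.getD_cons_succ, Nat.cast_ofNat,
    Nat.cast_one, Nat.cast_zero] using k_), ?_⟩
  clear k_
  obtain ⟨k_, H⟩ := H.le_elim
  refine ⟨(by simpa only [Ex.val, List.getD_cons_zero, List.getD_cons_succ, Nat.cast_ofNat,
    Nat.cast_one, Nat.cast_zero] using k_), ?_⟩
  clear k_
  obtain ⟨eU, k_, H⟩ := H.uabs_elim
  refine ⟨eU, (by simpa only [Ex.val, List.getD_cons_zero, List.getD_cons_succ, Nat.cast_ofNat,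
    Nat.cast_one, Nat.cast_zero] using k_), ?_⟩
  clear k_
  obtain ⟨cd, k_, H⟩ := H.uabs_elim
  refine ⟨cd, (by simpa only [Ex.val, List.getD_cons_zero, List.getD_cons_succ, Nat.cast_ofNat,
    Nat.cast_one, Nat.cast_zero] using k_), ?_⟩
  clear k_
  obtain ⟨qU, k_, H⟩ := H.uabs_elim
  refine ⟨qU, (by simpa only [Ex.val, List.getD_cons_zero, List.getD_cons_succ, Nat.cast_ofNat,
    Nat.cast_one, Nat.cast_zero] using k_), ?_⟩
  clear k_
  obtain ⟨P, k_, H⟩ := H.uabs_elim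
  refine ⟨P, (by simpa only [Ex.val, List.getD_cons_zero, List.getD_cons_succ, Nat.cast_ofNat,
    Nat.cast_one, Nat.cast_zero] using k_), ?_⟩
  clear k_
  obtain ⟨Q, k_, H⟩ := H.slet_elim
  refine ⟨Q, (by simpa only [Ex.val, List.getD_cons_zero, List.getD_cons_succ, Nat.cast_ofNat,
    Nat.cast_one, Nat.cast_zero] using k_), ?_⟩
  clear k_
  obtain ⟨sl, k_, H⟩ := H.slet_elim
  refine ⟨sl, (by simpa only [Ex.val, List.getD_cons_zero, List.getD_cons_succ, Nat.cast_ofNat,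
    Nat.cast_one, Nat.cast_zero] using k_), ?_⟩
  clear k_
  obtain ⟨yl, k_, H⟩ := H.slet_elim
  refine ⟨yl, (by simpa only [Ex.val, List.getD_cons_zero, List.getD_cons_succ, Nat.cast_ofNat,
    Nat.cast_one, Nat.cast_zero] using k_), ?_⟩
  clear k_
  obtain ⟨ib, k_, H⟩ := H.rcp_elim
  refine ⟨ib, k_, ?_⟩
  clear k_
  obtain ⟨k_, H⟩ := H.le_elim
  refine ⟨(by simpa only [Ex.val, List.getD_cons_zero, List.getD_cons_succ, Nat.cast_ofNat,
    Nat.cast_one, Nat.cast_zero] using k_), ?_⟩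
  clear k_
  obtain ⟨k_, H⟩ := H.le_elim
  refine ⟨(by simpa only [Ex.val, List.getD_cons_zero, List.getD_cons_succ, Nat.cast_ofNat,
    Nat.cast_one, Nat.cast_zero] using k_), ?_⟩
  clear k_
  obtain ⟨k_, H⟩ := H.le_elim
  refine ⟨(by simpa only [Ex.val, List.getD_cons_zero, List.getD_cons_succ, Nat.cast_ofNat,
    Nat.cast_one, Nat.cast_zero] using k_), ?_⟩
  clear k_
  obtain ⟨k_, H⟩ := H.le_elim
  refine ⟨(by simpa only [Ex.val, List.getD_cons_zero, List.getD_cons_succ, Nat.cast_ofNat,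
    Nat.cast_one, Nat.cast_zero] using k_), ?_⟩
  clear k_
  replace H := H.push_var
  replace H := H.push_var
  replace H := H.push_var
  replace H := H.push_var
  replace H := H.push_var
  replace H := H.push_var
  replace H := H.push_var
  replace H := H.push_var
  obtain ⟨EQ1, k_, H⟩ := H.slet_elim
  refine ⟨EQ1, (by simpa only [Ex.val, List.getD_cons_zero, List.getD_cons_succ, Nat.cast_ofNat,
    Nat.cast_one, Nat.cast_zero] using k_), ?_⟩
  clear k_
  replace H := H.cut_elim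
  simpa only [List.take_succ_cons, List.take_zero, List.drop_succ_cons, List.drop_zero,
    List.cons_append, List.nil_append, List.getD_cons_zero, List.getD_cons_succ, Nat.reduceAdd]
    using H

theorem datF_spec {ca ba cz bz bb m mm : ℕ} {r : Ck} {EQ L K1 KB B1 Bp e1 eh lam p : ℝ} {s d :
    List ℝ}  (H : (datF ca ba cz bz bb m mm r).holds (EQ :: L :: K1 :: KB :: B1 :: Bp :: e1 :: eh
    :: lam :: p :: s) (d)) :
    ∃ sl : ℝ, sl = val ca - val cz + (val bz - val ba) * lam ∧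
    (0 : ℝ) < sl ∧
    ∃ yl : ℝ, yl = val ba * lam - val ca ∧
    ∃ ib : ℝ, 0 < ib ∧
    (1 : ℝ) ≤ ib * val bb ∧
    (0 : ℝ) ≤ val m ∧
    val m ≤ val mm ∧
    ∃ EQ1 : ℝ, EQ1 = EQ + val bb * (e1 * (2 + 2 * yl + sl + (val m) ^ 2) + eh) ∧
    r.holds (EQ1 :: L :: K1 :: KB :: B1 :: Bp :: e1 :: eh :: lam :: p :: s) (sl :: yl :: ib :: d) := by
  unfold datF at H
  obtain ⟨sl, k_, H⟩ := H.slet_elim
  refine ⟨sl, (by simpa only [Ex.val, List.getD_cons_zero, List.getD_cons_succ, Nat.cast_ofNat,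
    Nat.cast_one, Nat.cast_zero] using k_), ?_⟩
  clear k_
  obtain ⟨k_, H⟩ := H.lt_elim
  refine ⟨(by simpa only [Ex.val, List.getD_cons_zero, List.getD_cons_succ, Nat.cast_ofNat,
    Nat.cast_one, Nat.cast_zero] using k_), ?_⟩
  clear k_
  obtain ⟨yl, k_, H⟩ := H.slet_elim
  refine ⟨yl, (by simpa only [Ex.val, List.getD_cons_zero, List.getD_cons_succ, Nat.cast_ofNat,
    Nat.cast_one, Nat.cast_zero] using k_), ?_⟩
  clear k_
  obtain ⟨ib, k_, H⟩ := H.rcp_elim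
  refine ⟨ib, k_, ?_⟩
  clear k_
  obtain ⟨k_, H⟩ := H.le_elim
  refine ⟨(by simpa only [Ex.val, List.getD_cons_zero, List.getD_cons_succ, Nat.cast_ofNat,
    Nat.cast_one, Nat.cast_zero] using k_), ?_⟩
  clear k_
  obtain ⟨k_, H⟩ := H.le_elim
  refine ⟨(by simpa only [Ex.val, List.getD_cons_zero, List.getD_cons_succ, Nat.cast_ofNat,
    Nat.cast_one, Nat.cast_zero] using k_), ?_⟩
  clear k_
  obtain ⟨k_, H⟩ := H.le_elim
  refine ⟨(by simpa only [Ex.val, List.getD_cons_zero, List.getD_cons_succ, Nat.cast_ofNat,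
    Nat.cast_one, Nat.cast_zero] using k_), ?_⟩
  clear k_
  replace H := H.push_var
  replace H := H.push_var
  replace H := H.push_var
  obtain ⟨EQ1, k_, H⟩ := H.slet_elim
  refine ⟨EQ1, (by simpa only [Ex.val, List.getD_cons_zero, List.getD_cons_succ, Nat.cast_ofNat,
    Nat.cast_one, Nat.cast_zero] using k_), ?_⟩
  clear k_
  replace H := H.cut_elim
  simpa only [List.take_succ_cons, List.take_zero, List.drop_succ_cons, List.drop_zero,
    List.cons_append, List.nil_append, List.getD_cons_zero, List.getD_cons_succ, Nat.reduceAdd]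
    using H

theorem datL_spec {cz bb v0 gl eps : ℕ} {r : Ck} {EQ L K1 KB B1 Bp e1 eh lam p tau : ℝ} {s d :
    List ℝ}  (H : (datL cz bb v0 gl eps r).holds (EQ :: L :: K1 :: KB :: B1 :: Bp :: e1 :: eh ::
    lam :: p :: tau :: s) (d)) :
    ∃ sl : ℝ, sl = 1 - val cz ∧
    (0 : ℝ) < sl ∧
    (0 : ℝ) < val v0 ∧
    (0 : ℝ) ≤ val gl ∧
    2 * sl ≤ (val gl) ^ 2 * val v0 * tau ∧
    ∃ ib : ℝ, 0 < ib ∧
    (1 : ℝ) ≤ ib * val bb ∧
    ∃ EQ1 : ℝ, EQ1 = EQ + val bb * (2 * e1 * sl + (1783 / 1000 : ℝ) * val eps * val gl) ∧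
    r.holds (EQ1 :: L :: K1 :: KB :: B1 :: Bp :: e1 :: eh :: lam :: p :: tau :: s) (sl :: ib :: d) := by
  unfold datL at H
  obtain ⟨sl, k_, H⟩ := H.slet_elim
  refine ⟨sl, (by simpa only [Ex.val, List.getD_cons_zero, List.getD_cons_succ, Nat.cast_ofNat,
    Nat.cast_one, Nat.cast_zero] using k_), ?_⟩
  clear k_
  obtain ⟨k_, H⟩ := H.lt_elim
  refine ⟨(by simpa only [Ex.val, List.getD_cons_zero, List.getD_cons_succ, Nat.cast_ofNat,
    Nat.cast_one, Nat.cast_zero] using k_), ?_⟩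
  clear k_
  obtain ⟨k_, H⟩ := H.lt_elim
  refine ⟨(by simpa only [Ex.val, List.getD_cons_zero, List.getD_cons_succ, Nat.cast_ofNat,
    Nat.cast_one, Nat.cast_zero] using k_), ?_⟩
  clear k_
  obtain ⟨k_, H⟩ := H.le_elim
  refine ⟨(by simpa only [Ex.val, List.getD_cons_zero, List.getD_cons_succ, Nat.cast_ofNat,
    Nat.cast_one, Nat.cast_zero] using k_), ?_⟩
  clear k_
  obtain ⟨k_, H⟩ := H.le_elim
  refine ⟨(by simpa only [Ex.val, List.getD_cons_zero, List.getD_cons_succ, Nat.cast_ofNat,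
    Nat.cast_one, Nat.cast_zero] using k_), ?_⟩
  clear k_
  obtain ⟨ib, k_, H⟩ := H.rcp_elim
  refine ⟨ib, k_, ?_⟩
  clear k_
  obtain ⟨k_, H⟩ := H.le_elim
  refine ⟨(by simpa only [Ex.val, List.getD_cons_zero, List.getD_cons_succ, Nat.cast_ofNat,
    Nat.cast_one, Nat.cast_zero] using k_), ?_⟩
  clear k_
  replace H := H.push_var
  replace H := H.push_var
  obtain ⟨EQ1, k_, H⟩ := H.slet_elim
  refine ⟨EQ1, (by simpa only [Ex.val, List.getD_cons_zero, List.getD_cons_succ, Nat.cast_ofNat,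
    Nat.cast_one, Nat.cast_zero] using k_), ?_⟩
  clear k_
  replace H := H.cut_elim
  simpa only [List.take_succ_cons, List.take_zero, List.drop_succ_cons, List.drop_zero,
    List.cons_append, List.nil_append, List.getD_cons_zero, List.getD_cons_succ, Nat.reduceAdd]
    using H

theorem glob_spec {xc bi mi rc bt w b2 mm lf : ℕ} {r : Ck} {EQ L K1 KB B1 Bp e1 eh lam p tau sig
    sr srU EA EB : ℝ} {s d : List ℝ} (hp : 0 < p) (H : (glob xc bi mi rc bt w b2 mm lf r).holds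
    (EQ :: L :: K1 :: KB :: B1 :: Bp :: e1 :: eh :: lam :: p :: tau :: sig :: sr :: srU :: EA ::
    EB :: s) (d)) :
    ∃ l qc ep : ℝ, l = lk p (val xc) ∧ qc = qf p (val xc) ∧ ep = Real.exp (p * val xc) ∧
    ∃ kc : ℝ, kc = Real.exp l ∧
    K1 ≤ val rc * kc ∧
    (1 : ℝ) ≤ val rc ∧
    (0 : ℝ) ≤ val mi ∧
    (0 : ℝ) ≤ val mm ∧
    (0 : ℝ) < val w ∧
    qc ≤ 2 * val w ∧
    ∃ iq : ℝ, 0 < iq ∧
    (1 : ℝ) ≤ iq * qc ∧
    ∃ ibi : ℝ, 0 < ibi ∧
    (1 : ℝ) ≤ ibi * val bi ∧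
    ∃ ik : ℝ, 0 < ik ∧
    (1 : ℝ) ≤ ik * kc ∧
    ∃ rT : ℝ, |K1 * ik| ≤ rT ∧
    ∃ iq2 : ℝ, 0 < iq2 ∧
    (1 : ℝ) ≤ iq2 * (2 * qc - p) ∧
    ∃ iT : ℝ, 0 < iT ∧
    (1 : ℝ) ≤ iT * (val bt * (val w) ^ 2) ∧
    ∃ ib2 : ℝ, 0 < ib2 ∧
    (1 : ℝ) ≤ ib2 * val b2 ∧
    ∃ i2 : ℝ, i2 = KB * ib2 ∧
    ∃ Wm : ℝ, Wm = (1 + val w * iq) ^ 2 ∧
    ∃ Lam : ℝ, Lam = 2 * val lf * (EQ + val bi * (e1 * (2 + (2 * val xc + iq) * lam + (val mi) ^
      2) + eh * (val rc) ^ 2) + val bt * (e1 * lam * ep * iq * iq2 + eh * rT ^ 2 * val w) + val b2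
      * KB * (e1 * (2 + (val mm) ^ 2) + eh)) ∧
    r.holds (KB :: sig :: lam :: p :: Lam :: ibi :: iT :: i2 :: kc :: qc :: Wm :: sr :: srU :: B1
      :: Bp :: EA :: EB :: s) (d) := by
  unfold glob at H
  replace H := H.slet_raw
  replace H := H.slet_raw
  obtain ⟨l, qc, ep, k_, k1_, k2_, H⟩ := kqP_elim hp H
  refine ⟨l, qc, ep, (by simpa only [Ex.val, List.getD_cons_zero, List.getD_cons_succ,
    Nat.cast_ofNat, Nat.cast_one, Nat.cast_zero] using k_), (by simpa only [Ex.val,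
    List.getD_cons_zero, List.getD_cons_succ, Nat.cast_ofNat, Nat.cast_one, Nat.cast_zero] using
    k1_), (by simpa only [Ex.val, List.getD_cons_zero, List.getD_cons_succ, Nat.cast_ofNat,
    Nat.cast_one, Nat.cast_zero] using k2_), ?_⟩
  clear k_ k1_ k2_
  obtain ⟨kc, k_, H⟩ := H.slet_elim
  refine ⟨kc, (by simpa only [Ex.val, List.getD_cons_zero, List.getD_cons_succ, Nat.cast_ofNat,
    Nat.cast_one, Nat.cast_zero] using k_), ?_⟩
  clear k_
  obtain ⟨k_, H⟩ := H.le_elim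
  refine ⟨(by simpa only [Ex.val, List.getD_cons_zero, List.getD_cons_succ, Nat.cast_ofNat,
    Nat.cast_one, Nat.cast_zero] using k_), ?_⟩
  clear k_
  obtain ⟨k_, H⟩ := H.le_elim
  refine ⟨(by simpa only [Ex.val, List.getD_cons_zero, List.getD_cons_succ, Nat.cast_ofNat,
    Nat.cast_one, Nat.cast_zero] using k_), ?_⟩
  clear k_
  obtain ⟨k_, H⟩ := H.le_elim
  refine ⟨(by simpa only [Ex.val, List.getD_cons_zero, List.getD_cons_succ, Nat.cast_ofNat,
    Nat.cast_one, Nat.cast_zero] using k_), ?_⟩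
  clear k_
  obtain ⟨k_, H⟩ := H.le_elim
  refine ⟨(by simpa only [Ex.val, List.getD_cons_zero, List.getD_cons_succ, Nat.cast_ofNat,
    Nat.cast_one, Nat.cast_zero] using k_), ?_⟩
  clear k_
  obtain ⟨k_, H⟩ := H.lt_elim
  refine ⟨(by simpa only [Ex.val, List.getD_cons_zero, List.getD_cons_succ, Nat.cast_ofNat,
    Nat.cast_one, Nat.cast_zero] using k_), ?_⟩
  clear k_
  obtain ⟨k_, H⟩ := H.le_elim
  refine ⟨(by simpa only [Ex.val, List.getD_cons_zero, List.getD_cons_succ, Nat.cast_ofNat,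
    Nat.cast_one, Nat.cast_zero] using k_), ?_⟩
  clear k_
  obtain ⟨iq, k_, H⟩ := H.rcp_elim
  refine ⟨iq, k_, ?_⟩
  clear k_
  obtain ⟨k_, H⟩ := H.le_elim
  refine ⟨(by simpa only [Ex.val, List.getD_cons_zero, List.getD_cons_succ, Nat.cast_ofNat,
    Nat.cast_one, Nat.cast_zero] using k_), ?_⟩
  clear k_
  obtain ⟨ibi, k_, H⟩ := H.rcp_elim
  refine ⟨ibi, k_, ?_⟩
  clear k_
  obtain ⟨k_, H⟩ := H.le_elim
  refine ⟨(by simpa only [Ex.val, List.getD_cons_zero, List.getD_cons_succ, Nat.cast_ofNat,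
    Nat.cast_one, Nat.cast_zero] using k_), ?_⟩
  clear k_
  obtain ⟨ik, k_, H⟩ := H.rcp_elim
  refine ⟨ik, k_, ?_⟩
  clear k_
  obtain ⟨k_, H⟩ := H.le_elim
  refine ⟨(by simpa only [Ex.val, List.getD_cons_zero, List.getD_cons_succ, Nat.cast_ofNat,
    Nat.cast_one, Nat.cast_zero] using k_), ?_⟩
  clear k_
  obtain ⟨rT, k_, H⟩ := H.uabs_elim
  refine ⟨rT, (by simpa only [Ex.val, List.getD_cons_zero, List.getD_cons_succ, Nat.cast_ofNat,
    Nat.cast_one, Nat.cast_zero] using k_), ?_⟩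
  clear k_
  obtain ⟨iq2, k_, H⟩ := H.rcp_elim
  refine ⟨iq2, k_, ?_⟩
  clear k_
  obtain ⟨k_, H⟩ := H.le_elim
  refine ⟨(by simpa only [Ex.val, List.getD_cons_zero, List.getD_cons_succ, Nat.cast_ofNat,
    Nat.cast_one, Nat.cast_zero] using k_), ?_⟩
  clear k_
  obtain ⟨iT, k_, H⟩ := H.rcp_elim
  refine ⟨iT, k_, ?_⟩
  clear k_
  obtain ⟨k_, H⟩ := H.le_elim
  refine ⟨(by simpa only [Ex.val, List.getD_cons_zero, List.getD_cons_succ, Nat.cast_ofNat,
    Nat.cast_one, Nat.cast_zero] using k_), ?_⟩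
  clear k_
  obtain ⟨ib2, k_, H⟩ := H.rcp_elim
  refine ⟨ib2, k_, ?_⟩
  clear k_
  obtain ⟨k_, H⟩ := H.le_elim
  refine ⟨(by simpa only [Ex.val, List.getD_cons_zero, List.getD_cons_succ, Nat.cast_ofNat,
    Nat.cast_one, Nat.cast_zero] using k_), ?_⟩
  clear k_
  obtain ⟨i2, k_, H⟩ := H.slet_elim
  refine ⟨i2, (by simpa only [Ex.val, List.getD_cons_zero, List.getD_cons_succ, Nat.cast_ofNat,
    Nat.cast_one, Nat.cast_zero] using k_), ?_⟩
  clear k_
  obtain ⟨Wm, k_, H⟩ := H.slet_elim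
  refine ⟨Wm, (by simpa only [Ex.val, List.getD_cons_zero, List.getD_cons_succ, Nat.cast_ofNat,
    Nat.cast_one, Nat.cast_zero] using k_), ?_⟩
  clear k_
  obtain ⟨Lam, k_, H⟩ := H.slet_elim
  refine ⟨Lam, (by simpa only [Ex.val, List.getD_cons_zero, List.getD_cons_succ, Nat.cast_ofNat,
    Nat.cast_one, Nat.cast_zero] using k_), ?_⟩
  clear k_
  have H := H.slet_var
  have H := H.slet_var
  have H := H.slet_var
  have H := H.slet_var
  have H := H.slet_var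
  have H := H.slet_var
  have H := H.slet_var
  have H := H.slet_var
  have H := H.slet_var
  have H := H.slet_var
  have H := H.slet_var
  have H := H.slet_var
  have H := H.slet_var
  have H := H.slet_var
  have H := H.slet_var
  have H := H.slet_var
  have H := H.slet_var
  replace H := H.cut_elim
  simpa only [List.take_succ_cons, List.take_zero, List.drop_succ_cons, List.drop_zero,
    List.cons_append, List.nil_append, List.getD_cons_zero, List.getD_cons_succ, Nat.reduceAdd]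
    using H

theorem globE_spec {xe : ℕ} {r : Ck} {KB sig lam p : ℝ} {s d : List ℝ} (hp : 0 < p) (H : (globE xe
    r).holds (KB :: sig :: lam :: p :: s) (d)) :
    ∃ l qe ep : ℝ, l = lk p (val xe) ∧ qe = qf p (val xe) ∧ ep = Real.exp (p * val xe) ∧
    ∃ ke : ℝ, |Real.exp l| ≤ ke ∧
    r.holds (ke :: qe :: KB :: sig :: lam :: p :: s) (d) := by
  unfold globE at H
  replace H := H.slet_raw
  replace H := H.slet_raw
  obtain ⟨l, qe, ep, k_, k1_, k2_, H⟩ := kqP_elim hp H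
  refine ⟨l, qe, ep, (by simpa only [Ex.val, List.getD_cons_zero, List.getD_cons_succ,
    Nat.cast_ofNat, Nat.cast_one, Nat.cast_zero] using k_), (by simpa only [Ex.val,
    List.getD_cons_zero, List.getD_cons_succ, Nat.cast_ofNat, Nat.cast_one, Nat.cast_zero] using
    k1_), (by simpa only [Ex.val, List.getD_cons_zero, List.getD_cons_succ, Nat.cast_ofNat,
    Nat.cast_one, Nat.cast_zero] using k2_), ?_⟩
  clear k_ k1_ k2_
  obtain ⟨ke, k_, H⟩ := H.uabs_elim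
  refine ⟨ke, (by simpa only [Ex.val, List.getD_cons_zero, List.getD_cons_succ, Nat.cast_ofNat,
    Nat.cast_one, Nat.cast_zero] using k_), ?_⟩
  clear k_
  have H := H.slet_var
  have H := H.slet_var
  replace H := H.cut_elim
  simpa only [List.take_succ_cons, List.take_zero, List.drop_succ_cons, List.drop_zero,
    List.cons_append, List.nil_append, List.getD_cons_zero, List.getD_cons_succ, Nat.reduceAdd]
    using H

end Pool.Agent.Eps.T
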