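import Mathlib
import Pool.Agent.Lib.MP_3bda03_nt.T.Loop
import Pool.Agent.Lib.MP_3bda03_nt.T.Spec1
import Pool.Agent.Lib.MP_3bda03_nt.T.Snd
import Pool.Agent.Lib.MP_3bda03_nt.T.Rad
import Pool.Agent.Lib.MP_3bda03_nt.T.Spec3
import Pool.Agent.Lib.MP_3bda03_nt.T.Lin

-- part Pool.Agent.Lib.MP_3bda03_nt.T.Dat
section

/-! The data phase, cell by cell. -/

set_option autoImplicit false

noncomputable section

open MeasureTheory Set

namespace Pool.Agent.Eps.T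

variable {C : Cert} {F : Fam} {h : HV} {r : Ck} {x : ℝ} {d : List ℝ}

/-- the program computes the right positions -/
def PosOk (F : Fam) (h : HV) (ca _ba : ℕ) (c : Cell) : Prop :=
  val ca * (h.L + F.x1) = 0 ∧ val c.cz * (h.L + F.x1) = 0

theorem dat_lam (hh : HeadOk C F h) : F.lam * F.x1 = -1 ∧ 0 < F.lam ∧ F.x1 < 0 := by
  have hp := hh.p_pos
  have hτ := hh.τ_pos
  refine ⟨?_, div_pos hp hτ, neg_neg_of_pos (div_pos hτ hp)⟩
  unfold Fam.lam Fam.x1
  field_simp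

theorem dat_pos {a b : ℝ} (ha : 0 < a) (h : 1 ≤ a * b) : 0 < b :=
  (mul_pos_iff_of_pos_left ha).1 (lt_of_lt_of_le one_pos h)

theorem dat_all {cs : List Cell} {ca ba : ℕ} (h0 : val ca = 0) (h1 : ∀ c ∈ cs, val c.cz = 0) :
    AllC (PosOk F h) cs ca ba := by
  induction cs generalizing ca ba with
  | nil => trivial
  | cons c cs ih =>
    have h2 := h1 c List.mem_cons_self
    exact ⟨⟨by rw [h0, zero_mul], by rw [h2, zero_mul]⟩,
      ih h2 fun c' hc' => h1 c' (List.mem_cons_of_mem _ hc')⟩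

theorem posOk_all (hwf : C.wf = true) (hh : HeadOk C F h) : AllC (PosOk F h) C.ns C.na C.nb := by
  cases hf : C.far with
  | false =>
    have e : h.L + F.x1 = 0 := by rw [hh.LN hf]; ring
    exact AllC.of_forall (fun _ _ _ => ⟨by rw [e, mul_zero], by rw [e, mul_zero]⟩) _ _ _
  | true =>
    simp only [Cert.wf, Bool.and_eq_true, hf, cond_true, List.all_eq_true] at hwf
    refine dat_all (by rw [Cert.na, hf]; exact val_bias) fun c hc => ?_
    rw [Nat.eq_of_beq_eq_true (hwf.2.2 c hc)]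
    exact val_bias

theorem dat_near (hh : HeadOk C F h) {ca ba : ℕ} {c : Cell} (hP : PosOk F h ca ba c)
    (he : pos F.x1 c.cz c.bz ≤ 0 ∨ h.K1 ≤ val c.rr * kf F.p (pos F.x1 c.cz c.bz))
    (H : (datN ca ba c.cz c.bz c.bb c.m c.rr C.mm r).holds (x :: h.l F) d) :
    atN F (StN F h.K1 (val C.mm)) ca ba c ∧ ∃ e, atN F (TpN F) ca ba c e ∧
      r.holds ((x + atN F (costN F) ca ba c) :: h.l F) (e ++ d) := by
  obtain ⟨l1, -, -⟩ := dat_lam hh
  unfold HV.l at H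
  obtain ⟨dc, g1, db, g2, dx, e1, mu, e2, h0, l, q, ep, g3, g4, g5, Km, g6, qd, g7, dU, h1,
    pd, h2, h3, eU, h4, cd, h5, qU, h6, P, h7, Q, g8, sl, e3, yl, e4, ib, h8, h9, h10, h11, h12,
    EQ1, g9, H'⟩ := datN_spec hh.p_pos H
  rw [g9, g8, g7, g6, g4, g3] at H'
  rw [g6, g3] at h7
  rw [g7, g4] at h6
  rw [g5] at h4
  rw [g1, g2] at e1 e3
  clear g1 g2 g3 g4 g5 g6 g7 g8 g9
  unfold atN
  generalize ha : pos F.x1 ca ba = a at *
  generalize hb : pos F.x1 c.cz c.bz = b at *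
  unfold pos at ha hb
  have f1 : dx = b - a := by rw [e1, ← ha, ← hb]; linear_combination hP.1 - hP.2
  have f2 : mu = (a + b) / 2 := by
    rw [e2, ← ha, ← hb]; linear_combination (-1 / 2) * hP.1 - (1 / 2) * hP.2
  have f3 : sl = F.lam * (b - a) := by
    rw [e3, ← ha, ← hb]; linear_combination (val ca - val c.cz) * l1
  have f4 : yl = F.lam * a := by rw [e4, ← ha]; linear_combination (-val ca) * l1
  rw [f1, f2, f3, f4] at H'
  rw [f1, f2] at h6 h7
  rw [f1] at h0 h1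
  rw [f2] at h4
  have hab : a < b := sub_pos.1 h0
  have hcd := cell_cd hh.p_pos hab h1 h2 h3 h4 h5
  exact ⟨⟨hab, dat_pos h8 h9, h10, h11, h12, he⟩, _, ⟨cd, P, _, ib, rfl, hcd,
    cell_P hh.p_pos hab h6 h7, cell_Q hh.p_pos hab h6 hcd, h9⟩, H'⟩

theorem datN1_ok (hh : HeadOk C F h) {ca ba : ℕ} {c : Cell} (hP : PosOk F h ca ba c)
    (H : (datN1 C.mm ca ba c r).holds (x :: h.l F) d) :
    atN F (StN F h.K1 (val C.mm)) ca ba c ∧ ∃ e, atN F (TpN F) ca ba c e ∧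
      r.holds ((x + atN F (costN F) ca ba c) :: h.l F) (e ++ d) := by
  unfold datN1 at H
  cases hc : (Nat.ble c.bz 4722366482869645213696 && Nat.ble 4722366482869645213696 c.cz) with
  | true =>
    rw [hc, cond_true] at H
    rw [Bool.and_eq_true, Nat.ble_eq, Nat.ble_eq, ← val_le_val, ← val_le_val, val_bias] at hc
    refine dat_near hh hP (Or.inl ?_) H
    have := mul_nonneg hc.2 (neg_pos.2 (dat_lam hh).2.2).le
    unfold pos
    linarith [hc.1]
  | false =>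
    rw [hc, cond_false] at H
    obtain ⟨l, q, ep, rfl, -, -, h1, H'⟩ := chkR_spec hh.p_pos H
    refine dat_near hh hP (Or.inr ?_) H'
    have e : pos F.x1 c.cz c.bz = val c.bz - val c.cz * h.L := by
      unfold pos; linear_combination hP.2
    rw [e]
    exact h1

theorem datF1_ok (hh : HeadOk C F h) {ca ba : ℕ} {c : Cell}
    (H : (datF1 C.mm ca ba c r).holds (x :: h.l F) d) :
    atN F (StF (val C.mm)) ca ba c ∧ ∃ e, atN F (TpF F) ca ba c e ∧
      r.holds ((x + atN F (costF F) ca ba c) :: h.l F) (e ++ d) := by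
  obtain ⟨l1, l2, -⟩ := dat_lam hh
  unfold datF1 HV.l at H
  obtain ⟨sl, e3, h0, yl, e4, ib, h8, h9, h11, h12, EQ1, rfl, H'⟩ := datF_spec H
  unfold atN
  generalize ha : pos F.x1 ca ba = a
  generalize hb : pos F.x1 c.cz c.bz = b
  unfold pos at ha hb
  have f3 : sl = F.lam * (b - a) := by
    rw [e3, ← ha, ← hb]; linear_combination (val ca - val c.cz) * l1
  have f4 : yl = F.lam * a := by rw [e4, ← ha]; linear_combination (-val ca) * l1
  clear e3 e4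
  subst f3 f4
  exact ⟨⟨sub_pos.1 ((mul_pos_iff_of_pos_left l2).1 h0), dat_pos h8 h9, h11, h12⟩, _,
    ⟨ib, rfl, h9⟩, H'⟩

theorem datL_ok (hh : HeadOk C F h) (hf : C.far = true)
    (H : (datL C.lcz C.lbb C.v0 C.gl C.eps r).holds (x :: h.l F) d) :
    StL C F ∧ ∃ e, TpL F (C.xl F) (val C.lbb) e ∧ r.holds ((x + C.costL F) :: h.l F) (e ++ d) := by
  obtain ⟨l1, -, -⟩ := dat_lam hh
  obtain ⟨sl, rfl, h0, h1, h2, h3, ib, h8, h9, EQ1, rfl, H'⟩ := datL_spec H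
  have e : F.lam * (C.xl F - F.x1) = 1 - val C.lcz := by
    rw [Cert.xl, if_pos hf, pos, val_bias]
    linear_combination (val C.lcz - 1) * l1
  refine ⟨⟨sub_pos.1 h0, dat_pos h8 h9, h1, h2, h3⟩, _, ⟨ib, rfl, h9⟩, ?_⟩
  rw [e]
  exact H'

theorem datG_ok (hh : HeadOk C F h) {a b : ℕ} (H : (datG a b r).holds (x :: h.l F) d) :
    ∃ e, TpG F (val a) (val b) e ∧ r.holds (x :: h.l F) (e ++ d) := by
  obtain ⟨dx, rfl, mu, e2, h0, l, q, ep, rfl, rfl, rfl, Km, rfl, qd, rfl, dU, h1, pd, h2, h3, eU,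
    h4, cd, h5, sl, e3, yl, e4, H'⟩ := datG_spec hh.p_pos H
  have f2 : mu = (val a + val b) / 2 := by rw [e2]; ring
  rw [mul_comm] at e3 e4
  clear e2
  subst f2 e3 e4
  have hab : val a < val b := sub_pos.1 h0
  exact ⟨_, ⟨hab, cd, rfl, cell_cd hh.p_pos hab h1 h2 h3 h4 h5⟩, H'⟩

theorem dat_B1 (hwf : C.wf = true) (hh : HeadOk C F h) (H : (C.datB1 r).holds (x :: h.l F) d) :
    AllC (atN F (StN F h.K1 (val C.mm))) C.ns C.na C.nb ∧ ∃ d2 d3,
      TapeB (atN F (TpN F)) C.ns C.na C.nb d d2 ∧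
      TapeG (fun a b => TpG F (val a) (val b)) C.gs C.xc d2 d3 ∧
      (C.glb (globE C.xe r)).holds ((x + sumC (atN F (costN F)) C.ns C.na C.nb) :: h.l F) d3 := by
  obtain ⟨h1, d2, h2, h3⟩ := fwd_dat (fun _ _ _ _ _ _ hP H => datN1_ok hh hP H)
    (posOk_all hwf hh) H
  obtain ⟨d3, h4, h5⟩ := datGs_loop (T := fun a b => TpG F (val a) (val b))
    (fun _ _ _ _ H => datG_ok hh H) h3
  exact ⟨h1, d2, d3, h2, h4, h5⟩

/-- the cells in the order of the backward mode -/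
theorem cellsB_ok (hwf : C.wf = true) (hh : HeadOk C F h)
    (H : (C.datB r).holds (0 :: h.l F) []) :
    Stat C F h ∧ ∃ d, C.TpB F d ∧ (C.glb (globE C.xe r)).holds (C.cost F :: h.l F) d := by
  unfold Cert.datB at H
  cases hf : C.far with
  | false =>
    rw [hf, cond_false] at H
    obtain ⟨h1, d2, d3, h2, h3, h4⟩ := dat_B1 hwf hh H
    have hn : ¬ C.far = true := by simp [hf]
    refine ⟨⟨h1, fun e => absurd e hn, fun e => absurd e hn⟩, d3,
      ⟨[], d2, fun _ => rfl, fun e => absurd e hn, h2, h3⟩, ?_⟩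
    rw [Cert.cost, if_neg hn, add_comm]
    exact h4
  | true =>
    rw [hf, cond_true] at H
    obtain ⟨h1, e, h2, h3⟩ := datL_ok hh hf H
    obtain ⟨h4, d1, h5, h6⟩ := fwd_dat (G := fun _ _ _ => True)
      (fun _ _ _ _ _ _ _ H => datF1_ok hh H) (AllC.of_forall (fun _ _ _ => trivial) _ _ _) h3
    obtain ⟨h7, d2, d3, h8, h9, h10⟩ := dat_B1 hwf hh h6
    rw [List.append_nil] at h5
    refine ⟨⟨h7, fun _ => h4, fun _ => h1⟩, d3,
      ⟨d1, d2, fun e => by simp [hf] at e, fun _ => ⟨e, h2, h5⟩, h8, h9⟩, ?_⟩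
    have e1 : C.cost F = 0 + C.costL F + sumC (atN F (costF F)) C.fs C.lcz bz0 +
        sumC (atN F (costN F)) C.ns C.na C.nb := by
      rw [Cert.cost, if_pos hf]; ring
    rw [e1]
    exact h10

/-- the cells in the order of the forward modes -/
theorem cellsF_ok (hwf : C.wf = true) (hh : HeadOk C F h)
    (H : (C.datFw r).holds (0 :: h.l F) []) :
    Stat C F h ∧ ∃ d, C.TpW F d ∧ (C.glb r).holds (C.cost F :: h.l F) d := by
  obtain ⟨h1, d1, h2, h3⟩ := bwd_dat (fun _ _ _ _ _ _ hP H => datN1_ok hh hP H)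
    (posOk_all hwf hh) H
  cases hf : C.far with
  | false =>
    rw [hf, cond_false] at h3
    have hn : ¬ C.far = true := by simp [hf]
    refine ⟨⟨h1, fun e => absurd e hn, fun e => absurd e hn⟩, d1,
      ⟨d1, h2, fun _ => rfl, fun e => absurd e hn⟩, ?_⟩
    rw [Cert.cost, if_neg hn, add_comm]
    exact h3
  | true =>
    rw [hf, cond_true] at h3
    obtain ⟨h4, d2, h5, h6⟩ := bwd_dat (G := fun _ _ _ => True)
      (fun _ _ _ _ _ _ _ H => datF1_ok hh H) (AllC.of_forall (fun _ _ _ => trivial) _ _ _) h3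
    obtain ⟨h7, e, h8, h9⟩ := datL_ok hh hf h6
    refine ⟨⟨h1, fun _ => h4, fun _ => h7⟩, _,
      ⟨d1, h2, fun e => by simp [hf] at e, fun _ => ⟨e, d2, h5, h8, rfl⟩⟩, ?_⟩
    have e1 : C.cost F = 0 + sumC (atN F (costN F)) C.ns C.na C.nb +
        sumC (atN F (costF F)) C.fs C.lcz bz0 + C.costL F := by
      rw [Cert.cost, if_pos hf]; ring
    rw [e1]
    exact h9

end Pool.Agent.Eps.T
end
end

-- part Pool.Agent.Lib.MP_3bda03_nt.T.Head
section

/-! The first phase: parameters. -/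

set_option autoImplicit false

noncomputable section

open MeasureTheory Set

namespace Pool.Agent.Eps.T

variable {C : Cert} {p τ vh : ℝ} {r : Ck} {d : List ℝ}

theorem head_log2 :
    |Real.log 2 - (69314718055 / 100000000000 : ℝ)| ≤ (3 / 10000000000 : ℝ) := by
  have h1 := Real.log_two_gt_d9
  have h2 := Real.log_two_lt_d9
  rw [abs_le]
  constructor <;> linarith

theorem head_pi : |Real.pi - (31415925 / 10000000 : ℝ)| ≤ (1 / 1000000 : ℝ) := by
  have h1 := Real.pi_gt_d6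
  have h2 := Real.pi_lt_d6
  rw [abs_le]
  constructor <;> linarith

/-- the size of the logarithmic term for small `p` -/
theorem head_inf {p vh θ u : ℝ} (hp : 0 < p) (h1 : p ≤ 1 / 10) (hv : vh = 3 / 25 - 33 / 10 * p ^ 2)
    (h2 : 0 ≤ θ) (h3 : θ ≤ p ^ 2 / 8) (hu : 0 < u) (h4 : p ≤ u ^ 2) :
    0 ≤ 2 * Real.log 2 + Real.log Real.pi / 2 - 3 * Real.log p + Real.log vh + θ ∧
      p * (2 * Real.log 2 + Real.log Real.pi / 2 - 3 * Real.log p + Real.log vh + θ) ≤ 6 * u := by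
  have a1 : p ^ 2 ≤ 1 / 100 := by nlinarith
  have a2 : 0 ≤ p ^ 2 := sq_nonneg p
  have a3 : 0 < vh := by linarith
  have a4 : Real.log (2 ^ 4 * vh) = 4 * Real.log 2 + Real.log vh := by
    rw [Real.log_mul (by norm_num) a3.ne', Real.log_pow]
    norm_num
  have a5 : Real.log (2 ^ 3 * vh) = 3 * Real.log 2 + Real.log vh := by
    rw [Real.log_mul (by norm_num) a3.ne', Real.log_pow]
    norm_num
  have a6 : 0 ≤ Real.log (2 ^ 4 * vh) := Real.log_nonneg (by linarith)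
  have a7 := Real.log_le_sub_one_of_pos (x := 2 ^ 3 * vh) (by positivity)
  have a8 : 0 ≤ Real.log Real.pi := Real.log_nonneg (by linarith [Real.pi_gt_three])
  have a9 : Real.log Real.pi ≤ 2 * Real.log 2 := by
    have := Real.log_le_log Real.pi_pos (show Real.pi ≤ 2 ^ 2 by linarith [Real.pi_le_four])
    rw [Real.log_pow] at this
    exact_mod_cast this
  have b1 := Real.log_le_sub_one_of_pos hp
  have b2 := Real.log_two_lt_d9
  refine ⟨by linarith, ?_⟩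
  have b3 : 0 < Real.sqrt p := Real.sqrt_pos.2 hp
  have b4 : Real.sqrt p ≤ u := Real.sqrt_le_iff.2 ⟨hu.le, h4⟩
  have b5 := Real.log_le_sub_one_of_pos (inv_pos.2 b3)
  rw [Real.log_inv, Real.log_sqrt hp.le] at b5
  have b6 : p * (Real.sqrt p)⁻¹ = Real.sqrt p := by
    rw [← div_eq_mul_inv, Real.div_sqrt]
  have b7 : 2 * Real.log 2 + Real.log Real.pi / 2 - 3 * Real.log p + Real.log vh + θ ≤
      6 * (Real.sqrt p)⁻¹ := by linarith
  have b8 := mul_le_mul_of_nonneg_left b7 hp.le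
  linarith

theorem head_exp {N n c c' v vU : ℝ} (hn : 0 ≤ n) (h1 : n ≤ N) (h2 : 1 ≤ n * c) (h3 : c ≤ c')
    (h4 : 0 ≤ v) (h5 : v ≤ vU) :
    N * v * Real.exp (-(N * c')) ≤ n * vU * Real.exp (-(n * c)) := by
  have a1 : N ≤ n * Real.exp ((N - n) * c) := by
    have := mul_le_mul_of_nonneg_left (Real.add_one_le_exp ((N - n) * c)) hn
    nlinarith
  have a2 : Real.exp ((N - n) * c) * Real.exp (-(N * c')) ≤ Real.exp (-(n * c)) := by
    rw [← Real.exp_add]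
    refine Real.exp_le_exp.2 ?_
    nlinarith
  calc N * v * Real.exp (-(N * c'))
      ≤ n * Real.exp ((N - n) * c) * vU * Real.exp (-(N * c')) := by gcongr
    _ = n * vU * (Real.exp ((N - n) * c) * Real.exp (-(N * c'))) := by ring
    _ ≤ _ := mul_le_mul_of_nonneg_left a2 (mul_nonneg hn (h4.trans h5))

theorem head_vh (hB : Base C p τ vh) (H : (C.head r).holds [p] d) :
    (C.head1 r).holds [vh, p] d := by
  unfold Cert.head at H
  cases hb : C.big
  · rw [hb] at H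
    obtain ⟨x, rfl, H⟩ := vhA_spec H
    rwa [hB.vhA hb]
  · rw [hb] at H
    obtain ⟨x, rfl, H⟩ := vhB_spec H
    rwa [hB.vhB hb]

theorem head_tau (hB : Base C p τ vh) (H : (C.head1 r).holds [vh, p] d) :
    (C.head2 r).holds [τ, vh, p] d := by
  unfold Cert.head1 at H
  obtain ⟨θ, t0, t1, ht⟩ := hB.tau
  have hp := hB.p_pos
  cases hb : C.inf
  · rw [hb] at H
    obtain ⟨-, l1, rfl, -, l2, rfl, H⟩ := tauF_spec H
    obtain ⟨-, l3, rfl, H⟩ := H _ head_pi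
    obtain ⟨h, rfl, H⟩ := H _ head_log2
    refine H τ ?_
    have h1 := mul_nonneg (sq_nonneg p) t0
    have h2 := mul_le_mul_of_nonneg_left t1 (sq_nonneg p)
    rw [abs_le]
    constructor <;> nlinarith
  · rw [hb] at H
    obtain ⟨u0, u1, u2, H⟩ := tauI_spec H
    obtain ⟨h, rfl, H⟩ := H _ head_log2
    refine H τ ?_
    obtain ⟨h1, h2⟩ := head_inf hp u2 (hB.vhB (hB.inf hb)) t0 t1 u0 u1
    have h3 := mul_nonneg (sq_nonneg p) h1
    have h4 := mul_le_mul_of_nonneg_left h2 hp.le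
    rw [abs_le]
    constructor <;> nlinarith

theorem head_par (hB : Base C p τ vh)
    (H : (par C.g C.n0 C.n1 C.eta C.eps C.et0 C.lf r).holds [τ, vh, p] d) :
    Err C ∧ p ≤ 21 / 100 ∧ 0 < τ ∧ 0 < vh / τ ∧ p / τ ≤ 1 ∧
      ∃ srU EA EB : ℝ, Real.sqrt (vh / τ) ≤ srU ∧ (C.fam p τ vh).EA ≤ EA ∧
        (C.fam p τ vh).EB ≤ EB ∧
        r.holds [1 + val C.eta, 1783 / 1000 * val C.eps * (p / τ), p / τ, p, τ, p * (p / τ) / 2,
          Real.sqrt (vh / τ), srU, EA, EB] d := by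
  obtain ⟨h1, h2, it, rfl, lam, rfl, sig, rfl, h3, sr, rfl, srU, h4, h5, dec, rfl, h6, h7, h8, h9,
    h10, eh, rfl, e1, rfl, tU, h11, vU, h12, cA, rfl, cB, rfl, h13, h14, EA, h15, EB, h16, H⟩ :=
    par_spec H
  have hp := hB.p_pos
  have hv : 0 < vh := (pos_iff_pos_of_mul_pos h3).2 (inv_pos.2 h2)
  have hN : (C.n0 : ℝ) ≤ 4 / p ^ 2 := (le_div_iff₀ (by positivity)).2 hB.n0
  have k1 := (abs_le.1 h11).2
  have k2 := (abs_le.1 h12).2
  simp only [← div_eq_mul_inv] at h3 h4 h5 H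
  refine ⟨⟨h6, h7, h8, h9, h10⟩, h1, h2, h3, h5, srU, EA, EB, (abs_le.1 h4).2,
    le_trans ?_ (abs_le.1 h15).2, le_trans ?_ (abs_le.1 h16).2, ?_⟩
  · have k3 := head_exp (c := 11 / 200 * (18209 / 10000 - 2 * tU))
      (c' := 11 / 200 * (18209 / 10000 - 2 * τ)) (Nat.cast_nonneg C.n0) hN (by linarith)
      (by linarith) hv.le k2
    have e1 : (C.fam p τ vh).EA = 27 / 40 * (4 / p ^ 2 * vh *
        Real.exp (-(4 / p ^ 2 * (11 / 200 * (18209 / 10000 - 2 * τ))))) := by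
      show 27 / 20 * (vh / τ * (2 * τ / p ^ 2)) *
        Real.exp (-(11 / 50 / p ^ 2 * (18209 / 10000 - 2 * τ))) = _
      rw [show 11 / 50 / p ^ 2 * (18209 / 10000 - 2 * τ) =
        4 / p ^ 2 * (11 / 200 * (18209 / 10000 - 2 * τ)) by ring]
      field_simp
      ring
    rw [e1, show 11 / 200 * (C.n0 : ℝ) * (18209 / 10000 - 2 * tU) =
      C.n0 * (11 / 200 * (18209 / 10000 - 2 * tU)) by ring]
    linarith
  · have k3 := head_exp (c := 1 / 10 * (12231 / 10000 - 2 * tU))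
      (c' := 1 / 10 * (12231 / 10000 - 2 * τ)) (Nat.cast_nonneg C.n0) hN (by linarith)
      (by linarith) hv.le k2
    have e1 : (C.fam p τ vh).EB = 173 / 200 * (4 / p ^ 2 * vh *
        Real.exp (-(4 / p ^ 2 * (1 / 10 * (12231 / 10000 - 2 * τ))))) := by
      show 173 / 100 * (vh / τ * (2 * τ / p ^ 2)) *
        Real.exp (-(2 / 5 / p ^ 2 * (12231 / 10000 - 2 * τ))) = _
      rw [show 2 / 5 / p ^ 2 * (12231 / 10000 - 2 * τ) =
        4 / p ^ 2 * (1 / 10 * (12231 / 10000 - 2 * τ)) by ring]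
      field_simp
      ring
    rw [e1, show 1 / 10 * (C.n0 : ℝ) * (12231 / 10000 - 2 * tU) =
      C.n0 * (1 / 10 * (12231 / 10000 - 2 * tU)) by ring]
    linarith
  · rwa [show p * (p / τ) / 2 = 1 / 2 * p * (p / τ) by ring]

theorem head_ok (hB : Base C p τ vh) (H : (C.head r).holds [p] d) :
    ∃ h : HV, HeadOk C (C.fam p τ vh) h ∧ r.holds (0 :: h.l (C.fam p τ vh)) d := by
  obtain ⟨h1, h2, h3, h4, h5, srU, EA, EB, h6, h7, h8, H⟩ :=
    head_par hB (head_tau hB (head_vh hB H))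
  have hp := hB.p_pos
  cases hf : C.far
  · rw [hf] at H
    obtain ⟨-, ip, rfl, L, rfl, l1, q1, e1, rfl, rfl, rfl, k1, rfl, K1, a1, a2, i2, rfl, y, rfl,
      B1, rfl, Bp, a3, KB, rfl, EQ, rfl, H⟩ := parN_spec hp H
    rw [← div_eq_mul_inv τ p] at a1 a2 H
    have ex : C.xf (C.fam p τ vh) = -(τ / p) := if_neg (by simp [hf])
    have x0 : -(τ / p) < 0 := neg_neg_of_pos (div_pos h3 hp)
    have b1 : Real.exp (p * -(τ / p)) ≤ 1 :=
      Real.exp_le_one_iff.2 (mul_nonpos_of_nonneg_of_nonpos hp.le x0.le)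
    have b2 : 0 ≤ p * (2 - Real.exp (p * -(τ / p)))⁻¹ := mul_nonneg hp.le (inv_pos.2 a2).le
    have b3 : p * (2 - Real.exp (p * -(τ / p)))⁻¹ ≤ 1 := by
      rw [← div_eq_mul_inv, div_le_one a2]
      linarith
    refine ⟨⟨τ / p, K1, 0, _, Bp, srU, EA, EB⟩, ⟨h1, hp, h2, h3, h4, h5, h6, h7, h8, ex ▸ x0,
      ex ▸ (abs_le.1 a1).2, (abs_le.1 a3).2, ?_, Bq_ge hp x0.le, fun _ => (neg_neg _).symm,
      fun h => absurd (hf.symm.trans h) (by simp), le_rfl,
      fun h => absurd (hf.symm.trans h) (by simp)⟩, H⟩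
    exact mul_nonneg (mul_nonneg (kf_pos _ _).le b2) (sub_nonneg.2 (pow_le_one₀ b2 b3))
  · rw [hf] at H
    obtain ⟨l1, q1, e1, rfl, rfl, rfl, K1, a1, y, a2, a3, KB, a4, Bp, a5, B1, rfl, L, rfl, EQ, rfl,
      H⟩ := parF_spec hp H
    have ex : C.xf (C.fam p τ vh) = val C.bf := if_pos hf
    have q0 : 0 < -qf p (val C.bf) := (pos_iff_pos_of_mul_pos (one_pos.trans_le a3)).1 a2
    have x0 : val C.bf < 0 := (qf_neg_iff hp).1 (neg_pos.1 q0)
    have b1 : kf p (val C.bf) ≤ K1 := (abs_le.1 a1).2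
    refine ⟨⟨0, K1, KB, 0, Bp, srU, EA, EB⟩, ⟨h1, hp, h2, h3, h4, h5, h6, h7, h8, ex ▸ x0,
      ex ▸ b1, (abs_le.1 a5).2, le_rfl, Bq_nonneg _ _,
      fun h => absurd (hf.symm.trans h) (by simp), fun _ => rfl, (abs_nonneg _).trans a4,
      fun _ => (integral_Iic_kf_le hp x0).trans (le_trans ?_ (abs_le.1 a4).2)⟩, H⟩
    rw [div_le_iff₀ q0, mul_assoc]
    exact b1.trans (le_mul_of_one_le_right ((kf_pos _ _).le.trans b1) a3)

end Pool.Agent.Eps.T
end
end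

-- part Pool.Agent.Lib.MP_3bda03_nt.T.Fit
section

/-! The family of a certificate fits the certificate. -/

set_option autoImplicit false

noncomputable section

open MeasureTheory Set

namespace Pool.Agent.Eps.T

variable {x1 : ℝ} {f : ℝ → ℝ → Cell → ℝ → ℝ} {g : ℝ → ℝ}

/-- the nodes increase -/
def Inc (x1 : ℝ) (ca ba : ℕ) (c : Cell) : Prop := pos x1 ca ba < pos x1 c.cz c.bz

theorem first_le_last {cs : List Cell} {ca ba : ℕ} (h : AllC (Inc x1) cs ca ba) :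
    pos x1 ca ba ≤ pos x1 (lastN cs ca ba).1 (lastN cs ca ba).2 := by
  induction cs generalizing ca ba with
  | nil => exact le_rfl
  | cons c cs ih => exact (le_of_lt h.1).trans (ih h.2)

theorem allC_between {cs : List Cell} {ca ba : ℕ} (h : AllC (Inc x1) cs ca ba) :
    AllC (fun a b c => pos x1 ca ba ≤ pos x1 a b ∧
      pos x1 c.cz c.bz ≤ pos x1 (lastN cs ca ba).1 (lastN cs ca ba).2) cs ca ba := by
  induction cs generalizing ca ba with
  | nil => trivial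
  | cons c cs ih =>
    exact ⟨⟨le_rfl, first_le_last h.2⟩,
      (ih h.2).mono fun a b d hd => ⟨(le_of_lt h.1).trans hd.1, hd.2⟩⟩

theorem pw_cell {cs : List Cell} {ca ba : ℕ} (h : AllC (Inc x1) cs ca ba) :
    AllC (fun a b c => ∀ t ∈ Ioc (pos x1 a b) (pos x1 c.cz c.bz),
      pw x1 f g cs ca ba t = f (pos x1 a b) (pos x1 c.cz c.bz) c t) cs ca ba := by
  induction cs generalizing ca ba with
  | nil => trivial
  | cons c cs ih =>
    refine ⟨fun t ht => if_pos ht.2, ((ih h.2).and (allC_between h.2)).mono ?_⟩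
    intro a b d hd t ht
    exact (if_neg (not_le.2 (hd.2.1.trans_lt ht.1))).trans (hd.1 t ht)

theorem pw_beyond {cs : List Cell} {ca ba : ℕ} (h : AllC (Inc x1) cs ca ba) {t : ℝ}
    (ht : pos x1 (lastN cs ca ba).1 (lastN cs ca ba).2 < t) : pw x1 f g cs ca ba t = g t := by
  induction cs generalizing ca ba with
  | nil => rfl
  | cons c cs ih =>
    exact (if_neg (not_le.2 ((first_le_last h.2).trans_lt ht))).trans (ih h.2 ht)

theorem measurable_pw (hf : ∀ a b c, Measurable (f a b c)) (hg : Measurable g) (cs : List Cell)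
    (ca ba : ℕ) : Measurable (pw x1 f g cs ca ba) := by
  induction cs generalizing ca ba with
  | nil => exact hg
  | cons c cs ih =>
    exact Measurable.ite (measurableSet_le measurable_id measurable_const) (hf _ _ _) (ih _ _)

/-- a property that holds on every cell holds on the union -/
theorem allC_cover {P : ℝ → Prop} {cs : List Cell} {ca ba : ℕ}
    (h : AllC (fun a b c => ∀ t ∈ Ioc (pos x1 a b) (pos x1 c.cz c.bz), P t) cs ca ba) :
    ∀ t ∈ Ioc (pos x1 ca ba) (pos x1 (lastN cs ca ba).1 (lastN cs ca ba).2), P t := by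
  induction cs generalizing ca ba with
  | nil => exact fun t ht => absurd (ht.1.trans_le ht.2) (lt_irrefl _)
  | cons c cs ih =>
    intro t ht
    rcases le_or_gt t (pos x1 c.cz c.bz) with h1 | h1
    · exact h.1 t ⟨ht.1, h1⟩
    · exact ih h.2 t ⟨h1, ht.2⟩

/-- common bounds from bounds on every cell -/
theorem allC_bd {P : ℝ → ℝ → ℝ → Prop}
    (hP : ∀ b0 b1 b0' b1' t, b0' ≤ b0 → b1 ≤ b1' → P b0 b1 t → P b0' b1' t) {cs : List Cell}
    {ca ba : ℕ} (h : AllC (fun a b c => ∃ b0 b1, 0 < b0 ∧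
      ∀ t ∈ Ioc (pos x1 a b) (pos x1 c.cz c.bz), P b0 b1 t) cs ca ba) :
    ∃ b0 b1, 0 < b0 ∧
      ∀ t ∈ Ioc (pos x1 ca ba) (pos x1 (lastN cs ca ba).1 (lastN cs ca ba).2), P b0 b1 t := by
  induction cs generalizing ca ba with
  | nil => exact ⟨1, 0, one_pos, fun t ht => absurd (ht.1.trans_le ht.2) (lt_irrefl _)⟩
  | cons c cs ih =>
    obtain ⟨b0, b1, h0, h1⟩ := h.1
    obtain ⟨d0, d1, h2, h3⟩ := ih h.2
    refine ⟨min b0 d0, max b1 d1, lt_min h0 h2, fun t ht => ?_⟩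
    rcases le_or_gt t (pos x1 c.cz c.bz) with h4 | h4
    · exact hP _ _ _ _ _ (min_le_left _ _) (le_max_left _ _) (h1 t ⟨ht.1, h4⟩)
    · exact hP _ _ _ _ _ (min_le_right _ _) (le_max_right _ _) (h3 t ⟨h4, ht.2⟩)

theorem fit_glue_near {C : Cert} (l : ℝ → ℝ) (f n : ℝ → ℝ → Cell → ℝ → ℝ)
    (hn : AllC (Inc x1) C.ns C.na C.nb)
    (hf : C.far = true → AllC (Inc x1) C.fs C.lcz bz0 ∧
      pos x1 (lastN C.fs C.lcz bz0).1 (lastN C.fs C.lcz bz0).2 = pos x1 C.na C.nb) :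
    AllC (fun a b c => ∀ t ∈ Ioc (pos x1 a b) (pos x1 c.cz c.bz),
      C.glue x1 l f n t = n (pos x1 a b) (pos x1 c.cz c.bz) c t) C.ns C.na C.nb := by
  refine ((pw_cell (f := n) (g := fun _ => 1) hn).and (allC_between hn)).mono ?_
  intro a b c hc t ht
  unfold Cert.glue
  by_cases hfar : C.far = true
  · obtain ⟨h1, h2⟩ := hf hfar
    have h3 : pos x1 (lastN C.fs C.lcz bz0).1 (lastN C.fs C.lcz bz0).2 < t := by
      rw [h2]; exact hc.2.1.trans_lt ht.1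
    rw [if_pos hfar, if_neg (not_le.2 ((first_le_last h1).trans_lt h3)), pw_beyond h1 h3]
    exact hc.1 t ht
  · rw [if_neg hfar]
    exact hc.1 t ht

theorem fit_glue_far {C : Cert} (l : ℝ → ℝ) (f n : ℝ → ℝ → Cell → ℝ → ℝ) (hfar : C.far = true)
    (hf : AllC (Inc x1) C.fs C.lcz bz0) :
    AllC (fun a b c => ∀ t ∈ Ioc (pos x1 a b) (pos x1 c.cz c.bz),
      C.glue x1 l f n t = f (pos x1 a b) (pos x1 c.cz c.bz) c t) C.fs C.lcz bz0 := by
  refine ((pw_cell (f := f) (g := pw x1 n (fun _ => 1) C.ns C.na C.nb) hf).and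
    (allC_between hf)).mono ?_
  intro a b c hc t ht
  unfold Cert.glue
  rw [if_pos hfar, if_neg (not_le.2 (hc.2.1.trans_lt ht.1))]
  exact hc.1 t ht

theorem fit_glue_log {C : Cert} (l : ℝ → ℝ) (f n : ℝ → ℝ → Cell → ℝ → ℝ) (hfar : C.far = true)
    {t : ℝ} (ht : t ≤ pos x1 C.lcz bz0) : C.glue x1 l f n t = l t := by
  unfold Cert.glue
  rw [if_pos hfar, if_pos ht]

theorem fit_glue_meas (C : Cert) {l : ℝ → ℝ} {f n : ℝ → ℝ → Cell → ℝ → ℝ} (hl : Measurable l)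
    (hf : ∀ a b c, Measurable (f a b c)) (hn : ∀ a b c, Measurable (n a b c)) :
    Measurable (C.glue x1 l f n) := by
  have h1 : Measurable (pw x1 n (fun _ => 1) C.ns C.na C.nb) :=
    measurable_pw hn measurable_const _ _ _
  unfold Cert.glue
  by_cases hfar : C.far = true
  · simp only [if_pos hfar]
    exact Measurable.ite (measurableSet_le measurable_id measurable_const) hl
      (measurable_pw hf h1 _ _ _)
  · simp only [if_neg hfar]
    exact h1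

theorem fit_three {C : Cert} {F : Fam} {P : ℝ → Prop}
    (h1 : C.far = true → ∀ t ∈ Ioc F.x1 (C.xl F), P t)
    (h2 : C.far = true → ∀ t ∈ Ioc (C.xl F) (C.xf F), P t)
    (h3 : ∀ t ∈ Ioc (C.xf F) F.xc, P t) : ∀ t ∈ Ioc F.x1 F.xc, P t := by
  intro t ht
  rcases le_or_gt t (C.xf F) with h4 | h4
  · by_cases hfar : C.far = true
    · rcases le_or_gt t (C.xl F) with h5 | h5
      · exact h1 hfar t ⟨ht.1, h5⟩
      · exact h2 hfar t ⟨h5, h4⟩
    · rw [Cert.xf, if_neg hfar] at h4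
      exact absurd (ht.1.trans_le h4) (lt_irrefl _)
  · exact h3 t ⟨h4, ht.2⟩

/-- the bounds that the standing assumptions ask for -/
def FitBd (F : Fam) (b0 b1 t : ℝ) : Prop :=
  b0 ≤ F.β t ∧ F.β t ≤ b1 ∧ |F.m t| ≤ b1 ∧ 0 ≤ F.r t ∧ F.r t ≤ b1

theorem fitBd_mono {F : Fam} (b0 b1 b0' b1' t : ℝ) (h0 : b0' ≤ b0) (h1 : b1 ≤ b1')
    (h : FitBd F b0 b1 t) : FitBd F b0' b1' t :=
  ⟨h0.trans h.1, h.2.1.trans h1, h.2.2.1.trans h1, h.2.2.2.1, h.2.2.2.2.trans h1⟩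

theorem fitBd_near {F : Fam} {lo a b : ℝ} {c : Cell} (h : NearC F lo a b c) (hr : 1 ≤ val c.rr) :
    ∃ b0 b1, 0 < b0 ∧ ∀ t ∈ Ioc a b, FitBd F b0 b1 t := by
  refine ⟨val c.bb / (b - a), max (val c.bb / (b - a)) (max |val c.m| (val c.rr)),
    div_pos h.bb_pos (sub_pos.2 h.lt), fun t ht => ?_⟩
  unfold FitBd
  rw [h.hβ t ht, h.hm t ht, h.hr t ht]
  exact ⟨le_rfl, le_max_left _ _, (le_max_left _ _).trans (le_max_right _ _),
    zero_le_one.trans hr, (le_max_right _ _).trans (le_max_right _ _)⟩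

theorem fitBd_far {F : Fam} {b2 mm xf lo a b : ℝ} {c : Cell} (h : FarC F b2 mm xf lo a b c) :
    ∃ b0 b1, 0 < b0 ∧ ∀ t ∈ Ioc a b, FitBd F b0 b1 t := by
  refine ⟨val c.bb / (b - a), max (val c.bb / (b - a) + b2) (max |val c.m| 1),
    div_pos h.bb_pos (sub_pos.2 h.lt), fun t ht => ?_⟩
  unfold FitBd
  rw [h.hβ t ht, h.hm t ht, h.hr t ht]
  have h1 := mul_pos h.b2_pos (kf_pos F.p t)
  have h2 := mul_le_of_le_one_right h.b2_pos.le (kf_le_one F.p t)
  exact ⟨by linarith, le_trans (by linarith) (le_max_left _ _),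
    (le_max_left _ _).trans (le_max_right _ _), zero_le_one,
    (le_max_right _ _).trans (le_max_right _ _)⟩

theorem fitBd_log {F : Fam} {b2 xf b bb v0 : ℝ} (hp : 0 < F.p) (h : LogC F b2 xf b bb v0) :
    ∃ b0 b1, 0 < b0 ∧ ∀ t ∈ Ioc F.x1 b, FitBd F b0 b1 t := by
  have h0 : 0 < v0 * F.p / 2 := div_pos (mul_pos h.v0_pos hp) two_pos
  have h3 := h.lt
  refine ⟨bb / (b - F.x1 + v0 * F.p / 2), max (bb / (v0 * F.p / 2) + b2) 1,
    div_pos h.bb_pos (by linarith), fun t ht => ?_⟩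
  unfold FitBd
  rw [h.hβ t ht, h.hm t ht, h.hr t ht, abs_zero]
  have h1 := mul_pos h.b2_pos (kf_pos F.p t)
  have h2 := mul_le_of_le_one_right h.b2_pos.le (kf_le_one F.p t)
  have h4 := ht.1
  have h5 := ht.2
  have h6 : bb / (b - F.x1 + v0 * F.p / 2) ≤ bb / (t - F.x1 + v0 * F.p / 2) :=
    div_le_div_of_nonneg_left h.bb_pos.le (by linarith) (by linarith)
  have h7 : bb / (t - F.x1 + v0 * F.p / 2) ≤ bb / (v0 * F.p / 2) :=
    div_le_div_of_nonneg_left h.bb_pos.le h0 (by linarith)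
  exact ⟨by linarith, le_trans (by linarith) (le_max_left _ _),
    zero_le_one.trans (le_max_right _ _), zero_le_one, le_max_right _ _⟩

theorem fit_env_near {F : Fam} {K1 mm lo a b : ℝ} {c : Cell} (hp : 0 < F.p) (hK : F.k1 ≤ K1)
    (h : NearC F lo a b c) (hs : StN F K1 mm a b c) :
    ∀ t ∈ Ioc a b, ∀ ξ ∈ Icc F.x1 t, F.k1 ≤ F.r t * kf F.p ξ := by
  intro t ht ξ hξ
  rw [h.hr t ht]
  have h1 : kf F.p ξ ≤ val c.rr * kf F.p ξ := le_mul_of_one_le_left (kf_pos _ _).le hs.rr_ge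
  rcases hs.env with h2 | h2
  · exact (kf_mono hp hξ.1 (hξ.2.trans (ht.2.trans h2))).trans h1
  · rcases min_le_iff.1 (min_le_kf hp hξ.1 (hξ.2.trans ht.2)) with h3 | h3
    · exact le_trans h3 h1
    · exact hK.trans (h2.trans (mul_le_mul_of_nonneg_left h3 (zero_le_one.trans hs.rr_ge)))

theorem fit_ok {C : Cert} {p τ vh : ℝ} {h : HV} (hwf : C.wf = true)
    (hh : HeadOk C (C.fam p τ vh) h) (hs : Stat C (C.fam p τ vh) h) (hg : StG C (C.fam p τ vh) h) :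
    Fit C (C.fam p τ vh) := by
  simp only [Cert.wf, Bool.and_eq_true, Nat.beq_eq] at hwf
  obtain ⟨⟨⟨⟨-, w1⟩, w2⟩, w3⟩, w4⟩ := hwf
  set F := C.fam p τ vh with hF
  have hp : 0 < F.p := hh.p_pos
  have hx : F.x1 < 0 := neg_lt_zero.2 (div_pos hh.τ_pos hp)
  have hxf := hh.xf_neg
  have incN : AllC (Inc F.x1) C.ns C.na C.nb := hs.near.mono fun _ _ _ hc => hc.lt
  have incF : C.far = true → AllC (Inc F.x1) C.fs C.lcz bz0 :=
    fun hfar => (hs.far hfar).mono fun _ _ _ hc => hc.lt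
  have nf : pos F.x1 C.na C.nb = C.xf F := by
    unfold Cert.na Cert.nb Cert.xf pos
    cases C.far <;> simp [val_bias, val_one]
  have nl : pos F.x1 (lastN C.ns C.na C.nb).1 (lastN C.ns C.na C.nb).2 = F.xc := by
    rw [w1, w2, pos, val_bias, zero_mul, add_zero]
    rfl
  have fl : C.far = true →
      pos F.x1 (lastN C.fs C.lcz bz0).1 (lastN C.fs C.lcz bz0).2 = C.xf F := by
    intro hfar
    rw [hfar, cond_true] at w4
    simp only [Bool.and_eq_true, Nat.beq_eq] at w4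
    rw [w4.1.1, w4.1.2, pos, val_bias, zero_mul, add_zero, Cert.xf, if_pos hfar]
  have xlf : C.far = true → C.xl F = pos F.x1 C.lcz bz0 := fun hfar => if_pos hfar
  have x1l : C.far = true → F.x1 < C.xl F := by
    intro hfar
    have h1 := (hs.log hfar).lt
    rw [xlf hfar, pos, val_bias, zero_add]
    nlinarith
  have x1le : F.x1 ≤ C.xl F := by
    by_cases hfar : C.far = true
    · exact (x1l hfar).le
    · rw [Cert.xl, if_neg hfar]
  have xle : C.xl F ≤ C.xf F := by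
    by_cases hfar : C.far = true
    · rw [xlf hfar, ← fl hfar]
      exact first_le_last (incF hfar)
    · rw [Cert.xl, Cert.xf, if_neg hfar, if_neg hfar]
  have hK : F.k1 ≤ h.K1 := (kf_mono hp (x1le.trans xle) hxf.le).trans hh.K1
  have gf : C.far = true → AllC (Inc F.x1) C.fs C.lcz bz0 ∧
      pos F.x1 (lastN C.fs C.lcz bz0).1 (lastN C.fs C.lcz bz0).2 = pos F.x1 C.na C.nb :=
    fun hfar => ⟨incF hfar, (fl hfar).trans nf.symm⟩
  have near : AllC (atN F (NearC F (C.xl F))) C.ns C.na C.nb := by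
    refine (((hs.near.and (allC_between incN)).and (fit_glue_near
      (fun t => val C.lbb / (t - F.x1 + val C.v0 * p / 2) + val C.b2 * kf p t)
      (fun a b c t => val c.bb / (b - a) + val C.b2 * kf p t)
      (fun a b c _ => val c.bb / (b - a)) incN gf)).and
      ((fit_glue_near (fun _ => 0) (fun _ _ c _ => val c.m) (fun _ _ c _ => val c.m) incN gf).and
      (fit_glue_near (fun _ => 1) (fun _ _ _ _ => 1) (fun _ _ c _ => val c.rr) incN gf))).mono ?_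
    rintro a b c ⟨⟨⟨h1, h2, h3⟩, h4⟩, h5, h6⟩
    rw [nf] at h2
    rw [nl] at h3
    exact ⟨x1le.trans (xle.trans h2), xle.trans h2, h1.lt, h3, h1.bb_pos, h4, h5, h6⟩
  have far : C.far = true →
      AllC (atN F (FarC F (val C.b2) (val C.mm) (C.xf F) (C.xl F))) C.fs C.lcz bz0 := by
    intro hfar
    refine ((((hs.far hfar).and (allC_between (incF hfar))).and (fit_glue_far
      (fun t => val C.lbb / (t - F.x1 + val C.v0 * p / 2) + val C.b2 * kf p t)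
      (fun a b c t => val c.bb / (b - a) + val C.b2 * kf p t)
      (fun a b c _ => val c.bb / (b - a)) hfar (incF hfar))).and
      ((fit_glue_far (fun _ => 0) (fun _ _ c _ => val c.m) (fun _ _ c _ => val c.m) hfar
        (incF hfar)).and
      (fit_glue_far (fun _ => 1) (fun _ _ _ _ => 1) (fun _ _ c _ => val c.rr) hfar
        (incF hfar)))).mono ?_
    rintro a b c ⟨⟨⟨h1, h2, h3⟩, h4⟩, h5, h6⟩
    rw [← xlf hfar] at h2
    rw [fl hfar] at h3
    exact ⟨x1le.trans h2, h2, h1.lt, h3, hxf.le, h1.bb_pos, hg.b2_pos, h1.m_nonneg, h1.m_le,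
      h4, h5, h6⟩
  have log : C.far = true → LogC F (val C.b2) (C.xf F) (C.xl F) (val C.lbb) (val C.v0) := by
    intro hfar
    have h1 := hs.log hfar
    exact ⟨x1l hfar, xle, hxf.le, h1.bb_pos, hg.b2_pos, h1.v0_pos,
      fun t ht => fit_glue_log
        (fun t => val C.lbb / (t - F.x1 + val C.v0 * p / 2) + val C.b2 * kf p t)
        (fun a b c t => val c.bb / (b - a) + val C.b2 * kf p t)
        (fun a b c _ => val c.bb / (b - a)) hfar (ht.2.trans_eq (xlf hfar)),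
      fun t ht => fit_glue_log (fun _ => 0) (fun _ _ c _ => val c.m) (fun _ _ c _ => val c.m) hfar
        (ht.2.trans_eq (xlf hfar)),
      fun t ht => fit_glue_log (fun _ => 1) (fun _ _ _ _ => 1) (fun _ _ c _ => val c.rr) hfar
        (ht.2.trans_eq (xlf hfar))⟩
  have mbd : ∀ t ∈ Ioc F.x1 F.xc, 0 ≤ F.m t ∧ F.m t ≤ val C.mm := by
    refine fit_three (C := C) (fun hfar t ht => ?_) (fun hfar => ?_) ?_
    · rw [(log hfar).hm t ht]
      exact ⟨le_rfl, hg.mm_nonneg⟩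
    · rw [← fl hfar, xlf hfar]
      refine allC_cover ((far hfar).mono fun a b c hc t ht => ?_)
      rw [FarC.hm hc t ht]
      exact ⟨FarC.m_nonneg hc, FarC.m_le hc⟩
    · rw [← nf, ← nl]
      refine allC_cover ((near.and hs.near).mono fun a b c hc t ht => ?_)
      rw [NearC.hm hc.1 t ht]
      exact ⟨StN.m_nonneg hc.2, StN.m_le hc.2⟩
  have env : ∀ t ∈ Ioc F.x1 F.xc, ∀ ξ ∈ Icc F.x1 t, F.k1 ≤ F.r t * kf F.p ξ := by
    refine fit_three (C := C) (fun hfar t ht ξ hξ => ?_) (fun hfar => ?_) ?_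
    · rw [(log hfar).hr t ht, one_mul]
      exact kf_mono hp hξ.1 (hξ.2.trans (ht.2.trans (xle.trans hxf.le)))
    · rw [← fl hfar, xlf hfar]
      refine allC_cover ((far hfar).mono fun a b c hc t ht ξ hξ => ?_)
      rw [FarC.hr hc t ht, one_mul]
      exact kf_mono hp hξ.1 (hξ.2.trans (ht.2.trans ((FarC.le_xf hc).trans hxf.le)))
    · rw [← nf, ← nl]
      exact allC_cover ((near.and hs.near).mono fun a b c hc => fit_env_near hp hK hc.1 hc.2)
  have bd : ∃ b0 b1 : ℝ, 0 < b0 ∧ ∀ t ∈ Ioc F.x1 F.xc, FitBd F b0 b1 t := by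
    obtain ⟨n0, n1, hn, hn'⟩ := allC_bd (x1 := F.x1) fitBd_mono
      ((near.and hs.near).mono fun a b c hc => fitBd_near hc.1 (StN.rr_ge hc.2))
    rw [nf, nl] at hn'
    by_cases hfar : C.far = true
    · obtain ⟨f0, f1, hf, hf'⟩ := allC_bd (x1 := F.x1) fitBd_mono
        ((far hfar).mono fun a b c hc => fitBd_far hc)
      rw [fl hfar, ← xlf hfar] at hf'
      obtain ⟨l0, l1, hl, hl'⟩ := fitBd_log hp (log hfar)
      refine ⟨min n0 (min f0 l0), max n1 (max f1 l1), lt_min hn (lt_min hf hl),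
        fit_three (C := C) (fun _ t ht => ?_) (fun _ t ht => ?_) fun t ht => ?_⟩
      · exact fitBd_mono _ _ _ _ _ ((min_le_right _ _).trans (min_le_right _ _))
          ((le_max_right _ _).trans (le_max_right _ _)) (hl' t ht)
      · exact fitBd_mono _ _ _ _ _ ((min_le_right _ _).trans (min_le_left _ _))
          ((le_max_left _ _).trans (le_max_right _ _)) (hf' t ht)
      · exact fitBd_mono _ _ _ _ _ (min_le_left _ _) (le_max_left _ _) (hn' t ht)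
    · exact ⟨n0, n1, hn, fit_three (C := C) (fun h1 => absurd h1 hfar) (fun h1 => absurd h1 hfar)
        hn'⟩
  have mk : Measurable (kf p) := (continuous_kf p).measurable
  have he := Real.exp_pos (97 / 2000 - 1 / 2000 * (C.n1 : ℝ))
  have hη : 0 ≤ val C.eta := le_trans (by positivity) hh.err.eta
  have hε : 0 ≤ val C.eps := le_trans (by positivity) hh.err.eps
  have ok : F.Ok := by
    refine ⟨hp, hh.p_le, hh.τ_pos, hh.ρ_pos, hη,
      mul_nonneg (mul_nonneg (by norm_num) hε) (div_pos hp hh.τ_pos).le, hg.q_pos, hg.bi_pos,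
      hg.bt_pos, hg.w_pos, hg.rc_ge, hK.trans hg.rc_env, ?_, ?_, ?_, bd, env⟩
    · refine fit_glue_meas C ?_ (fun a b c => ?_) fun _ _ _ => measurable_const
      · exact (measurable_const.div ((measurable_id.sub measurable_const).add
          measurable_const)).add (measurable_const.mul mk)
      · exact measurable_const.add (measurable_const.mul mk)
    · exact fit_glue_meas C measurable_const (fun _ _ _ => measurable_const)
        fun _ _ _ => measurable_const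
    · exact fit_glue_meas C measurable_const (fun _ _ _ => measurable_const)
        fun _ _ _ => measurable_const
  exact ⟨ok, rfl, rfl, rfl, rfl, x1le, xle, hxf, near, nf, nl, far, fl, log, mbd, hg.mm_nonneg,
    hg.mi_nonneg, hg.b2_pos, hg.q_le, w3⟩

end Pool.Agent.Eps.T
end
end

-- part Pool.Agent.Lib.MP_3bda03_nt.T.Glo
section

/-! The end of the data phase. -/

set_option autoImplicit false

noncomputable section

open MeasureTheory Set

namespace Pool.Agent.Eps.T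

variable {C : Cert} {p τ vh : ℝ} {h : HV} {r : Ck} {d : List ℝ}

theorem glo_qc_pos {F : Fam} (hF : F.Ok) : 0 < F.qc := by
  have h1 := hF.q_pos
  have h2 := hF.p_pos
  linarith

theorem glo_xc_pos {F : Fam} (hF : F.Ok) : 0 < F.xc :=
  (qf_pos_iff hF.p_pos).1 (glo_qc_pos hF)

theorem glo_lam_x1 {F : Fam} (hF : F.Ok) : F.lam * F.x1 = -1 := by
  have h1 := hF.p_pos.ne'
  have h2 := hF.τ_pos.ne'
  unfold Fam.lam Fam.x1
  field_simp

theorem glo_Ep_same (F : Fam) (a : ℝ) : F.Ep a a = 0 := by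
  unfold Fam.Ep
  exact intervalIntegral.integral_same

theorem glo_pos_of_mul {x y : ℝ} (hx : 0 < x) (h : 1 ≤ x * y) : 0 < y := by
  by_contra hy
  have hy' : y ≤ 0 := not_lt.1 hy
  have := mul_nonneg hx.le (neg_nonneg.2 hy')
  linarith

theorem glo_inv_le {x y : ℝ} (hy : 0 < y) (h : 1 ≤ x * y) : y⁻¹ ≤ x := by
  rw [inv_le_iff_one_le_mul₀ hy]
  exact h

theorem Fit.mem {F : Fam} (hF : Fit C F) :
    C.xl F ∈ Icc F.x1 F.xc ∧ C.xf F ∈ Icc F.x1 F.xc := by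
  have h0 := glo_xc_pos hF.ok
  have h1 := hF.x1_le
  have h2 := hF.xl_le
  have h3 := hF.xf_neg
  exact ⟨⟨h1, by linarith⟩, ⟨by linarith, by linarith⟩⟩

theorem glo_near {F : Fam} (hF : F.Ok) {lo : ℝ} (cs : List Cell) : ∀ ca ba : ℕ,
    AllC (atN F (NearC F lo)) cs ca ba → pos F.x1 ca ba ∈ Icc F.x1 F.xc →
    pos F.x1 (lastN cs ca ba).1 (lastN cs ca ba).2 ∈ Icc F.x1 F.xc ∧
    F.Ep (pos F.x1 ca ba) (pos F.x1 (lastN cs ca ba).1 (lastN cs ca ba).2) =
      sumC (atN F (costN F)) cs ca ba := by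
  induction cs with
  | nil =>
    intro ca ba _ hm
    exact ⟨hm, glo_Ep_same F _⟩
  | cons c cs ih =>
    intro ca ba hA hm
    obtain ⟨hc, hA⟩ := hA
    have hc' : NearC F lo (pos F.x1 ca ba) (pos F.x1 c.cz c.bz) c := hc
    have hm' : pos F.x1 c.cz c.bz ∈ Icc F.x1 F.xc := ⟨hm.1.trans hc'.lt.le, hc'.le_xc⟩
    obtain ⟨hl, he⟩ := ih c.cz c.bz hA hm'
    refine ⟨hl, ?_⟩
    have hadd := hF.Ep_add hm hm' hl
    have hcell := hc'.Ep_eq hF
    show F.Ep (pos F.x1 ca ba) (pos F.x1 (lastN cs c.cz c.bz).1 (lastN cs c.cz c.bz).2) =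
      costN F (pos F.x1 ca ba) (pos F.x1 c.cz c.bz) c + sumC (atN F (costN F)) cs c.cz c.bz
    rw [← hadd, hcell, he]

theorem glo_far {F : Fam} (hF : F.Ok) {b2 mm xf lo : ℝ} (cs : List Cell) : ∀ ca ba : ℕ,
    AllC (atN F (FarC F b2 mm xf lo)) cs ca ba → pos F.x1 ca ba ∈ Icc F.x1 F.xc →
    pos F.x1 (lastN cs ca ba).1 (lastN cs ca ba).2 ∈ Icc F.x1 F.xc ∧
    F.Ep (pos F.x1 ca ba) (pos F.x1 (lastN cs ca ba).1 (lastN cs ca ba).2) ≤
      sumC (atN F (costF F)) cs ca ba +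
        b2 * F.Kx (pos F.x1 ca ba) (pos F.x1 (lastN cs ca ba).1 (lastN cs ca ba).2) *
          ((1 + F.η) * (2 + mm ^ 2) + F.eh) := by
  have h0 := glo_xc_pos hF
  induction cs with
  | nil =>
    intro ca ba _ hm
    refine ⟨hm, ?_⟩
    show F.Ep (pos F.x1 ca ba) (pos F.x1 ca ba) ≤ 0 +
      b2 * F.Kx (pos F.x1 ca ba) (pos F.x1 ca ba) * ((1 + F.η) * (2 + mm ^ 2) + F.eh)
    rw [glo_Ep_same, Fam.Kx_same]
    simp
  | cons c cs ih =>
    intro ca ba hA hm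
    obtain ⟨hc, hA⟩ := hA
    have hc' : FarC F b2 mm xf lo (pos F.x1 ca ba) (pos F.x1 c.cz c.bz) c := hc
    have hm' : pos F.x1 c.cz c.bz ∈ Icc F.x1 F.xc :=
      ⟨hm.1.trans hc'.lt.le, (hc'.le_xf.trans hc'.xf_le).trans h0.le⟩
    obtain ⟨hl, he⟩ := ih c.cz c.bz hA hm'
    refine ⟨hl, ?_⟩
    have hadd := hF.Ep_add hm hm' hl
    have hcell := hc'.Ep_le hF
    have hK := F.Kx_add (pos F.x1 ca ba) (pos F.x1 c.cz c.bz)
      (pos F.x1 (lastN cs c.cz c.bz).1 (lastN cs c.cz c.bz).2)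
    show F.Ep (pos F.x1 ca ba) (pos F.x1 (lastN cs c.cz c.bz).1 (lastN cs c.cz c.bz).2) ≤
      costF F (pos F.x1 ca ba) (pos F.x1 c.cz c.bz) c + sumC (atN F (costF F)) cs c.cz c.bz +
        b2 * F.Kx (pos F.x1 ca ba) (pos F.x1 (lastN cs c.cz c.bz).1 (lastN cs c.cz c.bz).2) *
          ((1 + F.η) * (2 + mm ^ 2) + F.eh)
    rw [← hadd, ← hK]
    linarith

theorem cost_near {F : Fam} (hF : Fit C F) :
    F.Ep (C.xf F) F.xc = sumC (atN F (costN F)) C.ns C.na C.nb := by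
  have h1 := (glo_near hF.ok C.ns C.na C.nb hF.near (by rw [hF.near_first]; exact hF.mem.2)).2
  rwa [hF.near_first, hF.near_last] at h1

theorem glo_xl {F : Fam} (hf : C.far = true) : pos F.x1 C.lcz bz0 = C.xl F := by
  unfold Cert.xl
  rw [if_pos hf]

theorem cost_far {F : Fam} (hF : Fit C F) (hf : C.far = true) :
    F.Ep (C.xl F) (C.xf F) ≤ sumC (atN F (costF F)) C.fs C.lcz bz0 +
      val C.b2 * F.Kx (C.xl F) (C.xf F) * ((1 + F.η) * (2 + val C.mm ^ 2) + F.eh) := by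
  have h1 := (glo_far hF.ok C.fs C.lcz bz0 (hF.far hf) (by rw [glo_xl hf]; exact hF.mem.1)).2
  rwa [glo_xl hf, hF.far_last hf] at h1

theorem cost_all {F : Fam} (hF : Fit C F) (hs : Stat C F h) :
    F.Ep F.x1 F.xc ≤ C.cost F +
      val C.b2 * F.Kx F.x1 (C.xf F) * ((1 + F.η) * (2 + val C.mm ^ 2) + F.eh) := by
  obtain ⟨hl, hx⟩ := hF.mem
  have h1 : F.x1 ∈ Icc F.x1 F.xc := ⟨le_rfl, hl.1.trans hl.2⟩
  have hc : F.xc ∈ Icc F.x1 F.xc := ⟨hl.1.trans hl.2, le_rfl⟩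
  have hn := cost_near hF
  have ha := hF.ok.Ep_add h1 hx hc
  by_cases hf : C.far = true
  · have hfar := cost_far hF hf
    have hS := hs.log hf
    have hlam : F.lam * (C.xl F - F.x1) = 1 - val C.lcz := by
      have h2 := glo_lam_x1 hF.ok
      have h3 : val bz0 = 0 := val_bias
      rw [← glo_xl hf, pos, h3]
      linear_combination (val C.lcz - 1) * h2
    have hlog := (hF.log hf).Ep_le hF.ok hF.eh hS.gl_nonneg (by rw [hlam]; exact hS.gl)
      (val C.mm)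
    rw [hlam] at hlog
    have hb := hF.ok.Ep_add h1 hl hx
    have hK := F.Kx_add F.x1 (C.xl F) (C.xf F)
    unfold Cert.cost Cert.costL
    rw [if_pos hf, ← hK, ← ha, ← hb, hn]
    linarith
  · have hx1 : C.xf F = F.x1 := by
      unfold Cert.xf
      rw [if_neg hf]
    unfold Cert.cost
    rw [if_neg hf, ← hn, hx1, Fam.Kx_same]
    simp

theorem glo_KB {F : Fam} (hF : Fit C F) (hh : HeadOk C F h) : F.Kx F.x1 (C.xf F) ≤ h.KB := by
  by_cases hf : C.far = true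
  · have h1 := interval_kf_le hh.p_pos hF.mem.2.1
    have h2 := hh.KB hf
    have hx : C.xf F = val C.bf := by
      unfold Cert.xf
      rw [if_pos hf]
    rw [← hx] at h2
    exact h1.trans h2
  · have hx1 : C.xf F = F.x1 := by
      unfold Cert.xf
      rw [if_neg hf]
    rw [hx1, Fam.Kx_same]
    exact hh.KB_nonneg

theorem glo_Eq2 {F : Fam} (hF : F.Ok) {iq iq2 rT : ℝ} (h1 : F.qc⁻¹ ≤ iq)
    (h2 : (2 * F.qc - F.p)⁻¹ ≤ iq2) (h3 : F.k1 / F.kc ≤ rT) :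
    F.Eq2 ≤ F.bi * ((1 + F.η) * (2 + (2 * F.xc + iq) * F.lam + F.mi ^ 2) + F.eh * F.rc ^ 2) +
      F.bt * ((1 + F.η) * F.lam * Real.exp (F.p * F.xc) * iq * iq2 + F.eh * rT ^ 2 * F.w) := by
  have hq := glo_qc_pos hF
  have hq2 : 0 < 2 * F.qc - F.p := sub_pos.2 hF.q_pos
  have hlam : 0 < F.lam := div_pos hF.p_pos hF.τ_pos
  have he : 0 < 1 + F.η := by linarith [hF.η_nonneg]
  have hx := glo_lam_x1 hF
  have hk : 0 ≤ F.k1 / F.kc := div_nonneg (kf_pos _ _).le (kf_pos _ _).le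
  have hi : 0 < F.qc⁻¹ := inv_pos.2 hq
  have hi2 : 0 < (2 * F.qc - F.p)⁻¹ := inv_pos.2 hq2
  have a1 : 2 * F.lam * (F.xc - F.x1) + F.lam / F.qc + F.mi ^ 2 ≤
      2 + (2 * F.xc + iq) * F.lam + F.mi ^ 2 := by
    have := mul_le_mul_of_nonneg_left h1 hlam.le
    rw [div_eq_mul_inv]
    linarith
  have a2 : F.lam * Real.exp (F.p * F.xc) / (F.qc * (2 * F.qc - F.p)) ≤
      F.lam * Real.exp (F.p * F.xc) * (iq * iq2) := by
    rw [div_eq_mul_inv, mul_inv]
    exact mul_le_mul_of_nonneg_left (mul_le_mul h1 h2 hi2.le (hi.le.trans h1))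
      (mul_pos hlam (Real.exp_pos _)).le
  have a3 : (F.k1 / F.kc) ^ 2 ≤ rT ^ 2 := pow_le_pow_left₀ hk h3 2
  have b1 := mul_le_mul_of_nonneg_left a1 he.le
  have b2 := mul_le_mul_of_nonneg_left a2 he.le
  have b3 := mul_le_mul_of_nonneg_right (mul_le_mul_of_nonneg_left a3 hF.eh_nonneg) hF.w_pos.le
  unfold Fam.Eq2
  refine add_le_add (mul_le_mul_of_nonneg_left (by linarith) hF.bi_pos.le)
    (mul_le_mul_of_nonneg_left (by linarith) hF.bt_pos.le)

theorem glb_ok (hwf : C.wf = true) (hh : HeadOk C (C.fam p τ vh) h)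
    (hs : Stat C (C.fam p τ vh) h)
    (H : (C.glb r).holds (C.cost (C.fam p τ vh) :: h.l (C.fam p τ vh)) d) :
    Fit C (C.fam p τ vh) ∧ ∃ g : GV, Glob C (C.fam p τ vh) g ∧ r.holds (g.l (C.fam p τ vh)) d := by
  have exc : (C.fam p τ vh).xc = val C.xc := rfl
  have ebi : (C.fam p τ vh).bi = val C.bi := rfl
  have emi : (C.fam p τ vh).mi = val C.mi := rfl
  have erc : (C.fam p τ vh).rc = val C.rc := rfl
  have ebt : (C.fam p τ vh).bt = val C.bt := rfl
  have ew : (C.fam p τ vh).w = val C.w := rfl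
  have hfit : StG C (C.fam p τ vh) h → Fit C (C.fam p τ vh) := fit_ok hwf hh hs
  generalize C.fam p τ vh = F at *
  unfold Cert.glb HV.l at H
  obtain ⟨l, qc, ep, rfl, rfl, rfl, kc, rfl, h1, h2, h3, h4, h5, h6, iq, hiq, h7, ibi, hibi, h8,
    ik, hik, h9, rT, h10, iq2, hiq2, h11, iT, hiT, h12, ib2, hib2, h13, i2, rfl, Wm, rfl, Lam, rfl,
    H⟩ := glob_spec hh.p_pos H
  rw [← exc, ← ebi, ← emi, ← erc, ← ebt, ← ew] at H
  rw [← exc] at h1 h6 h7 h9 h11
  rw [← erc] at h1 h2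
  rw [← emi] at h3
  rw [← ew] at h5 h6 h12
  rw [← ebi] at h8
  rw [← ebt] at h12
  have eq : qf F.p F.xc = F.qc := rfl
  have ek : Real.exp (lk F.p F.xc) = F.kc := rfl
  rw [eq, ek] at H
  rw [ek] at h1 h9
  rw [eq] at h6 h7 h11
  have hq2 : 0 < 2 * F.qc - F.p := glo_pos_of_mul hiq2 h11
  have hb2 : 0 < val C.b2 := glo_pos_of_mul hib2 h13
  have hbt : 0 < F.bt := by
    have h14 := glo_pos_of_mul hiT h12
    exact (mul_pos_iff_of_pos_right (pow_pos h5 2)).1 h14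
  have hF : Fit C F := hfit ⟨h1, h2, h3, h4, h5, h6, sub_pos.1 hq2, glo_pos_of_mul hibi h8, hbt, hb2⟩
  have hq := glo_qc_pos hF.ok
  have hkc : 0 < F.kc := kf_pos _ _
  have hKB := glo_KB hF hh
  have hk1 : F.k1 ≤ h.K1 := (kf_mono hh.p_pos hF.mem.2.1 hh.xf_neg.le).trans hh.K1
  have hk0 : 0 < F.k1 := kf_pos _ _
  have hi := glo_inv_le hq h7
  have hrT : F.k1 / F.kc ≤ rT := by
    rw [div_eq_mul_inv]
    exact (mul_le_mul hk1 (glo_inv_le hkc h9) (inv_pos.2 hkc).le (hk0.le.trans hk1)).trans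
      ((le_abs_self _).trans h10)
  have hE := glo_Eq2 hF.ok hi (glo_inv_le hq2 h11) hrT
  have hC := cost_all hF hs
  have hw : 0 ≤ (1 + F.η) * (2 + val C.mm ^ 2) + F.eh := by
    have := hF.ok.η_nonneg
    have := hF.ok.eh_nonneg
    positivity
  have hC2 := mul_le_mul_of_nonneg_right (mul_le_mul_of_nonneg_left hKB hb2.le) hw
  refine ⟨hF, ⟨h.KB, _, ibi, iT, h.KB * ib2, (1 + F.w * iq) ^ 2, h.srU, h.B1, h.Bp, h.EA, h.EB⟩,
    ⟨hKB, ?_, hh.err.lf_pos, h8, h12, ?_, ?_, hh.srU, hh.B1_nonneg, hh.B1, ?_, hh.EA, hh.EB⟩, H⟩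
  · refine mul_le_mul_of_nonneg_left ?_ (mul_pos two_pos hh.err.lf_pos).le
    linarith
  · show F.Kx F.x1 (C.xf F) / val C.b2 ≤ h.KB * ib2
    rw [div_eq_mul_inv]
    exact mul_le_mul hKB (glo_inv_le hb2 h13) (inv_pos.2 hb2).le hh.KB_nonneg
  · show (1 + F.w / F.qc) ^ 2 ≤ (1 + F.w * iq) ^ 2
    have h14 : 0 ≤ F.w / F.qc := div_nonneg h5.le hq.le
    refine pow_le_pow_left₀ (by linarith) ?_ 2
    rw [div_eq_mul_inv]
    have := mul_le_mul_of_nonneg_left hi h5.le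
    linarith
  · show F.k1 * F.p * (50 / 39) ≤ h.Bp
    have h14 := mul_le_mul_of_nonneg_right hk1 hh.p_pos.le
    have h15 := mul_pos hk0 hh.p_pos
    have h16 := hh.Bp
    linarith

theorem dataB_ok (hwf : C.wf = true) (hB : Base C p τ vh)
    (H : (C.head (C.datB r)).holds [p] []) :
    Err C ∧ Fit C (C.fam p τ vh) ∧ ∃ (g : GV) (d : List ℝ) (ke : ℝ), Glob C (C.fam p τ vh) g ∧
      C.TpB (C.fam p τ vh) d ∧ kf p (val C.xe) ≤ ke ∧
      r.holds (ke :: qf p (val C.xe) :: g.l (C.fam p τ vh)) d := by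
  obtain ⟨h, hh, H⟩ := head_ok hB H
  obtain ⟨hs, d, hT, H⟩ := cellsB_ok hwf hh H
  obtain ⟨hF, g, hg, H⟩ := glb_ok hwf hh hs H
  unfold GV.l at H
  obtain ⟨l, qe, ep, rfl, rfl, rfl, ke, hke, H⟩ := globE_spec hh.p_pos H
  exact ⟨hh.err, hF, g, d, ke, hg, hT, (le_abs_self _).trans hke, H⟩

theorem dataF_ok (hwf : C.wf = true) (hB : Base C p τ vh)
    (H : (C.head (C.datFw r)).holds [p] []) :
    Err C ∧ Fit C (C.fam p τ vh) ∧ ∃ (g : GV) (d : List ℝ), Glob C (C.fam p τ vh) g ∧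
      C.TpW (C.fam p τ vh) d ∧ r.holds (g.l (C.fam p τ vh)) d := by
  obtain ⟨h, hh, H⟩ := head_ok hB H
  obtain ⟨hs, d, hT, H⟩ := cellsF_ok hwf hh H
  obtain ⟨hF, g, hg, H⟩ := glb_ok hwf hh hs H
  exact ⟨hh.err, hF, g, d, hg, hT, H⟩

end Pool.Agent.Eps.T
end
end

-- part Pool.Agent.Lib.MP_3bda03_nt.T.EndF
section

/-! The steps of the forward modes: start, tail, end. -/

set_option autoImplicit false

noncomputable section

open MeasureTheory Set

namespace Pool.Agent.Eps.T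

variable {C : Cert} {F : Fam} {g : GV} {α z J I M : ℝ} {r : Ck} {s d : List ℝ}

/-- the anchor bound -/
theorem jj_le (h : F.Ok) (hα : α = z * F.lam) {μ δ pd eU y : ℝ} (h1 : |F.p * δ| ≤ pd) (h2 : pd ≤ 1)
    (h3 : (1 / 2 * δ - μ) * F.lam ≤ 1) (h4 : |Real.exp (F.p * μ)| ≤ eU) (h5 : 0 < y)
    (h6 : 1 ≤ y * δ) :
    F.jj α ≤ Real.exp (1 / 24 * eU * (1 + pd) * δ ^ 2 - z - α * μ - lk F.p μ) * y := by
  have hp := h.p_pos
  have hτ := h.τ_pos
  have hδ : 0 < δ := (pos_iff_pos_of_mul_pos (one_pos.trans_le h6)).1 h5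
  have e1 : α * F.x1 = -z := by
    rw [hα, Fam.lam, Fam.x1]
    field_simp
  have e2 : F.x1 ≤ μ - δ / 2 := by
    rw [Fam.lam, ← mul_div_assoc, div_le_one hτ] at h3
    rw [Fam.x1, neg_le, le_div_iff₀ hp]
    linarith
  have e3 : Real.exp (F.p * (μ + δ / 2)) ≤ eU * (1 + pd) := by
    have k1 := (le_abs_self _).trans h1
    rw [mul_add, Real.exp_add, ← mul_div_assoc]
    exact mul_le_mul ((le_abs_self _).trans h4) ((a1_half (by positivity) (k1.trans h2)).trans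
      (by linarith)) (Real.exp_pos _).le ((abs_nonneg _).trans h4)
  have e4 := At_ge hp α hδ e2
  have e5 : Real.exp (α * μ + lk F.p μ - 1 / 24 * eU * (1 + pd) * δ ^ 2) ≤ y * At F.p α F.x1 := by
    refine le_trans ?_ (mul_le_mul_of_nonneg_left e4 h5.le)
    rw [← mul_assoc]
    refine le_trans (Real.exp_le_exp.2 ?_) (le_mul_of_one_le_left (Real.exp_pos _).le h6)
    have := mul_le_mul_of_nonneg_right e3 (sq_nonneg δ)
    linarith
  rw [Fam.jj, inv_le_iff_one_le_mul₀ (Af_pos hp _ _), Af, e1, neg_neg]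
  calc (1 : ℝ) = Real.exp (1 / 24 * eU * (1 + pd) * δ ^ 2 - z - α * μ - lk F.p μ) * Real.exp z *
        Real.exp (α * μ + lk F.p μ - 1 / 24 * eU * (1 + pd) * δ ^ 2) := by
        rw [← Real.exp_add, ← Real.exp_add, ← Real.exp_zero]
        congr 1
        ring
    _ ≤ Real.exp (1 / 24 * eU * (1 + pd) * δ ^ 2 - z - α * μ - lk F.p μ) * Real.exp z *
        (y * At F.p α F.x1) := mul_le_mul_of_nonneg_left e5 (by positivity)
    _ = _ := by ring

theorem begF_ok (h : F.Ok) {z1 z2 mu dl mm : ℕ}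
    (H : (begF z1 z2 mu dl mm r).holds (g.l F) d) (h1 : val z1 ≤ z) (h2 : z ≤ val z2)
    (hz : 0 ≤ z) (hlt : F.p * (z * F.lam) < 1) :
    ∃ J : ℝ, CtxF F (z * F.lam) z J ∧
      r.holds (1 :: 2 * J ^ 2 * g.i2 :: -(2 * val mm * (14 / 5 * J)) :: z :: J :: 14 / 5 * J ::
        z * F.lam :: g.l F) d := by
  obtain ⟨_, rfl, _, _, _, rfl, rfl, rfl, pd, k1, k2, k3, eU, k4, y, k5, k6, J, k7, _, rfl, _, rfl,
    _, rfl, _, rfl, H⟩ := begF_spec h.p_pos H z h1 h2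
  exact ⟨J, ⟨hz, rfl, hlt, (jj_le h rfl k1 k2 k3 k4 k5 k6).trans ((le_abs_self _).trans k7)⟩, H⟩

theorem endf_xc (h : F.Ok) : 0 < F.qc ∧ 0 < F.xc ∧ F.x1 ≤ F.xc := by
  have h1 : 0 < F.qc := by linarith [h.p_pos, h.q_pos]
  have h2 := (qf_pos_iff h.p_pos).1 h1
  have h3 := div_pos h.τ_pos h.p_pos
  exact ⟨h1, h2, by rw [Fam.x1]; linarith⟩

/-- the tail constants of the forward modes -/
theorem tail_F (hF : Fit C F) (hα : 0 ≤ α) (hlt : F.p * α < 1) :
    F.Tl α (1 + (F.w + α) ^ 2 + (1 + α * Af F.p α F.xc) * (F.w + α) ^ 2) ∧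
      F.Tl (-α) ((1 + F.w / F.qc) ^ 2) := by
  have h := hF.ok
  exact ⟨fun t ht => tail_pos' h.p_pos hα (endf_xc h).2.1.le h.w_pos hF.q_le ht,
    fun t ht => tail_neg' h.p_pos hα hlt.le (endf_xc h).2.1 h.w_pos.le ht⟩

theorem endf_Rs (h : F.Ok) (hg : Glob C F g) {γ Θ j A B : ℝ} (hj : 0 ≤ j) (hΘ : 0 ≤ Θ)
    (hA : j * Af F.p γ F.xc ≤ A) (hB : j * Θ ≤ B) :
    j ^ 2 * F.Rs γ Θ ≤ A ^ 2 * g.ibi + A * B * g.iT := by
  have h1 : 0 ≤ j * Af F.p γ F.xc := mul_nonneg hj (Af_pos h.p_pos _ _).le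
  have h2 : 0 < F.bt * F.w ^ 2 := mul_pos h.bt_pos (pow_pos h.w_pos 2)
  have h3 : F.bi⁻¹ ≤ g.ibi := (inv_le_iff_one_le_mul₀ h.bi_pos).2 hg.ibi
  have h4 : (F.bt * F.w ^ 2)⁻¹ ≤ g.iT := (inv_le_iff_one_le_mul₀ h2).2 hg.iT
  have e : j ^ 2 * F.Rs γ Θ = (j * Af F.p γ F.xc) ^ 2 * F.bi⁻¹ +
      j * Af F.p γ F.xc * (j * Θ) * (F.bt * F.w ^ 2)⁻¹ := by
    rw [Fam.Rs]
    ring
  rw [e]
  exact add_le_add (mul_le_mul (pow_le_pow_left₀ h1 hA 2) h3 (inv_pos.2 h.bi_pos).le (sq_nonneg _))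
    (mul_le_mul (mul_le_mul hA hB (mul_nonneg hj hΘ) (h1.trans hA)) h4 (inv_pos.2 h2).le
      (mul_nonneg (h1.trans hA) ((mul_nonneg hj hΘ).trans hB)))

theorem tlF_ok (hF : Fit C F) (hg : Glob C F g) (hx : CtxF F α z J)
    (H : (tlF C.w r).holds (Real.exp (-(α * (F.xc - F.x1))) :: I :: M :: z :: J :: 14 / 5 * J ::
      α :: g.l F) d) :
    ∃ Θ₁ Θ₂ I' : ℝ, F.Tl α Θ₁ ∧ F.Tl (-α) Θ₂ ∧
      I + F.jj α ^ 2 * (F.Rs α Θ₁ + F.Rs (-α) Θ₂) ≤ I' ∧
      r.holds (F.p * α :: I' :: M :: J :: 14 / 5 * J :: g.l F) d := by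
  obtain ⟨EU, k1, A, k2, W, hW, _, rfl, _, rfl, H⟩ := tlF_spec H
  have h := hF.ok
  have hα : 0 ≤ α := hx.al ▸ mul_nonneg hx.z_nonneg (div_pos h.p_pos h.τ_pos).le
  obtain ⟨t1, t2⟩ := tail_F hF hα hx.lt
  have hj := (h.jj_pos α).le
  have hJ := hx.hJ
  have a1 : α ≤ A := (le_abs_self _).trans k2
  have a2 : F.jj α * Af F.p α F.xc ≤ EU :=
    (h.jj_Af_le α (endf_xc h).2.2).trans ((le_abs_self _).trans k1)
  have a3 : (F.w + α) ^ 2 ≤ W := by
    rw [hW, ← hF.w]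
    exact pow_le_pow_left₀ (add_nonneg h.w_pos.le hα) (by linarith) 2
  have a4 : F.jj α * (1 + (F.w + α) ^ 2 + (1 + α * Af F.p α F.xc) * (F.w + α) ^ 2) ≤
      J * (1 + W) + (J + A * EU) * W := by
    have b1 : α * (F.jj α * Af F.p α F.xc) ≤ A * EU :=
      mul_le_mul a1 a2 (mul_nonneg hj (Af_pos h.p_pos _ _).le) (hα.trans a1)
    have b0 : 0 ≤ α * (F.jj α * Af F.p α F.xc) :=
      mul_nonneg hα (mul_nonneg hj (Af_pos h.p_pos _ _).le)
    have b2 := mul_le_mul hJ (add_le_add_right a3 1) (by positivity) (hj.trans hJ)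
    have b3 := mul_le_mul (add_le_add hJ b1) a3 (sq_nonneg _) (by linarith)
    linarith
  have r1 := endf_Rs h hg hj (h.Tl_nonneg t1) a2 a4
  have r2 := endf_Rs h hg hj (h.Tl_nonneg t2) (h.jj_Af_neg_le hα hJ _)
    (mul_le_mul hJ hg.Wm (sq_nonneg _) (hj.trans hJ))
  have e : 2 * (z * (F.p * F.lam / 2)) = F.p * α := by
    rw [hx.al]
    ring
  refine ⟨_, _, _, t1, t2, ?_, e ▸ H⟩
  linarith

theorem shift_F (hF : Fit C F) (hα : 0 ≤ α) (hJ : F.jj α ≤ J) :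
    F.Sx α F.x1 F.xc - 2 * val C.mm * (14 / 5 * J) ≤ F.jj α * F.M2 α F.x1 F.xc := by
  have h := hF.ok
  have hj := (h.jj_pos α).le
  have h1 := mul_le_mul_of_nonneg_left
    (shift_pos_ge h.p_pos h.p_le hα (endf_xc h).2.2 hF.mm_nonneg h.mm hF.m_bd) hj
  have h2 := mul_le_mul_of_nonneg_left
    (shift_neg_ge h.p_pos h.p_le hα (endf_xc h).2.2 hF.mm_nonneg h.mm hF.m_bd) hj
  have h3 := mul_le_mul_of_nonneg_left hJ hF.mm_nonneg
  rw [mul_sub, ← mul_assoc, h.jj_mul, one_mul] at h1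
  simp only [Fam.M2, Fam.M1, Fam.Sx]
  linarith

theorem shift_U (hF : Fit C F) (hα : 0 ≤ α) (hJ : F.jj α ≤ J) :
    -(val C.mm * (14 / 5 * J)) ≤ F.jj α * F.M2 α F.x1 F.xc := by
  have h := hF.ok
  have hj := (h.jj_pos α).le
  have h1 := mul_nonneg hj
    (shift_nonneg h.p_pos hα (endf_xc h).2.2 fun t ht => (hF.m_bd t ht).1)
  have h2 := mul_le_mul_of_nonneg_left
    (shift_neg_ge h.p_pos h.p_le hα (endf_xc h).2.2 hF.mm_nonneg h.mm hF.m_bd) hj
  have h3 := mul_le_mul_of_nonneg_left hJ hF.mm_nonneg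
  simp only [Fam.M2, Fam.M1]
  linarith

theorem endf_div {E E' s s' A A' j x y : ℝ} (hE : 0 ≤ E) (h1 : E ≤ E') (hs : 0 ≤ s) (h2 : s ≤ s')
    (hA : 0 ≤ j * A) (h3 : j * A ≤ A') (hx : 0 < x) (h4 : 1 ≤ y * x) :
    j * (E * (2 * s) * A / x) ≤ 2 * s' * (E' * A' * y) := by
  have h5 : x⁻¹ ≤ y := (inv_le_iff_one_le_mul₀ hx).2 h4
  have h6 := mul_le_mul (mul_le_mul h1 h3 hA (hE.trans h1)) h5 (inv_pos.2 hx).le
    (mul_nonneg (hE.trans h1) (hA.trans h3))
  have h7 := mul_le_mul h2 h6 (by positivity) (hs.trans h2)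
  calc _ = 2 * (s * (E * (j * A) * x⁻¹)) := by ring
    _ ≤ _ := by linarith

theorem endf_end (hF : Fit C F) (hg : Glob C F g) (hα : 0 ≤ α) (hlt : F.p * α < 1)
    (hJ : F.jj α ≤ J) {Θ₁ Θ₂ μ m : ℝ} (h1 : F.Tl α Θ₁) (h2 : F.Tl (-α) Θ₂)
    (hI : F.jj α ^ 2 * (F.It α Θ₁ + F.It (-α) Θ₂) ≤ I) (hM : M ≤ F.jj α * F.M2 α F.x1 F.xc)
    (hμ : F.Mu α μ) (hm : F.jj α * μ ≤ 2 * g.srU * m)
    (H : (endF r).holds (m :: F.p * α :: I :: M :: J :: 14 / 5 * J :: g.l F) d) :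
    F.CritAt (val C.lf) α := by
  obtain ⟨y, y0, y1, Y, hY, Y0, Y1, -⟩ := endF_spec H
  have h := hF.ok
  have hp := h.p_pos
  have hj := h.jj_pos α
  have hk := kf_pos F.p F.x1
  have hs := Real.sqrt_nonneg F.ρ
  have hpa : 0 ≤ F.p * α := mul_nonneg hp.le hα
  have a1 := Af_pos hp α F.x1
  have a2 := Af_pos hp (-α) F.x1
  have hB := Bq_nonneg F.p F.x1
  have hk1 : 0 ≤ F.k1 * F.p * (50 / 39) := by
    rw [Fam.k1]
    positivity
  refine h.critAt hg.lf_pos hj h1 h2 hμ (.inl ⟨by linarith, le_rfl⟩) hg.Lam hI ?_ Y0 Y1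
  have b1 := endf_div (j := F.jj α) (A := Af F.p (-α) F.x1 + F.k1 * F.p * (50 / 39))
    (A' := 14 / 5 * J + J * g.Bp) (x := 39 / 50 - F.p * -α) (y := 1283 / 1000) h.EA_nonneg hg.EA hs
    hg.srU (by positivity) (by
      rw [mul_add]
      exact add_le_add (h.jj_Af_neg_le hα hJ _) (mul_le_mul hJ hg.Bp hk1 (hj.le.trans hJ)))
    (by linarith) (by linarith)
  have b2 : 2 * Real.sqrt F.ρ * y ≤ F.jj α * F.Dl α := by
    rw [Fam.Dl, ← mul_div_assoc, le_div_iff₀ (by linarith), mul_left_comm, mul_add, h.jj_mul,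
      mul_assoc]
    exact mul_le_mul_of_nonneg_left (y1.trans (le_add_of_nonneg_right (by positivity)))
      (by positivity)
  have b3 : 0 ≤ F.jj α * F.Dl (-α) :=
    mul_nonneg hj.le (div_nonneg (by positivity) (by linarith))
  have b4 := mul_nonneg hj.le (mul_nonneg hF.mi_nonneg (Af_pos hp α F.xc).le)
  have b5 := mul_nonneg hj.le (mul_nonneg hF.mi_nonneg (Af_pos hp (-α) F.xc).le)
  rw [Fam.M2] at hM
  simp only [Fam.Yt]
  linarith

theorem fin_ok (hF : Fit C F) (hg : Glob C F g) (hα : 0 ≤ α) (hlt : F.p * α < 1)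
    (hJ : F.jj α ≤ J) {Θ₁ Θ₂ : ℝ} (h1 : F.Tl α Θ₁) (h2 : F.Tl (-α) Θ₂)
    (hI : F.jj α ^ 2 * (F.It α Θ₁ + F.It (-α) Θ₂) ≤ I) (hM : M ≤ F.jj α * F.M2 α F.x1 F.xc)
    {a : Bool} (H : (Cert.fin a).holds (F.p * α :: I :: M :: J :: 14 / 5 * J :: g.l F) d) :
    F.CritAt (val C.lf) α := by
  have h := hF.ok
  have hj := h.jj_pos α
  have hs := Real.sqrt_nonneg F.ρ
  have a1 := Af_pos h.p_pos α F.x1
  cases a
  · obtain ⟨y, y0, y1, _, rfl, H⟩ := muB_spec H
    have hx : 0 < F.p * α - 3 / 5 := (pos_iff_pos_of_mul_pos (one_pos.trans_le y1)).1 y0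
    refine endf_end hF hg hα hlt hJ h1 h2 hI hM (.inr ⟨by linarith, le_rfl⟩) ?_ H
    simpa only [mul_one] using endf_div (j := F.jj α) h.EB_nonneg hg.EB hs hg.srU (by positivity)
      (h.jj_mul α).le hx y1
  · obtain ⟨y, y0, y1, _, rfl, H⟩ := muA_spec H
    have hx : 0 < 39 / 50 - F.p * α := (pos_iff_pos_of_mul_pos (one_pos.trans_le y1)).1 y0
    have hk1 : 0 ≤ F.k1 * F.p * (50 / 39) :=
      mul_nonneg (mul_nonneg (kf_pos _ _).le h.p_pos.le) (by norm_num)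
    refine endf_end hF hg hα hlt hJ h1 h2 hI hM (.inl ⟨by linarith, le_rfl⟩) ?_ H
    refine endf_div h.EA_nonneg hg.EA hs hg.srU (by positivity) ?_ hx y1
    rw [mul_add, h.jj_mul]
    exact add_le_add_right (mul_le_mul hJ hg.Bp hk1 (hj.le.trans hJ)) 1

end Pool.Agent.Eps.T
end
end
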