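import Mathlib
import Pool.Agent.Lib.MP_3bda03_nt.T.Loop
import Pool.Agent.Lib.MP_3bda03_nt.T.Lin
import Pool.Agent.Lib.MP_3bda03_nt.T.Snd
import Pool.Agent.Lib.MP_3bda03_nt.B.Cnt

-- part Pool.Agent.Lib.MP_3bda03_nt.T.Fam1
section

/-! The decomposition of the profile into tests. -/

set_option autoImplicit false

noncomputable section

open MeasureTheory Set

namespace Pool.Agent.Eps.T.Fam

variable {F : Fam}

instance (F : Fam) : SigmaFinite F.ix := by
  unfold Fam.ix; infer_instance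

theorem fam1_le (h : F.Ok) : F.x1 ≤ F.xc := by
  have h1 : 0 < F.xc := (qf_pos_iff h.p_pos).1 (by
    have := h.q_pos
    have := h.p_pos
    unfold Fam.qc at *
    linarith)
  have h2 : 0 < F.τ / F.p := div_pos h.τ_pos h.p_pos
  unfold Fam.x1
  linarith

theorem fam1_split (h : F.Ok) :
    Ioi (F.x1 - 1) = (Ioc (F.x1 - 1) F.x1 ∪ Ioc F.x1 F.xc) ∪ Ioi F.xc := by
  rw [Ioc_union_Ioc_eq_Ioc (by linarith) (fam1_le h),
    Ioc_union_Ioi_eq_Ioi (by linarith [fam1_le h])]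

theorem fam1_d1 (F : Fam) : Disjoint (Ioc (F.x1 - 1) F.x1) (Ioc F.x1 F.xc) :=
  Set.disjoint_left.2 fun _ h1 h2 => absurd h1.2 (not_le.2 h2.1)

theorem fam1_d2 (h : F.Ok) : Disjoint (Ioc (F.x1 - 1) F.x1 ∪ Ioc F.x1 F.xc) (Ioi F.xc) :=
  Set.disjoint_left.2 fun _ h1 h2 => h1.elim
    (fun k => absurd (k.2.trans (fam1_le h)) (not_le.2 h2)) fun k => absurd k.2 (not_le.2 h2)

/-- the three parts of the index set -/
theorem Ok.lintegral_ix (h : F.Ok) (f : ℝ → ENNReal) (c : ENNReal) (hc : ∀ t, t ≤ F.x1 → f t = c) :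
    ∫⁻ t, f t ∂F.ix = c + (∫⁻ t in Ioc F.x1 F.xc, f t) + ∫⁻ t in Ioi F.xc, f t := by
  unfold Fam.ix
  rw [fam1_split h, lintegral_union measurableSet_Ioi (fam1_d2 h),
    lintegral_union measurableSet_Ioc (fam1_d1 F),
    setLIntegral_congr_fun measurableSet_Ioc (g := fun _ => c) fun t ht => hc t ht.2]
  simp

theorem Ok.integral_ix (h : F.Ok) {f : ℝ → ℝ} {c : ℝ} (hc : ∀ t, t ≤ F.x1 → f t = c)
    (h1 : IntegrableOn f (Ioc F.x1 F.xc)) (h2 : IntegrableOn f (Ioi F.xc)) :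
    Integrable f F.ix ∧
      ∫ t, f t ∂F.ix = c + (∫ t in F.x1..F.xc, f t) + ∫ t in Ioi F.xc, f t := by
  have h0 : IntegrableOn f (Ioc (F.x1 - 1) F.x1) :=
    (integrableOn_const (C := c) (by simp)).congr_fun (fun t ht => (hc t ht.2).symm)
      measurableSet_Ioc
  unfold Fam.ix
  rw [fam1_split h]
  refine ⟨(h0.union h1).union h2, ?_⟩
  rw [setIntegral_union (fam1_d2 h) measurableSet_Ioi (h0.union h1) h2,
    setIntegral_union (fam1_d1 F) measurableSet_Ioc h0 h1,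
    setIntegral_congr_fun measurableSet_Ioc (g := fun _ => c) fun t ht => hc t ht.2,
    intervalIntegral.integral_of_le (fam1_le h)]
  simp

theorem Ok.measurable_coef (h : F.Ok) (α : ℝ) : Measurable (F.coef α) := by
  have h1 := continuous_Gf h.p_pos α
  exact Measurable.ite measurableSet_Iic measurable_const (Measurable.ite measurableSet_Iic
    (continuous_cf h.p_pos α).measurable (by fun_prop))

theorem Ok.measurable_wt (h : F.Ok) : Measurable F.wt := by
  have h1 := (continuous_qf F.p).measurable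
  exact Measurable.ite measurableSet_Iic measurable_const (Measurable.ite measurableSet_Iic
    h.mβ (by fun_prop))

theorem Ok.measurable_sh (h : F.Ok) : Measurable F.sh :=
  Measurable.ite measurableSet_Iic measurable_const (Measurable.ite measurableSet_Iic
    h.mm measurable_const)

theorem Ok.measurable_en (h : F.Ok) : Measurable F.en :=
  Measurable.ite measurableSet_Iic measurable_const (Measurable.ite measurableSet_Iic
    h.mr measurable_const)

theorem fam1_q (h : F.Ok) {t : ℝ} (ht : F.xc ≤ t) : 0 ≤ qf F.p t - F.qc :=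
  sub_nonneg.2 ((qf_strictMono h.p_pos).monotone ht)

theorem Ok.wt_pos (h : F.Ok) (t : ℝ) : 0 < F.wt t := by
  unfold Fam.wt
  split_ifs with h1 h2
  · exact h.bi_pos
  · exact h.β_pos ⟨not_le.1 h1, h2⟩
  · have := fam1_q h (not_le.1 h2).le
    have := h.w_pos
    have := h.bt_pos
    positivity

theorem Ok.en_bd (h : F.Ok) : ∃ B : ℝ, ∀ t, 0 ≤ F.en t ∧ F.en t ≤ B := by
  obtain ⟨b0, b1, -, hb⟩ := h.bd
  refine ⟨max F.rc (max b1 (F.k1 / F.kc)), fun t => ?_⟩
  unfold Fam.en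
  split_ifs with h1 h2
  · exact ⟨zero_le_one.trans h.rc_ge, le_max_left _ _⟩
  · obtain ⟨-, -, -, k1, k2⟩ := hb t ⟨not_le.1 h1, h2⟩
    exact ⟨k1, k2.trans ((le_max_left _ _).trans (le_max_right _ _))⟩
  · exact ⟨(div_pos (kf_pos _ _) (kf_pos _ _)).le, (le_max_right _ _).trans (le_max_right _ _)⟩

theorem fam1_c0 {α t : ℝ} (ht : t ≤ F.x1) : F.coef α t = Af F.p α F.xc := if_pos ht

theorem fam1_c1 {α t : ℝ} (ht : t ∈ Ioc F.x1 F.xc) : F.coef α t = cf F.p α t :=
  (if_neg (not_le.2 ht.1)).trans (if_pos ht.2)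

theorem fam1_c2 (h : F.Ok) {α t : ℝ} (ht : t ∈ Ioi F.xc) :
    F.coef α t = -F.kc * (Real.exp (F.p * t) * Gf F.p α t) := by
  rw [Fam.coef, if_neg (not_le.2 ((fam1_le h).trans_lt ht)), if_neg (not_le.2 ht)]
  ring

theorem fam1_i1 (h : F.Ok) (α : ℝ) : IntegrableOn (cf F.p α) (Ioc F.x1 F.xc) :=
  ((continuous_cf h.p_pos α).intervalIntegrable _ _).1

theorem Ok.integrable_coef (h : F.Ok) (α : ℝ) : Integrable (F.coef α) F.ix :=
  (h.integral_ix (fun _ ht => fam1_c0 ht)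
    ((fam1_i1 h α).congr_fun (fun _ ht => (fam1_c1 ht).symm) measurableSet_Ioc)
    (IntegrableOn.congr_fun ((integral_Gf_Ioi h.p_pos α F.xc).1.const_mul (-F.kc))
      (fun _ ht => (fam1_c2 h ht).symm) measurableSet_Ioi)).1

theorem Ok.decomp (h : F.Ok) (α : ℝ) {ξ : ℝ} (hξ : F.x1 ≤ ξ) :
    ∫ t, F.coef α t * F.shape t ξ ∂F.ix = Af F.p α ξ := by
  have e1 : EqOn (fun t => F.coef α t * F.shape t ξ) ((Ioi ξ).indicator (cf F.p α))
      (Ioc F.x1 F.xc) := fun t ht => by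
    simp only [fam1_c1 ht, Fam.shape, if_neg (not_le.2 ht.1), if_pos ht.2, indicator, mem_Ioi]
    split_ifs <;> simp
  have hk : F.kc ≠ 0 := (kf_pos _ _).ne'
  have e2 : EqOn (fun t => F.coef α t * F.shape t ξ) ((Iic ξ).indicator fun t =>
      -kf F.p ξ * (Real.exp (F.p * t) * Gf F.p α t)) (Ioi F.xc) := fun t ht => by
    simp only [fam1_c2 h ht, Fam.shape, if_neg (not_le.2 ((fam1_le h).trans_lt ht)),
      if_neg (not_le.2 (mem_Ioi.1 ht)), indicator, mem_Iic]
    split_ifs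
    · field_simp
    · simp
  rw [(h.integral_ix (f := fun t => F.coef α t * F.shape t ξ)
      (c := Af F.p α F.xc * if ξ < F.xc then 1 else kf F.p ξ / F.kc)
      (fun t ht => by rw [fam1_c0 ht, Fam.shape, if_pos ht])
      (IntegrableOn.congr_fun ((fam1_i1 h α).indicator measurableSet_Ioi) e1.symm
        measurableSet_Ioc)
      (IntegrableOn.congr_fun (Integrable.indicator
        ((integral_Gf_Ioi h.p_pos α F.xc).1.const_mul _) measurableSet_Iic) e2.symm
        measurableSet_Ioi)).2,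
    intervalIntegral.integral_of_le (fam1_le h), setIntegral_congr_fun measurableSet_Ioc e1,
    setIntegral_congr_fun measurableSet_Ioi e2, setIntegral_indicator measurableSet_Ioi,
    setIntegral_indicator measurableSet_Iic, Ioc_inter_Ioi, Ioi_inter_Iic, sup_eq_right.2 hξ]
  split_ifs with hx
  · rw [← intervalIntegral.integral_of_le hx.le, integral_cf h.p_pos,
      Ioc_eq_empty (not_lt.2 hx.le)]
    simp
  · rw [Ioc_eq_empty hx, ← intervalIntegral.integral_of_le (not_lt.1 hx),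
      intervalIntegral.integral_const_mul, integral_Gf h.p_pos]
    have hk' : kf F.p ξ ≠ 0 := (kf_pos _ _).ne'
    unfold Fam.kc at *
    simp only [Measure.restrict_empty, integral_zero_measure]
    field_simp
    ring

theorem Ok.integral_sh (h : F.Ok) (α : ℝ) :
    Integrable (fun t => F.coef α t * F.sh t) F.ix ∧
      ∫ t, F.coef α t * F.sh t ∂F.ix = F.M1 α F.x1 F.xc + F.mi * Af F.p α F.xc := by
  have e1 : EqOn (fun t => F.coef α t * F.sh t) (fun t => F.m t * cf F.p α t)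
      (Ioc F.x1 F.xc) := fun t ht => by
    simp only [fam1_c1 ht, Fam.sh, if_neg (not_le.2 ht.1), if_pos ht.2, mul_comm]
  have e2 : EqOn (fun t => F.coef α t * F.sh t) (fun _ => 0) (Ioi F.xc) := fun t ht => by
    simp only [Fam.sh, if_neg (not_le.2 ((fam1_le h).trans_lt ht)),
      if_neg (not_le.2 (mem_Ioi.1 ht)), mul_zero]
  obtain ⟨h1, h2⟩ := h.integral_ix (f := fun t => F.coef α t * F.sh t)
    (c := F.mi * Af F.p α F.xc) (fun t ht => by rw [fam1_c0 ht, Fam.sh, if_pos ht, mul_comm])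
    (IntegrableOn.congr_fun (h.ii_m (continuous_cf h.p_pos α) ⟨le_rfl, fam1_le h⟩
      ⟨fam1_le h, le_rfl⟩).1 e1.symm measurableSet_Ioc)
    (IntegrableOn.congr_fun integrableOn_zero e2.symm measurableSet_Ioi)
  refine ⟨h1, ?_⟩
  rw [h2, Fam.M1, intervalIntegral.integral_of_le (fam1_le h),
    intervalIntegral.integral_of_le (fam1_le h), setIntegral_congr_fun measurableSet_Ioc e1,
    setIntegral_congr_fun measurableSet_Ioi e2]
  simp [add_comm]

theorem Ok.dual_le (h : F.Ok) {α Θ : ℝ} (hT : F.Tl α Θ) :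
    ∫⁻ t, ENNReal.ofReal (F.coef α t ^ 2 / F.wt t) ∂F.ix ≤ ENNReal.ofReal (F.It α Θ) := by
  have hΘ := h.Tl_nonneg hT
  have hw := h.w_pos
  have hb := h.bt_pos
  have hbi := h.bi_pos
  have hk : 0 < F.kc := kf_pos _ _
  have hA := Af_pos h.p_pos α F.xc
  have hI := h.I1_nonneg α le_rfl (fam1_le h) le_rfl
  have e1 : ∫⁻ t in Ioc F.x1 F.xc, ENNReal.ofReal (F.coef α t ^ 2 / F.wt t) =
      ENNReal.ofReal (F.I1 α F.x1 F.xc) := by
    rw [Fam.I1, intervalIntegral.integral_of_le (fam1_le h), ofReal_integral_eq_lintegral_ofReal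
      (h.ii_I1 α ⟨le_rfl, fam1_le h⟩ ⟨fam1_le h, le_rfl⟩).1
      ((ae_restrict_iff' measurableSet_Ioc).2 (Filter.Eventually.of_forall fun t ht =>
        div_nonneg (sq_nonneg _) (h.β_pos ht).le))]
    refine setLIntegral_congr_fun measurableSet_Ioc fun t ht => ?_
    simp only [fam1_c1 ht, Fam.wt, if_neg (not_le.2 ht.1), if_pos ht.2]
  have e2 : ∫⁻ t in Ioi F.xc, ENNReal.ofReal (F.coef α t ^ 2 / F.wt t) ≤
      ENNReal.ofReal (Af F.p α F.xc * Θ / (F.bt * F.w ^ 2)) := by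
    obtain ⟨g1, g2⟩ := integral_Gf_Ioi h.p_pos α F.xc
    have hc : 0 ≤ F.kc * Θ / (F.bt * F.w ^ 2) := by positivity
    calc ∫⁻ t in Ioi F.xc, ENNReal.ofReal (F.coef α t ^ 2 / F.wt t)
        ≤ ∫⁻ t in Ioi F.xc, ENNReal.ofReal
          (F.kc * Θ / (F.bt * F.w ^ 2) * (Real.exp (F.p * t) * Gf F.p α t)) := by
          refine setLIntegral_mono' measurableSet_Ioi fun t ht => ENNReal.ofReal_le_ofReal ?_
          have hq := fam1_q h (le_of_lt ht)
          have hE := Real.exp_pos (F.p * t)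
          have hG := Gf_nonneg h.p_pos α t
          have e : F.coef α t ^ 2 / F.wt t = F.kc * (F.kc * Gf F.p α t *
              (F.w + (qf F.p t - F.qc)) ^ 2) / (F.bt * F.w ^ 2) *
                (Real.exp (F.p * t) * Gf F.p α t) := by
            rw [fam1_c2 h ht, Fam.wt, if_neg (not_le.2 ((fam1_le h).trans_lt ht)),
              if_neg (not_le.2 ht)]
            field_simp
          rw [e]
          have := hT t (le_of_lt ht)
          gcongr
      _ = ENNReal.ofReal (∫ t in Ioi F.xc,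
          F.kc * Θ / (F.bt * F.w ^ 2) * (Real.exp (F.p * t) * Gf F.p α t)) :=
          (ofReal_integral_eq_lintegral_ofReal (g1.const_mul _) (Filter.Eventually.of_forall
            fun t => mul_nonneg hc (mul_nonneg (Real.exp_pos _).le (Gf_nonneg h.p_pos α t)))).symm
      _ ≤ _ := by
          refine ENNReal.ofReal_le_ofReal ?_
          rw [integral_const_mul]
          refine (mul_le_mul_of_nonneg_left g2 hc).trans (le_of_eq ?_)
          unfold Fam.kc at *
          field_simp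
  rw [h.lintegral_ix _ (ENNReal.ofReal (Af F.p α F.xc ^ 2 / F.bi))
    (fun t ht => by rw [fam1_c0 ht, Fam.wt, if_pos ht]), e1, Fam.It,
    ENNReal.ofReal_add (by positivity) (by positivity), ENNReal.ofReal_add hI (by positivity),
    add_comm (ENNReal.ofReal (F.I1 α F.x1 F.xc))]
  exact add_le_add le_rfl e2

end Pool.Agent.Eps.T.Fam
end
end

-- part Pool.Agent.Lib.MP_3bda03_nt.T.Fam2
section

/-! The cost of the family. -/

set_option autoImplicit false

noncomputable section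

open MeasureTheory Set

namespace Pool.Agent.Eps.T.Fam

variable {F : Fam}

theorem Nsh_nonneg (h : F.Ok) (t : ℝ) : 0 ≤ F.Nsh t :=
  mul_nonneg (by have := h.lam_pos; positivity) (integral_nonneg fun _ => sq_nonneg _)

theorem Ok.Nsh_point (h : F.Ok) {t : ℝ} (ht : t ≤ F.x1) :
    F.Nsh t ≤ 2 * F.lam * (F.xc - F.x1) + F.lam / F.qc := by
  have hx : F.x1 ≤ F.xc := (h.x1_neg.trans h.xc_pos).le
  obtain ⟨i2, b2⟩ := sq_tail_le h.p_pos (c := F.xc) (t := F.xc) h.qc_pos le_rfl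
  have e1 : EqOn (fun ξ => F.shape t ξ ^ 2) (fun _ => (1 : ℝ)) (Ico F.x1 F.xc) := fun ξ hξ => by
    simp [shape, ht, hξ.2]
  have e2 : EqOn (fun ξ => F.shape t ξ ^ 2) (fun ξ => (kf F.p ξ / kf F.p F.xc) ^ 2) (Ici F.xc) :=
    fun ξ hξ => by
      have : ¬ ξ < F.xc := not_lt.2 hξ
      simp [shape, ht, this, kc]
  have i1 : IntegrableOn (fun _ : ℝ => (1 : ℝ)) (Ico F.x1 F.xc) :=
    integrableOn_const (by simp)
  rw [Nsh, ← Ico_union_Ici_eq_Ici hx, setIntegral_union (by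
      rw [disjoint_left]; exact fun ξ h1 h2 => (not_le.2 h1.2) h2) measurableSet_Ici
      (i1.congr_fun e1.symm measurableSet_Ico) (i2.congr_fun e2.symm measurableSet_Ici),
    setIntegral_congr_fun measurableSet_Ico e1, setIntegral_congr_fun measurableSet_Ici e2,
    setIntegral_const, Real.volume_real_Ico_of_le hx, smul_eq_mul, mul_one, mul_add]
  have l0 := h.lam_pos
  have q0 := h.qc_pos
  have b3 := mul_le_mul_of_nonneg_left b2 (by positivity : 0 ≤ 2 * F.lam)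
  have e3 : 2 * F.lam * (Real.exp (-(2 * qf F.p F.xc * (F.xc - F.xc))) / (2 * qf F.p F.xc)) =
      F.lam / F.qc := by
    rw [sub_self, mul_zero, neg_zero, Real.exp_zero, ← qc]
    field_simp
  linarith

theorem Ok.Nsh_const (h : F.Ok) {t : ℝ} (ht : t ≤ F.x1) : F.Nsh t = F.Nsh F.x1 := by
  have _ := h
  simp only [Nsh, shape, if_pos ht, if_pos (le_refl F.x1)]

theorem Ok.Nsh_fwd (h : F.Ok) {t : ℝ} (ht : t ∈ Ioc F.x1 F.xc) :
    F.Nsh t = 2 * F.lam * (t - F.x1) := by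
  have _ := h
  have e : (fun ξ => F.shape t ξ ^ 2) = (Iio t).indicator fun _ => (1 : ℝ) := by
    funext ξ
    by_cases hξ : ξ < t <;> simp [shape, not_le.2 ht.1, ht.2, hξ]
  rw [Nsh, e, setIntegral_indicator measurableSet_Iio, Ici_inter_Iio, setIntegral_const,
    Real.volume_real_Ico_of_le ht.1.le, smul_eq_mul, mul_one]

theorem Ok.Nsh_tail (h : F.Ok) {t : ℝ} (ht : F.xc < t) :
    F.Nsh t ≤ F.lam * Real.exp (-(2 * F.qc * (t - F.xc))) / F.qc := by
  have hx : F.x1 < t := (h.x1_neg.trans h.xc_pos).trans ht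
  have e : (fun ξ => F.shape t ξ ^ 2) =
      (Ici t).indicator fun ξ => (kf F.p ξ / kf F.p F.xc) ^ 2 := by
    funext ξ
    by_cases hξ : t ≤ ξ <;> simp [shape, not_le.2 hx, not_le.2 ht, hξ, kc]
  have b2 := (sq_tail_le h.p_pos (c := F.xc) (t := t) h.qc_pos ht.le).2
  have l0 := h.lam_pos
  have q0 := h.qc_pos
  rw [Nsh, e, setIntegral_indicator measurableSet_Ici, inter_eq_right.2 (Ici_subset_Ici.2 hx.le)]
  refine (mul_le_mul_of_nonneg_left b2 (by positivity)).trans (le_of_eq ?_)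
  rw [← qc]
  field_simp

theorem fam2_fwd (h : F.Ok) :
    0 ≤ F.Ep F.x1 F.xc ∧
    ∫⁻ t in Ioc F.x1 F.xc, ENNReal.ofReal
      (F.wt t * ((1 + F.η) * (F.Nsh t + F.sh t ^ 2) + F.eh * F.en t ^ 2)) =
      ENNReal.ofReal (F.Ep F.x1 F.xc) := by
  have hx : F.x1 ≤ F.xc := (h.x1_neg.trans h.xc_pos).le
  have ii := h.ii_Ep (a := F.x1) (b := F.xc) ⟨le_rfl, hx⟩ ⟨hx, le_rfl⟩
  rw [intervalIntegrable_iff_integrableOn_Ioc_of_le hx] at ii
  have nn : ∀ t ∈ Ioc F.x1 F.xc, 0 ≤ F.β t * ((1 + F.η) * (2 * F.lam * (t - F.x1) + F.m t ^ 2) +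
      F.eh * F.r t ^ 2) := by
    intro t ht
    have := h.β_pos ht
    have := h.lam_pos
    have := h.η_nonneg
    have := h.eh_nonneg
    have : 0 < t - F.x1 := sub_pos.2 ht.1
    positivity
  rw [Ep, intervalIntegral.integral_of_le hx]
  refine ⟨setIntegral_nonneg measurableSet_Ioc nn, ?_⟩
  rw [ofReal_integral_eq_lintegral_ofReal ii
    ((ae_restrict_iff' measurableSet_Ioc).2 (Filter.Eventually.of_forall nn))]
  refine setLIntegral_congr_fun measurableSet_Ioc fun t ht => ?_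
  simp only [wt, sh, en, if_neg (not_le.2 ht.1), if_pos ht.2, h.Nsh_fwd ht]

theorem fam2_tail (h : F.Ok) :
    ∫⁻ t in Ioi F.xc, ENNReal.ofReal
      (F.wt t * ((1 + F.η) * (F.Nsh t + F.sh t ^ 2) + F.eh * F.en t ^ 2)) ≤
      ENNReal.ofReal (F.bt * ((1 + F.η) *
        (F.lam * Real.exp (F.p * F.xc) / (F.qc * (2 * F.qc - F.p))) +
          F.eh * (F.k1 / F.kc) ^ 2 * F.w)) := by
  have hx : F.x1 < F.xc := h.x1_neg.trans h.xc_pos
  have l0 := h.lam_pos
  have q0 := h.qc_pos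
  have η0 := h.η_nonneg
  have e0 := h.eh_nonneg
  have b0 := h.bt_pos
  have w0 := h.w_pos
  have ha : F.p - 2 * F.qc < 0 := sub_neg.2 h.q_pos
  obtain ⟨i2, s2⟩ := integral_tail_wt h.p_pos (c := F.xc) w0
  have i1 := integrableOn_exp_mul_Ioi ha F.xc
  have s1 := integral_exp_mul_Ioi ha F.xc
  obtain ⟨c1, hc1⟩ : ∃ c : ℝ, c = F.bt * (1 + F.η) * (F.lam / F.qc) *
    Real.exp (2 * F.qc * F.xc) := ⟨_, rfl⟩
  obtain ⟨c2, hc2⟩ : ∃ c : ℝ, c = F.bt * F.eh * (F.k1 / F.kc) ^ 2 := ⟨_, rfl⟩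
  have p1 : 0 ≤ c1 := by rw [hc1]; positivity
  have p2 : 0 ≤ c2 := by rw [hc2]; positivity
  have ig : IntegrableOn (fun t => c1 * Real.exp ((F.p - 2 * F.qc) * t) +
      c2 * (Real.exp (F.p * t) / (1 + (qf F.p t - qf F.p F.xc) / F.w) ^ 2)) (Ioi F.xc) :=
    (i1.const_mul c1).add (i2.const_mul c2)
  have pt : ∀ t ∈ Ioi F.xc,
      F.wt t * ((1 + F.η) * (F.Nsh t + F.sh t ^ 2) + F.eh * F.en t ^ 2) ≤
        c1 * Real.exp ((F.p - 2 * F.qc) * t) +
          c2 * (Real.exp (F.p * t) / (1 + (qf F.p t - qf F.p F.xc) / F.w) ^ 2) := by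
    intro t ht
    have ht' : F.xc < t := ht
    have n1 : ¬ t ≤ F.x1 := not_le.2 (hx.trans ht')
    have n2 : ¬ t ≤ F.xc := not_le.2 ht'
    have d0 : 0 ≤ (qf F.p t - qf F.p F.xc) / F.w :=
      div_nonneg (sub_nonneg.2 ((qf_strictMono h.p_pos).monotone ht'.le)) w0.le
    have d1 : Real.exp (F.p * t) / (1 + (qf F.p t - qf F.p F.xc) / F.w) ^ 2 ≤
        Real.exp (F.p * t) := div_le_self (Real.exp_pos _).le (one_le_pow₀ (by linarith))
    have N1 := h.Nsh_tail ht'
    have N0 := Nsh_nonneg h t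
    have x : Real.exp (F.p * t) * Real.exp (-(2 * F.qc * (t - F.xc))) =
        Real.exp (2 * F.qc * F.xc) * Real.exp ((F.p - 2 * F.qc) * t) := by
      rw [← Real.exp_add, ← Real.exp_add]
      congr 1
      ring
    have m1 : Real.exp (F.p * t) / (1 + (qf F.p t - qf F.p F.xc) / F.w) ^ 2 * F.Nsh t ≤
        F.lam / F.qc * (Real.exp (2 * F.qc * F.xc) * Real.exp ((F.p - 2 * F.qc) * t)) := by
      refine (mul_le_mul d1 N1 N0 (Real.exp_pos _).le).trans (le_of_eq ?_)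
      rw [← x]
      ring
    have m2 := mul_le_mul_of_nonneg_left m1 (by positivity : 0 ≤ F.bt * (1 + F.η))
    simp only [wt, sh, en, if_neg n1, if_neg n2]
    rw [hc1, hc2, mul_div_assoc F.bt, qc] at *
    linarith
  calc _ ≤ ∫⁻ t in Ioi F.xc, ENNReal.ofReal (c1 * Real.exp ((F.p - 2 * F.qc) * t) +
        c2 * (Real.exp (F.p * t) / (1 + (qf F.p t - qf F.p F.xc) / F.w) ^ 2)) :=
        setLIntegral_mono' measurableSet_Ioi fun t ht => ENNReal.ofReal_le_ofReal (pt t ht)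
    _ = ENNReal.ofReal (∫ t in Ioi F.xc, (c1 * Real.exp ((F.p - 2 * F.qc) * t) +
        c2 * (Real.exp (F.p * t) / (1 + (qf F.p t - qf F.p F.xc) / F.w) ^ 2))) :=
        (ofReal_integral_eq_lintegral_ofReal ig
          (Filter.Eventually.of_forall fun t => by positivity)).symm
    _ ≤ _ := by
        refine ENNReal.ofReal_le_ofReal ?_
        rw [integral_add (i1.const_mul c1) (i2.const_mul c2), integral_const_mul,
          integral_const_mul, s1]
        have m2 := mul_le_mul_of_nonneg_left s2 p2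
        have x : Real.exp (2 * F.qc * F.xc) * Real.exp ((F.p - 2 * F.qc) * F.xc) =
            Real.exp (F.p * F.xc) := by
          rw [← Real.exp_add]
          congr 1
          ring
        have a2 : 2 * F.qc - F.p ≠ 0 := by linarith
        have m1 : c1 * (-Real.exp ((F.p - 2 * F.qc) * F.xc) / (F.p - 2 * F.qc)) =
            F.bt * (1 + F.η) * (F.lam * Real.exp (F.p * F.xc) / (F.qc * (2 * F.qc - F.p))) := by
          rw [hc1, ← x, ← neg_sub (2 * F.qc) F.p, neg_div_neg_eq]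
          field_simp
        rw [m1]
        rw [hc2] at m2 ⊢
        linarith

theorem Ok.cost_le (h : F.Ok) :
    ∫⁻ t, ENNReal.ofReal (F.wt t * ((1 + F.η) * (F.Nsh t + F.sh t ^ 2) + F.eh * F.en t ^ 2))
      ∂F.ix ≤ ENNReal.ofReal (F.Ep F.x1 F.xc + F.Eq2) := by
  have hx : 0 < F.xc - F.x1 := sub_pos.2 (h.x1_neg.trans h.xc_pos)
  have l0 := h.lam_pos
  have q0 := h.qc_pos
  have η0 := h.η_nonneg
  have e0 := h.eh_nonneg
  have b0 := h.bt_pos
  have b1 := h.bi_pos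
  have w0 := h.w_pos
  have ha : 0 < 2 * F.qc - F.p := sub_pos.2 h.q_pos
  obtain ⟨f0, f1⟩ := fam2_fwd h
  rw [h.lintegral_ix _
    (ENNReal.ofReal (F.bi * ((1 + F.η) * (F.Nsh F.x1 + F.mi ^ 2) + F.eh * F.rc ^ 2)))
    (fun t ht => by simp only [wt, sh, en, if_pos ht, h.Nsh_const ht]), f1, Eq2,
    ENNReal.ofReal_add f0 (by positivity), ENNReal.ofReal_add (by positivity) (by positivity),
    add_comm _ (ENNReal.ofReal (F.Ep F.x1 F.xc)), add_assoc]
  refine add_le_add le_rfl (add_le_add (ENNReal.ofReal_le_ofReal ?_) (fam2_tail h))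
  have := h.Nsh_point le_rfl
  gcongr

theorem shape_nonneg (F : Fam) (t ξ : ℝ) : 0 ≤ F.shape t ξ := by
  have := div_nonneg (kf_pos F.p ξ).le (kf_pos F.p F.xc).le
  unfold shape kc
  split_ifs <;> first | exact this | norm_num

theorem Ok.shape_env (h : F.Ok) (t : ℝ) {ξ : ℝ} (hξ : F.x1 ≤ ξ) :
    F.shape t ξ * F.k1 ≤ F.en t * kf F.p ξ := by
  have k0 := kf_pos F.p ξ
  have kc0 : 0 < F.kc := kf_pos _ _
  have k10 : 0 < F.k1 := kf_pos _ _
  have r1 := h.rc_ge
  have r2 := h.rc_env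
  unfold shape en
  split_ifs with h1 h2 h3 h4 h5
  · rw [one_mul]
    rcases min_le_iff.1 (min_le_kf h.p_pos hξ h2.le) with h6 | h6
    · exact le_trans h6 (le_mul_of_one_le_left k0.le r1)
    · exact r2.trans (mul_le_mul_of_nonneg_left h6 (by linarith))
  · rw [div_mul_eq_mul_div, div_le_iff₀ kc0]
    nlinarith
  · rw [one_mul]
    exact h.env t ⟨not_le.1 h1, h3⟩ ξ ⟨hξ, h4.le⟩
  · obtain ⟨b0, b1, -, hb⟩ := h.bd
    rw [zero_mul]
    exact mul_nonneg (hb t ⟨not_le.1 h1, h3⟩).2.2.2.1 k0.le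
  · exact le_of_eq (by ring)
  · rw [zero_mul]
    positivity

theorem measurable_shape (F : Fam) : Measurable (Function.uncurry F.shape) := by
  have hk : Measurable fun x : ℝ × ℝ => kf F.p x.2 / F.kc :=
    ((continuous_kf F.p).measurable.comp measurable_snd).div_const _
  exact Measurable.ite (measurableSet_le measurable_fst measurable_const)
    (Measurable.ite (measurableSet_lt measurable_snd measurable_const) measurable_const hk)
    (Measurable.ite (measurableSet_le measurable_fst measurable_const)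
      (Measurable.ite (measurableSet_lt measurable_snd measurable_fst) measurable_const
        measurable_const)
      (Measurable.ite (measurableSet_le measurable_fst measurable_snd) hk measurable_const))

end Pool.Agent.Eps.T.Fam
end
end

-- part Pool.Agent.Lib.MP_3bda03_nt.T.Fam3
section

/-! The tests as radial functions. -/

set_option autoImplicit false

noncomputable section

open MeasureTheory Set Pool.Agent.Eps.H

namespace Pool.Agent.Eps.T.Fam

variable {F : Fam} {n : ℕ}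

/-- the envelope constant of a test -/
def env (F : Fam) (t : ℝ) : ℝ := F.en t * (Real.exp (Real.pi * F.rad) / (Real.sqrt F.ρ * F.TT))

theorem measurable_tst (F : Fam) : Measurable (Function.uncurry F.tst) := by
  have e : Function.uncurry F.tst = fun x : ℝ × ℝ => if x.2 < F.rad then 0 else
      F.bh (F.xi x.2) * Function.uncurry F.shape (x.1, F.xi x.2) := rfl
  have hx : Measurable fun x : ℝ × ℝ => F.xi x.2 := F.measurable_xi.comp measurable_snd
  rw [e]
  exact Measurable.ite (measurableSet_lt measurable_snd measurable_const) measurable_const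
    ((F.continuous_bh.measurable.comp hx).mul (F.measurable_shape.comp (measurable_fst.prodMk hx)))

theorem Ok.tst_env (h : F.Ok) (t ρ : ℝ) :
    0 ≤ F.tst t ρ ∧ F.tst t ρ ≤ F.env t * Real.exp (-Real.pi * ρ) := by
  obtain ⟨B, hB⟩ := h.en_bd
  have hT := h.TT_pos
  unfold tst Fam.env
  split_ifs with c
  · have := (hB t).1
    exact ⟨le_rfl, by positivity⟩
  have h0 : 0 < ρ := h.rad_pos.trans_le (not_lt.1 c)
  have h1 : F.x1 ≤ F.xi ρ := not_lt.1 fun k => c ((h.lt_rad_iff h0).2 k)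
  have hb := h.bh_pos (F.xi ρ)
  refine ⟨mul_nonneg hb.le (F.shape_nonneg _ _), le_of_mul_le_mul_right ?_ (kf_pos F.p F.x1)⟩
  have h2 := mul_le_mul_of_nonneg_left (h.shape_env t h1) hb.le
  have h3 := h.bh_env h0
  change _ * F.k1 ≤ _ * F.k1
  calc _ = F.bh (F.xi ρ) * (F.shape t (F.xi ρ) * F.k1) := by ring
    _ ≤ F.en t * (F.bh (F.xi ρ) * kf F.p (F.xi ρ)) := h2.trans_eq (by ring)
    _ = _ := by rw [h3]; ring

theorem Ok.tst_bd (h : F.Ok) :
    ∃ B : ℝ, ∀ t ρ, 0 ≤ F.tst t ρ ∧ F.tst t ρ ≤ B * Real.exp (-Real.pi * ρ) := by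
  obtain ⟨B, hB⟩ := h.en_bd
  have hT := h.TT_pos
  refine ⟨B * (Real.exp (Real.pi * F.rad) / (Real.sqrt F.ρ * F.TT)), fun t ρ =>
    ⟨(h.tst_env t ρ).1, (h.tst_env t ρ).2.trans ?_⟩⟩
  unfold Fam.env
  have := (hB t).2
  gcongr

theorem Ok.measurable_env (h : F.Ok) : Measurable F.env := by
  exact h.measurable_en.mul_const _

theorem tst_zero (F : Fam) (t ρ : ℝ) (hρ : ρ < F.rad) : F.tst t ρ = 0 := by
  exact if_pos hρ

theorem fam3_ite {f g : ℝ → ℝ} {c ξ : ℝ} (hf : Continuous f) (hg : Continuous g) (h : ξ ≠ c) :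
    ContinuousAt (fun x => if x < c then f x else g x) ξ := by
  rcases lt_or_gt_of_ne h with k | k
  · refine hf.continuousAt.congr ?_
    filter_upwards [Iio_mem_nhds k] with x hx
    exact (if_pos hx).symm
  · refine hg.continuousAt.congr ?_
    filter_upwards [Ioi_mem_nhds k] with x hx
    exact (if_neg (not_lt.2 (le_of_lt hx))).symm

theorem fam3_shape (F : Fam) {t ξ : ℝ} (h1 : ξ ≠ F.xc) (h2 : ξ ≠ t) :
    ContinuousAt (F.shape t) ξ := by
  have hk : Continuous fun x => kf F.p x / F.kc := (continuous_kf F.p).div_const _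
  unfold shape
  split_ifs
  · exact fam3_ite continuous_const hk h1
  · exact fam3_ite continuous_const continuous_const h2
  · have := fam3_ite (f := fun _ => 0) continuous_const hk h2
    simpa only [← not_lt, ite_not] using this

theorem Ok.prof_tst (h : F.Ok) (t : ℝ) : Prof (F.tst t) := by
  refine ⟨F.measurable_tst.of_uncurry_left, ?_, F.env t, Real.pi, Real.pi_pos, fun ρ _ => ?_⟩
  · have sub : ∀ c : ℝ, {ρ | 0 < ρ ∧ F.xi ρ = c}.Countable := fun c =>
      Set.Subsingleton.countable fun a ha b hb => h.xi_inj ha.1 hb.1 (ha.2.trans hb.2.symm)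
    refine (((countable_singleton F.rad).union (sub F.xc)).union (sub t)).mono fun ρ hρ => ?_
    by_contra hn
    simp only [mem_union, mem_singleton_iff, mem_ofPred_eq, not_or, not_and] at hn
    refine hρ ?_
    rcases lt_or_gt_of_ne hn.1.1 with k | k
    · refine (continuousAt_const (y := (0 : ℝ))).congr ?_
      filter_upwards [Iio_mem_nhds k] with x hx
      exact (F.tst_zero t x hx).symm
    · have h0 := h.rad_pos.trans k
      have hx := h.continuousAt_xi h0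
      refine ((F.continuous_bh.continuousAt.comp hx).mul
        ((fam3_shape F (hn.1.2 h0) (hn.2 h0)).comp hx)).congr ?_
      filter_upwards [Ioi_mem_nhds k] with x hx
      exact (if_neg (not_lt.2 (le_of_lt hx))).symm
  · rw [abs_of_nonneg (h.tst_env t ρ).1]
    exact (h.tst_env t ρ).2

theorem Ok.Nn_tst (h : F.Ok) (hd : F.Dim n) (t : ℝ) : Nn (Fin n) (F.tst t) = F.Nsh t := by
  have hn : 1 ≤ n := by
    rcases Nat.eq_zero_or_pos n with rfl | k
    · have := hd.hp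
      norm_num at this
    · exact k
  have hs : Measurable (F.shape t) := F.measurable_shape.of_uncurry_left
  have e1 : ∫ y : Fin n → ℝ, F.tst t (nsq y) ^ 2 = ∫ y : Fin n → ℝ,
      (fun ξ => if ξ < F.x1 then 0 else (F.bh ξ * F.shape t ξ) ^ 2) (F.xi (nsq y)) := by
    refine integral_congr_ae ?_
    filter_upwards [ae_nsq_pos hn] with y hy
    simp only [tst, h.lt_rad_iff hy]
    split_ifs
    · norm_num
    · rfl
  have hT := h.TT_pos
  have hρ := h.ρ_pos
  have hp := h.p_pos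
  have hτ := h.τ_pos
  have e2 : (fun ξ => (if ξ < F.x1 then 0 else (F.bh ξ * F.shape t ξ) ^ 2) *
      Real.exp (2 * (ξ - F.x1) / F.p)) =
      (Ici F.x1).indicator fun ξ => 1 / (F.ρ * F.TT ^ 2) * F.shape t ξ ^ 2 := by
    funext ξ
    by_cases c : ξ < F.x1
    · rw [if_pos c, zero_mul, indicator_of_notMem (by simpa using c)]
    · rw [if_neg c, indicator_of_mem (mem_Ici.2 (not_lt.1 c))]
      have e : Real.exp (-((ξ - F.x1) / F.p)) ^ 2 * Real.exp (2 * (ξ - F.x1) / F.p) = 1 := by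
        rw [sq, ← Real.exp_add, ← Real.exp_add, ← Real.exp_zero]
        congr 1
        ring
      unfold bh
      rw [mul_pow, div_pow, mul_pow, Real.sq_sqrt hρ.le, ← e]
      ring
  unfold Nn Nsh
  rw [e1, h.integral_xi hd (fun ξ => if ξ < F.x1 then 0 else (F.bh ξ * F.shape t ξ) ^ 2)
    (Measurable.ite (measurableSet_lt measurable_id measurable_const)
      measurable_const ((F.continuous_bh.measurable.mul hs).pow_const 2)), e2,
    integral_indicator measurableSet_Ici, integral_const_mul]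
  unfold lam TT
  field_simp

theorem Ok.out_eq (h : F.Ok) (α ρ : ℝ) : F.out α ρ = ∫ t, F.coef α t * F.tst t ρ ∂F.ix := by
  unfold out tst
  split_ifs with c
  · simp
  have h0 : 0 < ρ := h.rad_pos.trans_le (not_lt.1 c)
  have h1 : F.x1 ≤ F.xi ρ := not_lt.1 fun k => c ((h.lt_rad_iff h0).2 k)
  rw [← h.decomp α h1, ← integral_const_mul]
  congr 1
  funext t
  ring

end Pool.Agent.Eps.T.Fam
end
end

-- part Pool.Agent.Lib.MP_3bda03_nt.T.Brg
section

/-! From the criterion to the lattice. -/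

set_option autoImplicit false

noncomputable section

open MeasureTheory Set Pool.Agent.Eps.H

namespace Pool.Agent.Eps.T.Fam

variable {F : Fam} {n : ℕ}

/-- one lattice sum -/
theorem Ok.sum_le (h : F.Ok) (hd : F.Dim n) (hn : 97 ≤ n) {α Θ μ Q a : ℝ} (hα : F.p * α < 1)
    (hT : F.Tl α Θ) (hμ : F.Mu α μ) {w : (Fin n → ℝ) → ℝ} (hw : Measurable w)
    (hw' : ∀ y, 0 ≤ w y ∧ w y ≤ 51 / 50) {g : Matrix (Fin n) (Fin n) ℝ} (hg : g.det ≠ 0)
    (hr : ∀ k : Fin n → ℤ, k ≠ 0 → F.rad ≤ nsq (lv k g)) (hQ0 : 0 ≤ Q) (ha : 0 < a)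
    (hQ : Qf F.ix F.wt F.sh F.tst F.rad w g ≤ ENNReal.ofReal Q) :
    (∑' k : {k : Fin n → ℤ // k ≠ 0}, fs (1 / F.p ^ 2 + α / F.p) (nsq (lv k.1 g))) ≤
      1 / ((n : ℝ) / 2 - (1 / F.p ^ 2 + α / F.p)) - F.Th * F.Yt α μ +
        F.Th * (a / 2 * F.It α Θ + Q / (2 * a)) := by
  have e : (∑' k : {k : Fin n → ℤ // k ≠ 0}, fs (1 / F.p ^ 2 + α / F.p) (nsq (lv k.1 g))) =
      F.Th * Sm g (F.out α) := by
    rw [Sm, ← tsum_mul_left]
    refine tsum_congr fun k => ?_
    have h1 := hr k.1 k.2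
    rw [h.fs_eq α (h.rad_pos.trans_le h1), out, if_neg (not_lt.2 h1)]
  obtain ⟨B, hB⟩ := h.tst_bd
  have h1 := lin_bound (n := n) (by omega) (measurable_tst F) hB (h.integrable_coef α)
    (h.out_eq α) h.rad_pos hw hw' hg (h.measurable_coef α) h.measurable_wt h.wt_pos
    (h.integral_sh α).1 (h.It_pos hT).le hQ0 ha (h.dual_le hT) hQ
  have h2 := h.ctr_le hd hn hα hμ hw hw'
  rw [(h.integral_sh α).2] at h1
  have h3 := mul_le_mul_of_nonneg_left h1 h.Th_pos.le
  rw [e, Yt]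
  linarith

/-- the lattice given by the interface -/
theorem Ok.exists_lattice (h : F.Ok) (hd : F.Dim n) {lf η ε η0 ϖ : ℝ}
    (hI : Iface (Fin n) F.rad η ε η0 ϖ) (hη : η ≤ F.η)
    (hε : ε * ϖ * (Real.exp (Real.pi * F.rad) / (Real.sqrt F.ρ * F.TT)) ^ 2 ≤ F.eh)
    (hlf : 0 < lf) (hlf' : 1 < lf * (1 - η0)) :
    ∃ (w : (Fin n → ℝ) → ℝ) (g : Matrix (Fin n) (Fin n) ℝ) (Q₁ Q₂ : ℝ), Measurable w ∧
      (∀ y, 0 ≤ w y ∧ w y ≤ 51 / 50) ∧ |g.det| = 1 ∧
      (∀ k : Fin n → ℤ, k ≠ 0 → F.rad ≤ nsq (lv k g) ∧ F.rad ≤ nsq (lv k (dual g))) ∧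
      0 ≤ Q₁ ∧ 0 ≤ Q₂ ∧ Q₁ + Q₂ ≤ 2 * lf * (F.Ep F.x1 F.xc + F.Eq2) ∧
      Qf F.ix F.wt F.sh F.tst F.rad w g ≤ ENNReal.ofReal Q₁ ∧
      Qf F.ix F.wt F.sh F.tst F.rad w (dual g) ≤ ENNReal.ofReal Q₂ := by
  obtain ⟨w, hw, hw', H⟩ := hI
  have hE := h.E_pos
  have hc : ∫⁻ t, ENNReal.ofReal (2 * (F.wt t * ((1 + η) * (Nn (Fin n) (F.tst t) + F.sh t ^ 2) +
      ε * ϖ * F.env t ^ 2))) ∂F.ix <
      ENNReal.ofReal ((1 - η0) * (2 * lf * (F.Ep F.x1 F.xc + F.Eq2))) := by
    calc _ ≤ ∫⁻ t, ENNReal.ofReal 2 * ENNReal.ofReal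
          (F.wt t * ((1 + F.η) * (F.Nsh t + F.sh t ^ 2) + F.eh * F.en t ^ 2)) ∂F.ix := by
          refine lintegral_mono fun t => ?_
          rw [← ENNReal.ofReal_mul zero_le_two, h.Nn_tst hd, Fam.env]
          refine ENNReal.ofReal_le_ofReal (mul_le_mul_of_nonneg_left
            (mul_le_mul_of_nonneg_left (add_le_add ?_ ?_) (h.wt_pos t).le) zero_le_two)
          · exact mul_le_mul_of_nonneg_right (by linarith)
              (add_nonneg (Nsh_nonneg h t) (sq_nonneg _))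
          · refine le_trans (le_of_eq ?_) (mul_le_mul_of_nonneg_right hε (sq_nonneg (F.en t)))
            ring
      _ ≤ ENNReal.ofReal 2 * ENNReal.ofReal (F.Ep F.x1 F.xc + F.Eq2) := by
          rw [lintegral_const_mul' _ _ ENNReal.ofReal_ne_top]
          exact mul_le_mul_right h.cost_le _
      _ < _ := by
          rw [← ENNReal.ofReal_mul zero_le_two]
          have h1 := mul_lt_mul_of_pos_right hlf' hE
          exact (ENNReal.ofReal_lt_ofReal_iff (by linarith)).2 (by linarith)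
  obtain ⟨g, hg, hr, hQ⟩ := H F.ix F.wt F.sh F.env F.tst _ h.measurable_wt h.measurable_sh
    h.measurable_env (measurable_tst F) (fun t => (h.wt_pos t).le) h.prof_tst h.tst_env
    (tst_zero F) hc
  have f1 := ne_top_of_le_ne_top ENNReal.ofReal_ne_top (le_self_add.trans hQ)
  have f2 := ne_top_of_le_ne_top ENNReal.ofReal_ne_top (le_add_self.trans hQ)
  refine ⟨w, g, _, _, hw, hw', hg, hr, ENNReal.toReal_nonneg, ENNReal.toReal_nonneg, ?_,
    (ENNReal.ofReal_toReal f1).ge, (ENNReal.ofReal_toReal f2).ge⟩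
  rw [← ENNReal.toReal_add f1 f2]
  exact ENNReal.toReal_le_of_le_ofReal (by positivity) hQ

theorem brg_symm {lf α : ℝ} (h : F.CritAt lf (-α)) : F.CritAt lf α := by
  obtain ⟨Θ₁, Θ₂, μ₁, μ₂, t1, t2, m1, m2, hY, hlt⟩ := h
  rw [neg_neg] at t2 m2 hY hlt
  refine ⟨Θ₂, Θ₁, μ₂, μ₁, t2, t1, m2, m1, ?_, ?_⟩
  · rwa [add_comm]
  · rwa [add_comm (F.It α Θ₂), add_comm (F.Yt α μ₂)]

theorem brg_num {I Y Q Λ : ℝ} (hI : 0 < I) (hY : 0 ≤ Y) (hQ : 0 ≤ Q) (hΛ : Q ≤ Λ)
    (h : Λ * I < Y ^ 2) : ∃ a : ℝ, 0 < a ∧ a / 2 * I + Q / (2 * a) < Y := by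
  have h1 : Q * I < Y ^ 2 := (mul_le_mul_of_nonneg_right hΛ hI.le).trans_lt h
  have h2 : 0 < Y := by
    refine lt_of_le_of_ne hY fun e => ?_
    rw [← e] at h1
    have := mul_nonneg hQ hI.le
    linarith
  refine ⟨Y / I, div_pos h2 hI, ?_⟩
  have e1 : Y / I / 2 * I = Y / 2 := by field_simp
  have e2 : Q / (2 * (Y / I)) = Q * I / (2 * Y) := by field_simp
  have h3 : Q * I / (2 * Y) < Y / 2 := by
    rw [div_lt_iff₀ (by positivity)]
    linarith
  rw [e1, e2]
  linarith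

theorem Ok.goal (h : F.Ok) (hd : F.Dim n) (hn : 97 ≤ n) {lf η ε η0 ϖ : ℝ} (hC : F.Crit lf)
    (hI : Iface (Fin n) F.rad η ε η0 ϖ) (hη : η ≤ F.η)
    (hε : ε * ϖ * (Real.exp (Real.pi * F.rad) / (Real.sqrt F.ρ * F.TT)) ^ 2 ≤ F.eh)
    (hlf : 0 < lf) (hlf' : 1 < lf * (1 - η0)) : Goal n := by
  obtain ⟨w, g, Q₁, Q₂, hw, hw', hg, hr, q1, q2, q3, q4, q5⟩ :=
    h.exists_lattice hd hI hη hε hlf hlf'
  refine goal_of_fs (by omega) (Fintype.card_fin n) g hg fun s s0 s1 => ?_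
  have hp := h.p_pos
  have hn2 : (n : ℝ) / 2 = 2 / F.p ^ 2 := by
    have := hd.hp
    field_simp
    linarith
  obtain ⟨α, hα⟩ : ∃ α, α = F.p * s - 1 / F.p := ⟨_, rfl⟩
  have e1 : s = 1 / F.p ^ 2 + α / F.p := by
    rw [hα]
    field_simp
    ring
  have e2 : (n : ℝ) / 2 - s = 1 / F.p ^ 2 + -α / F.p := by
    rw [hα, hn2]
    field_simp
    ring
  have e3 : F.p * α = F.p ^ 2 * s - 1 := by
    rw [hα]
    field_simp
  have a1 : F.p * α < 1 := by
    have := mul_lt_mul_of_pos_left s1 (pow_pos hp 2)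
    have := hd.hp
    linarith
  have a2 : F.p * -α < 1 := by
    have := mul_pos (pow_pos hp 2) s0
    linarith
  have hA : F.CritAt lf α := by
    rcases le_total 0 α with h0 | h0
    · exact hC α h0 a1
    · exact brg_symm (hC (-α) (neg_nonneg.2 h0) a2)
  obtain ⟨Θ₁, Θ₂, μ₁, μ₂, t1, t2, m1, m2, hY, hlt⟩ := hA
  have i1 := h.It_pos t1
  have i2 := h.It_pos t2
  obtain ⟨a, ha, hb⟩ := brg_num (add_pos i1 i2) hY (add_nonneg q1 q2) q3 hlt
  have b1 := h.sum_le hd hn a1 t1 m1 hw hw' (ana_det_ne hg) (fun k hk => (hr k hk).1) q1 ha q4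
  have b2 := h.sum_le hd hn a2 t2 m2 hw hw' (ana_det_dual_ne hg) (fun k hk => (hr k hk).2) q2
    ha q5
  rw [← e1] at b1
  rw [← e2, sub_sub_cancel] at b2
  have b3 := mul_lt_mul_of_pos_left hb h.Th_pos
  rw [add_div] at b3
  linarith

end Pool.Agent.Eps.T.Fam
end
end

-- part Pool.Agent.Lib.MP_3bda03_nt.T.Par0
section

/-! The parameters in dimension `n`. -/

set_option autoImplicit false

noncomputable section

namespace Pool.Agent.Eps.T

theorem par0_cast {n : ℕ} (hn : 97 ≤ n) : (97 : ℝ) ≤ n := by exact_mod_cast hn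

theorem pN_pos {n : ℕ} (hn : 97 ≤ n) : 0 < pN n :=
  div_pos two_pos (Real.sqrt_pos.2 (by linarith [par0_cast hn]))

theorem pN_sq {n : ℕ} (hn : 97 ≤ n) : pN n ^ 2 * n = 4 := by
  have h := par0_cast hn
  rw [pN, div_pow, Real.sq_sqrt (by linarith), div_mul_cancel₀ _ (by linarith)]
  norm_num

theorem lamV_pos {n : ℕ} (hn : 97 ≤ n) : 0 < lamV ((n : ℝ) / 2) :=
  lt_max_of_lt_left (by linarith [par0_cast hn])

theorem vN_small {n : ℕ} (hn : 97 ≤ n) (h : n ≤ 400) : vN n = 1 / 10 - 13 / 10 * pN n ^ 2 := by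
  have h1 : (n : ℝ) ≤ 400 := by exact_mod_cast h
  rw [vN, lamV, max_eq_left (by linarith)]
  linear_combination 1 / 40 * pN_sq hn

theorem vN_big {n : ℕ} (h : 400 ≤ n) : vN n = 3 / 25 - 33 / 10 * pN n ^ 2 := by
  have h1 : (400 : ℝ) ≤ n := by exact_mod_cast h
  rw [vN, lamV, max_eq_right (by linarith)]
  linear_combination 3 / 100 * pN_sq (n := n) (by omega)

theorem tN_eq {n : ℕ} (hn : 97 ≤ n) : ∃ θ : ℝ, 0 ≤ θ ∧ θ ≤ pN n ^ 2 / 8 ∧
    tN n = 1 - Real.log 2 - pN n ^ 2 / 2 * (2 * Real.log 2 + Real.log Real.pi / 2 -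
      3 * Real.log (pN n) + Real.log (vN n) + θ) := by
  obtain ⟨θ, h0, h1, h2⟩ := stirling (n := n) (by omega)
  have hp := pN_pos hn
  have hs := pN_sq hn
  have hl := lamV_pos hn
  have hc := par0_cast hn
  have hπ := Real.pi_pos
  have e1 : (n : ℝ) / 2 = 2 / pN n ^ 2 := by
    field_simp
    linarith
  have e2 : 2 / (n : ℝ) = pN n ^ 2 / 2 := by
    field_simp
    linarith
  have hν : 0 < (n : ℝ) / 2 := by linarith
  have e3 : Real.log ((n : ℝ) / 2) = Real.log 2 - 2 * Real.log (pN n) := by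
    rw [e1, Real.log_div (by norm_num) (by positivity), Real.log_pow]
    norm_num
  refine ⟨θ, h0, h1.trans_eq (by rw [e1]; field_simp; norm_num), ?_⟩
  have hG : 0 < Real.Gamma ((n : ℝ) / 2 + 1) := Real.Gamma_pos_of_pos (by linarith)
  have e4 : Real.log (Real.Gamma ((n : ℝ) / 2 + 1)) = (Real.log 2 + Real.log Real.pi +
      Real.log ((n : ℝ) / 2)) / 2 + (n : ℝ) / 2 * (Real.log ((n : ℝ) / 2) - 1) + θ := by
    rw [h2, Real.log_mul (by positivity) (by positivity), Real.log_mul (by positivity)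
      (by positivity), Real.log_exp, Real.log_sqrt (by positivity), Real.log_rpow (by positivity),
      Real.log_div (by positivity) (by positivity), Real.log_exp,
      Real.log_mul (by positivity) (by positivity), Real.log_mul (by positivity) (by positivity)]
  rw [tN, vN, Real.log_mul (by positivity) (by positivity), Real.log_rpow (by positivity),
    Real.log_mul (by positivity) hG.ne', Real.log_mul (by positivity) hl.ne',
    Real.log_mul hl.ne' (by positivity), Real.log_pow, e4, e3, e2]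
  push_cast
  linear_combination (-(Real.log 2 - 2 * Real.log (pN n) - 1) / 4) * hs

theorem Cert.Adm.ge {C : Cert} {n : ℕ} (hwf : C.wf = true) (h : C.Adm n) : 97 ≤ n := by
  simp only [Cert.wf, Bool.and_eq_true, Nat.ble_eq] at hwf
  exact hwf.1.1.1.1.1.1.1.1.1.trans h.1

theorem par0_val {x B : ℕ} (hB : (B : ℝ) = 2 ^ 72) (h : B ≤ x) :
    val x = (Nat.sub x B : ℝ) / 2 ^ 60 := by
  rw [val, Nat.sub_eq, Nat.cast_sub h, hB]

theorem par0_neg {x : ℕ} (h : x ≤ 4722366482869645213696) : val x ≤ 0 := by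
  have h1 : (x : ℝ) ≤ 4722366482869645213696 := by exact_mod_cast h
  exact div_nonpos_of_nonpos_of_nonneg (by linarith) (by positivity)

theorem par0_lo {n m d M : ℕ} (hn : 97 ≤ n) (hM : (M : ℝ) = 2 ^ 122) (k : n ≤ m)
    (w : Nat.mul m (Nat.pow d 2) ≤ M) : (d : ℝ) / 2 ^ 60 ≤ pN n := by
  have k3 : (n : ℝ) * (d : ℝ) ^ 2 ≤ M := by
    exact_mod_cast (Nat.mul_le_mul_right (d ^ 2) k).trans w
  refine (pow_le_pow_iff_left₀ (by positivity) (pN_pos hn).le two_ne_zero).1 ?_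
  refine le_of_mul_le_mul_right ?_ (show (0 : ℝ) < n by linarith [par0_cast hn])
  rw [pN_sq hn, div_pow]
  linarith

theorem par0_hi {n m d M : ℕ} (hn : 97 ≤ n) (hM : (M : ℝ) = 2 ^ 122) (k : m ≤ n)
    (w : M ≤ Nat.mul m (Nat.pow d 2)) : pN n ≤ (d : ℝ) / 2 ^ 60 := by
  have k3 : (M : ℝ) ≤ (n : ℝ) * (d : ℝ) ^ 2 := by
    exact_mod_cast w.trans (Nat.mul_le_mul_right (d ^ 2) k)
  refine (pow_le_pow_iff_left₀ (pN_pos hn).le (by positivity) two_ne_zero).1 ?_
  refine le_of_mul_le_mul_right ?_ (show (0 : ℝ) < n by linarith [par0_cast hn])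
  rw [pN_sq hn, div_pow]
  linarith

theorem Cert.base {C : Cert} {n : ℕ} (hwf : C.wf = true) (h : C.Adm n) :
    Base C (pN n) (tN n) (vN n) := by
  have hn := h.ge hwf
  have hp := pN_pos hn
  have hs := pN_sq hn
  simp only [Cert.wf, Bool.and_eq_true, Nat.ble_eq] at hwf
  obtain ⟨⟨⟨⟨⟨⟨⟨⟨⟨-, w2⟩, w3⟩, w4⟩, w5⟩, w6⟩, -⟩, -⟩, -⟩, -⟩ := hwf
  obtain ⟨a1, a2⟩ := h
  refine ⟨hp, ?_, ?_, ?_, fun hb => ?_, fun hb => ?_, fun hi => ?_, tN_eq hn⟩
  · rcases le_total C.plo 4722366482869645213696 with k | k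
    · exact (par0_neg k).trans hp.le
    cases hi : C.inf
    · rw [hi, cond_false, Nat.ble_eq] at w6
      rw [par0_val (by norm_num) k]
      exact par0_lo hn (by norm_num) (a2.resolve_left (by simp [hi])) w6
    · rw [hi, cond_true, Nat.ble_eq] at w6
      exact (par0_neg w6).trans hp.le
  · rw [par0_val (by norm_num) w4]
    exact par0_hi hn (by norm_num) a1 w5
  · have k1 : (C.n0 : ℝ) ≤ n := by exact_mod_cast w2.trans a1
    nlinarith [mul_le_mul_of_nonneg_right k1 (sq_nonneg (pN n))]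
  · rw [hb] at w3
    simp only [cond_false, Bool.and_eq_true, Bool.not_eq_true', Nat.ble_eq] at w3
    exact vN_small hn ((a2.resolve_left (by simp [w3.1])).trans w3.2)
  · rw [hb, cond_true, Nat.ble_eq] at w3
    exact vN_big (w3.trans a1)
  · cases hb : C.big
    · rw [hb, hi] at w3
      simp at w3
    · rfl

theorem Cert.rad_pos (C : Cert) {n : ℕ} (hn : 97 ≤ n) : 0 < (C.famN n).rad :=
  div_pos (Real.exp_pos _) (mul_pos Real.pi_pos (pow_pos (pN_pos hn) 2))

theorem Cert.vol (C : Cert) {n : ℕ} (hn : 97 ≤ n) :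
    (Real.pi * (C.famN n).rad) ^ ((n : ℝ) / 2) / Real.Gamma ((n : ℝ) / 2 + 1) =
      2 * lamV ((n : ℝ) / 2) := by
  have hp := pN_pos hn
  have hl := lamV_pos hn
  have hc := par0_cast hn
  have hπ := Real.pi_pos
  have hG : 0 < Real.Gamma ((n : ℝ) / 2 + 1) := Real.Gamma_pos_of_pos (by linarith)
  have e : Real.pi * (C.famN n).rad =
      (2 * lamV ((n : ℝ) / 2) * Real.Gamma ((n : ℝ) / 2 + 1)) ^ (2 / (n : ℝ)) := by
    show Real.pi * (Real.exp (-tN n) / (Real.pi * pN n ^ 2)) = _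
    rw [tN, neg_neg, Real.exp_log (by positivity)]
    field_simp
  rw [e, ← Real.rpow_mul (by positivity), show 2 / (n : ℝ) * (n / 2) = 1 by field_simp,
    Real.rpow_one, mul_div_cancel_right₀ _ hG.ne']

theorem par0_TT (C : Cert) {n : ℕ} (hn : 97 ≤ n) (hτ : 0 < tN n) :
    (C.famN n).ρ * (C.famN n).TT = 2 * lamV ((n : ℝ) / 2) := by
  have hp := pN_pos hn
  show vN n / tN n * (2 * tN n / pN n ^ 2) = _
  rw [vN]
  field_simp

theorem Cert.dim (C : Cert) {n : ℕ} (hn : 97 ≤ n) (hτ : 0 < tN n) : (C.famN n).Dim n :=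
  ⟨pN_sq hn, (C.vol hn).trans (par0_TT C hn hτ).symm⟩

theorem dec_le {C : Cert} {n : ℕ} (h : C.n1 ≤ n) :
    dec ((n : ℝ) / 2) ≤ Real.exp (97 / 2000 - 1 / 2000 * (C.n1 : ℝ)) := by
  have h1 : (C.n1 : ℝ) ≤ n := by exact_mod_cast h
  exact Real.exp_le_exp.2 (by linarith)

theorem par0_G {n : ℕ} (hn : 97 ≤ n) :
    Real.Gamma ((n : ℝ) / 2 + 1) * Real.exp ((n : ℝ) / 2) / ((n : ℝ) / 2) ^ ((n : ℝ) / 2) * pN n ≤
      2 * (1783 / 1000) := by
  obtain ⟨θ, h0, h1, h2⟩ := stirling (n := n) (by omega)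
  have hp := pN_pos hn
  have hs := pN_sq hn
  have hc := par0_cast hn
  have hπ := Real.pi_pos
  have hν : 0 < (n : ℝ) / 2 := by linarith
  have e1 : Real.sqrt (2 * Real.pi * ((n : ℝ) / 2)) * pN n ≤ 2 * (17725 / 10000) := by
    refine (pow_le_pow_iff_left₀ (by positivity) (by positivity) two_ne_zero).1 ?_
    rw [mul_pow, Real.sq_sqrt (by positivity),
      show 2 * Real.pi * ((n : ℝ) / 2) * pN n ^ 2 = Real.pi * (pN n ^ 2 * n) by ring, hs]
    linarith [Real.pi_lt_d4]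
  have e2 : θ ≤ 1 / 194 := h1.trans (one_div_le_one_div_of_le (by norm_num) (by linarith))
  have e3 : Real.exp θ ≤ 194 / 193 := by
    have k1 := Real.add_one_le_exp (-θ)
    have k2 : Real.exp θ * Real.exp (-θ) = 1 := by rw [← Real.exp_add]; simp
    nlinarith [Real.exp_pos θ]
  have e4 : Real.Gamma ((n : ℝ) / 2 + 1) * Real.exp ((n : ℝ) / 2) / ((n : ℝ) / 2) ^ ((n : ℝ) / 2) *
      pN n = Real.sqrt (2 * Real.pi * ((n : ℝ) / 2)) * pN n * Real.exp θ := by
    have k1 := Real.rpow_pos_of_pos hν ((n : ℝ) / 2)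
    have k2 := Real.exp_pos ((n : ℝ) / 2)
    rw [h2, Real.div_rpow hν.le (Real.exp_pos 1).le, Real.exp_one_rpow]
    generalize ((n : ℝ) / 2) ^ ((n : ℝ) / 2) = a at k1 ⊢
    generalize Real.exp ((n : ℝ) / 2) = b at k2 ⊢
    generalize Real.sqrt _ = c
    field_simp
  rw [e4]
  exact (mul_le_mul e1 e3 (Real.exp_pos θ).le (by norm_num)).trans (by norm_num)

/-- the additive error in the units of the family -/
theorem Cert.eh_ge (C : Cert) {n : ℕ} (hn : 97 ≤ n) (hτ : 0 < tN n) {ε : ℝ} (h0 : 0 ≤ ε)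
    (hε : ε ≤ val C.eps) :
    ε * varpi ((n : ℝ) / 2) (C.famN n).rad * (Real.exp (Real.pi * (C.famN n).rad) /
      (Real.sqrt (C.famN n).ρ * (C.famN n).TT)) ^ 2 ≤ (C.famN n).eh := by
  have hp := pN_pos hn
  have hl := lamV_pos hn
  have hG := par0_G hn
  have hρ : 0 < (C.famN n).ρ := div_pos (mul_pos hl (pow_pos hp 2)) hτ
  have hT : (C.famN n).TT = 2 * tN n / pN n ^ 2 := rfl
  have he : (C.famN n).eh = 1783 / 1000 * val C.eps * (pN n / tN n) := rfl
  have e1 : Real.exp (-(2 * Real.pi * (C.famN n).rad)) =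
      (Real.exp (Real.pi * (C.famN n).rad) ^ 2)⁻¹ := by
    rw [Real.exp_neg, ← Real.exp_nat_mul, mul_assoc, Nat.cast_ofNat]
  have e2 := Real.exp_pos (Real.pi * (C.famN n).rad)
  rw [varpi, ← par0_TT C hn hτ, div_pow, mul_pow, Real.sq_sqrt hρ.le, e1, he, hT]
  generalize Real.Gamma ((n : ℝ) / 2 + 1) * Real.exp ((n : ℝ) / 2) /
    ((n : ℝ) / 2) ^ ((n : ℝ) / 2) = G at hG ⊢
  generalize Real.exp (Real.pi * (C.famN n).rad) = E at e2 ⊢
  generalize (C.famN n).ρ = ρ at hρ ⊢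
  calc _ = ε * (G * pN n / 2) * (pN n / tN n) := by field_simp
    _ ≤ _ := mul_le_mul_of_nonneg_right (by nlinarith [mul_le_mul_of_nonneg_left hG h0])
      (by positivity)

end Pool.Agent.Eps.T
end
end
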