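import Mathlib
import Pool.Agent.Lib.MP_3bda03_nt.T.Loop
import Pool.Agent.Lib.MP_3bda03_nt.T.Spec3

-- part Pool.Agent.Lib.MP_3bda03_nt.T.StepF
section

/-! The steps of the forward mode: cells. -/

set_option autoImplicit false

noncomputable section

open MeasureTheory Set

namespace Pool.Agent.Eps.T

variable {F : Fam} {α z J I M a b lo b2 mm xf KB : ℝ} {c : Cell} {r : Ck} {s e d : List ℝ}

theorem stepF_neg (h : F.Ok) (hx : CtxF F α z J) (t : ℝ) :
    0 ≤ α ∧ Af F.p (-α) t ≤ 14 / 5 * J / F.jj α := by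
  have h0 : 0 ≤ α := by
    rw [hx.al]
    exact mul_nonneg hx.z_nonneg (div_pos h.p_pos h.τ_pos).le
  refine ⟨h0, ?_⟩
  rw [le_div_iff₀' (h.jj_pos α)]
  exact h.jj_Af_neg_le h0 hx.hJ t

theorem stepF_exp (α a b x : ℝ) : Real.exp (-(α * (a - x))) * Real.exp (-(α * (b - a))) =
    Real.exp (-(α * (b - x))) := by
  rw [← Real.exp_add]
  congr 1
  ring

theorem lF_ok {bb : ℝ} {v0 : ℕ} (h : F.Ok) (hx : CtxF F α z J) (hc : LogC F b2 xf b bb (val v0))
    (hT : TpL F b bb e)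
    (H : (lF v0 r).holds (1 :: I :: M :: z :: J :: 14 / 5 * J :: α :: KB :: F.p * F.lam / 2 :: s)
      (e ++ d)) :
    ∃ I' : ℝ, I + F.jj α ^ 2 * (F.I2 α F.x1 b - 2 * (F.Kx F.x1 b / b2)) ≤ I' ∧
      r.holds (Real.exp (-(α * (b - F.x1))) :: I' :: M :: z :: J :: 14 / 5 * J :: α :: KB ::
        F.p * F.lam / 2 :: s) d := by
  obtain ⟨ib, rfl, hib⟩ := hT
  obtain ⟨s1, e1, Ei, rfl, S, hS, s0, e0, S0, hS0, I1, eI, H⟩ := lF_spec H
  have hj := h.jj_pos α
  have k1 : s1 = α * (b - F.x1) := by rw [e1, hx.al]; ring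
  have k0 : s0 = α * (val v0 * F.p / 2) := by rw [e0, hx.al]; ring
  subst k1
  refine ⟨I1, ?_, H⟩
  have h1 := hc.I_le h hib (γ := α) (u := 1 / F.jj α)
    (by rw [le_div_iff₀' hj]; exact (h.jj_mul α).le)
  have h2 := hc.I_sup h hib (γ := -α) (S := S) (S0 := S0) (by rwa [neg_mul, abs_neg])
    (by rwa [neg_mul, abs_neg, ← k0]) fun t _ => (stepF_neg h hx t).2
  rw [eI, k0, Fam.I2]
  refine add_le_add_right ?_ _
  refine (mul_le_mul_of_nonneg_left (sub_le_sub_right (add_le_add h1 h2) _) (sq_nonneg _)).trans_eq ?_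
  field_simp
  ring

theorem fF_ok (h : F.Ok) (hx : CtxF F α z J) (hc : FarC F b2 mm xf lo a b c) (hT : TpF F a b c e)
    (H : (fF c.m r).holds (Real.exp (-(α * (a - F.x1))) :: I :: M :: z :: J :: 14 / 5 * J :: s)
      (e ++ d)) :
    ∃ I' : ℝ, I + F.jj α ^ 2 * (F.I2 α a b - 2 * (F.Kx a b / b2)) ≤ I' ∧
      r.holds (Real.exp (-(α * (b - F.x1))) :: I' :: (M + F.Sx α a b) :: z :: J :: 14 / 5 * J ::
        s) d := by
  obtain ⟨ib, rfl, hib⟩ := hT
  obtain ⟨s1, e1, Ei, rfl, S, hS, M1, rfl, I1, eI, E1, rfl, H⟩ := fF_spec H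
  have hj := h.jj_pos α
  have k1 : s1 = α * (b - a) := by rw [e1, hx.al]; ring
  subst k1
  rw [stepF_exp, ← hc.Sx_eq] at H
  refine ⟨I1, ?_, H⟩
  have h1 := hc.I_le h hib (γ := α) (u := Real.exp (-(α * (a - F.x1))) / F.jj α)
    (by rw [le_div_iff₀' hj]; exact h.jj_Af_le α hc.x1_le)
  have h2 := hc.I_sup h hib (γ := -α) (S := S) (by rwa [neg_mul, abs_neg])
    fun t _ => (stepF_neg h hx t).2
  rw [eI, Fam.I2]
  refine add_le_add_right ?_ _
  refine (mul_le_mul_of_nonneg_left (sub_le_sub_right (add_le_add h1 h2) _) (sq_nonneg _)).trans_eq ?_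
  field_simp
  ring

theorem nF_ok (h : F.Ok) (hx : CtxF F α z J) (hc : NearC F lo a b c) (hT : TpN F a b c e)
    (H : (nF c.m r).holds (Real.exp (-(α * (a - F.x1))) :: I :: M :: z :: J :: 14 / 5 * J :: s)
      (e ++ d)) :
    ∃ I' : ℝ, I + F.jj α ^ 2 * F.I2 α a b ≤ I' ∧
      r.holds (Real.exp (-(α * (b - F.x1))) :: I' :: (M + F.Sx α a b) :: z :: J :: 14 / 5 * J ::
        s) d := by
  obtain ⟨cd, P, Q, ib, rfl, -, hP, hQ, hib⟩ := hT
  obtain ⟨s1, e1, Ei, rfl, S, hS, d0, ed, JP, eJ, u1, hu, M1, rfl, I1, eI, E1, rfl, H⟩ := nF_spec H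
  have hj := h.jj_pos α
  have k1 : s1 = α * (b - a) := by rw [e1, hx.al]; ring
  subst k1
  rw [stepF_exp, ed, ← hc.Sx_eq] at H
  refine ⟨I1, ?_, H⟩
  have hα := (stepF_neg h hx a).1
  have hab := hc.lt
  have ha : a ∈ Icc a b := ⟨le_rfl, hab.le⟩
  have hE := h.jj_Af_le α hc.x1_le
  have hu' := (le_abs_self _).trans hu
  have hP0 : 0 ≤ P := (mul_pos (sub_pos.2 hab) (kf_pos _ _)).le.trans (hP a ha)
  have hQ0 : 0 ≤ Q := (mul_nonneg (sub_pos.2 hab).le (abs_nonneg _)).trans (hQ a ha)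
  have hS0 : 0 ≤ S := (abs_nonneg _).trans hS
  have hu0 : 0 ≤ u1 := (abs_nonneg _).trans hu
  have hJ0 : 0 ≤ J := hj.le.trans hx.hJ
  have hib0 : 0 ≤ ib := (pos_of_mul_pos_left (one_pos.trans_le hib) hc.bb_pos.le).le
  have hJP : F.jj α * P ≤ JP := eJ ▸ mul_le_mul_of_nonneg_right hx.hJ hP0
  have h1 := hc.I_le h hib (γ := α) (A := u1 / F.jj α) hS (fun t ht => by
    rw [le_div_iff₀' hj]
    exact (mul_le_mul_of_nonneg_left (Af_anti h.p_pos hα ht.1) hj.le).trans (hE.trans hu')) hP hQ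
  have h2 := hc.I_sup h hib (γ := -α) (S := S) (by rwa [neg_mul, abs_neg])
    (fun t _ => (stepF_neg h hx t).2) hP
  have h3 : 0 ≤ Af F.p α a - Af F.p α b := sub_nonneg.2 (Af_anti h.p_pos hα hab.le)
  have h4 : F.jj α * (Af F.p α a - Af F.p α b) ≤ d0 + JP := by
    have g1 := mul_le_mul_of_nonneg_left (Af_sub_le h.p_pos hα hab.le hP) hj.le
    have g2 : 0 ≤ 1 - Real.exp (-(α * (b - a))) :=
      sub_nonneg.2 (Real.exp_le_one_iff.2 (neg_nonpos.2 (mul_nonneg hα (sub_pos.2 hab).le)))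
    have g3 := mul_le_mul_of_nonneg_right hE g2
    rw [ed]
    linarith
  have h5 : S ^ 2 * u1 + (S + Q) * (F.jj α * P) ≤ S ^ 2 * u1 + (S + Q) * JP := by gcongr
  have h6 : F.jj α * P + 14 / 5 * J * S ≤ JP + 14 / 5 * J * S := by gcongr
  have g4 := pow_le_pow_left₀ (by positivity) h4 2
  have g5 := pow_le_pow_left₀ (by positivity) h5 2
  have g6 := pow_le_pow_left₀ (by positivity) h6 2
  rw [eI, Fam.I2]
  refine add_le_add_right ((mul_le_mul_of_nonneg_left (add_le_add h1 h2) (sq_nonneg _)).trans ?_) _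
  refine le_trans (le_of_eq ?_) (mul_le_mul_of_nonneg_left (add_le_add (add_le_add g4
    (mul_le_mul_of_nonneg_left g5 (by norm_num))) g6) hib0)
  field_simp
  ring

end Pool.Agent.Eps.T
end
end

-- part Pool.Agent.Lib.MP_3bda03_nt.T.Spec2
section

/-! The meaning of the check programs, step by step (generated). -/

set_option autoImplicit false
set_option linter.unusedSimpArgs false

namespace Pool.Agent.Eps.T

theorem begB_spec {z1 z2 e0 th xe : ℕ} {r : Ck} {ke qe KB sig lam : ℝ} {s d : List ℝ}  (H : (begB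
    z1 z2 e0 th xe r).holds (ke :: qe :: KB :: sig :: lam :: s) (d)) :
    ∀ z : ℝ, val z1 ≤ z → z ≤ val z2 →
    (0 : ℝ) ≤ val e0 ∧
    ∃ al : ℝ, al = z * lam ∧
    ∃ w0 : ℝ, w0 = val e0 * al ∧
    ∃ gz : ℝ, gz = val th * z ∧
    ∃ io : ℝ, io = Real.exp (-(w0 + gz)) ∧
    ∃ iU : ℝ, |io| ≤ iU ∧
    ∃ y : ℝ, 0 < y ∧
    (1 : ℝ) ≤ y * (qe - al) ∧
    ∃ Ue : ℝ, |(1 / 2 : ℝ) * Real.exp (val xe * al - w0) * ke * y| ≤ Ue ∧
    ∀ ap : ℝ, |ap - Ue| ≤ Ue →
    ∀ am : ℝ, |am - Ue| ≤ Ue →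
    ∃ I : ℝ, I = (0 : ℝ) ∧
    ∃ M : ℝ, M = (0 : ℝ) ∧
    r.holds (ap :: am :: I :: M :: z :: w0 :: gz :: iU :: al :: io :: KB :: sig :: lam :: s) (d) := by
  unfold begB at H
  intro z k_ k2_
  replace H := H.box_elim z k_ k2_
  clear k_ k2_
  obtain ⟨k_, H⟩ := H.le_elim
  refine ⟨(by simpa only [Ex.val, List.getD_cons_zero, List.getD_cons_succ, Nat.cast_ofNat,
    Nat.cast_one, Nat.cast_zero] using k_), ?_⟩
  clear k_
  obtain ⟨al, k_, H⟩ := H.slet_elim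
  refine ⟨al, (by simpa only [Ex.val, List.getD_cons_zero, List.getD_cons_succ, Nat.cast_ofNat,
    Nat.cast_one, Nat.cast_zero] using k_), ?_⟩
  clear k_
  obtain ⟨w0, k_, H⟩ := H.slet_elim
  refine ⟨w0, (by simpa only [Ex.val, List.getD_cons_zero, List.getD_cons_succ, Nat.cast_ofNat,
    Nat.cast_one, Nat.cast_zero] using k_), ?_⟩
  clear k_
  obtain ⟨gz, k_, H⟩ := H.slet_elim
  refine ⟨gz, (by simpa only [Ex.val, List.getD_cons_zero, List.getD_cons_succ, Nat.cast_ofNat,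
    Nat.cast_one, Nat.cast_zero] using k_), ?_⟩
  clear k_
  obtain ⟨io, k_, H⟩ := H.slet_elim
  refine ⟨io, (by simpa only [Ex.val, List.getD_cons_zero, List.getD_cons_succ, Nat.cast_ofNat,
    Nat.cast_one, Nat.cast_zero] using k_), ?_⟩
  clear k_
  obtain ⟨iU, k_, H⟩ := H.uabs_elim
  refine ⟨iU, (by simpa only [Ex.val, List.getD_cons_zero, List.getD_cons_succ, Nat.cast_ofNat,
    Nat.cast_one, Nat.cast_zero] using k_), ?_⟩
  clear k_
  obtain ⟨y, k_, H⟩ := H.rcp_elim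
  refine ⟨y, k_, ?_⟩
  clear k_
  obtain ⟨k_, H⟩ := H.le_elim
  refine ⟨(by simpa only [Ex.val, List.getD_cons_zero, List.getD_cons_succ, Nat.cast_ofNat,
    Nat.cast_one, Nat.cast_zero] using k_), ?_⟩
  clear k_
  obtain ⟨Ue, k_, H⟩ := H.uabs_elim
  refine ⟨Ue, (by simpa only [Ex.val, List.getD_cons_zero, List.getD_cons_succ, Nat.cast_ofNat,
    Nat.cast_one, Nat.cast_zero] using k_), ?_⟩
  clear k_
  intro ap k_
  replace H := H.near_elim ap (by simpa only [Ex.val, List.getD_cons_zero, List.getD_cons_succ,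
    Nat.cast_ofNat, Nat.cast_one, Nat.cast_zero] using k_)
  clear k_
  intro am k_
  replace H := H.near_elim am (by simpa only [Ex.val, List.getD_cons_zero, List.getD_cons_succ,
    Nat.cast_ofNat, Nat.cast_one, Nat.cast_zero] using k_)
  clear k_
  obtain ⟨I, k_, H⟩ := H.slet_elim
  refine ⟨I, (by simpa only [Ex.val, List.getD_cons_zero, List.getD_cons_succ, Nat.cast_ofNat,
    Nat.cast_one, Nat.cast_zero] using k_), ?_⟩
  clear k_
  obtain ⟨M, k_, H⟩ := H.slet_elim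
  refine ⟨M, (by simpa only [Ex.val, List.getD_cons_zero, List.getD_cons_succ, Nat.cast_ofNat,
    Nat.cast_one, Nat.cast_zero] using k_), ?_⟩
  clear k_
  have H := H.slet_var
  have H := H.slet_var
  have H := H.slet_var
  have H := H.slet_var
  have H := H.slet_var
  have H := H.slet_var
  have H := H.slet_var
  have H := H.slet_var
  have H := H.slet_var
  have H := H.slet_var
  replace H := H.cut_elim
  simpa only [List.take_succ_cons, List.take_zero, List.drop_succ_cons, List.drop_zero,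
    List.cons_append, List.nil_append, List.getD_cons_zero, List.getD_cons_succ, Nat.reduceAdd]
    using H

theorem gB_spec  {r : Ck} {ap am I M z w0 sl yl Km qd cd : ℝ} {s d : List ℝ}  (H : (gB  r).holds
    (ap :: am :: I :: M :: z :: w0 :: s) (sl :: yl :: Km :: qd :: cd :: d)) :
    ∃ s1 : ℝ, s1 = sl * z ∧
    ∃ y : ℝ, y = yl * z ∧
    ∀ t1 : ℝ, ShR (s1 - qd) cd t1 →
    ∀ t2 : ℝ, ShR (s1 + qd) cd t2 →
    ∃ am1 : ℝ, am1 = am + Km * Real.exp (-(y + w0)) * t2 ∧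
    ∃ ap1 : ℝ, ap1 = ap + Km * Real.exp (y - w0) * t1 ∧
    r.holds (ap1 :: am1 :: I :: M :: z :: w0 :: s) (d) := by
  unfold gB at H
  replace H := H.pop_elim
  replace H := H.pop_elim
  replace H := H.pop_elim
  replace H := H.pop_elim
  replace H := H.pop_elim
  obtain ⟨s1, k_, H⟩ := H.slet_elim
  refine ⟨s1, (by simpa only [Ex.val, List.getD_cons_zero, List.getD_cons_succ, Nat.cast_ofNat,
    Nat.cast_one, Nat.cast_zero] using k_), ?_⟩
  clear k_
  obtain ⟨y, k_, H⟩ := H.slet_elim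
  refine ⟨y, (by simpa only [Ex.val, List.getD_cons_zero, List.getD_cons_succ, Nat.cast_ofNat,
    Nat.cast_one, Nat.cast_zero] using k_), ?_⟩
  clear k_
  replace H := H.slet_raw
  replace H := H.slet_raw
  intro t1 k_
  replace H := shP_elim t1 (by simpa only [Ex.val, List.getD_cons_zero, List.getD_cons_succ,
    Nat.cast_ofNat, Nat.cast_one, Nat.cast_zero] using k_) H
  clear k_
  replace H := H.slet_raw
  replace H := H.slet_raw
  intro t2 k_
  replace H := shP_elim t2 (by simpa only [Ex.val, List.getD_cons_zero, List.getD_cons_succ,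
    Nat.cast_ofNat, Nat.cast_one, Nat.cast_zero] using k_) H
  clear k_
  obtain ⟨am1, k_, H⟩ := H.slet_elim
  refine ⟨am1, (by simpa only [Ex.val, List.getD_cons_zero, List.getD_cons_succ, Nat.cast_ofNat,
    Nat.cast_one, Nat.cast_zero] using k_), ?_⟩
  clear k_
  obtain ⟨ap1, k_, H⟩ := H.slet_elim
  refine ⟨ap1, (by simpa only [Ex.val, List.getD_cons_zero, List.getD_cons_succ, Nat.cast_ofNat,
    Nat.cast_one, Nat.cast_zero] using k_), ?_⟩
  clear k_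
  replace H := H.cut_elim
  simpa only [List.take_succ_cons, List.take_zero, List.drop_succ_cons, List.drop_zero,
    List.cons_append, List.nil_append, List.getD_cons_zero, List.getD_cons_succ, Nat.reduceAdd]
    using H

theorem swB_spec {xc mi w : ℕ} {r : Ck} {ap am I M z w0 gz iU al io KB sig lam p Lam ibi iT i2 kc
    qc : ℝ} {s d : List ℝ}  (H : (swB xc mi w r).holds (ap :: am :: I :: M :: z :: w0 :: gz :: iU
    :: al :: io :: KB :: sig :: lam :: p :: Lam :: ibi :: iT :: i2 :: kc :: qc :: s) (d)) :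
    ∃ y : ℝ, y = val xc * al ∧
    ∃ cp : ℝ, cp = Real.exp (-(y + gz)) * ap ∧
    ∃ cm : ℝ, cm = Real.exp (y - gz) * am ∧
    ∃ gp : ℝ, gp = qc - al ∧
    ∃ ik : ℝ, ik = io * kc ∧
    ∃ pa : ℝ, pa = p * al ∧
    pa ≤ (2 / 3 : ℝ) ∧
    ∃ wp : ℝ, wp = (val w - gp) ^ 2 ∧
    ∃ M1 : ℝ, M1 = val mi * (cp + cm) ∧
    ∃ I1 : ℝ, I1 = (cp ^ 2 + cm ^ 2) * ibi + (cp * (ik * (1 + wp) + (ik - gp * cp) * wp) + cm *
      (ik * (1 + (val w - (qc + al)) ^ 2 * (1 + 3 * pa)))) * iT + 2 * io ^ 2 * i2 ∧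
    r.holds (ap :: am :: I1 :: M1 :: z :: w0 :: gz :: iU :: al :: io :: KB :: sig :: lam :: p ::
      Lam :: ibi :: iT :: i2 :: kc :: qc :: s) (d) := by
  unfold swB at H
  obtain ⟨y, k_, H⟩ := H.slet_elim
  refine ⟨y, (by simpa only [Ex.val, List.getD_cons_zero, List.getD_cons_succ, Nat.cast_ofNat,
    Nat.cast_one, Nat.cast_zero] using k_), ?_⟩
  clear k_
  obtain ⟨cp, k_, H⟩ := H.slet_elim
  refine ⟨cp, (by simpa only [Ex.val, List.getD_cons_zero, List.getD_cons_succ, Nat.cast_ofNat,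
    Nat.cast_one, Nat.cast_zero] using k_), ?_⟩
  clear k_
  obtain ⟨cm, k_, H⟩ := H.slet_elim
  refine ⟨cm, (by simpa only [Ex.val, List.getD_cons_zero, List.getD_cons_succ, Nat.cast_ofNat,
    Nat.cast_one, Nat.cast_zero] using k_), ?_⟩
  clear k_
  obtain ⟨gp, k_, H⟩ := H.slet_elim
  refine ⟨gp, (by simpa only [Ex.val, List.getD_cons_zero, List.getD_cons_succ, Nat.cast_ofNat,
    Nat.cast_one, Nat.cast_zero] using k_), ?_⟩
  clear k_
  obtain ⟨ik, k_, H⟩ := H.slet_elim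
  refine ⟨ik, (by simpa only [Ex.val, List.getD_cons_zero, List.getD_cons_succ, Nat.cast_ofNat,
    Nat.cast_one, Nat.cast_zero] using k_), ?_⟩
  clear k_
  obtain ⟨pa, k_, H⟩ := H.slet_elim
  refine ⟨pa, (by simpa only [Ex.val, List.getD_cons_zero, List.getD_cons_succ, Nat.cast_ofNat,
    Nat.cast_one, Nat.cast_zero] using k_), ?_⟩
  clear k_
  obtain ⟨k_, H⟩ := H.le_elim
  refine ⟨(by simpa only [Ex.val, List.getD_cons_zero, List.getD_cons_succ, Nat.cast_ofNat,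
    Nat.cast_one, Nat.cast_zero] using k_), ?_⟩
  clear k_
  obtain ⟨wp, k_, H⟩ := H.slet_elim
  refine ⟨wp, (by simpa only [Ex.val, List.getD_cons_zero, List.getD_cons_succ, Nat.cast_ofNat,
    Nat.cast_one, Nat.cast_zero] using k_), ?_⟩
  clear k_
  obtain ⟨M1, k_, H⟩ := H.slet_elim
  refine ⟨M1, (by simpa only [Ex.val, List.getD_cons_zero, List.getD_cons_succ, Nat.cast_ofNat,
    Nat.cast_one, Nat.cast_zero] using k_), ?_⟩
  clear k_
  obtain ⟨I1, k_, H⟩ := H.slet_elim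
  refine ⟨I1, (by simpa only [Ex.val, List.getD_cons_zero, List.getD_cons_succ, Nat.cast_ofNat,
    Nat.cast_one, Nat.cast_zero] using k_), ?_⟩
  clear k_
  have H := H.slet_var
  have H := H.slet_var
  have H := H.slet_var
  have H := H.slet_var
  replace H := H.cut_elim
  simpa only [List.take_succ_cons, List.take_zero, List.drop_succ_cons, List.drop_zero,
    List.cons_append, List.nil_append, List.getD_cons_zero, List.getD_cons_succ, Nat.reduceAdd]
    using H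

theorem nB_spec {m : ℕ} {r : Ck} {ap am I M z w0 gz iU sl yl Km qd cd P Q ib : ℝ} {s d : List ℝ} 
    (H : (nB m r).holds (ap :: am :: I :: M :: z :: w0 :: gz :: iU :: s) (sl :: yl :: Km :: qd ::
    cd :: P :: Q :: ib :: d)) :
    ∃ s1 : ℝ, s1 = sl * z ∧
    ∃ y : ℝ, y = yl * z ∧
    ∃ E : ℝ, E = Real.exp s1 ∧
    ∃ Ei : ℝ, Ei = Real.exp (-s1) ∧
    ∃ Fp : ℝ, Fp = Real.exp (-(y + gz)) ∧
    ∃ Fm : ℝ, Fm = Real.exp (y - gz) ∧
    ∃ ym : ℝ, ym = y + (1 / 2 : ℝ) * s1 ∧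
    ∀ t1 : ℝ, ShR (s1 - qd) cd t1 →
    ∀ t2 : ℝ, ShR (s1 + qd) cd t2 →
    ∃ kp : ℝ, kp = Km * Real.exp (ym - w0) * t1 ∧
    ∃ km : ℝ, km = Km * Real.exp (-(ym + w0)) * t2 ∧
    ∃ dp : ℝ, dp = Fp * ((1 - Ei) * ap + kp) ∧
    ∃ dm : ℝ, dm = Fm * ((1 - E) * am + km) ∧
    ∃ ap1 : ℝ, ap1 = ap + kp ∧
    ∃ am1 : ℝ, am1 = am + km ∧
    ∃ S : ℝ, |s1| ≤ S ∧
    ∃ S2 : ℝ, S2 = S ^ 2 ∧
    ∃ t : ℝ, t = (S + Q) * iU * P ∧
    ∃ u1 : ℝ, |Fp| ≤ u1 ∧
    ∃ u2 : ℝ, |ap1| ≤ u2 ∧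
    ∃ u3 : ℝ, |E| ≤ u3 ∧
    ∃ u4 : ℝ, |Fm| ≤ u4 ∧
    ∃ u5 : ℝ, |am1| ≤ u5 ∧
    ∃ M1 : ℝ, M1 = M + val m * (dp + dm) ∧
    ∃ I1 : ℝ, I1 = I + ib * (dp ^ 2 + dm ^ 2 + (1 / 12 : ℝ) * ((S2 * u1 * u2 + t) ^ 2 + (S2 * u3 *
      u4 * u5 + t) ^ 2)) ∧
    r.holds (ap1 :: am1 :: I1 :: M1 :: z :: w0 :: gz :: iU :: s) (d) := by
  unfold nB at H
  replace H := H.pop_elim
  replace H := H.pop_elim
  replace H := H.pop_elim
  replace H := H.pop_elim
  replace H := H.pop_elim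
  replace H := H.pop_elim
  replace H := H.pop_elim
  replace H := H.pop_elim
  obtain ⟨s1, k_, H⟩ := H.slet_elim
  refine ⟨s1, (by simpa only [Ex.val, List.getD_cons_zero, List.getD_cons_succ, Nat.cast_ofNat,
    Nat.cast_one, Nat.cast_zero] using k_), ?_⟩
  clear k_
  obtain ⟨y, k_, H⟩ := H.slet_elim
  refine ⟨y, (by simpa only [Ex.val, List.getD_cons_zero, List.getD_cons_succ, Nat.cast_ofNat,
    Nat.cast_one, Nat.cast_zero] using k_), ?_⟩
  clear k_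
  obtain ⟨E, k_, H⟩ := H.slet_elim
  refine ⟨E, (by simpa only [Ex.val, List.getD_cons_zero, List.getD_cons_succ, Nat.cast_ofNat,
    Nat.cast_one, Nat.cast_zero] using k_), ?_⟩
  clear k_
  obtain ⟨Ei, k_, H⟩ := H.slet_elim
  refine ⟨Ei, (by simpa only [Ex.val, List.getD_cons_zero, List.getD_cons_succ, Nat.cast_ofNat,
    Nat.cast_one, Nat.cast_zero] using k_), ?_⟩
  clear k_
  obtain ⟨Fp, k_, H⟩ := H.slet_elim
  refine ⟨Fp, (by simpa only [Ex.val, List.getD_cons_zero, List.getD_cons_succ, Nat.cast_ofNat,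
    Nat.cast_one, Nat.cast_zero] using k_), ?_⟩
  clear k_
  obtain ⟨Fm, k_, H⟩ := H.slet_elim
  refine ⟨Fm, (by simpa only [Ex.val, List.getD_cons_zero, List.getD_cons_succ, Nat.cast_ofNat,
    Nat.cast_one, Nat.cast_zero] using k_), ?_⟩
  clear k_
  obtain ⟨ym, k_, H⟩ := H.slet_elim
  refine ⟨ym, (by simpa only [Ex.val, List.getD_cons_zero, List.getD_cons_succ, Nat.cast_ofNat,
    Nat.cast_one, Nat.cast_zero] using k_), ?_⟩
  clear k_
  replace H := H.slet_raw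
  replace H := H.slet_raw
  intro t1 k_
  replace H := shP_elim t1 (by simpa only [Ex.val, List.getD_cons_zero, List.getD_cons_succ,
    Nat.cast_ofNat, Nat.cast_one, Nat.cast_zero] using k_) H
  clear k_
  replace H := H.slet_raw
  replace H := H.slet_raw
  intro t2 k_
  replace H := shP_elim t2 (by simpa only [Ex.val, List.getD_cons_zero, List.getD_cons_succ,
    Nat.cast_ofNat, Nat.cast_one, Nat.cast_zero] using k_) H
  clear k_
  obtain ⟨kp, k_, H⟩ := H.slet_elim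
  refine ⟨kp, (by simpa only [Ex.val, List.getD_cons_zero, List.getD_cons_succ, Nat.cast_ofNat,
    Nat.cast_one, Nat.cast_zero] using k_), ?_⟩
  clear k_
  obtain ⟨km, k_, H⟩ := H.slet_elim
  refine ⟨km, (by simpa only [Ex.val, List.getD_cons_zero, List.getD_cons_succ, Nat.cast_ofNat,
    Nat.cast_one, Nat.cast_zero] using k_), ?_⟩
  clear k_
  obtain ⟨dp, k_, H⟩ := H.slet_elim
  refine ⟨dp, (by simpa only [Ex.val, List.getD_cons_zero, List.getD_cons_succ, Nat.cast_ofNat,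
    Nat.cast_one, Nat.cast_zero] using k_), ?_⟩
  clear k_
  obtain ⟨dm, k_, H⟩ := H.slet_elim
  refine ⟨dm, (by simpa only [Ex.val, List.getD_cons_zero, List.getD_cons_succ, Nat.cast_ofNat,
    Nat.cast_one, Nat.cast_zero] using k_), ?_⟩
  clear k_
  obtain ⟨ap1, k_, H⟩ := H.slet_elim
  refine ⟨ap1, (by simpa only [Ex.val, List.getD_cons_zero, List.getD_cons_succ, Nat.cast_ofNat,
    Nat.cast_one, Nat.cast_zero] using k_), ?_⟩
  clear k_
  obtain ⟨am1, k_, H⟩ := H.slet_elim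
  refine ⟨am1, (by simpa only [Ex.val, List.getD_cons_zero, List.getD_cons_succ, Nat.cast_ofNat,
    Nat.cast_one, Nat.cast_zero] using k_), ?_⟩
  clear k_
  obtain ⟨S, k_, H⟩ := H.uabs_elim
  refine ⟨S, (by simpa only [Ex.val, List.getD_cons_zero, List.getD_cons_succ, Nat.cast_ofNat,
    Nat.cast_one, Nat.cast_zero] using k_), ?_⟩
  clear k_
  obtain ⟨S2, k_, H⟩ := H.slet_elim
  refine ⟨S2, (by simpa only [Ex.val, List.getD_cons_zero, List.getD_cons_succ, Nat.cast_ofNat,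
    Nat.cast_one, Nat.cast_zero] using k_), ?_⟩
  clear k_
  obtain ⟨t, k_, H⟩ := H.slet_elim
  refine ⟨t, (by simpa only [Ex.val, List.getD_cons_zero, List.getD_cons_succ, Nat.cast_ofNat,
    Nat.cast_one, Nat.cast_zero] using k_), ?_⟩
  clear k_
  obtain ⟨u1, k_, H⟩ := H.uabs_elim
  refine ⟨u1, (by simpa only [Ex.val, List.getD_cons_zero, List.getD_cons_succ, Nat.cast_ofNat,
    Nat.cast_one, Nat.cast_zero] using k_), ?_⟩
  clear k_
  obtain ⟨u2, k_, H⟩ := H.uabs_elim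
  refine ⟨u2, (by simpa only [Ex.val, List.getD_cons_zero, List.getD_cons_succ, Nat.cast_ofNat,
    Nat.cast_one, Nat.cast_zero] using k_), ?_⟩
  clear k_
  obtain ⟨u3, k_, H⟩ := H.uabs_elim
  refine ⟨u3, (by simpa only [Ex.val, List.getD_cons_zero, List.getD_cons_succ, Nat.cast_ofNat,
    Nat.cast_one, Nat.cast_zero] using k_), ?_⟩
  clear k_
  obtain ⟨u4, k_, H⟩ := H.uabs_elim
  refine ⟨u4, (by simpa only [Ex.val, List.getD_cons_zero, List.getD_cons_succ, Nat.cast_ofNat,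
    Nat.cast_one, Nat.cast_zero] using k_), ?_⟩
  clear k_
  obtain ⟨u5, k_, H⟩ := H.uabs_elim
  refine ⟨u5, (by simpa only [Ex.val, List.getD_cons_zero, List.getD_cons_succ, Nat.cast_ofNat,
    Nat.cast_one, Nat.cast_zero] using k_), ?_⟩
  clear k_
  obtain ⟨M1, k_, H⟩ := H.slet_elim
  refine ⟨M1, (by simpa only [Ex.val, List.getD_cons_zero, List.getD_cons_succ, Nat.cast_ofNat,
    Nat.cast_one, Nat.cast_zero] using k_), ?_⟩
  clear k_
  obtain ⟨I1, k_, H⟩ := H.slet_elim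
  refine ⟨I1, (by simpa only [Ex.val, List.getD_cons_zero, List.getD_cons_succ, Nat.cast_ofNat,
    Nat.cast_one, Nat.cast_zero] using k_), ?_⟩
  clear k_
  have H := H.slet_var
  have H := H.slet_var
  have H := H.slet_var
  have H := H.slet_var
  replace H := H.cut_elim
  simpa only [List.take_succ_cons, List.take_zero, List.drop_succ_cons, List.drop_zero,
    List.cons_append, List.nil_append, List.getD_cons_zero, List.getD_cons_succ, Nat.reduceAdd]
    using H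

theorem fB_spec {m : ℕ} {r : Ck} {ap am I M z w0 gz iU al io KB sl yl ib : ℝ} {s d : List ℝ}  (H :
    (fB m r).holds (ap :: am :: I :: M :: z :: w0 :: gz :: iU :: al :: io :: KB :: s) (sl :: yl ::
    ib :: d)) :
    ∃ s1 : ℝ, s1 = sl * z ∧
    ∃ y : ℝ, y = yl * z ∧
    ∃ E : ℝ, E = Real.exp s1 ∧
    ∃ Ei : ℝ, Ei = Real.exp (-s1) ∧
    ∃ Fp : ℝ, Fp = Real.exp (-(y + gz)) ∧
    ∃ Fm : ℝ, Fm = Real.exp (y - gz) ∧
    ∃ hp : ℝ, hp = Fp * (ap + KB) ∧
    ∃ hm : ℝ, hm = Fm * am + iU * KB ∧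
    ∃ fp : ℝ, fp = 1 - Ei ^ 2 ∧
    ∃ fm : ℝ, fm = E ^ 2 - 1 ∧
    ∃ M1 : ℝ, M1 = M + val m * ((1 - Ei) * Fp * ap - (E - 1) * hm) ∧
    ∃ I1 : ℝ, I1 = I + ib * ((1 / 2 : ℝ) * s1 * (hp ^ 2 * fp + hm ^ 2 * fm)) ∧
    r.holds (ap :: am :: I1 :: M1 :: z :: w0 :: gz :: iU :: al :: io :: KB :: s) (d) := by
  unfold fB at H
  replace H := H.pop_elim
  replace H := H.pop_elim
  replace H := H.pop_elim
  obtain ⟨s1, k_, H⟩ := H.slet_elim
  refine ⟨s1, (by simpa only [Ex.val, List.getD_cons_zero, List.getD_cons_succ, Nat.cast_ofNat,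
    Nat.cast_one, Nat.cast_zero] using k_), ?_⟩
  clear k_
  obtain ⟨y, k_, H⟩ := H.slet_elim
  refine ⟨y, (by simpa only [Ex.val, List.getD_cons_zero, List.getD_cons_succ, Nat.cast_ofNat,
    Nat.cast_one, Nat.cast_zero] using k_), ?_⟩
  clear k_
  obtain ⟨E, k_, H⟩ := H.slet_elim
  refine ⟨E, (by simpa only [Ex.val, List.getD_cons_zero, List.getD_cons_succ, Nat.cast_ofNat,
    Nat.cast_one, Nat.cast_zero] using k_), ?_⟩
  clear k_
  obtain ⟨Ei, k_, H⟩ := H.slet_elim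
  refine ⟨Ei, (by simpa only [Ex.val, List.getD_cons_zero, List.getD_cons_succ, Nat.cast_ofNat,
    Nat.cast_one, Nat.cast_zero] using k_), ?_⟩
  clear k_
  obtain ⟨Fp, k_, H⟩ := H.slet_elim
  refine ⟨Fp, (by simpa only [Ex.val, List.getD_cons_zero, List.getD_cons_succ, Nat.cast_ofNat,
    Nat.cast_one, Nat.cast_zero] using k_), ?_⟩
  clear k_
  obtain ⟨Fm, k_, H⟩ := H.slet_elim
  refine ⟨Fm, (by simpa only [Ex.val, List.getD_cons_zero, List.getD_cons_succ, Nat.cast_ofNat,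
    Nat.cast_one, Nat.cast_zero] using k_), ?_⟩
  clear k_
  obtain ⟨hp, k_, H⟩ := H.slet_elim
  refine ⟨hp, (by simpa only [Ex.val, List.getD_cons_zero, List.getD_cons_succ, Nat.cast_ofNat,
    Nat.cast_one, Nat.cast_zero] using k_), ?_⟩
  clear k_
  obtain ⟨hm, k_, H⟩ := H.slet_elim
  refine ⟨hm, (by simpa only [Ex.val, List.getD_cons_zero, List.getD_cons_succ, Nat.cast_ofNat,
    Nat.cast_one, Nat.cast_zero] using k_), ?_⟩
  clear k_
  obtain ⟨fp, k_, H⟩ := H.slet_elim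
  refine ⟨fp, (by simpa only [Ex.val, List.getD_cons_zero, List.getD_cons_succ, Nat.cast_ofNat,
    Nat.cast_one, Nat.cast_zero] using k_), ?_⟩
  clear k_
  obtain ⟨fm, k_, H⟩ := H.slet_elim
  refine ⟨fm, (by simpa only [Ex.val, List.getD_cons_zero, List.getD_cons_succ, Nat.cast_ofNat,
    Nat.cast_one, Nat.cast_zero] using k_), ?_⟩
  clear k_
  obtain ⟨M1, k_, H⟩ := H.slet_elim
  refine ⟨M1, (by simpa only [Ex.val, List.getD_cons_zero, List.getD_cons_succ, Nat.cast_ofNat,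
    Nat.cast_one, Nat.cast_zero] using k_), ?_⟩
  clear k_
  obtain ⟨I1, k_, H⟩ := H.slet_elim
  refine ⟨I1, (by simpa only [Ex.val, List.getD_cons_zero, List.getD_cons_succ, Nat.cast_ofNat,
    Nat.cast_one, Nat.cast_zero] using k_), ?_⟩
  clear k_
  have H := H.slet_var
  have H := H.slet_var
  have H := H.slet_var
  have H := H.slet_var
  replace H := H.cut_elim
  simpa only [List.take_succ_cons, List.take_zero, List.drop_succ_cons, List.drop_zero,
    List.cons_append, List.nil_append, List.getD_cons_zero, List.getD_cons_succ, Nat.reduceAdd]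
    using H

theorem lB_spec {v0 : ℕ} {r : Ck} {ap am I M z w0 gz iU al io KB sig sl ib : ℝ} {s d : List ℝ}  (H
    : (lB v0 r).holds (ap :: am :: I :: M :: z :: w0 :: gz :: iU :: al :: io :: KB :: sig :: s)
    (sl :: ib :: d)) :
    ∃ s1 : ℝ, s1 = sl * z ∧
    ∃ E : ℝ, E = Real.exp s1 ∧
    ∃ Ei : ℝ, Ei = Real.exp (-s1) ∧
    ∃ Fp : ℝ, Fp = Real.exp (z - gz) ∧
    ∃ Fm : ℝ, Fm = Real.exp (-(z + gz)) ∧
    ∃ hp : ℝ, hp = Fp * (ap + KB) ∧
    ∃ hm : ℝ, hm = Fm * am + iU * KB ∧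
    ∃ fp : ℝ, fp = 1 - Ei ^ 2 ∧
    ∃ fm : ℝ, fm = E ^ 2 - 1 ∧
    ∃ s0 : ℝ, s0 = (1 / 2 : ℝ) * (val v0 * (z * sig) + s1) ∧
    ∃ I1 : ℝ, I1 = I + ib * (hp ^ 2 * ((s0 + (1 / 4 : ℝ)) * fp - (1 / 2 : ℝ) * s1) + hm ^ 2 * ((s0
      - (1 / 4 : ℝ)) * fm + (1 / 2 : ℝ) * s1)) ∧
    r.holds (ap :: am :: I1 :: M :: z :: w0 :: gz :: iU :: al :: io :: KB :: sig :: s) (d) := by
  unfold lB at H
  replace H := H.pop_elim
  replace H := H.pop_elim
  obtain ⟨s1, k_, H⟩ := H.slet_elim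
  refine ⟨s1, (by simpa only [Ex.val, List.getD_cons_zero, List.getD_cons_succ, Nat.cast_ofNat,
    Nat.cast_one, Nat.cast_zero] using k_), ?_⟩
  clear k_
  obtain ⟨E, k_, H⟩ := H.slet_elim
  refine ⟨E, (by simpa only [Ex.val, List.getD_cons_zero, List.getD_cons_succ, Nat.cast_ofNat,
    Nat.cast_one, Nat.cast_zero] using k_), ?_⟩
  clear k_
  obtain ⟨Ei, k_, H⟩ := H.slet_elim
  refine ⟨Ei, (by simpa only [Ex.val, List.getD_cons_zero, List.getD_cons_succ, Nat.cast_ofNat,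
    Nat.cast_one, Nat.cast_zero] using k_), ?_⟩
  clear k_
  obtain ⟨Fp, k_, H⟩ := H.slet_elim
  refine ⟨Fp, (by simpa only [Ex.val, List.getD_cons_zero, List.getD_cons_succ, Nat.cast_ofNat,
    Nat.cast_one, Nat.cast_zero] using k_), ?_⟩
  clear k_
  obtain ⟨Fm, k_, H⟩ := H.slet_elim
  refine ⟨Fm, (by simpa only [Ex.val, List.getD_cons_zero, List.getD_cons_succ, Nat.cast_ofNat,
    Nat.cast_one, Nat.cast_zero] using k_), ?_⟩
  clear k_
  obtain ⟨hp, k_, H⟩ := H.slet_elim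
  refine ⟨hp, (by simpa only [Ex.val, List.getD_cons_zero, List.getD_cons_succ, Nat.cast_ofNat,
    Nat.cast_one, Nat.cast_zero] using k_), ?_⟩
  clear k_
  obtain ⟨hm, k_, H⟩ := H.slet_elim
  refine ⟨hm, (by simpa only [Ex.val, List.getD_cons_zero, List.getD_cons_succ, Nat.cast_ofNat,
    Nat.cast_one, Nat.cast_zero] using k_), ?_⟩
  clear k_
  obtain ⟨fp, k_, H⟩ := H.slet_elim
  refine ⟨fp, (by simpa only [Ex.val, List.getD_cons_zero, List.getD_cons_succ, Nat.cast_ofNat,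
    Nat.cast_one, Nat.cast_zero] using k_), ?_⟩
  clear k_
  obtain ⟨fm, k_, H⟩ := H.slet_elim
  refine ⟨fm, (by simpa only [Ex.val, List.getD_cons_zero, List.getD_cons_succ, Nat.cast_ofNat,
    Nat.cast_one, Nat.cast_zero] using k_), ?_⟩
  clear k_
  obtain ⟨s0, k_, H⟩ := H.slet_elim
  refine ⟨s0, (by simpa only [Ex.val, List.getD_cons_zero, List.getD_cons_succ, Nat.cast_ofNat,
    Nat.cast_one, Nat.cast_zero] using k_), ?_⟩
  clear k_
  obtain ⟨I1, k_, H⟩ := H.slet_elim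
  refine ⟨I1, (by simpa only [Ex.val, List.getD_cons_zero, List.getD_cons_succ, Nat.cast_ofNat,
    Nat.cast_one, Nat.cast_zero] using k_), ?_⟩
  clear k_
  have H := H.slet_var
  have H := H.slet_var
  have H := H.slet_var
  have H := H.slet_var
  replace H := H.cut_elim
  simpa only [List.take_succ_cons, List.take_zero, List.drop_succ_cons, List.drop_zero,
    List.cons_append, List.nil_append, List.getD_cons_zero, List.getD_cons_succ, Nat.reduceAdd]
    using H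

theorem endB_spec  {r : Ck} {ap am I M z w0 gz iU al io KB sig lam p Lam ibi iT i2 kc qc Wm sr srU
    B1 Bp EA EB : ℝ} {s d : List ℝ}  (H : (endB  r).holds (ap :: am :: I :: M :: z :: w0 :: gz ::
    iU :: al :: io :: KB :: sig :: lam :: p :: Lam :: ibi :: iT :: i2 :: kc :: qc :: Wm :: sr ::
    srU :: B1 :: Bp :: EA :: EB :: s) (d)) :
    ∃ Fp : ℝ, Fp = Real.exp (z - gz) ∧
    ∃ a1 : ℝ, a1 = Fp * ap ∧
    ∃ a2 : ℝ, a2 = Real.exp (-(z + gz)) * am ∧
    ∃ d2 : ℝ, d2 = 2 * (z * sig) ∧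
    ∃ y1 : ℝ, 0 < y1 ∧
    ∃ y2 : ℝ, 0 < y2 ∧
    ∃ iB : ℝ, iB = io * B1 ∧
    ∃ y3 : ℝ, 0 < y3 ∧
    (1 : ℝ) ≤ y3 * ((39 / 50 : ℝ) - d2) ∧
    ∃ u1 : ℝ, |a1| ≤ u1 ∧
    ∃ u2 : ℝ, |a2| ≤ u2 ∧
    ∃ u3 : ℝ, |Fp| ≤ u3 ∧
    ∃ Y : ℝ, Y = 2 * sr * (y1 * (2 - y1 * (1 - d2)) * (a1 + iB) + y2 * (2 - y2 * (1 + d2)) * (a2 +
      iB)) + M - 2 * srU * EA * ((u1 + u3 * KB + iU * Bp) * y3 + (1283 / 1000 : ℝ) * (u2 + iU * KB
      + iU * Bp)) ∧
    (0 : ℝ) ≤ Y ∧
    Lam * I < Y ^ 2 ∧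
    r.holds (Y :: u3 :: u2 :: u1 :: y3 :: iB :: y2 :: y1 :: d2 :: a2 :: a1 :: Fp :: ap :: am :: I
      :: M :: z :: w0 :: gz :: iU :: al :: io :: KB :: sig :: lam :: p :: Lam :: ibi :: iT :: i2
      :: kc :: qc :: Wm :: sr :: srU :: B1 :: Bp :: EA :: EB :: s) (d) := by
  unfold endB at H
  obtain ⟨Fp, k_, H⟩ := H.slet_elim
  refine ⟨Fp, (by simpa only [Ex.val, List.getD_cons_zero, List.getD_cons_succ, Nat.cast_ofNat,
    Nat.cast_one, Nat.cast_zero] using k_), ?_⟩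
  clear k_
  obtain ⟨a1, k_, H⟩ := H.slet_elim
  refine ⟨a1, (by simpa only [Ex.val, List.getD_cons_zero, List.getD_cons_succ, Nat.cast_ofNat,
    Nat.cast_one, Nat.cast_zero] using k_), ?_⟩
  clear k_
  obtain ⟨a2, k_, H⟩ := H.slet_elim
  refine ⟨a2, (by simpa only [Ex.val, List.getD_cons_zero, List.getD_cons_succ, Nat.cast_ofNat,
    Nat.cast_one, Nat.cast_zero] using k_), ?_⟩
  clear k_
  obtain ⟨d2, k_, H⟩ := H.slet_elim
  refine ⟨d2, (by simpa only [Ex.val, List.getD_cons_zero, List.getD_cons_succ, Nat.cast_ofNat,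
    Nat.cast_one, Nat.cast_zero] using k_), ?_⟩
  clear k_
  obtain ⟨y1, k_, H⟩ := H.rcp_elim
  refine ⟨y1, k_, ?_⟩
  clear k_
  obtain ⟨y2, k_, H⟩ := H.rcp_elim
  refine ⟨y2, k_, ?_⟩
  clear k_
  obtain ⟨iB, k_, H⟩ := H.slet_elim
  refine ⟨iB, (by simpa only [Ex.val, List.getD_cons_zero, List.getD_cons_succ, Nat.cast_ofNat,
    Nat.cast_one, Nat.cast_zero] using k_), ?_⟩
  clear k_
  obtain ⟨y3, k_, H⟩ := H.rcp_elim
  refine ⟨y3, k_, ?_⟩
  clear k_
  obtain ⟨k_, H⟩ := H.le_elim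
  refine ⟨(by simpa only [Ex.val, List.getD_cons_zero, List.getD_cons_succ, Nat.cast_ofNat,
    Nat.cast_one, Nat.cast_zero] using k_), ?_⟩
  clear k_
  obtain ⟨u1, k_, H⟩ := H.uabs_elim
  refine ⟨u1, (by simpa only [Ex.val, List.getD_cons_zero, List.getD_cons_succ, Nat.cast_ofNat,
    Nat.cast_one, Nat.cast_zero] using k_), ?_⟩
  clear k_
  obtain ⟨u2, k_, H⟩ := H.uabs_elim
  refine ⟨u2, (by simpa only [Ex.val, List.getD_cons_zero, List.getD_cons_succ, Nat.cast_ofNat,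
    Nat.cast_one, Nat.cast_zero] using k_), ?_⟩
  clear k_
  obtain ⟨u3, k_, H⟩ := H.uabs_elim
  refine ⟨u3, (by simpa only [Ex.val, List.getD_cons_zero, List.getD_cons_succ, Nat.cast_ofNat,
    Nat.cast_one, Nat.cast_zero] using k_), ?_⟩
  clear k_
  obtain ⟨Y, k_, H⟩ := H.slet_elim
  refine ⟨Y, (by simpa only [Ex.val, List.getD_cons_zero, List.getD_cons_succ, Nat.cast_ofNat,
    Nat.cast_one, Nat.cast_zero] using k_), ?_⟩
  clear k_
  obtain ⟨k_, H⟩ := H.le_elim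
  refine ⟨(by simpa only [Ex.val, List.getD_cons_zero, List.getD_cons_succ, Nat.cast_ofNat,
    Nat.cast_one, Nat.cast_zero] using k_), ?_⟩
  clear k_
  obtain ⟨k_, H⟩ := H.lt_elim
  refine ⟨(by simpa only [Ex.val, List.getD_cons_zero, List.getD_cons_succ, Nat.cast_ofNat,
    Nat.cast_one, Nat.cast_zero] using k_), ?_⟩
  clear k_
  simpa only [List.take_succ_cons, List.take_zero, List.drop_succ_cons, List.drop_zero,
    List.cons_append, List.nil_append, List.getD_cons_zero, List.getD_cons_succ, Nat.reduceAdd]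
    using H

end Pool.Agent.Eps.T
end

-- part Pool.Agent.Lib.MP_3bda03_nt.T.StepB
section

/-! The steps of the backward mode: cells. -/

set_option autoImplicit false

noncomputable section

open MeasureTheory Set

namespace Pool.Agent.Eps.T

variable {F : Fam} {α z w0 gz iU io I M a b lo b2 mm xf KB : ℝ} {c : Cell} {r : Ck}
  {s e d : List ℝ}

theorem stepB_split {p cd : ℝ} (hp : 0 < p) (γ w0 : ℝ) (hab : a < b)
    (hcd : Real.exp (p * b) * (b - a) ^ 2 / 24 ≤ cd) :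
    ∃ t : ℝ, ShR (γ * (b - a) - (b - a) * qf p ((a + b) / 2)) cd t ∧
      At p γ a * Real.exp (-w0) = At p γ b * Real.exp (-w0) +
        (b - a) * kf p ((a + b) / 2) * Real.exp (γ * ((a + b) / 2) - w0) * t := by
  obtain ⟨t, h1, h2⟩ := cell_factor hp γ hab hcd
  refine ⟨t, h1, ?_⟩
  rw [At_split hp γ a b, h2, sub_eq_add_neg _ w0, Real.exp_add]
  ring

theorem stepB_io {p : ℝ} (hio : io = Real.exp (-(w0 + gz))) (γ x : ℝ) :
    io * Af p γ x = Real.exp (-(γ * x + gz)) * (At p γ x * Real.exp (-w0)) := by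
  rw [hio, Af, ← mul_assoc, ← Real.exp_add, mul_comm (At p γ x), ← mul_assoc, ← Real.exp_add]
  congr 2
  ring

theorem stepB_diff {p : ℝ} (hio : io = Real.exp (-(w0 + gz))) (γ : ℝ) :
    io * (Af p γ a - Af p γ b) = Real.exp (-(γ * a + gz)) * (At p γ a * Real.exp (-w0) -
      Real.exp (-(γ * (b - a))) * (At p γ b * Real.exp (-w0))) := by
  rw [mul_sub, stepB_io hio, stepB_io hio, mul_sub, ← mul_assoc (Real.exp _) (Real.exp _),
    ← Real.exp_add]
  congr 3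
  ring

theorem stepB_al (h : F.Ok) (hx : CtxB F α z w0 gz iU io) : 0 ≤ α := by
  rw [hx.al]
  exact mul_nonneg hx.z_nonneg (div_pos h.p_pos h.τ_pos).le

theorem stepB_pos (hx : CtxB F α z w0 gz iU io) : 0 < io := by
  rw [hx.hio]
  exact Real.exp_pos _

theorem stepB_ib {ib x : ℝ} (h : 1 ≤ ib * x) (hx : 0 < x) : 0 ≤ ib := by
  by_contra k
  nlinarith [mul_pos (neg_pos.2 (not_le.1 k)) hx]

theorem stepB_near {ib X D S A P Q U : ℝ} (hib : 0 ≤ ib) (hio : 0 < io) (hiU : io ≤ iU)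
    (hS : 0 ≤ S) (hA : 0 ≤ A) (hP : 0 ≤ P) (hQ : 0 ≤ Q) (hU : io * A ≤ U)
    (hX : X ≤ ib * (D ^ 2 + (S ^ 2 * A + (S + Q) * P) ^ 2 / 12)) :
    io ^ 2 * X ≤ ib * ((io * D) ^ 2 + 1 / 12 * (S ^ 2 * U + (S + Q) * iU * P) ^ 2) := by
  have h1 : io * (S ^ 2 * A + (S + Q) * P) ≤ S ^ 2 * U + (S + Q) * iU * P := by
    have k1 := mul_le_mul_of_nonneg_left hU (sq_nonneg S)
    have k2 := mul_le_mul_of_nonneg_left hiU (show 0 ≤ (S + Q) * P by positivity)
    linarith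
  have h2 := mul_le_mul_of_nonneg_left (pow_le_pow_left₀ (by positivity) h1 2) hib
  have h3 := mul_le_mul_of_nonneg_left hX (sq_nonneg io)
  linarith

/-- bounds at the left end of a cell in the far region -/
theorem stepB_far (h : F.Ok) (hx : CtxB F α z w0 gz iU io) (h1 : F.x1 ≤ a) (h2 : a ≤ xf)
    (h3 : xf ≤ 0) (hKB : F.Kx F.x1 xf ≤ KB) :
    Af F.p α a ≤ Real.exp (-(α * a + gz)) * (At F.p α xf * Real.exp (-w0) + KB) / io ∧
    Af F.p (-α) a ≤
      (Real.exp (α * a - gz) * (At F.p (-α) xf * Real.exp (-w0)) + iU * KB) / io := by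
  have hα := stepB_al h hx
  have hio := stepB_pos hx
  have k0 := F.Kx_nonneg h2
  have k1 : F.Kx a xf ≤ KB := by
    have := F.Kx_add F.x1 a xf
    have := F.Kx_nonneg h1
    linarith
  have k2 : Real.exp (-w0) ≤ 1 := Real.exp_le_one_iff.2 (neg_nonpos.2 hx.w0_nonneg)
  constructor
  · rw [le_div_iff₀' hio, stepB_io hx.hio]
    refine mul_le_mul_of_nonneg_left ?_ (Real.exp_pos _).le
    have k3 := mul_le_mul_of_nonneg_right (At_far h.p_pos hα h2 h3) (Real.exp_pos (-w0)).le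
    have k4 := mul_le_mul_of_nonneg_left k2 k0
    unfold Fam.Kx at k1 k4
    linarith
  · rw [le_div_iff₀' hio]
    have k3 := mul_le_mul_of_nonneg_left (Af_far h.p_pos hα h2) hio.le
    have k4 := mul_le_mul hx.hiU k1 k0 (hio.le.trans hx.hiU)
    have k5 : io * (Real.exp (α * a) * At F.p (-α) xf) =
        Real.exp (α * a - gz) * (At F.p (-α) xf * Real.exp (-w0)) := by
      rw [hx.hio, ← mul_assoc, ← Real.exp_add, mul_comm (At F.p (-α) xf), ← mul_assoc,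
        ← Real.exp_add]
      congr 2
      ring
    unfold Fam.Kx at k4
    linarith

theorem gB_ok (h : F.Ok) (hα : α = z * F.lam) (hT : TpG F a b e)
    (H : (gB r).holds (At F.p α b * Real.exp (-w0) :: At F.p (-α) b * Real.exp (-w0) :: I :: M ::
      z :: w0 :: s) (e ++ d)) :
    r.holds (At F.p α a * Real.exp (-w0) :: At F.p (-α) a * Real.exp (-w0) :: I :: M ::
      z :: w0 :: s) d := by
  obtain ⟨hab, cd, rfl, hcd⟩ := hT
  obtain ⟨t1, a1, a2⟩ := stepB_split h.p_pos α w0 hab hcd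
  obtain ⟨t2, b1, b2⟩ := stepB_split h.p_pos (-α) w0 hab hcd
  obtain ⟨_, rfl, _, rfl, k⟩ := gB_spec H
  obtain ⟨_, rfl, _, rfl, k⟩ := k t1 (by convert a1 using 1; rw [hα]; ring) t2
    (by convert b1.neg using 1; rw [hα]; ring)
  rw [a2, b2, show α * ((a + b) / 2) - w0 = F.lam * ((a + b) / 2) * z - w0 by rw [hα]; ring,
    show -α * ((a + b) / 2) - w0 = -(F.lam * ((a + b) / 2) * z + w0) by rw [hα]; ring]
  exact k

theorem nB_ok (h : F.Ok) (hx : CtxB F α z w0 gz iU io) (hc : NearC F lo a b c) (hT : TpN F a b c e)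
    (H : (nB c.m r).holds (At F.p α b * Real.exp (-w0) :: At F.p (-α) b * Real.exp (-w0) :: I ::
      M :: z :: w0 :: gz :: iU :: s) (e ++ d)) :
    ∃ I' M' : ℝ, I + io ^ 2 * F.I2 α a b ≤ I' ∧ M' ≤ M + io * F.M2 α a b ∧
      r.holds (At F.p α a * Real.exp (-w0) :: At F.p (-α) a * Real.exp (-w0) :: I' :: M' ::
        z :: w0 :: gz :: iU :: s) d := by
  have hp := h.p_pos
  have hα := stepB_al h hx
  have hio := stepB_pos hx
  obtain ⟨cd, P, Q, ib, rfl, hcd, hP, hQ, hib⟩ := hT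
  obtain ⟨t1, a1, a2⟩ := stepB_split hp α w0 hc.lt hcd
  obtain ⟨t2, b1, b2⟩ := stepB_split hp (-α) w0 hc.lt hcd
  obtain ⟨s1, e1, y, e2, _, rfl, _, rfl, _, rfl, _, rfl, _, rfl, k⟩ := nB_spec H
  obtain rfl : s1 = α * (b - a) := by rw [e1, hx.al]; ring
  obtain rfl : y = α * a := by rw [e2, hx.al]; ring
  obtain ⟨kp, f1, km, f2, dp, f3, dm, f4, _, rfl, _, rfl, S, hS, _, rfl, _, rfl, u1, g1, u2, g2,
    u3, g3, u4, g4, u5, g5, _, rfl, _, rfl, k⟩ := k t1 a1 t2 (by convert b1.neg using 1; ring)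
  have c1 : At F.p α b * Real.exp (-w0) + kp = At F.p α a * Real.exp (-w0) := by
    rw [a2, f1, show α * a + 1 / 2 * (α * (b - a)) = α * ((a + b) / 2) by ring]
  have c2 : At F.p (-α) b * Real.exp (-w0) + km = At F.p (-α) a * Real.exp (-w0) := by
    rw [b2, f2, show -(α * a + 1 / 2 * (α * (b - a)) + w0) = -α * ((a + b) / 2) - w0 by ring]
  have c3 : dp = io * (Af F.p α a - Af F.p α b) := by
    rw [stepB_diff hx.hio, f3, ← c1]
    ring
  have c4 : dm = io * (Af F.p (-α) a - Af F.p (-α) b) := by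
    rw [stepB_diff hx.hio, f4, ← c2, show -(-α * a + gz) = α * a - gz by ring,
      show -(-α * (b - a)) = α * (b - a) by ring]
    ring
  rw [c1] at g2 k
  rw [c2] at g5 k
  refine ⟨_, _, ?_, ?_, k⟩
  · have hD := sub_pos.2 hc.lt
    have hS0 := (abs_nonneg _).trans hS
    have hP0 : 0 ≤ P := (mul_pos hD (kf_pos _ _)).le.trans (hP a ⟨le_rfl, hc.lt.le⟩)
    have hQ0 : 0 ≤ Q := (mul_nonneg hD.le (abs_nonneg _)).trans (hQ a ⟨le_rfl, hc.lt.le⟩)
    have hib0 := stepB_ib hib hc.bb_pos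
    have n1 := fun γ => (mul_pos (At_pos hp γ a) (Real.exp_pos (-w0))).le
    have d1 := stepB_near (U := u1 * u2) hib0 hio hx.hiU hS0 (Af_pos hp α a).le hP0 hQ0 (by
      rw [stepB_io hx.hio]
      exact mul_le_mul (le_of_abs_le g1) (le_of_abs_le g2) (n1 _) ((abs_nonneg _).trans g1))
      (hc.I_le h hib hS (fun t ht => Af_anti hp hα ht.1) hP hQ)
    have d2 := stepB_near (U := u3 * (u4 * u5)) (A := Real.exp (α * (b - a)) * Af F.p (-α) a)
      hib0 hio hx.hiU hS0 (mul_pos (Real.exp_pos _) (Af_pos hp _ a)).le hP0 hQ0 (by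
      rw [mul_left_comm, stepB_io hx.hio, show -(-α * a + gz) = α * a - gz by ring]
      exact mul_le_mul (le_of_abs_le g3) (mul_le_mul (le_of_abs_le g4) (le_of_abs_le g5) (n1 _)
        ((abs_nonneg _).trans g4)) (mul_nonneg (Real.exp_pos _).le (n1 _))
        ((abs_nonneg _).trans g3))
      (hc.I_le h hib (γ := -α) (by rwa [neg_mul, abs_neg]) (fun t ht =>
        (Af_le_exp hp (-α) ht.1).trans (mul_le_mul_of_nonneg_right (Real.exp_le_exp.2 (by
          have := mul_le_mul_of_nonneg_left ht.2 hα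
          linarith)) (Af_pos hp _ a).le)) hP hQ)
    rw [← c3] at d1
    rw [← c4] at d2
    unfold Fam.I2
    linarith
  · rw [Fam.M2, hc.M_eq h, hc.M_eq h, c3, c4]
    exact le_of_eq (by ring)

theorem fB_ok (h : F.Ok) (hx : CtxB F α z w0 gz iU io) (hc : FarC F b2 mm xf lo a b c)
    (hT : TpF F a b c e) (hKB : F.Kx F.x1 xf ≤ KB)
    (H : (fB c.m r).holds (At F.p α xf * Real.exp (-w0) :: At F.p (-α) xf * Real.exp (-w0) :: I ::
      M :: z :: w0 :: gz :: iU :: α :: io :: KB :: s) (e ++ d)) :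
    ∃ I' M' : ℝ, I + io ^ 2 * (F.I2 α a b - 2 * (F.Kx a b / b2)) ≤ I' ∧
      M' ≤ M + io * F.M2 α a b ∧
      r.holds (At F.p α xf * Real.exp (-w0) :: At F.p (-α) xf * Real.exp (-w0) :: I' :: M' ::
        z :: w0 :: gz :: iU :: α :: io :: KB :: s) d := by
  have hp := h.p_pos
  have hα := stepB_al h hx
  have hio := stepB_pos hx
  obtain ⟨ib, rfl, hib⟩ := hT
  obtain ⟨s1, e1, y, e2, _, rfl, _, rfl, _, rfl, _, rfl, u, e3, u', e4, _, rfl, _, rfl, _, rfl,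
    _, rfl, k⟩ := fB_spec H
  obtain rfl : s1 = α * (b - a) := by rw [e1, hx.al]; ring
  obtain rfl : y = α * a := by rw [e2, hx.al]; ring
  have hxf := hc.lt.le.trans hc.le_xf
  obtain ⟨c1, c2⟩ := stepB_far h hx hc.x1_le hxf hc.xf_le hKB
  rw [← e3] at c1
  rw [← e4] at c2
  refine ⟨_, _, ?_, ?_, k⟩
  · have d1 := mul_le_mul_of_nonneg_left (hc.I_le h hib c1) (sq_nonneg io)
    have d2 := mul_le_mul_of_nonneg_left (hc.I_le h hib c2) (sq_nonneg io)
    have d3 : ∀ x y : ℝ, io ^ 2 * (ib * ((x / io) ^ 2 * y)) = ib * (x ^ 2 * y) := fun x y => by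
      field_simp
    rw [mul_add, d3] at d1 d2
    rw [show -(-α * (b - a)) = α * (b - a) by ring] at d2
    unfold Fam.I2
    linarith
  · rw [Fam.M2, hc.M_eq h, hc.M_eq h]
    have hs := mul_nonneg hα (sub_pos.2 hc.lt).le
    have d1 := mul_le_mul_of_nonneg_left (Af_le_exp hp α hc.lt.le) hio.le
    have d2 := mul_le_mul_of_nonneg_left (Af_le_exp hp (-α) hc.lt.le) hio.le
    rw [show -(-α * (b - a)) = α * (b - a) by ring] at d2
    have d3 : Real.exp (-(α * a + gz)) * (At F.p α xf * Real.exp (-w0)) ≤ io * Af F.p α a := by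
      rw [stepB_io hx.hio]
      exact mul_le_mul_of_nonneg_left
        (mul_le_mul_of_nonneg_right (At_anti hp α hxf) (Real.exp_pos _).le) (Real.exp_pos _).le
    have d4 := mul_le_mul_of_nonneg_left d3
      (sub_nonneg.2 (Real.exp_le_one_iff.2 (neg_nonpos.2 hs)))
    have d5 := mul_le_mul_of_nonneg_left ((le_div_iff₀' hio).1 c2)
      (sub_nonneg.2 (Real.one_le_exp hs))
    have d6 : (1 - Real.exp (-(α * (b - a)))) * Real.exp (-(α * a + gz)) *
        (At F.p α xf * Real.exp (-w0)) - (Real.exp (α * (b - a)) - 1) * u' ≤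
        io * (Af F.p α a - Af F.p α b + (Af F.p (-α) a - Af F.p (-α) b)) := by linarith
    have d7 := mul_le_mul_of_nonneg_left d6 hc.m_nonneg
    linarith

theorem lB_ok {bb : ℝ} {v0 : ℕ} (h : F.Ok) (hx : CtxB F α z w0 gz iU io)
    (hc : LogC F b2 xf b bb (val v0)) (hT : TpL F b bb e) (hKB : F.Kx F.x1 xf ≤ KB)
    (H : (lB v0 r).holds (At F.p α xf * Real.exp (-w0) :: At F.p (-α) xf * Real.exp (-w0) :: I ::
      M :: z :: w0 :: gz :: iU :: α :: io :: KB :: F.p * F.lam / 2 :: s) (e ++ d)) :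
    ∃ I' : ℝ, I + io ^ 2 * (F.I2 α F.x1 b - 2 * (F.Kx F.x1 b / b2)) ≤ I' ∧
      r.holds (At F.p α xf * Real.exp (-w0) :: At F.p (-α) xf * Real.exp (-w0) :: I' :: M ::
        z :: w0 :: gz :: iU :: α :: io :: KB :: F.p * F.lam / 2 :: s) d := by
  have hio := stepB_pos hx
  obtain ⟨ib, rfl, hib⟩ := hT
  obtain ⟨s1, e1, _, rfl, _, rfl, _, rfl, _, rfl, u, e3, u', e4, _, rfl, _, rfl, s0, e5,
    _, rfl, k⟩ := lB_spec H
  obtain rfl : s1 = α * (b - F.x1) := by rw [e1, hx.al]; ring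
  have e6 : α * F.x1 = -z := by
    have h1 := h.p_pos
    have h2 := h.τ_pos
    rw [hx.al, Fam.lam, Fam.x1]
    field_simp
  have e7 : s0 = (α * (val v0 * F.p / 2) + α * (b - F.x1)) / 2 := by
    rw [e5, hx.al]
    ring
  obtain ⟨c1, c2⟩ := stepB_far h hx le_rfl (hc.lt.le.trans hc.le_xf) hc.xf_le hKB
  rw [e6, show -(-z + gz) = z - gz by ring, ← e3] at c1
  rw [e6, show -z - gz = -(z + gz) by ring, ← e4] at c2
  refine ⟨_, ?_, k⟩
  have d1 := mul_le_mul_of_nonneg_left (hc.I_le h hib c1) (sq_nonneg io)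
  have d2 := mul_le_mul_of_nonneg_left (hc.I_le h hib c2) (sq_nonneg io)
  have d3 : ∀ x y : ℝ, io ^ 2 * (ib * ((x / io) ^ 2 * y)) = ib * (x ^ 2 * y) := fun x y => by
    field_simp
  rw [mul_add, d3] at d1 d2
  rw [show -(-α * (b - F.x1)) = α * (b - F.x1) by ring] at d2
  rw [e7]
  unfold Fam.I2
  linarith

end Pool.Agent.Eps.T
end
end
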