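import Mathlib
import Pool.Agent.Lib.MP_3bda03_nt.T.StepB
import Pool.Agent.Lib.MP_3bda03_nt.T.EndF
import Pool.Agent.Lib.MP_3bda03_nt.T.Snd
import Pool.Agent.Lib.MP_3bda03_nt.T.Par0

-- part Pool.Agent.Lib.MP_3bda03_nt.T.BoxF
section

/-! A box of the forward mode. -/

set_option autoImplicit false

noncomputable section

open MeasureTheory Set

namespace Pool.Agent.Eps.T

variable {C : Cert} {F : Fam} {g : GV} {α z J I M : ℝ} {r : Ck} {s d d' : List ℝ}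

theorem fF_loop (hF : Fit C F) (hf : C.far = true) (hx : CtxF F α z J)
    (hT : TapeF (atN F (TpF F)) C.fs C.lcz bz0 d d')
    (H : (fwd (fun _ _ c => fF c.m) C.fs C.lcz bz0 r).holds
      (Real.exp (-(α * (C.xl F - F.x1))) :: I :: M :: z :: J :: 14 / 5 * J :: s) d') :
    ∃ I' : ℝ, I + F.jj α ^ 2 * (F.I2 α (C.xl F) (C.xf F) -
        2 * (F.Kx (C.xl F) (C.xf F) / val C.b2)) ≤ I' ∧
      r.holds (Real.exp (-(α * (C.xf F - F.x1))) :: I' :: (M + F.Sx α (C.xl F) (C.xf F)) :: z ::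
        J :: 14 / 5 * J :: s) d := by
  have hxl : C.xl F = pos F.x1 C.lcz bz0 := by simp only [Cert.xl, hf, if_true]
  obtain ⟨hl, hr⟩ := hF.mem
  have key := fwd_box (f := fun _ _ c => fF c.m)
    (G := atN F (FarC F (val C.b2) (val C.mm) (C.xf F) (C.xl F))) (T := atN F (TpF F))
    (Inv := fun ca ba S => ∃ I' : ℝ, I + F.jj α ^ 2 * (F.I2 α (C.xl F) (pos F.x1 ca ba) -
        2 * (F.Kx (C.xl F) (pos F.x1 ca ba) / val C.b2)) ≤ I' ∧
      S = Real.exp (-(α * (pos F.x1 ca ba - F.x1))) :: I' ::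
        (M + F.Sx α (C.xl F) (pos F.x1 ca ba)) :: z :: J :: 14 / 5 * J :: s)
    (by
      rintro ca ba c r S e d hG hT ⟨I1, hI1, rfl⟩ H
      have hG' : FarC F (val C.b2) (val C.mm) (C.xf F) (C.xl F) (pos F.x1 ca ba)
        (pos F.x1 c.cz c.bz) c := hG
      obtain ⟨I2, hI2, H2⟩ := fF_ok hF.ok hx hG' hT H
      have ha : pos F.x1 ca ba ∈ Icc F.x1 F.xc :=
        ⟨hG'.x1_le, (hG'.lt.le.trans hG'.le_xf).trans hr.2⟩
      have hb : pos F.x1 c.cz c.bz ∈ Icc F.x1 F.xc :=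
        ⟨hG'.x1_le.trans hG'.lt.le, hG'.le_xf.trans hr.2⟩
      refine ⟨_, ⟨I2, ?_, rfl⟩, ?_⟩
      · rw [← hF.ok.I2_add α hl ha hb, ← F.Kx_add (C.xl F) (pos F.x1 ca ba) (pos F.x1 c.cz c.bz),
          add_div]
        linarith
      · rw [← hF.ok.Sx_add α hl ha hb, ← add_assoc]
        exact H2)
    (hF.far hf) hT
    ⟨I, by rw [← hxl, F.I2_same, F.Kx_same]; simp, by rw [← hxl, F.Sx_same, add_zero]⟩ H
  obtain ⟨S', ⟨I', h1, rfl⟩, h2⟩ := key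
  rw [hF.far_last hf] at h1 h2
  exact ⟨I', h1, h2⟩

theorem nF_loop (hF : Fit C F) (hx : CtxF F α z J)
    (hT : TapeF (atN F (TpN F)) C.ns C.na C.nb d d')
    (H : (fwd (fun _ _ c => nF c.m) C.ns C.na C.nb r).holds
      (Real.exp (-(α * (C.xf F - F.x1))) :: I :: M :: z :: J :: 14 / 5 * J :: s) d') :
    ∃ I' : ℝ, I + F.jj α ^ 2 * F.I2 α (C.xf F) F.xc ≤ I' ∧
      r.holds (Real.exp (-(α * (F.xc - F.x1))) :: I' :: (M + F.Sx α (C.xf F) F.xc) :: z :: J ::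
        14 / 5 * J :: s) d := by
  obtain ⟨hl, hr⟩ := hF.mem
  have key := fwd_box (f := fun _ _ c => nF c.m)
    (G := atN F (NearC F (C.xl F))) (T := atN F (TpN F))
    (Inv := fun ca ba S => ∃ I' : ℝ, I + F.jj α ^ 2 * F.I2 α (C.xf F) (pos F.x1 ca ba) ≤ I' ∧
      S = Real.exp (-(α * (pos F.x1 ca ba - F.x1))) :: I' ::
        (M + F.Sx α (C.xf F) (pos F.x1 ca ba)) :: z :: J :: 14 / 5 * J :: s)
    (by
      rintro ca ba c r S e d hG hT ⟨I1, hI1, rfl⟩ H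
      have hG' : NearC F (C.xl F) (pos F.x1 ca ba) (pos F.x1 c.cz c.bz) c := hG
      obtain ⟨I2, hI2, H2⟩ := nF_ok hF.ok hx hG' hT H
      have ha : pos F.x1 ca ba ∈ Icc F.x1 F.xc := ⟨hG'.x1_le, hG'.lt.le.trans hG'.le_xc⟩
      have hb : pos F.x1 c.cz c.bz ∈ Icc F.x1 F.xc := ⟨hG'.x1_le.trans hG'.lt.le, hG'.le_xc⟩
      refine ⟨_, ⟨I2, ?_, rfl⟩, ?_⟩
      · rw [← hF.ok.I2_add α hr ha hb]
        linarith
      · rw [← hF.ok.Sx_add α hr ha hb, ← add_assoc]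
        exact H2)
    hF.near hT
    ⟨I, by rw [hF.near_first, F.I2_same]; simp, by rw [hF.near_first, F.Sx_same, add_zero]⟩ H
  obtain ⟨S', ⟨I', h1, rfl⟩, h2⟩ := key
  rw [hF.near_last] at h1 h2
  exact ⟨I', h1, h2⟩

/-- the near cells, the tail and the end of a box -/
theorem boxF_aux1 (hF : Fit C F) (hg : Glob C F g) (hx : CtxF F α z J) (hα : 0 ≤ α) {a : Bool}
    (hT : TapeF (atN F (TpN F)) C.ns C.na C.nb [] d)
    (hI : F.jj α ^ 2 * F.I2 α F.x1 (C.xf F) ≤ I)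
    (hM : M ≤ F.Sx α F.x1 (C.xf F) - 2 * val C.mm * (14 / 5 * J))
    (H : (C.boxF1 a).holds (Real.exp (-(α * (C.xf F - F.x1))) :: I :: M :: z :: J ::
      14 / 5 * J :: α :: g.l F) d) : F.CritAt (val C.lf) α := by
  obtain ⟨hl, hr⟩ := hF.mem
  have h1 : F.x1 ∈ Icc F.x1 F.xc := ⟨le_rfl, hr.1.trans hr.2⟩
  have hc : F.xc ∈ Icc F.x1 F.xc := ⟨hr.1.trans hr.2, le_rfl⟩
  obtain ⟨I1, hI1, H1⟩ := nF_loop hF hx hT H
  obtain ⟨Θ₁, Θ₂, I2, t1, t2, hI2, H2⟩ := tlF_ok hF hg hx H1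
  refine fin_ok hF hg hα hx.lt hx.hJ t1 t2 ?_ ?_ H2
  · rw [F.It_add, ← hF.ok.I2_add α h1 hr hc]
    linarith
  · have := shift_F hF hα hx.hJ
    rw [← hF.ok.Sx_add α h1 hr hc] at this
    linarith

theorem boxF_ok (hF : Fit C F) (hg : Glob C F g) (hT : C.TpW F d) {z1 : ℕ} {b : BxF}
    (H : (C.boxF z1 b).holds (g.l F) d) (h1 : val z1 ≤ z) (h2 : z ≤ val b.z) (hz : 0 ≤ z)
    (hlt : F.p * (z * F.lam) < 1) : F.CritAt (val C.lf) (z * F.lam) := by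
  obtain ⟨J, hx, H1⟩ := begF_ok hF.ok H h1 h2 hz hlt
  have hα : 0 ≤ z * F.lam := mul_nonneg hz (div_pos hF.ok.p_pos hF.ok.τ_pos).le
  obtain ⟨hl, hr⟩ := hF.mem
  have hx1 : F.x1 ∈ Icc F.x1 F.xc := ⟨le_rfl, hr.1.trans hr.2⟩
  have hK : 0 ≤ F.Kx F.x1 (C.xf F) / val C.b2 := div_nonneg (F.Kx_nonneg hr.1) hF.b2_pos.le
  have hi2 : F.Kx F.x1 (C.xf F) / val C.b2 ≤ g.i2 := hg.i2
  have hj : F.jj (z * F.lam) ^ 2 ≤ J ^ 2 := pow_le_pow_left₀ (hF.ok.jj_pos _).le hx.hJ 2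
  have h0 : F.jj (z * F.lam) ^ 2 * (2 * (F.Kx F.x1 (C.xf F) / val C.b2)) ≤ 2 * J ^ 2 * g.i2 := by
    have := mul_le_mul hj hi2 hK (sq_nonneg J)
    linarith
  obtain ⟨d1, hT1, hN, hY⟩ := hT
  cases hf : C.far with
  | false =>
    have hd := hN hf
    subst hd
    have hxf : C.xf F = F.x1 := by simp [Cert.xf, hf]
    rw [hf] at H1
    refine boxF_aux1 (I := 2 * J ^ 2 * g.i2) (M := -(2 * val C.mm * (14 / 5 * J))) (a := b.a)
      hF hg hx hα hT1 ?_ ?_ ?_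
    · rw [hxf, F.I2_same, mul_zero]
      exact le_trans (mul_nonneg (sq_nonneg _) (mul_nonneg zero_le_two hK)) h0
    · rw [hxf, F.Sx_same, zero_sub]
    · rw [hxf, sub_self, mul_zero, neg_zero, Real.exp_zero]
      exact H1
  | true =>
    obtain ⟨e, d2, hT2, hT3, rfl⟩ := hY hf
    rw [hf] at H1
    have hL := hF.log hf
    obtain ⟨I1, hI1, H2⟩ := lF_ok hF.ok hx hL hT3 H1
    obtain ⟨I2, hI2, H3⟩ := fF_loop hF hf hx hT2 H2
    refine boxF_aux1 (a := b.a) hF hg hx hα hT1 ?_ ?_ H3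
    · rw [← hF.ok.I2_add _ hx1 hl hr]
      rw [← F.Kx_add F.x1 (C.xl F) (C.xf F), add_div] at h0
      linarith
    · rw [← hF.ok.Sx_add _ hx1 hl hr, hL.Sx_eq]
      linarith

theorem boxesF_ok (hF : Fit C F) (hg : Glob C F g) (hT : C.TpW F d) {z1 : ℕ} {bs : List BxF}
    (H : (C.boxesF bs z1).holds (g.l F) d) (h1 : val z1 ≤ z)
    (h2 : z < val (lastG (bs.map BxF.z) z1)) (hz : 0 ≤ z) (hlt : F.p * (z * F.lam) < 1) :
    F.CritAt (val C.lf) (z * F.lam) := by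
  induction bs generalizing z1 with
  | nil => exact absurd h2 (not_lt.2 h1)
  | cons b bs ih =>
    have H' : (Ck.both (C.boxF z1 b) (C.boxesF bs b.z)).holds (g.l F) d := H
    obtain ⟨Ha, Hb⟩ := H'.both_elim
    rcases le_total z (val b.z) with hb | hb
    · exact boxF_ok hF hg hT Ha h1 hb hz hlt
    · exact ih Hb hb h2

end Pool.Agent.Eps.T
end
end

-- part Pool.Agent.Lib.MP_3bda03_nt.T.StepU
section

/-! The steps of the unbounded mode. -/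

set_option autoImplicit false

noncomputable section

open MeasureTheory Set

namespace Pool.Agent.Eps.T

variable {C : Cert} {F : Fam} {g : GV} {α z Z J E I M a b lo b2 mm xf c1 c2 : ℝ} {c : Cell}
  {r : Ck} {s e d : List ℝ}

theorem mul_exp_le {z Z c : ℝ} (hZ : Z ≤ z) (hc : 1 ≤ c * Z) (hZ0 : 0 < Z) :
    z * Real.exp (-(c * z)) ≤ Z * Real.exp (-(c * Z)) := by
  have h1 : z ≤ Z * Real.exp (c * (z - Z)) := by
    have h2 := Real.add_one_le_exp (c * (z - Z))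
    have h3 := mul_le_mul_of_nonneg_left h2 hZ0.le
    nlinarith [mul_le_mul_of_nonneg_right hc (sub_nonneg.2 hZ)]
  have h4 := mul_le_mul_of_nonneg_right h1 (Real.exp_pos (-(c * z))).le
  rw [mul_assoc, ← Real.exp_add, show c * (z - Z) + -(c * z) = -(c * Z) by ring] at h4
  exact h4

theorem stepU_ctx (h : F.Ok) (hx : CtxU F α z Z J) (hZ : 2 ≤ Z) :
    0 ≤ α ∧ 0 < J ∧ F.jj α ≤ J ∧ F.jj α * z ≤ J * Z := by
  have hj := h.jj_pos α
  have hl := h.lam_pos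
  have hz := hx.le
  have hδ := Real.exp_pos (-(z - Z))
  have hJ : 0 < J := by
    by_contra hh
    have := mul_nonpos_of_nonpos_of_nonneg (not_lt.1 hh) hδ.le
    linarith [hx.hJ]
  have h1 : Real.exp (-(z - Z)) ≤ 1 := Real.exp_le_one_iff.2 (by linarith)
  have h2 : z * Real.exp (-(z - Z)) ≤ Z := by
    have h3 := mul_exp_le (c := 1) hz (by linarith) (by linarith)
    have h4 := mul_le_mul_of_nonneg_right h3 (Real.exp_pos Z).le
    rw [mul_assoc, mul_assoc, ← Real.exp_add, ← Real.exp_add,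
      show -(1 * Z) + Z = 0 by ring, Real.exp_zero, mul_one,
      show -(1 * z) + Z = -(z - Z) by ring] at h4
    exact h4
  refine ⟨hx.al ▸ mul_nonneg (by linarith) hl.le, hJ,
    hx.hJ.trans (mul_le_of_le_one_right hJ.le h1), ?_⟩
  have h5 := mul_le_mul_of_nonneg_right hx.hJ (show 0 ≤ z by linarith)
  have h6 := mul_le_mul_of_nonneg_left h2 hJ.le
  linarith

theorem stepU_ib {ib bb : ℝ} (h : 1 ≤ ib * bb) (hb : 0 < bb) : 0 ≤ ib := by
  by_contra hh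
  have := mul_nonpos_of_nonpos_of_nonneg (not_le.1 hh).le hb.le
  linarith

/-- the two products that bound a cell -/
theorem stepU_cell (h : F.Ok) (hx : CtxU F α z Z J) (hZ : 2 ≤ Z)
    (hlo : 2 ≤ F.lam * (lo - F.x1) * Z) (h1 : F.x1 ≤ a) (h2 : lo ≤ a) (hab : a < b) {S E1 : ℝ}
    (hS : |F.lam * (b - a) * Z| ≤ S) (hE : |Real.exp (-((1 + F.lam * a) * Z))| ≤ E1) :
    F.jj α * (α * (b - a) * Af F.p α a) ≤ S * E1 ∧
      F.jj α * (α * (b - a) * (14 / 5)) ≤ 14 / 5 * J * S := by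
  obtain ⟨hα, hJ, hj1, hj2⟩ := stepU_ctx h hx hZ
  have hl := h.lam_pos
  have hsl : 0 ≤ F.lam * (b - a) := mul_nonneg hl.le (by linarith)
  have hS' := (le_abs_self _).trans hS
  have hE' := (le_abs_self _).trans hE
  have e1 : 1 + F.lam * a = F.lam * (a - F.x1) := by linarith [h.lam_x1]
  have e2 : α * (b - a) = F.lam * (b - a) * z := by rw [hx.al]; ring
  constructor
  · have k1 := h.jj_Af_le α h1
    have k2 : 1 ≤ (1 + F.lam * a) * Z := by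
      rw [e1]
      have := mul_le_mul_of_nonneg_right
        (mul_le_mul_of_nonneg_left (show lo - F.x1 ≤ a - F.x1 by linarith) hl.le)
        (show 0 ≤ Z by linarith)
      linarith
    have k3 := mul_exp_le hx.le k2 (by linarith)
    rw [show α * (a - F.x1) = (1 + F.lam * a) * z by rw [e1, hx.al]; ring] at k1
    have k4 := mul_le_mul_of_nonneg_left k1
      (mul_nonneg hsl (show 0 ≤ z by linarith [hx.le]))
    have k5 := mul_le_mul_of_nonneg_left k3 hsl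
    have k6 : F.lam * (b - a) * Z * Real.exp (-((1 + F.lam * a) * Z)) ≤ S * E1 :=
      mul_le_mul hS' hE' (Real.exp_pos _).le ((abs_nonneg _).trans hS)
    rw [e2]
    linarith
  · have k1 := mul_le_mul_of_nonneg_left hj2 hsl
    have k2 := mul_le_mul_of_nonneg_left hS' hJ.le
    rw [e2]
    linarith

theorem begU_ok (h : F.Ok) {zz d0 mm : ℕ} (H : (begU zz d0 mm r).holds (g.l F) d)
    (hz : val zz ≤ z) (hlt : F.p * (z * F.lam) < 1) :
    val d0 ≤ F.p * (z * F.lam) ∧ ∃ J : ℝ, CtxU F (z * F.lam) z (val zz) J ∧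
      r.holds (Real.exp (-val zz) :: 2 * J ^ 2 * g.i2 :: -(val mm * (14 / 5 * J)) :: val zz :: J ::
        14 / 5 * J :: val zz * F.lam :: g.l F) d := by
  obtain ⟨_, rfl, _, rfl, k1, _, _, _, rfl, rfl, rfl, pd, k2, k3, k4, eU, k5, y, k6, k7, J, k8,
    _, rfl, _, rfl, _, rfl, _, rfl, H'⟩ := begU_spec h.p_pos (show (begU zz d0 mm r).holds
      (g.KB :: F.p * F.lam / 2 :: F.lam :: F.p :: g.Lam :: g.ibi :: g.iT :: g.i2 ::
        [F.kc, F.qc, g.Wm, Real.sqrt F.ρ, g.srU, g.B1, g.Bp, g.EA, g.EB]) d from H)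
  have hp := h.p_pos
  have hl := h.lam_pos
  refine ⟨?_, J, ⟨hz, rfl, hlt, ?_⟩, H'⟩
  · have := mul_le_mul_of_nonneg_right hz (mul_pos hp hl).le
    linarith
  · refine (jj_le h rfl k2 k3 k4 k5 k6 k7).trans ?_
    have e : Real.exp (1 / 24 * eU * (1 + pd) * 2 ^ 2 - z - z * F.lam * 0 - lk F.p 0) * y =
        Real.exp (1 / 24 * eU * (1 + pd) * 2 ^ 2 - val zz - val zz * F.lam * 0 - lk F.p 0) * y *
          Real.exp (-(z - val zz)) := by
      rw [mul_right_comm _ y, ← Real.exp_add]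
      congr 2
      ring
    rw [e]
    exact mul_le_mul_of_nonneg_right ((le_abs_self _).trans k8) (Real.exp_pos _).le

theorem lU_ok {bb : ℝ} {v0 : ℕ} (h : F.Ok) (hx : CtxU F α z Z J)
    (hc : LogC F b2 xf b bb (val v0)) (hT : TpL F b bb e)
    (H : (lU v0 r).holds (E :: I :: M :: Z :: J :: 14 / 5 * J :: s) (e ++ d)) :
    2 ≤ F.lam * (b - F.x1) * Z ∧ 2 ≤ Z ∧ ∃ I' c1 c2 : ℝ,
      I + F.jj α ^ 2 * (F.I2 α F.x1 b - 2 * (F.Kx F.x1 b / b2)) ≤ I' + c1 + c2 * (F.p * α) ∧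
      r.holds (c1 :: c2 :: E :: I' :: M :: Z :: J :: 14 / 5 * J :: s) d := by
  obtain ⟨ib, rfl, hib⟩ := hT
  obtain ⟨_, rfl, k1, _, rfl, _, rfl, _, rfl, H'⟩ := lU_spec (show (lU v0 r).holds
    (E :: I :: M :: Z :: J :: 14 / 5 * J :: s) (F.lam * (b - F.x1) :: ib :: d) from H)
  have hp := h.p_pos
  have hl := h.lam_pos
  have hb : 0 < b - F.x1 := sub_pos.2 hc.lt
  have hsl : 0 < F.lam * (b - F.x1) := mul_pos hl hb
  have hsl1 : F.lam * (b - F.x1) ≤ 1 := by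
    have := mul_nonpos_of_nonneg_of_nonpos hl.le (hc.le_xf.trans hc.xf_le)
    linarith [h.lam_x1]
  have hZ : 2 ≤ Z := by
    have hZ0 : 0 < Z := by
      by_contra hh
      have := mul_nonpos_of_nonneg_of_nonpos hsl.le (not_lt.1 hh)
      linarith
    have := mul_le_mul_of_nonneg_right hsl1 hZ0.le
    linarith
  refine ⟨k1, hZ, _, _, _, ?_, H'⟩
  obtain ⟨hα, hJ, hj1, hj2⟩ := stepU_ctx h hx hZ
  have hj := h.jj_pos α
  have hib0 := stepU_ib hib hc.bb_pos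
  have hv := hc.v0_pos
  have hz : 0 ≤ z := by linarith [hx.le]
  have p1 := hc.I_le h hib (γ := α) le_rfl
  have p2 := hc.I_sup h hib (γ := -α) (S := F.lam * (b - F.x1) * z) (S0 := 1 / 2 * val v0)
    (A := 14 / 5)
    (by
      rw [neg_mul, abs_neg, abs_of_nonneg (mul_nonneg hα hb.le), hx.al]
      exact le_of_eq (by ring))
    (by
      rw [neg_mul, abs_neg, abs_of_nonneg (by positivity)]
      have := mul_le_mul_of_nonneg_left hx.lt.le hv.le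
      linarith)
    (fun t _ => Af_neg_le hp h.p_le hα t)
  have q1 : ((α * (val v0 * F.p / 2) + α * (b - F.x1)) / 2 + 1 / 4) *
      (1 - Real.exp (-(α * (b - F.x1))) ^ 2) - α * (b - F.x1) / 2 ≤
      1 / 4 + 1 / 4 * val v0 * (F.p * α) := by
    have : 0 ≤ ((α * (val v0 * F.p / 2) + α * (b - F.x1)) / 2 + 1 / 4) *
      Real.exp (-(α * (b - F.x1))) ^ 2 := by positivity
    linarith
  have q2 : F.jj α * (F.lam * (b - F.x1) * z) ≤ J * (F.lam * (b - F.x1) * Z) := by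
    have := mul_le_mul_of_nonneg_left hj2 hsl.le
    linarith
  have q3 : F.jj α * (F.lam * (b - F.x1) * z + 1 / 2 * val v0) ≤
      J * (F.lam * (b - F.x1) * Z + 1 / 2 * val v0) := by
    have := mul_le_mul_of_nonneg_right hj1 hv.le
    linarith
  have q4 := mul_le_mul q2 q3 (by positivity) (by positivity)
  have q5 := mul_le_mul_of_nonneg_left q4 (show 0 ≤ ib * (14 / 5) ^ 2 by positivity)
  have q6 := mul_le_mul_of_nonneg_left q1 hib0
  have r1 := mul_le_mul_of_nonneg_left p1 (sq_nonneg (F.jj α))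
  have r2 := mul_le_mul_of_nonneg_left p2 (sq_nonneg (F.jj α))
  have e : ∀ x : ℝ, F.jj α ^ 2 * (ib * (Af F.p α F.x1 ^ 2 * x) + F.Kx F.x1 b / b2) =
      ib * x + F.jj α ^ 2 * (F.Kx F.x1 b / b2) := fun x => by
    have : F.jj α ^ 2 * (ib * (Af F.p α F.x1 ^ 2 * x)) =
        (F.jj α * Af F.p α F.x1) ^ 2 * (ib * x) := by ring
    rw [mul_add, this, h.jj_mul α, one_pow, one_mul]
  rw [e] at r1
  unfold Fam.I2
  linarith

theorem fU_ok (h : F.Ok) (hx : CtxU F α z Z J) (hZ : 2 ≤ Z) (hlo : 2 ≤ F.lam * (lo - F.x1) * Z)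
    (hc : FarC F b2 mm xf lo a b c) (hT : TpF F a b c e)
    (H : (fU r).holds (c1 :: c2 :: E :: I :: M :: Z :: J :: 14 / 5 * J :: s) (e ++ d)) :
    ∃ I' : ℝ, I + F.jj α ^ 2 * (F.I2 α a b - 2 * (F.Kx a b / b2)) ≤ I' ∧
      r.holds (c1 :: c2 :: E :: I' :: M :: Z :: J :: 14 / 5 * J :: s) d := by
  obtain ⟨ib, rfl, hib⟩ := hT
  obtain ⟨S, k1, E1, k2, _, rfl, H'⟩ := fU_spec (show (fU r).holds
    (c1 :: c2 :: E :: I :: M :: Z :: J :: 14 / 5 * J :: s)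
    (F.lam * (b - a) :: F.lam * a :: ib :: d) from H)
  refine ⟨_, ?_, H'⟩
  obtain ⟨hα, hJ, hj1, hj2⟩ := stepU_ctx h hx hZ
  obtain ⟨q1, q2⟩ := stepU_cell h hx hZ hlo hc.x1_le hc.lo_le hc.lt k1 k2
  have hp := h.p_pos
  have hj := h.jj_pos α
  have hib0 := stepU_ib hib hc.bb_pos
  have hb : 0 < b - a := sub_pos.2 hc.lt
  have hA := Af_pos hp α a
  have p1 := hc.I_sup h hib (γ := α) (S := α * (b - a)) (A := Af F.p α a)
    (abs_of_nonneg (mul_nonneg hα hb.le)).le (fun t ht => Af_anti hp hα ht.1)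
  have p2 := hc.I_sup h hib (γ := -α) (S := α * (b - a)) (A := 14 / 5)
    (by rw [neg_mul, abs_neg, abs_of_nonneg (mul_nonneg hα hb.le)])
    (fun t _ => Af_neg_le hp h.p_le hα t)
  have q3 := mul_le_mul_of_nonneg_left (pow_le_pow_left₀ (by positivity) q1 2) hib0
  have q4 := mul_le_mul_of_nonneg_left (pow_le_pow_left₀ (by positivity) q2 2) hib0
  have r1 := mul_le_mul_of_nonneg_left p1 (sq_nonneg (F.jj α))
  have r2 := mul_le_mul_of_nonneg_left p2 (sq_nonneg (F.jj α))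
  unfold Fam.I2
  linarith

theorem nU_ok (h : F.Ok) (hx : CtxU F α z Z J) (hZ : 2 ≤ Z) (hlo : 2 ≤ F.lam * (lo - F.x1) * Z)
    (hc : NearC F lo a b c) (hT : TpN F a b c e)
    (H : (nU r).holds (c1 :: c2 :: E :: I :: M :: Z :: J :: 14 / 5 * J :: s) (e ++ d)) :
    ∃ I' : ℝ, I + F.jj α ^ 2 * F.I2 α a b ≤ I' ∧
      r.holds (c1 :: c2 :: E :: I' :: M :: Z :: J :: 14 / 5 * J :: s) d := by
  obtain ⟨cd, P, Q, ib, rfl, -, hP, -, hib⟩ := hT
  obtain ⟨S, k1, E1, k2, _, rfl, _, rfl, H'⟩ := nU_spec (show (nU r).holds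
    (c1 :: c2 :: E :: I :: M :: Z :: J :: 14 / 5 * J :: s)
    (F.lam * (b - a) :: F.lam * a :: (b - a) * kf F.p ((a + b) / 2) ::
      (b - a) * qf F.p ((a + b) / 2) :: cd :: P :: Q :: ib :: d) from H)
  refine ⟨_, ?_, H'⟩
  obtain ⟨hα, hJ, hj1, hj2⟩ := stepU_ctx h hx hZ
  obtain ⟨q1, q2⟩ := stepU_cell h hx hZ hlo hc.x1_le hc.lo_le hc.lt k1 k2
  have hp := h.p_pos
  have hj := h.jj_pos α
  have hib0 := stepU_ib hib hc.bb_pos
  have hb : 0 < b - a := sub_pos.2 hc.lt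
  have hA := Af_pos hp α a
  have hP0 : 0 ≤ P := le_trans (mul_pos hb (kf_pos F.p a)).le (hP a ⟨le_rfl, hc.lt.le⟩)
  have p1 := hc.I_sup h hib (γ := α) (S := α * (b - a)) (A := Af F.p α a)
    (abs_of_nonneg (mul_nonneg hα hb.le)).le (fun t ht => Af_anti hp hα ht.1) hP
  have p2 := hc.I_sup h hib (γ := -α) (S := α * (b - a)) (A := 14 / 5)
    (by rw [neg_mul, abs_neg, abs_of_nonneg (mul_nonneg hα hb.le)])
    (fun t _ => Af_neg_le hp h.p_le hα t) hP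
  have q0 := mul_le_mul_of_nonneg_right hj1 hP0
  have q1' : F.jj α * (α * (b - a) * Af F.p α a + P) ≤ S * E1 + J * P := by linarith
  have q2' : F.jj α * (α * (b - a) * (14 / 5) + P) ≤ J * P + 14 / 5 * J * S := by linarith
  have q3 := mul_le_mul_of_nonneg_left (pow_le_pow_left₀ (by positivity) q1' 2) hib0
  have q4 := mul_le_mul_of_nonneg_left (pow_le_pow_left₀ (by positivity) q2' 2) hib0
  have r1 := mul_le_mul_of_nonneg_left p1 (sq_nonneg (F.jj α))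
  have r2 := mul_le_mul_of_nonneg_left p2 (sq_nonneg (F.jj α))
  unfold Fam.I2
  linarith

theorem stepU_rho {z Z : ℝ} (hz : Z ≤ z) (hZ : 2 ≤ Z) :
    1 ≤ z / Z ∧ Real.exp (-(z - Z)) ^ 2 * (z / Z) ^ 3 ≤ 1 := by
  have hZ0 : 0 < Z := by linarith
  have h1 : 1 ≤ z / Z := (one_le_div hZ0).2 hz
  refine ⟨h1, ?_⟩
  have h2 : z / Z ≤ Real.exp ((z - Z) / 2) := by
    refine le_trans ?_ (Real.add_one_le_exp _)
    rw [div_le_iff₀ hZ0]
    nlinarith
  have h3 := pow_le_pow_left₀ (by positivity) h2 3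
  refine (mul_le_mul_of_nonneg_left h3 (by positivity)).trans ?_
  rw [← Real.exp_nat_mul, ← Real.exp_nat_mul, ← Real.exp_add, Real.exp_le_one_iff]
  push_cast
  linarith

theorem stepU_tail {j x α W' ρ δ J E A W : ℝ} (hj : 0 ≤ j) (hx : 0 ≤ x) (hα : 0 ≤ α)
    (hW' : 0 ≤ W') (hρ : 1 ≤ ρ) (hδ : 0 ≤ δ) (hJ : 0 ≤ J) (hE : 0 ≤ E) (hA : 0 ≤ A)
    (hW : 0 ≤ W) (h1 : j ≤ J * δ) (h2 : x ≤ E * δ) (h3 : α ≤ ρ * A) (h4 : W' ≤ ρ ^ 2 * W)
    (h5 : δ ^ 2 * ρ ^ 3 ≤ 1) :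
    x * (j * (1 + W') + (j + α * x) * W') ≤ E * (J * (1 + W) + (J + A * E) * W) := by
  have hρ0 : 0 ≤ ρ := by linarith
  have r1 : 1 ≤ ρ ^ 3 := one_le_pow₀ hρ
  have r2 : ρ ^ 2 ≤ ρ ^ 3 := pow_le_pow_right₀ hρ (by norm_num)
  have a1 : 1 + W' ≤ ρ ^ 3 * (1 + W) := by nlinarith [mul_le_mul_of_nonneg_right r2 hW]
  have a2 : j + α * x ≤ δ * (ρ * (J + A * E)) := by
    have b1 : α * x ≤ ρ * A * (E * δ) := mul_le_mul h3 h2 hx (by positivity)
    have b2 : J * δ ≤ ρ * (J * δ) := le_mul_of_one_le_left (by positivity) hρ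
    linarith
  have a3 : j * (1 + W') ≤ J * δ * (ρ ^ 3 * (1 + W)) :=
    mul_le_mul h1 a1 (by positivity) (by positivity)
  have a4 : (j + α * x) * W' ≤ δ * (ρ * (J + A * E)) * (ρ ^ 2 * W) :=
    mul_le_mul a2 h4 hW' (by positivity)
  have a5 : x * (j * (1 + W') + (j + α * x) * W') ≤
      E * δ * (J * δ * (ρ ^ 3 * (1 + W)) + δ * (ρ * (J + A * E)) * (ρ ^ 2 * W)) :=
    mul_le_mul h2 (add_le_add a3 a4) (by positivity) (by positivity)
  have a6 := mul_le_mul_of_nonneg_right h5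
    (show 0 ≤ E * (J * (1 + W) + (J + A * E) * W) by positivity)
  linarith

theorem tlU_ok (hF : Fit C F) (hg : Glob C F g) (hx : CtxU F α z Z J) (hZ : 2 ≤ Z)
    (H : (tlU C.w r).holds (c1 :: c2 :: Real.exp (-Z) :: I :: M :: Z :: J :: 14 / 5 * J ::
      Z * F.lam :: g.l F) d) :
    ∃ Θ₁ Θ₂ R : ℝ, F.Tl α Θ₁ ∧ F.Tl (-α) Θ₂ ∧
      I + F.jj α ^ 2 * (F.Rs α Θ₁ + F.Rs (-α) Θ₂) ≤ R ∧
      r.holds (R :: c1 :: c2 :: M :: J :: 14 / 5 * J :: g.l F) d := by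
  obtain ⟨A, k1, _, rfl, R, k2, H'⟩ := tlU_spec (show (tlU C.w r).holds
    (c1 :: c2 :: Real.exp (-Z) :: I :: M :: Z :: J :: 14 / 5 * J :: Z * F.lam :: g.KB ::
      F.p * F.lam / 2 :: F.lam :: F.p :: g.Lam :: g.ibi :: g.iT :: g.i2 :: F.kc :: F.qc :: g.Wm ::
      [Real.sqrt F.ρ, g.srU, g.B1, g.Bp, g.EA, g.EB]) d from H)
  have h := hF.ok
  obtain ⟨hα, hJ, hj1, hj2⟩ := stepU_ctx h hx hZ
  obtain ⟨t1, t2⟩ := tail_F hF hα hx.lt
  refine ⟨_, _, R, t1, t2, le_trans ?_ ((le_abs_self _).trans k2), H'⟩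
  rw [← hF.w]
  obtain ⟨ρ1, ρ2⟩ := stepU_rho hx.le hZ
  have hp := h.p_pos
  have hl := h.lam_pos
  have hj := h.jj_pos α
  have hw := h.w_pos
  have hz := hx.le
  have hA1 := Af_pos hp α F.xc
  have hA2 := Af_pos hp (-α) F.xc
  have hA0 : 0 ≤ A := (abs_nonneg _).trans k1
  have hδ1 : Real.exp (-(z - Z)) ≤ 1 := Real.exp_le_one_iff.2 (by linarith)
  have a1 : F.jj α * Af F.p α F.xc ≤ Real.exp (-Z) * Real.exp (-(z - Z)) := by
    refine (h.jj_Af_le α (h.x1_neg.le.trans h.xc_pos.le)).trans ?_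
    rw [← Real.exp_add]
    refine Real.exp_le_exp.2 ?_
    have b1 := mul_nonneg hα h.xc_pos.le
    have b2 : α * F.x1 = -z := by rw [hx.al, mul_assoc, h.lam_x1]; ring
    linarith
  have a2 := h.jj_Af_neg_le hα hj1 F.xc
  have a3 : α ≤ z / Z * A := by
    have b1 := mul_le_mul_of_nonneg_left ((le_abs_self _).trans k1)
      (show 0 ≤ z / Z by linarith)
    have b2 : z / Z * (Z * F.lam) = α := by
      rw [hx.al, ← mul_assoc, div_mul_cancel₀ _ (by linarith)]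
    linarith
  have a4 : (F.w + α) ^ 2 ≤ (z / Z) ^ 2 * (F.w + A) ^ 2 := by
    rw [← mul_pow]
    refine pow_le_pow_left₀ (by positivity) ?_ 2
    have := le_mul_of_one_le_left hw.le ρ1
    linarith
  have a5 := stepU_tail hj.le (mul_pos hj hA1).le hα (sq_nonneg (F.w + α)) ρ1 (Real.exp_pos _).le
    hJ.le (Real.exp_pos (-Z)).le hA0 (sq_nonneg (F.w + A)) hx.hJ a1 a3 a4 ρ2
  have a6 : (F.jj α * Af F.p α F.xc) ^ 2 ≤ Real.exp (-Z) ^ 2 :=
    pow_le_pow_left₀ (by positivity)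
      (a1.trans (mul_le_of_le_one_right (Real.exp_pos _).le hδ1)) 2
  have a7 := pow_le_pow_left₀ (by positivity) a2 2
  have a8 : F.jj α * Af F.p (-α) F.xc * (F.jj α * (1 + F.w / F.qc) ^ 2) ≤
      14 / 5 * J * (J * g.Wm) :=
    mul_le_mul a2 (mul_le_mul hj1 hg.Wm (by positivity) hJ.le) (by positivity) (by positivity)
  have hT : 0 < F.bt * F.w ^ 2 := mul_pos h.bt_pos (by positivity)
  have i1 : F.bi⁻¹ ≤ g.ibi := by
    rw [inv_le_iff_one_le_mul₀ h.bi_pos]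
    exact hg.ibi
  have i2 : (F.bt * F.w ^ 2)⁻¹ ≤ g.iT := by
    rw [inv_le_iff_one_le_mul₀ hT]
    exact hg.iT
  have f1 := mul_le_mul (add_le_add a6 a7) i1 (inv_pos.2 h.bi_pos).le (by positivity)
  have f2 := mul_le_mul (add_le_add a5 a8) i2 (inv_pos.2 hT).le
    (le_trans (by positivity) (add_le_add a5 a8))
  unfold Fam.Rs
  simp only [div_eq_mul_inv] at f1 f2 ⊢
  linarith

end Pool.Agent.Eps.T
end
end

-- part Pool.Agent.Lib.MP_3bda03_nt.T.BoxU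
section

/-! The unbounded mode. -/

set_option autoImplicit false

noncomputable section

open MeasureTheory Set

namespace Pool.Agent.Eps.T

variable {C : Cert} {F : Fam} {g : GV} {z : ℝ} {d : List ℝ}

theorem boxesU_ok {bs : List BxU} {d0 : ℕ} {R c1 c2 M J J7 x : ℝ} {s : List ℝ}
    (H : (Cert.boxesU bs d0).holds (R :: c1 :: c2 :: M :: J :: J7 :: s) d) (h1 : val d0 ≤ x)
    (h2 : x < val (lastG (bs.map BxU.z) d0)) :
    ∃ a : Bool, (Cert.fin a).holds (x :: (R + c1 + c2 * x) :: M :: J :: J7 :: s) d := by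
  induction bs generalizing d0 with
  | nil => exact absurd h2 (not_lt.2 h1)
  | cons b bs ih =>
    obtain ⟨H1, H2⟩ := Ck.holds.both_elim H
    rcases le_total x (val b.z) with h | h
    · obtain ⟨I, rfl, H3⟩ := boxU_spec H1 x h1 h
      exact ⟨b.a, H3⟩
    · exact ih H2 h h2

variable {α Z J E I M c1 c2 : ℝ} {r : Ck} {s d' : List ℝ}

theorem boxU_far (hF : Fit C F) (hf : C.far = true) (hx : CtxU F α z Z J) (hZ : 2 ≤ Z)
    (hlo : 2 ≤ F.lam * (C.xl F - F.x1) * Z) (hT : TapeF (atN F (TpF F)) C.fs C.lcz bz0 d d')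
    (H : (fwd (fun _ _ _ => fU) C.fs C.lcz bz0 r).holds
      (c1 :: c2 :: E :: I :: M :: Z :: J :: 14 / 5 * J :: s) d') :
    ∃ I' : ℝ, I + F.jj α ^ 2 * (F.I2 α (C.xl F) (C.xf F) -
        2 * (F.Kx (C.xl F) (C.xf F) / val C.b2)) ≤ I' ∧
      r.holds (c1 :: c2 :: E :: I' :: M :: Z :: J :: 14 / 5 * J :: s) d := by
  have e : pos F.x1 C.lcz bz0 = C.xl F := (if_pos hf).symm
  obtain ⟨S, ⟨I', h1, rfl⟩, h2⟩ := fwd_box (Inv := fun ca ba S => ∃ I' : ℝ,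
    I + F.jj α ^ 2 * (F.I2 α (C.xl F) (pos F.x1 ca ba) -
      2 * (F.Kx (C.xl F) (pos F.x1 ca ba) / val C.b2)) ≤ I' ∧
    S = c1 :: c2 :: E :: I' :: M :: Z :: J :: 14 / 5 * J :: s) (by
      rintro ca ba c r S e d hc hT ⟨I1, h1, rfl⟩ H
      obtain ⟨I2, h2, H⟩ := fU_ok hF.ok hx hZ hlo hc hT H
      refine ⟨_, ⟨I2, ?_, rfl⟩, H⟩
      have hb := hc.le_xf.trans hF.mem.2.2
      rw [← hF.ok.I2_add α hF.mem.1 ⟨hc.x1_le, hc.lt.le.trans hb⟩ ⟨hc.x1_le.trans hc.lt.le, hb⟩,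
        ← F.Kx_add _ (pos F.x1 ca ba), add_div]
      linarith) (hF.far hf) hT ⟨I, by simp [e, F.I2_same, Fam.Kx], rfl⟩ H
  exact ⟨I', hF.far_last hf ▸ h1, h2⟩

theorem boxU_near (hF : Fit C F) (hx : CtxU F α z Z J) (hZ : 2 ≤ Z)
    (hlo : 2 ≤ F.lam * (C.xl F - F.x1) * Z) (hT : TapeF (atN F (TpN F)) C.ns C.na C.nb d d')
    (H : (fwd (fun _ _ _ => nU) C.ns C.na C.nb r).holds
      (c1 :: c2 :: E :: I :: M :: Z :: J :: 14 / 5 * J :: s) d') :
    ∃ I' : ℝ, I + F.jj α ^ 2 * F.I2 α (C.xf F) F.xc ≤ I' ∧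
      r.holds (c1 :: c2 :: E :: I' :: M :: Z :: J :: 14 / 5 * J :: s) d := by
  obtain ⟨S, ⟨I', h1, rfl⟩, h2⟩ := fwd_box (Inv := fun ca ba S => ∃ I' : ℝ,
    I + F.jj α ^ 2 * F.I2 α (C.xf F) (pos F.x1 ca ba) ≤ I' ∧
    S = c1 :: c2 :: E :: I' :: M :: Z :: J :: 14 / 5 * J :: s) (by
      rintro ca ba c r S e d hc hT ⟨I1, h1, rfl⟩ H
      obtain ⟨I2, h2, H⟩ := nU_ok hF.ok hx hZ hlo hc hT H
      refine ⟨_, ⟨I2, ?_, rfl⟩, H⟩
      rw [← hF.ok.I2_add α hF.mem.2 ⟨hc.x1_le, hc.lt.le.trans hc.le_xc⟩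
        ⟨hc.x1_le.trans hc.lt.le, hc.le_xc⟩]
      linarith) hF.near hT ⟨I, by simp [hF.near_first, F.I2_same], rfl⟩ H
  exact ⟨I', hF.near_last ▸ h1, h2⟩

theorem allU_ok (hF : Fit C F) (hg : Glob C F g) (hT : C.TpW F d) (hf : C.far = true)
    {zz d0 : ℕ} {bs : List BxU} (hl : 1 ≤ val (lastG (bs.map BxU.z) d0))
    (H : (C.allU zz d0 bs).holds (g.l F) d) (hz : val zz ≤ z) (hlt : F.p * (z * F.lam) < 1) :
    F.CritAt (val C.lf) (z * F.lam) := by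
  obtain ⟨d1, t1, -, t2⟩ := hT
  obtain ⟨e, d2, t4, t3, rfl⟩ := t2 hf
  obtain ⟨h0, J, hx, H⟩ := begU_ok hF.ok H hz hlt
  obtain ⟨hlo, hZ, I1, c1, c2, a1, H⟩ := lU_ok hF.ok hx (hF.log hf) t3 H
  obtain ⟨I2, a2, H⟩ := boxU_far hF hf hx hZ hlo t4 H
  obtain ⟨I3, a3, H⟩ := boxU_near hF hx hZ hlo t1 H
  obtain ⟨Θ₁, Θ₂, R, b1, b2, a4, H⟩ := tlU_ok hF hg hx hZ H
  obtain ⟨a, H⟩ := boxesU_ok H h0 (hlt.trans_le hl)
  have j0 := hF.ok.jj_pos (z * F.lam)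
  have hα : 0 ≤ z * F.lam := mul_nonneg (by linarith) (div_pos hF.ok.p_pos hF.ok.τ_pos).le
  have hJ : F.jj (z * F.lam) ≤ J := hx.hJ.trans (mul_le_of_le_one_right
    ((mul_pos_iff_of_pos_right (Real.exp_pos _)).1 (j0.trans_le hx.hJ)).le (Real.exp_le_one_iff.2 (by linarith)))
  refine fin_ok hF hg hα hlt hJ b1 b2 ?_ (shift_U hF hα hJ) H
  have m0 : F.x1 ∈ Icc F.x1 F.xc := ⟨le_rfl, hF.mem.1.1.trans hF.mem.1.2⟩
  have m1 : F.xc ∈ Icc F.x1 F.xc := ⟨m0.2, le_rfl⟩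
  have k0 : 0 ≤ F.Kx F.x1 (C.xf F) / val C.b2 := div_nonneg (F.Kx_nonneg hF.mem.2.1) hF.b2_pos.le
  have k1 : F.jj (z * F.lam) ^ 2 * (F.Kx F.x1 (C.xf F) / val C.b2) ≤ J ^ 2 * g.i2 :=
    mul_le_mul (pow_le_pow_left₀ j0.le hJ 2) hg.i2 k0 (sq_nonneg _)
  rw [← F.Kx_add _ (C.xl F), add_div] at k1
  rw [F.It_add, ← hF.ok.I2_add _ m0 hF.mem.2 m1, ← hF.ok.I2_add _ m0 hF.mem.1 hF.mem.2]
  linarith

end Pool.Agent.Eps.T
end
end

-- part Pool.Agent.Lib.MP_3bda03_nt.T.EndB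
section

/-! The steps of the backward mode: start, switch point, end. -/

set_option autoImplicit false

noncomputable section

open MeasureTheory Set

namespace Pool.Agent.Eps.T

variable {C : Cert} {F : Fam} {g : GV} {α z w0 gz iU io I M : ℝ} {r : Ck} {s d : List ℝ}

theorem endb_near {x U : ℝ} (h0 : 0 ≤ x) (h1 : x ≤ 2 * U) : |x - U| ≤ U :=
  abs_le.2 ⟨by linarith, by linarith⟩

theorem endb_div {a b x y : ℝ} (ha : a ≤ b) (hb : 0 ≤ b) (hx : 0 < x) (h : 1 ≤ y * x) :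
    a / x ≤ b * y := by
  rw [div_le_iff₀ hx]
  nlinarith

theorem endb_rcp {a b x y : ℝ} (ha : 0 ≤ a) (hab : a ≤ b) (hx : 0 < x) :
    y * (2 - y * x) * a ≤ b / x := by
  rw [le_div_iff₀ hx]
  nlinarith [mul_nonneg ha (sq_nonneg (y * x - 1))]

theorem begB_ok (h : F.Ok) {z1 z2 e0 th xe : ℕ} {ke KB sig : ℝ} (hke : kf F.p (val xe) ≤ ke)
    (H : (begB z1 z2 e0 th xe r).holds (ke :: qf F.p (val xe) :: KB :: sig :: F.lam :: s) d)
    (h1 : val z1 ≤ z) (h2 : z ≤ val z2) (hz : 0 ≤ z) :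
    ∃ w0 gz iU io : ℝ, CtxB F (z * F.lam) z w0 gz iU io ∧
      r.holds (At F.p (z * F.lam) (val xe) * Real.exp (-w0) ::
        At F.p (-(z * F.lam)) (val xe) * Real.exp (-w0) :: 0 :: 0 :: z :: w0 :: gz :: iU ::
        z * F.lam :: io :: KB :: sig :: F.lam :: s) d := by
  obtain ⟨he, _, rfl, w0, hw, gz, -, io, hio, iU, hiU, y, hy, hy1, Ue, hU, H⟩ :=
    begB_spec H z h1 h2
  have hα : 0 ≤ z * F.lam := mul_nonneg hz h.lam_pos.le
  have hq : 0 < qf F.p (val xe) - z * F.lam := by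
    by_contra h0
    nlinarith [mul_nonneg hy.le (neg_nonneg.2 (not_lt.1 h0))]
  have hx : 0 < val xe := (qf_pos_iff h.p_pos).1 (by linarith)
  have hk := kf_pos F.p (val xe)
  have hE : 0 ≤ Real.exp (z * F.lam * val xe) * ke := mul_nonneg (Real.exp_pos _).le (by linarith)
  have hU2 : Real.exp (z * F.lam * val xe) * ke * y * Real.exp (-w0) ≤ 2 * Ue := by
    have h3 := (le_abs_self _).trans hU
    rw [sub_eq_add_neg, Real.exp_add, mul_comm (val xe)] at h3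
    linarith
  have hp : At F.p (z * F.lam) (val xe) ≤ Real.exp (z * F.lam * val xe) * ke * y :=
    (At_le h.p_pos (by linarith)).trans
      (endb_div (mul_le_mul_of_nonneg_left hke (Real.exp_pos _).le) hE hq hy1)
  have hm : At F.p (-(z * F.lam)) (val xe) ≤ Real.exp (z * F.lam * val xe) * ke * y := by
    refine (At_le h.p_pos (by linarith)).trans (endb_div ?_ hE (by linarith) ?_)
    · exact mul_le_mul (Real.exp_le_exp.2 (by nlinarith [mul_nonneg hα hx.le])) hke hk.le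
        (Real.exp_pos _).le
    · nlinarith [mul_nonneg hy.le hα]
  obtain ⟨_, rfl, _, rfl, H⟩ := H _
    (endb_near (mul_nonneg (At_pos h.p_pos _ _).le (Real.exp_pos _).le)
      ((mul_le_mul_of_nonneg_right hp (Real.exp_pos _).le).trans hU2)) _
    (endb_near (mul_nonneg (At_pos h.p_pos _ _).le (Real.exp_pos _).le)
      ((mul_le_mul_of_nonneg_right hm (Real.exp_pos _).le).trans hU2))
  exact ⟨w0, gz, iU, io, ⟨hz, rfl, hw ▸ mul_nonneg he hα, hio, (le_abs_self _).trans hiU⟩, H⟩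

theorem swB_ok (hF : Fit C F) (hg : Glob C F g) (hx : CtxB F α z w0 gz iU io)
    (H : (swB C.xc C.mi C.w r).holds (At F.p α F.xc * Real.exp (-w0) ::
      At F.p (-α) F.xc * Real.exp (-w0) :: I :: M :: z :: w0 :: gz :: iU :: α :: io :: g.l F) d) :
    ∃ Θ₁ Θ₂ I' : ℝ, F.Tl α Θ₁ ∧ F.Tl (-α) Θ₂ ∧
      io ^ 2 * (F.Rs α Θ₁ + F.Rs (-α) Θ₂ + 2 * (F.Kx F.x1 (C.xf F) / val C.b2)) ≤ I' ∧
      r.holds (At F.p α F.xc * Real.exp (-w0) :: At F.p (-α) F.xc * Real.exp (-w0) :: I' ::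
        io * (F.mi * (Af F.p α F.xc + Af F.p (-α) F.xc)) :: z :: w0 :: gz :: iU :: α :: io ::
        g.l F) d := by
  have h := hF.ok
  obtain ⟨_, rfl, cp, hcp, cm, hcm, _, rfl, _, rfl, _, rfl, hpa, _, rfl, _, rfl, _, rfl, H⟩ :=
    swB_spec H
  rw [← hF.xc] at hcp hcm
  rw [← hF.mi, ← hF.w] at H
  have hα : 0 ≤ α := hx.al ▸ mul_nonneg hx.z_nonneg h.lam_pos.le
  have hio : 0 < io := hx.hio ▸ Real.exp_pos _
  have e1 : cp = io * Af F.p α F.xc := by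
    rw [hcp, hx.hio, Af, mul_comm (At _ _ _), ← mul_assoc, ← mul_assoc, ← Real.exp_add,
      ← Real.exp_add]
    congr 2
    ring
  have e2 : cm = io * Af F.p (-α) F.xc := by
    rw [hcm, hx.hio, Af, mul_comm (At _ _ _), ← mul_assoc, ← mul_assoc, ← Real.exp_add,
      ← Real.exp_add]
    congr 2
    ring
  have e3 : F.mi * (cp + cm) = io * (F.mi * (Af F.p α F.xc + Af F.p (-α) F.xc)) := by
    rw [e1, e2]
    ring
  rw [e3] at H
  have t1 : F.Tl α _ := fun t ht => tail_pos h.p_pos hα h.xc_pos.le h.w_pos ht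
  have t2 : F.Tl (-α) _ := fun t ht => tail_neg h.p_pos hα hpa h.xc_pos.le ht
  refine ⟨_, _, _, t1, t2, ?_, H⟩
  have n1 := h.Tl_nonneg t1
  have n2 := h.Tl_nonneg t2
  have a1 := Af_pos h.p_pos α F.xc
  have a2 := Af_pos h.p_pos (-α) F.xc
  have hT : 0 < F.bt * F.w ^ 2 := mul_pos h.bt_pos (pow_pos h.w_pos 2)
  have b1 := endb_div le_rfl (sq_nonneg (Af F.p α F.xc)) h.bi_pos hg.ibi
  have b2 := endb_div le_rfl (sq_nonneg (Af F.p (-α) F.xc)) h.bi_pos hg.ibi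
  have b3 := endb_div le_rfl (mul_nonneg a1.le n1) hT hg.iT
  have b4 := endb_div le_rfl (mul_nonneg a2.le n2) hT hg.iT
  have b5 : F.Kx F.x1 (C.xf F) / val C.b2 ≤ g.i2 := hg.i2
  refine (mul_le_mul_of_nonneg_left (add_le_add (add_le_add (add_le_add b1 b3) (add_le_add b2 b4))
    (mul_le_mul_of_nonneg_left b5 zero_le_two)) (sq_nonneg io)).trans (le_of_eq ?_)
  rw [e1, e2, Fam.kc, Fam.qc]
  ring

theorem endB_ok (hF : Fit C F) (hg : Glob C F g) (hx : CtxB F α z w0 gz iU io) {Θ₁ Θ₂ : ℝ}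
    (h1 : F.Tl α Θ₁) (h2 : F.Tl (-α) Θ₂) (hI : io ^ 2 * (F.It α Θ₁ + F.It (-α) Θ₂) ≤ I)
    (hM : M ≤ io * (F.M2 α F.x1 F.xc + F.mi * (Af F.p α F.xc + Af F.p (-α) F.xc)))
    (H : (endB r).holds (At F.p α (C.xf F) * Real.exp (-w0) ::
      At F.p (-α) (C.xf F) * Real.exp (-w0) :: I :: M :: z :: w0 :: gz :: iU :: α :: io ::
      g.l F) d) : F.CritAt (val C.lf) α := by
  have h := hF.ok
  obtain ⟨Fp, hFp, a1, ha1, a2, ha2, d2, hd2, y1, -, y2, -, _, rfl, y3, hy3, hy, u1, hu1, u2, hu2,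
    u3, hu3, Y, hY, hY0, hlt, -⟩ := endB_spec H
  have hα : 0 ≤ α := hx.al ▸ mul_nonneg hx.z_nonneg h.lam_pos.le
  have hio : 0 < io := hx.hio ▸ Real.exp_pos _
  have hp := h.p_pos
  have hd : d2 = F.p * α := by rw [hd2, hx.al]; ring
  have hd0 : 0 ≤ F.p * α := mul_nonneg hp.le hα
  rw [hd] at hy hY
  have hq : 0 < 39 / 50 - F.p * α := by
    by_contra h0
    nlinarith [mul_nonneg hy3.le (neg_nonneg.2 (not_lt.1 h0))]
  have hz : α * F.x1 = -z := by rw [hx.al, mul_assoc, h.lam_x1]; ring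
  have hxf : F.x1 ≤ C.xf F := hF.x1_le.trans hF.xl_le
  have hK0 := interval_kf_nonneg F.p hxf
  have hKB := hg.KB
  have hF0 : 0 < Fp := hFp ▸ Real.exp_pos _
  have hw := Real.exp_pos (-w0)
  have hw1 : Real.exp (-w0) ≤ 1 := Real.exp_le_one_iff.2 (neg_nonpos.2 hx.w0_nonneg)
  have e1 : io * Af F.p α F.x1 = Fp * (At F.p α F.x1 * Real.exp (-w0)) := by
    rw [hFp, hx.hio, Af, hz, mul_comm (At _ _ _), ← mul_assoc, ← mul_assoc, ← Real.exp_add,
      ← Real.exp_add]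
    congr 2
    ring
  have e2 : io * Real.exp (α * F.x1) = Real.exp (-(z + gz)) * Real.exp (-w0) := by
    rw [hx.hio, hz, ← Real.exp_add, ← Real.exp_add]
    congr 1
    ring
  have e3 : a2 = io * (Real.exp (α * F.x1) * At F.p (-α) (C.xf F)) := by
    rw [ha2, ← mul_assoc io, e2]
    ring
  have p1 : 0 ≤ a1 := ha1 ▸ mul_nonneg hF0.le (mul_nonneg (At_pos hp _ _).le hw.le)
  have p2 : 0 ≤ a2 := e3 ▸ mul_nonneg hio.le (mul_nonneg (Real.exp_pos _).le (At_pos hp _ _).le)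
  have l1 : a1 ≤ io * Af F.p α F.x1 := by
    rw [e1, ha1]
    exact mul_le_mul_of_nonneg_left (mul_le_mul_of_nonneg_right (At_anti hp α hxf) hw.le) hF0.le
  have l2 : a2 ≤ io * Af F.p (-α) F.x1 := by
    rw [e3, Af, neg_mul, neg_neg]
    exact mul_le_mul_of_nonneg_left
      (mul_le_mul_of_nonneg_left (At_anti hp (-α) hxf) (Real.exp_pos _).le) hio.le
  have r1 : io * Af F.p α F.x1 ≤ u1 + u3 * g.KB := by
    have k1 := mul_le_mul_of_nonneg_left (mul_le_mul_of_nonneg_right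
      (At_far hp hα hxf hF.xf_neg.le) hw.le) hF0.le
    have k2 : (∫ η in F.x1..C.xf F, kf F.p η) * Real.exp (-w0) ≤ g.KB :=
      (mul_le_of_le_one_right hK0 hw1).trans hKB
    have k3 : Fp * ((∫ η in F.x1..C.xf F, kf F.p η) * Real.exp (-w0)) ≤ u3 * g.KB :=
      mul_le_mul ((le_abs_self _).trans hu3) k2 (mul_nonneg hK0 hw.le) ((abs_nonneg _).trans hu3)
    have k4 := (le_abs_self _).trans hu1
    rw [e1]
    rw [add_mul, mul_add, ← ha1] at k1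
    linarith
  have hiU := hx.hiU
  have r2 : io * Af F.p (-α) F.x1 ≤ u2 + iU * g.KB := by
    have k1 := mul_le_mul_of_nonneg_left (Af_far hp hα hxf) hio.le
    have k3 : io * ∫ η in F.x1..C.xf F, kf F.p η ≤ iU * g.KB :=
      mul_le_mul hiU hKB hK0 (hio.le.trans hiU)
    have k4 := (le_abs_self _).trans hu2
    rw [mul_add, ← e3] at k1
    linarith
  have hk : 0 ≤ F.k1 * F.p * (50 / 39) :=
    mul_nonneg (mul_nonneg (kf_pos _ _).le hp.le) (by norm_num)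
  have r3 : io * (F.k1 * F.p * (50 / 39)) ≤ iU * g.Bp := mul_le_mul hiU hg.Bp hk (hio.le.trans hiU)
  have hB : io * g.B1 ≤ io * Bq F.p F.x1 := mul_le_mul_of_nonneg_left hg.B1 hio.le
  have hB0 : 0 ≤ io * g.B1 := mul_nonneg hio.le hg.B1_nonneg
  have hs := Real.sqrt_nonneg F.ρ
  have hE : F.EA * (2 * √F.ρ) ≤ 2 * g.srU * g.EA := by
    have := mul_le_mul hg.EA hg.srU hs (h.EA_nonneg.trans hg.EA)
    linarith
  have hE0 : 0 ≤ F.EA * (2 * √F.ρ) := mul_nonneg h.EA_nonneg (by linarith)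
  have q1 := mul_pos hio (Af_pos hp α F.x1)
  have q2 := mul_pos hio (Af_pos hp (-α) F.x1)
  have q3 := mul_nonneg hio.le hk
  have d1 := mul_le_mul_of_nonneg_left (endb_rcp (y := y1) (add_nonneg p1 hB0) (add_le_add l1 hB)
    (show 0 < 1 - F.p * α by linarith)) (mul_nonneg zero_le_two hs)
  have d2 := mul_le_mul_of_nonneg_left (endb_rcp (y := y2) (add_nonneg p2 hB0) (add_le_add l2 hB)
    (show 0 < 1 + F.p * α by linarith)) (mul_nonneg zero_le_two hs)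
  have m1 := mul_le_mul hE (endb_div (add_le_add r1 r3) (by linarith) hq hy)
    (div_nonneg (by linarith) hq.le) (hE0.trans hE)
  have m2 := mul_le_mul hE (endb_div (y := 1283 / 1000) (add_le_add r2 r3) (by linarith)
    (show 0 < 39 / 50 + F.p * α by linarith) (by linarith))
    (div_nonneg (by linarith) (by linarith)) (hE0.trans hE)
  refine h.critAt hg.lf_pos hio h1 h2 (Or.inl ⟨by linarith, le_rfl⟩)
    (Or.inl ⟨by linarith [mul_neg F.p α], le_rfl⟩) hg.Lam hI ?_ hY0 hlt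
  have e4 : ∀ μ₁ μ₂, io * (F.Yt α μ₁ + F.Yt (-α) μ₂) =
      2 * √F.ρ * ((io * Af F.p α F.x1 + io * Bq F.p F.x1) / (1 - F.p * α)) +
      2 * √F.ρ * ((io * Af F.p (-α) F.x1 + io * Bq F.p F.x1) / (1 + F.p * α)) +
      io * (F.M2 α F.x1 F.xc + F.mi * (Af F.p α F.xc + Af F.p (-α) F.xc)) - io * μ₁ - io * μ₂ := by
    intro μ₁ μ₂
    simp only [Fam.Yt, Fam.Dl, Fam.M2, mul_neg, sub_neg_eq_add]
    ring
  have e5 : ∀ A x, io * (F.EA * (2 * √F.ρ) * (A + F.k1 * F.p * (50 / 39)) / x) =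
      F.EA * (2 * √F.ρ) * ((io * A + io * (F.k1 * F.p * (50 / 39))) / x) := fun A x => by ring
  rw [e4, e5, e5, mul_neg, sub_neg_eq_add, hY]
  linarith

end Pool.Agent.Eps.T
end
end

-- part Pool.Agent.Lib.MP_3bda03_nt.T.BoxB
section

/-! A box of the backward mode. -/

set_option autoImplicit false

noncomputable section

open MeasureTheory Set

namespace Pool.Agent.Eps.T

variable {C : Cert} {F : Fam} {g : GV} {α z w0 gz iU io I M : ℝ} {r : Ck} {s d d' : List ℝ}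

theorem nB_loop (hF : Fit C F) (hx : CtxB F α z w0 gz iU io)
    (hT : TapeB (atN F (TpN F)) C.ns C.na C.nb d d')
    (H : (bwd (fun _ _ c => nB c.m) C.ns C.na C.nb r).holds (At F.p α F.xc * Real.exp (-w0) ::
      At F.p (-α) F.xc * Real.exp (-w0) :: I :: M :: z :: w0 :: gz :: iU :: s) d') :
    ∃ I' M' : ℝ, I + io ^ 2 * F.I2 α (C.xf F) F.xc ≤ I' ∧ M' ≤ M + io * F.M2 α (C.xf F) F.xc ∧
      r.holds (At F.p α (C.xf F) * Real.exp (-w0) :: At F.p (-α) (C.xf F) * Real.exp (-w0) ::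
        I' :: M' :: z :: w0 :: gz :: iU :: s) d := by
  have h := hF.ok
  have hxc : F.xc ∈ Icc F.x1 F.xc := ⟨(h.x1_neg.trans h.xc_pos).le, le_rfl⟩
  obtain ⟨S', ⟨I', M', h1, h2, rfl⟩, h3⟩ := bwd_box
    (Inv := fun ca ba S => ∃ I' M' : ℝ, I + io ^ 2 * F.I2 α (pos F.x1 ca ba) F.xc ≤ I' ∧
      M' ≤ M + io * F.M2 α (pos F.x1 ca ba) F.xc ∧
      S = At F.p α (pos F.x1 ca ba) * Real.exp (-w0) ::
        At F.p (-α) (pos F.x1 ca ba) * Real.exp (-w0) :: I' :: M' :: z :: w0 :: gz :: iU :: s)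
    (fun ca ba c r S e d hG hT hI H => by
      obtain ⟨I1, M1, k1, k2, rfl⟩ := hI
      have hG' : NearC F (C.xl F) (pos F.x1 ca ba) (pos F.x1 c.cz c.bz) c := hG
      obtain ⟨I2, M2, k3, k4, k5⟩ := nB_ok h hx hG' hT H
      have ha : pos F.x1 ca ba ∈ Icc F.x1 F.xc := ⟨hG'.x1_le, hG'.lt.le.trans hG'.le_xc⟩
      have hb : pos F.x1 c.cz c.bz ∈ Icc F.x1 F.xc := ⟨hG'.x1_le.trans hG'.lt.le, hG'.le_xc⟩
      refine ⟨_, ⟨I2, M2, ?_, ?_, rfl⟩, k5⟩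
      · rw [← h.I2_add α ha hb hxc]; linarith
      · rw [← h.M2_add α ha hb hxc]; linarith)
    hF.near hT ⟨I, M, by rw [hF.near_last, Fam.I2_same]; simp,
      by rw [hF.near_last, Fam.M2_same]; simp, by rw [hF.near_last]⟩ H
  rw [hF.near_first] at h1 h2 h3
  exact ⟨I', M', h1, h2, h3⟩

theorem fB_loop (hF : Fit C F) (hf : C.far = true) (hx : CtxB F α z w0 gz iU io) {KB : ℝ}
    (hKB : F.Kx F.x1 (C.xf F) ≤ KB) (hT : TapeB (atN F (TpF F)) C.fs C.lcz bz0 d d')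
    (H : (bwd (fun _ _ c => fB c.m) C.fs C.lcz bz0 r).holds (At F.p α (C.xf F) * Real.exp (-w0) ::
      At F.p (-α) (C.xf F) * Real.exp (-w0) :: I :: M :: z :: w0 :: gz :: iU :: α :: io :: KB ::
      s) d') :
    ∃ I' M' : ℝ, I + io ^ 2 * (F.I2 α (C.xl F) (C.xf F) -
        2 * (F.Kx (C.xl F) (C.xf F) / val C.b2)) ≤ I' ∧ M' ≤ M + io * F.M2 α (C.xl F) (C.xf F) ∧
      r.holds (At F.p α (C.xf F) * Real.exp (-w0) :: At F.p (-α) (C.xf F) * Real.exp (-w0) ::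
        I' :: M' :: z :: w0 :: gz :: iU :: α :: io :: KB :: s) d := by
  have h := hF.ok
  have hxf := hF.mem.2
  have hxl : pos F.x1 C.lcz bz0 = C.xl F := by unfold Cert.xl; rw [if_pos hf]
  obtain ⟨S', ⟨I', M', h1, h2, rfl⟩, h3⟩ := bwd_box
    (Inv := fun ca ba S => ∃ I' M' : ℝ, I + io ^ 2 * (F.I2 α (pos F.x1 ca ba) (C.xf F) -
        2 * (F.Kx (pos F.x1 ca ba) (C.xf F) / val C.b2)) ≤ I' ∧
      M' ≤ M + io * F.M2 α (pos F.x1 ca ba) (C.xf F) ∧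
      S = At F.p α (C.xf F) * Real.exp (-w0) :: At F.p (-α) (C.xf F) * Real.exp (-w0) ::
        I' :: M' :: z :: w0 :: gz :: iU :: α :: io :: KB :: s)
    (fun ca ba c r S e d hG hT hI H => by
      obtain ⟨I1, M1, k1, k2, rfl⟩ := hI
      have hG' : FarC F (val C.b2) (val C.mm) (C.xf F) (C.xl F) (pos F.x1 ca ba)
        (pos F.x1 c.cz c.bz) c := hG
      obtain ⟨I2, M2, k3, k4, k5⟩ := fB_ok h hx hG' hT hKB H
      have ha : pos F.x1 ca ba ∈ Icc F.x1 F.xc :=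
        ⟨hG'.x1_le, (hG'.lt.le.trans hG'.le_xf).trans hxf.2⟩
      have hb : pos F.x1 c.cz c.bz ∈ Icc F.x1 F.xc :=
        ⟨hG'.x1_le.trans hG'.lt.le, hG'.le_xf.trans hxf.2⟩
      refine ⟨_, ⟨I2, M2, ?_, ?_, rfl⟩, k5⟩
      · rw [← h.I2_add α ha hb hxf, ← F.Kx_add (pos F.x1 ca ba) (pos F.x1 c.cz c.bz) (C.xf F),
          add_div]
        linarith
      · rw [← h.M2_add α ha hb hxf]; linarith)
    (hF.far hf) hT ⟨I, M, by rw [hF.far_last hf, Fam.I2_same, Fam.Kx_same]; simp,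
      by rw [hF.far_last hf, Fam.M2_same]; simp, rfl⟩ H
  rw [hxl] at h1 h2
  exact ⟨I', M', h1, h2, h3⟩

theorem boxB_ok (hF : Fit C F) (hg : Glob C F g) (hT : C.TpB F d) {ke : ℝ}
    (hke : kf F.p (val C.xe) ≤ ke) {z1 : ℕ} {b : BxB}
    (H : (C.boxB z1 b).holds (ke :: qf F.p (val C.xe) :: g.l F) d) (h1 : val z1 ≤ z)
    (h2 : z ≤ val b.z) (hz : 0 ≤ z) : F.CritAt (val C.lf) (z * F.lam) := by
  have h := hF.ok
  obtain ⟨d1, d2, hT1, hT2, hT3, hT4⟩ := hT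
  obtain ⟨w0, gz, iU, io, hx, H1⟩ := begB_ok h (KB := g.KB) (sig := F.p * F.lam / 2)
    (s := [F.p, g.Lam, g.ibi, g.iT, g.i2, F.kc, F.qc, g.Wm, Real.sqrt F.ρ,
      g.srU, g.B1, g.Bp, g.EA, g.EB]) hke H h1 h2 hz
  rw [← hF.xe] at H1
  have H2 := gBs_loop (T := fun a b => TpG F (val a) (val b))
    (S := fun b => At F.p (z * F.lam) (val b) * Real.exp (-w0) ::
      At F.p (-(z * F.lam)) (val b) * Real.exp (-w0) :: 0 :: 0 :: z :: w0 :: gz :: iU ::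
      z * F.lam :: io :: g.l F)
    (fun a b r e d hT H => gB_ok h rfl hT H) hT4 H1
  simp only [← hF.xc] at H2
  obtain ⟨Θ₁, Θ₂, I1, t1, t2, k1, H3⟩ := swB_ok hF hg hx H2
  obtain ⟨I2, M2, k2, k3, H4⟩ := nB_loop hF hx hT3 H3
  have hxc : F.xc ∈ Icc F.x1 F.xc := ⟨(h.x1_neg.trans h.xc_pos).le, le_rfl⟩
  have hx1 : F.x1 ∈ Icc F.x1 F.xc := ⟨le_rfl, (h.x1_neg.trans h.xc_pos).le⟩
  obtain ⟨hxl, hxf⟩ := hF.mem
  cases hf : C.far with
  | false =>
    have e : C.xf F = F.x1 := by unfold Cert.xf; rw [if_neg (by simp [hf])]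
    rw [hf] at H4
    refine endB_ok hF hg hx t1 t2 ?_ ?_ H4
    · rw [e, Fam.Kx_same] at k1
      rw [e] at k2
      rw [Fam.It_add]
      simp only [zero_div, mul_zero, add_zero] at k1
      linarith
    · rw [e] at k3
      linarith
  | true =>
    rw [hf] at H4
    obtain ⟨e, hL, hT5⟩ := hT2 hf
    have hKB : F.Kx F.x1 (C.xf F) ≤ g.KB := hg.KB
    obtain ⟨I3, M3, k4, k5, H5⟩ := fB_loop hF hf hx hKB hT5 H4
    rw [← List.append_nil e] at H5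
    obtain ⟨I4, k6, H6⟩ := lB_ok h hx (hF.log hf) hL hKB H5
    refine endB_ok hF hg hx t1 t2 ?_ ?_ H6
    · rw [Fam.It_add, ← h.I2_add _ hx1 hxf hxc, ← h.I2_add _ hx1 hxl hxf]
      rw [← F.Kx_add F.x1 (C.xl F) (C.xf F), add_div] at k1
      linarith
    · have e0 : F.M2 (z * F.lam) F.x1 (C.xl F) = 0 := by
        unfold Fam.M2
        rw [(hF.log hf).M_eq, (hF.log hf).M_eq, add_zero]
      rw [← h.M2_add _ hx1 hxf hxc, ← h.M2_add _ hx1 hxl hxf, e0]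
      linarith

theorem boxesB_ok (hF : Fit C F) (hg : Glob C F g) (hT : C.TpB F d) {ke : ℝ}
    (hke : kf F.p (val C.xe) ≤ ke) {z1 : ℕ} {bs : List BxB}
    (H : (C.boxesB bs z1).holds (ke :: qf F.p (val C.xe) :: g.l F) d) (h1 : val z1 ≤ z)
    (h2 : z < val (lastG (bs.map BxB.z) z1)) (hz : 0 ≤ z) : F.CritAt (val C.lf) (z * F.lam) := by
  induction bs generalizing z1 with
  | nil => exact absurd h1 (not_le.2 h2)
  | cons b bs ih =>
    obtain ⟨H1, H2⟩ := Ck.holds.both_elim H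
    rcases le_total z (val b.z) with k | k
    · exact boxB_ok hF hg hT hke H1 h1 k hz
    · exact ih H2 k h2

end Pool.Agent.Eps.T
end
end

-- part Pool.Agent.Lib.MP_3bda03_nt.T.Cov
section

/-! From the checks to the lattice. -/

set_option autoImplicit false

noncomputable section

open MeasureTheory Set Pool.Agent.Eps.H

namespace Pool.Agent.Eps.T.Cert

variable {C : Cert}

theorem covB (hwf : C.wf = true) {z1 z2 : ℕ} {bs : List BxB} (h : C.chkB z1 z2 bs = true) :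
    C.Cov z1 z2 := by
  intro n hn z h1 h2 hz _
  have hB := base hwf hn
  simp only [chkB, Bool.and_eq_true, Nat.beq_eq] at h
  obtain ⟨-, hF, g, d, ke, hg, hT, hke, H⟩ := dataB_ok hwf hB (Ck.start_sound h.2 hB.lo hB.hi)
  exact boxesB_ok hF hg hT hke H h1 (h.1.symm ▸ h2) hz

theorem covF (hwf : C.wf = true) {z1 z2 : ℕ} {bs : List BxF} (h : C.chkF z1 z2 bs = true) :
    C.Cov z1 z2 := by
  intro n hn z h1 h2 hz hlt
  have hB := base hwf hn
  simp only [chkF, Bool.and_eq_true, Nat.beq_eq] at h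
  obtain ⟨-, hF, g, d, hg, hT, H⟩ := dataF_ok hwf hB (Ck.start_sound h.2 hB.lo hB.hi)
  exact boxesF_ok hF hg hT H h1 (h.1.symm ▸ h2) hz hlt

theorem Cov.trans {z1 z2 z3 : ℕ} (h1 : C.Cov z1 z2) (h2 : C.Cov z2 z3) : C.Cov z1 z3 := by
  intro n hn z k1 k2 hz hlt
  rcases lt_or_ge z (val z2) with k | k
  · exact h1 n hn z k1 k hz hlt
  · exact h2 n hn z k k2 hz hlt

theorem goal_of_crit (hwf : C.wf = true) {n : ℕ} (hn : C.Adm n) (hE : Err C)
    (hF : Fit C (C.famN n)) (hC : (C.famN n).Crit (val C.lf)) (hS : Sieve n) : Goal n := by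
  have h97 := hn.ge hwf
  have hτ : 0 < tN n := hF.ok.τ_pos
  have hd := dec_le (C := C) hn.1
  have h0 : 0 < dec ((n : ℝ) / 2) := Real.exp_pos _
  have hη : 1 / 50 * dec ((n : ℝ) / 2) ≤ val C.eta := by linarith [hE.eta]
  have h1 : val C.lf * (1 - val C.et0) ≤ val C.lf * (1 - 1 / 250 * dec ((n : ℝ) / 2)) :=
    mul_le_mul_of_nonneg_left (by linarith [hE.et0]) hE.lf_pos.le
  exact hF.ok.goal (C.dim h97 hτ) h97 hC (hS _ (C.rad_pos h97) (C.vol h97)) hη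
    (C.eh_ge h97 hτ (by positivity) (by linarith [hE.eps])) hE.lf_pos (hE.lf.trans_le h1)

theorem cov_crit {F : Fam} (h : F.Ok) {lf : ℝ}
    (H : ∀ z, 0 ≤ z → F.p * (z * F.lam) < 1 → F.CritAt lf (z * F.lam)) : F.Crit lf := by
  intro α h0 h1
  have hl : 0 < F.lam := div_pos h.p_pos h.τ_pos
  have e : α / F.lam * F.lam = α := div_mul_cancel₀ _ hl.ne'
  have := H (α / F.lam) (div_nonneg h0 hl.le) (by rwa [e])
  rwa [e] at this

theorem finS (hwf : C.wf = true) {zz : ℕ} (hc : C.Cov 4722366482869645213696 zz)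
    (h : C.chkS zz = true) {n : ℕ} (hn : C.Adm n) (hS : Sieve n) : Goal n := by
  have hB := base hwf hn
  obtain ⟨hE, hF, g, d, -, -, H⟩ := dataF_ok hwf hB (Ck.start_sound h hB.lo hB.hi)
  refine goal_of_crit hwf hn hE hF (cov_crit hF.ok fun z hz hlt => ?_) hS
  refine hc n hn z (val_bias.trans_le hz) ?_ hz hlt
  have h1 : 1 ≤ 2 * (val zz * ((C.famN n).p * (C.famN n).lam / 2)) := (stopF_spec H).1
  have h2 : 0 < (C.famN n).p * (C.famN n).lam :=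
    mul_pos hF.ok.p_pos (div_pos hF.ok.p_pos hF.ok.τ_pos)
  have h3 : (C.famN n).p * (z * (C.famN n).lam) < 1 := hlt
  exact lt_of_mul_lt_mul_right (by linarith) h2.le

theorem finU (hwf : C.wf = true) {zz d0 : ℕ} {bs : List BxU}
    (hc : C.Cov 4722366482869645213696 zz) (h : C.chkU zz d0 bs = true) {n : ℕ} (hn : C.Adm n)
    (hS : Sieve n) : Goal n := by
  have hB := base hwf hn
  simp only [chkU, Bool.and_eq_true, Nat.ble_eq] at h
  obtain ⟨hE, hF, g, d, hg, hT, H⟩ := dataF_ok hwf hB (Ck.start_sound h.2 hB.lo hB.hi)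
  refine goal_of_crit hwf hn hE hF (cov_crit hF.ok fun z hz hlt => ?_) hS
  rcases lt_or_ge z (val zz) with k | k
  · exact hc n hn z (val_bias.trans_le hz) k hz hlt
  · exact allU_ok hF hg hT h.1.1 (val_one.symm.trans_le (val_le_val.2 h.1.2)) H k hlt

end Pool.Agent.Eps.T.Cert
end
end
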