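import Mathlib
import Pool.Agent.Lib.MP_3bda03_nt.T.Certs

/-! Kernel checks of the certificates. -/

set_option autoImplicit false
set_option maxRecDepth 100000

namespace Pool.Agent.Eps.T

theorem c0_wf : c0.wf = true := by
  decide +kernel

theorem c0_b0 : c0.chkB 4722366482869645213696 4722744785238344335360
  [⟨4722449799462751567872, 4722366482869645213696, 4722366482869645213696⟩,
    ⟨4722526642131393576960, 4722510598057721069568, 4722366482869645213696⟩,
    ⟨4722603484800035586048, 4722510598057721069568, 4722366482869645213696⟩,
    ⟨4722674135019189960704, 4722510598057721069568, 4722654713245796925440⟩,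
    ⟨4722744785238344335360, 4722654713245796925440, 4722654713245796925440⟩] = true := by
  decide +kernel

theorem c0_b1 : c0.chkB 4722744785238344335360 4723053844762772635648
  [⟨4722809805957964496896, 4722654713245796925440, 4722654713245796925440⟩,
    ⟨4722874826677584658432, 4722798828433872781312, 4722654713245796925440⟩,
    ⟨4722934499372647317504, 4722798828433872781312, 4722654713245796925440⟩,
    ⟨4722994172067709976576, 4722798828433872781312, 4722654713245796925440⟩,
    ⟨4723053844762772635648, 4722942943621948637184, 4722654713245796925440⟩] = true := by
  decide +kernel

theorem c0_b2 : c0.chkB 4723053844762772635648 4723352208238085931008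
  [⟨4723113517457835294720, 4722942943621948637184, 4722654713245796925440⟩,
    ⟨4723173190152897953792, 4722942943621948637184, 4722942943621948637184⟩,
    ⟨4723232862847960612864, 4723087058810024493056, 4722942943621948637184⟩,
    ⟨4723292535543023271936, 4723087058810024493056, 4722942943621948637184⟩,
    ⟨4723352208238085931008, 4723087058810024493056, 4722942943621948637184⟩] = true := by
  decide +kernel

theorem c0_b3 : c0.chkB 4723352208238085931008 4723650571713399226368
  [⟨4723411880933148590080, 4723231173998100348928, 4722942943621948637184⟩,
    ⟨4723471553628211249152, 4723231173998100348928, 4722942943621948637184⟩,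
    ⟨4723531226323273908224, 4723231173998100348928, 4722942943621948637184⟩,
    ⟨4723590899018336567296, 4723231173998100348928, 4722942943621948637184⟩,
    ⟨4723650571713399226368, 4723375289186176204800, 4722942943621948637184⟩] = true := by
  decide +kernel

end Pool.Agent.Eps.T
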