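import Mathlib
import Pool.Agent.Lib.MP_3bda03_nt.T.Certs

/-! Kernel checks of the certificates. -/

set_option autoImplicit false
set_option maxRecDepth 100000

namespace Pool.Agent.Eps.T

theorem c0_b4 : c0.chkB 4723650571713399226368 4723948935188712521728
  [⟨4723710244408461885440, 4723375289186176204800, 4722942943621948637184⟩,
    ⟨4723769917103524544512, 4723375289186176204800, 4723231173998100348928⟩,
    ⟨4723829589798587203584, 4723519404374252060672, 4722942943621948637184⟩,
    ⟨4723889262493649862656, 4723519404374252060672, 4723231173998100348928⟩,
    ⟨4723948935188712521728, 4723519404374252060672, 4723231173998100348928⟩] = true := by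
  decide +kernel

theorem c0_b5 : c0.chkB 4723948935188712521728 4724232943440213573632
  [⟨4724008607883775180800, 4723663519562327916544, 4723231173998100348928⟩,
    ⟨4724068280578837839872, 4723663519562327916544, 4723231173998100348928⟩,
    ⟨4724123168199296417792, 4723663519562327916544, 4723231173998100348928⟩,
    ⟨4724178055819754995712, 4723807634750403772416, 4723231173998100348928⟩,
    ⟨4724232943440213573632, 4723807634750403772416, 4723231173998100348928⟩] = true := by
  decide +kernel

theorem c0_b6 : c0.chkB 4724232943440213573632 4724439827548095905792
  [⟨4724287831060672151552, 4723807634750403772416, 4723231173998100348928⟩,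
    ⟨4724338496556480069632, 4723951749938479628288, 4723231173998100348928⟩,
    ⟨4724389162052287987712, 4723951749938479628288, 4723231173998100348928⟩,
    ⟨4724439827548095905792, 4723951749938479628288, 4723519404374252060672⟩] = true := by
  decide +kernel

end Pool.Agent.Eps.T
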