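import Mathlib
import Pool.Agent.Lib.MP_3bda03_nt.T.Certs

/-! Kernel checks of the certificates. -/

set_option autoImplicit false
set_option maxRecDepth 100000

namespace Pool.Agent.Eps.T

theorem c7_b0 : c7.chkB 4722366482869645213696 4723511241599927451648
  [⟨4722614743799104012288, 4722366482869645213696, 4722366482869645213696⟩,
    ⟨4722863004728562810880, 4722510598057721069568, 4722654713245796925440⟩,
    ⟨4723091280934675152896, 4722654713245796925440, 4722654713245796925440⟩,
    ⟨4723301261267301302272, 4722798828433872781312, 4722942943621948637184⟩,
    ⟨4723511241599927451648, 4722798828433872781312, 4722942943621948637184⟩] = true := by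
  decide +kernel

theorem c7_b1 : c7.chkB 4723511241599927451648 4724414213325215236096
  [⟨4723721221932553601024, 4722942943621948637184, 4722942943621948637184⟩,
    ⟨4723931202265179750400, 4723087058810024493056, 4723231173998100348928⟩,
    ⟨4724172707795197493248, 4723087058810024493056, 4723231173998100348928⟩,
    ⟨4724414213325215236096, 4723231173998100348928, 4723231173998100348928⟩] = true := by
  decide +kernel

theorem c7_b2 : c7.chkB 4724414213325215236096 4725525476533268905984
  [⟨4724692029127228653568, 4723375289186176204800, 4723231173998100348928⟩,
    ⟨4724969844929242071040, 4723519404374252060672, 4723231173998100348928⟩,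
    ⟨4725247660731255488512, 4723519404374252060672, 4723519404374252060672⟩,
    ⟨4725525476533268905984, 4723663519562327916544, 4723519404374252060672⟩] = true := by
  decide +kernel

theorem c7_b3 : c7.chkB 4725525476533268905984 4726581852120863997952
  [⟨4725803292335282323456, 4723807634750403772416, 4723519404374252060672⟩,
    ⟨4726081108137295740928, 4723951749938479628288, 4723519404374252060672⟩,
    ⟨4726336687416149016576, 4724095865126555484160, 4723519404374252060672⟩,
    ⟨4726581852120863997952, 4724239980314631340032, 4723519404374252060672⟩] = true := by
  decide +kernel

theorem c7_f0 : c7.chkF 4726581852120863997952 4743056713643738587136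
  [⟨4726899637369570328576, 4724095865126555484160, 4725248786631162331136, true⟩,
    ⟨4727538867041680228352, 4724384095502707195904, 4725248786631162331136, true⟩,
    ⟨4728511081611238834176, 4724672325878858907648, 4725248786631162331136, true⟩,
    ⟨4729989951138876620800, 4724960556255010619392, 4725248786631162331136, true⟩,
    ⟨4732238936202794762240, 4725537017007314042880, 4725248786631162331136, true⟩,
    ⟨4734825409763788980224, 4725825247383465754624, 4725248786631162331136, true⟩,
    ⟨4735144883862355574784, 4725825247383465754624, 4725248786631162331136, false⟩,
    ⟨4737743742322325061632, 4725825247383465754624, 4725248786631162331136, false⟩,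
    ⟨4743056713643738587136, 4725825247383465754624, 4725248786631162331136, false⟩] = true := by
  decide +kernel

theorem c7_e : c7.chkS 4743056713643738587136 = true := by
  decide +kernel

theorem c8_wf : c8.wf = true := by
  decide +kernel

theorem c8_b0 : c8.chkB 4722366482869645213696 4723709681458508464128
  [⟨4722653587345890082816, 4722366482869645213696, 4722366482869645213696⟩,
    ⟨4722917610874044678144, 4722510598057721069568, 4722654713245796925440⟩,
    ⟨4723181634402199273472, 4722654713245796925440, 4722654713245796925440⟩,
    ⟨4723445657930353868800, 4722798828433872781312, 4722942943621948637184⟩,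
    ⟨4723709681458508464128, 4722798828433872781312, 4722942943621948637184⟩] = true := by
  decide +kernel

end Pool.Agent.Eps.T
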