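import Mathlib
import Pool.Agent.Lib.MP_3bda03_nt.T.Certs

/-! Kernel checks of the certificates. -/

set_option autoImplicit false
set_option maxRecDepth 100000

namespace Pool.Agent.Eps.T

theorem c8_b1 : c8.chkB 4723709681458508464128 4725188550986146250752
  [⟨4723973704986663059456, 4722942943621948637184, 4723231173998100348928⟩,
    ⟨4724277416486533857280, 4723087058810024493056, 4723231173998100348928⟩,
    ⟨4724581127986404655104, 4723231173998100348928, 4723231173998100348928⟩,
    ⟨4724884839486275452928, 4723231173998100348928, 4723231173998100348928⟩,
    ⟨4725188550986146250752, 4723375289186176204800, 4723519404374252060672⟩] = true := by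
  decide +kernel

theorem c8_b2 : c8.chkB 4725188550986146250752 4726852068098506227712
  [⟨4725537861432244174848, 4723519404374252060672, 4723519404374252060672⟩,
    ⟨4725887171878342098944, 4723663519562327916544, 4723519404374252060672⟩,
    ⟨4726236482324440023040, 4723807634750403772416, 4723519404374252060672⟩,
    ⟨4726557926747843592192, 4723951749938479628288, 4723519404374252060672⟩,
    ⟨4726852068098506227712, 4724095865126555484160, 4723519404374252060672⟩] = true := by
  decide +kernel

theorem c8_f0 : c8.chkF 4726852068098506227712 4748546889653033013248
  [⟨4727306931660870647808, 4724095865126555484160, 4725248786631162331136, true⟩,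
    ⟨4728102661420031672320, 4724384095502707195904, 4725248786631162331136, true⟩,
    ⟨4729313003819887493120, 4724672325878858907648, 4725248786631162331136, true⟩,
    ⟨4730913470537464283136, 4724960556255010619392, 4725248786631162331136, true⟩,
    ⟨4733030162362328416256, 4725537017007314042880, 4725248786631162331136, true⟩,
    ⟨4736249391670968188928, 4725825247383465754624, 4725248786631162331136, true⟩,
    ⟨4738309788500490190848, 4725825247383465754624, 4725248786631162331136, true⟩,
    ⟨4739958105964107792384, 4725825247383465754624, 4725248786631162331136, false⟩,
    ⟨4748546889653033013248, 4725825247383465754624, 4725248786631162331136, false⟩] = true := by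
  decide +kernel

theorem c8_e : c8.chkS 4748546889653033013248 = true := by
  decide +kernel

theorem c9_wf : c9.wf = true := by
  decide +kernel

theorem c9_b0 : c9.chkB 4722366482869645213696 4723423702882170437632
  [⟨4722647676371379159040, 4722366482869645213696, 4722366482869645213696⟩,
    ⟨4722906351874976251904, 4722510598057721069568, 4722654713245796925440⟩,
    ⟨4723165027378573344768, 4722654713245796925440, 4722654713245796925440⟩,
    ⟨4723423702882170437632, 4722654713245796925440, 4722942943621948637184⟩] = true := by
  decide +kernel

theorem c9_b1 : c9.chkB 4723423702882170437632 4724850499539116752896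
  [⟨4723721221932553601024, 4722798828433872781312, 4722942943621948637184⟩,
    ⟨4724063495504233758720, 4722942943621948637184, 4722942943621948637184⟩,
    ⟨4724456997521675255808, 4723087058810024493056, 4723231173998100348928⟩,
    ⟨4724850499539116752896, 4723087058810024493056, 4723231173998100348928⟩] = true := by
  decide +kernel

theorem c9_b2 : c9.chkB 4724850499539116752896 4726761996105958817792
  [⟨4725303111301667487744, 4723375289186176204800, 4723231173998100348928⟩,
    ⟨4725823558533605490688, 4723519404374252060672, 4723519404374252060672⟩,
    ⟨4726344005765543493632, 4723663519562327916544, 4723519404374252060672⟩,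
    ⟨4726761996105958817792, 4723807634750403772416, 4723519404374252060672⟩] = true := by
  decide +kernel

end Pool.Agent.Eps.T
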