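import Mathlib
import Pool.Agent.Lib.MP_3bda03_nt.T.Certs

/-! Kernel checks of the certificates. -/

set_option autoImplicit false
set_option maxRecDepth 100000

namespace Pool.Agent.Eps.T

theorem c9_f0 : c9.chkF 4726761996105958817792 4754163479009802178560
  [⟨4727129883900519645184, 4723807634750403772416, 4725248786631162331136, true⟩,
    ⟨4727980501280139247616, 4724095865126555484160, 4725248786631162331136, true⟩,
    ⟨4729274160273101422592, 4724384095502707195904, 4725248786631162331136, true⟩,
    ⟨4730985246656525500416, 4724672325878858907648, 4725248786631162331136, true⟩,
    ⟨4733248023994302464000, 4725248786631162331136, 4725248786631162331136, true⟩,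
    ⟨4736240665946690158592, 4725825247383465754624, 4725248786631162331136, true⟩,
    ⟨4740792116320101466112, 4725825247383465754624, 4725248786631162331136, true⟩,
    ⟨4742507143353199493120, 4725825247383465754624, 4725248786631162331136, true⟩,
    ⟨4751683509068943589376, 4725825247383465754624, 4725248786631162331136, false⟩,
    ⟨4754163479009802178560, 4725825247383465754624, 4725248786631162331136, false⟩] = true := by
  decide +kernel

theorem c9_e : c9.chkS 4754163479009802178560 = true := by
  decide +kernel

theorem c10_wf : c10.wf = true := by
  decide +kernel

theorem c10_b0 : c10.chkB 4722366482869645213696 4723472398053141381120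
  [⟨4722581248276875444224, 4722366482869645213696, 4722366482869645213696⟩,
    ⟨4722796013684105674752, 4722510598057721069568, 4722654713245796925440⟩,
    ⟨4723010779091335905280, 4722510598057721069568, 4722654713245796925440⟩,
    ⟨4723225544498566135808, 4722654713245796925440, 4722942943621948637184⟩,
    ⟨4723472398053141381120, 4722654713245796925440, 4722942943621948637184⟩] = true := by
  decide +kernel

theorem c10_b1 : c10.chkB 4723472398053141381120 4725031769424118415360
  [⟨4723719251607716626432, 4722798828433872781312, 4722942943621948637184⟩,
    ⟨4724003259859217678336, 4722798828433872781312, 4723231173998100348928⟩,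
    ⟨4724329770832202039296, 4722942943621948637184, 4723231173998100348928⟩,
    ⟨4724656281805186400256, 4723087058810024493056, 4723231173998100348928⟩,
    ⟨4725031769424118415360, 4723087058810024493056, 4723231173998100348928⟩] = true := by
  decide +kernel

theorem c10_b2 : c10.chkB 4725031769424118415360 4726924125692544155648
  [⟨4725463552038392561664, 4723231173998100348928, 4723231173998100348928⟩,
    ⟨4725895334652666707968, 4723375289186176204800, 4723519404374252060672⟩,
    ⟨4726391856511584305152, 4723519404374252060672, 4723519404374252060672⟩,
    ⟨4726924125692544155648, 4723663519562327916544, 4723519404374252060672⟩] = true := by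
  decide +kernel

theorem c10_f0 : c10.chkF 4726924125692544155648 4735248185178808385536
  [⟨4726989709362117738496, 4723807634750403772416, 4725825247383465754624, true⟩,
    ⟨4727190401020512436224, 4723807634750403772416, 4725825247383465754624, true⟩,
    ⟨4727654553257108307968, 4723807634750403772416, 4725825247383465754624, true⟩,
    ⟨4728466327089941839872, 4724095865126555484160, 4725248786631162331136, true⟩,
    ⟨4729540154126092992512, 4724384095502707195904, 4725248786631162331136, true⟩,
    ⟨4730774984848922640384, 4724672325878858907648, 4725248786631162331136, true⟩,
    ⟨4732195026106427899904, 4724960556255010619392, 4725248786631162331136, true⟩,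
    ⟨4733615067363933159424, 4725248786631162331136, 4725248786631162331136, true⟩,
    ⟨4735248185178808385536, 4725537017007314042880, 4725248786631162331136, true⟩] = true := by
  decide +kernel

end Pool.Agent.Eps.T
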