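import Mathlib
import Pool.Agent.Lib.MP_3bda03_nt.T.Certs

/-! Kernel checks of the certificates. -/

set_option autoImplicit false
set_option maxRecDepth 100000

namespace Pool.Agent.Eps.T

theorem c12_b1 : c12.chkB 4723677311836186738688 4725419360467048988672
  [⟨4724040696031120195584, 4722654713245796925440, 4722942943621948637184⟩,
    ⟨4724458404896558809088, 4722798828433872781312, 4723231173998100348928⟩,
    ⟨4724938882681803898880, 4722942943621948637184, 4723231173998100348928⟩,
    ⟨4725419360467048988672, 4723087058810024493056, 4723231173998100348928⟩] = true := by
  decide +kernel

theorem c12_b2 : c12.chkB 4725419360467048988672 4727302428061243277312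
  [⟨4725971895846332006400, 4723087058810024493056, 4723519404374252060672⟩,
    ⟨4726607184868767956992, 4723231173998100348928, 4723519404374252060672⟩,
    ⟨4727302428061243277312, 4723519404374252060672, 4723519404374252060672⟩] = true := by
  decide +kernel

theorem c12_f0 : c12.chkF 4727302428061243277312 4742132500159197609984
  [⟨4727914636135588954112, 4723519404374252060672, 4725825247383465754624, true⟩,
    ⟨4728985366946996289536, 4723807634750403772416, 4725825247383465754624, true⟩,
    ⟨4730613981162244145152, 4724095865126555484160, 4725825247383465754624, true⟩,
    ⟨4732486915657276850176, 4724384095502707195904, 4725825247383465754624, true⟩,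
    ⟨4734359850152309555200, 4724672325878858907648, 4725825247383465754624, true⟩,
    ⟨4736232784647342260224, 4725248786631162331136, 4725825247383465754624, true⟩,
    ⟨4738105719142374965248, 4725537017007314042880, 4725248786631162331136, true⟩,
    ⟨4739978653637407670272, 4725825247383465754624, 4725248786631162331136, true⟩,
    ⟨4742132500159197609984, 4725825247383465754624, 4725248786631162331136, true⟩] = true := by
  decide +kernel

theorem c12_f1 : c12.chkF 4742132500159197609984 4789280821923996581888
  [⟨4744609479954251382784, 4725825247383465754624, 4725248786631162331136, true⟩,
    ⟨4747458006718563221504, 4725825247383465754624, 4725248786631162331136, true⟩,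
    ⟨4751790188085116928000, 4725825247383465754624, 4725248786631162331136, true⟩,
    ⟨4758378672864983252992, 4725825247383465754624, 4725248786631162331136, true⟩,
    ⟨4762595449491085590528, 4725825247383465754624, 4725248786631162331136, true⟩,
    ⟨4763161495669250719744, 4725825247383465754624, 4725248786631162331136, false⟩,
    ⟨4767166040162913222656, 4725825247383465754624, 4725248786631162331136, false⟩,
    ⟨4789280821923996581888, 4725825247383465754624, 4725248786631162331136, false⟩] = true := by
  decide +kernel

theorem c12_e : c12.chkS 4789280821923996581888 = true := by
  decide +kernel

theorem c13_wf : c13.wf = true := by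
  decide +kernel

theorem c13_b0 : c13.chkB 4722366482869645213696 4723715592433019387904
  [⟨4722691586467746021376, 4722366482869645213696, 4722366482869645213696⟩,
    ⟨4723016690065846829056, 4722510598057721069568, 4722654713245796925440⟩,
    ⟨4723341793663947636736, 4722510598057721069568, 4722942943621948637184⟩,
    ⟨4723715592433019387904, 4722654713245796925440, 4722942943621948637184⟩] = true := by
  decide +kernel

theorem c13_b1 : c13.chkB 4723715592433019387904 4725444130264999526400
  [⟨4724089391202091139072, 4722654713245796925440, 4722942943621948637184⟩,
    ⟨4724519484966505021440, 4722798828433872781312, 4723231173998100348928⟩,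
    ⟨4724949578730918903808, 4722798828433872781312, 4723231173998100348928⟩,
    ⟨4725444130264999526400, 4722942943621948637184, 4723231173998100348928⟩] = true := by
  decide +kernel

end Pool.Agent.Eps.T
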