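import Mathlib
import Pool.Agent.Lib.MP_3bda03_nt.T.Certs

/-! Kernel checks of the certificates. -/

set_option autoImplicit false
set_option maxRecDepth 100000

namespace Pool.Agent.Eps.T

theorem c13_b2 : c13.chkB 4725444130264999526400 4727446543249319133184
  [⟨4726012709717955051520, 4723087058810024493056, 4723231173998100348928⟩,
    ⟨4726666576088853905408, 4723231173998100348928, 4723519404374252060672⟩,
    ⟨4727446543249319133184, 4723375289186176204800, 4723519404374252060672⟩] = true := by
  decide +kernel

theorem c13_f0 : c13.chkF 4727446543249319133184 4744774705765580537856
  [⟨4728238332358806208512, 4723519404374252060672, 4725825247383465754624, true⟩,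
    ⟨4729623189244222636032, 4723519404374252060672, 4725825247383465754624, true⟩,
    ⟨4731454746917678874624, 4723807634750403772416, 4725825247383465754624, true⟩,
    ⟨4733561024168404713472, 4724384095502707195904, 4725825247383465754624, true⟩,
    ⟨4735667301419130552320, 4724672325878858907648, 4725825247383465754624, true⟩,
    ⟨4737773578669856391168, 4725248786631162331136, 4725825247383465754624, true⟩,
    ⟨4739711533884509257728, 4725537017007314042880, 4725825247383465754624, true⟩,
    ⟨4741494396386994552832, 4725825247383465754624, 4725825247383465754624, true⟩,
    ⟨4743134551076287545344, 4725825247383465754624, 4725825247383465754624, true⟩,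
    ⟨4744774705765580537856, 4725825247383465754624, 4725825247383465754624, true⟩] = true := by
  decide +kernel

theorem c13_f1 : c13.chkF 4744774705765580537856 4807607569522567659520
  [⟨4746414860454873530368, 4725825247383465754624, 4725825247383465754624, true⟩,
    ⟨4748301024273811636224, 4725825247383465754624, 4725825247383465754624, true⟩,
    ⟨4750470070444343951360, 4725825247383465754624, 4725825247383465754624, true⟩,
    ⟨4753338863406978957312, 4725825247383465754624, 4725825247383465754624, true⟩,
    ⟨4757132864618061889536, 4725825247383465754624, 4725825247383465754624, true⟩,
    ⟨4762902820165653626880, 4725825247383465754624, 4725825247383465754624, true⟩,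
    ⟨4772994542505660776448, 4725825247383465754624, 4725825247383465754624, true⟩,
    ⟨4774078221165996802048, 4725825247383465754624, 4725825247383465754624, true⟩,
    ⟨4777890236775589216256, 4725825247383465754624, 4725825247383465754624, false⟩,
    ⟨4807607569522567659520, 4725825247383465754624, 4725825247383465754624, false⟩] = true := by
  decide +kernel

theorem c13_e : c13.chkS 4807607569522567659520 = true := by
  decide +kernel

theorem c14_wf : c14.wf = true := by
  decide +kernel

theorem c14_b0 : c14.chkB 4722366482869645213696 4724071658278558367744
  [⟨4722730711489508802560, 4722366482869645213696, 4722654713245796925440⟩,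
    ⟨4723065948186771193856, 4722510598057721069568, 4722654713245796925440⟩,
    ⟨4723401184884033585152, 4722510598057721069568, 4722942943621948637184⟩,
    ⟨4723736421581295976448, 4722654713245796925440, 4722942943621948637184⟩,
    ⟨4724071658278558367744, 4722654713245796925440, 4722942943621948637184⟩] = true := by
  decide +kernel

theorem c14_b1 : c14.chkB 4724071658278558367744 4725517032283967586304
  [⟨4724380154853033246720, 4722654713245796925440, 4723231173998100348928⟩,
    ⟨4724688651427508125696, 4722798828433872781312, 4723231173998100348928⟩,
    ⟨4724972378204032466944, 4722798828433872781312, 4723231173998100348928⟩,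
    ⟨4725256104980556808192, 4722942943621948637184, 4723231173998100348928⟩,
    ⟨4725517032283967586304, 4722942943621948637184, 4723231173998100348928⟩] = true := by
  decide +kernel

end Pool.Agent.Eps.T
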