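import Mathlib
import Pool.Agent.Lib.MP_3bda03_nt.T.Certs

/-! Kernel checks of the certificates. -/

set_option autoImplicit false
set_option maxRecDepth 100000

namespace Pool.Agent.Eps.T

theorem c0_b7 : c0.chkB 4724439827548095905792 4724700191901553262592
  [⟨4724498092868275011584, 4723951749938479628288, 4723519404374252060672⟩,
    ⟨4724556358188454117376, 4724095865126555484160, 4723519404374252060672⟩,
    ⟨4724623349232911253504, 4724095865126555484160, 4723519404374252060672⟩,
    ⟨4724700191901553262592, 4724095865126555484160, 4723519404374252060672⟩] = true := by
  decide +kernel

theorem c0_b8 : c0.chkB 4724700191901553262592 4725084123769786597376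
  [⟨4724777034570195271680, 4724239980314631340032, 4723519404374252060672⟩,
    ⟨4724865417712882417664, 4724239980314631340032, 4723519404374252060672⟩,
    ⟨4724967030179474964480, 4724384095502707195904, 4723519404374252060672⟩,
    ⟨4725084123769786597376, 4724384095502707195904, 4723519404374252060672⟩] = true := by
  decide +kernel

theorem c0_b9 : c0.chkB 4725084123769786597376 4725825247383465754624
  [⟨4725218668808654290944, 4724528210690783051776, 4723519404374252060672⟩,
    ⟨4725396560993935425536, 4724672325878858907648, 4723519404374252060672⟩,
    ⟨4725631874074465533952, 4724816441066934763520, 4723519404374252060672⟩,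
    ⟨4725825247383465754624, 4724960556255010619392, 4723519404374252060672⟩] = true := by
  decide +kernel

theorem c0_f0 : c0.chkF 4725825247383465754624 4729125864908172261376
  [⟨4726068160288367050752, 4724672325878858907648, 4724672325878858907648, true⟩,
    ⟨4726629984341881520128, 4724960556255010619392, 4724672325878858907648, true⟩,
    ⟨4727929835784331329536, 4725248786631162331136, 4724672325878858907648, false⟩,
    ⟨4729125864908172261376, 4725825247383465754624, 4724672325878858907648, false⟩] = true := by
  decide +kernel

theorem c0_e : c0.chkS 4729125864908172261376 = true := by
  decide +kernel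

theorem c1_wf : c1.wf = true := by
  decide +kernel

theorem c1_b0 : c1.chkB 4722366482869645213696 4722926336598322708480
  [⟨4722482169085073293312, 4722366482869645213696, 4722366482869645213696⟩,
    ⟨4722597855300501372928, 4722510598057721069568, 4722366482869645213696⟩,
    ⟨4722713541515929452544, 4722654713245796925440, 4722366482869645213696⟩,
    ⟨4722819939057126080512, 4722654713245796925440, 4722654713245796925440⟩,
    ⟨4722926336598322708480, 4722798828433872781312, 4722654713245796925440⟩] = true := by
  decide +kernel

end Pool.Agent.Eps.T
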