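import Mathlib
import Pool.Agent.Lib.MP_3bda03_nt.T.Certs

/-! Kernel checks of the certificates. -/

set_option autoImplicit false
set_option maxRecDepth 100000

namespace Pool.Agent.Eps.T

theorem c18_b2 : c18.chkB 4725317185050503020544 4726797180478047649792
  [⟨4725604571001724600320, 4722654713245796925440, 4722942943621948637184⟩,
    ⟨4725891956952946180096, 4722654713245796925440, 4722942943621948637184⟩,
    ⟨4726179342904167759872, 4722798828433872781312, 4723231173998100348928⟩,
    ⟨4726466728855389339648, 4722798828433872781312, 4723231173998100348928⟩,
    ⟨4726797180478047649792, 4722798828433872781312, 4723231173998100348928⟩] = true := by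
  decide +kernel

theorem c18_b3 : c18.chkB 4726797180478047649792 4728995781521134583808
  [⟨4727127632100705959936, 4722798828433872781312, 4723231173998100348928⟩,
    ⟨4727507623319265345536, 4722798828433872781312, 4723231173998100348928⟩,
    ⟨4727944472483120283648, 4722942943621948637184, 4723231173998100348928⟩,
    ⟨4728446905316548804608, 4722942943621948637184, 4723519404374252060672⟩,
    ⟨4728995781521134583808, 4722942943621948637184, 4723519404374252060672⟩] = true := by
  decide +kernel

theorem c18_f0 : c18.chkF 4728995781521134583808 4780012558099987562496
  [⟨4729980099514691747840, 4722942943621948637184, 4725825247383465754624, true⟩,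
    ⟨4731476983440839016448, 4723231173998100348928, 4725825247383465754624, true⟩,
    ⟨4733456878427021770752, 4723231173998100348928, 4725825247383465754624, true⟩,
    ⟨4736075158660384292864, 4723519404374252060672, 4725825247383465754624, true⟩,
    ⟨4739086096486258180096, 4723807634750403772416, 4725825247383465754624, true⟩,
    ⟨4742548801649752670208, 4724095865126555484160, 4725825247383465754624, true⟩,
    ⟨4746530828145278320640, 4724384095502707195904, 4725825247383465754624, true⟩,
    ⟨4751797224959534694400, 4724960556255010619392, 4725825247383465754624, true⟩,
    ⟨4758761760308286455808, 4725537017007314042880, 4725825247383465754624, true⟩,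
    ⟨4767972465971189252096, 4725825247383465754624, 4725825247383465754624, true⟩,
    ⟨4780012558099987562496, 4725825247383465754624, 4725825247383465754624, true⟩] = true := by
  decide +kernel

theorem c18_e : c18.chkU 4780012558099987562496 4722519605256975810560
  [⟨4722619810348684804096, true⟩, ⟨4722971654069573124096, true⟩, ⟨4723253129046283780096, true⟩,
    ⟨4723519404374252060672, false⟩] = true := by
  decide +kernel

theorem c19_wf : c19.wf = true := by
  decide +kernel

theorem c19_b0 : c19.chkB 4722366482869645213696 4723699266884370169856
  [⟨4722683705168398123008, 4722366482869645213696, 4722366482869645213696⟩,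
    ⟨4722937595597391134720, 4722366482869645213696, 4722654713245796925440⟩,
    ⟨4723191486026384146432, 4722366482869645213696, 4722654713245796925440⟩,
    ⟨4723445376455377158144, 4722366482869645213696, 4722654713245796925440⟩,
    ⟨4723699266884370169856, 4722510598057721069568, 4722942943621948637184⟩] = true := by
  decide +kernel

theorem c19_b1 : c19.chkB 4723699266884370169856 4725135352215547936768
  [⟨4723991156435219120128, 4722510598057721069568, 4722942943621948637184⟩,
    ⟨4724283045986068070400, 4722510598057721069568, 4722942943621948637184⟩,
    ⟨4724574935536917020672, 4722510598057721069568, 4722942943621948637184⟩,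
    ⟨4724866825087765970944, 4722510598057721069568, 4722942943621948637184⟩,
    ⟨4725135352215547936768, 4722510598057721069568, 4722942943621948637184⟩] = true := by
  decide +kernel

end Pool.Agent.Eps.T
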