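import Mathlib
import Pool.Agent.Lib.MP_3bda03_nt.T.Certs

/-! Kernel checks of the certificates. -/

set_option autoImplicit false
set_option maxRecDepth 100000

namespace Pool.Agent.Eps.T

theorem c19_b2 : c19.chkB 4725135352215547936768 4726145284431985770496
  [⟨4725403879343329902592, 4722510598057721069568, 4722942943621948637184⟩,
    ⟨4725651014372881858560, 4722654713245796925440, 4722942943621948637184⟩,
    ⟨4725898149402433814528, 4722654713245796925440, 4722942943621948637184⟩,
    ⟨4726145284431985770496, 4722654713245796925440, 4723231173998100348928⟩] = true := by
  decide +kernel

theorem c19_b3 : c19.chkB 4726145284431985770496 4727250636665528516608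
  [⟨4726392419461537726464, 4722654713245796925440, 4723231173998100348928⟩,
    ⟨4726639554491089682432, 4722654713245796925440, 4723231173998100348928⟩,
    ⟨4726923844217567444992, 4722654713245796925440, 4723231173998100348928⟩,
    ⟨4727250636665528516608, 4722654713245796925440, 4723231173998100348928⟩] = true := by
  decide +kernel

theorem c19_b4 : c19.chkB 4727250636665528516608 4729103867912191475712
  [⟨4727626405759437242368, 4722798828433872781312, 4723231173998100348928⟩,
    ⟨4728058751323664809984, 4722798828433872781312, 4723519404374252060672⟩,
    ⟨4728555836132535828480, 4722798828433872781312, 4723519404374252060672⟩,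
    ⟨4729103867912191475712, 4722798828433872781312, 4723519404374252060672⟩] = true := by
  decide +kernel

theorem c19_f0 : c19.chkF 4729103867912191475712 4780012558099987562496
  [⟨4730171502498854993920, 4722942943621948637184, 4726401708135769178112, true⟩,
    ⟨4732038807494353485824, 4722942943621948637184, 4726401708135769178112, true⟩,
    ⟨4734508187465036070912, 4723231173998100348928, 4725825247383465754624, true⟩,
    ⟨4737774141619809812480, 4723231173998100348928, 4725825247383465754624, true⟩,
    ⟨4742093375137434828800, 4723519404374252060672, 4725825247383465754624, true⟩,
    ⟨4747805346839824171008, 4723807634750403772416, 4725825247383465754624, true⟩,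
    ⟨4756492790521021857792, 4724384095502707195904, 4725825247383465754624, true⟩,
    ⟨4769705225927820050432, 4724960556255010619392, 4725825247383465754624, true⟩,
    ⟨4780012558099987562496, 4725825247383465754624, 4725825247383465754624, true⟩] = true := by
  decide +kernel

theorem c19_e : c19.chkU 4780012558099987562496 4722434036864055771136
  [⟨4722520731156882653184, true⟩, ⟨4722786443534897512448, true⟩, ⟨4723250877246470094848, true⟩,
    ⟨4723519404374252060672, false⟩] = true := by
  decide +kernel

theorem c20_wf : c20.wf = true := by
  decide +kernel

theorem c20_b0 : c20.chkB 4722366482869645213696 4723567818070246293504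
  [⟨4722623188048405331968, 4722366482869645213696, 4722366482869645213696⟩,
    ⟨4722859345553865572352, 4722366482869645213696, 4722654713245796925440⟩,
    ⟨4723095503059325812736, 4722366482869645213696, 4722654713245796925440⟩,
    ⟨4723331660564786053120, 4722366482869645213696, 4722654713245796925440⟩,
    ⟨4723567818070246293504, 4722366482869645213696, 4722654713245796925440⟩] = true := by
  decide +kernel

theorem c20_b1 : c20.chkB 4723567818070246293504 4724729746774107881472
  [⟨4723803975575706533888, 4722366482869645213696, 4722654713245796925440⟩,
    ⟨4724040133081166774272, 4722366482869645213696, 4722942943621948637184⟩,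
    ⟨4724276290586627014656, 4722510598057721069568, 4722942943621948637184⟩,
    ⟨4724512448092087255040, 4722510598057721069568, 4722942943621948637184⟩,
    ⟨4724729746774107881472, 4722510598057721069568, 4722942943621948637184⟩] = true := by
  decide +kernel

end Pool.Agent.Eps.T
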