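import Mathlib
import Pool.Agent.Lib.MP_3bda03_nt.T.Certs

/-! Kernel checks of the certificates. -/

set_option autoImplicit false
set_option maxRecDepth 100000

namespace Pool.Agent.Eps.T

theorem c20_b2 : c20.chkB 4724729746774107881472 4725746434389986770944
  [⟨4724947045456128507904, 4722510598057721069568, 4722942943621948637184⟩,
    ⟨4725146892689593073664, 4722510598057721069568, 4722942943621948637184⟩,
    ⟨4725346739923057639424, 4722510598057721069568, 4722942943621948637184⟩,
    ⟨4725546587156522205184, 4722510598057721069568, 4722942943621948637184⟩,
    ⟨4725746434389986770944, 4722510598057721069568, 4722942943621948637184⟩] = true := by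
  decide +kernel

theorem c20_b3 : c20.chkB 4725746434389986770944 4726670516738527854592
  [⟨4725946281623451336704, 4722510598057721069568, 4722942943621948637184⟩,
    ⟨4726176246679423942656, 4722510598057721069568, 4723231173998100348928⟩,
    ⟨4726406211735396548608, 4722510598057721069568, 4723231173998100348928⟩,
    ⟨4726670516738527854592, 4722510598057721069568, 4723231173998100348928⟩] = true := by
  decide +kernel

theorem c20_b4 : c20.chkB 4726670516738527854592 4728635493550944944128
  [⟨4727020108659602489344, 4722510598057721069568, 4723231173998100348928⟩,
    ⟨4727422336401322016768, 4722654713245796925440, 4723231173998100348928⟩,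
    ⟨4727954324107305156608, 4722654713245796925440, 4723519404374252060672⟩,
    ⟨4728635493550944944128, 4722654713245796925440, 4723519404374252060672⟩] = true := by
  decide +kernel

theorem c20_f0 : c20.chkF 4728635493550944944128 4799323993302152249344
  [⟨4729508347453724688384, 4722654713245796925440, 4726401708135769178112, true⟩,
    ⟨4731263906883469049856, 4722654713245796925440, 4726401708135769178112, true⟩,
    ⟨4733585793966355251200, 4722942943621948637184, 4726401708135769178112, true⟩,
    ⟨4736656404487291797504, 4722942943621948637184, 4726401708135769178112, true⟩,
    ⟨4740717243976296431616, 4722942943621948637184, 4726401708135769178112, true⟩,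
    ⟨4745387195314902925312, 4723231173998100348928, 4726401708135769178112, true⟩,
    ⟨4751563319253888139264, 4723519404374252060672, 4726401708135769178112, true⟩,
    ⟨4758665777341228122112, 4723807634750403772416, 4726401708135769178112, true⟩,
    ⟨4768058878789039423488, 4724095865126555484160, 4726401708135769178112, true⟩,
    ⟨4778861043970264268800, 4724672325878858907648, 4726401708135769178112, true⟩,
    ⟨4789663209151489114112, 4725248786631162331136, 4726401708135769178112, true⟩,
    ⟨4799323993302152249344, 4725537017007314042880, 4726401708135769178112, true⟩] = true := by
  decide +kernel

theorem c20_e : c20.chkU 4799323993302152249344 4722384497268154695680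
  [⟨4722442481113357090816, true⟩, ⟨4722577026152224784384, true⟩, ⟨4722987979618222342144, true⟩,
    ⟨4723250877246470094848, true⟩, ⟨4723519404374252060672, false⟩] = true := by
  decide +kernel

theorem c21_wf : c21.wf = true := by
  decide +kernel

theorem c21_b0 : c21.chkB 4722366482869645213696 4723984963985731485696
  [⟨4722690179092862468096, 4722366482869645213696, 4722366482869645213696⟩,
    ⟨4723013875316079722496, 4722366482869645213696, 4722654713245796925440⟩,
    ⟨4723337571539296976896, 4722366482869645213696, 4722654713245796925440⟩,
    ⟨4723661267762514231296, 4722366482869645213696, 4722654713245796925440⟩,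
    ⟨4723984963985731485696, 4722366482869645213696, 4722942943621948637184⟩] = true := by
  decide +kernel

end Pool.Agent.Eps.T
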