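import Mathlib
import Pool.Agent.Lib.MP_3bda03_nt.T.Certs

/-! Kernel checks of the certificates. -/

set_option autoImplicit false
set_option maxRecDepth 100000

namespace Pool.Agent.Eps.T

theorem c21_b1 : c21.chkB 4723984963985731485696 4725787248261609816064
  [⟨4724357355379919683584, 4722366482869645213696, 4722942943621948637184⟩,
    ⟨4724729746774107881472, 4722366482869645213696, 4722942943621948637184⟩,
    ⟨4725102138168296079360, 4722366482869645213696, 4722942943621948637184⟩,
    ⟨4725444693214952947712, 4722510598057721069568, 4722942943621948637184⟩,
    ⟨4725787248261609816064, 4722510598057721069568, 4723231173998100348928⟩] = true := by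
  decide +kernel

theorem c21_b2 : c21.chkB 4725787248261609816064 4728689536746473390080
  [⟨4726181031754028023808, 4722510598057721069568, 4723231173998100348928⟩,
    ⟨4726633924991555469312, 4722510598057721069568, 4723231173998100348928⟩,
    ⟨4727232903741995745280, 4722510598057721069568, 4723231173998100348928⟩,
    ⟨4727921954484983431168, 4722510598057721069568, 4723231173998100348928⟩,
    ⟨4728689536746473390080, 4722510598057721069568, 4723519404374252060672⟩] = true := by
  decide +kernel

theorem c21_f0 : c21.chkF 4728689536746473390080 4799323993302152249344
  [⟨4729637544468034879488, 4722654713245796925440, 4726401708135769178112, true⟩,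
    ⟨4731544255960272863232, 4722654713245796925440, 4726401708135769178112, true⟩,
    ⟨4734065990276623630336, 4722654713245796925440, 4726401708135769178112, true⟩,
    ⟨4737401187275668193280, 4722654713245796925440, 4726401708135769178112, true⟩,
    ⟨4741811900160724172800, 4722654713245796925440, 4726401708135769178112, true⟩,
    ⟨4746884079241050193920, 4722942943621948637184, 4726401708135769178112, true⟩,
    ⟨4754598463927759142912, 4722942943621948637184, 4726401708135769178112, true⟩,
    ⟨4764800524458636869632, 4723231173998100348928, 4726401708135769178112, true⟩,
    ⟨4782644067657255485440, 4723519404374252060672, 4726401708135769178112, true⟩,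
    ⟨4799323993302152249344, 4724095865126555484160, 4726401708135769178112, true⟩] = true := by
  decide +kernel

theorem c21_e : c21.chkU 4799323993302152249344 4722373238269086269440
  [⟨4722427281464614715392, true⟩, ⟨4722552256354274246656, true⟩, ⟨4722884396826792820736, true⟩,
    ⟨4723216537299311394816, true⟩, ⟨4723519404374252060672, false⟩] = true := by
  decide +kernel

theorem c22_wf : c22.wf = true := by
  decide +kernel

theorem c22_b0 : c22.chkB 4722366482869645213696 4723556277596201156608
  [⟨4722649928171192844288, 4722366482869645213696, 4722366482869645213696⟩,
    ⟨4722876515527444922368, 4722366482869645213696, 4722654713245796925440⟩,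
    ⟨4723103102883697000448, 4722366482869645213696, 4722654713245796925440⟩,
    ⟨4723329690239949078528, 4722366482869645213696, 4722654713245796925440⟩,
    ⟨4723556277596201156608, 4722366482869645213696, 4722654713245796925440⟩] = true := by
  decide +kernel

theorem c22_b1 : c22.chkB 4723556277596201156608 4724689214377461547008
  [⟨4723782864952453234688, 4722366482869645213696, 4722654713245796925440⟩,
    ⟨4724009452308705312768, 4722366482869645213696, 4722654713245796925440⟩,
    ⟨4724236039664957390848, 4722366482869645213696, 4722654713245796925440⟩,
    ⟨4724462627021209468928, 4722366482869645213696, 4722942943621948637184⟩,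
    ⟨4724689214377461547008, 4722366482869645213696, 4722942943621948637184⟩] = true := by
  decide +kernel

end Pool.Agent.Eps.T
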