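import Mathlib
import Pool.Agent.Lib.MP_3bda03_nt.T.Certs

/-! Kernel checks of the certificates. -/

set_option autoImplicit false
set_option maxRecDepth 100000

namespace Pool.Agent.Eps.T

theorem c22_b2 : c22.chkB 4724689214377461547008 4725822151158721937408
  [⟨4724915801733713625088, 4722366482869645213696, 4722942943621948637184⟩,
    ⟨4725142389089965703168, 4722366482869645213696, 4722942943621948637184⟩,
    ⟨4725368976446217781248, 4722366482869645213696, 4722942943621948637184⟩,
    ⟨4725595563802469859328, 4722366482869645213696, 4722942943621948637184⟩,
    ⟨4725822151158721937408, 4722366482869645213696, 4722942943621948637184⟩] = true := by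
  decide +kernel

theorem c22_b3 : c22.chkB 4725822151158721937408 4727123691451032010752
  [⟨4726082796987156004864, 4722366482869645213696, 4723231173998100348928⟩,
    ⟨4726382567837352853504, 4722366482869645213696, 4723231173998100348928⟩,
    ⟨4726727374683823407104, 4722366482869645213696, 4723231173998100348928⟩,
    ⟨4727123691451032010752, 4722366482869645213696, 4723231173998100348928⟩] = true := by
  decide +kernel

theorem c22_b4 : c22.chkB 4727123691451032010752 4729284011897286295552
  [⟨4727579680913303273472, 4722366482869645213696, 4723231173998100348928⟩,
    ⟨4728104068794915225600, 4722366482869645213696, 4723519404374252060672⟩,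
    ⟨4728706988195029450752, 4722366482869645213696, 4723519404374252060672⟩,
    ⟨4729284011897286295552, 4722366482869645213696, 4723519404374252060672⟩] = true := by
  decide +kernel

theorem c22_f0 : c22.chkF 4729284011897286295552 4799323993302152249344
  [⟨4730224138319499886592, 4722366482869645213696, 4726401708135769178112, true⟩,
    ⟨4731653749726213308416, 4722366482869645213696, 4726401708135769178112, true⟩,
    ⟨4733544417144778784768, 4722366482869645213696, 4726401708135769178112, true⟩,
    ⟨4736045040837876252672, 4722366482869645213696, 4726401708135769178112, true⟩,
    ⟨4738920589199952314368, 4722366482869645213696, 4726401708135769178112, true⟩,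
    ⟨4742227638701325811712, 4722654713245796925440, 4726401708135769178112, true⟩,
    ⟨4746601196889455984640, 4722654713245796925440, 4726401708135769178112, true⟩,
    ⟨4752385226185883254784, 4722654713245796925440, 4726401708135769178112, true⟩,
    ⟨4760034590152972042240, 4722654713245796925440, 4726401708135769178112, true⟩,
    ⟨4773413377271006232576, 4722654713245796925440, 4726401708135769178112, true⟩,
    ⟨4799323993302152249344, 4722942943621948637184, 4726401708135769178112, true⟩] = true := by
  decide +kernel

theorem c22_e : c22.chkU 4799323993302152249344 4722359727470204157952
  [⟨4722398008067036807168, true⟩, ⟨4722485828259770531840, true⟩, ⟨4722689053192955625472, true⟩,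
    ⟨4723230048098193506304, true⟩, ⟨4723519404374252060672, false⟩] = true := by
  decide +kernel

end Pool.Agent.Eps.T
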