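import Mathlib
import Pool.Agent.Lib.MP_3bda03_nt.T.Certs

/-! Kernel checks of the certificates. -/

set_option autoImplicit false
set_option maxRecDepth 100000

namespace Pool.Agent.Eps.T

theorem c1_b1 : c1.chkB 4722926336598322708480 4723416103057799249920
  [⟨4723024289890218016768, 4722798828433872781312, 4722654713245796925440⟩,
    ⟨4723122243182113325056, 4722942943621948637184, 4722654713245796925440⟩,
    ⟨4723220196474008633344, 4722942943621948637184, 4722942943621948637184⟩,
    ⟨4723318149765903941632, 4723087058810024493056, 4722942943621948637184⟩,
    ⟨4723416103057799249920, 4723087058810024493056, 4722942943621948637184⟩] = true := by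
  decide +kernel

theorem c1_b2 : c1.chkB 4723416103057799249920 4723905869517275791360
  [⟨4723514056349694558208, 4723231173998100348928, 4722942943621948637184⟩,
    ⟨4723612009641589866496, 4723231173998100348928, 4722942943621948637184⟩,
    ⟨4723709962933485174784, 4723375289186176204800, 4722942943621948637184⟩,
    ⟨4723807916225380483072, 4723375289186176204800, 4722942943621948637184⟩,
    ⟨4723905869517275791360, 4723519404374252060672, 4722942943621948637184⟩] = true := by
  decide +kernel

theorem c1_b3 : c1.chkB 4723905869517275791360 4724395635976752332800
  [⟨4724003822809171099648, 4723519404374252060672, 4723231173998100348928⟩,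
    ⟨4724101776101066407936, 4723663519562327916544, 4723231173998100348928⟩,
    ⟨4724199729392961716224, 4723663519562327916544, 4723231173998100348928⟩,
    ⟨4724297682684857024512, 4723807634750403772416, 4723231173998100348928⟩,
    ⟨4724395635976752332800, 4723807634750403772416, 4723231173998100348928⟩] = true := by
  decide +kernel

end Pool.Agent.Eps.T
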