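import Mathlib
import Pool.Agent.Lib.MP_3bda03_nt.T.Certs

/-! Kernel checks of the certificates. -/

set_option autoImplicit false
set_option maxRecDepth 100000

namespace Pool.Agent.Eps.T

theorem c1_b4 : c1.chkB 4724395635976752332800 4724864854762928996352
  [⟨4724485707969299742720, 4723951749938479628288, 4723231173998100348928⟩,
    ⟨4724575779961847152640, 4723951749938479628288, 4723519404374252060672⟩,
    ⟨4724665851954394562560, 4724095865126555484160, 4723519404374252060672⟩,
    ⟨4724769434745824083968, 4724095865126555484160, 4723519404374252060672⟩,
    ⟨4724864854762928996352, 4724239980314631340032, 4723519404374252060672⟩] = true := by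
  decide +kernel

theorem c1_b5 : c1.chkB 4724864854762928996352 4725260608580184178688
  [⟨4724960274780033908736, 4724239980314631340032, 4723519404374252060672⟩,
    ⟨4725055694797138821120, 4724384095502707195904, 4723519404374252060672⟩,
    ⟨4725151114814243733504, 4724384095502707195904, 4723519404374252060672⟩,
    ⟨4725260608580184178688, 4724528210690783051776, 4723519404374252060672⟩] = true := by
  decide +kernel

theorem c1_b6 : c1.chkB 4725260608580184178688 4725897304977503682560
  [⟨4725386709369750552576, 4724528210690783051776, 4723519404374252060672⟩,
    ⟨4725531668982756540416, 4724672325878858907648, 4723519404374252060672⟩,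
    ⟨4725698302168969248768, 4724816441066934763520, 4723519404374252060672⟩,
    ⟨4725897304977503682560, 4724960556255010619392, 4723519404374252060672⟩] = true := by
  decide +kernel

theorem c1_f0 : c1.chkF 4725897304977503682560 4729729468995105869824
  [⟨4726012709717955051520, 4724672325878858907648, 4724672325878858907648, true⟩,
    ⟨4726279829470853464064, 4724672325878858907648, 4724672325878858907648, true⟩,
    ⟨4726817165201394106368, 4724960556255010619392, 4724672325878858907648, true⟩,
    ⟨4727634568533761851392, 4725248786631162331136, 4724672325878858907648, true⟩,
    ⟨4729729468995105869824, 4725537017007314042880, 4724672325878858907648, false⟩] = true := by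
  decide +kernel

theorem c1_e : c1.chkS 4729729468995105869824 = true := by
  decide +kernel

theorem c2_wf : c2.wf = true := by
  decide +kernel

theorem c2_b0 : c2.chkB 4722366482869645213696 4723130405956437934080
  [⟨4722529456881160683520, 4722366482869645213696, 4722366482869645213696⟩,
    ⟨4722692430892676153344, 4722510598057721069568, 4722654713245796925440⟩,
    ⟨4722842457055262932992, 4722654713245796925440, 4722654713245796925440⟩,
    ⟨4722992483217849712640, 4722798828433872781312, 4722654713245796925440⟩,
    ⟨4723130405956437934080, 4722798828433872781312, 4722942943621948637184⟩] = true := by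
  decide +kernel

end Pool.Agent.Eps.T
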