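import Mathlib
import Pool.Agent.Lib.MP_3bda03_nt.T.Certs

/-! Kernel checks of the certificates. -/

set_option autoImplicit false
set_option maxRecDepth 100000

namespace Pool.Agent.Eps.T

theorem c2_b1 : c2.chkB 4723130405956437934080 4723820019649379041280
  [⟨4723268328695026155520, 4722942943621948637184, 4722942943621948637184⟩,
    ⟨4723406251433614376960, 4723087058810024493056, 4722942943621948637184⟩,
    ⟨4723544174172202598400, 4723231173998100348928, 4722942943621948637184⟩,
    ⟨4723682096910790819840, 4723231173998100348928, 4722942943621948637184⟩,
    ⟨4723820019649379041280, 4723375289186176204800, 4722942943621948637184⟩] = true := by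
  decide +kernel

theorem c2_b2 : c2.chkB 4723820019649379041280 4724453901296931438592
  [⟨4723978490061267140608, 4723519404374252060672, 4723231173998100348928⟩,
    ⟨4724136960473155239936, 4723519404374252060672, 4723231173998100348928⟩,
    ⟨4724295430885043339264, 4723663519562327916544, 4723231173998100348928⟩,
    ⟨4724453901296931438592, 4723807634750403772416, 4723231173998100348928⟩] = true := by
  decide +kernel

theorem c2_b3 : c2.chkB 4724453901296931438592 4725087782944483835904
  [⟨4724612371708819537920, 4723951749938479628288, 4723231173998100348928⟩,
    ⟨4724770842120707637248, 4724095865126555484160, 4723519404374252060672⟩,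
    ⟨4724929312532595736576, 4724095865126555484160, 4723519404374252060672⟩,
    ⟨4725087782944483835904, 4724239980314631340032, 4723519404374252060672⟩] = true := by
  decide +kernel

theorem c2_b4 : c2.chkB 4725087782944483835904 4725825247383465754624
  [⟨4725270178729392340992, 4724384095502707195904, 4723519404374252060672⟩,
    ⟨4725452574514300846080, 4724528210690783051776, 4723519404374252060672⟩,
    ⟨4725662273371950284800, 4724672325878858907648, 4723519404374252060672⟩,
    ⟨4725825247383465754624, 4724816441066934763520, 4723519404374252060672⟩] = true := by
  decide +kernel

theorem c2_f0 : c2.chkF 4725825247383465754624 4730420064656078791680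
  [⟨4725845513581788921856, 4724672325878858907648, 4725248786631162331136, true⟩,
    ⟨4725899275302340657152, 4724672325878858907648, 4725248786631162331136, true⟩,
    ⟨4726042264590509670400, 4724672325878858907648, 4725248786631162331136, true⟩,
    ⟨4726372997688144691200, 4724672325878858907648, 4725248786631162331136, true⟩,
    ⟨4727038123058111971328, 4724960556255010619392, 4724672325878858907648, true⟩,
    ⟨4728049744124410068992, 4725248786631162331136, 4724672325878858907648, true⟩,
    ⟨4730420064656078791680, 4725825247383465754624, 4724672325878858907648, false⟩] = true := by
  decide +kernel

theorem c2_e : c2.chkS 4730420064656078791680 = true := by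
  decide +kernel

theorem c3_wf : c3.wf = true := by
  decide +kernel

end Pool.Agent.Eps.T
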