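import Mathlib
import Pool.Agent.Lib.MP_3bda03_nt.T.Certs

/-! Kernel checks of the certificates. -/

set_option autoImplicit false
set_option maxRecDepth 100000

namespace Pool.Agent.Eps.T

theorem c3_b0 : c3.chkB 4722366482869645213696 4723213159599590866944
  [⟨4722550004554460561408, 4722366482869645213696, 4722366482869645213696⟩,
    ⟨4722733526239275909120, 4722510598057721069568, 4722654713245796925440⟩,
    ⟨4722902411225302302720, 4722654713245796925440, 4722654713245796925440⟩,
    ⟨4723057785412446584832, 4722798828433872781312, 4722654713245796925440⟩,
    ⟨4723213159599590866944, 4722942943621948637184, 4722654713245796925440⟩] = true := by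
  decide +kernel

theorem c3_b1 : c3.chkB 4723213159599590866944 4723928106040435933184
  [⟨4723356148887759880192, 4722942943621948637184, 4722942943621948637184⟩,
    ⟨4723499138175928893440, 4723087058810024493056, 4722942943621948637184⟩,
    ⟨4723642127464097906688, 4723231173998100348928, 4722942943621948637184⟩,
    ⟨4723785116752266919936, 4723231173998100348928, 4723231173998100348928⟩,
    ⟨4723928106040435933184, 4723375289186176204800, 4723231173998100348928⟩] = true := by
  decide +kernel

theorem c3_b2 : c3.chkB 4723928106040435933184 4724707228775971028992
  [⟨4724071095328604946432, 4723519404374252060672, 4723231173998100348928⟩,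
    ⟨4724214084616773959680, 4723519404374252060672, 4723231173998100348928⟩,
    ⟨4724378466003172982784, 4723663519562327916544, 4723231173998100348928⟩,
    ⟨4724542847389572005888, 4723807634750403772416, 4723231173998100348928⟩,
    ⟨4724707228775971028992, 4723951749938479628288, 4723519404374252060672⟩] = true := by
  decide +kernel

theorem c3_b3 : c3.chkB 4724707228775971028992 4725338295673756319744
  [⟨4724871610162370052096, 4723951749938479628288, 4723519404374252060672⟩,
    ⟨4725035991548769075200, 4724095865126555484160, 4723519404374252060672⟩,
    ⟨4725187143611262697472, 4724239980314631340032, 4723519404374252060672⟩,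
    ⟨4725338295673756319744, 4724384095502707195904, 4723519404374252060672⟩] = true := by
  decide +kernel

theorem c3_b4 : c3.chkB 4725338295673756319744 4725951348173032128512
  [⟨4725489447736249942016, 4724384095502707195904, 4723519404374252060672⟩,
    ⟨4725640599798743564288, 4724528210690783051776, 4723519404374252060672⟩,
    ⟨4725791751861237186560, 4724672325878858907648, 4723519404374252060672⟩,
    ⟨4725951348173032128512, 4724672325878858907648, 4723519404374252060672⟩] = true := by
  decide +kernel

end Pool.Agent.Eps.T
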