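import Mathlib
import Pool.Agent.Lib.MP_3bda03_nt.T.Certs

/-! Kernel checks of the certificates. -/

set_option autoImplicit false
set_option maxRecDepth 100000

namespace Pool.Agent.Eps.T

theorem c3_f0 : c3.chkF 4725951348173032128512 4731613247466614384640
  [⟨4725958947997403316224, 4724672325878858907648, 4725248786631162331136, true⟩,
    ⟨4725978932720749772800, 4724672325878858907648, 4725248786631162331136, true⟩,
    ⟨4726032131491348086784, 4724672325878858907648, 4725248786631162331136, true⟩,
    ⟨4726173431929656836096, 4724672325878858907648, 4725248786631162331136, true⟩,
    ⟨4726500224377617907712, 4724672325878858907648, 4725248786631162331136, true⟩,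
    ⟨4727157468448237289472, 4724960556255010619392, 4724672325878858907648, true⟩,
    ⟨4728479556413847240704, 4725248786631162331136, 4724672325878858907648, true⟩,
    ⟨4731613247466614384640, 4725825247383465754624, 4724672325878858907648, false⟩] = true := by
  decide +kernel

theorem c3_e : c3.chkS 4731613247466614384640 = true := by
  decide +kernel

theorem c4_wf : c4.wf = true := by
  decide +kernel

theorem c4_b0 : c4.chkB 4722366482869645213696 4723213441074567577600
  [⟨4722574492877434388480, 4722366482869645213696, 4722366482869645213696⟩,
    ⟨4722740844588670386176, 4722510598057721069568, 4722654713245796925440⟩,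
    ⟨4722907196299906383872, 4722654713245796925440, 4722654713245796925440⟩,
    ⟨4723060318687236980736, 4722798828433872781312, 4722654713245796925440⟩,
    ⟨4723213441074567577600, 4722798828433872781312, 4722942943621948637184⟩] = true := by
  decide +kernel

theorem c4_b1 : c4.chkB 4723213441074567577600 4723979053011220561920
  [⟨4723366563461898174464, 4722942943621948637184, 4722942943621948637184⟩,
    ⟨4723519685849228771328, 4723087058810024493056, 4722942943621948637184⟩,
    ⟨4723672808236559368192, 4723087058810024493056, 4723231173998100348928⟩,
    ⟨4723825930623889965056, 4723231173998100348928, 4723231173998100348928⟩,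
    ⟨4723979053011220561920, 4723375289186176204800, 4723231173998100348928⟩] = true := by
  decide +kernel

theorem c4_b2 : c4.chkB 4723979053011220561920 4724968437554358517760
  [⟨4724154974871664721920, 4723375289186176204800, 4723231173998100348928⟩,
    ⟨4724330896732108881920, 4723519404374252060672, 4723519404374252060672⟩,
    ⟨4724533277240363843584, 4723663519562327916544, 4723519404374252060672⟩,
    ⟨4724735657748618805248, 4723807634750403772416, 4723519404374252060672⟩,
    ⟨4724968437554358517760, 4723951749938479628288, 4723519404374252060672⟩] = true := by
  decide +kernel

theorem c4_b3 : c4.chkB 4724968437554358517760 4725897304977503682560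
  [⟨4725201217360098230272, 4724095865126555484160, 4723519404374252060672⟩,
    ⟨4725433997165837942784, 4724239980314631340032, 4723519404374252060672⟩,
    ⟨4725666776971577655296, 4724384095502707195904, 4723519404374252060672⟩,
    ⟨4725897304977503682560, 4724528210690783051776, 4723519404374252060672⟩] = true := by
  decide +kernel

end Pool.Agent.Eps.T
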