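import Mathlib
import Pool.Agent.Lib.MP_3bda03_nt.T.Certs

/-! Kernel checks of the certificates. -/

set_option autoImplicit false
set_option maxRecDepth 100000

namespace Pool.Agent.Eps.T

theorem c4_f0 : c4.chkF 4725897304977503682560 4733234087243171000320
  [⟨4725912504626246057984, 4724384095502707195904, 4725248786631162331136, true⟩,
    ⟨4725958947997403316224, 4724384095502707195904, 4725248786631162331136, true⟩,
    ⟨4726101092860642197504, 4724384095502707195904, 4725248786631162331136, true⟩,
    ⟨4726479395229341319168, 4724384095502707195904, 4725248786631162331136, true⟩,
    ⟨4727240222091390222336, 4724672325878858907648, 4725248786631162331136, true⟩,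
    ⟨4728571035781278203904, 4724960556255010619392, 4725248786631162331136, true⟩,
    ⟨4729550568700231286784, 4725537017007314042880, 4724672325878858907648, true⟩,
    ⟨4733234087243171000320, 4725825247383465754624, 4724672325878858907648, false⟩] = true := by
  decide +kernel

theorem c4_e : c4.chkS 4733234087243171000320 = true := by
  decide +kernel

theorem c5_wf : c5.wf = true := by
  decide +kernel

theorem c5_b0 : c5.chkB 4722366482869645213696 4723398370134266478592
  [⟨4722605173649895849984, 4722366482869645213696, 4722366482869645213696⟩,
    ⟨4722824724131730161664, 4722510598057721069568, 4722654713245796925440⟩,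
    ⟨4723026823165008412672, 4722654713245796925440, 4722654713245796925440⟩,
    ⟨4723212596649637445632, 4722798828433872781312, 4722942943621948637184⟩,
    ⟨4723398370134266478592, 4722942943621948637184, 4722942943621948637184⟩] = true := by
  decide +kernel

theorem c5_b1 : c5.chkB 4723398370134266478592 4724169330095476965376
  [⟨4723584143618895511552, 4722942943621948637184, 4722942943621948637184⟩,
    ⟨4723769917103524544512, 4723087058810024493056, 4723231173998100348928⟩,
    ⟨4723955690588153577472, 4723231173998100348928, 4723231173998100348928⟩,
    ⟨4724169330095476965376, 4723375289186176204800, 4723231173998100348928⟩] = true := by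
  decide +kernel

theorem c5_b2 : c5.chkB 4724169330095476965376 4725120152566805561344
  [⟨4724382969602800353280, 4723375289186176204800, 4723519404374252060672⟩,
    ⟨4724628697257468755968, 4723519404374252060672, 4723519404374252060672⟩,
    ⟨4724874424912137158656, 4723663519562327916544, 4723519404374252060672⟩,
    ⟨4725120152566805561344, 4723807634750403772416, 4723519404374252060672⟩] = true := by
  decide +kernel

theorem c5_b3 : c5.chkB 4725120152566805561344 4726095463361107984384
  [⟨4725365880221473964032, 4723951749938479628288, 4723519404374252060672⟩,
    ⟨4725611607876142366720, 4724095865126555484160, 4723519404374252060672⟩,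
    ⟨4725857335530810769408, 4724239980314631340032, 4723519404374252060672⟩,
    ⟨4726095463361107984384, 4724384095502707195904, 4723519404374252060672⟩] = true := by
  decide +kernel

end Pool.Agent.Eps.T
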