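import Mathlib
import Pool.Agent.Lib.MP_3bda03_nt.T.Certs

/-! Kernel checks of the certificates. -/

set_option autoImplicit false
set_option maxRecDepth 100000

namespace Pool.Agent.Eps.T

theorem c5_f0 : c5.chkF 4726095463361107984384 4735470104453825116160
  [⟨4726240141499137261568, 4724384095502707195904, 4725248786631162331136, true⟩,
    ⟨4726624917792300728320, 4724384095502707195904, 4725248786631162331136, true⟩,
    ⟨4727398973978255032320, 4724672325878858907648, 4725248786631162331136, true⟩,
    ⟨4728752868616233287680, 4724960556255010619392, 4725248786631162331136, true⟩,
    ⟨4730812139545848446976, 4725537017007314042880, 4725248786631162331136, true⟩,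
    ⟨4735470104453825116160, 4725825247383465754624, 4724672325878858907648, false⟩] = true := by
  decide +kernel

theorem c5_e : c5.chkS 4735470104453825116160 = true := by
  decide +kernel

theorem c6_wf : c6.wf = true := by
  decide +kernel

theorem c6_b0 : c6.chkB 4722366482869645213696 4723463390853886640128
  [⟨4722620091823661514752, 4722366482869645213696, 4722366482869645213696⟩,
    ⟨4722853434579354648576, 4722510598057721069568, 4722654713245796925440⟩,
    ⟨4723068199986584879104, 4722654713245796925440, 4722654713245796925440⟩,
    ⟨4723265795420235759616, 4722798828433872781312, 4722942943621948637184⟩,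
    ⟨4723463390853886640128, 4722798828433872781312, 4722942943621948637184⟩] = true := by
  decide +kernel

theorem c6_b1 : c6.chkB 4723463390853886640128 4724312882333599399936
  [⟨4723660986287537520640, 4722942943621948637184, 4722942943621948637184⟩,
    ⟨4723858581721188401152, 4723087058810024493056, 4723231173998100348928⟩,
    ⟨4724085732027393900544, 4723231173998100348928, 4723231173998100348928⟩,
    ⟨4724312882333599399936, 4723231173998100348928, 4723231173998100348928⟩] = true := by
  decide +kernel

theorem c6_b2 : c6.chkB 4724312882333599399936 4725357717447149355008
  [⟨4724574091111986888704, 4723375289186176204800, 4723519404374252060672⟩,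
    ⟨4724835299890374377472, 4723519404374252060672, 4723519404374252060672⟩,
    ⟨4725096508668761866240, 4723663519562327916544, 4723519404374252060672⟩,
    ⟨4725357717447149355008, 4723807634750403772416, 4723519404374252060672⟩] = true := by
  decide +kernel

theorem c6_b3 : c6.chkB 4725357717447149355008 4726329650541731250176
  [⟨4725618926225536843776, 4723951749938479628288, 4723519404374252060672⟩,
    ⟨4725880135003924332544, 4724095865126555484160, 4723519404374252060672⟩,
    ⟨4726141343782311821312, 4724239980314631340032, 4723519404374252060672⟩,
    ⟨4726329650541731250176, 4724384095502707195904, 4723519404374252060672⟩] = true := by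
  decide +kernel

theorem c6_f0 : c6.chkF 4726329650541731250176 4738592701198792028160
  [⟨4726518801726080811008, 4724384095502707195904, 4725248786631162331136, true⟩,
    ⟨4726956495314865881088, 4724384095502707195904, 4725248786631162331136, true⟩,
    ⟨4727837230516993523712, 4724672325878858907648, 4725248786631162331136, true⟩,
    ⟨4729176488456182824960, 4724960556255010619392, 4725248786631162331136, true⟩,
    ⟨4731213522862637842432, 4725537017007314042880, 4725248786631162331136, true⟩,
    ⟨4732517033479784890368, 4725825247383465754624, 4725248786631162331136, true⟩,
    ⟨4735532474905286148096, 4725825247383465754624, 4725248786631162331136, false⟩,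
    ⟨4738592701198792028160, 4725825247383465754624, 4725248786631162331136, false⟩] = true := by
  decide +kernel

theorem c6_e : c6.chkS 4738592701198792028160 = true := by
  decide +kernel

theorem c7_wf : c7.wf = true := by
  decide +kernel

end Pool.Agent.Eps.T
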