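import Mathlib
import Pool.Agent.Lib.MP_3bda03_nt.T.Cov
import Pool.Agent.Lib.MP_3bda03_nt.T.K0
import Pool.Agent.Lib.MP_3bda03_nt.T.K1
import Pool.Agent.Lib.MP_3bda03_nt.T.K2
import Pool.Agent.Lib.MP_3bda03_nt.T.K3
import Pool.Agent.Lib.MP_3bda03_nt.T.K4
import Pool.Agent.Lib.MP_3bda03_nt.T.K5
import Pool.Agent.Lib.MP_3bda03_nt.T.K6
import Pool.Agent.Lib.MP_3bda03_nt.T.K7
import Pool.Agent.Lib.MP_3bda03_nt.T.K8
import Pool.Agent.Lib.MP_3bda03_nt.T.K9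
import Pool.Agent.Lib.MP_3bda03_nt.T.K10
import Pool.Agent.Lib.MP_3bda03_nt.T.K11
import Pool.Agent.Lib.MP_3bda03_nt.T.K12
import Pool.Agent.Lib.MP_3bda03_nt.T.K13
import Pool.Agent.Lib.MP_3bda03_nt.T.K14
import Pool.Agent.Lib.MP_3bda03_nt.T.K15
import Pool.Agent.Lib.MP_3bda03_nt.T.K16
import Pool.Agent.Lib.MP_3bda03_nt.T.K17
import Pool.Agent.Lib.MP_3bda03_nt.T.K18
import Pool.Agent.Lib.MP_3bda03_nt.T.K19
import Pool.Agent.Lib.MP_3bda03_nt.T.K20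
import Pool.Agent.Lib.MP_3bda03_nt.T.K21
import Pool.Agent.Lib.MP_3bda03_nt.T.K22
import Pool.Agent.Lib.MP_3bda03_nt.T.K23
import Pool.Agent.Lib.MP_3bda03_nt.T.K24

/-! The test family works in all dimensions from 97 on. -/

set_option autoImplicit false
set_option maxRecDepth 100000

namespace Pool.Agent.Eps.T

open Pool.Agent.Eps.H

theorem c0_goal {n : ℕ} (h1 : 97 ≤ n) (h2 : n ≤ 101) (hS : Sieve n) : Goal n :=
  Cert.finS c0_wf (((((((((((Cert.covB c0_wf c0_b0).trans (Cert.covB c0_wf c0_b1)).trans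
    (Cert.covB c0_wf c0_b2)).trans (Cert.covB c0_wf c0_b3)).trans (Cert.covB c0_wf c0_b4)).trans
    (Cert.covB c0_wf c0_b5)).trans (Cert.covB c0_wf c0_b6)).trans (Cert.covB c0_wf c0_b7)).trans
    (Cert.covB c0_wf c0_b8)).trans (Cert.covB c0_wf c0_b9)).trans (Cert.covF c0_wf c0_f0)) c0_e
    ⟨h1, Or.inr h2⟩ hS

theorem c1_goal {n : ℕ} (h1 : 102 ≤ n) (h2 : n ≤ 109) (hS : Sieve n) : Goal n :=
  Cert.finS c1_wf ((((((((Cert.covB c1_wf c1_b0).trans (Cert.covB c1_wf c1_b1)).trans (Cert.covB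
    c1_wf c1_b2)).trans (Cert.covB c1_wf c1_b3)).trans (Cert.covB c1_wf c1_b4)).trans (Cert.covB
    c1_wf c1_b5)).trans (Cert.covB c1_wf c1_b6)).trans (Cert.covF c1_wf c1_f0)) c1_e ⟨h1, Or.inr
    h2⟩ hS

theorem c2_goal {n : ℕ} (h1 : 110 ≤ n) (h2 : n ≤ 118) (hS : Sieve n) : Goal n :=
  Cert.finS c2_wf ((((((Cert.covB c2_wf c2_b0).trans (Cert.covB c2_wf c2_b1)).trans (Cert.covB
    c2_wf c2_b2)).trans (Cert.covB c2_wf c2_b3)).trans (Cert.covB c2_wf c2_b4)).trans (Cert.covF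
    c2_wf c2_f0)) c2_e ⟨h1, Or.inr h2⟩ hS

theorem c3_goal {n : ℕ} (h1 : 119 ≤ n) (h2 : n ≤ 133) (hS : Sieve n) : Goal n :=
  Cert.finS c3_wf ((((((Cert.covB c3_wf c3_b0).trans (Cert.covB c3_wf c3_b1)).trans (Cert.covB
    c3_wf c3_b2)).trans (Cert.covB c3_wf c3_b3)).trans (Cert.covB c3_wf c3_b4)).trans (Cert.covF
    c3_wf c3_f0)) c3_e ⟨h1, Or.inr h2⟩ hS

theorem c4_goal {n : ℕ} (h1 : 134 ≤ n) (h2 : n ≤ 153) (hS : Sieve n) : Goal n :=
  Cert.finS c4_wf (((((Cert.covB c4_wf c4_b0).trans (Cert.covB c4_wf c4_b1)).trans (Cert.covB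
    c4_wf c4_b2)).trans (Cert.covB c4_wf c4_b3)).trans (Cert.covF c4_wf c4_f0)) c4_e ⟨h1, Or.inr
    h2⟩ hS

theorem c5_goal {n : ℕ} (h1 : 154 ≤ n) (h2 : n ≤ 180) (hS : Sieve n) : Goal n :=
  Cert.finS c5_wf (((((Cert.covB c5_wf c5_b0).trans (Cert.covB c5_wf c5_b1)).trans (Cert.covB
    c5_wf c5_b2)).trans (Cert.covB c5_wf c5_b3)).trans (Cert.covF c5_wf c5_f0)) c5_e ⟨h1, Or.inr
    h2⟩ hS

theorem c6_goal {n : ℕ} (h1 : 181 ≤ n) (h2 : n ≤ 217) (hS : Sieve n) : Goal n :=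
  Cert.finS c6_wf (((((Cert.covB c6_wf c6_b0).trans (Cert.covB c6_wf c6_b1)).trans (Cert.covB
    c6_wf c6_b2)).trans (Cert.covB c6_wf c6_b3)).trans (Cert.covF c6_wf c6_f0)) c6_e ⟨h1, Or.inr
    h2⟩ hS

theorem c7_goal {n : ℕ} (h1 : 218 ≤ n) (h2 : n ≤ 269) (hS : Sieve n) : Goal n :=
  Cert.finS c7_wf (((((Cert.covB c7_wf c7_b0).trans (Cert.covB c7_wf c7_b1)).trans (Cert.covB
    c7_wf c7_b2)).trans (Cert.covB c7_wf c7_b3)).trans (Cert.covF c7_wf c7_f0)) c7_e ⟨h1, Or.inr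
    h2⟩ hS

theorem c8_goal {n : ℕ} (h1 : 270 ≤ n) (h2 : n ≤ 333) (hS : Sieve n) : Goal n :=
  Cert.finS c8_wf ((((Cert.covB c8_wf c8_b0).trans (Cert.covB c8_wf c8_b1)).trans (Cert.covB c8_wf
    c8_b2)).trans (Cert.covF c8_wf c8_f0)) c8_e ⟨h1, Or.inr h2⟩ hS

theorem c9_goal {n : ℕ} (h1 : 334 ≤ n) (h2 : n ≤ 399) (hS : Sieve n) : Goal n :=
  Cert.finS c9_wf ((((Cert.covB c9_wf c9_b0).trans (Cert.covB c9_wf c9_b1)).trans (Cert.covB c9_wf
    c9_b2)).trans (Cert.covF c9_wf c9_f0)) c9_e ⟨h1, Or.inr h2⟩ hS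

theorem c10_goal {n : ℕ} (h1 : 400 ≤ n) (h2 : n ≤ 503) (hS : Sieve n) : Goal n :=
  Cert.finS c10_wf (((((Cert.covB c10_wf c10_b0).trans (Cert.covB c10_wf c10_b1)).trans (Cert.covB
    c10_wf c10_b2)).trans (Cert.covF c10_wf c10_f0)).trans (Cert.covF c10_wf c10_f1)) c10_e ⟨h1,
    Or.inr h2⟩ hS

theorem c11_goal {n : ℕ} (h1 : 504 ≤ n) (h2 : n ≤ 634) (hS : Sieve n) : Goal n :=
  Cert.finS c11_wf (((((Cert.covB c11_wf c11_b0).trans (Cert.covB c11_wf c11_b1)).trans (Cert.covB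
    c11_wf c11_b2)).trans (Cert.covF c11_wf c11_f0)).trans (Cert.covF c11_wf c11_f1)) c11_e ⟨h1,
    Or.inr h2⟩ hS

theorem c12_goal {n : ℕ} (h1 : 635 ≤ n) (h2 : n ≤ 799) (hS : Sieve n) : Goal n :=
  Cert.finS c12_wf (((((Cert.covB c12_wf c12_b0).trans (Cert.covB c12_wf c12_b1)).trans (Cert.covB
    c12_wf c12_b2)).trans (Cert.covF c12_wf c12_f0)).trans (Cert.covF c12_wf c12_f1)) c12_e ⟨h1,
    Or.inr h2⟩ hS

theorem c13_goal {n : ℕ} (h1 : 800 ≤ n) (h2 : n ≤ 1007) (hS : Sieve n) : Goal n :=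
  Cert.finS c13_wf (((((Cert.covB c13_wf c13_b0).trans (Cert.covB c13_wf c13_b1)).trans (Cert.covB
    c13_wf c13_b2)).trans (Cert.covF c13_wf c13_f0)).trans (Cert.covF c13_wf c13_f1)) c13_e ⟨h1,
    Or.inr h2⟩ hS

theorem c14_goal {n : ℕ} (h1 : 1008 ≤ n) (h2 : n ≤ 1231) (hS : Sieve n) : Goal n :=
  Cert.finU c14_wf ((((((Cert.covB c14_wf c14_b0).trans (Cert.covB c14_wf c14_b1)).trans
    (Cert.covB c14_wf c14_b2)).trans (Cert.covB c14_wf c14_b3)).trans (Cert.covF c14_wf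
    c14_f0)).trans (Cert.covF c14_wf c14_f1)) c14_e ⟨h1, Or.inr h2⟩ hS

theorem c15_goal {n : ℕ} (h1 : 1232 ≤ n) (h2 : n ≤ 1505) (hS : Sieve n) : Goal n :=
  Cert.finU c15_wf (((((Cert.covB c15_wf c15_b0).trans (Cert.covB c15_wf c15_b1)).trans (Cert.covB
    c15_wf c15_b2)).trans (Cert.covF c15_wf c15_f0)).trans (Cert.covF c15_wf c15_f1)) c15_e ⟨h1,
    Or.inr h2⟩ hS

theorem c16_goal {n : ℕ} (h1 : 1506 ≤ n) (h2 : n ≤ 2005) (hS : Sieve n) : Goal n :=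
  Cert.finU c16_wf ((((((Cert.covB c16_wf c16_b0).trans (Cert.covB c16_wf c16_b1)).trans
    (Cert.covB c16_wf c16_b2)).trans (Cert.covB c16_wf c16_b3)).trans (Cert.covF c16_wf
    c16_f0)).trans (Cert.covF c16_wf c16_f1)) c16_e ⟨h1, Or.inr h2⟩ hS

theorem c17_goal {n : ℕ} (h1 : 2006 ≤ n) (h2 : n ≤ 2871) (hS : Sieve n) : Goal n :=
  Cert.finU c17_wf (((((((Cert.covB c17_wf c17_b0).trans (Cert.covB c17_wf c17_b1)).trans
    (Cert.covB c17_wf c17_b2)).trans (Cert.covB c17_wf c17_b3)).trans (Cert.covF c17_wf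
    c17_f0)).trans (Cert.covF c17_wf c17_f1)).trans (Cert.covF c17_wf c17_f2)) c17_e ⟨h1, Or.inr
    h2⟩ hS

theorem c18_goal {n : ℕ} (h1 : 2872 ≤ n) (h2 : n ≤ 4725) (hS : Sieve n) : Goal n :=
  Cert.finU c18_wf (((((Cert.covB c18_wf c18_b0).trans (Cert.covB c18_wf c18_b1)).trans (Cert.covB
    c18_wf c18_b2)).trans (Cert.covB c18_wf c18_b3)).trans (Cert.covF c18_wf c18_f0)) c18_e ⟨h1,
    Or.inr h2⟩ hS

theorem c19_goal {n : ℕ} (h1 : 4726 ≤ n) (h2 : n ≤ 9971) (hS : Sieve n) : Goal n :=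
  Cert.finU c19_wf ((((((Cert.covB c19_wf c19_b0).trans (Cert.covB c19_wf c19_b1)).trans
    (Cert.covB c19_wf c19_b2)).trans (Cert.covB c19_wf c19_b3)).trans (Cert.covB c19_wf
    c19_b4)).trans (Cert.covF c19_wf c19_f0)) c19_e ⟨h1, Or.inr h2⟩ hS

theorem c20_goal {n : ℕ} (h1 : 9972 ≤ n) (h2 : n ≤ 34290) (hS : Sieve n) : Goal n :=
  Cert.finU c20_wf ((((((Cert.covB c20_wf c20_b0).trans (Cert.covB c20_wf c20_b1)).trans
    (Cert.covB c20_wf c20_b2)).trans (Cert.covB c20_wf c20_b3)).trans (Cert.covB c20_wf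
    c20_b4)).trans (Cert.covF c20_wf c20_f0)) c20_e ⟨h1, Or.inr h2⟩ hS

theorem c21_goal {n : ℕ} (h1 : 34291 ≤ n) (h2 : n ≤ 99999) (hS : Sieve n) : Goal n :=
  Cert.finU c21_wf ((((Cert.covB c21_wf c21_b0).trans (Cert.covB c21_wf c21_b1)).trans (Cert.covB
    c21_wf c21_b2)).trans (Cert.covF c21_wf c21_f0)) c21_e ⟨h1, Or.inr h2⟩ hS

theorem c22_goal {n : ℕ} (h1 : 100000 ≤ n) (hS : Sieve n) : Goal n :=
  Cert.finU c22_wf ((((((Cert.covB c22_wf c22_b0).trans (Cert.covB c22_wf c22_b1)).trans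
    (Cert.covB c22_wf c22_b2)).trans (Cert.covB c22_wf c22_b3)).trans (Cert.covB c22_wf
    c22_b4)).trans (Cert.covF c22_wf c22_f0)) c22_e ⟨h1, Or.inl rfl⟩ hS

theorem goal_of_sieve {n : ℕ} (hn : 97 ≤ n) (hS : Sieve n) : Goal n := by
  by_cases h : n ≤ 101
  · exact c0_goal (by omega) h hS
  replace hn : 102 ≤ n := by omega
  clear h
  by_cases h : n ≤ 109
  · exact c1_goal (by omega) h hS
  replace hn : 110 ≤ n := by omega
  clear h
  by_cases h : n ≤ 118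
  · exact c2_goal (by omega) h hS
  replace hn : 119 ≤ n := by omega
  clear h
  by_cases h : n ≤ 133
  · exact c3_goal (by omega) h hS
  replace hn : 134 ≤ n := by omega
  clear h
  by_cases h : n ≤ 153
  · exact c4_goal (by omega) h hS
  replace hn : 154 ≤ n := by omega
  clear h
  by_cases h : n ≤ 180
  · exact c5_goal (by omega) h hS
  replace hn : 181 ≤ n := by omega
  clear h
  by_cases h : n ≤ 217
  · exact c6_goal (by omega) h hS
  replace hn : 218 ≤ n := by omega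
  clear h
  by_cases h : n ≤ 269
  · exact c7_goal (by omega) h hS
  replace hn : 270 ≤ n := by omega
  clear h
  by_cases h : n ≤ 333
  · exact c8_goal (by omega) h hS
  replace hn : 334 ≤ n := by omega
  clear h
  by_cases h : n ≤ 399
  · exact c9_goal (by omega) h hS
  replace hn : 400 ≤ n := by omega
  clear h
  by_cases h : n ≤ 503
  · exact c10_goal (by omega) h hS
  replace hn : 504 ≤ n := by omega
  clear h
  by_cases h : n ≤ 634
  · exact c11_goal (by omega) h hS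
  replace hn : 635 ≤ n := by omega
  clear h
  by_cases h : n ≤ 799
  · exact c12_goal (by omega) h hS
  replace hn : 800 ≤ n := by omega
  clear h
  by_cases h : n ≤ 1007
  · exact c13_goal (by omega) h hS
  replace hn : 1008 ≤ n := by omega
  clear h
  by_cases h : n ≤ 1231
  · exact c14_goal (by omega) h hS
  replace hn : 1232 ≤ n := by omega
  clear h
  by_cases h : n ≤ 1505
  · exact c15_goal (by omega) h hS
  replace hn : 1506 ≤ n := by omega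
  clear h
  by_cases h : n ≤ 2005
  · exact c16_goal (by omega) h hS
  replace hn : 2006 ≤ n := by omega
  clear h
  by_cases h : n ≤ 2871
  · exact c17_goal (by omega) h hS
  replace hn : 2872 ≤ n := by omega
  clear h
  by_cases h : n ≤ 4725
  · exact c18_goal (by omega) h hS
  replace hn : 4726 ≤ n := by omega
  clear h
  by_cases h : n ≤ 9971
  · exact c19_goal (by omega) h hS
  replace hn : 9972 ≤ n := by omega
  clear h
  by_cases h : n ≤ 34290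
  · exact c20_goal (by omega) h hS
  replace hn : 34291 ≤ n := by omega
  clear h
  by_cases h : n ≤ 99999
  · exact c21_goal (by omega) h hS
  replace hn : 100000 ≤ n := by omega
  clear h
  exact c22_goal (by omega) hS

end Pool.Agent.Eps.T
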